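import Pool.Agent.TPC.ALLD

/-!
TPC: all statements of the counting part in unconditional form (helper47).  `q_XXX` is `St_XXX` with the antecedents
which are themselves statements of the counting part removed (only `Mon L U`, `NPf L U`, `FinN L U`, .. are left).
-/

set_option autoImplicit false

namespace Pool.Agent.TPC

open FirstOrder.Language Set
open scoped FirstOrder

theorem q_BND : St_BND := thm_BND
theorem q_OFQ : type_of% (thm_OFQ thm_BND) := thm_OFQ thm_BND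
theorem q_ALQ : type_of% (thm_ALQ thm_OFQ thm_BND) := thm_ALQ thm_OFQ thm_BND
theorem q_NNQ : type_of% (thm_NNQ thm_OFQ thm_ALQ thm_BND) := thm_NNQ thm_OFQ thm_ALQ thm_BND
theorem q_IMQ : St_IMQ := thm_IMQ
theorem q_GLQ : St_GLQ := thm_GLQ
theorem q_SMQ : type_of% (thm_SMQ thm_GLQ thm_ALQ thm_OFQ thm_BND) :=
  thm_SMQ thm_GLQ thm_ALQ thm_OFQ thm_BND
theorem q_FEQ : St_FEQ := thm_FEQ
theorem q_SEQ : type_of% (thm_SEQ thm_FEQ) := thm_SEQ thm_FEQ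
theorem q_NEA : type_of% (thm_NEA thm_FEQ) := thm_NEA thm_FEQ
theorem q_CLQ : type_of% (thm_CLQ thm_NEA thm_FEQ thm_ALQ thm_IMQ thm_OFQ thm_BND) :=
  thm_CLQ thm_NEA thm_FEQ thm_ALQ thm_IMQ thm_OFQ thm_BND
theorem q_SEP : type_of% (thm_SEP thm_CLQ thm_SEQ thm_NEA thm_FEQ thm_ALQ thm_IMQ thm_OFQ thm_BND) :=
  thm_SEP thm_CLQ thm_SEQ thm_NEA thm_FEQ thm_ALQ thm_IMQ thm_OFQ thm_BND
theorem q_UNQ :
    type_of% (thm_UNQ thm_SEP thm_CLQ thm_SEQ thm_NEA thm_FEQ thm_ALQ thm_IMQ thm_OFQ thm_BND) :=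
  thm_UNQ thm_SEP thm_CLQ thm_SEQ thm_NEA thm_FEQ thm_ALQ thm_IMQ thm_OFQ thm_BND
theorem q_PMD : St_PMD := thm_PMD
theorem q_HQS : type_of% (thm_HQS thm_CLQ thm_SEQ thm_NEA thm_FEQ thm_ALQ thm_IMQ thm_OFQ thm_BND) :=
  thm_HQS thm_CLQ thm_SEQ thm_NEA thm_FEQ thm_ALQ thm_IMQ thm_OFQ thm_BND
theorem q_FCP : type_of% (thm_FCP thm_HQS thm_PMD thm_SEP thm_CLQ thm_SEQ thm_NEA thm_FEQ thm_ALQ thm_IMQ
    thm_OFQ thm_BND) :=
  thm_FCP thm_HQS thm_PMD thm_SEP thm_CLQ thm_SEQ thm_NEA thm_FEQ thm_ALQ thm_IMQ thm_OFQ thm_BND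
theorem q_RCH : St_RCH := thm_RCH thm_FEQ
theorem q_LOB : St_LOB := thm_LOB
theorem q_LGR : St_LGR := thm_LGR
theorem q_LIN : St_LIN := thm_LIN (thm_LPC thm_LOB) (thm_LSU thm_LOB) thm_LOB thm_FEQ
theorem q_LNW : St_LNW := thm_LNW q_LIN thm_LOB
theorem q_LNI : St_LNI := thm_LNI q_LNW q_RCH q_LIN thm_LOB
theorem q_LXT : St_LXT := thm_LXT q_LNW q_LNI (thm_LCL thm_LGR thm_LOB) q_RCH
theorem q_FOB : St_FOB := thm_FOB
theorem q_FSU : St_FSU := thm_FSU thm_FOB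
theorem q_FRM : St_FRM := thm_FRM (thm_FSU thm_FOB) thm_FOB
theorem q_FIF : St_FIF := thm_FIF q_FRM
theorem q_FCT : St_FCT := thm_FCT q_FIF thm_FOB
theorem q_LMT : St_LMT := thm_LMT
theorem q_EMB : St_EMB := thm_EMB
theorem q_OMJ : St_OMJ := all_OMJ
theorem q_CHN : St_CHN := thm_CHN all_OMJ thm_LMT thm_EMB thm_FEQ
theorem q_CJP : St_CJP := thm_CJP
theorem q_LF2 : St_LF2 := thm_LF2
theorem q_RIG : St_RIG := thm_RIG thm_CJP thm_LF2 thm_UNQ thm_FCP q_LNW q_RCH thm_SEP thm_HQS thm_PMD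
theorem q_NRQ : St_NRQ := thm_NRQ thm_CJP thm_LF2 thm_UNQ thm_FCP thm_HQS thm_PMD thm_SEP
theorem q_CPT : St_CPT := thm_CPT
theorem q_PAR : St_PAR := thm_PAR thm_CPT q_LXT q_FCT q_RIG q_NRQ

end Pool.Agent.TPC
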