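import Pool.Agent.TPC.StZ

/-!
TPC [BGC]: calculus of `Big` (helper43).
-/

set_option autoImplicit false
set_option linter.unusedVariables false

namespace Pool.Agent.TPC

open FirstOrder.Language Set
open scoped FirstOrder
open Pool.Agent.WOM (tp Mon IsEl IsoM CtU Fx Orb Isd)
open Pool.Agent.PMC (Sm Md NPf def_img)
open Pool.Agent.MNO (Dp FE Sq Nx SmN FE1 FinN nx_conj)

section bgc

variable {L : FirstOrder.Language.{0, 0}} {U : Type} [L.Structure U]

private theorem BGC_symm_img (g : U ≃[L] U) (X : Set U) : g.symm '' (g '' X) = X := by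
  ext x
  constructor
  · rintro ⟨_, ⟨y, hy, rfl⟩, rfl⟩
    rw [g.symm_apply_apply]
    exact hy
  · intro hx
    exact ⟨g x, ⟨x, hx, rfl⟩, g.symm_apply_apply x⟩

private theorem BGC_img_symm (g : U ≃[L] U) (X : Set U) : g '' (g.symm '' X) = X := by
  ext x
  constructor
  · rintro ⟨_, ⟨y, hy, rfl⟩, rfl⟩
    rw [g.apply_symm_apply]
    exact hy
  · intro hx
    exact ⟨g.symm x, ⟨x, hx, rfl⟩, g.apply_symm_apply x⟩

private theorem BGC_smn (hM : Mon L U) {A X Y : Set U} (g : U ≃[L] U) (hS : SmN L A X Y) :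
    SmN L (g '' A) (g '' X) (g '' Y) := by
  obtain ⟨e, he⟩ := hS
  refine ⟨((Equiv.image g.toEquiv X).symm.trans e).trans (Equiv.image g.toEquiv Y),
    fun s hs => ?_⟩
  obtain ⟨h, hh, h2⟩ := he ((Equiv.image g.toEquiv X).symm '' s) (hs.image _)
  refine ⟨g.comp (h.comp g.symm), nx_conj hM g hh, ?_⟩
  intro x hx
  have h3 := h2 _ (mem_image_of_mem _ hx)
  have h4 : ((Equiv.image g.toEquiv X).symm x : U) = g.symm x := by
    obtain ⟨y, rfl⟩ := (Equiv.image g.toEquiv X).surjective x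
    rw [Equiv.symm_apply_apply]
    show (y : U) = g.symm (g y)
    rw [g.symm_apply_apply]
  show g (h (g.symm x)) = g (e ((Equiv.image g.toEquiv X).symm x))
  rw [← h4, h3]

private theorem BGC_el (hMon : Mon L U) {M : Set U} (hM : IsEl L M) (t : U ≃[L] U) :
    IsEl L (t '' M) := by
  intro s hs hne
  have h1 := def_img hMon t.symm hs
  rw [BGC_symm_img] at h1
  obtain ⟨z, ⟨y, hy, rfl⟩, hz2⟩ := hM _ h1 (hne.image _)
  refine ⟨y, hy, t.symm y, hz2, ?_⟩
  exact t.apply_symm_apply y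

private theorem BGC_md (hMon : Mon L U) {A M : Set U} (hM : Md L A M) (t : U ≃[L] U) :
    Md L (t '' A) (t '' M) := ⟨BGC_el hMon hM.1 t, image_mono hM.2⟩

private theorem BGC_cpt (hMon : Mon L U) {A Q : Set U} (g : U ≃[L] U) (h : Cpt L A Q) :
    Cpt L (g '' A) (g '' Q) := by
  obtain ⟨c, hc, hc'⟩ := h
  refine ⟨fun n => g '' c n, fun n => BGC_md hMon (hc n) g, fun M hM => ?_⟩
  have h1 := BGC_md hMon hM g.symm
  rw [BGC_symm_img] at h1
  obtain ⟨n, hn⟩ := hc' _ h1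
  refine ⟨n, ?_⟩
  have h2 := BGC_smn hMon g hn
  have hi : Function.Injective (g : U → U) := g.injective
  rw [image_inter hi, image_inter hi, BGC_img_symm] at h2
  exact h2

end bgc

/-- [BGC] -/
theorem thm_BGC (hRPL : St_RPL) : St_BGC := by
  intro L U _ hM hN A z hA
  have hq := q_ALQ L U hM
  refine ⟨?_, ?_, ?_, ?_, ?_⟩
  · rintro z' hz' ⟨B, z1, hB, hAB, hz1, hc⟩
    refine ⟨B, z1, hB, hAB, ?_, hc⟩
    rw [(hq A hA).2.2.2.2.2.2.2.1 z z' hz']
    exact hz1
  · rintro A' hA' hAA z' hz' ⟨B, z1, hB, hAB, hz1, hc⟩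
    refine ⟨B, z1, hB, hAA.trans hAB, ?_, hc⟩
    have h1 := (hq A hA).2.2.2.2.2.2.2.2.2 A' hA' hAA z' hz1
    rw [(hq A hA).2.2.2.2.2.2.2.1 z z' hz'] at h1
    exact h1
  · rintro W hW hd ⟨B, z1, hB, hAB, hz1, hc⟩
    have h1 : Pq L B z1 ⊆ Pq L A z := by
      have h2 := (hq A hA).2.2.2.2.2.2.2.2.2 B hB hAB z1
      rw [(hq A hA).2.2.2.2.2.2.2.1 z z1 hz1] at h2
      exact h2
    have hd1 : Disjoint W (Pq L B z1) := hd.mono_right h1
    have h3 := hRPL L U hM hN B W z1 hB hW hd1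
    refine ⟨B ∪ W, z1, hB.union hW, union_subset_union_left W hAB, ?_, ?_⟩
    · rw [(hRPL L U hM hN A W z hA hW hd).1]
      exact hz1
    · rw [h3.1]
      exact fun h => hc (h3.2.2.2.1 h)
  · rintro g ⟨B, z1, hB, hAB, hz1, hc⟩
    refine ⟨g '' B, g z1, hB.image _, image_mono hAB, ?_, fun h => hc ?_⟩
    · rw [← (q_IMQ L U hM A hA).2.1 g z]
      exact mem_image_of_mem _ hz1
    · rw [← (q_IMQ L U hM B hB).2.1 g z1] at h
      have h1 := BGC_cpt hM g.symm h
      rw [BGC_symm_img, BGC_symm_img] at h1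
      exact h1
  · intro hR
    refine ⟨fun _ => univ, fun _ => ⟨fun s _ hs => ?_, subset_univ A⟩, fun M hMd => ⟨0, ?_⟩⟩
    · rw [inter_univ]
      exact hs
    · rw [univ_inter]
      exact hR M hMd

end Pool.Agent.TPC
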