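import Pool.Agent.TPC.StZ

/-!
TPC, module CTZ (helper40): the count, if no piece is big.
-/

set_option autoImplicit false
set_option linter.unusedVariables false

namespace Pool.Agent.TPC

open FirstOrder.Language Set
open scoped FirstOrder
open Pool.Agent.WOM (tp Mon IsEl IsoM CtU Fx Orb Isd)
open Pool.Agent.PMC (Sm Md NPf)
open Pool.Agent.MNO (Dp FE Sq Nx SmN FE1 FinN)

/-- [CTZ] -/
theorem thm_CTZ : St_CTZ := by
  intro L U _ hM hN hF hB
  obtain ⟨-, -, c3, -⟩ := q_CPT L U hM ∅ univ finite_empty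
  obtain ⟨a1, -, -, -, -, -, -, -, -, -⟩ := q_ALQ L U hM ∅ finite_empty
  obtain ⟨c, hc, hc'⟩ := c3 a1.2 (q_NRQ L U hM hN hF ∅ finite_empty) fun z _ => by
    refine Or.inr ?_
    by_contra hz
    exact hB z ⟨∅, z, finite_empty, Subset.rfl, fun _ _ => Iff.rfl, hz⟩
  obtain ⟨-, -, -, -, -, -, s7, -⟩ := q_SMQ L U hM
  refine ⟨c, fun M hMe => ?_⟩
  obtain ⟨n, hn⟩ := hc' M ⟨hMe, empty_subset M⟩
  rw [inter_univ, inter_univ] at hn
  exact ⟨n, s7 M (c n) hn⟩

end Pool.Agent.TPC
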