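import Pool.Agent.TPC.StZ

/-!
TPC, module CVA: a piece over `A` inside a cluster: `A` meets the cluster.
-/

set_option autoImplicit false
set_option linter.unusedVariables false

namespace Pool.Agent.TPC

open FirstOrder.Language Set
open scoped FirstOrder
open Pool.Agent.WOM (tp Mon IsEl IsoM CtU Fx Orb Isd)
open Pool.Agent.PMC (Sm Md NPf)
open Pool.Agent.MNO (Dp FE Sq Nx SmN FE1 FinN)

/-- free case: the cluster of `z` can be moved over `A ∪ H` away from a finite set -/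
private theorem CVA_free {L : FirstOrder.Language.{0, 0}} {U : Type} [L.Structure U]
    (hM : Mon L U) {H E : Set U} {cl : U → U → Prop} (hF : Fre L H E cl) {y z : U} (hy : y ∈ E)
    (hz : z ∈ E) (hyz : cl y z) {A : Set U} (hA : A.Finite)
    (hAK : ∀ a ∈ A, a ∈ E → ¬ cl y a) (D : Set U) (hD : D.Finite) :
    ∃ h : U ≃[L] U, Fx L (A ∪ H) h ∧ ∀ v, v ∈ E → cl y v → h v ∉ D := by
  obtain ⟨hdis, two, three, -⟩ := q_FOB L U hM H E cl hF
  obtain ⟨g, hg, hgD⟩ := hF.inf z hz ((D ∪ A) ∩ E) ((hD.union hA).subset inter_subset_left)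
    inter_subset_right
  have hgz : g z ∈ E := (hF.fxE g hg.1 z).2 hz
  obtain ⟨h1, h1n, h1W, h1z⟩ := two {z} (A ∩ E) (finite_singleton z)
    (hA.subset inter_subset_left) (singleton_subset_iff.2 hz) inter_subset_right
    (by
      intro s hs w hw hc
      rw [mem_singleton_iff] at hs
      rw [hs] at hc
      exact hAK w hw.1 hw.2 (hF.tra y hy z hz w hw.2 hyz hc))
    g hg
    (by
      intro s hs w hw hc
      rw [mem_singleton_iff] at hs
      rw [hs] at hc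
      exact hgD w ⟨Or.inr hw.1, hw.2⟩ (hF.sym _ hgz w hw.2 hc))
  obtain ⟨h, hn, hB, hE⟩ := three (A ∪ H) h1 h1n (by
    rintro b (hb | hb) hbE
    · exact h1W b ⟨hb, hbE⟩
    · exact absurd hbE (disjoint_left.1 hdis hb))
  refine ⟨h, hB, fun v hv hyv hd => ?_⟩
  have hvE : h v ∈ E := (hF.fxE h hn.1 v).2 hv
  have hzv : cl z v := hF.tra z hz y hy v hv (hF.sym y hy z hz hyz) hyv
  have h2 : cl (h z) (h v) := (hF.fxc h hn.1 z hz v hv).2 hzv
  rw [hE z hz, h1z z rfl] at h2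
  exact hgD (h v) ⟨Or.inl hd, hvE⟩ (hF.sym _ hgz _ hvE h2)

/-- linear case -/
private theorem CVA_lin {L : FirstOrder.Language.{0, 0}} {U : Type} [L.Structure U]
    (hM : Mon L U) {H E : Set U} {lt : U → U → Prop} (hL : Lin L H E lt) {z : U}
    (hz : z ∈ E) {A : Set U} (hA : A.Finite)
    (hAK : ∀ a ∈ A, a ∈ E → lt z a ∨ lt a z) (D : Set U) (hD : D.Finite) :
    ∃ h : U ≃[L] U, Fx L (A ∪ H) h ∧ ∀ v, v ∈ E → ¬ lt z v → ¬ lt v z → h v ∉ D := by
  obtain ⟨-, hdis, -, -, five, -, seven⟩ := q_LOB L U hM H E lt hL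
  let D0 : Set U := {a | a ∈ A ∧ a ∈ E ∧ lt a z}
  let V0 : Set U := {a | a ∈ A ∧ a ∈ E ∧ lt z a}
  let D1 : Set U := D0 ∪ {d | d ∈ D ∧ d ∈ E ∧ ∀ v ∈ V0, lt d v}
  have hD0 : D0.Finite := hA.subset fun a ha => ha.1
  have hV0 : V0.Finite := hA.subset fun a ha => ha.1
  have hD1 : D1.Finite := hD0.union (hD.subset fun a ha => ha.1)
  have hD0E : D0 ⊆ E := fun a ha => ha.2.1
  have hV0E : V0 ⊆ E := fun a ha => ha.2.1
  have hD1E : D1 ⊆ E := by
    rintro d (hd | hd)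
    · exact hD0E hd
    · exact hd.2.1
  have l0 : LT lt D0 V0 := fun d hd v hv => hL.tra d hd.2.1 z hz v hv.2.1 hd.2.2 hv.2.2
  have l1 : LT lt D1 V0 := by
    rintro d (hd | hd) v hv
    · exact l0 d hd v hv
    · exact hd.2.2 v hv
  obtain ⟨g, hg, g1, g2⟩ := hL.gap D1 V0 hD1 hV0 hD1E hV0E l1 z hz
  have hgz : g z ∈ E := (hL.fxE g hg.1 z).2 hz
  obtain ⟨h1, h1n, h1D, h1V, h1z⟩ := five D0 {z} V0 hD0 (finite_singleton z) hV0 hD0E
    (singleton_subset_iff.2 hz) hV0E l0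
    (by
      intro d hd w hw
      rw [mem_singleton_iff] at hw
      rw [hw]
      exact hd.2.2)
    (by
      intro w hw v hv
      rw [mem_singleton_iff] at hw
      rw [hw]
      exact hv.2.2)
    g hg
    (by
      rintro d hd _ ⟨w, hw, rfl⟩
      rw [mem_singleton_iff] at hw
      rw [hw]
      exact g1 d (Or.inl hd) (g z) rfl)
    (by
      rintro _ ⟨w, hw, rfl⟩ v hv
      rw [mem_singleton_iff] at hw
      rw [hw]
      exact g2 (g z) rfl v hv)
  obtain ⟨h, hn, hB, hE⟩ := seven (A ∪ H) h1 h1n (by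
    rintro b (hb | hb) hbE
    · rcases hAK b hb hbE with h2 | h2
      · exact h1V b ⟨hb, hbE, h2⟩
      · exact h1D b ⟨hb, hbE, h2⟩
    · exact absurd hbE (disjoint_left.1 hdis hb))
  refine ⟨h, hB, fun v hv hzv hvz hd => ?_⟩
  have hvE : h v ∈ E := (hL.fxE h hn.1 v).2 hv
  have e : h z = g z := by rw [hE z hz, h1z z rfl]
  have k1 : ¬ lt (g z) (h v) := fun hc => hzv ((hL.fxl h hn.1 z hz v hv).1 (by rw [e]; exact hc))
  have k2 : ¬ lt (h v) (g z) := fun hc => hvz ((hL.fxl h hn.1 v hv z hz).1 (by rw [e]; exact hc))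
  refine k2 (g1 (h v) (Or.inr ⟨hd, hvE, fun w hw => ?_⟩) (g z) rfl)
  exact (hL.neg (g z) hgz (h v) hvE w (hV0E hw) (g2 (g z) rfl w hw)).resolve_left k1

theorem thm_CVA (hGLK : St_GLK) : St_CVA := by
  intro L U _ hM hN H K y hC A z hA hP
  by_contra hcon
  push Not at hcon
  obtain ⟨⟨hHf, hHK, hyK⟩, -, -, -⟩ := hGLK L U hM H K y hC
  have hself : ∀ (B : Set U) (x : U), x ∈ Pq L B x := fun B x Q hQ => Iff.rfl
  have hzK : z ∈ K := hP (hself A z)
  have hBf : (A ∪ H).Finite := hA.union hHf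
  have hPB : Pq L (A ∪ H) z = Pq L A z :=
    q_NNQ L U hM A H z hA hHf (hHK.mono_right hP)
  -- the claim
  have claim : ∀ D : Set U, D.Finite →
      ∃ h : U ≃[L] U, Fx L (A ∪ H) h ∧ ∀ v ∈ K, h v ∉ D := by
    intro D hD
    rcases hC with ⟨E, lt, hL, hyE, rfl⟩ | ⟨E, cl, hF, hyE, rfl⟩
    · obtain ⟨hzE, z1, z2⟩ := hzK
      obtain ⟨h, hB, hh⟩ := CVA_lin hM hL hzE hA (by
        intro a ha haE
        have h1 : lt y a ∨ lt a y := by
          by_contra h2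
          push Not at h2
          exact hcon a ha ⟨haE, h2.1, h2.2⟩
        rcases h1 with h1 | h1
        · left
          exact (hL.neg y hyE z hzE a haE h1).resolve_left z1
        · right
          exact (hL.neg a haE z hzE y hyE h1).resolve_right z2) D hD
      refine ⟨h, hB, fun v hv => hh v hv.1 (fun hc => ?_) fun hc => ?_⟩
      · rcases hL.neg z hzE y hyE v hv.1 hc with h1 | h1
        · exact z2 h1
        · exact hv.2.1 h1
      · rcases hL.neg v hv.1 y hyE z hzE hc with h1 | h1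
        · exact hv.2.2 h1
        · exact z1 h1
    · obtain ⟨hzE, z1⟩ := hzK
      obtain ⟨h, hB, hh⟩ := CVA_free hM hF hyE hzE z1 hA
        (fun a ha haE hc => hcon a ha ⟨haE, hc⟩) D hD
      exact ⟨h, hB, fun v hv => hh v hv.1 hv.2⟩
  -- the pigeonhole
  have hfin : {P : Set U | ∃ x ∈ Orb L (A ∪ H) z, P = Pq L (A ∪ H) x}.Finite :=
    q_FCP L U hM hN (A ∪ H) hBf z
  have hne : ∀ P : Set U, ∃ d : U, P.Nonempty → d ∈ P := by
    intro P
    rcases P.eq_empty_or_nonempty with h1 | ⟨d, hd⟩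
    · exact ⟨y, fun h2 => absurd h1 h2.ne_empty⟩
    · exact ⟨d, fun _ => hd⟩
  choose ch hch using hne
  obtain ⟨h, hB, hh⟩ := claim _ (hfin.image ch)
  have hPh : Pq L (A ∪ H) (h z) ∈ {P : Set U | ∃ x ∈ Orb L (A ∪ H) z, P = Pq L (A ∪ H) x} :=
    ⟨h z, ⟨h, hB, rfl⟩, rfl⟩
  have h3 : ch (Pq L (A ∪ H) (h z)) ∈ Pq L (A ∪ H) (h z) := hch _ ⟨h z, hself _ _⟩
  have h4 : h '' Pq L (A ∪ H) z = Pq L (A ∪ H) (h z) :=
    (q_IMQ L U hM (A ∪ H) hBf).2.2 h hB z
  rw [← h4] at h3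
  obtain ⟨v, hv, e⟩ := h3
  rw [hPB] at hv
  refine hh v (hP hv) ?_
  rw [e, h4]
  exact mem_image_of_mem ch hPh

end Pool.Agent.TPC
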