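import Pool.Agent.TPC.StZ

/-!
TPC, FNA: linear pieces and free unions of clusters have no new strong types (helper44)
-/

set_option autoImplicit false
set_option linter.unusedVariables false

namespace Pool.Agent.TPC

open FirstOrder.Language Set
open scoped FirstOrder
open Pool.Agent.WOM (tp Mon IsEl IsoM CtU Fx Orb Isd)
open Pool.Agent.PMC (Sm Md NPf)
open Pool.Agent.MNO (Dp FE Sq Nx SmN FE1 FinN nx_refl nx_symm nx_comp nx_mono)

theorem thm_FNA : St_FNA := by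
  intro L U _ hM hNP B E hLF M p hMp
  by_contra hcon
  have hpn : ∀ n, ∀ z ∈ M n, ¬ ∃ g : U ≃[L] U, Nx L B g ∧ g z = p n := by
    intro n z hz h
    exact hcon ⟨n, z, hz, h⟩
  have hmono : ∀ n m, n ≤ m → M n ⊆ M m := by
    intro n m hnm
    induction m, hnm using Nat.le_induction with
    | base => exact Subset.rfl
    | succ k _ ih => exact ih.trans (hMp k).2.1
  rcases hLF with ⟨lt, hL⟩ | ⟨cl, hF⟩
  · -- linear
    obtain ⟨-, -, hpM, hpE⟩ := hMp 0
    obtain ⟨z, hzM, hzE, e, he⟩ := q_LNW L U hM hNP B E lt hL (M 0) (M 1) (p 0)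
      ((q_RCH L U hM B hL.fin).2 B (M 0) Subset.rfl (hMp 0).1) (hMp 1).1.1 hpM hpE
    have hpI : p 0 ∈ Iv E lt (M 1) (p 0) (p 0) := ⟨hpM, hpE, hL.irr _ hpE, hL.irr _ hpE⟩
    obtain ⟨g, hg, hge⟩ := he {⟨p 0, hpI⟩} (finite_singleton _)
    have h1 : g (p 0) = e ⟨p 0, hpI⟩ := hge _ rfl
    refine hpn 0 _ (e ⟨p 0, hpI⟩).2.1 ⟨g.symm, nx_symm hg, ?_⟩
    rw [← h1]
    exact g.symm_apply_apply (p 0)
  · -- free
    have hout : ∀ (k : ℕ) (X Y : Set U), p k ∈ X → Y ⊆ M k → ¬ SmN L B X Y := by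
      rintro k X Y hX hY ⟨e, he⟩
      obtain ⟨g, hg, hge⟩ := he {⟨p k, hX⟩} (finite_singleton _)
      have h1 : g (p k) = e ⟨p k, hX⟩ := hge _ rfl
      refine hpn k _ (hY (e ⟨p k, hX⟩).2) ⟨g.symm, nx_symm hg, ?_⟩
      rw [← h1]
      exact g.symm_apply_apply (p k)
    have hin : ∀ (k : ℕ) (X Y : Set U), p k ∈ Y → X ⊆ M k → ¬ SmN L B X Y := by
      rintro k X Y hY hX ⟨e, he⟩
      obtain ⟨g, hg, hge⟩ := he {e.symm ⟨p k, hY⟩} (finite_singleton _)
      have h1 : g (e.symm ⟨p k, hY⟩) = e (e.symm ⟨p k, hY⟩) := hge _ rfl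
      rw [e.apply_symm_apply] at h1
      exact hpn k _ (hX (e.symm ⟨p k, hY⟩).2) ⟨g, hg, h1⟩
    have hself : ∀ k, p k ∈ Kl E cl (M (k + 1)) (p k) :=
      fun k => ⟨(hMp k).2.2.1, (hMp k).2.2.2, hF.rfl _ (hMp k).2.2.2⟩
    refine q_FIF L U hM hNP B E cl hF (M 0) (hMp 0).1.1 (fun k => M (k + 1)) p
      (fun k => ⟨(hMp (k + 1)).1.1, (hMp k).2.2.1, (hMp k).2.2.2⟩) ?_ ?_
    · intro k l hkl
      rcases lt_or_gt_of_ne hkl with h | h
      · refine hin l _ _ (hself l) fun z hz => ?_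
        exact hmono (k + 1) l h hz.1
      · refine hout k _ _ (hself k) fun z hz => ?_
        exact hmono (l + 1) k h hz.1
    · intro k
      have h1 : Lab L B E cl (M 0) (Kl E cl (M (k + 1)) (p k)) = ∅ := by
        rw [Set.eq_empty_iff_forall_notMem]
        rintro K' ⟨z, hz, hzE, rfl, hS⟩
        refine hout k _ _ (hself k) (fun w hw => ?_) hS
        exact hmono 0 k (Nat.zero_le k) hw.1
      rw [h1]
      exact finite_empty

end Pool.Agent.TPC
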