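import Pool.Agent.TPC.StZ

/-!
TPC, module FNB: infinite multiplicity gives a new strong type in a piece.
-/

set_option autoImplicit false
set_option linter.unusedVariables false

namespace Pool.Agent.TPC

open FirstOrder.Language Set
open scoped FirstOrder
open Pool.Agent.WOM (tp Mon IsEl IsoM CtU Fx Orb Isd)
open Pool.Agent.PMC (Sm Md NPf)
open Pool.Agent.MNO (Dp FE Sq Nx SmN FE1 FinN)

/-- [FNB] -/
theorem thm_FNB : St_FNB := by
  intro L U _ hMon hNPf hF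
  classical
  have hF' : ∃ A : Set U, A.Finite ∧ ∃ x : U, ¬ ∃ s : Set U, s.Finite ∧
      ∀ y ∈ Orb L A x, ∃ z ∈ s, ∃ g : U ≃[L] U, Nx L A g ∧ g z = y := by
    by_contra h
    refine hF fun A hA x => ?_
    by_contra h1
    exact h ⟨A, hA, x, h1⟩
  obtain ⟨A, hA, x, hx⟩ := hF'
  have hfc : {P : Set U | ∃ y ∈ Orb L A x, P = Pq L A y}.Finite := q_FCP L U hMon hNPf A hA x
  have hch : ∀ P : Set U, ∃ z : U, (∃ y ∈ Orb L A x, P = Pq L A y) → P = Pq L A z := by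
    intro P
    by_cases h : ∃ y ∈ Orb L A x, P = Pq L A y
    · obtain ⟨y, hy, rfl⟩ := h
      exact ⟨y, fun _ => rfl⟩
    · exact ⟨x, fun h1 => absurd h1 h⟩
  choose z hz using hch
  set B : Set U := A ∪ z '' {P : Set U | ∃ y ∈ Orb L A x, P = Pq L A y} with hB
  have hBf : B.Finite := hA.union (hfc.image z)
  obtain ⟨M, y, hM⟩ := q_CHN L U hMon A B x subset_union_left hBf hx
  obtain ⟨hS, -, -, hy, hn⟩ := hM 0
  have hP : Pq L A (y 0) = Pq L A (z (Pq L A (y 0))) := hz _ ⟨y 0, hy, rfl⟩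
  refine ⟨A, M 0, z (Pq L A (y 0)), y 0, hA, ⟨⟨hS.1.1, ?_⟩, hS.2⟩, ?_, hn⟩
  · refine insert_subset ?_ (subset_union_left.trans hS.1.2)
    exact hS.1.2 (Or.inr ⟨_, ⟨y 0, hy, rfl⟩, rfl⟩)
  · rw [← hP]
    exact fun Q _ => Iff.rfl

end Pool.Agent.TPC
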