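import Pool.Agent.TPC.StZ

/-!
TPC, module FNT (helper18): finite multiplicity of tuples.
-/

set_option autoImplicit false
set_option linter.unusedVariables false

namespace Pool.Agent.TPC

open FirstOrder.Language Set
open scoped FirstOrder
open Pool.Agent.WOM (tp Mon IsEl IsoM CtU Fx Orb Isd)
open Pool.Agent.PMC (Sm Md NPf fx_refl fx_symm fx_comp fx_mono comp_apply')
open Pool.Agent.MNO (Dp FE Sq Nx SmN FE1 FinN nx_sq nx_of_sq nx_symm nx_comp nx_mono nx_refl nx_fx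
  fe_inf fe_top)

variable {L : FirstOrder.Language.{0, 0}} {U : Type} [L.Structure U]

/-- finitely many representatives for the orbits of `Nx A` in the orbit of a tuple -/
private theorem rep (hF : FinN L U) {A : Set U} (hA : A.Finite) (n : ℕ) (t : Fin n → U) :
    ∃ S : Set (Fin n → U), S.Finite ∧ ∀ s : Fin n → U,
      (∃ g : U ≃[L] U, Fx L A g ∧ ∀ i, g (t i) = s i) →
      ∃ s' ∈ S, ∃ g : U ≃[L] U, Nx L A g ∧ ∀ i, g (s' i) = s i := by
  induction n with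
  | zero =>
    exact ⟨{t}, finite_singleton t, fun s _ => ⟨t, rfl, _, nx_refl A, fun i => i.elim0⟩⟩
  | succ n ih =>
    obtain ⟨S, hS, h⟩ := ih (fun i => t i.castSucc)
    have h1 : ∀ s' : Fin n → U, ∃ T : Set U, T.Finite ∧ ∀ a : U,
        (∃ g : U ≃[L] U, Fx L A g ∧ (∀ i : Fin n, g (t i.castSucc) = s' i) ∧ g (t (Fin.last n)) = a) →
        ∃ z ∈ T, ∃ g : U ≃[L] U, Nx L (A ∪ range s') g ∧ g z = a := by
      intro s'
      by_cases h2 : ∃ g : U ≃[L] U, Fx L A g ∧ ∀ i : Fin n, g (t i.castSucc) = s' i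
      · obtain ⟨g, hg, hg'⟩ := h2
        obtain ⟨T, hT, hT'⟩ := hF (A ∪ range s') (hA.union (finite_range s')) (g (t (Fin.last n)))
        refine ⟨T, hT, ?_⟩
        rintro a ⟨k, hk, hk', rfl⟩
        refine hT' _ ⟨k.comp g.symm, ?_, ?_⟩
        · rintro x (hx | ⟨i, rfl⟩)
          · exact fx_comp hk (fx_symm hg) x hx
          · rw [comp_apply', ← hg' i, g.symm_apply_apply, hk', hg']
        · rw [comp_apply', g.symm_apply_apply]
      · exact ⟨∅, finite_empty, fun a ⟨g, hg, hg', _⟩ => absurd ⟨g, hg, hg'⟩ h2⟩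
    choose T hT hT' using h1
    refine ⟨⋃ s' ∈ S, (fun z => (Fin.snoc s' z : Fin (n + 1) → U)) '' T s',
      hS.biUnion fun s' _ => (hT s').image _, ?_⟩
    rintro s ⟨g, hg, hgs⟩
    obtain ⟨s', hs', k, hk, hks⟩ := h (fun i => s i.castSucc) ⟨g, hg, fun i => hgs i.castSucc⟩
    obtain ⟨z, hz, m, hm, hmz⟩ := hT' s' (k.symm (s (Fin.last n))) ⟨k.symm.comp g,
      fx_comp (fx_symm (nx_fx hk)) hg, fun i => by
        rw [comp_apply', hgs, ← hks i, k.symm_apply_apply], by rw [comp_apply', hgs]⟩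
    refine ⟨Fin.snoc s' z, mem_biUnion hs' ⟨z, hz, rfl⟩, k.comp m,
      nx_comp hk (nx_mono subset_union_left hm), fun i => ?_⟩
    refine Fin.lastCases ?_ (fun j => ?_) i
    · rw [Fin.snoc_last, comp_apply', hmz, k.apply_symm_apply]
    · rw [Fin.snoc_castSucc, comp_apply', hm.1 (s' j) (Or.inr ⟨j, rfl⟩), hks]

theorem thm_FNT : St_FNT := by
  intro L U _ hM hF A n t hA
  obtain ⟨S, hS, hS'⟩ := rep hF hA n t
  have h1 : ∀ s' : Fin n → U, ∃ F : (Fin n → U) → (Fin n → U) → Prop, FE L A F ∧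
      (F t s' → ∃ g : U ≃[L] U, Nx L A g ∧ ∀ i, g (t i) = s' i) := by
    intro s'
    by_cases h2 : ∃ g : U ≃[L] U, Nx L A g ∧ ∀ i, g (t i) = s' i
    · exact ⟨_, fe_top A, fun _ => h2⟩
    · have h3 : ¬ Sq L A t s' := fun h3 => h2 (nx_of_sq hM hA h3)
      unfold Sq at h3
      push Not at h3
      obtain ⟨F, hF1, hF2⟩ := h3
      exact ⟨F, hF1, fun h4 => absurd h4 hF2⟩
  choose F hF1 hF2 using h1
  obtain ⟨E, hE, hE'⟩ := fe_inf (A := A) (hS.image F) (by
    rintro _ ⟨s', -, rfl⟩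
    exact hF1 s')
  refine ⟨E, hE, fun s hs hts => ?_⟩
  obtain ⟨s', hs', g, hg, hgs⟩ := hS' s hs
  have h2 : F s' t s := hE' _ ⟨s', hs', rfl⟩ t s hts
  have h3 : F s' s' s := by
    have h4 := nx_sq hg s' (F s') (hF1 s')
    have h5 : (fun i => g (s' i)) = s := funext hgs
    rwa [h5] at h4
  obtain ⟨k, hk, hkt⟩ := hF2 s' ((hF1 s').eqv.trans h2 ((hF1 s').eqv.symm h3))
  exact ⟨g.comp k, nx_comp hg hk, fun i => by rw [comp_apply', hkt, hgs]⟩

end Pool.Agent.TPC
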