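import Pool.Agent.TPC.StZ

/-!
TPC [HRG]: rigid is hereditary (helper72).
-/

set_option autoImplicit false
set_option linter.unusedVariables false

namespace Pool.Agent.TPC

open FirstOrder.Language Set
open scoped FirstOrder
open Pool.Agent.WOM (tp Mon IsEl IsoM CtU Fx Orb Isd)
open Pool.Agent.PMC (Sm Md NPf fx_refl fx_symm fx_comp fx_mono def_img)
open Pool.Agent.MNO (Dp FE Sq Nx SmN FE1 FinN nx_mono nx_conj nx_fx)

section hrg

variable {L : FirstOrder.Language.{0, 0}} {U : Type} [L.Structure U]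

private theorem HRG_inter {A X Y Q : Set U}
    (hQ : ∀ g : U ≃[L] U, Fx L A g → ∀ x, g x ∈ Q ↔ x ∈ Q)
    (h : Sm L A X Y) : Sm L A (X ∩ Q) (Y ∩ Q) := by
  obtain ⟨e, he⟩ := h
  have hmem : ∀ x : X, ((e x : U) ∈ Q ↔ (x : U) ∈ Q) := by
    intro x
    obtain ⟨g, hg, h1⟩ := he {x} (finite_singleton x)
    rw [← h1 x rfl]
    exact hQ g hg x
  have hmem' : ∀ y : Y, ((e.symm y : U) ∈ Q ↔ (y : U) ∈ Q) := by
    intro y
    rw [← hmem (e.symm y), e.apply_symm_apply]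
  let e' : ((X ∩ Q : Set U)) ≃ ((Y ∩ Q : Set U)) :=
    { toFun := fun x => ⟨e ⟨x, x.2.1⟩, (e ⟨x, x.2.1⟩).2, (hmem ⟨x, x.2.1⟩).2 x.2.2⟩
      invFun := fun y => ⟨e.symm ⟨y, y.2.1⟩, (e.symm ⟨y, y.2.1⟩).2, (hmem' ⟨y, y.2.1⟩).2 y.2.2⟩
      left_inv := fun x => by simp
      right_inv := fun y => by simp }
  refine ⟨e', fun s hs => ?_⟩
  obtain ⟨g, hg, h1⟩ := he ((fun x : (X ∩ Q : Set U) => (⟨x, x.2.1⟩ : X)) '' s) (hs.image _)
  exact ⟨g, hg, fun x hx => h1 ⟨x, x.2.1⟩ (mem_image_of_mem _ hx)⟩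

/-- fix a finite set of points -/
private theorem HRG_pts {A X Y F : Set U} (hS : SmN L A X Y) (hF : F.Finite) (hFX : F ⊆ X) :
    ∃ g : U ≃[L] U, Nx L A g ∧ Sm L (A ∪ F) X (g.symm '' Y) := by
  obtain ⟨e, he⟩ := hS
  have hs0 : {x : X | (x : U) ∈ F}.Finite := hF.preimage (Subtype.val_injective.injOn)
  obtain ⟨g, hg, h2⟩ := he _ hs0
  refine ⟨g, hg, e.trans (Equiv.image g.symm.toEquiv Y), fun s hs => ?_⟩
  obtain ⟨h, hh, h4⟩ := he (s ∪ {x : X | (x : U) ∈ F}) (hs.union hs0)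
  refine ⟨g.symm.comp h, ?_, ?_⟩
  · intro b hb
    rcases hb with hb | hb
    · exact fx_comp (fx_symm (nx_fx hg)) (nx_fx hh) b hb
    · show g.symm (h b) = b
      rw [h4 ⟨b, hFX hb⟩ (Or.inr hb), ← h2 ⟨b, hFX hb⟩ hb, g.symm_apply_apply]
  · intro v hv
    show g.symm (h v) = g.symm (e v)
    rw [h4 v (Or.inl hv)]

end hrg

/-- [HRG] -/
theorem thm_HRG (hRPL : St_RPL) : St_HRG := by
  intro L U _ hMon hNP hFN A B z z' hB hAB hz' hR
  have hA : A.Finite := hB.subset hAB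
  obtain ⟨-, -, -, -, hA5, -, -, hA8, -, hA10⟩ := q_ALQ L U hMon A hA
  have hFcp : ∀ A : Set U, A.Finite → Fcp L A := fun A hA => q_FCP L U hMon hNP A hA
  have hPz : Pq L A z' = Pq L A z := hA8 z z' hz'
  have hB'f : (A ∪ (B ∩ Pq L A z)).Finite := hA.union (hB.inter_of_left _)
  have hB'B : A ∪ (B ∩ Pq L A z) ⊆ B := union_subset hAB inter_subset_left
  have hQP : Pq L (A ∪ (B ∩ Pq L A z)) z' ⊆ Pq L A z := by
    rw [← hPz]
    exact hA10 _ (by rw [hPz]; exact hB'f) (subset_union_left) z'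
  have hsuff : Rgd L (A ∪ (B ∩ Pq L A z)) z' → Rgd L B z' := by
    intro h
    have hdis : Disjoint (B \ (A ∪ (B ∩ Pq L A z))) (Pq L (A ∪ (B ∩ Pq L A z)) z') := by
      rw [Set.disjoint_left]
      intro v hv hv'
      exact hv.2 (Or.inr ⟨hv.1, hQP hv'⟩)
    have h1 := (hRPL L U hMon hNP _ (B \ (A ∪ (B ∩ Pq L A z))) z' hB'f hB.sdiff hdis).2.2.1.1 h
    rw [union_sdiff_cancel hB'B] at h1
    exact h1
  apply hsuff
  by_cases hne : (B ∩ Pq L A z).Nonempty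
  swap
  · rw [not_nonempty_iff_eq_empty.1 hne, union_empty]
    intro M hM
    rw [hPz]
    exact hR M hM
  obtain ⟨b0, hb0B, hb0P⟩ := hne
  intro M hM
  set P := Pq L A z with hP
  set B' := A ∪ (B ∩ P) with hB'
  set Q := Pq L B' z' with hQ
  have hAB' : A ⊆ B' := subset_union_left
  obtain ⟨-, -, -, -, hB5, -, -, hB8, -, -⟩ := q_ALQ L U hMon B' hB'f
  -- the submodel
  set m : U → Set U := fun z => {v | z ∈ Q → v ∈ M} with hm
  have hm1 : ∀ z ∈ Q, m z = M := by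
    intro z hz
    ext v
    exact ⟨fun h => h hz, fun h _ => h⟩
  have hm2 : ∀ z ∉ Q, m z = univ := by
    intro z hz
    ext v
    exact ⟨fun _ => mem_univ v, fun _ h => absurd h hz⟩
  have hbq : Bq L B' Q := (hB5 z').1
  have hM' : Md L B' {z | z ∈ m z} := by
    refine q_UNQ L U hMon B' hB'f (hFcp B' hB'f) m ?_ ?_
    · intro z
      by_cases hz : z ∈ Q
      · rw [hm1 z hz]
        exact hM
      · rw [hm2 z hz]
        exact ⟨fun s _ hne => by rwa [inter_univ], subset_univ _⟩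
    · intro v w hw
      by_cases hv : v ∈ Q
      · rw [hm1 v hv, hm1 w ((hw Q hbq).1 hv)]
      · rw [hm2 v hv, hm2 w fun h => hv ((hw Q hbq).2 h)]
  set M' : Set U := {z | z ∈ m z} with hM'def
  have hout : ∀ v, v ∉ Q → v ∈ M' := by
    intro v hv
    show v ∈ m v
    rw [hm2 v hv]
    exact mem_univ v
  have hSN : SmN L A (M' ∩ P) P := hR M' ⟨hM'.1, hAB'.trans hM'.2⟩
  obtain ⟨g0, hg0, hS2⟩ := HRG_pts hSN (hB.inter_of_left P) (fun v hv =>
    ⟨hM'.2 (Or.inr hv), hv.2⟩ : B ∩ P ⊆ M' ∩ P)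
  have hg0P : g0.symm '' P = P := by
    have hinv := (hA5 z).1.inv g0 hg0
    ext v
    constructor
    · rintro ⟨w, hw, rfl⟩
      refine (hinv _).1 ?_
      rw [g0.apply_symm_apply]
      exact hw
    · intro hv
      exact ⟨g0 v, (hinv v).2 hv, g0.symm_apply_apply v⟩
  rw [hg0P] at hS2
  -- the union of the conjugates
  set Qs : Set U := {v | ∃ k : U ≃[L] U, Fx L B' k ∧ k v ∈ Pq L B' z'} with hQs
  have hQsfx : ∀ k : U ≃[L] U, Fx L B' k → ∀ v, k v ∈ Qs ↔ v ∈ Qs := by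
    intro k hk v
    constructor
    · rintro ⟨k', hk', h⟩
      exact ⟨k'.comp k, fx_comp hk' hk, h⟩
    · rintro ⟨k', hk', h⟩
      refine ⟨k'.comp k.symm, fx_comp hk' (fx_symm hk), ?_⟩
      show k' (k.symm (k v)) ∈ Pq L B' z'
      rw [k.symm_apply_apply]
      exact h
  have hQsP : Qs ⊆ P := by
    rintro v ⟨k, hk, h⟩
    have h1 : k v ∈ P := hQP h
    have h2 := (q_IMQ L U hMon A hA).2.2 k (fx_mono hAB' hk) b0
    rw [hk b0 (Or.inr ⟨hb0B, hb0P⟩), hA8 z b0 hb0P, ← hP] at h2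
    rw [← h2] at h1
    obtain ⟨w, hw, hkw⟩ := h1
    rwa [← k.injective hkw]
  have hS3 := HRG_inter hQsfx hS2
  have e1 : (M' ∩ P) ∩ Qs = M' ∩ Qs := by
    ext v
    exact ⟨fun h => ⟨h.1.1, h.2⟩, fun h => ⟨⟨h.1, hQsP h.2⟩, h.2⟩⟩
  have e2 : P ∩ Qs = Qs := inter_eq_right.2 hQsP
  rw [e1, e2] at hS3
  have hS4 : Sm L B' (M' ∩ Pq L B' z') (Pq L B' z') :=
    q_CJP L U hMon B' M' z' hB'f (hFcp B' hB'f) (fun k hk v hv hkv => hout _ hkv) hS3
  have hS5 := q_LF2 L U hMon hFN B' _ z' hB'f inter_subset_right hS4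
  have e3 : M' ∩ Q = M ∩ Q := by
    ext v
    constructor
    · rintro ⟨hv1, hv2⟩
      have h7 : v ∈ m v := hv1
      rw [hm1 v hv2] at h7
      exact ⟨h7, hv2⟩
    · rintro ⟨hv1, hv2⟩
      refine ⟨?_, hv2⟩
      show v ∈ m v
      rw [hm1 v hv2]
      exact hv1
  rw [← hQ, e3] at hS5
  exact hS5

end Pool.Agent.TPC
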