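import Pool.Agent.TPC.StZ

/-!
TPC, module ISO: few models: the types between two clusters of a linear piece are isolated.
-/

set_option autoImplicit false
set_option linter.unusedVariables false

namespace Pool.Agent.TPC

open FirstOrder.Language Set
open scoped FirstOrder
open Pool.Agent.WOM (tp Mon IsEl IsoM CtU Fx Orb Isd)
open Pool.Agent.PMC (Sm Md NPf)
open Pool.Agent.MNO (Dp FE Sq Nx SmN FE1 FinN)

theorem thm_ISO : St_ISO := by
  intro L U _ hM hN H E lt hL p hp q hq z hz hpz hzq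
  have hB : (H ∪ {p, q} : Set U).Finite := hL.fin.union (by simp)
  obtain ⟨M, hMd, hI⟩ := q_PMD L U hM _ hB
  have hHM : Md L H M := ⟨hMd.1, fun x hx => hMd.2 (Or.inl hx)⟩
  have hpM : p ∈ M := hMd.2 (Or.inr (by simp))
  have hqM : q ∈ M := hMd.2 (Or.inr (by simp))
  have hpq : lt p q := hL.tra p hp z hz q hq hpz hzq
  obtain ⟨z', hz'M, hz'E, hpz', hz'q, e, he⟩ :=
    q_LNI L U hM hN H E lt hL M p q hHM hpM hp hqM hq hpq z hz
  have hzI : z ∈ Iv E lt univ z z := ⟨mem_univ _, hz, hL.irr z hz, hL.irr z hz⟩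
  obtain ⟨g, hg, hge⟩ := he {e.symm ⟨z, hzI⟩} (finite_singleton _)
  have h1 := hge _ (mem_singleton _)
  rw [Equiv.apply_symm_apply] at h1
  obtain ⟨⟨z1, hz1⟩, hz1e⟩ : ∃ w : Iv E lt M z' z', w = e.symm ⟨z, hzI⟩ := ⟨_, rfl⟩
  rw [← hz1e] at h1
  have h1 : g z1 = z := h1
  obtain ⟨hz1M, hz1E, hz1a, hz1b⟩ := hz1
  have hpz1 : lt p z1 := (hL.neg p hp z1 hz1E z' hz'E hpz').resolve_right hz1a
  have hz1q : lt z1 q := (hL.neg z' hz'E z1 hz1E q hq hz'q).resolve_left hz1b
  obtain ⟨h, hh, hhp, hhq, hhz⟩ := (q_LOB L U hM H E lt hL).2.2.2.2.1 {p} {z1} {q}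
    (finite_singleton _) (finite_singleton _) (finite_singleton _) (by simpa using hp)
    (by simpa using hz1E) (by simpa using hq)
    (by rintro d rfl v rfl; exact hpq) (by rintro d rfl v rfl; exact hpz1)
    (by rintro d rfl v rfl; exact hz1q) g hg
    (by rintro d rfl v ⟨w, rfl, rfl⟩; rw [h1]; exact hpz)
    (by rintro d ⟨w, rfl, rfl⟩ v rfl; rw [h1]; exact hzq)
  have hFx : Fx L (H ∪ {p, q}) h := by
    rintro a (ha | rfl | rfl)
    · exact hh.1 a ha
    · exact hhp _ rfl
    · exact hhq _ rfl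
  have hz1z : h z1 = z := (hhz _ rfl).trans h1
  have hO : Orb L (H ∪ {p, q}) z = Orb L (H ∪ {p, q}) z1 := by
    ext y
    constructor
    · rintro ⟨k, hk, rfl⟩
      refine ⟨k.comp h, fun a ha => ?_, ?_⟩
      · change k (h a) = a
        rw [hFx a ha, hk a ha]
      · change k (h z1) = k z
        rw [hz1z]
    · rintro ⟨k, hk, rfl⟩
      refine ⟨k.comp h.symm, fun a ha => ?_, ?_⟩
      · change k (h.symm a) = a
        have : h.symm a = a := by
          conv_lhs => rw [← hFx a ha]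
          exact h.symm_apply_apply a
        rw [this, hk a ha]
      · change k (h.symm z) = k z1
        rw [← hz1z]
        congr 1
        exact h.symm_apply_apply z1
  have h2 := hI z1 hz1M
  unfold Isd at h2 ⊢
  rw [hO]
  exact h2

end Pool.Agent.TPC
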