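import Pool.Agent.TPC.StZ

/-!
TPC, module IST (helper1 for helper47): calculus of isolated tuples.
-/

set_option autoImplicit false
set_option linter.unusedVariables false
set_option linter.unusedSectionVars false

namespace Pool.Agent.TPC

open FirstOrder.Language Set
open scoped FirstOrder
open Pool.Agent.WOM (tp Mon IsEl IsoM CtU Fx Orb Isd)
open Pool.Agent.PMC (Sm Md NPf fx_refl fx_symm fx_comp fx_mono comp_apply')
open Pool.Agent.MNO

section

variable {L : FirstOrder.Language.{0, 0}} {U : Type} [L.Structure U]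

variable (L) in
/-- the orbit of the tuple `t` over `A` -/
private def oo (A : Set U) {α : Type} (t s : α → U) : Prop := ∃ g : U ≃[L] U, Fx L A g ∧ ∀ i, g (t i) = s i

variable (L) in
/-- the orbit of the tuple `t` under `Nx A` -/
private def nn (A : Set U) {α : Type} (t s : α → U) : Prop := ∃ g : U ≃[L] U, Nx L A g ∧ ∀ i, g (t i) = s i

private theorem ist_def (A : Set U) {α : Type} (t : α → U) : Ist L A t = Dp L A (oo L A t) := rfl

/-- (1), from left to right -/
private theorem one_mp {A : Set U} (hA : A.Finite) {n : ℕ} {t : Fin n → U}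
    {F : (Fin n → U) → (Fin n → U) → Prop} (hF : FE L A F)
    (h : ∀ s : Fin n → U, oo L A t s → F t s → nn L A t s) (ht : Dp L A (oo L A t)) :
    ∃ B : Set U, B.Finite ∧ Dp L B (nn L A t) := by
  refine ⟨A ∪ range t, hA.union (finite_range t), ?_⟩
  refine dp_congr (dp_and (dp_mono subset_union_left ht) (fe_def hF t)) fun s => ?_
  constructor
  · rintro ⟨g, hg, hs⟩
    refine ⟨⟨g, hg.1, hs⟩, ?_⟩
    have h1 := nx_sq hg t F hF
    rw [funext hs] at h1
    exact h1
  · rintro ⟨h1, h2⟩
    exact h s h1 h2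

/-- (1), from right to left -/
private theorem one_mpr (hM : Mon L U) {A : Set U} (hA : A.Finite) {n : ℕ} {t : Fin n → U}
    {F : (Fin n → U) → (Fin n → U) → Prop} (hF : FE L A F)
    (h : ∀ s : Fin n → U, oo L A t s → F t s → nn L A t s) {B : Set U} (hB : B.Finite)
    (ht : Dp L B (nn L A t)) : Dp L A (oo L A t) := by
  obtain ⟨S, hS, hS'⟩ := hF.fin
  have h1 : ∀ y : Fin n → U, ∃ h : U ≃[L] U, Fx L A h ∧
      ((∃ h : U ≃[L] U, Fx L A h ∧ F (fun i => h (t i)) y) → F (fun i => h (t i)) y) := by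
    intro y
    by_cases hy : ∃ h : U ≃[L] U, Fx L A h ∧ F (fun i => h (t i)) y
    · obtain ⟨k, hk, hk'⟩ := hy
      exact ⟨k, hk, fun _ => hk'⟩
    · exact ⟨_, fx_refl A, fun h' => absurd h' hy⟩
  choose k hk hk' using h1
  have hfin : (⋃ y ∈ S, k y '' B).Finite := hS.biUnion fun y _ => hB.image _
  have h2 : Dp L (⋃ y ∈ S, k y '' B) (fun s => ∃ y ∈ S, nn L A t (fun i => (k y).symm (s i))) := by
    refine dp_bex hS fun y hy => ?_
    exact dp_mono (subset_biUnion_of_mem (u := fun y => k y '' B) hy) (dp_img ht (k y))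
  have h3 : Dp L (⋃ y ∈ S, k y '' B) (oo L A t) := by
    refine dp_congr h2 fun s => ?_
    constructor
    · rintro ⟨g, hg, hs⟩
      obtain ⟨y, hy, hsy⟩ := hS' s
      refine ⟨y, hy, ?_⟩
      have h4 : F (fun i => g (t i)) y := by
        rw [funext hs]
        exact hsy
      have h5 := hk' y ⟨g, hg, h4⟩
      have h6 : F (fun i => (k y) (t i)) (fun i => g (t i)) := hF.eqv.trans h5 (hF.eqv.symm h4)
      have h7 : F t (fun i => (k y).symm (g (t i))) := by
        refine (OFQ_inv hF (hk y) t (fun i => (k y).symm (g (t i)))).1 ?_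
        have e : (fun i => (k y) ((k y).symm (g (t i)))) = fun i => g (t i) := by
          funext i
          rw [(k y).apply_symm_apply]
        rw [e]
        exact h6
      have h8 := h (fun i => (k y).symm (g (t i))) ⟨(k y).symm.comp g, fx_comp (fx_symm (hk y)) hg,
        fun i => rfl⟩ h7
      have e : (fun i => (k y).symm (g (t i))) = fun i => (k y).symm (s i) := by
        funext i
        rw [hs i]
      rw [e] at h8
      exact h8
    · rintro ⟨y, hy, g, hg, hs⟩
      refine ⟨(k y).comp g, fx_comp (hk y) hg.1, fun i => ?_⟩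
      show (k y) (g (t i)) = s i
      rw [hs i, (k y).apply_symm_apply]
  refine dp_inv hM hA hfin h3 ?_
  rintro g hg v ⟨g', hg', hv⟩
  refine ⟨g.comp g', fx_comp hg hg', fun i => ?_⟩
  show g (g' (t i)) = g (v i)
  rw [hv i]

private theorem one_iff (hFNT : St_FNT) (hM : Mon L U) (hN : FinN L U) {A : Set U} (hA : A.Finite) {n : ℕ}
    (t : Fin n → U) : Ist L A t ↔ ∃ B : Set U, B.Finite ∧ Dp L B (nn L A t) := by
  obtain ⟨F, hF, h⟩ := hFNT L U hM hN A n t hA
  constructor
  · intro ht
    exact one_mp hA hF h ht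
  · rintro ⟨B, hB, hB'⟩
    exact one_mpr hM hA hF h hB hB'

/-- (8) for arbitrary finite index types -/
private theorem ist_comp {A : Set U} {α β : Type} [Finite α] [Finite β] {t : α → U} (h : Ist L A t)
    (f : β → α) : Ist L A (fun j => t (f j)) := by
  have h1 : Dp L A (fun u : β ⊕ α → U => oo L A t (fun i => u (Sum.inr i)) ∧
      ∀ j, u (Sum.inl j) = u (Sum.inr (f j))) :=
    dp_and (dp_sub h Sum.inr) (dp_all_fin fun j => dp_eq _ _)
  refine dp_congr (dp_ex h1) fun v => ?_
  constructor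
  · rintro ⟨g, hg, hv⟩
    exact ⟨fun i => g (t i), ⟨g, hg, fun i => rfl⟩, fun j => (hv j).symm⟩
  · rintro ⟨x, ⟨g, hg, hx⟩, hv⟩
    refine ⟨g, hg, fun j => ?_⟩
    exact (hx (f j)).trans (hv j).symm

/-- (4), from left to right -/
private theorem four_mp {A : Set U} {α β : Type} [Finite α] [Finite β] {s : α → U} {t : β → U}
    (h : Ist L A (Sum.elim s t)) : Ist L (A ∪ range s) t := by
  have h1 : Dp L (A ∪ range s) (fun v : β ⊕ α → U => oo L A (Sum.elim s t) (fun i => v (Sum.swap i))) :=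
    dp_sub (dp_mono subset_union_left h) Sum.swap
  have h2 := dp_par h1 s (fun i => Or.inr ⟨i, rfl⟩)
  refine dp_congr h2 fun v => ?_
  constructor
  · rintro ⟨g, hg, hv⟩
    refine ⟨g, fx_mono subset_union_left hg, fun i => ?_⟩
    rcases i with i | i
    · exact hg (s i) (Or.inr ⟨i, rfl⟩)
    · exact hv i
  · rintro ⟨g, hg, hv⟩
    refine ⟨g, ?_, fun i => hv (Sum.inr i)⟩
    rintro x (hx | ⟨i, rfl⟩)
    · exact hg x hx
    · exact hv (Sum.inl i)

/-- (4), from right to left -/
private theorem four_mpr {A : Set U} {α β : Type} [Finite α] [Finite β] {s : α → U} {t : β → U}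
    (h : Ist L A s) (h' : Ist L (A ∪ range s) t) : Ist L A (Sum.elim s t) := by
  obtain ⟨Q, hQ, hQ'⟩ := dp_fam h'
  have h1 : Dp L A (fun v : α ⊕ β → U => oo L A s (fun i => v (Sum.inl i)) ∧
      Q (fun i => v (Sum.swap i))) := dp_and (dp_sub h Sum.inl) (dp_sub hQ Sum.swap)
  refine dp_congr h1 fun v => ?_
  constructor
  · rintro ⟨g, hg, hv⟩
    refine ⟨⟨g, hg, fun i => hv (Sum.inl i)⟩, ?_⟩
    have h2 : Q (Sum.elim t s) := (hQ' t).1 ⟨_, fx_refl _, fun i => rfl⟩
    have h3 := (dp_fx hQ hg (Sum.elim t s)).2 h2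
    have h4 : (fun i => v (Sum.swap i)) = fun i : β ⊕ α => g (Sum.elim t s i) := by
      funext i
      rcases i with i | i
      · exact (hv (Sum.inr i)).symm
      · exact (hv (Sum.inl i)).symm
    rw [h4]
    exact h3
  · rintro ⟨⟨g, hg, hv⟩, hq⟩
    have h3 := (dp_fx hQ (fx_symm hg) _).2 hq
    have h4 : (fun i : β ⊕ α => g.symm (v (Sum.swap i))) =
        Sum.elim (fun i => g.symm (v (Sum.inr i))) s := by
      funext i
      rcases i with i | i
      · rfl
      · show g.symm (v (Sum.inl i)) = s i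
        have hvi : g (s i) = v (Sum.inl i) := hv i
        rw [← hvi, g.symm_apply_apply]
    rw [h4] at h3
    obtain ⟨k, hk, hky⟩ := (hQ' (fun i => g.symm (v (Sum.inr i)))).2 h3
    refine ⟨g.comp k, fx_comp hg (fx_mono subset_union_left hk), fun i => ?_⟩
    rcases i with i | i
    · show g (k (s i)) = v (Sum.inl i)
      rw [hk (s i) (Or.inr ⟨i, rfl⟩)]
      exact hv i
    · show g (k (t i)) = v (Sum.inr i)
      rw [hky, g.apply_symm_apply]

/-- (7), from left to right -/
private theorem seven_mp {A : Set U} {α : Type} {t : α → U} (g : U ≃[L] U) (h : Ist L A t) :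
    Ist L (g '' A) (fun i => g (t i)) := by
  refine dp_congr (dp_img h g) fun v => ?_
  constructor
  · rintro ⟨k, hk, hv⟩
    refine ⟨g.symm.comp (k.comp g), fun a ha => ?_, fun i => ?_⟩
    · show g.symm (k (g a)) = a
      rw [hk (g a) ⟨a, ha, rfl⟩, g.symm_apply_apply]
    · show g.symm (k (g (t i))) = g.symm (v i)
      rw [hv i]
  · rintro ⟨k, hk, hv⟩
    refine ⟨g.comp (k.comp g.symm), ?_, fun i => ?_⟩
    · rintro _ ⟨a, ha, rfl⟩
      show g (k (g.symm (g a))) = g a
      rw [g.symm_apply_apply, hk a ha]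
    · show g (k (g.symm (g (t i)))) = v i
      rw [g.symm_apply_apply, hv i, g.apply_symm_apply]

end

theorem thm_IST (hFNT : St_FNT) (hPMT : St_PMT) : St_IST := by
  intro L U _ hM hN A hA
  -- (2)
  have h2 : ∀ (n : ℕ) (t : Fin n → U) (M : Set U), Ist L A t → Md L A M →
      ∃ g : U ≃[L] U, Nx L A g ∧ ∀ i, g (t i) ∈ M := by
    intro n t M ht hMd
    obtain ⟨B, hB, hB'⟩ := (one_iff hFNT hM hN hA t).1 ht
    obtain ⟨y, hy, g, hg, hgy⟩ := nx_meets' hM hA hB hB' (by
      rintro g hg x ⟨k, hk, hkx⟩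
      refine ⟨g.comp k, nx_comp hg hk, fun i => ?_⟩
      show g (k (t i)) = g (x i)
      rw [hkx i]) hMd ⟨t, _, nx_refl A, fun i => rfl⟩
    exact ⟨g, hg, fun i => by rw [hgy i]; exact hy i⟩
  -- (5)
  have h5 : ∀ (Q W : Set U) (n : ℕ) (t : Fin n → U), Bq L A Q → W.Finite → Disjoint W Q →
      (∀ i, t i ∈ Q) → (Ist L (A ∪ W) t ↔ Ist L A t) := by
    intro Q W n t hQ hW hWQ ht
    have e : nn L (A ∪ W) t = nn L A t := by
      funext s
      refine propext ⟨?_, ?_⟩
      · rintro ⟨g, hg, hs⟩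
        exact ⟨g, nx_mono subset_union_left hg, hs⟩
      · rintro ⟨g, hg, hs⟩
        obtain ⟨k, hk, hk'⟩ := (q_OFQ L U hM A Q hA hQ).1 W hW hWQ g hg (range t) (finite_range t) (by
          rintro _ ⟨i, rfl⟩
          exact ht i)
        exact ⟨k, hk, fun i => (hk' (t i) ⟨i, rfl⟩).trans (hs i)⟩
    rw [one_iff hFNT hM hN (hA.union hW) t, one_iff hFNT hM hN hA t, e]
  refine ⟨fun n t => one_iff hFNT hM hN hA t, h2, ?_, ?_, h5, ?_, ?_, ?_, ?_⟩
  · -- (3)
    intro n t B ht hB hAB
    obtain ⟨M, hMd, hM'⟩ := hPMT L U hM B hB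
    obtain ⟨g, hg, hgM⟩ := h2 n t M ht ⟨hMd.1, hAB.trans hMd.2⟩
    exact ⟨g, hg, hM' n _ hgM⟩
  · -- (4)
    intro m n s t
    constructor
    · intro h
      exact ⟨ist_comp h Sum.inl, four_mp h⟩
    · rintro ⟨h, h'⟩
      exact four_mpr h h'
  · -- (6)
    intro Q m n s t hQ ht hs h h'
    refine four_mpr h ((h5 Q (range s) n t hQ (finite_range s) ?_ ht).2 h')
    refine Set.disjoint_left.2 ?_
    rintro _ ⟨i, rfl⟩ hx
    exact hs i hx
  · -- (7)
    intro n t g
    constructor
    · exact seven_mp g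
    · intro h
      have h1 := seven_mp g.symm h
      have e : (fun i => g.symm (g (t i))) = t := by
        funext i
        rw [g.symm_apply_apply]
      rw [img_symm_img, e] at h1
      exact h1
  · -- (8)
    intro m n t f h
    exact ist_comp h f
  · -- (9)
    intro t
    refine dp_congr dp_true fun v => ?_
    constructor
    · intro _
      trivial
    · intro _
      exact ⟨_, fx_refl A, fun i => i.elim0⟩

end Pool.Agent.TPC
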