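import Pool.Agent.TPC.StZ

/-!
TPC, module KBQ: clusters are unions of pieces over their elements.
-/

set_option autoImplicit false
set_option linter.unusedVariables false
set_option linter.unusedSectionVars false

namespace Pool.Agent.TPC

open FirstOrder.Language Set
open scoped FirstOrder
open Pool.Agent.WOM (tp Mon IsEl IsoM CtU Fx Orb Isd)
open Pool.Agent.PMC (Sm Md NPf fx_refl fx_symm fx_comp fx_mono comp_apply')
open Pool.Agent.MNO

theorem thm_KBQ (hGLK : St_GLK) : St_KBQ := by
  intro L U _ hM H K y hClu A hA hHA ⟨a, haA, haK⟩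
  have hClu' : Clu L H K a := (hGLK L U hM H K y hClu).2.1 a haK
  obtain ⟨-, -, hG3, hG4⟩ := hGLK L U hM H K a hClu'
  have hgK : ∀ g : U ≃[L] U, Nx L A g → g a ∈ K := fun g hg => by
    rw [nx_fx hg a haA]
    exact haK
  have hinv : ∀ g : U ≃[L] U, Nx L A g → ∀ x, g x ∈ K ↔ x ∈ K := fun g hg =>
    hG3 g (nx_fx (nx_mono hHA hg)) (hgK g hg)
  refine ⟨fun g hg => hinv g hg, fun g hg => ?_⟩
  obtain ⟨h, hh, hQ1, hQ2⟩ := hG4 g (nx_mono hHA hg) (hgK g hg)
  refine ⟨h, ⟨OFQ_fx (nx_fx hg) hQ1 hQ2 (fun x hx => Or.inl hx), fun n y E hE => ?_⟩, hQ1, hQ2⟩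
  classical
  have hFE := OFQ_pull (B := A ∪ range y) hE y (fun i => y i ∈ K) subset_union_left
    subset_union_right
  have h2 := q_BND L U hM {i // y i ∈ K} A (A ∪ range y) _ (fun i => y i) hA
    (hA.union (finite_range y)) hFE (by
      intro g1 h1 k hg1 hh1 hk hEE
      obtain ⟨k', hk', hkQ, hkQ'⟩ := hG4 k (nx_mono hHA hk) (hgK k hk)
      have hfx : Fx L A k' := OFQ_fx (nx_fx hk) hkQ hkQ' (fun x hx => Or.inl hx)
      have h3 := (OFQ_inv hE hfx _ _).2 hEE
      have e : ∀ g2 : U ≃[L] U, Nx L A g2 →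
          (fun i => k' (if h : y i ∈ K then g2 (y i) else y i)) =
            fun i => if h : y i ∈ K then k (g2 (y i)) else y i := by
        intro g2 hg2
        funext i
        by_cases hi : y i ∈ K
        · rw [dif_pos hi, dif_pos hi]
          exact hkQ _ ((hinv g2 hg2 _).2 hi)
        · rw [dif_neg hi, dif_neg hi]
          exact hkQ' _ hi
      rw [e g1 hg1, e h1 hh1] at h3
      exact h3) g hg
  have e1 : (fun i => if h : y i ∈ K then y i else y i) = y := by
    funext i
    by_cases hi : y i ∈ K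
    · rw [dif_pos hi]
    · rw [dif_neg hi]
  have e2 : (fun i => if h : y i ∈ K then g (y i) else y i) = fun i => h (y i) := by
    funext i
    by_cases hi : y i ∈ K
    · rw [dif_pos hi, hQ1 _ hi]
    · rw [dif_neg hi, hQ2 _ hi]
  have h3 : E (fun i => if h : y i ∈ K then y i else y i)
    (fun i => if h : y i ∈ K then g (y i) else y i) := h2
  rw [e1, e2] at h3
  exact h3

end Pool.Agent.TPC
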