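import Pool.Agent.TPC.StZ

/-!
TPC [LRG]: pieces inside the clusters of linear pieces are rigid (after `Pool/Agent/TPC/RIG.lean`).
-/

set_option autoImplicit false
set_option linter.unusedVariables false

namespace Pool.Agent.TPC

open FirstOrder.Language Set
open scoped FirstOrder
open Pool.Agent.WOM (tp Mon IsEl IsoM CtU Fx Orb Isd)
open Pool.Agent.PMC (Sm Md NPf fx_refl fx_symm fx_comp fx_mono)
open Pool.Agent.MNO (Dp FE Sq Nx SmN FE1 FinN nx_mono nx_conj nx_fx nx_comp nx_symm)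

section lrg

variable {L : FirstOrder.Language.{0, 0}} {U : Type} [L.Structure U]

private theorem LRG_inter {A X Y Q : Set U}
    (hQ : ∀ g : U ≃[L] U, Fx L A g → ∀ x, g x ∈ Q ↔ x ∈ Q)
    (h : Sm L A X Y) : Sm L A (X ∩ Q) (Y ∩ Q) := by
  obtain ⟨e, he⟩ := h
  have hmem : ∀ x : X, ((e x : U) ∈ Q ↔ (x : U) ∈ Q) := by
    intro x
    obtain ⟨g, hg, h1⟩ := he {x} (finite_singleton x)
    rw [← h1 x rfl]
    exact hQ g hg x
  have hmem' : ∀ y : Y, ((e.symm y : U) ∈ Q ↔ (y : U) ∈ Q) := by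
    intro y
    rw [← hmem (e.symm y), e.apply_symm_apply]
  let e' : ((X ∩ Q : Set U)) ≃ ((Y ∩ Q : Set U)) :=
    { toFun := fun x => ⟨e ⟨x, x.2.1⟩, (e ⟨x, x.2.1⟩).2, (hmem ⟨x, x.2.1⟩).2 x.2.2⟩
      invFun := fun y => ⟨e.symm ⟨y, y.2.1⟩, (e.symm ⟨y, y.2.1⟩).2, (hmem' ⟨y, y.2.1⟩).2 y.2.2⟩
      left_inv := fun x => by simp
      right_inv := fun y => by simp }
  refine ⟨e', fun s hs => ?_⟩
  obtain ⟨g, hg, h1⟩ := he ((fun x : (X ∩ Q : Set U) => (⟨x, x.2.1⟩ : X)) '' s) (hs.image _)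
  exact ⟨g, hg, fun x hx => h1 ⟨x, x.2.1⟩ (mem_image_of_mem _ hx)⟩

/-- fix finitely many points, glue on a cluster -/
private theorem LRG_pts {H B X K Y : Set U} {a : U} (hfin : (B ∩ K).Finite) (hBX : B ∩ K ⊆ X)
    (hHB : Disjoint H K) (haK : a ∈ K) (haB : a ∈ B) (hXK : X ⊆ K)
    (hglu : ∀ g : U ≃[L] U, Nx L H g → g a ∈ K →
      ∃ k : U ≃[L] U, Nx L H k ∧ (∀ v ∈ K, k v = g v) ∧ ∀ v, v ∉ K → k v = v)
    (hYK : ∀ g : U ≃[L] U, Nx L H g → g a ∈ Y → g.symm '' Y = K)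
    (hS : SmN L H X Y) : Sm L B X K := by
  obtain ⟨e, he⟩ := hS
  have hfin' : {x : X | (x : U) ∈ B ∩ K}.Finite :=
    hfin.preimage (Subtype.val_injective.injOn)
  obtain ⟨g0, hg0, h0⟩ := he _ hfin'
  have haX : a ∈ X := hBX ⟨haB, haK⟩
  have h0a : g0 a = e ⟨a, haX⟩ := h0 ⟨a, haX⟩ ⟨haB, haK⟩
  have hK : g0.symm '' Y = K := hYK g0 hg0 (by rw [h0a]; exact (e ⟨a, haX⟩).2)
  let e1 : X ≃ K := (e.trans (Equiv.image g0.symm.toEquiv Y)).trans (Equiv.setCongr hK)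
  have he1 : ∀ x : X, (e1 x : U) = g0.symm (e x) := fun x => rfl
  refine ⟨e1, fun s hs => ?_⟩
  obtain ⟨g, hg, h1⟩ := he (s ∪ {x : X | (x : U) ∈ B ∩ K}) (hs.union hfin')
  have h2 : ∀ x : X, (x : U) ∈ B ∩ K → g0.symm (g x) = x := by
    intro x hx
    rw [h1 x (Or.inr hx), ← h0 x hx, g0.symm_apply_apply]
  obtain ⟨k, hk, hk1, hk2⟩ := hglu (g0.symm.comp g) (nx_comp (nx_symm hg0) hg) (by
    have h3 : (g0.symm.comp g) a = a := h2 ⟨a, haX⟩ ⟨haB, haK⟩
    rw [h3]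
    exact haK)
  refine ⟨k, fun b hb => ?_, fun x hx => ?_⟩
  · by_cases hbK : b ∈ K
    · rw [hk1 b hbK]
      exact h2 ⟨b, hBX ⟨hb, hbK⟩⟩ ⟨hb, hbK⟩
    · exact hk2 b hbK
  · rw [hk1 x (hXK x.2), he1]
    show g0.symm (g x) = _
    rw [h1 x (Or.inl hx)]

end lrg

/-- [LRG] -/
theorem thm_LRG (hGLK : St_GLK) (hCVA : St_CVA) (hRPL : St_RPL) : St_LRG := by
  intro L U _ hMon hNP hFN H E lt y hLin hyE A z hA hcl
  set K : Set U := {v | v ∈ E ∧ ¬ lt y v ∧ ¬ lt v y} with hK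
  have hClu : Clu L H K y := Or.inl ⟨E, lt, hLin, hyE, rfl⟩
  obtain ⟨⟨hHf, hHK, hyK⟩, hK2, -, -⟩ := hGLK L U hMon H K y hClu
  obtain ⟨a, haA, haK⟩ := hCVA L U hMon hNP H K y hClu A z hA hcl
  obtain ⟨-, -, hK3, hK4⟩ := hGLK L U hMon H K a (hK2 a haK)
  have haE : a ∈ E := haK.1
  have hdis : Disjoint H (Pq L A z) := Set.disjoint_of_subset_right hcl hHK
  obtain ⟨hPq, -, hR, -⟩ := hRPL L U hMon hNP A H z hA hHf hdis
  rw [hR]
  set B := A ∪ H with hB
  have hBf : B.Finite := hA.union hHf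
  have hHB : H ⊆ B := subset_union_right
  set P := Pq L B z with hP
  have hPK : P ⊆ K := by
    rw [hPq]
    exact hcl
  intro M hM
  have hFcp : Fcp L B := q_FCP L U hMon hNP B hBf
  -- the submodel
  set m : U → Set U := fun z => {v | z ∈ P → v ∈ M} with hm
  have hm1 : ∀ z ∈ P, m z = M := by
    intro z hz
    ext v
    exact ⟨fun h => h hz, fun h _ => h⟩
  have hm2 : ∀ z ∉ P, m z = univ := by
    intro z hz
    ext v
    exact ⟨fun _ => mem_univ v, fun _ h => absurd h hz⟩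
  have hM' : Md L B {z | z ∈ m z} := by
    refine q_UNQ L U hMon B hBf hFcp m ?_ ?_
    · intro z
      by_cases hz : z ∈ P
      · rw [hm1 z hz]
        exact hM
      · rw [hm2 z hz]
        exact ⟨fun s _ hne => by rwa [inter_univ], subset_univ _⟩
    · intro v w hw
      have hbq : Bq L B P := ((q_ALQ L U hMon B hBf).2.2.2.2.1 z).1
      by_cases hv : v ∈ P
      · rw [hm1 v hv, hm1 w ((hw P hbq).1 hv)]
      · rw [hm2 v hv, hm2 w fun h => hv ((hw P hbq).2 h)]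
  set M' : Set U := {z | z ∈ m z} with hM'def
  have hout : ∀ v, v ∉ P → v ∈ M' := by
    intro v hv
    show v ∈ m v
    rw [hm2 v hv]
    exact mem_univ v
  have hMH : Md L H M' := ⟨hM'.1, fun b hb => hM'.2 (hHB hb)⟩
  have haM' : a ∈ M' := hM'.2 (Or.inl haA)
  obtain ⟨w, -, hw, hSN⟩ := q_LNW L U hMon hNP H E lt hLin univ M' a
    (q_RCH L U hMon H hHf).1 hMH haM' haE
  -- the cluster of `a`
  have hKa : ∀ v, v ∈ K ↔ v ∈ E ∧ ¬ lt v a ∧ ¬ lt a v := by
    intro v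
    constructor
    · rintro ⟨h1, h2, h3⟩
      refine ⟨h1, fun h => ?_, fun h => ?_⟩
      · rcases hLin.neg v h1 y hyE a haE h with h7 | h7
        · exact h3 h7
        · exact haK.2.1 h7
      · rcases hLin.neg a haE y hyE v h1 h with h7 | h7
        · exact haK.2.2 h7
        · exact h2 h7
    · rintro ⟨h1, h2, h3⟩
      refine ⟨h1, fun h => ?_, fun h => ?_⟩
      · rcases hLin.neg y hyE a haE v h1 h with h7 | h7
        · exact haK.2.1 h7
        · exact h3 h7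
      · rcases hLin.neg v h1 a haE y hyE h with h7 | h7
        · exact h2 h7
        · exact haK.2.2 h7
  have e0 : Iv E lt M' a a = M' ∩ K := by
    ext v
    constructor
    · rintro ⟨hv1, hv2⟩
      exact ⟨hv1, (hKa v).2 hv2⟩
    · rintro ⟨hv1, hv2⟩
      exact ⟨hv1, (hKa v).1 hv2⟩
  rw [e0] at hSN
  have hYK : ∀ g : U ≃[L] U, Nx L H g → g a ∈ Iv E lt univ w w →
      g.symm '' Iv E lt univ w w = K := by
    intro g hg hga
    have hgH : Fx L H g := nx_fx hg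
    ext v
    constructor
    · rintro ⟨u, ⟨-, huE, hu1, hu2⟩, rfl⟩
      have hvE : g.symm u ∈ E := by
        rw [← hLin.fxE g hgH, g.apply_symm_apply]
        exact huE
      rw [hKa]
      refine ⟨hvE, fun h => ?_, fun h => ?_⟩
      · have h1 := (hLin.fxl g hgH _ hvE _ haE).2 h
        rw [g.apply_symm_apply] at h1
        rcases hLin.neg u huE w hw (g a) hga.2.1 h1 with h7 | h7
        · exact hu1 h7
        · exact hga.2.2.2 h7
      · have h1 := (hLin.fxl g hgH _ haE _ hvE).2 h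
        rw [g.apply_symm_apply] at h1
        rcases hLin.neg (g a) hga.2.1 w hw u huE h1 with h7 | h7
        · exact hga.2.2.1 h7
        · exact hu2 h7
    · intro hv
      obtain ⟨hvE, hv1, hv2⟩ := (hKa v).1 hv
      refine ⟨g v, ?_, g.symm_apply_apply _⟩
      have hgvE : g v ∈ E := (hLin.fxE g hgH v).2 hvE
      have hn3 : ¬ lt (g a) (g v) := fun h => hv2 ((hLin.fxl g hgH a haE v hvE).1 h)
      have hn4 : ¬ lt (g v) (g a) := fun h => hv1 ((hLin.fxl g hgH v hvE a haE).1 h)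
      refine ⟨mem_univ _, hgvE, fun h => ?_, fun h => ?_⟩
      · rcases hLin.neg (g v) hgvE (g a) hga.2.1 w hw h with h7 | h7
        · exact hn4 h7
        · exact hga.2.2.1 h7
      · rcases hLin.neg w hw (g a) hga.2.1 (g v) hgvE h with h7 | h7
        · exact hga.2.2.2 h7
        · exact hn3 h7
  have hS2 : Sm L B (M' ∩ K) K :=
    LRG_pts (hBf.inter_of_left K) (fun v hv => ⟨hM'.2 hv.1, hv.2⟩) hHK haK (Or.inl haA)
      inter_subset_right hK4 hYK hSN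
  -- the union of the conjugates
  set Qs : Set U := {v | ∃ k : U ≃[L] U, Fx L B k ∧ k v ∈ Pq L B z} with hQs
  have hQsfx : ∀ k : U ≃[L] U, Fx L B k → ∀ v, k v ∈ Qs ↔ v ∈ Qs := by
    intro k hk v
    constructor
    · rintro ⟨k', hk', h⟩
      exact ⟨k'.comp k, fx_comp hk' hk, h⟩
    · rintro ⟨k', hk', h⟩
      refine ⟨k'.comp k.symm, fx_comp hk' (fx_symm hk), ?_⟩
      show k' (k.symm (k v)) ∈ Pq L B z
      rw [k.symm_apply_apply]
      exact h
  have hQsK : Qs ⊆ K := by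
    rintro v ⟨k, hk, h⟩
    refine (hK3 k (fx_mono hHB hk) ?_ v).1 (hPK h)
    rw [hk a (Or.inl haA)]
    exact haK
  have hS3 := LRG_inter hQsfx hS2
  rw [inter_assoc, inter_eq_right.2 hQsK] at hS3
  have hS4 : Sm L B (M' ∩ P) P :=
    q_CJP L U hMon B M' z hBf hFcp (fun k hk v hv hkv => hout _ hkv) hS3
  have hS5 := q_LF2 L U hMon hFN B _ z hBf inter_subset_right hS4
  have e3 : M' ∩ P = M ∩ P := by
    ext v
    constructor
    · rintro ⟨hv1, hv2⟩
      have h7 : v ∈ m v := hv1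
      rw [hm1 v hv2] at h7
      exact ⟨h7, hv2⟩
    · rintro ⟨hv1, hv2⟩
      refine ⟨?_, hv2⟩
      show v ∈ m v
      rw [hm1 v hv2]
      exact hv1
  rw [e3] at hS5
  exact hS5

end Pool.Agent.TPC
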