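import Pool.Agent.TPC.StZ

/-!
TPC module NFA: lower bound for `Cnt`.
-/

set_option autoImplicit false

namespace Pool.Agent.TPC

open FirstOrder.Language Set
open scoped FirstOrder
open Pool.Agent.WOM (tp Mon IsEl IsoM CtU Fx Orb Isd)
open Pool.Agent.PMC (Sm Md NPf)
open Pool.Agent.MNO (Dp FE Sq Nx SmN FE1 FinN)

/-- [NFA] -/
theorem thm_NFA (hKBQ : St_KBQ) (hIST : St_IST) (hPIS : St_PIS) : St_NFA := by
  intro L U _ hM hFN H E cl x H' E' cl' hF hx hF' hHH hxH hEE n t ht hnt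
  -- the automorphisms
  obtain ⟨g, hg, hgd⟩ := exists_seq_of_forall_finset_exists (fun g : U ≃[L] U => Nx L H' g)
    (fun g g' => ¬ cl' (g (t 0)) (g' (t 0))) (by
      intro s hs
      have hD : ((fun k : U ≃[L] U => k (t 0)) '' (s : Set (U ≃[L] U))).Finite := s.finite_toSet.image _
      obtain ⟨k, hk, hkd⟩ := hF'.inf (t 0) (ht 0).1 _ hD (by
        rintro _ ⟨k, hk, rfl⟩
        exact (hF'.fxE k (hs k hk).1 _).mpr (ht 0).1)
      exact ⟨k, hk, fun k' hk' => hkd _ ⟨k', hk', rfl⟩⟩)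
  refine ⟨g, hg, ?_⟩
  have hHf : H.Finite := hF.fin
  have hHf' : H'.Finite := hF'.fin
  have gE : ∀ i j, g i (t j) ∈ E' := fun i j => (hF'.fxE (g i) (hg i).1 _).mpr (ht j).1
  have gC : ∀ i j, cl' (g i (t 0)) (g i (t j)) := fun i j =>
    (hF'.fxc (g i) (hg i).1 _ (ht 0).1 _ (ht j).1).mpr (ht j).2
  have gd : ∀ i j, i ≠ j → ¬ cl' (g i (t 0)) (g j (t 0)) := by
    intro i j hij h
    rcases lt_or_gt_of_ne hij with h1 | h1
    · exact hgd i j h1 h
    · exact hgd j i h1 (hF'.sym _ (gE i 0) _ (gE j 0) h)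
  intro m M hHM hgM
  have hxx : cl x x := hF.rfl x hx
  set K : Set U := {u | u ∈ E ∧ cl x u} with hK
  set Y : Set U := {u | ∃ i : Fin m, u = g i (t 0)} with hY
  have hYf : Y.Finite := by
    have : Y = range (fun i : Fin m => g i (t 0)) := by
      ext u
      simp only [hY, mem_setOf_eq, mem_range, eq_comm]
    rw [this]
    exact finite_range _
  set v : Set U := (H' ∩ K) ∪ Y with hv
  have hvf : v.Finite := (hHf'.inter_of_left _).union hYf
  have hEK : ∀ u ∈ E', u ∈ K := hEE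
  set B : Set U := H ∪ v with hB
  have hBf : B.Finite := hHf.union hvf
  set W : Set U := H' \ B with hW
  have hWf : W.Finite := hHf'.subset diff_subset
  set B' : Set U := H' ∪ Y with hB'
  have hBf' : B'.Finite := hHf'.union hYf
  have hBW : B ∪ W = B' := by
    ext u
    simp only [hB, hW, hB', hv, mem_union, mem_inter_iff, mem_diff]
    constructor
    · rintro ((h | ⟨h, -⟩ | h) | ⟨h, -⟩)
      · exact Or.inl (hHH h)
      · exact Or.inl h
      · exact Or.inr h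
      · exact Or.inl h
    · rintro (h | h)
      · by_cases h1 : u ∈ H ∨ u ∈ H' ∧ u ∈ K ∨ u ∈ Y
        · exact Or.inl h1
        · exact Or.inr ⟨h, h1⟩
      · exact Or.inl (Or.inr (Or.inr h))
  have hWK : Disjoint W K := by
    rw [Set.disjoint_left]
    rintro u ⟨h1, h2⟩ h3
    exact h2 (Or.inr (Or.inl ⟨h1, h3⟩))
  have hKB : Bq L B K := hKBQ L U hM H K x (Or.inr ⟨E, cl, hF, hx, rfl⟩) B hBf subset_union_left
    ⟨x, Or.inr (Or.inl ⟨hxH, hx, hxx⟩), hx, hxx⟩
  -- the clusters of `E'`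
  have hCl : ∀ i, Clu L H' {u | u ∈ E' ∧ cl' (g i (t 0)) u} (g i (t 0)) := fun i =>
    Or.inr ⟨E', cl', hF', gE i 0, rfl⟩
  have hCx : ∀ i, g i (t 0) ∈ {u | u ∈ E' ∧ cl' (g i (t 0)) u} := fun i =>
    ⟨gE i 0, hF'.rfl _ (gE i 0)⟩
  -- step (a), (b), (c)
  have hni : ∀ i : Fin m, ¬ Ist L B (fun j => g i (t j)) := by
    intro i h
    obtain ⟨-, -, -, -, h5, -, h7, -, -⟩ := hIST L U hM hFN B hBf
    have h1 : Ist L B' (fun j => g i (t j)) := by
      rw [← hBW]
      exact (h5 K W (n + 1) _ hKB hWf hWK (fun j => hEK _ (gE i j))).mpr h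
    obtain ⟨-, -, -, -, k5, -, -, -, -⟩ := hIST L U hM hFN (insert (g i (t 0)) H') (hHf'.insert _)
    have hBi : Bq L (insert (g i (t 0)) H') {u | u ∈ E' ∧ cl' (g i (t 0)) u} :=
      hKBQ L U hM H' _ _ (hCl i) _ (hHf'.insert _) (subset_insert _ _) ⟨g i (t 0), mem_insert _ _, hCx i⟩
    have h2 : Ist L (insert (g i (t 0)) H') (fun j => g i (t j)) := by
      refine (k5 _ {u | ∃ i' : Fin m, i' ≠ i ∧ u = g i' (t 0)} (n + 1) _ hBi
        (hYf.subset ?_) ?_ (fun j => ⟨gE i j, gC i j⟩)).mp ?_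
      · rintro u ⟨i', -, rfl⟩
        exact ⟨i', rfl⟩
      · rw [Set.disjoint_left]
        rintro _ ⟨i', hi', rfl⟩ ⟨-, h3⟩
        exact gd i i' (fun h4 => hi' (Fin.ext h4.symm)) h3
      · have : insert (g i (t 0)) H' ∪ {u | ∃ i' : Fin m, i' ≠ i ∧ u = g i' (t 0)} = B' := by
          ext u
          simp only [hB', hY, mem_union, mem_insert_iff, mem_setOf_eq]
          constructor
          · rintro ((h | h) | ⟨i', -, h⟩)
            · exact Or.inr ⟨i, h⟩
            · exact Or.inl h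
            · exact Or.inr ⟨i', h⟩
          · rintro (hu | ⟨i', hu⟩)
            · exact Or.inl (Or.inr hu)
            · by_cases h4 : i' = i
              · rw [h4] at hu
                exact Or.inl (Or.inl hu)
              · exact Or.inr ⟨i', h4, hu⟩
        rw [this]
        exact h1
    obtain ⟨-, -, -, -, -, -, l7, -, -⟩ := hIST L U hM hFN (insert (t 0) H') (hHf'.insert _)
    apply hnt
    refine (l7 _ t (g i)).mpr ?_
    have : (g i) '' insert (t 0) H' = insert (g i (t 0)) H' := by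
      rw [image_insert_eq]
      congr 1
      ext u
      constructor
      · rintro ⟨a, ha, rfl⟩
        rw [(hg i).1 a ha]
        exact ha
      · intro ha
        exact ⟨u, ha, (hg i).1 u ha⟩
    rw [this]
    exact h2
  have hex : ∀ i : Fin m, ∃ (k : ℕ) (f : Fin k → Fin (n + 1)),
      (∀ j j', g i (t (f j')) ∈ Pq L B (g i (t (f j)))) ∧ ¬ Ist L B (fun j => g i (t (f j))) := by
    intro i
    by_contra hcon
    push Not at hcon
    exact hni i (hPIS L U hM hFN B hBf (n + 1) (fun j => g i (t j)) (fun k f hf => hcon k f hf))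
  choose k f hf1 hf2 using hex
  refine ⟨v, ?_, hvf, fun i => ⟨k i, fun j => g i (t (f i j))⟩, ?_, hf1, hf2, ?_⟩
  · rintro u (⟨h1, h2⟩ | ⟨i, rfl⟩)
    · exact ⟨hHM h1, h2.1, h2.2⟩
    · exact ⟨hgM i i.2 0, (hEK _ (gE i 0)).1, (hEK _ (gE i 0)).2⟩
  · intro i j
    exact ⟨hgM i i.2 _, (hEK _ (gE i _)).1, (hEK _ (gE i _)).2⟩
  · intro i i' hii j j' hmem
    obtain ⟨-, -, -, -, hA5, hA6, -, -, -, -⟩ := q_ALQ L U hM B hBf
    obtain ⟨-, -, -, -, -, hA6', -, -, -, -⟩ := q_ALQ L U hM B' hBf'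
    have h1 : Pq L B (g i (t (f i j))) ⊆ K := hA6 _ _ hKB (hEK _ (gE i _))
    have h2 : Pq L (B ∪ W) (g i (t (f i j))) = Pq L B (g i (t (f i j))) :=
      q_NNQ L U hM B W _ hBf hWf (hWK.mono_right h1)
    rw [hBW] at h2
    have h3 : Bq L B' {u | u ∈ E' ∧ cl' (g i (t 0)) u} :=
      hKBQ L U hM H' _ _ (hCl i) B' hBf' subset_union_left ⟨g i (t 0), Or.inr ⟨i, rfl⟩, hCx i⟩
    have h4 : Pq L B' (g i (t (f i j))) ⊆ {u | u ∈ E' ∧ cl' (g i (t 0)) u} :=
      hA6' _ _ h3 ⟨gE i _, gC i _⟩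
    rw [h2] at h4
    have h5 := h4 hmem
    refine gd i i' (fun h => hii (Fin.ext h)) ?_
    exact hF'.tra _ (gE i 0) _ h5.1 _ (gE i' 0) h5.2
      (hF'.sym _ (gE i' 0) _ (gE i' _) (gC i' _))

end Pool.Agent.TPC
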