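import Pool.Agent.TPC.StZ

/-!
TPC module NFB: upper bound for `Cnt`.
-/

set_option autoImplicit false

namespace Pool.Agent.TPC

open FirstOrder.Language Set
open scoped FirstOrder
open Pool.Agent.WOM (tp Mon IsEl IsoM CtU Fx Orb Isd)
open Pool.Agent.PMC (Sm Md NPf)
open Pool.Agent.MNO (Dp FE Sq Nx SmN FE1 FinN)

/-- reindexing of isolated tuples -/
theorem ist_reindex {L : FirstOrder.Language.{0, 0}} {U : Type} [L.Structure U] {A : Set U}
    {α β : Type} (e : α ≃ β) {t : β → U} (h : Ist L A (fun a => t (e a))) : Ist L A t := by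
  refine Pool.Agent.MNO.dp_congr (Pool.Agent.MNO.dp_sub h e) ?_
  intro s
  constructor
  · rintro ⟨g, hg, h⟩
    exact ⟨g, hg, fun a => h (e a)⟩
  · rintro ⟨g, hg, h⟩
    refine ⟨g, hg, fun b => ?_⟩
    have := h (e.symm b)
    simpa using this

/-- [NFB] -/
theorem thm_NFB (hIST : St_IST) : St_NFB := by
  intro L U _ hM hFN H u M v X m huf hHu huM hXM hvX hvf hat ⟨w, hw1, hw2, hw3, hw4⟩
  have hHvf : (H ∪ v).Finite := (huf.subset hHu).union hvf
  obtain ⟨-, -, -, -, hA5, hA6, -, hA8, hA9, -⟩ := q_ALQ L U hM (H ∪ v) hHvf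
  obtain ⟨-, -, -, -, i5, -, -, -, i9⟩ := hIST L U hM hFN (H ∪ v) hHvf
  obtain ⟨-, -, -, j4, -, -, -, -, -⟩ := hIST L U hM hFN u huf
  have hne : ∀ i, 0 < (w i).1 := by
    intro i
    rcases Nat.eq_zero_or_pos (w i).1 with h | h
    · exfalso
      apply hw3 i
      revert h
      generalize w i = q
      rcases q with ⟨k, t⟩
      rintro (rfl : k = 0)
      exact i9 t
    · exact h
  -- every piece meets `u`
  have hmeet : ∀ i, ∃ a ∈ u, a ∈ Pq L (H ∪ v) ((w i).2 ⟨0, hne i⟩) := by
    intro i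
    by_contra hcon
    push Not at hcon
    apply hw3 i
    obtain ⟨r, b, hb⟩ := MNO.exists_enum hvf
    have hbv : ∀ j, b j ∈ v := fun j => hb ▸ mem_range_self j
    -- the tuple `(v, w i)`
    have h1 : Ist L u (Sum.elim b (w i).2) := by
      refine ist_reindex (finSumFinEquiv (m := r) (n := (w i).1)).symm ?_
      refine hat _ _ ?_
      intro j
      rcases (finSumFinEquiv (m := r) (n := (w i).1)).symm j with j | j
      · exact hXM (hvX (hbv j))
      · exact hXM (hw1 i j)
    have h2 : Ist L (u ∪ range b) (w i).2 := ((j4 _ _ b (w i).2).mp h1).2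
    rw [hb] at h2
    have h3 : u ∪ v = (H ∪ v) ∪ u := by
      ext a
      simp only [mem_union]
      constructor
      · rintro (h | h)
        · exact Or.inr h
        · exact Or.inl (Or.inr h)
      · rintro ((h | h) | h)
        · exact Or.inl (hHu h)
        · exact Or.inr h
        · exact Or.inl h
    rw [h3] at h2
    refine (i5 (Pq L (H ∪ v) ((w i).2 ⟨0, hne i⟩)) u _ (w i).2 (hA5 _).1 huf ?_ (hw2 i _)).mp h2
    rw [Set.disjoint_left]
    exact hcon
  choose a ha1 ha2 using hmeet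
  have hinj : Function.Injective a := by
    intro i i' hii
    by_contra hne'
    have h1 := ha2 i
    have h2 := ha2 i'
    rw [hii] at h1
    have h3 : Pq L (H ∪ v) ((w i).2 ⟨0, hne i⟩) = Pq L (H ∪ v) ((w i').2 ⟨0, hne i'⟩) := by
      rw [← hA8 _ _ h1, ← hA8 _ _ h2]
    refine hw4 i i' hne' ⟨0, hne i⟩ ⟨0, hne i'⟩ ?_
    rw [h3]
    exact (hA5 _).2
  have h1 : (range a).ncard = m := by
    rw [← image_univ, ncard_image_of_injective _ hinj, ncard_univ, Nat.card_fin]
  rw [← h1]
  exact ncard_le_ncard (range_subset_iff.mpr ha1) huf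

end Pool.Agent.TPC
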