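import Pool.Agent.TPC.StZ

/-!
TPC module NFF: no free unions inside clusters of free unions.
-/

set_option autoImplicit false

namespace Pool.Agent.TPC

open FirstOrder.Language Set
open scoped FirstOrder
open Pool.Agent.WOM (tp Mon IsEl IsoM CtU Fx Orb Isd)
open Pool.Agent.PMC (Sm Md NPf)
open Pool.Agent.MNO (Dp FE Sq Nx SmN FE1 FinN)

/-- [NFF] -/
theorem thm_NFF (hNFA : St_NFA) (hNFB : St_NFB) (hSPI : St_SPI) (hPMT : St_PMT) (hIST : St_IST) :
    St_NFF := by
  intro L U _ hM hN hFN H E cl x H' E' cl' hF hx hF' hHH hxH hEE y hy n t ht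
  have hHf : H.Finite := hF.fin
  have hHf' : H'.Finite := hF'.fin
  have hyH : (insert y H').Finite := hHf'.insert y
  obtain ⟨-, -, -, -, -, -, -, i8, -⟩ := hIST L U hM hFN (insert y H') hyH
  -- the longer tuple
  obtain ⟨t', ht0, hts⟩ : ∃ t' : Fin (n + 1) → U, t' 0 = y ∧ ∀ j, t' (Fin.succ j) = t j :=
    ⟨Fin.cons y t, rfl, fun _ => rfl⟩
  have ht' : ∀ i, t' i ∈ E' ∧ cl' (t' 0) (t' i) := by
    intro i
    rw [ht0]
    refine Fin.cases ?_ (fun j => ?_) i
    · rw [ht0]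
      exact ⟨hy, hF'.rfl y hy⟩
    · rw [hts]
      exact ht j
  suffices h : Ist L (insert y H') t' by
    have h1 := i8 n (n + 1) t' Fin.succ h
    simpa only [hts] using h1
  by_contra hni
  obtain ⟨g, hg, hgN⟩ := hNFA L U hM hFN H E cl x H' E' cl' hF hx hF' hHH hxH hEE n t' ht'
    (by rw [ht0]; exact hni)
  -- the models
  set u : ℕ → Set U := fun k => H' ∪ {a | ∃ (i : Fin k) (j : Fin (n + 1)), a = g i (t' j)} with hu
  have huf : ∀ k, (u k).Finite := by
    intro k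
    refine hHf'.union ?_
    have : {a | ∃ (i : Fin k) (j : Fin (n + 1)), a = g i (t' j)} =
        range (fun p : Fin k × Fin (n + 1) => g p.1 (t' p.2)) := by
      ext a
      constructor
      · rintro ⟨i, j, rfl⟩
        exact ⟨(i, j), rfl⟩
      · rintro ⟨⟨i, j⟩, rfl⟩
        exact ⟨i, j, rfl⟩
    rw [this]
    exact finite_range _
  choose M hMd hMI using fun k => hPMT L U hM (u k) (huf k)
  have huM : ∀ k, u k ⊆ M k := fun k => (hMd k).2
  have hHM : ∀ k, H' ⊆ M k := fun k => subset_union_left.trans (huM k)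
  have hA : ∀ k, ∃ v ⊆ Kl E cl (M k) x, v.Finite ∧ Cnt L H v (Kl E cl (M k) x) k := fun k =>
    hgN k (M k) (hHM k) (fun i hi j => huM k (Or.inr ⟨⟨i, hi⟩, j, rfl⟩))
  have hB : ∀ k m, (∃ v ⊆ Kl E cl (M k) x, v.Finite ∧ Cnt L H v (Kl E cl (M k) x) m) →
      m ≤ (u k).ncard := by
    rintro k m ⟨v, hv, hvf, hc⟩
    exact hNFB L U hM hFN H (u k) (M k) v (Kl E cl (M k) x) m (huf k)
      (hHH.trans subset_union_left) (huM k) (fun a ha => ha.1) hv hvf (hMI k) hc
  -- the subsequence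
  obtain ⟨φ, hφ⟩ : ∃ φ : ℕ → ℕ, ∀ i, φ i < φ (i + 1) ∧ (u (φ i)).ncard < φ (i + 1) := by
    refine ⟨fun i => Nat.rec 0 (fun _ p => max p (u p).ncard + 1) i, fun i => ?_⟩
    exact ⟨Nat.lt_succ_of_le (le_max_left _ _), Nat.lt_succ_of_le (le_max_right _ _)⟩
  have hmono : StrictMono φ := strictMono_nat_of_lt_succ (fun i => (hφ i).1)
  have hlt : ∀ i j, i < j → ¬ SmN L H (Kl E cl (M (φ j)) x) (Kl E cl (M (φ i)) x) := by
    intro i j hij h
    have h1 := hB (φ i) (φ j) (hSPI L U hM H _ _ (φ j) h (hA (φ j)))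
    have h2 : φ (i + 1) ≤ φ j := hmono.monotone hij
    have h3 := (hφ i).2
    omega
  obtain ⟨-, hsym, htra, -⟩ := q_SMQ L U hM
  have hxx : cl x x := hF.rfl x hx
  refine q_FIF L U hM hN H E cl hF univ (q_RCH L U hM H hHf).1.1 (fun i => M (φ i)) (fun _ => x) ?_ ?_ ?_
  · intro i
    exact ⟨⟨(hMd _).1, hHH.trans (hHM _)⟩, hHM _ hxH, hx⟩
  · intro i j hij h
    rcases lt_or_gt_of_ne hij with h1 | h1
    · exact hlt i j h1 (hsym _ _ _ h)
    · exact hlt j i h1 h
  · intro i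
    have hemp : Lab L H E cl univ (Kl E cl (M (φ i)) x) = ∅ := by
      rw [Set.eq_empty_iff_forall_notMem]
      rintro K' ⟨z, -, hz, rfl, hs⟩
      have hs' := hs
      obtain ⟨e, he⟩ := hs
      have hxK : x ∈ Kl E cl (M (φ i)) x := ⟨hHM _ hxH, hx, hxx⟩
      obtain ⟨h, hh, hhx⟩ := he {⟨x, hxK⟩} (finite_singleton _)
      have h1 : h x = (e ⟨x, hxK⟩ : U) := hhx ⟨x, hxK⟩ rfl
      have h2 : h x ∈ Kl E cl univ z := h1 ▸ (e ⟨x, hxK⟩).2
      have h3 : Kl E cl univ z = h '' Kl E cl univ x := by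
        ext a
        constructor
        · rintro ⟨-, haE, haz⟩
          refine ⟨h.symm a, ⟨mem_univ _, ?_, ?_⟩, h.apply_symm_apply a⟩
          · exact (hF.fxE h hh.1 _).mp (by rw [h.apply_symm_apply]; exact haE)
          · refine (hF.fxc h hh.1 x hx (h.symm a) ?_).mp ?_
            · exact (hF.fxE h hh.1 _).mp (by rw [h.apply_symm_apply]; exact haE)
            · rw [h.apply_symm_apply]
              exact hF.tra _ h2.2.1 _ hz _ haE (hF.sym _ hz _ h2.2.1 h2.2.2) haz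
        · rintro ⟨b, ⟨-, hbE, hxb⟩, rfl⟩
          have hbE' : h b ∈ E := (hF.fxE h hh.1 _).mpr hbE
          refine ⟨mem_univ _, hbE', ?_⟩
          exact hF.tra _ hz _ h2.2.1 _ hbE' h2.2.2 ((hF.fxc h hh.1 x hx b hbE).mpr hxb)
      have h4 : SmN L H (Kl E cl univ x) (Kl E cl univ z) := by
        rw [h3]
        exact LNWaux.sm_image hh _
      have h5 : SmN L H (Kl E cl univ x) (Kl E cl (M (φ i)) x) :=
        htra _ _ _ _ h4 (hsym _ _ _ hs')
      have h6 := hB (φ i) ((u (φ i)).ncard + 1) (hSPI L U hM H _ _ _ h5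
        (hgN _ univ (subset_univ _) (fun _ _ _ => mem_univ _)))
      omega
    simp only [hemp]
    exact finite_empty

end Pool.Agent.TPC
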