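import Pool.Agent.TPC.StZ

/-!
TPC, module NFR: pieces inside clusters of `E'` are rigid.
-/

set_option autoImplicit false
set_option linter.unusedVariables false

namespace Pool.Agent.TPC

open FirstOrder.Language Set
open scoped FirstOrder
open Pool.Agent.WOM (tp Mon IsEl IsoM CtU Fx Orb Isd)
open Pool.Agent.PMC (Sm Md NPf)
open Pool.Agent.MNO (Dp FE Sq Nx SmN FE1 FinN)

theorem thm_NFR (hNFF : St_NFF) (hKBQ : St_KBQ) (hRGI : St_RGI) (hHRG : St_HRG) : St_NFR := by
  intro L U _ hU hNP hFin H E cl x H' E' cl' hFre hx hFre' hHH hxH hEE B b z hB hHB hbB hbE hzE hbz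
  have hA : (insert b H').Finite := hFre'.fin.insert b
  have hclu : Clu L H' {v | v ∈ E' ∧ cl' b v} b := Or.inr ⟨E', cl', hFre', hbE, rfl⟩
  have hbq : Bq L (insert b H') {v | v ∈ E' ∧ cl' b v} :=
    hKBQ L U hU H' _ b hclu (insert b H') hA (subset_insert _ _)
      ⟨b, mem_insert _ _, hbE, hFre'.rfl b hbE⟩
  obtain ⟨_, _, _, _, a5, a6, _⟩ := q_ALQ L U hU (insert b H') hA
  have hsub : Pq L (insert b H') z ⊆ {v | v ∈ E' ∧ cl' b v} := a6 z _ hbq ⟨hzE, hbz⟩
  have hr : Rgd L (insert b H') z := by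
    refine hRGI L U hU hFin (insert b H') z hA ?_
    intro n t ht
    exact hNFF L U hU hNP hFin H E cl x H' E' cl' hFre hx hFre' hHH hxH hEE b hbE n t
      fun i => hsub (ht i)
  exact hHRG L U hU hNP hFin (insert b H') B z z hB (insert_subset hbB hHB) (a5 z).2 hr

end Pool.Agent.TPC
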