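import Pool.Agent.TPC.StZ

/-!
TPC: [PIS] a tuple whose parts in all pieces are isolated is isolated.
-/

set_option autoImplicit false
set_option linter.unusedVariables false

namespace Pool.Agent.TPC

open FirstOrder.Language Set
open scoped FirstOrder
open Pool.Agent.WOM (tp Mon IsEl IsoM CtU Fx Orb Isd)
open Pool.Agent.PMC (Sm Md NPf)
open Pool.Agent.MNO

variable {L : FirstOrder.Language.{0, 0}} {U : Type} [L.Structure U]

private theorem pis_reorder {A : Set U} {α β : Type} (e : α ≃ β) (t : β → U) (s : α → U)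
    (hs : ∀ i, t (e i) = s i) (h : Ist L A s) : Ist L A t := by
  have h1 := dp_sub h (fun i => e i)
  refine dp_congr h1 fun v => ?_
  constructor
  · rintro ⟨g, hg, hv⟩
    exact ⟨g, hg, fun i => by rw [← hs i]; exact hv (e i)⟩
  · rintro ⟨g, hg, hv⟩
    refine ⟨g, hg, fun i => ?_⟩
    have h2 := hv (e.symm i)
    change g (s (e.symm i)) = v (e (e.symm i)) at h2
    rw [← hs, e.apply_symm_apply] at h2
    exact h2

theorem thm_PIS (hIST : St_IST) : St_PIS := by
  classical
  intro L U _ hMon hFin A hA n
  induction n using Nat.strong_induction_on with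
  | _ n ih =>
    intro t ht
    obtain ⟨-, -, -, -, -, h6, -, -, h9⟩ := hIST L U hMon hFin A hA
    obtain ⟨-, -, -, -, a5, -, -, a8, -, -⟩ := q_ALQ L U hMon A hA
    rcases Nat.eq_zero_or_pos n with hn | hn
    · subst hn
      exact h9 t
    let i0 : Fin n := ⟨0, hn⟩
    let p : Fin n → Prop := fun i => t i ∈ Pq L A (t i0)
    let e1 := Fintype.equivFin {i : Fin n // ¬ p i}
    let e2 := Fintype.equivFin {i : Fin n // p i}
    have hp0 : p i0 := (a5 (t i0)).2
    have hlt : Fintype.card {i : Fin n // ¬ p i} < n := by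
      have h1 := Fintype.card_subtype_lt (p := fun i : Fin n => ¬ p i) (x := i0)
        (fun h => h hp0)
      rwa [Fintype.card_fin] at h1
    have hI1 : Ist L A (fun j => t (e1.symm j).1) := by
      refine ih _ hlt _ fun m f hf => ?_
      exact ht m (fun j => (e1.symm (f j)).1) hf
    have hI2 : Ist L A (fun j => t (e2.symm j).1) := by
      refine ht _ (fun j => (e2.symm j).1) fun j j' => ?_
      have hj : t (e2.symm j).1 ∈ Pq L A (t i0) := (e2.symm j).2
      have hj' : t (e2.symm j').1 ∈ Pq L A (t i0) := (e2.symm j').2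
      rw [a8 _ _ hj]
      exact hj'
    have hI := h6 (Pq L A (t i0)) _ _ (fun j => t (e1.symm j).1) (fun j => t (e2.symm j).1)
      (a5 (t i0)).1 (fun j => (e2.symm j).2) (fun j => (e1.symm j).2) hI1 hI2
    refine pis_reorder ((Equiv.sumCongr e1.symm e2.symm).trans
      ((Equiv.sumComm _ _).trans (Equiv.sumCompl p))) t _ (fun i => ?_) hI
    rcases i with j | j
    · rfl
    · rfl

end Pool.Agent.TPC
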