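import Pool.Agent.TPC.StB
import Pool.Agent.WOM.GNC

/-!
TPC, [PMD]: the prime model over a finite set (helper67 for helper47).
-/

set_option autoImplicit false
set_option linter.unusedVariables false

namespace Pool.Agent.TPC

open FirstOrder.Language Set
open scoped FirstOrder
open Pool.Agent.WOM (tp Mon IsEl IsoM CtU Fx Orb Isd GNC_fin GNC_enum)
open Pool.Agent.PMC (Sm Md NPf fx_refl fx_symm fx_comp fx_mono exists_isd isEl_of_orb mem_orb
  def_mono)
open Pool.Agent.MNO (Dp dp_congr dp_and dp_sub dp_all_fin dp_eq dp_eqc dp_ex dp_fam dp_fx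
  dp_of_def1 exists_enum)

section

variable {L : FirstOrder.Language.{0, 0}} {U : Type} [L.Structure U]

variable (L) in
/-- the orbit of the tuple `b` over `A` -/
def PMD_O (A : Set U) {α : Type} (b v : α → U) : Prop :=
  ∃ g : U ≃[L] U, Fx L A g ∧ ∀ i, g (b i) = v i

variable (L) in
/-- the type of the tuple `b` over `A` is isolated -/
def PMD_Atm (A : Set U) {α : Type} (b : α → U) : Prop := Dp L A (PMD_O L A b)

variable (L) in
/-- the finite set `D` is atomic over `A` -/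
def PMD_At (A D : Set U) : Prop := ∃ (n : ℕ) (b : Fin n → U), range b = D ∧ PMD_Atm L A b

theorem PMD_comp {A : Set U} {α β : Type} [Finite α] [Finite β] {b : α → U}
    (h : PMD_Atm L A b) (f : β → α) : PMD_Atm L A (fun j => b (f j)) := by
  have h1 : Dp L A (fun u : β ⊕ α → U => PMD_O L A b (fun i => u (Sum.inr i)) ∧
      ∀ j, u (Sum.inl j) = u (Sum.inr (f j))) :=
    dp_and (dp_sub h Sum.inr) (dp_all_fin fun j => dp_eq _ _)
  refine dp_congr (dp_ex h1) fun v => ?_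
  constructor
  · rintro ⟨g, hg, hv⟩
    exact ⟨fun i => g (b i), ⟨g, hg, fun i => rfl⟩, fun j => (hv j).symm⟩
  · rintro ⟨x, ⟨g, hg, hx⟩, hv⟩
    refine ⟨g, hg, fun j => ?_⟩
    exact (hx (f j)).trans (hv j).symm

theorem PMD_ext {A : Set U} {α : Type} [Finite α] {b : α → U} {y : U}
    (h : PMD_Atm L A b) (hy : Isd L (A ∪ range b) y) :
    PMD_Atm L A (Sum.elim b (fun _ : Unit => y)) := by
  have h0 : Dp L (A ∪ range b) (fun v : Unit → U => v () ∈ Orb L (A ∪ range b) y) :=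
    dp_of_def1 hy
  obtain ⟨Q, hQ, hQ'⟩ := dp_fam h0
  have h1 : Dp L A (fun v : α ⊕ Unit → U => PMD_O L A b (fun i => v (Sum.inl i)) ∧
      Q (fun i => v (Sum.elim (fun _ => Sum.inr ()) Sum.inl i))) :=
    dp_and (dp_sub h Sum.inl) (dp_sub hQ (Sum.elim (fun _ => Sum.inr ()) Sum.inl))
  refine dp_congr h1 fun v => ?_
  constructor
  · rintro ⟨g, hg, hv⟩
    refine ⟨⟨g, hg, fun i => hv (Sum.inl i)⟩, ?_⟩
    have h2 : Q (Sum.elim (fun _ : Unit => y) b) :=
      (hQ' (fun _ => y)).1 (mem_orb _ y)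
    have h3 := (dp_fx hQ hg (Sum.elim (fun _ : Unit => y) b)).2 h2
    have h4 : (fun i => v (Sum.elim (fun _ : Unit => Sum.inr ()) Sum.inl i)) =
        fun i => g (Sum.elim (fun _ : Unit => y) b i) := by
      funext i
      rcases i with i | i
      · exact (hv (Sum.inr ())).symm
      · exact (hv (Sum.inl i)).symm
    rw [h4]
    exact h3
  · rintro ⟨⟨g, hg, hv⟩, hq⟩
    have h3 := (dp_fx hQ (fx_symm hg) _).2 hq
    have h4 : (fun i => g.symm (v (Sum.elim (fun _ : Unit => Sum.inr ()) Sum.inl i))) =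
        Sum.elim (fun _ : Unit => g.symm (v (Sum.inr ()))) b := by
      funext i
      rcases i with i | i
      · rfl
      · show g.symm (v (Sum.inl i)) = b i
        have hvi : g (b i) = v (Sum.inl i) := hv i
        rw [← hvi, g.symm_apply_apply]
    rw [h4] at h3
    obtain ⟨k, hk, hky⟩ := (hQ' (fun _ => g.symm (v (Sum.inr ())))).2 h3
    refine ⟨g.comp k, fx_comp hg (fx_mono subset_union_left hk), fun i => ?_⟩
    rcases i with i | i
    · show g (k (b i)) = v (Sum.inl i)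
      rw [hk (b i) (Or.inr ⟨i, rfl⟩)]
      exact hv i
    · show g (k y) = v (Sum.inr ())
      rw [hky, g.apply_symm_apply]

theorem PMD_base {A : Set U} (hA : A.Finite) : PMD_At L A A := by
  obtain ⟨n, b, hb⟩ := exists_enum hA
  refine ⟨n, b, hb, ?_⟩
  have hbA : ∀ i, b i ∈ A := fun i => hb ▸ mem_range_self i
  have h1 : Dp L A (fun v : Fin n → U => ∀ i, v i = b i) :=
    dp_all_fin fun i => dp_eqc i (hbA i)
  refine dp_congr h1 fun v => ?_
  constructor
  · rintro ⟨g, hg, hv⟩ i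
    rw [← hv i, hg _ (hbA i)]
  · intro hv
    exact ⟨_, fx_refl A, fun i => (hv i).symm⟩

theorem PMD_fin {A D : Set U} (h : PMD_At L A D) : D.Finite := by
  obtain ⟨n, b, hb, -⟩ := h
  rw [← hb]
  exact finite_range b

theorem PMD_step {A D : Set U} {y : U} (hAD : A ⊆ D) (h : PMD_At L A D) (hy : Isd L D y) :
    PMD_At L A (insert y D) := by
  obtain ⟨m, c, hc⟩ := exists_enum ((PMD_fin h).insert y)
  obtain ⟨n, b, hb, hbA⟩ := h
  have e : A ∪ range b = D := by
    rw [hb]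
    exact union_eq_self_of_subset_left hAD
  have h1 := PMD_ext hbA (e ▸ hy : Isd L (A ∪ range b) y)
  have h2 : ∀ j, ∃ i : Fin n ⊕ Unit, Sum.elim b (fun _ : Unit => y) i = c j := by
    intro j
    have h3 : c j ∈ insert y D := hc ▸ mem_range_self j
    rcases h3 with h3 | h3
    · exact ⟨Sum.inr (), h3.symm⟩
    · rw [← hb] at h3
      obtain ⟨i, hi⟩ := h3
      exact ⟨Sum.inl i, hi⟩
  choose f hf using h2
  refine ⟨m, c, hc, ?_⟩
  have h4 := PMD_comp h1 f
  have h5 : (fun j => Sum.elim b (fun _ : Unit => y) (f j)) = c := funext hf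
  rw [h5] at h4
  exact h4

theorem PMD_isd {A D : Set U} (h : PMD_At L A D) {x : U} (hx : x ∈ D) : Isd L A x := by
  obtain ⟨n, b, hb, hbA⟩ := h
  rw [← hb] at hx
  obtain ⟨i, rfl⟩ := hx
  have h1 := PMD_comp hbA (fun _ : Fin 1 => i)
  have h2 : Dp L A (fun v : Fin 1 → U => v 0 ∈ Orb L A (b i)) := by
    refine dp_congr h1 fun v => ?_
    constructor
    · rintro ⟨g, hg, hv⟩
      refine ⟨g, hg, fun j => ?_⟩
      rw [Subsingleton.elim j 0]
      exact hv
    · rintro ⟨g, hg, hv⟩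
      exact ⟨g, hg, hv 0⟩
  exact h2

end

theorem thm_PMD : St_PMD := by
  intro L U _ hM A hA
  have : Countable U := hM.ctb
  have : Infinite U := hM.inf
  have step : ∀ (p : Finset U × U) (D : Set U), (A ⊆ D ∧ PMD_At L A D) →
      ∃ D' : Set U, (A ⊆ D' ∧ PMD_At L A D') ∧ D ⊆ D' ∧
        ((p.1 : Set U) ⊆ D → Isd L (p.1 : Set U) p.2 →
          ∃ y ∈ D', y ∈ Orb L (p.1 : Set U) p.2) := by
    rintro p D ⟨hAD, hD⟩
    by_cases h1 : (p.1 : Set U) ⊆ D ∧ Isd L (p.1 : Set U) p.2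
    · obtain ⟨y, hy, hyd, -⟩ := exists_isd hM (PMD_fin hD)
        (def_mono h1.1 (h1.2 : (p.1 : Set U).Definable₁ L (Orb L (p.1 : Set U) p.2)))
        ⟨p.2, mem_orb _ _⟩
      exact ⟨insert y D, ⟨hAD.trans (subset_insert _ _), PMD_step hAD hD hyd⟩,
        subset_insert _ _, fun _ _ => ⟨y, mem_insert _ _, hy⟩⟩
    · exact ⟨D, ⟨hAD, hD⟩, Subset.rfl, fun h h' => absurd ⟨h, h'⟩ h1⟩
  choose f hf1 hf2 hf3 using step
  obtain ⟨e, he⟩ := GNC_enum (Finset U × U)
  let cc : ℕ → {D : Set U // A ⊆ D ∧ PMD_At L A D} := fun n =>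
    Nat.rec (motive := fun _ => {D : Set U // A ⊆ D ∧ PMD_At L A D})
      ⟨A, Subset.rfl, PMD_base hA⟩ (fun j D => ⟨f (e j) D.1 D.2, hf1 _ _ _⟩) n
  let c : ℕ → Set U := fun n => (cc n).1
  have hcP : ∀ j, A ⊆ c j ∧ PMD_At L A (c j) := fun j => (cc j).2
  have hc1 : ∀ j, c j ⊆ c (j + 1) := fun j => hf2 (e j) (cc j).1 (cc j).2
  have hcR : ∀ j, ((e j).1 : Set U) ⊆ c j → Isd L ((e j).1 : Set U) (e j).2 →
      ∃ y ∈ c (j + 1), y ∈ Orb L ((e j).1 : Set U) (e j).2 :=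
    fun j => hf3 (e j) (cc j).1 (cc j).2
  have hD : ∀ i j, i ≤ j → c i ⊆ c j := by
    intro i j hij
    induction j, hij using Nat.le_induction with
    | base => exact Subset.rfl
    | succ j _ ih => exact ih.trans (hc1 j)
  have hAM : A ⊆ ⋃ j, c j := fun x hx => mem_iUnion.2 ⟨0, hx⟩
  refine ⟨⋃ j, c j, ⟨isEl_of_orb hM hA hAM ?_, hAM⟩, ?_⟩
  · intro B hB hAB hBX x hx
    obtain ⟨j, -, hj⟩ := GNC_fin c hD B hB hBX 0
    obtain ⟨j', hj', hej⟩ := he (hB.toFinset, x) j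
    have h1 := hcR j'
    rw [hej] at h1
    simp only [Set.Finite.coe_toFinset] at h1
    obtain ⟨y, hy, hyo⟩ := h1 (hj.trans (hD _ _ hj')) hx
    exact ⟨y, mem_iUnion.2 ⟨j' + 1, hy⟩, hyo⟩
  · intro x hx
    obtain ⟨j, hj⟩ := mem_iUnion.1 hx
    exact PMD_isd (hcP j).2 hj

end Pool.Agent.TPC
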