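import Pool.Agent.TPC.StZ
import Pool.Agent.TPC.PMD

/-!
TPC, [PMT]: the prime model over a finite set, all tuples are isolated (helper6 for helper47).
-/

set_option autoImplicit false
set_option linter.unusedVariables false

namespace Pool.Agent.TPC

open FirstOrder.Language Set
open scoped FirstOrder
open Pool.Agent.WOM (tp Mon IsEl IsoM CtU Fx Orb Isd GNC_fin GNC_enum)
open Pool.Agent.PMC (Sm Md NPf exists_isd isEl_of_orb mem_orb def_mono)
open Pool.Agent.MNO (Dp)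

private theorem PMT_of {L : FirstOrder.Language.{0, 0}} {U : Type} [L.Structure U] {A D : Set U}
    (h : PMD_At L A D) (n : ℕ) (t : Fin n → U) (ht : ∀ i, t i ∈ D) : Ist L A t := by
  obtain ⟨m, b, hb, hbA⟩ := h
  rw [← hb] at ht
  choose f hf using ht
  have h1 : PMD_Atm L A (fun j => b (f j)) := PMD_comp hbA f
  have h2 : (fun j => b (f j)) = t := funext hf
  rw [h2] at h1
  exact h1

theorem thm_PMT : St_PMT := by
  intro L U _ hM A hA
  have : Countable U := hM.ctb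
  have : Infinite U := hM.inf
  have step : ∀ (p : Finset U × U) (D : Set U), (A ⊆ D ∧ PMD_At L A D) →
      ∃ D' : Set U, (A ⊆ D' ∧ PMD_At L A D') ∧ D ⊆ D' ∧
        ((p.1 : Set U) ⊆ D → Isd L (p.1 : Set U) p.2 →
          ∃ y ∈ D', y ∈ Orb L (p.1 : Set U) p.2) := by
    rintro p D ⟨hAD, hD⟩
    by_cases h1 : (p.1 : Set U) ⊆ D ∧ Isd L (p.1 : Set U) p.2
    · obtain ⟨y, hy, hyd, -⟩ := exists_isd hM (PMD_fin hD)
        (def_mono h1.1 (h1.2 : (p.1 : Set U).Definable₁ L (Orb L (p.1 : Set U) p.2)))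
        ⟨p.2, mem_orb _ _⟩
      exact ⟨insert y D, ⟨hAD.trans (subset_insert _ _), PMD_step hAD hD hyd⟩,
        subset_insert _ _, fun _ _ => ⟨y, mem_insert _ _, hy⟩⟩
    · exact ⟨D, ⟨hAD, hD⟩, Subset.rfl, fun h h' => absurd ⟨h, h'⟩ h1⟩
  choose f hf1 hf2 hf3 using step
  obtain ⟨e, he⟩ := GNC_enum (Finset U × U)
  let cc : ℕ → {D : Set U // A ⊆ D ∧ PMD_At L A D} := fun n =>
    Nat.rec (motive := fun _ => {D : Set U // A ⊆ D ∧ PMD_At L A D})
      ⟨A, Subset.rfl, PMD_base hA⟩ (fun j D => ⟨f (e j) D.1 D.2, hf1 _ _ _⟩) n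
  let c : ℕ → Set U := fun n => (cc n).1
  have hcP : ∀ j, A ⊆ c j ∧ PMD_At L A (c j) := fun j => (cc j).2
  have hc1 : ∀ j, c j ⊆ c (j + 1) := fun j => hf2 (e j) (cc j).1 (cc j).2
  have hcR : ∀ j, ((e j).1 : Set U) ⊆ c j → Isd L ((e j).1 : Set U) (e j).2 →
      ∃ y ∈ c (j + 1), y ∈ Orb L ((e j).1 : Set U) (e j).2 :=
    fun j => hf3 (e j) (cc j).1 (cc j).2
  have hD : ∀ i j, i ≤ j → c i ⊆ c j := by
    intro i j hij
    induction j, hij using Nat.le_induction with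
    | base => exact Subset.rfl
    | succ j _ ih => exact ih.trans (hc1 j)
  have hAM : A ⊆ ⋃ j, c j := fun x hx => mem_iUnion.2 ⟨0, hx⟩
  refine ⟨⋃ j, c j, ⟨isEl_of_orb hM hA hAM ?_, hAM⟩, ?_⟩
  · intro B hB hAB hBX x hx
    obtain ⟨j, -, hj⟩ := GNC_fin c hD B hB hBX 0
    obtain ⟨j', hj', hej⟩ := he (hB.toFinset, x) j
    have h1 := hcR j'
    rw [hej] at h1
    simp only [Set.Finite.coe_toFinset] at h1
    obtain ⟨y, hy, hyo⟩ := h1 (hj.trans (hD _ _ hj')) hx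
    exact ⟨y, mem_iUnion.2 ⟨j' + 1, hy⟩, hyo⟩
  · intro n t ht
    obtain ⟨j, -, hj⟩ := GNC_fin c hD (range t) (finite_range t)
      (range_subset_iff.2 ht) 0
    exact PMT_of (hcP j).2 n t fun i => hj (mem_range_self i)

end Pool.Agent.TPC
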