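import Pool.Agent.TPC.StZ
import Pool.Agent.MNO.BAF

/-!
TPC: [RGI] a piece in which all tuples are isolated is rigid (helper82).
-/

set_option autoImplicit false

namespace Pool.Agent.TPC

open FirstOrder.Language Set
open scoped FirstOrder
open Pool.Agent.WOM (Mon Fx)
open Pool.Agent.PMC (Md)
open Pool.Agent.MNO (Dp Nx SmN FinN)

/-- [RGI] -/
theorem thm_RGI (hIST : St_IST) : St_RGI := by
  classical
  intro L U _ hM hF A z hA hall M hMd
  have _ := hM.ctb
  have hP : Bq L A (Pq L A z) := (q_ALQ L U hM A hA).2.2.2.2.1 z |>.1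
  refine Pool.Agent.MNO.thm_BAF Pool.Agent.MNO.thm_BAG L U A (M ∩ Pq L A z) (Pq L A z)
    (fun s => ∃ g : U ≃[L] U, Nx L A g ∧ ∀ c ∈ s, g c.1 = c.2 ∧ c.1 ∈ M ∩ Pq L A z ∧
      c.2 ∈ Pq L A z) (Set.to_countable _) (Set.to_countable _) ?_ ?_ ?_ ?_
  · exact ⟨FirstOrder.Language.Equiv.refl L U, Pool.Agent.MNO.nx_refl A,
      fun c hc => absurd hc (Set.notMem_empty c)⟩
  · rintro s hs ⟨g, hg, hgs⟩ x hx
    refine ⟨g x, (hP.inv g hg x).2 hx.2, g, hg, ?_⟩
    rintro c (rfl | hc)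
    · exact ⟨rfl, hx, (hP.inv g hg x).2 hx.2⟩
    · exact hgs c hc
  · rintro s hs ⟨g, hg, hgs⟩ y hy
    have hgs' := Pool.Agent.MNO.nx_symm hg
    obtain ⟨a0, ha0⟩ : ∃ a0, a0 = g.symm y := ⟨_, rfl⟩
    have hga0 : g a0 = y := by rw [ha0]; exact g.apply_symm_apply y
    have ha0P : a0 ∈ Pq L A z := by rw [ha0]; exact (hP.inv _ hgs' y).2 hy
    have hfin : (Prod.fst '' s : Set U).Finite := hs.image _
    have _ : Finite (Prod.fst '' s : Set U) := hfin
    obtain ⟨m, ⟨e⟩⟩ := Finite.exists_equiv_fin (Prod.fst '' s : Set U)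
    obtain ⟨t, ht⟩ : ∃ t : Fin m → U, t = fun i => ((e.symm i : (Prod.fst '' s : Set U)) : U) :=
      ⟨_, rfl⟩
    have htm : ∀ i, t i ∈ (Prod.fst '' s : Set U) := fun i => by rw [ht]; exact (e.symm i).2
    have htr : ∀ c ∈ s, c.1 ∈ range t := by
      intro c hc
      refine ⟨e ⟨c.1, c, hc, rfl⟩, ?_⟩
      rw [ht]
      show ((e.symm (e ⟨c.1, c, hc, rfl⟩) : (Prod.fst '' s : Set U)) : U) = c.1
      rw [e.symm_apply_apply]
    have htMP : ∀ i, t i ∈ M ∩ Pq L A z := by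
      intro i
      obtain ⟨c, hc, hci⟩ := htm i
      rw [← hci]
      exact (hgs c hc).2.1
    have h1 := hall (m + 1) (fun i => Sum.elim t (fun _ : Fin 1 => a0) (finSumFinEquiv.symm i)) (by
      intro i
      rcases finSumFinEquiv.symm i with j | j
      · exact (htMP j).2
      · exact ha0P)
    have h2 : Ist L A (Sum.elim t (fun _ : Fin 1 => a0)) := by
      have h3 := Pool.Agent.MNO.dp_sub h1
        (finSumFinEquiv.symm : Fin (m + 1) → Fin m ⊕ Fin 1)
      refine Pool.Agent.MNO.dp_congr h3 fun v => ?_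
      constructor
      · rintro ⟨k, hk, hkv⟩
        exact ⟨k, hk, fun i => hkv _⟩
      · rintro ⟨k, hk, hkv⟩
        refine ⟨k, hk, fun j => ?_⟩
        have h4 := hkv (finSumFinEquiv j)
        dsimp only at h4
        rw [Equiv.symm_apply_apply] at h4
        exact h4
    have h5 := ((hIST L U hM hF A hA).2.2.2.1 m 1 t (fun _ => a0)).1 h2
    have hB : (A ∪ range t).Finite := hA.union (finite_range t)
    obtain ⟨k, hk, hkM⟩ := (hIST L U hM hF (A ∪ range t) hB).2.1 1 (fun _ => a0) M h5.2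
      ⟨hMd.1, by
        rintro x (hx | ⟨i, rfl⟩)
        · exact hMd.2 hx
        · exact (htMP i).1⟩
    have hkA : Nx L A k := Pool.Agent.MNO.nx_mono Set.subset_union_left hk
    have hkP : k a0 ∈ Pq L A z := (hP.inv k hkA a0).2 ha0P
    refine ⟨k a0, ⟨hkM 0, hkP⟩, g.comp k.symm,
      Pool.Agent.MNO.nx_comp hg (Pool.Agent.MNO.nx_symm hkA), ?_⟩
    rintro c (rfl | hc)
    · refine ⟨?_, ⟨hkM 0, hkP⟩, hy⟩
      show g (k.symm (k a0)) = y
      rw [k.symm_apply_apply, hga0]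
    · refine ⟨?_, (hgs c hc).2⟩
      have h6 : k c.1 = c.1 := hk.1 c.1 (Or.inr (htr c hc))
      have h7 : k.symm c.1 = c.1 := by
        conv_lhs => rw [← h6]
        exact k.symm_apply_apply c.1
      show g (k.symm c.1) = c.2
      rw [h7]
      exact (hgs c hc).1
  · rintro s hs ⟨g, hg, hgs⟩
    exact ⟨g, hg, fun c hc => (hgs c hc).1⟩

end Pool.Agent.TPC
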