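import Pool.Agent.TPC.StZ

/-!
TPC, [RPL]: parameters outside of a piece (helper56).
-/

set_option autoImplicit false
set_option linter.unusedVariables false

namespace Pool.Agent.TPC

open FirstOrder.Language Set
open scoped FirstOrder
open Pool.Agent.WOM (tp Mon IsEl IsoM CtU Fx Orb Isd)
open Pool.Agent.PMC (Sm Md NPf)
open Pool.Agent.MNO (Dp FE Sq Nx SmN FE1 FinN)

private theorem RPL_univ {L : FirstOrder.Language.{0, 0}} {U : Type} [L.Structure U] (A : Set U) :
    Md L A univ := by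
  refine ⟨fun s _ hs => ?_, subset_univ A⟩
  rw [inter_univ]
  exact hs

/-- a model may be enlarged outside of a piece -/
private theorem RPL_md {L : FirstOrder.Language.{0, 0}} {U : Type} [L.Structure U] (hM : Mon L U)
    (hN : NPf L U) {A W : Set U} {z : U} (hA : A.Finite) (hd : Disjoint W (Pq L A z)) {M : Set U}
    (h : Md L A M) : Md L (A ∪ W) {v | v ∈ Pq L A z → v ∈ M} := by
  classical
  obtain ⟨-, -, -, -, -, -, -, a8, a9, -⟩ := q_ALQ L U hM A hA
  have hF : Fcp L A := q_FCP L U hM hN A hA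
  have key : Md L A {v | v ∈ (if v ∈ Pq L A z then M else univ)} := by
    refine q_UNQ L U hM A hA hF (fun v => if v ∈ Pq L A z then M else univ) (fun v => ?_)
      fun v y hy => ?_
    · show Md L A (if v ∈ Pq L A z then M else univ)
      split_ifs
      · exact h
      · exact RPL_univ A
    · show (if y ∈ Pq L A z then M else univ) = if v ∈ Pq L A z then M else univ
      have e : y ∈ Pq L A z ↔ v ∈ Pq L A z := by
        constructor
        · intro hyz
          have h1 := a8 z y hyz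
          have h2 := a8 v y hy
          rw [← h1, h2]
          exact SMQ_self A v
        · intro hv
          rw [← a8 z v hv]
          exact hy
      simp only [e]
  have e : {v | v ∈ (if v ∈ Pq L A z then M else univ)} = {v | v ∈ Pq L A z → v ∈ M} := by
    ext v
    by_cases hv : v ∈ Pq L A z
    · simp [hv]
    · simp [hv]
  rw [e] at key
  refine ⟨key.1, union_subset key.2 fun w hw hwP => ?_⟩
  exact absurd hwP (disjoint_left.1 hd hw)

private theorem RPL_cap {U : Type} (P M : Set U) : {v | v ∈ P → v ∈ M} ∩ P = M ∩ P := by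
  ext v
  constructor
  · rintro ⟨h, hv⟩
    exact ⟨h hv, hv⟩
  · rintro ⟨h, hv⟩
    exact ⟨fun _ => h, hv⟩

/-- [RPL] -/
theorem thm_RPL : St_RPL := by
  intro L U _ hM hN A W z hA hW hd
  obtain ⟨-, -, -, -, a5, -, -, -, -, -⟩ := q_ALQ L U hM A hA
  have s5 := (q_SMQ L U hM).2.2.2.2.1
  have h1 : Pq L (A ∪ W) z = Pq L A z := q_NNQ L U hM A W z hA hW hd
  have h2 : ∀ X Y : Set U, X ⊆ Pq L A z → Y ⊆ Pq L A z → SmN L A X Y → SmN L (A ∪ W) X Y := by
    rintro X Y hX hY ⟨e, he⟩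
    refine ⟨e, fun s hs => ?_⟩
    obtain ⟨g, hg, hge⟩ := he s hs
    obtain ⟨h, hh, hhg⟩ := (q_OFQ L U hM A (Pq L A z) hA (a5 z).1).1 W hW hd g hg
      (Subtype.val '' s) (hs.image _) (by
        rintro _ ⟨x, -, rfl⟩
        exact hX x.2)
    refine ⟨h, hh, fun x hx => ?_⟩
    rw [hhg x ⟨x, hx, rfl⟩]
    exact hge x hx
  have hmd : ∀ M, Md L A M → Md L (A ∪ W) {v | v ∈ Pq L A z → v ∈ M} :=
    fun M h => RPL_md hM hN hA hd h
  have hmd' : ∀ M, Md L (A ∪ W) M → Md L A M := fun M h => ⟨h.1, subset_union_left.trans h.2⟩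
  refine ⟨h1, h2, ⟨fun h M hMd => ?_, fun h M hMd => ?_⟩, ⟨?_, ?_⟩⟩
  · rw [h1]
    exact h2 _ _ inter_subset_right subset_rfl (h M (hmd' M hMd))
  · have h3 := h _ (hmd M hMd)
    rw [h1, RPL_cap] at h3
    exact (s5 A (A ∪ W) _ _ subset_union_left h3).1
  · rintro ⟨c, hc, hc'⟩
    refine ⟨c, fun n => hmd' _ (hc n), fun M hMd => ?_⟩
    obtain ⟨n, hn⟩ := hc' _ (hmd M hMd)
    refine ⟨n, ?_⟩
    rw [RPL_cap] at hn
    exact (s5 A (A ∪ W) _ _ subset_union_left hn).1
  · rintro ⟨c, hc, hc'⟩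
    refine ⟨fun n => {v | v ∈ Pq L A z → v ∈ c n}, fun n => hmd _ (hc n), fun M hMd => ?_⟩
    obtain ⟨n, hn⟩ := hc' M (hmd' M hMd)
    refine ⟨n, ?_⟩
    show SmN L (A ∪ W) (M ∩ Pq L A z) ({v | v ∈ Pq L A z → v ∈ c n} ∩ Pq L A z)
    rw [RPL_cap]
    exact h2 _ _ inter_subset_right inter_subset_right hn

end Pool.Agent.TPC
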