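import Pool.Agent.TPC.StZ

/-!
TPC, [SPI]: the number `m` of `Cnt` is an invariant of similarity (helper14).
-/

set_option autoImplicit false
set_option linter.unusedVariables false

namespace Pool.Agent.TPC

open FirstOrder.Language Set
open scoped FirstOrder
open Pool.Agent.WOM (tp Mon IsEl IsoM CtU Fx Orb Isd)
open Pool.Agent.PMC (Sm Md NPf comp_apply' img_symm_img img_img_symm mem_img_iff
  mem_symm_img_iff fx_img)
open Pool.Agent.MNO (Dp FE Sq Nx SmN FE1 FinN nx_conj dp_img dp_congr)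

section

variable {L : FirstOrder.Language.{0, 0}} {U : Type} [L.Structure U]

private theorem ist_back {A : Set U} {α : Type} {t : α → U} (g : U ≃[L] U)
    (h : Ist L (g '' A) (fun i => g (t i))) : Ist L A t := by
  have h1 := dp_img h g.symm
  rw [img_symm_img] at h1
  refine dp_congr h1 fun s => ⟨?_, ?_⟩
  · rintro ⟨k, hk, hks⟩
    refine ⟨g.comp (k.comp g.symm), ?_, fun i => ?_⟩
    · rintro _ ⟨a, ha, rfl⟩
      rw [comp_apply', comp_apply', g.symm_apply_apply, hk a ha]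
    · rw [comp_apply', comp_apply', g.symm_apply_apply, hks i]
      rfl
  · rintro ⟨k, hk, hks⟩
    refine ⟨g.symm.comp (k.comp g), ?_, fun i => ?_⟩
    · intro a ha
      rw [comp_apply', comp_apply', hk _ ⟨a, ha, rfl⟩, g.symm_apply_apply]
    · have h2 := hks i
      rw [comp_apply', comp_apply', h2]
      exact g.symm_apply_apply (s i)

end

/-- [SPI] -/
theorem thm_SPI : St_SPI := by
  intro L U _ hM H X Y m hXY hv
  obtain ⟨e, he⟩ := hXY
  obtain ⟨v, hvX, hvf, w, hw1, hw2, hw3, hw4⟩ := hv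
  have hfin : (v ∪ ⋃ i : Fin m, Set.range (w i).2).Finite :=
    hvf.union (Set.finite_iUnion fun i => Set.finite_range _)
  obtain ⟨g, hg, hge⟩ := he (Subtype.val ⁻¹' (v ∪ ⋃ i : Fin m, Set.range (w i).2))
    (hfin.preimage Subtype.val_injective.injOn)
  have hgv : ∀ x ∈ v, g x ∈ Y := by
    intro x hx
    have h1 := hge ⟨x, hvX hx⟩ (Or.inl hx)
    rw [show g x = _ from h1]
    exact (e ⟨x, hvX hx⟩).2
  have hgw : ∀ i j, g ((w i).2 j) ∈ Y := by
    intro i j
    have h1 := hge ⟨(w i).2 j, hw1 i j⟩ (Or.inr (Set.mem_iUnion.2 ⟨i, j, rfl⟩))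
    rw [show g ((w i).2 j) = _ from h1]
    exact (e ⟨(w i).2 j, hw1 i j⟩).2
  have himg : H ∪ g '' v = g '' (H ∪ v) := by
    rw [Set.image_union, fx_img H hg.1]
  refine ⟨g '' v, ?_, hvf.image _, fun i => ⟨(w i).1, fun j => g ((w i).2 j)⟩, hgw, ?_, ?_, ?_⟩
  · rintro _ ⟨x, hx, rfl⟩
    exact hgv x hx
  · intro i j j'
    have h1 : g ((w i).2 j') ∈ g '' Pq L (H ∪ v) ((w i).2 j) := ⟨_, hw2 i j j', rfl⟩
    rw [IMQ_pq hM] at h1
    rw [himg]
    exact h1
  · intro i hi
    rw [himg] at hi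
    exact hw3 i (ist_back g hi)
  · intro i i' hii j j' hmem
    rw [himg] at hmem
    have h1 : g ((w i').2 j') ∈ Pq L (g '' (H ∪ v)) (g ((w i).2 j)) := hmem
    rw [← IMQ_pq hM] at h1
    exact hw4 i i' hii j j' ((mem_img_iff g _ _).1 h1)

end Pool.Agent.TPC
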