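import Pool.Agent.TPC.GLK
import Pool.Agent.TPC.KBQ
import Pool.Agent.TPC.CVA
import Pool.Agent.TPC.RPL
import Pool.Agent.TPC.HRG
import Pool.Agent.TPC.LRG
import Pool.Agent.TPC.FNT
import Pool.Agent.TPC.IST
import Pool.Agent.TPC.PMT
import Pool.Agent.TPC.RGI
import Pool.Agent.TPC.SPI
import Pool.Agent.TPC.PIS
import Pool.Agent.TPC.NFA
import Pool.Agent.TPC.NFB
import Pool.Agent.TPC.NFF
import Pool.Agent.TPC.NFR
import Pool.Agent.TPC.BGC
import Pool.Agent.TPC.BG3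
import Pool.Agent.TPC.ISO
import Pool.Agent.TPC.FNA
import Pool.Agent.TPC.FNB
import Pool.Agent.TPC.CTZ

/-!
TPC: the counting part of full T6 (`StZ`), without hypotheses (helper47).
-/

set_option autoImplicit false

namespace Pool.Agent.TPC

theorem z_GLK : St_GLK := thm_GLK
theorem z_KBQ : St_KBQ := thm_KBQ z_GLK
theorem z_CVA : St_CVA := thm_CVA z_GLK
theorem z_RPL : St_RPL := thm_RPL
theorem z_HRG : St_HRG := thm_HRG z_RPL
theorem z_LRG : St_LRG := thm_LRG z_GLK z_CVA z_RPL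
theorem z_FNT : St_FNT := thm_FNT
theorem z_PMT : St_PMT := thm_PMT
theorem z_IST : St_IST := thm_IST z_FNT z_PMT
theorem z_RGI : St_RGI := thm_RGI z_IST
theorem z_SPI : St_SPI := thm_SPI
theorem z_PIS : St_PIS := thm_PIS z_IST
theorem z_NFA : St_NFA := thm_NFA z_KBQ z_IST z_PIS
theorem z_NFB : St_NFB := thm_NFB z_IST
theorem z_NFF : St_NFF := thm_NFF z_NFA z_NFB z_SPI z_PMT z_IST
theorem z_NFR : St_NFR := thm_NFR z_NFF z_KBQ z_RGI z_HRG
theorem z_BGC : St_BGC := thm_BGC z_RPL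
theorem z_BG3 : St_BG3 := thm_BG3 z_IST z_BGC
theorem z_ISO : St_ISO := thm_ISO
theorem z_FNA : St_FNA := thm_FNA
theorem z_FNB : St_FNB := thm_FNB
theorem z_CTZ : St_CTZ := thm_CTZ

end Pool.Agent.TPC
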