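import Pool.Agent.TPC.API

/-!
TPC: statements of the counting part of full T6 (helper47), with proofs in the docstrings.  No structure theory.
`U` is the countable saturated model.  All statements of `StA` .. `StE` are available in unconditional form as `q_XXX`
(`Pool/Agent/TPC/API.lean`).  Tools: `MNO/Kit.lean` (`dp_..`), `MNO/NBase.lean` (`fe_..`, `sq_..`, `nx_..`, `nx_of_sq`,
`nx_meets`, `nx_meets'` for tuples, `nx_fe`, `STG.exists_equiv`: a bijection which is locally an automorphism is one,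
`nx_lim`), back and forth: `MNO.St_BAG` (`MNO/BAG.lean`).

Convention: module XXX is the file `Pool/Agent/TPC/XXX.lean` with `theorem thm_XXX (hAAA : St_AAA) .. : St_XXX`, the
hypotheses are the modules of THIS file cited in the docstring of `St_XXX`.
-/

set_option autoImplicit false
set_option linter.unusedVariables false

namespace Pool.Agent.TPC

open FirstOrder.Language Set
open scoped FirstOrder
open Pool.Agent.WOM (tp Mon IsEl IsoM CtU Fx Orb Isd)
open Pool.Agent.PMC (Sm Md NPf)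
open Pool.Agent.MNO (Dp FE Sq Nx SmN FE1 FinN)

section defs

variable (L : FirstOrder.Language.{0, 0}) {U : Type} [L.Structure U]

/-- `K` is the cluster of `y` in a linear piece or in a free union of clusters over `H` -/
def Clu (H K : Set U) (y : U) : Prop :=
  (∃ (E : Set U) (lt : U → U → Prop), Lin L H E lt ∧ y ∈ E ∧ K = {v | v ∈ E ∧ ¬ lt y v ∧ ¬ lt v y}) ∨
    ∃ (E : Set U) (cl : U → U → Prop), Fre L H E cl ∧ y ∈ E ∧ K = {v | v ∈ E ∧ cl y v}

/-- the piece of `z` over `A` is rigid: all its parts are similar -/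
def Rgd (A : Set U) (z : U) : Prop := ∀ M, Md L A M → SmN L A (M ∩ Pq L A z) (Pq L A z)

/-- the type of the tuple `t` over `A` is isolated -/
def Ist (A : Set U) {α : Type} (t : α → U) : Prop :=
  Dp L A (fun s : α → U => ∃ g : U ≃[L] U, Fx L A g ∧ ∀ i, g (t i) = s i)

/-- the piece of `z` over `A` is not hereditarily countable -/
def Big (A : Set U) (z : U) : Prop :=
  ∃ (B : Set U) (z' : U), B.Finite ∧ A ⊆ B ∧ z' ∈ Pq L A z ∧ ¬ Cpt L B (Pq L B z')

/-- `m` tuples in `X`, each inside one piece over `H ∪ v`, not isolated over `H ∪ v`, in different pieces -/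
def Cnt (H v X : Set U) (m : ℕ) : Prop :=
  ∃ w : Fin m → (k : ℕ) × (Fin k → U), (∀ i j, (w i).2 j ∈ X) ∧
    (∀ i j j', (w i).2 j' ∈ Pq L (H ∪ v) ((w i).2 j)) ∧ (∀ i, ¬ Ist L (H ∪ v) (w i).2) ∧
    ∀ i i', i ≠ i' → ∀ j j', (w i').2 j' ∉ Pq L (H ∪ v) ((w i).2 j)

end defs

/-! ### Clusters -/

/-- [GLK] gluing on a cluster.
HYPS: none.
PROOF.  (1) `Lin.fin`, LOB (2); `Fre.fin`, FOB (1).  (2) `Lin.irr`; `Fre.rfl`.  (3) `v ∈ K`: the cluster of `v` is `K` (`neg`, `tra`;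
`sym`, `tra`).  (4) `fxE`, `fxl` / `fxc` and (3) (`g y ∈ K`, so the cluster of `g y` is `K`).
(5) Let `t = g` on `K`, the identity elsewhere.  For a finite `F ⊆ E`: LGR resp. FOB (4) for `t` (`t x ∈ K` iff `x ∈ K` for
`x ∈ E` by (4); Lin: if `x ∈ K`, `y' ∈ E` not in `K`, `lt x y'` then `lt (g x) y'` as `g x ∈ K` (`neg`); the other cases in the same
way; local condition: `g` for `x ∈ K`, the identity for `x` not in `K`).  For a finite `F ⊆ U`: apply this to `F ∩ E` and then LOB (7)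
resp. FOB (3) ... with `Bq H E` (gluing on `E`): an automorphism in `Nx H` which agrees with `t` on `F`.  So `t` is a bijection
which is locally an automorphism in `Nx H`: `STG.exists_equiv`, `nx_lim`. -/
def St_GLK : Prop :=
  ∀ (L : FirstOrder.Language.{0, 0}) (U : Type) [L.Structure U], Mon L U → ∀ (H K : Set U) (y : U),
    Clu L H K y →
    (H.Finite ∧ Disjoint H K ∧ y ∈ K) ∧
    (∀ v ∈ K, Clu L H K v) ∧
    (∀ g : U ≃[L] U, Fx L H g → g y ∈ K → ∀ v, g v ∈ K ↔ v ∈ K) ∧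
    ∀ g : U ≃[L] U, Nx L H g → g y ∈ K →
      ∃ k : U ≃[L] U, Nx L H k ∧ (∀ v ∈ K, k v = g v) ∧ ∀ v, v ∉ K → k v = v

/-- [KBQ] clusters are unions of pieces over their elements.
HYPS: GLK.
PROOF.  Let `a ∈ A ∩ K`; GLK (2): we may take `y = a`.  `inv`: GLK (3) (`g a = a`).  `glu`: let `g` be in `Nx A`, `k` from GLK (4).
Show that `k` is in `Nx A`; it fixes `A`.  Let `v : Fin n → U`, `FE A F`, `v1` = the entries in `K`, `v2` = the others; show
`F (v1, v2) (g v1, v2)`.  `F' u u' := F (u, v2) (u', v2)`: `FE (A ∪ range v2) F'`.  For `g1, g2, k1` in `Nx A` let `k1'` be `k1` on `K`,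
the identity elsewhere (GLK (4)): it fixes `A` and `v2`, so `F' (g1 v1) (g2 v1)` gives `F' (k1 (g1 v1)) (k1 (g2 v1))`.  BND
(`B := A ∪ range v2`).  (Exactly as OFQ (3), `TPC/OFQ.lean`.) -/
def St_KBQ : Prop :=
  ∀ (L : FirstOrder.Language.{0, 0}) (U : Type) [L.Structure U], Mon L U → ∀ (H K : Set U) (y : U),
    Clu L H K y → ∀ A : Set U, A.Finite → H ⊆ A → (∃ a ∈ A, a ∈ K) → Bq L A K

/-- [CVA] a piece over `A` inside a cluster: `A` meets the cluster.
HYPS: GLK.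
PROOF.  Suppose not; `P = Pq A z ⊆ K`, `B = A ∪ H`; `H ∩ K = ∅`, so `P = Pq B z` (NNQ).  `Fcp B` (FCP): finitely many pieces `Q` over
`B` meet `Orb B z`; choose a point `d_Q` in each; `D` = those `d_Q` which are in `E`.  Claim: there is `h` over `B` such that no `d ∈ D`
is in the cluster of `h z`.  Then `h '' P = Pq B (h z)` (IMQ (3)) is inside the cluster of `h z` (`fxc` / `fxl`), but it contains its
`d_Q`, which is in `E`, so in `D`: contradiction.
Claim, free case: `Fre.inf` for `D ∪ (A ∩ E)`: `g` in `Nx H`; `z` and `g z` are in no cluster of a point of `A ∩ E` (`A ∩ K = ∅`): FOB (2)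
for `S = {z}`, `W = A ∩ E`, then FOB (3) for `A ∪ H`.
Linear case: `D0`, `V0` = the points of `A ∩ E` before, after `z` (`A ∩ K = ∅`).  `gap` for `D0 ∪ {d ∈ D | d before all of V0}` and `V0`:
`g` in `Nx H`.  A `d ∈ D` in the cluster of `g z` is before all of `V0` (`neg`), so before `g z`: no.  LOB (5) for `D0`, `M = {z}`, `V0`,
then LOB (7) for `A ∪ H`. -/
def St_CVA : Prop :=
  ∀ (L : FirstOrder.Language.{0, 0}) (U : Type) [L.Structure U], Mon L U → NPf L U →
    ∀ (H K : Set U) (y : U), Clu L H K y → ∀ (A : Set U) (z : U), A.Finite → Pq L A z ⊆ K →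
    ∃ a ∈ A, a ∈ K

/-! ### Rigid pieces, change of base -/

/-- [RPL] parameters outside of a piece.
HYPS: none.
PROOF.  `P = Pq A z`.  (1) NNQ.  (2) for `X, Y ⊆ P`: `SmN A X Y → SmN (A ∪ W) X Y`: OFQ (1) for `Q = P` (ALQ (5)) for every finite
subset.  (3) (→) for `M` (`Md (A ∪ W)`): (2).  (←) For `M` (`Md A`) let `M' = {v | v ∈ P → v ∈ M}`: UNQ over `A` with FCP (`m v = M` for
`v ∈ P`, `m v = univ` otherwise; ALQ (8)); `W ⊆ M'`, so `Md (A ∪ W) M'`, `M' ∩ P = M ∩ P`; SMQ (5).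
(4) (→) `c` from `Cpt (A ∪ W) P` works for `M'` as in (3).  (←) `c' n = {v | v ∈ P → v ∈ c n}` and (2).  (1) is used everywhere. -/
def St_RPL : Prop :=
  ∀ (L : FirstOrder.Language.{0, 0}) (U : Type) [L.Structure U], Mon L U → NPf L U →
    ∀ (A W : Set U) (z : U), A.Finite → W.Finite → Disjoint W (Pq L A z) →
    Pq L (A ∪ W) z = Pq L A z ∧
    (∀ X Y : Set U, X ⊆ Pq L A z → Y ⊆ Pq L A z → SmN L A X Y → SmN L (A ∪ W) X Y) ∧
    (Rgd L A z ↔ Rgd L (A ∪ W) z) ∧
    (Cpt L (A ∪ W) (Pq L A z) ↔ Cpt L A (Pq L A z))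

/-- [HRG] rigid is hereditary.
HYPS: RPL.
PROOF.  `P = Pq A z`, `B' = A ∪ (B ∩ P)`, `Q = Pq B' z' ⊆ P` (ALQ (10), (8)).  `W = B \ B'` is outside of `P`: RPL over `B'` for `W`
(`B' ∪ W = B`): it is enough to show `Rgd B' z'`.  If `B ∩ P = ∅` then `B' = A`, `Q = P` (ALQ (8)): clear.  Let `b0 ∈ B ∩ P`.
`M` with `Md B' M`; UNQ over `B'`: `M' = {v | v ∈ Q → v ∈ M}` is `Md B'`.  `Rgd A z` for `M'`: `e : M' ∩ P ≃ P` as in `SmN A`.  `g0` in `Nx A`
with `g0 = e` on the finite set `B ∩ P` (`⊆ M'`); `e1 = g0⁻¹ ∘ e : M' ∩ P ≃ P` (`P` is invariant under `Nx A`) is the identity on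
`B ∩ P`, and for finite `s`: `g` in `Nx A` with `g = e` on `s ∪ (B ∩ P)`, `g0⁻¹ ∘ g` fixes `B'`.  Let `Q* = {v | ∃ h over B', h v ∈ Q}`;
`Q* ⊆ P` (`h '' P = P` for `h` over `B'`: `h b0 = b0`, IMQ (3), ALQ (8)).  `e1` restricts to `M' ∩ Q* ≃ Q*` as in `Sm B'` (`Q*` is invariant
under automorphisms over `B'`).  CJP (`Y = M'`; `Fcp B'`): `Sm B' (M' ∩ Q) Q`; LF2: `SmN B' (M' ∩ Q) Q`, and `M' ∩ Q = M ∩ Q`. -/
def St_HRG : Prop :=
  ∀ (L : FirstOrder.Language.{0, 0}) (U : Type) [L.Structure U], Mon L U → NPf L U →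
    FinN L U → ∀ (A B : Set U) (z z' : U), B.Finite → A ⊆ B → z' ∈ Pq L A z → Rgd L A z →
    Rgd L B z'

/-- [LRG] pieces inside the clusters of linear pieces are rigid.
HYPS: GLK, CVA, RPL.
PROOF.  `K = {v | v ∈ E ∧ ¬ lt y v ∧ ¬ lt v y}`, `Clu H K y`; CVA: `a ∈ A ∩ K`.  `P = Pq A z ⊆ K` misses `H` (GLK (1)), `B = A ∪ H`: by RPL it is
enough to show `Rgd B z`, `P = Pq B z`.  `M` with `Md B M`; `M' = {v | v ∈ P → v ∈ M}` is `Md B` (UNQ).  LNW over `H` for `M0 = univ`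
(RCH (1)), `M := M'`, `p := a`: `w ∈ E` and `e : Iv E lt M' a a ≃ Iv E lt univ w w` as in `SmN H`.  `Iv E lt M' a a = M' ∩ K` (GLK (2)).  `Y = A ∩ K`,
finite, `⊆ M'`; `g0` in `Nx H` with `g0 = e` on `Y`; `e a ∈ Iv univ w w`, so `Iv univ w w = g0 '' K`; `e1 = g0⁻¹ ∘ e : M' ∩ K ≃ K` is the
identity on `Y`.  For a finite `s ⊆ M' ∩ K` let `g` in `Nx H` agree with `e` on `s ∪ Y`, `g' = g0⁻¹ ∘ g` (`g' a = a`), and `k` from GLK (4) for
`g'`: `k` fixes `B` (`B ∩ K = Y`) and agrees with `e1` on `s`.  So `e1` is as in `Sm B`.  `Q* = {v | ∃ h over B, h v ∈ P} ⊆ K` (GLK (3),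
`h a = a`).  Restrict `e1` to `Q*`; CJP, LF2 over `B` as in HRG. -/
def St_LRG : Prop :=
  ∀ (L : FirstOrder.Language.{0, 0}) (U : Type) [L.Structure U], Mon L U → NPf L U → FinN L U →
    ∀ (H E : Set U) (lt : U → U → Prop) (y : U), Lin L H E lt → y ∈ E → ∀ (A : Set U) (z : U), A.Finite →
    (∀ v ∈ Pq L A z, v ∈ E ∧ ¬ lt y v ∧ ¬ lt v y) → Rgd L A z

/-! ### Isolated tuples -/

/-- [FNT] finite multiplicity of tuples.
HYPS: none.
PROOF.  (1) By induction on `n` there is a finite set of tuples which meets all orbits of `Nx A` in the orbit of `t` under `Fx A`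
(`n = 0`: clear; `n + 1`: let `s_1, .., s_m` be such a set for the first `n` entries; for each `s_i` choose, if possible, `a_i` with
`(s_i, a_i)` in the orbit of `t`; `FinN` for `A ∪ range s_i` and `a_i`: `a_i1, .., a_ik`.  A tuple `(s, a)` in the orbit of `t` is conjugate
under `Nx A` to some `(s_i, a')` (`g` in `Nx A` with `g s = s_i`, `a' = g a`), `a' ∈ Orb (A ∪ range s_i) a_i`, so `a'` is conjugate under
`Nx (A ∪ range s_i)` to some `a_ij`.)
(2) For any two tuples of this finite set (add `t` to it) which are not conjugate under `Nx A` there is `F` with `FE A F`, not `F u u'`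
(`nx_of_sq`); the intersection (`fe_inf`) works (`nx_sq`, the relations `F` are equivalence relations). -/
def St_FNT : Prop :=
  ∀ (L : FirstOrder.Language.{0, 0}) (U : Type) [L.Structure U], Mon L U → FinN L U → ∀ (A : Set U)
    (n : ℕ) (t : Fin n → U), A.Finite → ∃ F, FE L A F ∧ ∀ s : Fin n → U,
    (∃ g : U ≃[L] U, Fx L A g ∧ ∀ i, g (t i) = s i) → F t s → ∃ g : U ≃[L] U, Nx L A g ∧ ∀ i, g (t i) = s i

/-- [IST] calculus of isolated tuples.
HYPS: FNT, PMT.
PROOF.  Let `N A t` be the set of the tuples `g ∘ t`, `g` in `Nx A`, `O A t` the same for `Fx A`.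
(1) (→) FNT: `N A t = {s ∈ O A t | F t s}` (`fe_def`; `F t (g t)` for `g` in `Nx A`, `nx_sq`).  (←) As in FNT (1) `O A t` is the union of
finitely many `h_i '' N A t`, `h_i` over `A` (`nx_conj_fx`; FNT: the classes of `F` are finitely many), so definable over a finite set
(`dp_img`), and invariant under `Fx A`: `dp_inv`.  (2) (1), `nx_meets'`.
(3) `M` from PMT over `B`, (2).
(4) (→): `O (A ∪ range s) t = {t' | (s, t') ∈ O A (s, t)}` (`dp_par`); projection (`dp_ex`).  (←): `O (A ∪ range s) t = {t' | P (s, t')}` with `Dp A P`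
(`dp_fam`), `O A (s, t) = {(s', t') | s' ∈ O A s ∧ P (s', t')}` (as (1) of PMD, `TPC/PMD.lean`).
(5) `N A t = N (A ∪ W) t` (OFQ (1)), and (1).  (6) (4), (5) for `W = range s` (the entries of `s` are outside `Q`).
(7) `g` maps `O A t` onto `O (g '' A) (g t)`: `dp_img`.
(8) `O A (t ∘ f) = {s | ∃ t' ∈ O A t, t' ∘ f = s}` (`dp_ex`).  (9) clear. -/
def St_IST : Prop :=
  ∀ (L : FirstOrder.Language.{0, 0}) (U : Type) [L.Structure U], Mon L U → FinN L U → ∀ A : Set U, A.Finite →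
    (∀ (n : ℕ) (t : Fin n → U), Ist L A t ↔ ∃ B : Set U, B.Finite ∧
      Dp L B (fun s : Fin n → U => ∃ g : U ≃[L] U, Nx L A g ∧ ∀ i, g (t i) = s i)) ∧
    (∀ (n : ℕ) (t : Fin n → U) (M : Set U), Ist L A t → Md L A M →
      ∃ g : U ≃[L] U, Nx L A g ∧ ∀ i, g (t i) ∈ M) ∧
    (∀ (n : ℕ) (t : Fin n → U) (B : Set U), Ist L A t → B.Finite → A ⊆ B →
      ∃ g : U ≃[L] U, Nx L A g ∧ Ist L B (fun i => g (t i))) ∧
    (∀ (m n : ℕ) (s : Fin m → U) (t : Fin n → U),
      Ist L A (Sum.elim s t) ↔ Ist L A s ∧ Ist L (A ∪ range s) t) ∧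
    (∀ (Q W : Set U) (n : ℕ) (t : Fin n → U), Bq L A Q → W.Finite → Disjoint W Q → (∀ i, t i ∈ Q) →
      (Ist L (A ∪ W) t ↔ Ist L A t)) ∧
    (∀ (Q : Set U) (m n : ℕ) (s : Fin m → U) (t : Fin n → U), Bq L A Q → (∀ i, t i ∈ Q) →
      (∀ i, s i ∉ Q) → Ist L A s → Ist L A t → Ist L A (Sum.elim s t)) ∧
    (∀ (n : ℕ) (t : Fin n → U) (g : U ≃[L] U), Ist L A t ↔ Ist L (g '' A) (fun i => g (t i))) ∧
    (∀ (m n : ℕ) (t : Fin n → U) (f : Fin m → Fin n), Ist L A t → Ist L A (fun j => t (f j))) ∧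
    ∀ t : Fin 0 → U, Ist L A t

/-- [PMT] the prime model over a finite set, for tuples.
HYPS: none.
PROOF.  The proof of PMD (`TPC/PMD.lean`) gives this: all finite tuples of `M` are subtuples of the atomic tuples `b`. -/
def St_PMT : Prop :=
  ∀ (L : FirstOrder.Language.{0, 0}) (U : Type) [L.Structure U], Mon L U → ∀ A : Set U, A.Finite →
    ∃ M, Md L A M ∧ ∀ (n : ℕ) (t : Fin n → U), (∀ i, t i ∈ M) → Ist L A t

/-- [RGI] a piece in which all tuples are isolated is rigid.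
HYPS: IST.
PROOF.  `P = Pq A z`, `M` with `Md A M`.  Back and forth (`MNO.St_BAG`) between `M ∩ P` and `P` with the finite maps given by some `g` in
`Nx A`.  Forth: `g a ∈ P`.  Back: `s` in `M ∩ P`, `g`, `b ∈ P`: `(s, g⁻¹ b)` is a tuple in `P`, isolated over `A`; IST (4): `g⁻¹ b` is isolated
over `A ∪ range s ⊆ M`; IST (2) over `A ∪ range s`: `k` in `Nx (A ∪ range s)` with `a = k (g⁻¹ b) ∈ M`; `g ∘ k⁻¹` is in `Nx A`, it agrees
with `g` on `s` and maps `a` to `b`. -/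
def St_RGI : Prop :=
  ∀ (L : FirstOrder.Language.{0, 0}) (U : Type) [L.Structure U], Mon L U → FinN L U →
    ∀ (A : Set U) (z : U), A.Finite →
    (∀ (n : ℕ) (t : Fin n → U), (∀ i, t i ∈ Pq L A z) → Ist L A t) → Rgd L A z

/-! ### No free unions inside clusters of free unions -/

/-- [SPI] the number `m` of `Cnt` is an invariant of similarity.
HYPS: none.
PROOF.  `e : X ≃ Y` as in `SmN H`, `v' = e '' v`, `w' = e ∘ w`; `g` in `Nx H` which agrees with `e` on `v` and on all entries of `w` (a finite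
set).  `g '' (H ∪ v) = H ∪ v'`, IMQ (2), and for `Ist`: `dp_img` (IST (7)). -/
def St_SPI : Prop :=
  ∀ (L : FirstOrder.Language.{0, 0}) (U : Type) [L.Structure U], Mon L U → ∀ (H X Y : Set U) (m : ℕ),
    SmN L H X Y → (∃ v ⊆ X, v.Finite ∧ Cnt L H v X m) → ∃ v ⊆ Y, v.Finite ∧ Cnt L H v Y m

/-- [PIS] a tuple whose parts in all pieces are isolated is isolated.
HYPS: IST.
PROOF.  Induction on the number of entries: if `n > 0` let `P` be the piece over `A` of the first entry, `t2` the entries in `P`, `t1` the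
others (fewer).  `t2` is isolated by hypothesis, `t1` by induction (the parts of `t1` in the pieces are parts of `t`).  IST (6) for `Q = P`
(ALQ (5)); reorder the entries (`dp_sub`). -/
def St_PIS : Prop :=
  ∀ (L : FirstOrder.Language.{0, 0}) (U : Type) [L.Structure U], Mon L U → FinN L U →
    ∀ (A : Set U), A.Finite → ∀ (n : ℕ) (t : Fin n → U),
    (∀ (m : ℕ) (f : Fin m → Fin n), (∀ j j', t (f j') ∈ Pq L A (t (f j))) → Ist L A (fun j => t (f j))) →
    Ist L A t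

/-- [NFA] lower bound for `Cnt`.
HYPS: KBQ, IST, PIS.
PROOF.  `K` = the cluster of `x` in `E`, `C(v) = {u | u ∈ E' ∧ cl' v u}`.  By `Fre.inf` (for `E'`, `z = t 0 = y`) choose one after another
`g_0, g_1, ..` in `Nx H'` such that the `y_i = g_i y` are in pairwise different clusters of `E'`; `t_i = g_i ∘ t`, in `C(y_i)` (`fxc`), not
isolated over `insert y_i H'` (IST (7), `g_i` fixes `H'`).  Let `M` and `m` be given; `v = (H' ∩ K) ∪ {y_i | i < m} ⊆ M ∩ K` (`y_i ∈ E' ⊆ K`).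
Let `B = H ∪ v`, `W = H' \ B` (disjoint from `K`), `B ∪ W = H' ∪ {y_i | i < m} =: B'`.  For `i < m`: `C(y_i)` is in `Bq (insert y_i H')` and misses
the other `y_j`: `t_i` is not isolated over `B'` (IST (5)); `K` is in `Bq B` (KBQ; `x ∈ B`) and misses `W`: `t_i` is not isolated over `B`
(IST (5)).  PIS: some part `w_i` of `t_i` inside one piece over `B` is not isolated over `B` (nonempty, as the empty tuple is isolated).
For a point `u` of `w_i`: `Pq B u ⊆ K` misses `W`, so `Pq B u = Pq B' u` (NNQ) `⊆ C(y_i)` (KBQ over `B'`).  So the pieces for different `i` are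
different (disjoint clusters).  `w_i` is a tuple of `M` if `t_i` is. -/
def St_NFA : Prop :=
  ∀ (L : FirstOrder.Language.{0, 0}) (U : Type) [L.Structure U], Mon L U → FinN L U →
    ∀ (H E : Set U) (cl : U → U → Prop) (x : U) (H' E' : Set U) (cl' : U → U → Prop),
    Fre L H E cl → x ∈ E → Fre L H' E' cl' → H ⊆ H' → x ∈ H' → (∀ v ∈ E', v ∈ E ∧ cl x v) →
    ∀ (n : ℕ) (t : Fin (n + 1) → U), (∀ i, t i ∈ E' ∧ cl' (t 0) (t i)) → ¬ Ist L (insert (t 0) H') t →
    ∃ g : ℕ → (U ≃[L] U), (∀ i, Nx L H' (g i)) ∧ ∀ (m : ℕ) (M : Set U), H' ⊆ M →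
      (∀ i < m, ∀ j, g i (t j) ∈ M) → ∃ v ⊆ Kl E cl M x, v.Finite ∧ Cnt L H v (Kl E cl M x) m

/-- [NFB] upper bound for `Cnt`.
HYPS: IST.
PROOF.  Otherwise (the `m` pieces are disjoint) some piece `S = Pq (H ∪ v) ((w i).2 j)` misses `u` (`w i` is not the empty tuple, which is
isolated).  `(w i, v)` is a tuple of `M` (enumerate `v`), isolated over `u`: IST (4): `w i` is isolated over `u ∪ v = (H ∪ v) ∪ u`; IST (5)
for `Q = S`, `W = u` over `H ∪ v`: `w i` is isolated over `H ∪ v`: contradiction. -/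
def St_NFB : Prop :=
  ∀ (L : FirstOrder.Language.{0, 0}) (U : Type) [L.Structure U], Mon L U → FinN L U →
    ∀ (H u M v X : Set U) (m : ℕ), u.Finite → H ⊆ u → u ⊆ M → X ⊆ M → v ⊆ X → v.Finite →
    (∀ (n : ℕ) (t : Fin n → U), (∀ i, t i ∈ M) → Ist L u t) → Cnt L H v X m → m ≤ u.ncard

/-- [NFF] no free unions inside clusters of free unions.
HYPS: NFA, NFB, SPI, PMT, IST.
PROOF.  It is enough to treat `t` with `t 0 = y` (a tuple is isolated if a longer one is, IST (4)), `Fin (n + 1)`.  Suppose `t` is not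
isolated over `insert y H'`; `g` from NFA.  `u k = H' ∪ {g i (t j) | i < k}`, `M k` from PMT over `u k`, `X k = Kl E cl (M k) x`.  NFA: `X k` has a
`v` with `Cnt .. k`; NFB: all `Cnt H v (X k) m` have `m ≤ (u k).ncard`.  Choose `k 0 < k 1 < ..` with `k (i + 1) > (u (k i)).ncard`: the
`X (k i)` are pairwise not similar (SPI).  `Lab univ (X (k i)) = ∅`: if `SmN H (X (k i)) (Kl E cl univ z)` then `e x = h x` with `h` in `Nx H`,
`Kl E cl univ z = h '' Kl E cl univ x`, so `SmN H (X (k i)) (Kl E cl univ x)` (restrict `h`), and `Kl E cl univ x` has `Cnt` for all `m`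
(NFA for `M = univ`): contradiction (SPI, NFB).  FIF for `M0 = univ`, `N i = M (k i)`, `p i = x`: contradiction. -/
def St_NFF : Prop :=
  ∀ (L : FirstOrder.Language.{0, 0}) (U : Type) [L.Structure U],
    Mon L U → NPf L U → FinN L U →
    ∀ (H E : Set U) (cl : U → U → Prop) (x : U) (H' E' : Set U) (cl' : U → U → Prop),
    Fre L H E cl → x ∈ E → Fre L H' E' cl' → H ⊆ H' → x ∈ H' → (∀ v ∈ E', v ∈ E ∧ cl x v) →
    ∀ y ∈ E', ∀ (n : ℕ) (t : Fin n → U), (∀ i, t i ∈ E' ∧ cl' y (t i)) → Ist L (insert y H') t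

/-- [NFR] pieces inside clusters of `E'` are rigid.
HYPS: NFF, KBQ, RGI, HRG.
PROOF.  `C = {v | v ∈ E' ∧ cl' b v}`, `Bq (insert b H') C` (KBQ for `Clu H' C b`), so `Pq (insert b H') z ⊆ C` (ALQ (6)), all tuples in it are
isolated over `insert b H'` (NFF): RGI; HRG. -/
def St_NFR : Prop :=
  ∀ (L : FirstOrder.Language.{0, 0}) (U : Type) [L.Structure U], Mon L U → NPf L U → FinN L U →
    ∀ (H E : Set U) (cl : U → U → Prop) (x : U) (H' E' : Set U) (cl' : U → U → Prop),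
    Fre L H E cl → x ∈ E → Fre L H' E' cl' → H ⊆ H' → x ∈ H' → (∀ v ∈ E', v ∈ E ∧ cl x v) →
    ∀ (B : Set U) (b z : U), B.Finite → H' ⊆ B → b ∈ B → b ∈ E' → z ∈ E' → cl' b z → Rgd L B z

/-! ### The notion `Big` -/

/-- [BGC] calculus of `Big`.
HYPS: RPL.
PROOF.  (1) clear (ALQ (8)).  (2) `Pq A' z ⊆ Pq A z` (ALQ (10)).  (3) `B`, `z'` from `Big A z`; `Pq B z' ⊆ Pq A z` misses `W`: `Pq (B ∪ W) z' = Pq B z'` and
`Cpt (B ∪ W) (Pq B z') → Cpt B (Pq B z')` (RPL (4)); `z' ∈ Pq (A ∪ W) z = Pq A z`.  (4) `g '' Pq A z = Pq (g '' A) (g z)` (IMQ (2)) and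
`Cpt (g '' A) (g '' Q) ↔ Cpt A Q`: images of models are models, `nx_conj`.  (5) `Rgd A z`: `c n = univ`. -/
def St_BGC : Prop :=
  ∀ (L : FirstOrder.Language.{0, 0}) (U : Type) [L.Structure U], Mon L U → NPf L U →
    ∀ (A : Set U) (z : U), A.Finite →
    (∀ z' ∈ Pq L A z, Big L A z → Big L A z') ∧
    (∀ A' : Set U, A'.Finite → A ⊆ A' → ∀ z' ∈ Pq L A z, Big L A' z' → Big L A z) ∧
    (∀ W : Set U, W.Finite → Disjoint W (Pq L A z) → Big L A z → Big L (A ∪ W) z) ∧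
    (∀ g : U ≃[L] U, Big L A z → Big L (g '' A) (g z)) ∧
    (Rgd L A z → Cpt L A (Pq L A z))

/-- [BG3] big pieces over isolated tuples.
HYPS: IST, BGC.
PROOF.  `B`, `z0` from `Big A z`: `A ⊆ B`, `z0 ∈ Pq A z`, not `Cpt B (Pq B z0)`; `R = Pq B z0 ⊆ Pq A z`.  Suppose no `z' ∈ Pq A z` satisfies
`Big (A ∪ range u) z'`.  IST (3): `k` in `Nx A` with `u' = k ∘ u` isolated over `B`.  For every `g` in `Nx B` and `u'' = g ∘ u'`,
`C = B ∪ range u''`, every `z' ∈ R` satisfies `Cpt C (Pq C z')`: `h = g ∘ k` is in `Nx A`, `h⁻¹ z' ∈ Pq A z`, so not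
`Big (A ∪ range u) (h⁻¹ z')`, so (BGC (4)) not `Big (A ∪ range u'') z'`, and `A ∪ range u'' ⊆ C`.  By CPT (3) over `C`, NRQ and `Bq C R` (ALQ
(5), OFQ (3)): `Cpt C R`: `c_u''`.  There are countably many tuples `u''`; by IST (2) over `B` every model `M` (`Md B`) contains one of
them, and it is `Md C`; SMQ (5): the family of all `c_u'' n` (models over `C ⊇ B`) shows `Cpt B R`: contradiction. -/
def St_BG3 : Prop :=
  ∀ (L : FirstOrder.Language.{0, 0}) (U : Type) [L.Structure U], Mon L U → NPf L U → FinN L U →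
    ∀ (A : Set U) (z : U) (n : ℕ) (u : Fin n → U), A.Finite → Big L A z → Ist L A u →
    ∃ z' ∈ Pq L A z, Big L (A ∪ range u) z'

/-- [ISO] few models: the types between two clusters are isolated.
HYPS: none.
PROOF.  `B = H ∪ {p, q}`, `M` from PMD over `B`.  LNI: `z' ∈ M ∩ E`, `lt p z'`, `lt z' q`, and a bijection `e` of `Iv E lt M z' z'` and
`Iv E lt univ z z` as in `SmN H`; `z1 = e⁻¹ z ∈ M`, `z1` is in the cluster of `z'`, so `lt p z1`, `lt z1 q` (`neg`), and `z = g z1` with `g` in `Nx H`.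
LOB (5) for `D = {p}`, `V = {q}`, `M := {z1}`: `h` over `B` with `h z1 = z`.  `Isd B z1`, so `Isd B z` (`Orb B z = Orb B z1`). -/
def St_ISO : Prop :=
  ∀ (L : FirstOrder.Language.{0, 0}) (U : Type) [L.Structure U], Mon L U → NPf L U →
    ∀ (H E : Set U) (lt : U → U → Prop), Lin L H E lt → ∀ p ∈ E, ∀ q ∈ E, ∀ z ∈ E, lt p z → lt z q →
    Isd L (H ∪ {p, q}) z

/-- [FNA] linear pieces and free unions of clusters have no new strong types.
HYPS: none.
PROOF.  This is (1), (2) of the proof of FNN (`TPC/FNN.lean`), for an arbitrary chain: (1) `Lin B E lt`: LNW for `M0 := M 0` (RCH (2)),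
`M := M 1`, `p := p 0`.  (2) `Fre B E cl`: FIF for `M0 := M 0`, `N k := M (k + 1)`, `p k`. -/
def St_FNA : Prop :=
  ∀ (L : FirstOrder.Language.{0, 0}) (U : Type) [L.Structure U], Mon L U → NPf L U →
    ∀ (B E : Set U), ((∃ lt, Lin L B E lt) ∨ ∃ cl, Fre L B E cl) → ∀ (M : ℕ → Set U) (p : ℕ → U),
    (∀ n, Sub L B (M n) ∧ M n ⊆ M (n + 1) ∧ p n ∈ M (n + 1) ∧ p n ∈ E) →
    ∃ n, ∃ z ∈ M n, ∃ g : U ≃[L] U, Nx L B g ∧ g z = p n

/-- [FNB] if some type has infinite multiplicity then a piece over `A` contains strong types over `A` which do not occur in a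
saturated submodel.
HYPS: none.
PROOF.  `FinN` fails for `A`, `x`.  FCP: finitely many pieces `Pq A z_1, .., Pq A z_r` meet `Orb A x`.  CHN for `B = A ∪ {z_1, .., z_r}`:
`M 0`, `y 0 ∈ M 1`, `y 0 ∈ Orb A x`, so `y 0 ∈ Pq A z_i` for some `i`; `M0 = M 0`. -/
def St_FNB : Prop :=
  ∀ (L : FirstOrder.Language.{0, 0}) (U : Type) [L.Structure U], Mon L U → NPf L U → ¬ FinN L U →
    ∃ (A M0 : Set U) (z y : U), A.Finite ∧ Sub L (insert z A) M0 ∧ y ∈ Pq L A z ∧
      ∀ v ∈ M0, ¬ ∃ g : U ≃[L] U, Nx L A g ∧ g v = y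

/-- [CTZ] the count, if no piece is big.
HYPS: none.
PROOF.  `Cpt ∅ (Pq ∅ z)` for all `z` (`B = ∅`); NRQ, CPT (3) for `A = ∅`, `Q = univ` (ALQ (1)): `Cpt ∅ univ`: `c`; `g n = c n`, SMQ (7). -/
def St_CTZ : Prop :=
  ∀ (L : FirstOrder.Language.{0, 0}) (U : Type) [L.Structure U], Mon L U → NPf L U → FinN L U →
    (∀ z, ¬ Big L (∅ : Set U) z) → CtU L U

end Pool.Agent.TPC
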