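import Pool.Agent.TPC.StE
import Pool.Agent.MNO.Kit2
import Mathlib.Order.Filter.Ultrafilter.Basic

/-!
TPC: module OMJ (helper91): an elementary map which omits an orbit of `Nx A`.
-/

set_option autoImplicit false
set_option linter.unusedVariables false

namespace Pool.Agent.TPC

open FirstOrder.Language Set Filter
open scoped FirstOrder
open Pool.Agent.WOM (tp Mon IsEl IsoM CtU Fx Orb Isd)
open Pool.Agent.PMC (Sm Md NPf mem_orb)
open Pool.Agent.MNO (Dp FE Sq Nx SmN FE1 FinN dp_sub dp_mono dp_not dp_fx dp_hom)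

section fe

variable {L : FirstOrder.Language.{0, 0}} {U : Type} [L.Structure U]

private theorem OMJ_eqv {C : Set U} {F : U → U → Prop} (h : FE1 L C F) :
    (∀ x, F x x) ∧ (∀ x y, F x y → F y x) ∧ ∀ x y z, F x y → F y z → F x z := by
  have h1 : Equivalence (fun a b : Fin 1 → U => F (a 0) (b 0)) := FE.eqv h
  exact ⟨fun x => h1.refl (fun _ => x), fun x y hxy => h1.symm (x := fun _ => x) (y := fun _ => y) hxy,
    fun x y z hxy hyz => h1.trans (x := fun _ => x) (y := fun _ => y) (z := fun _ => z) hxy hyz⟩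

private theorem OMJ_dp {C : Set U} {F : U → U → Prop} (h : FE1 L C F) {α : Type} (i j : α) :
    Dp L C (fun v : α → U => F (v i) (v j)) :=
  dp_sub (FE.dfn h) (Sum.elim (fun _ => i) (fun _ => j) : Fin 1 ⊕ Fin 1 → α)

end fe

/-- [OMJ] -/
theorem thm_OMJ (hLMT : St_LMT) (hEMB : St_EMB) (hSEQ : St_SEQ) (hFEQ : St_FEQ) : St_OMJ := by
  classical
  intro L U _ hM A B x hAB hB hnf
  have hA : A.Finite := hB.subset hAB
  obtain ⟨e1, e2, e3, e4, e5, e6, -⟩ := hFEQ L U hM A hA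
  obtain ⟨E, hS⟩ := hSEQ hFEQ L U hM A hA
  have hct : Countable U := hM.ctb
  have hne : Nonempty U := ⟨x⟩
  obtain ⟨u, hu⟩ := exists_surjective_nat U
  have hE : ∀ n, FE1 L A (E n) := hS.fe
  have hEdec : ∀ n m, n ≤ m → ∀ x y, E m x y → E n x y := by
    intro n m hnm
    induction m, hnm using Nat.le_induction with
    | base => exact fun x y h => h
    | succ m _ ih => exact fun x y h => ih x y (hS.dec m x y h)
  have hEconj : ∀ x y, (∀ n, E n x y) → ∃ g : U ≃[L] U, Nx L A g ∧ g x = y := hS.inf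
  -- pairs which are close but not conjugate
  have hpair : ∀ n, ∃ w ∈ Orb L A x, ∃ w' ∈ Orb L A x, E n w w' ∧
      ¬ ∃ g : U ≃[L] U, Nx L A g ∧ g w = w' := by
    intro n
    by_contra hcon
    apply hnf
    obtain ⟨s, hs, hs2⟩ := FE.fin (hE n)
    let r : (Fin 1 → U) → U := fun y =>
      if h : ∃ z ∈ Orb L A x, E n z (y 0) then h.choose else x
    refine ⟨r '' s, hs.image r, fun z hz => ?_⟩
    obtain ⟨y, hy, hzy⟩ := hs2 (fun _ => z)
    have h : ∃ z ∈ Orb L A x, E n z (y 0) := ⟨z, hz, hzy⟩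
    refine ⟨r y, mem_image_of_mem r hy, ?_⟩
    have hr : r y = h.choose := dif_pos h
    have hr1 : r y ∈ Orb L A x := by
      rw [hr]
      exact h.choose_spec.1
    have hr2 : E n (r y) (y 0) := by
      rw [hr]
      exact h.choose_spec.2
    obtain ⟨_, hsy, htr⟩ := OMJ_eqv (hE n)
    by_contra hcon2
    exact hcon ⟨r y, hr1, z, hz, htr _ _ _ hr2 (hsy _ _ hzy), hcon2⟩
  have hclaim : ∀ v ∈ Orb L A x, ∀ n, ∃ m, n < m ∧ ∃ v' ∈ Orb L A x, E n v v' ∧ ¬ E m v v' := by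
    rintro v ⟨g0, hg0, rfl⟩ n
    obtain ⟨w, ⟨g1, hg1, rfl⟩, w', ⟨g2, hg2, rfl⟩, hw, hw'⟩ := hpair n
    obtain ⟨m, hm⟩ : ∃ m, ¬ E m (g1 x) (g2 x) := by
      by_contra hcon
      exact hw' (hEconj _ _ fun n => by
        by_contra h
        exact hcon ⟨n, h⟩)
    have hnm : n < m := by
      by_contra h
      exact hm (hEdec m n (not_lt.mp h) _ _ hw)
    have hg : Fx L A (g0.comp g1.symm) := Pool.Agent.PMC.fx_comp hg0 (Pool.Agent.PMC.fx_symm hg1)
    have hgw : (g0.comp g1.symm) (g1 x) = g0 x := by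
      show g0 (g1.symm (g1 x)) = g0 x
      rw [g1.symm_apply_apply]
    refine ⟨m, hnm, (g0.comp g1.symm) (g2 x), ⟨(g0.comp g1.symm).comp g2,
      Pool.Agent.PMC.fx_comp hg hg2, rfl⟩, ?_, ?_⟩
    · rw [← hgw]
      exact (e6 _ (hE n) _ hg _ _).2 hw
    · rw [← hgw]
      exact fun h => hm ((e6 _ (hE m) _ hg _ _).1 h)
  -- the sequence
  have step : ∀ (k : ℕ) (q : {q : U × ℕ // q.1 ∈ Orb L A x}),
      ∃ q' : {q : U × ℕ // q.1 ∈ Orb L A x}, q.1.2 < q'.1.2 ∧ E q.1.2 q.1.1 q'.1.1 ∧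
        ¬ E q'.1.2 (u k) q'.1.1 := by
    rintro k ⟨⟨v, m⟩, hv⟩
    obtain ⟨m', hm', v', hv', h1, h2⟩ := hclaim v hv m
    by_cases h3 : E m' (u k) v
    · refine ⟨⟨(v', m'), hv'⟩, hm', h1, fun h4 => h2 ?_⟩
      obtain ⟨_, hsy, htr⟩ := OMJ_eqv (hE m')
      exact htr _ _ _ (hsy _ _ h3) h4
    · exact ⟨⟨(v, m'), hv⟩, hm', (OMJ_eqv (hE m)).1 v, h3⟩
  choose f hf1 hf2 hf3 using step
  let s : ℕ → {q : U × ℕ // q.1 ∈ Orb L A x} := fun k =>
    Nat.rec ⟨(x, 0), mem_orb A x⟩ (fun k q => f k q) k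
  have hs : ∀ k, s (k + 1) = f k (s k) := fun k => rfl
  let v : ℕ → U := fun k => (s k).1.1
  let mm : ℕ → ℕ := fun k => (s k).1.2
  have hv : ∀ k, v k ∈ Orb L A x := fun k => (s k).2
  have hmm : ∀ k, mm k < mm (k + 1) := fun k => hf1 k (s k)
  have hE1 : ∀ k, E (mm k) (v k) (v (k + 1)) := fun k => hf2 k (s k)
  have hE2 : ∀ k, ¬ E (mm (k + 1)) (u k) (v (k + 1)) := fun k => hf3 k (s k)
  have hmono : Monotone mm := monotone_nat_of_le_succ fun k => le_of_lt (hmm k)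
  have hE3 : ∀ l k, l ≤ k → E (mm l) (v k) (v l) := by
    intro l k hlk
    obtain ⟨hrf, hsy, htr⟩ := OMJ_eqv (hE (mm l))
    induction k, hlk using Nat.le_induction with
    | base => exact hrf _
    | succ k hk ih => exact htr _ _ _ (hsy _ _ (hEdec _ _ (hmono hk) _ _ (hE1 k))) ih
  -- the limit
  obtain ⟨w, hw⟩ := hLMT L U hM B (Option U) (fun k o => o.elim (v k) id) hB
  have hemb : Emb L B (fun z => w (some z)) := by
    intro n P hP a
    refine ⟨fun h => ?_, fun h => ?_⟩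
    · by_contra hcon
      exact hw n (fun v => ¬ P v) (dp_not hP) (fun i => some (a i))
        (Filter.Eventually.of_forall fun N => hcon) h
    · exact hw n P hP (fun i => some (a i)) (Filter.Eventually.of_forall fun N => h)
  refine ⟨fun z => w (some z), w none, hemb, ?_, ?_⟩
  · -- the orbit
    obtain ⟨g, hg, hgx⟩ := dp_hom hM hA (α := Fin 1) (a := fun _ => x) (b := fun _ => w none) (by
      intro P hP hPx
      refine hw 1 P (dp_mono hAB hP) (fun _ => none) (Filter.Eventually.of_forall fun k => ?_)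
      obtain ⟨g, hg, hgk⟩ := hv k
      have h1 := (dp_fx hP hg (fun _ => x)).2 hPx
      rw [hgk] at h1
      exact h1)
    exact ⟨g, hg, hgx 0⟩
  · -- omission
    rintro z ⟨g, hg, hgy⟩
    obtain ⟨l, rfl⟩ := hu z
    obtain ⟨_, hsy, htr⟩ := OMJ_eqv (hE (mm (l + 1)))
    have h1 : E (mm (l + 1)) (w none) (w (some (v (l + 1)))) := by
      have h0 := hw 2 (fun q => E (mm (l + 1)) (q 0) (q 1))
        (dp_mono hAB (OMJ_dp (hE (mm (l + 1))) 0 1)) ![none, some (v (l + 1))]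
      refine h0 ?_
      have h2 : ∀ᶠ k in (Filter.hyperfilter ℕ : Filter ℕ), l + 1 ≤ k :=
        (Filter.eventually_ge_atTop (l + 1)).filter_mono Nat.hyperfilter_le_atTop
      filter_upwards [h2] with k hk
      exact hE3 _ _ hk
    have h3 : E (mm (l + 1)) (w none) (g (w none)) := e3 _ (hE _) g hg _
    rw [hgy] at h3
    have h4 : E (mm (l + 1)) (w (some (u l))) (w (some (v (l + 1)))) :=
      htr _ _ _ (hsy _ _ h3) h1
    have h5 := (hemb 2 (fun q => E (mm (l + 1)) (q 0) (q 1))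
      (dp_mono hAB (OMJ_dp (hE (mm (l + 1))) 0 1)) ![u l, v (l + 1)]).1 h4
    exact hE2 l h5

end Pool.Agent.TPC
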