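import Pool.Agent.TPC.ALLC
import Pool.Agent.TPC.OMJ

/-!
TPC: the counting theorem without hypotheses (helper47).
-/

set_option autoImplicit false

namespace Pool.Agent.TPC

open FirstOrder.Language Set
open scoped FirstOrder

theorem all_OMJ : St_OMJ := thm_OMJ thm_LMT thm_EMB thm_SEQ thm_FEQ

/-- the counting theorem -/
theorem all_CTG : St_CTG := thm_CTG' all_OMJ

end Pool.Agent.TPC
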