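import Pool.Agent.MNO.NBase
import Pool.Agent.MNO.StD

/-!
TPC: the counting part of T6' and T6 (helper47).  Definitions.

`U` is the countable saturated model (`Mon L U`), `Nx L A g`: `g` preserves the strong types over `A` of all
finite tuples (`MNO`).  The structure theory (directory TPX, helper58 and others) shows that `U` satisfies `Hyp`;
this part shows that then `U` has countably many elementary submodels up to isomorphism or perfectly many.
Nothing about NIP is used here.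

`Bq L A Q`: `Q` is a union of pieces over `A`.  `Pq L A x`: the piece of `x` over `A`.
`Lin L A E lt`: `E` is a linear piece; `lt x y` says that the cluster of `x` is strictly before the cluster of
`y`; the clusters are the classes of `neither lt x y nor lt y x`.
`Fre L A E cl`: `E` is a free union of clusters (the classes of `cl`).
-/

set_option autoImplicit false
set_option linter.unusedVariables false

namespace Pool.Agent.TPC

open FirstOrder.Language Set
open scoped FirstOrder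
open Pool.Agent.WOM (tp Mon IsEl IsoM CtU Fx Orb Isd)
open Pool.Agent.PMC (Sm Md NPf)
open Pool.Agent.MNO (Dp FE Sq Nx SmN FE1 FinN)

section defs

variable (L : FirstOrder.Language.{0, 0}) {U : Type} [L.Structure U]

/-- `Q` is a union of pieces over `A`: every automorphism in `Nx A` may be glued on `Q` with the identity
outside of `Q` -/
structure Bq (A Q : Set U) : Prop where
  inv : ∀ g : U ≃[L] U, Nx L A g → ∀ x, g x ∈ Q ↔ x ∈ Q
  glu : ∀ g : U ≃[L] U, Nx L A g → ∃ h : U ≃[L] U, Nx L A h ∧ (∀ x ∈ Q, h x = g x) ∧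
    ∀ x, x ∉ Q → h x = x

/-- the piece of `x` over `A` -/
def Pq (A : Set U) (x : U) : Set U := {y | ∀ Q, Bq L A Q → (x ∈ Q ↔ y ∈ Q)}

/-- `M` is an elementary submodel which contains `B` and realises all types over finite subsets of `M` -/
def Sub (B M : Set U) : Prop :=
  Md L B M ∧ ∀ C : Set U, C.Finite → C ⊆ M → ∀ x : U, ∃ y ∈ M, y ∈ Orb L C x

/-- a decreasing sequence of `A`-definable finite equivalence relations on elements whose intersection is
conjugacy under `Nx A` -/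
structure Seq (A : Set U) (E : ℕ → U → U → Prop) : Prop where
  fe : ∀ n, FE1 L A (E n)
  dec : ∀ n u v, E (n + 1) u v → E n u v
  inf : ∀ u v, (∀ n, E n u v) → ∃ g : U ≃[L] U, Nx L A g ∧ g u = v

/-- only finitely many pieces over `A` meet an orbit over `A` -/
def Fcp (A : Set U) : Prop :=
  ∀ x : U, {P : Set U | ∃ y ∈ Orb L A x, P = Pq L A y}.Finite

/-- all points of `D` are before all points of `V` -/
def LT (lt : U → U → Prop) (D V : Set U) : Prop := ∀ d ∈ D, ∀ v ∈ V, lt d v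

/-- Linear pieces.  `bq`: union of pieces over `A`; `fxE`, `fxl`: `E` and the order are invariant under ALL
automorphisms over `A`; `irr`, `tra`, `neg`: strict weak order; `ort`: orthogonality of the parts before and
after a cut; `gap`: every orbit of `Nx A` in `E` is dense, cofinal and coinitial; `clo`: if the position of
`x` with respect to `B` is strict then a `B`-definable set `P` which contains `x` contains all points of the
same type over `A` in the same position which are close to `x`. -/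
structure Lin (A E : Set U) (lt : U → U → Prop) : Prop where
  fin : A.Finite
  ne : E.Nonempty
  bq : Bq L A E
  fxE : ∀ g : U ≃[L] U, Fx L A g → ∀ x, g x ∈ E ↔ x ∈ E
  fxl : ∀ g : U ≃[L] U, Fx L A g → ∀ x ∈ E, ∀ y ∈ E, (lt (g x) (g y) ↔ lt x y)
  irr : ∀ x ∈ E, ¬ lt x x
  tra : ∀ x ∈ E, ∀ y ∈ E, ∀ z ∈ E, lt x y → lt y z → lt x z
  neg : ∀ x ∈ E, ∀ y ∈ E, ∀ z ∈ E, lt x z → lt x y ∨ lt y z
  ort : ∀ S W : Set U, S.Finite → W.Finite → S ⊆ E → W ⊆ E → LT lt S W →
    ∀ g g' : U ≃[L] U, Nx L A g → Nx L A g' → LT lt (g '' S) (g' '' W) →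
    ∃ h : U ≃[L] U, Nx L A h ∧ (∀ x ∈ S, h x = g x) ∧ ∀ x ∈ W, h x = g' x
  gap : ∀ D V : Set U, D.Finite → V.Finite → D ⊆ E → V ⊆ E → LT lt D V → ∀ z ∈ E,
    ∃ g : U ≃[L] U, Nx L A g ∧ LT lt D {g z} ∧ LT lt {g z} V
  clo : ∀ B : Set U, B.Finite → A ⊆ B → ∀ x ∈ E, (∀ b ∈ B, b ∈ E → lt b x ∨ lt x b) →
    ∀ P : Set U, B.Definable₁ L P → x ∈ P → ∃ F : U → U → Prop, FE1 L A F ∧
      ∀ y ∈ Orb L A x, F x y →
        (∀ b ∈ B, b ∈ E → (lt b x → lt b y) ∧ (lt x b → lt y b)) → y ∈ P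

/-- the points of `X` in `E` which are neither before `p` nor after `q` -/
def Iv (E : Set U) (lt : U → U → Prop) (X : Set U) (p q : U) : Set U :=
  {z | z ∈ X ∧ z ∈ E ∧ ¬ lt z p ∧ ¬ lt q z}

/-- Free unions of clusters.  `fxE`, `fxc`: `E` and `cl` are invariant under ALL automorphisms over `A`;
`ort`: tuples in different clusters are orthogonal; `inf`: every orbit of `Nx A` in `E` meets infinitely
many clusters. -/
structure Fre (A E : Set U) (cl : U → U → Prop) : Prop where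
  fin : A.Finite
  bq : Bq L A E
  fxE : ∀ g : U ≃[L] U, Fx L A g → ∀ x, g x ∈ E ↔ x ∈ E
  fxc : ∀ g : U ≃[L] U, Fx L A g → ∀ x ∈ E, ∀ y ∈ E, (cl (g x) (g y) ↔ cl x y)
  rfl : ∀ x ∈ E, cl x x
  sym : ∀ x ∈ E, ∀ y ∈ E, cl x y → cl y x
  tra : ∀ x ∈ E, ∀ y ∈ E, ∀ z ∈ E, cl x y → cl y z → cl x z
  ort : ∀ S W : Set U, S.Finite → W.Finite → S ⊆ E → W ⊆ E →
    (∀ s ∈ S, ∀ w ∈ W, ¬ cl s w) → ∀ g g' : U ≃[L] U, Nx L A g → Nx L A g' →
    (∀ s ∈ S, ∀ w ∈ W, ¬ cl (g s) (g' w)) →
    ∃ h : U ≃[L] U, Nx L A h ∧ (∀ x ∈ S, h x = g x) ∧ ∀ x ∈ W, h x = g' x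
  inf : ∀ z ∈ E, ∀ D : Set U, D.Finite → D ⊆ E →
    ∃ g : U ≃[L] U, Nx L A g ∧ ∀ d ∈ D, ¬ cl d (g z)

/-- the points of `X` in the cluster of `p` -/
def Kl (E : Set U) (cl : U → U → Prop) (X : Set U) (p : U) : Set U :=
  {z | z ∈ X ∧ z ∈ E ∧ cl p z}

/-- `Q = Pq (insert y A) z` is, up to an automorphism `g` in `Nx A`, inside the cluster of `g y` in a linear
piece over `B ⊇ A`, and misses `B` -/
def Inr (A : Set U) (y z : U) : Prop :=
  ∃ (B : Set U) (g : U ≃[L] U) (E : Set U) (lt : U → U → Prop), B.Finite ∧ A ⊆ B ∧ Nx L A g ∧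
    Lin L B E lt ∧ g y ∈ E ∧ Disjoint (g '' Pq L (insert y A) z) B ∧
    ∀ v ∈ Pq L (insert y A) z, g v ∈ E ∧ ¬ lt (g y) (g v) ∧ ¬ lt (g v) (g y)

/-- pieces which can be classified in `n` steps -/
def Nice : ℕ → Set U → U → Prop
  | 0, A, x => Pq L A x = {x} ∨ (∃ lt, Lin L A (Pq L A x) lt) ∨
      ∃ E cl, Fre L A E cl ∧ Pq L A x ⊆ E
  | n + 1, A, x => Nice n A x ∨
      ∀ y ∈ Pq L A x, ∀ z ∈ Pq L A x, Inr L A y z ∨ Nice n (insert y A) z

variable (U) in
/-- the interface of the structure theory -/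
structure Hyp : Prop where
  rea : ∀ (A : Set U) (x : U), A.Finite → (∃ s : Set U, s.Finite ∧ Pq L A x ⊆ s) ∨
    ∃ (B E : Set U), B.Finite ∧ A ⊆ B ∧ ((∃ lt, Lin L B E lt) ∨ ∃ cl, Fre L B E cl) ∧
      ∀ y ∈ Pq L A x, ∃ g : U ≃[L] U, Nx L A g ∧ g y ∈ E
  nic : ∀ (A : Set U) (x : U), A.Finite → ∃ n, Nice L n A x

end defs

end Pool.Agent.TPC
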