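import Pool.Agent.TPC.StE
import Pool.Agent.MNO.NBA

/-!
TPC, module CHN (helper92): an increasing chain of saturated submodels with new orbits of `Nx A`.
-/

set_option autoImplicit false
set_option linter.unusedVariables false
set_option linter.unusedSectionVars false

namespace Pool.Agent.TPC

open FirstOrder.Language Set
open scoped FirstOrder
open Pool.Agent.WOM (tp Mon IsEl IsoM CtU Fx Orb Isd)
open Pool.Agent.PMC (Sm Md NPf)
open Pool.Agent.MNO

variable {L : FirstOrder.Language.{0, 0}} {U : Type} [L.Structure U]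

/-- iterates of elementary maps are elementary -/
private theorem CHN_iter {B : Set U} {j : U → U} (hj : Emb L B j) (k : ℕ) : Emb L B (j^[k]) := by
  induction k with
  | zero =>
    intro n P _ a
    exact Iff.rfl
  | succ k ih =>
    intro n P hP a
    have h1 : (fun i => (j^[k + 1]) (a i)) = fun i => (j^[k]) (j (a i)) := by
      funext i
      exact Function.iterate_succ_apply j k (a i)
    rw [h1, ih n P hP (fun i => j (a i))]
    exact hj n P hP a

/-- the limit maps are elementary -/
private theorem CHN_lim {B : Set U} {j : U → U} (hj : Emb L B j) {w : ℕ × U → U}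
    (hw : ∀ (n : ℕ) (P : (Fin n → U) → Prop), Dp L B P → ∀ i : Fin n → ℕ × U,
      (∀ᶠ N in (Filter.hyperfilter ℕ : Filter ℕ), P (fun m => (j^[N - (i m).1]) (i m).2)) →
        P (fun m => w (i m))) (n : ℕ) : Emb L B (fun u => w (n, u)) := by
  intro m P hP a
  constructor
  · intro h
    by_contra hc
    have h1 := hw m (fun v => ¬ P v) (dp_not hP) (fun i => (n, a i))
      (Filter.Eventually.of_forall (fun N hN => hc ((CHN_iter hj (N - n) m P hP a).1 hN)))
    exact h1 h
  · intro h
    exact hw m P hP (fun i => (n, a i))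
      (Filter.Eventually.of_forall (fun N => (CHN_iter hj (N - n) m P hP a).2 h))

/-- the limit maps commute with `j` -/
private theorem CHN_step {B : Set U} {j : U → U} {w : ℕ × U → U}
    (hw : ∀ (n : ℕ) (P : (Fin n → U) → Prop), Dp L B P → ∀ i : Fin n → ℕ × U,
      (∀ᶠ N in (Filter.hyperfilter ℕ : Filter ℕ), P (fun m => (j^[N - (i m).1]) (i m).2)) →
        P (fun m => w (i m))) (n : ℕ) (u : U) : w (n + 1, j u) = w (n, u) := by
  have h1 := hw 2 (fun v => v 0 = v 1) (dp_eq 0 1)
    (fun i => if i = 0 then (n + 1, j u) else (n, u)) (by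
      have h2 : ∀ᶠ N in (Filter.atTop : Filter ℕ), n + 1 ≤ N := Filter.eventually_ge_atTop (n + 1)
      have h3 : ∀ᶠ N in (Filter.hyperfilter ℕ : Filter ℕ), n + 1 ≤ N :=
        Nat.hyperfilter_le_atTop h2
      refine h3.mono (fun N hN => ?_)
      have h4 : N - n = (N - (n + 1)) + 1 := by omega
      have h5 : (j^[N - n]) u = (j^[N - (n + 1)]) (j u) := by
        rw [h4]
        exact Function.iterate_succ_apply j _ u
      simpa using h5.symm)
  simpa using h1

/-- members of the orbit of `x` over `A` after an elementary map over `B` -/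
private theorem CHN_orb (hM : Mon L U) {A B : Set U} {x x' : U} (hAB : A ⊆ B) (hB : B.Finite)
    {j : U → U} (hj : Emb L B j) (hx' : x' ∈ Orb L A x) : j x' ∈ Orb L A x := by
  obtain ⟨g, hg, hgx⟩ := hx'
  have hA : A.Finite := hB.subset hAB
  refine Pool.Agent.PMC.conj_of_def hM hA (fun s hs hxs => ?_)
  have h1 : x' ∈ s := by
    rw [← hgx]
    exact (Pool.Agent.PMC.def_mem hs hg x).2 hxs
  have h2 : Dp L A (fun v : Fin 1 → U => v 0 ∈ s) := dp_of_def1 hs
  exact (hj 1 (fun v => v 0 ∈ s) (dp_mono hAB h2) (fun _ => x')).2 h1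

theorem thm_CHN (hOMJ : St_OMJ) (hLMT : St_LMT) (hEMB : St_EMB) (hFEQ : St_FEQ) : St_CHN := by
  intro L U _ hM A B x hAB hB hx
  have hU : Countable U := hM.ctb
  have hA : A.Finite := hB.subset hAB
  obtain ⟨j, x', hj, hx', hom⟩ := hOMJ L U hM A B x hAB hB hx
  obtain ⟨w, hw⟩ := hLMT L U hM B (ℕ × U) (fun N p => (j^[N - p.1]) p.2) hB
  have hE : ∀ n, Emb L B (fun u => w (n, u)) := fun n => CHN_lim hj hw n
  have hS : ∀ n u, w (n + 1, j u) = w (n, u) := fun n u => CHN_step hw n u
  refine ⟨fun n => range (fun u => w (n, u)), fun n => w (n + 1, x'), fun n => ⟨?_, ?_, ?_, ?_, ?_⟩⟩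
  · exact (hEMB L U hM B _ hB (hE n)).2.1
  · rintro _ ⟨u, rfl⟩
    exact ⟨j u, hS n u⟩
  · exact ⟨x', rfl⟩
  · exact CHN_orb hM hAB hB (hE (n + 1)) hx'
  · rintro _ ⟨u, rfl⟩ ⟨g, hg, hgz⟩
    obtain ⟨_, _, h3, h4, _⟩ := hFEQ L U hM A hA
    have h5 : ∀ F : U → U → Prop, FE1 L A F → F x' (j u) := by
      intro F hF
      have h6 : F (w (n, u)) (w (n + 1, x')) := by
        have h7 := h3 F hF g hg (w (n, u))
        have h9 : g (w (n, u)) = w (n + 1, x') := hgz
        rw [h9] at h7
        exact h7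
      rw [← hS n u] at h6
      have h8 := ((hEMB L U hM B _ hB (hE (n + 1))).2.2 A hAB F hF (j u) x').1 h6
      exact hF.eqv.symm (x := fun _ : Fin 1 => j u) (y := fun _ : Fin 1 => x') h8
    obtain ⟨g', hg', hgx'⟩ := h4 x' (j u) h5
    exact hom u ⟨g', hg', hgx'⟩

end Pool.Agent.TPC

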