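import Pool.Agent.TPC.StA

/-!
TPC, [IMQ]: images of unions of pieces under automorphisms (helper4).
-/

set_option autoImplicit false
set_option linter.unusedVariables false

namespace Pool.Agent.TPC

open FirstOrder.Language Set
open scoped FirstOrder
open Pool.Agent.WOM (tp Mon IsEl IsoM CtU Fx Orb Isd)
open Pool.Agent.PMC (Sm Md NPf comp_apply' img_symm_img img_img_symm mem_img_iff
  mem_symm_img_iff fx_img)
open Pool.Agent.MNO (Dp FE Sq Nx SmN FE1 FinN nx_conj)

section

variable {L : FirstOrder.Language.{0, 0}} {U : Type} [L.Structure U]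

theorem IMQ_bq (hM : Mon L U) {A Q : Set U} (g : U ≃[L] U) (hQ : Bq L A Q) :
    Bq L (g '' A) (g '' Q) := by
  have hconj : ∀ g' : U ≃[L] U, Nx L (g '' A) g' → Nx L A (g.symm.comp (g'.comp g)) := by
    intro g' hg'
    have h1 := nx_conj hM g.symm hg'
    rw [img_symm_img] at h1
    exact h1
  have hmem : ∀ x, x ∈ g '' Q ↔ g.symm x ∈ Q := by
    intro x
    have h1 := mem_img_iff g Q (g.symm x)
    rw [g.apply_symm_apply] at h1
    exact h1
  refine ⟨fun g' hg' x => ?_, fun g' hg' => ?_⟩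
  · rw [hmem, hmem]
    have h1 := hQ.inv _ (hconj g' hg') (g.symm x)
    rw [comp_apply', comp_apply', g.apply_symm_apply] at h1
    exact h1
  · obtain ⟨h, hN, hin, hout⟩ := hQ.glu _ (hconj g' hg')
    refine ⟨g.comp (h.comp g.symm), nx_conj hM g hN, fun x hx => ?_, fun x hx => ?_⟩
    · rw [comp_apply', comp_apply', hin _ ((hmem x).1 hx), comp_apply', comp_apply',
        g.apply_symm_apply, g.apply_symm_apply]
    · rw [comp_apply', comp_apply', hout _ (fun h' => hx ((hmem x).2 h')), g.apply_symm_apply]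

theorem IMQ_sub (hM : Mon L U) (A : Set U) (g : U ≃[L] U) (x : U) :
    g '' Pq L A x ⊆ Pq L (g '' A) (g x) := by
  rintro _ ⟨y, hy, rfl⟩ Q hQ
  have h1 := IMQ_bq hM g.symm hQ
  rw [img_symm_img] at h1
  have h2 := hy _ h1
  rw [mem_symm_img_iff, mem_symm_img_iff] at h2
  exact h2

theorem IMQ_pq (hM : Mon L U) (A : Set U) (g : U ≃[L] U) (x : U) :
    g '' Pq L A x = Pq L (g '' A) (g x) := by
  refine Subset.antisymm (IMQ_sub hM A g x) fun y hy => ?_
  have h1 := IMQ_sub hM (g '' A) g.symm (g x) (mem_image_of_mem _ hy)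
  rw [img_symm_img, g.symm_apply_apply] at h1
  exact ⟨g.symm y, h1, g.apply_symm_apply y⟩

end

/-- [IMQ] -/
theorem thm_IMQ : St_IMQ := by
  intro L U _ hM A hA
  refine ⟨fun g Q hQ => IMQ_bq hM g hQ, fun g x => IMQ_pq hM A g x, fun g hg x => ?_⟩
  have h1 := IMQ_pq hM A g x
  rw [fx_img A hg] at h1
  exact h1

end Pool.Agent.TPC
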