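import Pool.Agent.TPC.StE
import Pool.Agent.TPC.IMQ

/-!
TPC, [CJP]: bijections which respect conjugate pieces (helper77).
-/

set_option autoImplicit false
set_option linter.unusedVariables false

namespace Pool.Agent.TPC

open FirstOrder.Language Set
open scoped FirstOrder
open Pool.Agent.WOM (tp Mon IsEl IsoM CtU Fx Orb Isd)
open Pool.Agent.PMC (Sm Md NPf comp_apply')
open Pool.Agent.MNO (Dp FE Sq Nx SmN FE1 FinN)

section

variable {L : FirstOrder.Language.{0, 0}} {U : Type} [L.Structure U]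

/-- every point is in its piece -/
private theorem CJP_self (A : Set U) (x : U) : x ∈ Pq L A x := fun _ _ => Iff.rfl

/-- pieces are the classes of an equivalence relation -/
private theorem CJP_eq {A : Set U} {x y : U} (h : y ∈ Pq L A x) : Pq L A y = Pq L A x :=
  Set.ext fun _ => ⟨fun hw Q hQ => (h Q hQ).trans (hw Q hQ),
    fun hw Q hQ => (h Q hQ).symm.trans (hw Q hQ)⟩

/-- automorphisms over `A` respect pieces -/
private theorem CJP_img (hM : Mon L U) {A : Set U} (hA : A.Finite) {g : U ≃[L] U}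
    (hg : Fx L A g) (x y : U) : g y ∈ Pq L A (g x) ↔ y ∈ Pq L A x := by
  rw [← (thm_IMQ L U hM A hA).2.2 g hg x]
  constructor
  · rintro ⟨w, hw, h⟩
    rwa [← g.injective h]
  · exact fun h => ⟨y, h, rfl⟩

/-- the inverse of an automorphism over `A` -/
private theorem CJP_symm {A : Set U} {g : U ≃[L] U} (hg : Fx L A g) : Fx L A g.symm :=
  fun a ha => by
    have h := hg a ha
    exact (congrArg g.symm h).symm.trans (g.symm_apply_apply a)

end

/-- **CJP** -/
theorem thm_CJP : St_CJP := by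
  intro L U _ hM A Y z hA hF hY hS
  set Q : Set U := Pq L A z with hQ
  set Qs : Set U := {v | ∃ g : U ≃[L] U, Fx L A g ∧ g v ∈ Q} with hQs
  obtain ⟨e, he⟩ := hS
  have hid : Fx L A (FirstOrder.Language.Equiv.refl L U) := fun a _ => rfl
  have hsub : ∀ v, v ∈ Q → v ∈ Qs := fun v hv => ⟨FirstOrder.Language.Equiv.refl L U, hid, hv⟩
  -- the set of pieces
  have hfin : {P : Set U | ∃ v ∈ Qs, P = Pq L A v}.Finite := by
    refine (hF z).subset ?_
    rintro _ ⟨v, ⟨g, hg, hgv⟩, rfl⟩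
    refine ⟨g.symm z, ⟨g.symm, CJP_symm hg, rfl⟩, ?_⟩
    refine (CJP_eq ?_).symm
    rw [← CJP_img hM hA hg, g.apply_symm_apply, CJP_eq hgv]
    exact CJP_self A z
  -- pieces are saturated
  have hsat : ∀ v ∈ Qs, ∀ w ∈ Pq L A v, w ∈ Qs := by
    rintro v ⟨g, hg, hgv⟩ w hw
    refine ⟨g, hg, ?_⟩
    rw [← CJP_img hM hA hg, CJP_eq hgv] at hw
    exact hw
  -- the bijection respects pieces
  have hres : ∀ u v : (Y ∩ Qs : Set U), (v : U) ∈ Pq L A u ↔ (e v : U) ∈ Pq L A (e u) := by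
    intro u v
    obtain ⟨g, hg, hgs⟩ := he {u, v} ((Set.finite_singleton v).insert u)
    rw [← hgs u (by simp), ← hgs v (by simp), CJP_img hM hA hg]
  -- `Y` meets `Q`
  have hne : ∃ u0 : (Y ∩ Qs : Set U), (u0 : U) ∈ Q := by
    by_contra hcon
    push Not at hcon
    have : Finite {P : Set U | ∃ v ∈ Qs, P = Pq L A v} := hfin
    let w : {P : Set U | ∃ v ∈ Qs, P = Pq L A v} → Qs := fun P =>
      ⟨P.2.choose, P.2.choose_spec.1⟩
    have hw : ∀ P, P.1 = Pq L A (w P) := fun P => P.2.choose_spec.2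
    let f : {P : Set U | ∃ v ∈ Qs, P = Pq L A v} → {P : Set U | ∃ v ∈ Qs, P = Pq L A v} :=
      fun P => ⟨Pq L A (e.symm (w P)), (e.symm (w P) : U), (e.symm (w P)).2.2, rfl⟩
    have hinj : Function.Injective f := by
      intro P P' h
      have h1 : Pq L A (e.symm (w P) : U) = Pq L A (e.symm (w P') : U) := congrArg Subtype.val h
      have h2 : (e.symm (w P') : U) ∈ Pq L A (e.symm (w P) : U) := by
        rw [h1]
        exact CJP_self A _
      have h3 := (hres _ _).1 h2
      rw [e.apply_symm_apply, e.apply_symm_apply] at h3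
      apply Subtype.ext
      rw [hw P, hw P', CJP_eq h3]
    obtain ⟨P, hP⟩ := (Finite.injective_iff_surjective.1 hinj) ⟨Q, z, hsub z (CJP_self A z), rfl⟩
    have h1 : Pq L A (e.symm (w P) : U) = Q := congrArg Subtype.val hP
    refine hcon (e.symm (w P)) ?_
    rw [← h1]
    exact CJP_self A _
  obtain ⟨u0, hu0⟩ := hne
  obtain ⟨k, hk, hkq⟩ := (e u0).2
  have hu0' : Pq L A (u0 : U) = Q := CJP_eq hu0
  have hkq' : Pq L A (k (e u0)) = Q := CJP_eq hkq
  have hin : ∀ v : (Y ∩ Qs : Set U), k (e v) ∈ Q ↔ (v : U) ∈ Q := by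
    intro v
    have h1 : k (e v) ∈ Pq L A (k (e u0)) ↔ (v : U) ∈ Pq L A (u0 : U) := by
      rw [CJP_img hM hA hk, ← hres]
    rwa [hkq', hu0'] at h1
  let f : (Y ∩ Q : Set U) → Q := fun v =>
    ⟨k (e ⟨v.1, v.2.1, hsub _ v.2.2⟩), (hin ⟨v.1, v.2.1, hsub _ v.2.2⟩).2 v.2.2⟩
  have hf : Function.Bijective f := by
    constructor
    · intro v v' h
      have h1 := k.injective (congrArg Subtype.val h)
      have h2 := congrArg Subtype.val (e.injective (Subtype.ext h1))
      exact Subtype.ext h2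
    · intro q
      have h1 : k.symm (q : U) ∈ Qs := by
        refine ⟨k, hk, ?_⟩
        rw [k.apply_symm_apply]
        exact q.2
      have h2 : k (e (e.symm ⟨k.symm (q : U), h1⟩)) = q := by
        rw [e.apply_symm_apply]
        exact k.apply_symm_apply q.1
      have h3 : (e.symm ⟨k.symm (q : U), h1⟩ : U) ∈ Q := by
        rw [← hin, h2]
        exact q.2
      refine ⟨⟨e.symm ⟨k.symm (q : U), h1⟩, (e.symm ⟨k.symm (q : U), h1⟩).2.1, h3⟩, ?_⟩
      exact Subtype.ext h2
  refine ⟨Equiv.ofBijective f hf, fun s hs => ?_⟩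
  obtain ⟨g, hg, hgs⟩ := he ((fun v : (Y ∩ Q : Set U) =>
    (⟨v.1, v.2.1, hsub _ v.2.2⟩ : (Y ∩ Qs : Set U))) '' s) (hs.image _)
  refine ⟨k.comp g, fun a ha => ?_, fun x hx => ?_⟩
  · rw [comp_apply', hg a ha, hk a ha]
  · rw [comp_apply', hgs _ (Set.mem_image_of_mem _ hx)]
    rfl

end Pool.Agent.TPC
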