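import Pool.Agent.TPC.StA

/-!
TPC [ALQ]: the complete Boolean algebra of the unions of pieces.
-/

set_option autoImplicit false
set_option linter.unusedVariables false

namespace Pool.Agent.TPC

open FirstOrder.Language Set
open scoped FirstOrder
open Pool.Agent.WOM (tp Mon IsEl IsoM CtU Fx Orb Isd)
open Pool.Agent.PMC (Sm Md NPf)
open Pool.Agent.MNO (Dp FE Sq Nx SmN FE1 FinN)

section

variable {L : FirstOrder.Language.{0, 0}} {U : Type} [L.Structure U] {A : Set U}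

private theorem bq_empty : Bq L A (∅ : Set U) :=
  ⟨fun g _ x => Iff.rfl, fun g _ => ⟨FirstOrder.Language.Equiv.refl L U,
    Pool.Agent.MNO.nx_refl A, fun x hx => hx.elim, fun x _ => rfl⟩⟩

private theorem bq_univ : Bq L A (univ : Set U) :=
  ⟨fun g _ x => ⟨fun _ => mem_univ _, fun _ => mem_univ _⟩, fun g hg => ⟨g, hg, fun x _ => rfl,
    fun x hx => absurd (mem_univ x) hx⟩⟩

private theorem bq_compl {Q : Set U} (hQ : Bq L A Q) : Bq L A Qᶜ := by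
  refine ⟨fun g hg x => not_congr (hQ.inv g hg x), fun g hg => ?_⟩
  obtain ⟨h, hh, h1, h2⟩ := hQ.glu g hg
  refine ⟨g.comp h.symm, Pool.Agent.MNO.nx_comp hg (Pool.Agent.MNO.nx_symm hh), ?_, ?_⟩
  · intro x hx
    have h3 : h.symm x = x := by
      have h4 := h.symm_apply_apply x
      rw [h2 x hx] at h4
      exact h4
    change g (h.symm x) = g x
    rw [h3]
  · intro x hx
    have hxQ : x ∈ Q := not_not.1 hx
    have h3 : h.symm x ∈ Q := (hQ.inv h.symm (Pool.Agent.MNO.nx_symm hh) x).2 hxQ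
    change g (h.symm x) = x
    rw [← h1 _ h3]
    exact h.apply_symm_apply x

private theorem bq_inter {Q R : Set U} (hQ : Bq L A Q) (hR : Bq L A R) : Bq L A (Q ∩ R) := by
  refine ⟨fun g hg x => and_congr (hQ.inv g hg x) (hR.inv g hg x), fun g hg => ?_⟩
  obtain ⟨h, hh, h1, h2⟩ := hQ.glu g hg
  obtain ⟨k, hk, k1, k2⟩ := hR.glu h hh
  refine ⟨k, hk, fun x hx => (k1 x hx.2).trans (h1 x hx.1), fun x hx => ?_⟩
  by_cases hxR : x ∈ R
  · rw [k1 x hxR]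
    exact h2 x fun hxQ => hx ⟨hxQ, hxR⟩
  · exact k2 x hxR

private theorem bq_sep {𝒬 : Set (Set U)} (h𝒬 : ∀ Q ∈ 𝒬, Bq L A Q) {s : Set U} (hs : s.Finite) :
    ∃ Q, Bq L A Q ∧ ⋂₀ 𝒬 ⊆ Q ∧ ∀ x ∈ s, x ∉ ⋂₀ 𝒬 → x ∉ Q := by
  refine Set.Finite.induction_on (motive := fun s _ => ∃ Q, Bq L A Q ∧ ⋂₀ 𝒬 ⊆ Q ∧
    ∀ x ∈ s, x ∉ ⋂₀ 𝒬 → x ∉ Q) s hs ⟨univ, bq_univ, subset_univ _, fun x hx => hx.elim⟩ ?_
  rintro a s - - ⟨Q, hQ, h1, h2⟩
  by_cases ha : a ∈ ⋂₀ 𝒬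
  · refine ⟨Q, hQ, h1, fun x hx hx' => ?_⟩
    rcases hx with rfl | hx
    · exact absurd ha hx'
    · exact h2 x hx hx'
  · obtain ⟨R, hR, haR⟩ : ∃ R ∈ 𝒬, a ∉ R := by
      by_contra hcon
      push Not at hcon
      exact ha hcon
    refine ⟨Q ∩ R, bq_inter hQ (h𝒬 R hR), fun x hx => ⟨h1 hx, hx R hR⟩, fun x hx hx' => ?_⟩
    rcases hx with rfl | hx
    · exact fun h => haR h.2
    · exact fun h => h2 x hx hx' h.1

private theorem bq_sInter {𝒬 : Set (Set U)} (h𝒬 : ∀ Q ∈ 𝒬, Bq L A Q) : Bq L A (⋂₀ 𝒬) := by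
  classical
  have hinv : ∀ g : U ≃[L] U, Nx L A g → ∀ x, g x ∈ ⋂₀ 𝒬 ↔ x ∈ ⋂₀ 𝒬 := fun g hg x =>
    ⟨fun h Q hQ => ((h𝒬 Q hQ).inv g hg x).1 (h Q hQ),
      fun h Q hQ => ((h𝒬 Q hQ).inv g hg x).2 (h Q hQ)⟩
  refine ⟨hinv, fun g hg => ?_⟩
  have hinv' : ∀ x, g.symm x ∈ ⋂₀ 𝒬 ↔ x ∈ ⋂₀ 𝒬 := hinv g.symm (Pool.Agent.MNO.nx_symm hg)
  let e : U ≃ U :=
    { toFun := fun x => if x ∈ ⋂₀ 𝒬 then g x else x
      invFun := fun x => if x ∈ ⋂₀ 𝒬 then g.symm x else x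
      left_inv := by
        intro x
        by_cases hx : x ∈ ⋂₀ 𝒬
        · simp only [if_pos hx, if_pos ((hinv g hg x).2 hx)]
          exact g.symm_apply_apply x
        · simp only [if_neg hx]
      right_inv := by
        intro x
        by_cases hx : x ∈ ⋂₀ 𝒬
        · simp only [if_pos hx, if_pos ((hinv' x).2 hx)]
          exact g.apply_symm_apply x
        · simp only [if_neg hx] }
  have he1 : ∀ x ∈ ⋂₀ 𝒬, e x = g x := fun x hx => if_pos hx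
  have he2 : ∀ x, x ∉ ⋂₀ 𝒬 → e x = x := fun x hx => if_neg hx
  obtain ⟨h, hh, hhe⟩ := Pool.Agent.MNO.nx_lim (A := A) e (fun s hs => by
    obtain ⟨Q, hQ, h1, h2⟩ := bq_sep h𝒬 hs
    obtain ⟨k, hk, k1, k2⟩ := hQ.glu g hg
    refine ⟨k, hk, fun x hx => ?_⟩
    by_cases hx' : x ∈ ⋂₀ 𝒬
    · rw [he1 x hx', k1 x (h1 hx')]
    · rw [he2 x hx', k2 x (h2 x hx hx')])
  exact ⟨h, hh, fun x hx => (hhe x).trans (he1 x hx), fun x hx => (hhe x).trans (he2 x hx)⟩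

private theorem bq_sUnion {𝒬 : Set (Set U)} (h𝒬 : ∀ Q ∈ 𝒬, Bq L A Q) : Bq L A (⋃₀ 𝒬) := by
  have h1 : Bq L A (⋂₀ (compl '' 𝒬)) := bq_sInter (by
    rintro _ ⟨Q, hQ, rfl⟩
    exact bq_compl (h𝒬 Q hQ))
  have h2 := bq_compl h1
  rw [Set.compl_sInter] at h2
  rw [← Set.image_comp] at h2
  have h3 : (compl ∘ compl : Set U → Set U) = id := by
    funext s
    exact compl_compl s
  rw [h3, Set.image_id] at h2
  exact h2

private theorem pq_eq (x : U) : Pq L A x = ⋂₀ {Q | Bq L A Q ∧ x ∈ Q} := by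
  ext y
  constructor
  · rintro hy Q ⟨hQ, hx⟩
    exact (hy Q hQ).1 hx
  · intro hy Q hQ
    constructor
    · intro hx
      exact hy Q ⟨hQ, hx⟩
    · intro hyQ
      by_contra hx
      exact hy Qᶜ ⟨bq_compl hQ, hx⟩ hyQ

private theorem bq_pq (x : U) : Bq L A (Pq L A x) := by
  rw [pq_eq]
  exact bq_sInter fun Q hQ => hQ.1

end

/-- [ALQ] -/
theorem thm_ALQ : St_ALQ := by
  intro hOFQ hBND L U _ hM A hA
  refine ⟨⟨bq_empty, bq_univ⟩, fun Q hQ => bq_compl hQ, fun 𝒬 h𝒬 => bq_sInter h𝒬,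
    fun 𝒬 h𝒬 => bq_sUnion h𝒬, fun x => ⟨bq_pq x, fun Q _ => Iff.rfl⟩,
    fun x Q hQ hx y hy => (hy Q hQ).1 hx, ?_, ?_, ?_, ?_⟩
  · rintro x R hR hRx ⟨r, hr⟩
    have hx : x ∈ R := (hRx hr R hR).2 hr
    exact Subset.antisymm hRx fun y hy => (hy R hR).1 hx
  · intro x y hy
    ext z
    exact ⟨fun hz Q hQ => (hy Q hQ).trans (hz Q hQ), fun hz Q hQ => (hy Q hQ).symm.trans (hz Q hQ)⟩
  · intro x y hy
    rw [Set.disjoint_left]
    intro z hz hz'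
    exact hy fun Q hQ => (hz Q hQ).trans (hz' Q hQ).symm
  · intro A' hA' hAA' x y hy Q hQ
    exact hy Q ((hOFQ hBND L U hM A Q hA hQ).2.2 A' hA' hAA')

end Pool.Agent.TPC
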