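import Pool.Agent.TPC.StA

/-!
TPC, module BND (helper26): definable finite equivalence relations which are invariant under `Nx A`.
-/

set_option autoImplicit false
set_option linter.unusedVariables false
set_option linter.unusedSectionVars false

namespace Pool.Agent.TPC

open FirstOrder.Language Set
open scoped FirstOrder
open Pool.Agent.WOM (tp Mon IsEl IsoM CtU Fx Orb Isd)
open Pool.Agent.PMC (Sm Md NPf fx_refl fx_symm fx_comp fx_mono comp_apply')
open Pool.Agent.MNO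

section

variable {L : FirstOrder.Language.{0, 0}} {U : Type} [L.Structure U] {α : Type}

/-- finitely many representatives -/
private theorem bnd_cover {X Y : Type} {s : Set Y} (hs : s.Finite) {Q : X → Y → Prop}
    (h : ∀ x, ∃ y ∈ s, Q x y) :
    ∃ t : Set X, t.Finite ∧ ∀ x, ∃ x' ∈ t, ∃ y ∈ s, Q x y ∧ Q x' y := by
  choose r hr hQ using h
  obtain ⟨t, -, ht⟩ := exists_subset_bijOn (univ : Set X) r
  have h1 : (r '' (univ : Set X)).Finite := hs.subset (by
    rintro _ ⟨x, -, rfl⟩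
    exact hr x)
  refine ⟨t, Set.Finite.of_finite_image (by rw [ht.image_eq]; exact h1) ht.injOn, fun x => ?_⟩
  have h2 : r x ∈ r '' t := by
    rw [ht.image_eq]
    exact ⟨x, mem_univ x, rfl⟩
  obtain ⟨x', hx', e⟩ := h2
  refine ⟨x', hx', r x, hr x, hQ x, ?_⟩
  rw [← e]
  exact hQ x'

/-- a coarser definable equivalence relation -/
private theorem bnd_coarse {A : Set U} {E F : (α → U) → (α → U) → Prop} (hE : FE L A E)
    (hd : Dp L A (fun v : α ⊕ α → U => F (fun i => v (Sum.inl i)) (fun i => v (Sum.inr i))))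
    (he : Equivalence F) (h : ∀ x y, E x y → F x y) : FE L A F := by
  refine ⟨hd, he, ?_⟩
  obtain ⟨s, hs, hs'⟩ := hE.fin
  refine ⟨s, hs, fun x => ?_⟩
  obtain ⟨y, hy, hxy⟩ := hs' x
  exact ⟨y, hy, h x y hxy⟩

/-- the image of a finite equivalence relation -/
private theorem bnd_img {A : Set U} {E : (α → U) → (α → U) → Prop} (h : FE L A E) (g : U ≃[L] U) :
    FE L (g '' A) (fun x y => E (fun i => g.symm (x i)) (fun i => g.symm (y i))) := by
  refine ⟨dp_img h.dfn g, ?_, ?_⟩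
  · exact ⟨fun x => h.eqv.refl _, fun hxy => h.eqv.symm hxy, fun hxy hyz => h.eqv.trans hxy hyz⟩
  · obtain ⟨s, hs, hs'⟩ := h.fin
    obtain ⟨r, hr, hr'⟩ := bnd_cover (X := α → U) hs
      (Q := fun x p => E (fun i => g.symm (x i)) p) (fun x => hs' _)
    refine ⟨r, hr, fun x => ?_⟩
    obtain ⟨x', hx', p, -, h1, h2⟩ := hr' x
    exact ⟨x', hx', h.eqv.trans h1 (h.eqv.symm h2)⟩

/-- invariance of an `A`-definable relation under automorphisms over `A` -/
private theorem bnd_inv {A : Set U} {E : (α → U) → (α → U) → Prop} (h : FE L A E) {g : U ≃[L] U}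
    (hg : Fx L A g) (x y : α → U) : E (fun i => g (x i)) (fun i => g (y i)) ↔ E x y := by
  have h1 := dp_fx h.dfn hg (Sum.elim x y)
  exact h1

/-- a finite equivalence relation, definable over a finite set and invariant under `Nx A`, is
refined by one which is definable over `A` -/
theorem BND_core (hM : Mon L U) [Finite α] {A B : Set U} (hA : A.Finite) (hB : B.Finite)
    {F : (α → U) → (α → U) → Prop} (hF : FE L B F)
    (h : ∀ k : U ≃[L] U, Nx L A k → ∀ u v, F u v → F (fun i => k (u i)) (fun i => k (v i))) :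
    ∃ G : (α → U) → (α → U) → Prop, FE L A G ∧ ∀ u v, G u v → F u v := by
  obtain ⟨n, b, rfl⟩ := exists_enum hB
  obtain ⟨Q, hQ, hFQ⟩ := dp_fam0 hF.dfn
  have hFQ' : ∀ u v : α → U, F u v ↔ Q (Sum.elim (Sum.elim u v) b) := fun u v => hFQ (Sum.elim u v)
  -- invariance of `Q` under all automorphisms
  have hQg : ∀ (g : U ≃[L] U) (u v : α → U) (c : Fin n → U),
      Q (Sum.elim (Sum.elim (fun i => g (u i)) (fun i => g (v i))) (fun i => g (c i))) ↔
        Q (Sum.elim (Sum.elim u v) c) := by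
    intro g u v c
    have h1 := dp_fx hQ (g := g) (fun a ha => absurd ha (notMem_empty a))
      (Sum.elim (Sum.elim u v) c)
    have e : (fun i => g ((Sum.elim (Sum.elim u v) c) i)) =
        Sum.elim (Sum.elim (fun i => g (u i)) (fun i => g (v i))) (fun i => g (c i)) := by
      funext i
      rcases i with (i | i) | i <;> rfl
    rw [e] at h1
    exact h1
  have hFk : ∀ k : U ≃[L] U, Nx L A k → ∀ u v,
      F (fun i => k (u i)) (fun i => k (v i)) ↔ F u v := by
    intro k hk u v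
    refine ⟨fun h1 => ?_, h k hk u v⟩
    have h2 := h k.symm (nx_symm hk) _ _ h1
    have e : ∀ z : α → U, (fun i => k.symm (k (z i))) = z := by
      intro z
      funext i
      exact k.symm_apply_apply (z i)
    rw [e u, e v] at h2
    exact h2
  -- the set of the parameters which define the same relation
  have hP : Dp L (range b) (fun c : Fin n → U => ∀ w : α ⊕ α → U,
      Q (Sum.elim w c) ↔ Q (Sum.elim w b)) := by
    have h1 : Dp L (range b) (fun z : Fin n ⊕ (α ⊕ α) → U =>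
        Q (Sum.elim (fun i => z (Sum.inr i)) (fun i => z (Sum.inl i))) ↔
          F (fun i => z (Sum.inr (Sum.inl i))) (fun i => z (Sum.inr (Sum.inr i)))) := by
      refine dp_iff ?_ ?_
      · refine dp_congr (dp_sub (dp_mono (empty_subset _) hQ)
          (Sum.elim Sum.inr Sum.inl : (α ⊕ α) ⊕ Fin n → Fin n ⊕ (α ⊕ α))) (fun z => iff_of_eq ?_)
        congr 1
        funext i
        rcases i with i | i <;> rfl
      · exact dp_sub hF.dfn (Sum.inr : α ⊕ α → Fin n ⊕ (α ⊕ α))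
    refine dp_congr (dp_all h1) (fun c => forall_congr' fun w => ?_)
    have e : (Sum.elim (fun i => w (Sum.inl i)) (fun i => w (Sum.inr i)) : α ⊕ α → U) = w := by
      funext i
      rcases i with i | i <;> rfl
    have h2 := hFQ' (fun i => w (Sum.inl i)) (fun i => w (Sum.inr i))
    rw [e] at h2
    constructor
    · intro h3
      exact Iff.trans h3 h2.symm
    · intro h3
      exact Iff.trans h3 h2
  have hPk : ∀ g : U ≃[L] U, Nx L A g → ∀ c : Fin n → U,
      (∀ w : α ⊕ α → U, Q (Sum.elim w c) ↔ Q (Sum.elim w b)) →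
      ∀ w : α ⊕ α → U, Q (Sum.elim w (fun i => g (c i))) ↔ Q (Sum.elim w b) := by
    intro g hg c hc w
    have e : w = Sum.elim (fun i => g (g.symm (w (Sum.inl i))))
        (fun i => g (g.symm (w (Sum.inr i)))) := by
      funext i
      rcases i with i | i
      · exact (g.apply_symm_apply _).symm
      · exact (g.apply_symm_apply _).symm
    rw [e]
    refine (hQg g _ _ c).trans ((hc _).trans ?_)
    exact (hFQ' _ _).symm.trans ((hFk g hg _ _).symm.trans (hFQ' _ _))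
  obtain ⟨E3, hE3, hE3'⟩ := nx_fe hM hA (finite_range b) hP hPk (x := b) (fun w => Iff.rfl)
  -- comparison of two automorphisms over `A`
  have hcmp : ∀ g h : U ≃[L] U, Fx L A g → Fx L A h →
      E3 (fun i => g.symm (b i)) (fun i => h.symm (b i)) → ∀ u v : α → U,
      (F (fun i => g (u i)) (fun i => g (v i)) ↔ F (fun i => h (u i)) (fun i => h (v i))) := by
    intro g h hg hh hE u v
    have h1 := (bnd_inv hE3 hg _ _).2 hE
    have e1 : (fun i => g (g.symm (b i))) = b := by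
      funext i
      exact g.apply_symm_apply _
    rw [e1] at h1
    have h2 := hE3' _ h1
    have h3 := h2 (Sum.elim (fun i => g (u i)) (fun i => g (v i)))
    have h4 := hQg g u v (fun i => h.symm (b i))
    have h5 := hQg h u v (fun i => h.symm (b i))
    have e2 : (fun i => h (h.symm (b i))) = b := by
      funext i
      exact h.apply_symm_apply _
    rw [e2] at h5
    exact (hFQ' _ _).trans (h3.symm.trans (h4.trans (h5.symm.trans (hFQ' _ _).symm)))
  obtain ⟨s, hs, hs'⟩ := hE3.fin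
  obtain ⟨t, ht, ht'⟩ := bnd_cover (X := {g : U ≃[L] U // Fx L A g}) hs
    (Q := fun g c => E3 (fun i => g.1.symm (b i)) c) (fun g => hs' _)
  have hrep : ∀ g : U ≃[L] U, Fx L A g → ∃ k ∈ t, ∀ u v : α → U,
      (F (fun i => g (u i)) (fun i => g (v i)) ↔ F (fun i => k.1 (u i)) (fun i => k.1 (v i))) := by
    intro g hg
    obtain ⟨k, hk, c, -, h1, h2⟩ := ht' ⟨g, hg⟩
    exact ⟨k, hk, hcmp g k.1 hg k.2 (hE3.eqv.trans h1 (hE3.eqv.symm h2))⟩
  -- the relation
  let G : (α → U) → (α → U) → Prop := fun u v =>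
    ∀ g : U ≃[L] U, Fx L A g → F (fun i => g (u i)) (fun i => g (v i))
  have hGt : ∀ u v, G u v ↔ ∀ k ∈ t, F (fun i => k.1 (u i)) (fun i => k.1 (v i)) := by
    intro u v
    constructor
    · intro h1 k hk
      exact h1 k.1 k.2
    · intro h1 g hg
      obtain ⟨k, hk, hk'⟩ := hrep g hg
      exact (hk' u v).2 (h1 k hk)
  have hGe : Equivalence G := ⟨fun u g hg => hF.eqv.refl _,
    fun h1 g hg => hF.eqv.symm (h1 g hg), fun h1 h2 g hg => hF.eqv.trans (h1 g hg) (h2 g hg)⟩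
  let B' : Set U := ⋃ k ∈ t, k.1.symm '' range b
  have hB' : B'.Finite := ht.biUnion fun k _ => (finite_range b).image _
  have hFEk : ∀ k ∈ t, FE L B' (fun u v => F (fun i => k.1 (u i)) (fun i => k.1 (v i))) := by
    intro k hk
    have h1 := bnd_img hF k.1.symm
    exact fe_mono (subset_biUnion_of_mem (u := fun k : {g : U ≃[L] U // Fx L A g} =>
      k.1.symm '' range b) hk) h1
  obtain ⟨G', hG', hG''⟩ := fe_inf (A := B')
    (G := (fun k : {g : U ≃[L] U // Fx L A g} => fun u v : α → U =>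
      F (fun i => k.1 (u i)) (fun i => k.1 (v i))) '' t) (ht.image _) (by
    rintro _ ⟨k, hk, rfl⟩
    exact hFEk k hk)
  have hGd' : Dp L B' (fun v : α ⊕ α → U => G (fun i => v (Sum.inl i)) (fun i => v (Sum.inr i))) := by
    refine dp_congr (dp_ball ht (fun k hk => (hFEk k hk).dfn)) (fun v => ?_)
    exact hGt _ _
  have hGd : Dp L A (fun v : α ⊕ α → U => G (fun i => v (Sum.inl i)) (fun i => v (Sum.inr i))) := by
    refine dp_inv hM hA hB' hGd' (fun g hg v hv k hk => ?_)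
    exact hv (k.comp g) (fx_comp hk hg)
  have hGfin : FE L B' G := bnd_coarse hG' hGd' hGe (fun x y hxy => (hGt x y).2 (fun k hk =>
    hG'' _ ⟨k, hk, rfl⟩ x y hxy))
  exact ⟨G, ⟨hGd, hGe, hGfin.fin⟩, fun u v h1 => h1 _ (fx_refl A)⟩

/-- step (1) -/
theorem BND_near (hM : Mon L U) [Finite α] {A B : Set U} (hA : A.Finite) (hB : B.Finite)
    {E : (α → U) → (α → U) → Prop} (hE : FE L B E) {x : α → U}
    (h : ∀ g h k : U ≃[L] U, Nx L A g → Nx L A h → Nx L A k →
      E (fun i => g (x i)) (fun i => h (x i)) →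
        E (fun i => k (g (x i))) (fun i => k (h (x i)))) :
    ∃ (E1 : (α → U) → (α → U) → Prop) (E2 : (α ⊕ α → U) → (α ⊕ α → U) → Prop),
      FE L A E1 ∧ FE L A E2 ∧ ∀ w : (α ⊕ α) ⊕ (α ⊕ α) → U,
        E1 x (fun i => w (Sum.inl (Sum.inl i))) → E1 x (fun i => w (Sum.inl (Sum.inr i))) →
        E2 (fun i => w (Sum.inl i)) (fun i => w (Sum.inr i)) →
        E (fun i => w (Sum.inl (Sum.inl i))) (fun i => w (Sum.inl (Sum.inr i))) →
        E (fun i => w (Sum.inr (Sum.inl i))) (fun i => w (Sum.inr (Sum.inr i))) := by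
  by_contra hcon
  push Not at hcon
  let Cnd : ((α → U) → (α → U) → Prop) → ((α ⊕ α → U) → (α ⊕ α → U) → Prop) →
      ((α ⊕ α) ⊕ (α ⊕ α) → U) → Prop := fun E1 E2 w =>
    E1 x (fun i => w (Sum.inl (Sum.inl i))) ∧ E1 x (fun i => w (Sum.inl (Sum.inr i))) ∧
      E2 (fun i => w (Sum.inl i)) (fun i => w (Sum.inr i))
  let Z : ((α ⊕ α) ⊕ (α ⊕ α) → U) → Prop := fun w =>
    E (fun i => w (Sum.inl (Sum.inl i))) (fun i => w (Sum.inl (Sum.inr i))) ∧
      ¬ E (fun i => w (Sum.inr (Sum.inl i))) (fun i => w (Sum.inr (Sum.inr i)))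
  have hF : ∀ Q ∈ ({Q : ((α ⊕ α) ⊕ (α ⊕ α) → U) → Prop | ∃ E1 E2, FE L A E1 ∧ FE L A E2 ∧
      Q = Cnd E1 E2} ∪ {Z} : Set (((α ⊕ α) ⊕ (α ⊕ α) → U) → Prop)),
      Dp L ((A ∪ range x) ∪ B) Q := by
    rintro Q (⟨E1, E2, h1, h2, rfl⟩ | hQ)
    · refine dp_and ?_ (dp_and ?_ ?_)
      · exact dp_mono subset_union_left (dp_sub (fe_def h1 x)
          (fun i => (Sum.inl (Sum.inl i) : (α ⊕ α) ⊕ (α ⊕ α))))
      · exact dp_mono subset_union_left (dp_sub (fe_def h1 x)
          (fun i => (Sum.inl (Sum.inr i) : (α ⊕ α) ⊕ (α ⊕ α))))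
      · exact dp_mono (subset_union_left.trans subset_union_left) h2.dfn
    · rw [mem_singleton_iff] at hQ
      subst hQ
      refine dp_mono subset_union_right (dp_and ?_ (dp_not ?_))
      · exact dp_sub hE.dfn (Sum.inl : α ⊕ α → (α ⊕ α) ⊕ (α ⊕ α))
      · exact dp_sub hE.dfn (Sum.inr : α ⊕ α → (α ⊕ α) ⊕ (α ⊕ α))
  obtain ⟨w, hw⟩ := dp_sat hM ((hA.union (finite_range x)).union hB) hF (by
    intro G hG hfin
    have h1 : ∀ Q : ((α ⊕ α) ⊕ (α ⊕ α) → U) → Prop, ∃ (E1 : (α → U) → (α → U) → Prop)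
        (E2 : (α ⊕ α → U) → (α ⊕ α → U) → Prop), FE L A E1 ∧ FE L A E2 ∧
        ((∃ E1 E2, FE L A E1 ∧ FE L A E2 ∧ Q = Cnd E1 E2) → Q = Cnd E1 E2) := by
      intro Q
      by_cases hQ : ∃ E1 E2, FE L A E1 ∧ FE L A E2 ∧ Q = Cnd E1 E2
      · obtain ⟨E1, E2, h1, h2, h3⟩ := hQ
        exact ⟨E1, E2, h1, h2, fun _ => h3⟩
      · exact ⟨_, _, fe_top A, fe_top A, fun h' => absurd h' hQ⟩
    choose e1 e2 he1 he2 he using h1
    obtain ⟨E1, hE1, hE1'⟩ := fe_inf (A := A) (G := e1 '' G) (hfin.image e1) (by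
      rintro _ ⟨t, _, rfl⟩
      exact he1 t)
    obtain ⟨E2, hE2, hE2'⟩ := fe_inf (A := A) (G := e2 '' G) (hfin.image e2) (by
      rintro _ ⟨t, _, rfl⟩
      exact he2 t)
    obtain ⟨w, hw1, hw2, hw3, hw4, hw5⟩ := hcon E1 E2 hE1 hE2
    refine ⟨w, fun Q hQ => ?_⟩
    rcases hG hQ with h2 | h2
    · rw [he Q h2]
      exact ⟨hE1' (e1 Q) ⟨Q, hQ, rfl⟩ _ _ hw1, hE1' (e1 Q) ⟨Q, hQ, rfl⟩ _ _ hw2,
        hE2' (e2 Q) ⟨Q, hQ, rfl⟩ _ _ hw3⟩
    · rw [mem_singleton_iff] at h2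
      rw [h2]
      exact ⟨hw4, hw5⟩)
  have hwC : ∀ E1 E2, FE L A E1 → FE L A E2 → Cnd E1 E2 w :=
    fun E1 E2 h1 h2 => hw _ (Or.inl ⟨E1, E2, h1, h2, rfl⟩)
  have hwZ : Z w := hw _ (Or.inr rfl)
  obtain ⟨g, hg, hgx⟩ := nx_of_sq hM hA (x := x) (y := fun i => w (Sum.inl (Sum.inl i)))
    (fun E1 h1 => (hwC E1 _ h1 (fe_top A)).1)
  obtain ⟨g', hg', hgx'⟩ := nx_of_sq hM hA (x := x) (y := fun i => w (Sum.inl (Sum.inr i)))
    (fun E1 h1 => (hwC E1 _ h1 (fe_top A)).2.1)
  obtain ⟨k, hk, hkw⟩ := nx_of_sq hM hA (x := fun i => w (Sum.inl i)) (y := fun i => w (Sum.inr i))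
    (fun E2 h2 => (hwC _ E2 (fe_top A) h2).2.2)
  have h1 := h g g' k hg hg' hk (by
    rw [funext hgx, funext hgx']
    exact hwZ.1)
  have e1 : (fun i => k (g (x i))) = fun i => w (Sum.inr (Sum.inl i)) := by
    funext i
    rw [hgx i]
    exact hkw (Sum.inl i)
  have e2 : (fun i => k (g' (x i))) = fun i => w (Sum.inr (Sum.inr i)) := by
    funext i
    rw [hgx' i]
    exact hkw (Sum.inr i)
  rw [e1, e2] at h1
  exact hwZ.2 h1

end

theorem thm_BND : St_BND := by
  intro L U _ hM α _ A B E x hA hB hE h g hg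
  obtain ⟨E1, E2, hE1, hE2, hn⟩ := BND_near hM hA hB hE h
  have hCd : Dp L ((A ∪ range x) ∪ B) (fun u : α → U => E1 x u) :=
    dp_mono subset_union_left (fe_def hE1 x)
  have hfin : ((A ∪ range x) ∪ B).Finite := (hA.union (finite_range x)).union hB
  have hCk : ∀ k : U ≃[L] U, Nx L A k → ∀ u : α → U,
      (E1 x (fun i => k (u i)) ↔ E1 x u) := by
    intro k hk u
    have h1 : E1 u (fun i => k (u i)) := nx_sq hk u E1 hE1
    exact ⟨fun h2 => hE1.eqv.trans h2 (hE1.eqv.symm h1), fun h2 => hE1.eqv.trans h2 h1⟩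
  have hFE : FE L ((A ∪ range x) ∪ B)
      (fun u v : α → U => (E1 x u ∧ E1 x v ∧ E u v) ∨ (¬ E1 x u ∧ ¬ E1 x v)) := by
    refine bnd_coarse (fe_inter (fe_of_dp hCd) (fe_mono subset_union_right hE)) ?_ ?_ ?_
    · have h1 := dp_sub hCd (Sum.inl : α → α ⊕ α)
      have h2 := dp_sub hCd (Sum.inr : α → α ⊕ α)
      exact dp_or (dp_and h1 (dp_and h2 (dp_mono subset_union_right hE.dfn)))
        (dp_and (dp_not h1) (dp_not h2))
    · refine ⟨fun u => ?_, fun {u v} h1 => ?_, fun {u v w} h1 h2 => ?_⟩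
      · by_cases hu : E1 x u
        · exact Or.inl ⟨hu, hu, hE.eqv.refl u⟩
        · exact Or.inr ⟨hu, hu⟩
      · rcases h1 with ⟨h1, h2, h3⟩ | ⟨h1, h2⟩
        · exact Or.inl ⟨h2, h1, hE.eqv.symm h3⟩
        · exact Or.inr ⟨h2, h1⟩
      · rcases h1 with ⟨h1, h3, h4⟩ | ⟨h1, h3⟩
        · rcases h2 with ⟨h5, h6, h7⟩ | ⟨h5, h6⟩
          · exact Or.inl ⟨h1, h6, hE.eqv.trans h4 h7⟩
          · exact absurd h3 h5
        · rcases h2 with ⟨h5, h6, h7⟩ | ⟨h5, h6⟩
          · exact absurd h5 h3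
          · exact Or.inr ⟨h1, h6⟩
    · rintro u v ⟨h1, h2⟩
      by_cases hu : E1 x u
      · exact Or.inl ⟨hu, h1.1 hu, h2⟩
      · exact Or.inr ⟨hu, fun hv => hu (h1.2 hv)⟩
  obtain ⟨G, hG, hGF⟩ := BND_core hM hA hfin hFE (by
    intro k hk u v h1
    rcases h1 with ⟨h1, h2, h3⟩ | ⟨h1, h2⟩
    · refine Or.inl ⟨(hCk k hk u).2 h1, (hCk k hk v).2 h2, ?_⟩
      have h4 := hn (Sum.elim (Sum.elim u v) (Sum.elim (fun i => k (u i)) (fun i => k (v i))))
      refine h4 h1 h2 ?_ h3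
      have h5 := nx_sq hk (Sum.elim u v) E2 hE2
      have e : (fun i => k ((Sum.elim u v) i)) =
          (Sum.elim (fun i => k (u i)) (fun i => k (v i)) : α ⊕ α → U) := by
        funext i
        rcases i with i | i <;> rfl
      rw [e] at h5
      exact h5
    · exact Or.inr ⟨fun h3 => h1 ((hCk k hk u).1 h3), fun h3 => h2 ((hCk k hk v).1 h3)⟩)
  have h1 := hGF _ _ (nx_sq hg x G hG)
  rcases h1 with ⟨-, -, h3⟩ | ⟨h1, -⟩
  · exact h3
  · exact absurd (hE1.eqv.refl x) h1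

end Pool.Agent.TPC
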