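import Pool.Agent.TPC.StA

/-!
TPC, [GLQ]: gluing of finitely many automorphisms on disjoint unions of pieces (helper4, after
`Pool/Agent/MNO/PRF.lean`).
-/

set_option autoImplicit false
set_option linter.unusedVariables false

namespace Pool.Agent.TPC

open FirstOrder.Language Set
open scoped FirstOrder
open Pool.Agent.WOM (tp Mon IsEl IsoM CtU Fx Orb Isd)
open Pool.Agent.PMC (Sm Md NPf comp_apply')
open Pool.Agent.MNO (Dp FE Sq Nx SmN FE1 FinN nx_refl nx_comp)

/-- [GLQ] -/
theorem thm_GLQ : St_GLQ := by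
  intro L U _ hM A hA n
  induction n with
  | zero =>
    intro Q _ _ g _
    exact ⟨FirstOrder.Language.Equiv.refl L U, nx_refl A, fun i => i.elim0, fun x _ => rfl⟩
  | succ n ih =>
    intro Q hQ hd g hg
    obtain ⟨h₁, h₁A, h₁Q, h₁n⟩ := ih (fun i => Q i.succ) (fun i => hQ i.succ)
      (fun i j hij => hd i.succ j.succ fun h => hij (Fin.succ_injective n h))
      (fun i => g i.succ) (fun i => hg i.succ)
    obtain ⟨h₀, h₀A, h₀Q, h₀n⟩ := (hQ 0).glu (g 0) (hg 0)
    refine ⟨h₀.comp h₁, nx_comp h₀A h₁A, ?_, ?_⟩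
    · intro i x hx
      rw [comp_apply']
      refine Fin.cases ?_ ?_ i (motive := fun i => x ∈ Q i → h₀ (h₁ x) = g i x) hx
      · intro hx0
        rw [h₁n x fun i hi => Set.disjoint_left.1 (hd 0 i.succ (Fin.succ_ne_zero i).symm) hx0 hi]
        exact h₀Q x hx0
      · intro k hxk
        rw [h₁Q k x hxk]
        refine h₀n _ fun h => ?_
        exact Set.disjoint_left.1 (hd 0 k.succ (Fin.succ_ne_zero k).symm) h
          (((hQ k.succ).inv _ (hg k.succ) x).2 hxk)
    · intro x hx
      rw [comp_apply', h₁n x fun i => hx i.succ]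
      exact h₀n x (hx 0)

end Pool.Agent.TPC
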