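import Pool.Agent.TPC.StA

/-!
TPC, module OFQ (helper26): strong types inside a union of pieces are not split by points outside.
-/

set_option autoImplicit false
set_option linter.unusedVariables false
set_option linter.unusedSectionVars false

namespace Pool.Agent.TPC

open FirstOrder.Language Set
open scoped FirstOrder
open Pool.Agent.WOM (tp Mon IsEl IsoM CtU Fx Orb Isd)
open Pool.Agent.PMC (Sm Md NPf fx_refl fx_symm fx_comp fx_mono comp_apply')
open Pool.Agent.MNO

section

variable {L : FirstOrder.Language.{0, 0}} {U : Type} [L.Structure U] {α : Type}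

/-- invariance of an `A`-definable relation under automorphisms over `A` -/
theorem OFQ_inv {A : Set U} {E : (α → U) → (α → U) → Prop} (h : FE L A E) {g : U ≃[L] U}
    (hg : Fx L A g) (x y : α → U) : E (fun i => g (x i)) (fun i => g (y i)) ↔ E x y :=
  dp_fx h.dfn hg (Sum.elim x y)

/-- the gluing fixes `A` and all points outside -/
theorem OFQ_fx {A B Q : Set U} {g h : U ≃[L] U} (hg : Fx L A g) (hQ : ∀ x ∈ Q, h x = g x)
    (hQ' : ∀ x, x ∉ Q → h x = x) (hB : ∀ x ∈ B, x ∈ A ∨ x ∉ Q) : Fx L B h := by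
  intro x hx
  by_cases hxQ : x ∈ Q
  · rcases hB x hx with h1 | h1
    · rw [hQ x hxQ]
      exact hg x h1
    · exact absurd hxQ h1
  · exact hQ' x hxQ

/-- pulling back a finite equivalence relation along a substitution with parameters -/
theorem OFQ_pull {A B : Set U} {n : ℕ} {E : (Fin n → U) → (Fin n → U) → Prop} (hE : FE L A E)
    (y : Fin n → U) (p : Fin n → Prop) [DecidablePred p] (hAB : A ⊆ B) (hB : range y ⊆ B) :
    FE L B (fun u v : {i // p i} → U => E (fun i => if h : p i then u ⟨i, h⟩ else y i)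
      (fun i => if h : p i then v ⟨i, h⟩ else y i)) := by
  refine ⟨?_, ⟨fun u => hE.eqv.refl _, fun h1 => hE.eqv.symm h1,
    fun h1 h2 => hE.eqv.trans h1 h2⟩, ?_⟩
  · have h1 : Dp L B (fun w : ({i // p i} ⊕ {i // p i}) ⊕ Fin n → U =>
        E (fun i => if h : p i then w (Sum.inl (Sum.inl ⟨i, h⟩)) else w (Sum.inr i))
          (fun i => if h : p i then w (Sum.inl (Sum.inr ⟨i, h⟩)) else w (Sum.inr i))) := by
      refine dp_congr (dp_sub (dp_mono hAB hE.dfn)
        (Sum.elim (fun i => if h : p i then Sum.inl (Sum.inl ⟨i, h⟩) else Sum.inr i)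
          (fun i => if h : p i then Sum.inl (Sum.inr ⟨i, h⟩) else Sum.inr i) :
          Fin n ⊕ Fin n → ({i // p i} ⊕ {i // p i}) ⊕ Fin n)) (fun w => iff_of_eq ?_)
      congr 1
      · funext i
        by_cases h : p i
        · simp [h]
        · simp [h]
      · funext i
        by_cases h : p i
        · simp [h]
        · simp [h]
    have h2 := dp_par h1 y (fun i => hB ⟨i, rfl⟩)
    exact h2
  · obtain ⟨s, hs, hs'⟩ := hE.fin
    choose r hr hQ using fun u : {i // p i} → U =>
      hs' (fun i => if h : p i then u ⟨i, h⟩ else y i)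
    obtain ⟨t, -, ht⟩ := exists_subset_bijOn (univ : Set ({i // p i} → U)) r
    have h1 : (r '' (univ : Set ({i // p i} → U))).Finite := hs.subset (by
      rintro _ ⟨x, -, rfl⟩
      exact hr x)
    refine ⟨t, Set.Finite.of_finite_image (by rw [ht.image_eq]; exact h1) ht.injOn, fun x => ?_⟩
    have h2 : r x ∈ r '' t := by
      rw [ht.image_eq]
      exact ⟨x, mem_univ x, rfl⟩
    obtain ⟨x', hx', e⟩ := h2
    refine ⟨x', hx', ?_⟩
    have h3 := hQ x
    have h4 := hQ x'
    rw [e] at h4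
    exact hE.eqv.trans h3 (hE.eqv.symm h4)

end

theorem thm_OFQ : St_OFQ := by
  intro hBND L U _ hM A Q hA hQ
  -- (1)
  have h1 : ∀ W : Set U, W.Finite → Disjoint W Q → ∀ g : U ≃[L] U, Nx L A g → ∀ S : Set U,
      S.Finite → S ⊆ Q → ∃ h : U ≃[L] U, Nx L (A ∪ W) h ∧ ∀ x ∈ S, h x = g x := by
    intro W hW hWQ g hg S hS hSQ
    have _ : Finite S := hS.to_subtype
    have hsq : Sq L (A ∪ W) (fun i : S => (i : U)) (fun i : S => g i) := by
      intro E hE
      refine hBND L U hM S A (A ∪ W) E (fun i : S => (i : U)) hA (hA.union hW) hE ?_ g hg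
      intro g1 h1 k hg1 hh1 hk hEE
      obtain ⟨k', hk', hkQ, hkQ'⟩ := hQ.glu k hk
      have hfx : Fx L (A ∪ W) k' := OFQ_fx (nx_fx hk) hkQ hkQ' (by
        rintro x (hx | hx)
        · exact Or.inl hx
        · exact Or.inr (fun hxQ => hWQ.le_bot ⟨hx, hxQ⟩))
      have h2 := (OFQ_inv hE hfx (fun i : S => g1 i) (fun i : S => h1 i)).2 hEE
      have e1 : (fun i : S => k' (g1 i)) = fun i : S => k (g1 i) := by
        funext i
        exact hkQ _ ((hQ.inv g1 hg1 i).2 (hSQ i.2))
      have e2 : (fun i : S => k' (h1 i)) = fun i : S => k (h1 i) := by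
        funext i
        exact hkQ _ ((hQ.inv h1 hh1 i).2 (hSQ i.2))
      rw [e1, e2] at h2
      exact h2
    obtain ⟨h, hh, hh'⟩ := nx_of_sq hM (hA.union hW) hsq
    exact ⟨h, hh, fun x hx => hh' ⟨x, hx⟩⟩
  refine ⟨h1, ?_, ?_⟩
  · -- (2)
    intro W hW hWQ g h hg hQ1 hQ2
    refine ⟨OFQ_fx (nx_fx hg) hQ1 hQ2 (by
      rintro x (hx | hx)
      · exact Or.inl hx
      · exact Or.inr (fun hxQ => hWQ.le_bot ⟨hx, hxQ⟩)), fun n y => ?_⟩
    obtain ⟨k, hk, hk'⟩ := h1 (W ∪ (range y \ Q)) (hW.union ((finite_range y).diff))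
      (by
        refine Set.disjoint_left.2 ?_
        rintro x (hx | hx) hxQ
        · exact hWQ.le_bot ⟨hx, hxQ⟩
        · exact hx.2 hxQ) g hg (range y ∩ Q) ((finite_range y).inter_of_left Q)
      inter_subset_right
    have e : (fun i => h (y i)) = fun i => k (y i) := by
      funext i
      by_cases hi : y i ∈ Q
      · rw [hQ1 _ hi, hk' _ ⟨⟨i, rfl⟩, hi⟩]
      · rw [hQ2 _ hi, nx_fx hk (y i) (Or.inr (Or.inr ⟨⟨i, rfl⟩, hi⟩))]
    rw [e]
    exact sq_mono (union_subset_union_right A subset_union_left) (nx_sq hk y)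
  · -- (3)
    intro A' hA' hAA'
    refine ⟨fun g hg => hQ.inv g (nx_mono hAA' hg), fun g hg => ?_⟩
    obtain ⟨h, hh, hQ1, hQ2⟩ := hQ.glu g (nx_mono hAA' hg)
    refine ⟨h, ⟨OFQ_fx (nx_fx hg) hQ1 hQ2 (fun x hx => Or.inl hx), fun n y E hE => ?_⟩, hQ1, hQ2⟩
    classical
    have hFE := OFQ_pull (B := A' ∪ range y) hE y (fun i => y i ∈ Q) subset_union_left
      subset_union_right
    have h2 := hBND L U hM {i // y i ∈ Q} A' (A' ∪ range y) _ (fun i => y i) hA'
      (hA'.union (finite_range y)) hFE (by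
        intro g1 h1 k hg1 hh1 hk hEE
        obtain ⟨k', hk', hkQ, hkQ'⟩ := hQ.glu k (nx_mono hAA' hk)
        have hfx : Fx L A' k' := OFQ_fx (nx_fx hk) hkQ hkQ' (fun x hx => Or.inl hx)
        have h3 := (OFQ_inv hE hfx _ _).2 hEE
        have e : ∀ g2 : U ≃[L] U, Nx L A' g2 →
            (fun i => k' (if h : y i ∈ Q then g2 (y i) else y i)) =
              fun i => if h : y i ∈ Q then k (g2 (y i)) else y i := by
          intro g2 hg2
          funext i
          by_cases hi : y i ∈ Q
          · rw [dif_pos hi, dif_pos hi]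
            exact hkQ _ ((hQ.inv g2 (nx_mono hAA' hg2) _).2 hi)
          · rw [dif_neg hi, dif_neg hi]
            exact hkQ' _ hi
        rw [e g1 hg1, e h1 hh1] at h3
        exact h3) g hg
    have e1 : (fun i => if h : y i ∈ Q then y i else y i) = y := by
      funext i
      by_cases hi : y i ∈ Q
      · rw [dif_pos hi]
      · rw [dif_neg hi]
    have e2 : (fun i => if h : y i ∈ Q then g (y i) else y i) = fun i => h (y i) := by
      funext i
      by_cases hi : y i ∈ Q
      · rw [dif_pos hi, hQ1 _ hi]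
      · rw [dif_neg hi, hQ2 _ hi]
    have h3 : E (fun i => if h : y i ∈ Q then y i else y i)
      (fun i => if h : y i ∈ Q then g (y i) else y i) := h2
    rw [e1, e2] at h3
    exact h3

end Pool.Agent.TPC
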