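import Pool.Agent.TPC.StA
import Pool.Agent.MNO.SMN
import Pool.Agent.MNO.SMB

/-!
TPC, [SMQ]: calculus of `SmN` and `Sm` (helper4, after `Pool/Agent/MNO/SMN.lean` and
`Pool/Agent/MNO/SMB.lean`).
-/

set_option autoImplicit false
set_option linter.unusedVariables false

namespace Pool.Agent.TPC

open FirstOrder.Language Set
open scoped FirstOrder
open Pool.Agent.WOM (tp Mon IsEl IsoM CtU Fx Orb Isd)
open Pool.Agent.PMC (Sm Md NPf comp_apply' exists_fin_def def_img img_symm_img)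
open Pool.Agent.MNO (Dp FE Sq Nx SmN FE1 FinN)

section

variable {L : FirstOrder.Language.{0, 0}} {U : Type} [L.Structure U]

theorem SMQ_self (A : Set U) (x : U) : x ∈ Pq L A x := fun Q _ => Iff.rfl

theorem SMQ_symm {A : Set U} {x y : U} (h : y ∈ Pq L A x) : x ∈ Pq L A y :=
  fun Q hQ => (h Q hQ).symm

theorem SMQ_trans {A : Set U} {x y z : U} (h : y ∈ Pq L A x) (h' : z ∈ Pq L A y) :
    z ∈ Pq L A x :=
  fun Q hQ => (h Q hQ).trans (h' Q hQ)

theorem SMQ_rep (A : Set U) : ∃ rep : U → U, (∀ x, x ∈ Pq L A (rep x)) ∧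
    ∀ x y, y ∈ Pq L A x → rep y = rep x := by
  let S : Setoid U :=
    { r := fun x y => y ∈ Pq L A x
      iseqv := ⟨fun x => SMQ_self A x, fun h => SMQ_symm h, fun h h' => SMQ_trans h h'⟩ }
  refine ⟨fun x => (Quotient.mk S x).out, fun x => ?_, fun x y hy => ?_⟩
  · have h := Quotient.mk_out (s := S) x
    exact h
  · have h : (Quotient.mk S y) = Quotient.mk S x :=
      Quotient.sound (s := S) (SMQ_symm hy)
    change (Quotient.mk S y).out = (Quotient.mk S x).out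
    rw [h]

theorem SMQ_glue {A M M' : Set U} (hA : A.Finite)
    (hB : ∀ x, Bq L A (Pq L A x))
    (h1 : ∀ (n : ℕ) (Q : Fin n → Set U), (∀ i, Bq L A (Q i)) →
      (∀ i j, i ≠ j → Disjoint (Q i) (Q j)) → ∀ g : Fin n → (U ≃[L] U), (∀ i, Nx L A (g i)) →
      ∃ h : U ≃[L] U, Nx L A h ∧ (∀ i, ∀ x ∈ Q i, h x = g i x))
    (h : ∀ z, SmN L A (M ∩ Pq L A z) (M' ∩ Pq L A z)) : SmN L A M M' := by
  classical
  obtain ⟨rep, hr1, hr2⟩ := SMQ_rep (L := L) A
  have hrr : ∀ x, rep (rep x) = rep x := fun x => (hr2 (rep x) x (hr1 x)).symm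
  choose E hE using h
  let F : U → U → U := fun z x =>
    if hx : x ∈ M ∩ Pq L A z then (E z ⟨x, hx⟩ : U) else x
  let G : U → U → U := fun z y =>
    if hy : y ∈ M' ∩ Pq L A z then ((E z).symm ⟨y, hy⟩ : U) else y
  have hF : ∀ z x (hx : x ∈ M ∩ Pq L A z), F z x = (E z ⟨x, hx⟩ : U) :=
    fun z x hx => dif_pos hx
  have hG : ∀ z y (hy : y ∈ M' ∩ Pq L A z), G z y = ((E z).symm ⟨y, hy⟩ : U) :=
    fun z y hy => dif_pos hy
  have hF1 : ∀ z x, x ∈ M ∩ Pq L A z → F z x ∈ M' ∩ Pq L A z := fun z x hx => by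
    rw [hF z x hx]
    exact (E z ⟨x, hx⟩).2
  have hG1 : ∀ z y, y ∈ M' ∩ Pq L A z → G z y ∈ M ∩ Pq L A z := fun z y hy => by
    rw [hG z y hy]
    exact ((E z).symm ⟨y, hy⟩).2
  have hGF : ∀ z x, x ∈ M ∩ Pq L A z → G z (F z x) = x := fun z x hx => by
    rw [hG z _ (hF1 z x hx)]
    have : (⟨F z x, hF1 z x hx⟩ : (M' ∩ Pq L A z : Set U)) = E z ⟨x, hx⟩ :=
      Subtype.ext (hF z x hx)
    rw [this, Equiv.symm_apply_apply]
  have hFG : ∀ z y, y ∈ M' ∩ Pq L A z → F z (G z y) = y := fun z y hy => by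
    rw [hF z _ (hG1 z y hy)]
    have : (⟨G z y, hG1 z y hy⟩ : (M ∩ Pq L A z : Set U)) = (E z).symm ⟨y, hy⟩ :=
      Subtype.ext (hG z y hy)
    rw [this, Equiv.apply_symm_apply]
  have hrF : ∀ x, x ∈ M → rep (F (rep x) x) = rep x := fun x hx => by
    rw [hr2 (rep x) _ (hF1 (rep x) x ⟨hx, hr1 x⟩).2, hrr]
  have hrG : ∀ y, y ∈ M' → rep (G (rep y) y) = rep y := fun y hy => by
    rw [hr2 (rep y) _ (hG1 (rep y) y ⟨hy, hr1 y⟩).2, hrr]
  let e : M ≃ M' :=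
    { toFun := fun x => ⟨F (rep x) x, (hF1 (rep x) x ⟨x.2, hr1 x⟩).1⟩
      invFun := fun y => ⟨G (rep y) y, (hG1 (rep y) y ⟨y.2, hr1 y⟩).1⟩
      left_inv := fun x => Subtype.ext (by
        change G (rep (F (rep (x : U)) x)) (F (rep (x : U)) x) = x
        rw [hrF x x.2]
        exact hGF _ _ ⟨x.2, hr1 x⟩)
      right_inv := fun y => Subtype.ext (by
        change F (rep (G (rep (y : U)) y)) (G (rep (y : U)) y) = y
        rw [hrG y y.2]
        exact hFG _ _ ⟨y.2, hr1 y⟩) }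
  refine ⟨e, fun s hs => ?_⟩
  have hT : ((fun x : M => rep x) '' s).Finite := hs.image _
  obtain ⟨n, t, htinj, ht⟩ := hT.fin_param
  have htr : ∀ i, rep (t i) = t i := fun i => by
    have hi : t i ∈ (fun x : M => rep x) '' s := ht ▸ mem_range_self i
    obtain ⟨x, -, hx⟩ := hi
    have hx' : rep (x : U) = t i := hx
    rw [← hx', hrr]
  have hdis : ∀ i j, i ≠ j → Disjoint (Pq L A (t i)) (Pq L A (t j)) := by
    intro i j hij
    rw [Set.disjoint_left]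
    intro y hi hj
    apply hij
    apply htinj
    rw [← htr i, ← htr j, ← hr2 _ _ hi, ← hr2 _ _ hj]
  have hg : ∀ i, ∃ g : U ≃[L] U, Nx L A g ∧ ∀ x ∈ s, rep (x : U) = t i →
      g x = F (t i) x := by
    intro i
    let si : Set (M ∩ Pq L A (t i) : Set U) := {x | (⟨x, x.2.1⟩ : M) ∈ s}
    have hsi : si.Finite := by
      refine Set.Finite.preimage (f := fun x : (M ∩ Pq L A (t i) : Set U) =>
        (⟨x, x.2.1⟩ : M)) ?_ hs
      intro x _ y _ hxy
      exact Subtype.ext (congrArg (fun z : M => (z : U)) hxy)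
    obtain ⟨g, hg1, hg2⟩ := hE (t i) si hsi
    refine ⟨g, hg1, fun x hx hxi => ?_⟩
    have hx2 : (x : U) ∈ M ∩ Pq L A (t i) := ⟨x.2, hxi ▸ hr1 x⟩
    rw [hF _ _ hx2]
    exact hg2 ⟨x, hx2⟩ hx
  choose g hg1 hg2 using hg
  obtain ⟨k, hk1, hk2⟩ := h1 n (fun i => Pq L A (t i)) (fun i => hB (t i)) hdis g hg1
  refine ⟨k, hk1, fun x hx => ?_⟩
  have hxT : rep (x : U) ∈ range t := ht ▸ mem_image_of_mem _ hx
  obtain ⟨i, hi⟩ := hxT
  rw [hk2 i x (hi ▸ hr1 x), hg2 i x hx hi.symm]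
  change F (t i) x = F (rep (x : U)) x
  rw [hi]

theorem SMQ_glueQ {A Q M M' : Set U} (hA : A.Finite) (hQ : Bq L A Q)
    (hB : ∀ x, Bq L A (Pq L A x))
    (h1 : ∀ (n : ℕ) (Q : Fin n → Set U), (∀ i, Bq L A (Q i)) →
      (∀ i j, i ≠ j → Disjoint (Q i) (Q j)) → ∀ g : Fin n → (U ≃[L] U), (∀ i, Nx L A (g i)) →
      ∃ h : U ≃[L] U, Nx L A h ∧ (∀ i, ∀ x ∈ Q i, h x = g i x))
    (h : ∀ z ∈ Q, SmN L A (M ∩ Pq L A z) (M' ∩ Pq L A z)) :
    SmN L A (M ∩ Q) (M' ∩ Q) := by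
  refine SMQ_glue hA hB h1 fun z => ?_
  by_cases hz : z ∈ Q
  · have h3 : ∀ N : Set U, N ∩ Q ∩ Pq L A z = N ∩ Pq L A z := by
      intro N
      ext x
      exact ⟨fun hx => ⟨hx.1.1, hx.2⟩, fun hx => ⟨⟨hx.1, (hx.2 Q hQ).1 hz⟩, hx.2⟩⟩
    rw [h3, h3]
    exact h z hz
  · have h3 : ∀ N : Set U, N ∩ Q ∩ Pq L A z = ∅ := by
      intro N
      ext x
      refine ⟨fun hx => ?_, fun hx => hx.elim⟩
      exact hz ((hx.2 Q hQ).2 hx.1.2)
    rw [h3, h3]
    exact Pool.Agent.MNO.SMNP.sn_refl A ∅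

/-- `Sm` transfers elementary submodels -/
theorem SMQ_el (hM : Mon L U) {A X Y : Set U} (hAX : A ⊆ X) (h : Sm L A X Y) (hX : IsEl L X) :
    Md L A Y := by
  obtain ⟨e, he⟩ := h
  constructor
  · intro s hs hn
    obtain ⟨C', hC', hCY, hCs⟩ := exists_fin_def hs
    -- pull back the parameters
    let T : Set Y := {y | (y : U) ∈ C'}
    have hT : T.Finite := by
      refine Set.Finite.preimage (f := fun y : Y => (y : U)) ?_ hC'
      intro x _ y _ hxy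
      exact Subtype.ext hxy
    let C : Set X := e.symm '' T
    have hC : C.Finite := hT.image _
    obtain ⟨g, -, hg⟩ := he C hC
    have hC2 : g '' ((fun x : X => (x : U)) '' C) = C' := by
      ext y
      constructor
      · rintro ⟨_, ⟨x, ⟨y', hy', rfl⟩, rfl⟩, rfl⟩
        have h2 := hg (e.symm y') (mem_image_of_mem _ hy')
        rw [e.apply_symm_apply] at h2
        change g ((e.symm y' : X) : U) ∈ C'
        rw [h2]
        exact hy'
      · intro hy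
        have hy' : (⟨y, hCY hy⟩ : Y) ∈ T := hy
        refine ⟨(e.symm ⟨y, hCY hy⟩ : X), ⟨_, mem_image_of_mem _ hy', rfl⟩, ?_⟩
        have h2 := hg _ (mem_image_of_mem e.symm hy')
        rw [e.apply_symm_apply] at h2
        exact h2
    have hsX : ((fun x : X => (x : U)) '' C).Definable₁ L (g.symm '' s) := by
      have h2 := def_img hM g.symm hCs
      rw [← hC2, img_symm_img] at h2
      exact h2
    have hsub : ((fun x : X => (x : U)) '' C) ⊆ X := by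
      rintro _ ⟨x, -, rfl⟩
      exact x.2
    obtain ⟨x, hx, hxX⟩ := hX (g.symm '' s) (Pool.Agent.PMC.def_mono hsub hsX) (hn.image _)
    obtain ⟨g', -, hg'⟩ := he (insert ⟨x, hxX⟩ C) (hC.insert _)
    refine ⟨(e ⟨x, hxX⟩ : Y), ?_, (e ⟨x, hxX⟩ : Y).2⟩
    rw [← hg' ⟨x, hxX⟩ (mem_insert _ _)]
    -- `g'` and `g` agree on `C`
    have hfx : Fx L C' (g'.comp g.symm) := by
      intro c hc
      rw [← hC2] at hc
      obtain ⟨_, ⟨x', hx', rfl⟩, rfl⟩ := hc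
      rw [comp_apply']
      change g' (g.symm (g (x' : U))) = g (x' : U)
      rw [g.symm_apply_apply, hg' x' (mem_insert_of_mem _ hx'), hg x' hx']
    obtain ⟨z, hz, hzx⟩ := hx
    have h3 := (Pool.Agent.PMC.def_mem hCs hfx z).2 hz
    rw [comp_apply', hzx] at h3
    exact h3
  · intro a ha
    obtain ⟨g, hg, hga⟩ := he {⟨a, hAX ha⟩} (finite_singleton _)
    have h2 := hga ⟨a, hAX ha⟩ rfl
    have h3 : g a = a := hg a ha
    have h4 : (e ⟨a, hAX ha⟩ : U) = a := by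
      rw [← h2]
      exact h3
    rw [← h4]
    exact (e ⟨a, hAX ha⟩).2

end

/-- [SMQ] -/
theorem thm_SMQ : St_SMQ := by
  intro hGLQ hALQ hOFQ hBND L U _ hM
  refine ⟨fun A X => Pool.Agent.MNO.SMNP.sn_refl A X, fun A X Y h => Pool.Agent.MNO.SMNP.sn_symm h,
    fun A X Y Z h h' => Pool.Agent.MNO.SMNP.sn_trans h h',
    fun A X Y Q hQ h => Pool.Agent.MNO.SMB.sm_inter hQ h,
    fun A B X Y hAB h => Pool.Agent.MNO.SMNP.sn_mono hAB h,
    fun A Q M M' hA hQ h => ?_,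
    fun X Y h => Pool.Agent.MNO.SMB.isoM_of_sm h,
    fun A X Y hA hAX h hX => SMQ_el hM hAX h hX,
    fun A X Y Z h => ⟨Pool.Agent.PMC.SMB.sm_symm h, fun h' => Pool.Agent.PMC.SMB.sm_trans h h'⟩⟩
  obtain ⟨-, -, -, -, h5, -⟩ := hALQ hOFQ hBND L U hM A hA
  refine SMQ_glueQ hA hQ (fun x => (h5 x).1) ?_ h
  intro n Q hQ hd g hg
  obtain ⟨k, hk1, hk2, -⟩ := hGLQ L U hM A hA n Q hQ hd g hg
  exact ⟨k, hk1, hk2⟩

end Pool.Agent.TPC
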