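import Pool.Agent.TPC.StE
import Pool.Agent.TPC.ALQ
import Pool.Agent.TPC.OFQ
import Pool.Agent.TPC.BND
import Pool.Agent.TPC.GLQ
import Pool.Agent.TPC.SMQ

/-!
TPC, [CPT]: assembling countably many parts (helper99).
-/

set_option autoImplicit false
set_option linter.unusedVariables false

namespace Pool.Agent.TPC

open FirstOrder.Language Set
open scoped FirstOrder
open Pool.Agent.WOM (tp Mon IsEl IsoM CtU Fx Orb Isd)
open Pool.Agent.PMC (Sm Md NPf)
open Pool.Agent.MNO (Dp FE Sq Nx SmN FE1 FinN)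

private theorem CPT_univ {L : FirstOrder.Language.{0, 0}} {U : Type} [L.Structure U] (A : Set U) :
    Md L A univ := by
  refine ⟨fun s _ hs => ?_, subset_univ A⟩
  rw [inter_univ]
  exact hs

/-- a countable family of properties of models which are realised by similar models -/
private theorem CPT_count {L : FirstOrder.Language.{0, 0}} {U : Type} [L.Structure U] {A Q : Set U}
    {ι : Type} [Countable ι] [Nonempty ι] (T : ι → Set U → Prop)
    (h1 : ∀ M, Md L A M → ∃ i, T i M)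
    (h2 : ∀ i M M', Md L A M → Md L A M' → T i M → T i M' → SmN L A (M ∩ Q) (M' ∩ Q)) :
    Cpt L A Q := by
  classical
  obtain ⟨e, he⟩ := exists_surjective_nat ι
  refine ⟨fun n => if h : ∃ M, Md L A M ∧ T (e n) M then h.choose else univ, fun n => ?_,
    fun M hM => ?_⟩
  · show Md L A (if h : ∃ M, Md L A M ∧ T (e n) M then h.choose else univ)
    split_ifs with h
    · exact h.choose_spec.1
    · exact CPT_univ A
  · obtain ⟨i, hi⟩ := h1 M hM
    obtain ⟨n, rfl⟩ := he i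
    have h : ∃ M, Md L A M ∧ T (e n) M := ⟨M, hM, hi⟩
    refine ⟨n, ?_⟩
    show SmN L A (M ∩ Q) ((if h : ∃ M, Md L A M ∧ T (e n) M then h.choose else univ) ∩ Q)
    rw [dif_pos h]
    exact h2 (e n) M _ hM h.choose_spec.1 hi h.choose_spec.2

/-- [CPT] -/
theorem thm_CPT : St_CPT := by
  classical
  intro L U _ hM A Q hA
  obtain ⟨s1, s2, s3, s4, s5, s6, -, -, -⟩ := thm_SMQ thm_GLQ thm_ALQ thm_OFQ thm_BND L U hM
  obtain ⟨-, -, -, -, -, a6, -, -, -, -⟩ := thm_ALQ thm_OFQ thm_BND L U hM A hA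
  have : Countable U := hM.ctb
  refine ⟨?_, ?_, ?_, ?_⟩
  · rintro E ⟨c, hc, hc'⟩ hQE hQ
    refine ⟨c, hc, fun M hMd => ?_⟩
    obtain ⟨n, hn⟩ := hc' M hMd
    refine ⟨n, ?_⟩
    have h := s4 A _ _ Q hQ hn
    rwa [inter_assoc, inter_assoc, inter_eq_right.2 hQE] at h
  · rintro x rfl
    refine CPT_count (ι := Bool) (fun b M => (b = true ↔ x ∈ M)) (fun M _ => ?_)
      fun b M M' _ _ h h' => ?_
    · by_cases hx : x ∈ M
      · exact ⟨true, by simp [hx]⟩
      · exact ⟨false, by simp [hx]⟩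
    · have e : M ∩ {x} = M' ∩ {x} := by
        ext y
        constructor
        · rintro ⟨hy, hyx⟩
          rw [mem_singleton_iff] at hyx
          subst hyx
          exact ⟨h'.1 (h.2 hy), rfl⟩
        · rintro ⟨hy, hyx⟩
          rw [mem_singleton_iff] at hyx
          subst hyx
          exact ⟨h.1 (h'.2 hy), rfl⟩
      rw [e]
      exact s1 A _
  · intro hBq hfin hz
    let N : Set (Set U) := {P : Set U | ∃ z, P = Pq L A z ∧ ∃ M, Md L A M ∧ ¬ SmN L A (M ∩ P) P}
    have hN : N.Finite := hfin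
    have : Finite N := hN
    have key : ∀ P : Set U, ∃ c : ℕ → Set U, P ∈ N → P ⊆ Q →
        ∀ M, Md L A M → ∃ n, SmN L A (M ∩ P) (c n ∩ P) := by
      intro P
      by_cases hP : P ∈ N ∧ P ⊆ Q
      · obtain ⟨⟨z, rfl, M, hMd, hns⟩, hPQ⟩ := hP
        have hzQ : z ∈ Q := hPQ (SMQ_self A z)
        rcases hz z hzQ with h | ⟨c, -, hc⟩
        · exact absurd (h M hMd) hns
        · exact ⟨c, fun _ _ => hc⟩
      · exact ⟨fun _ => univ, fun h h' => absurd ⟨h, h'⟩ hP⟩
    choose C hC using key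
    refine CPT_count (ι := N → ℕ)
      (fun f M => ∀ P : N, (P : Set U) ⊆ Q → SmN L A (M ∩ P) (C P (f P) ∩ P)) (fun M hMd => ?_)
      fun f M M' hMd hMd' h h' => ?_
    · have h : ∀ P : N, ∃ n, (P : Set U) ⊆ Q → SmN L A (M ∩ P) (C P n ∩ P) := by
        intro P
        by_cases hPQ : (P : Set U) ⊆ Q
        · obtain ⟨n, hn⟩ := hC P P.2 hPQ M hMd
          exact ⟨n, fun _ => hn⟩
        · exact ⟨0, fun h => absurd h hPQ⟩
      choose f hf using h
      exact ⟨f, hf⟩
    · refine s6 A Q M M' hA hBq fun z hzQ => ?_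
      have hPQ : Pq L A z ⊆ Q := a6 z Q hBq hzQ
      by_cases hP : Pq L A z ∈ N
      · exact s3 A _ _ _ (h ⟨_, hP⟩ hPQ) (s2 A _ _ (h' ⟨_, hP⟩ hPQ))
      · have hr : ∀ M, Md L A M → SmN L A (M ∩ Pq L A z) (Pq L A z) := by
          intro M hMd
          by_contra hns
          exact hP ⟨z, rfl, M, hMd, hns⟩
        exact s3 A _ _ _ (hr M hMd) (s2 A _ _ (hr M' hMd'))
  · intro h
    have key : ∀ y : U, ∃ c : ℕ → Set U, y ∈ Q → ∀ M, Md L (insert y A) M →
        ∃ n, SmN L (insert y A) (M ∩ Q) (c n ∩ Q) := by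
      intro y
      by_cases hy : y ∈ Q
      · obtain ⟨c, -, hc⟩ := h y hy
        exact ⟨c, fun _ => hc⟩
      · exact ⟨fun _ => univ, fun h => absurd h hy⟩
    choose C hC using key
    refine CPT_count (ι := Option (U × ℕ)) (fun t M => match t with
      | none => M ∩ Q = ∅
      | some (y, n) => SmN L (insert y A) (M ∩ Q) (C y n ∩ Q)) (fun M hMd => ?_)
      fun t M M' _ _ h h' => ?_
    · by_cases hne : (M ∩ Q).Nonempty
      · obtain ⟨y, hyM, hyQ⟩ := hne
        obtain ⟨n, hn⟩ := hC y hyQ M ⟨hMd.1, insert_subset hyM hMd.2⟩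
        exact ⟨some (y, n), hn⟩
      · exact ⟨none, not_nonempty_iff_eq_empty.1 hne⟩
    · rcases t with _ | ⟨y, n⟩
      · rw [show M ∩ Q = ∅ from h, show M' ∩ Q = ∅ from h']
        exact s1 A _
      · have h3 : SmN L (insert y A) (M ∩ Q) (M' ∩ Q) := s3 _ _ _ _ h (s2 _ _ _ h')
        exact (s5 A (insert y A) _ _ (subset_insert y A) h3).1

end Pool.Agent.TPC
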