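import Pool.Agent.TPC.StE

/-!
TPC: [EMB] elementary maps of `U` into `U` (helper87).
-/

set_option autoImplicit false
set_option linter.unusedVariables false

namespace Pool.Agent.TPC

open FirstOrder.Language Set
open scoped FirstOrder
open Pool.Agent.WOM (tp Mon IsEl IsoM CtU Fx Orb Isd)
open Pool.Agent.PMC (Sm Md NPf fx_symm fx_comp fx_mono comp_apply' conj_of_def isEl_of_orb)
open Pool.Agent.MNO (Dp FE Sq Nx SmN FE1 FinN dp_sub dp_mono dp_ball dp_ex dp_par dp_sat dp_fam0
  dp_eqc dp_of_def1 exists_enum dp_congr)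

section

variable {L : FirstOrder.Language.{0, 0}} {U : Type} [L.Structure U]

/-- `Emb` for finite index types -/
private theorem EMB_fin {B : Set U} {j : U → U} (h : Emb L B j) {α : Type} [Finite α]
    {P : (α → U) → Prop} (hP : Dp L B P) (a : α → U) : P (fun i => j (a i)) ↔ P a := by
  obtain ⟨n, ⟨e⟩⟩ := Finite.exists_equiv_fin α
  have h1 := h n (fun v => P (fun i => v (e i))) (dp_sub hP e) (fun i => a (e.symm i))
  have h2 : (fun i => j (a (e.symm (e i)))) = fun i => j (a i) := by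
    funext i
    rw [e.symm_apply_apply]
  have h3 : (fun i => a (e.symm (e i))) = a := by
    funext i
    rw [e.symm_apply_apply]
  dsimp only at h1
  rw [h2, h3] at h1
  exact h1

private theorem EMB_fix {B : Set U} {j : U → U} (h : Emb L B j) {b : U} (hb : b ∈ B) :
    j b = b :=
  (EMB_fin h (dp_eqc (L := L) (A := B) () hb) (fun _ => b)).2 rfl

private theorem EMB_orb (hM : Mon L U) {B : Set U} {j : U → U} (hB : B.Finite) (h : Emb L B j)
    {C : Set U} (hC : C.Finite) (hCj : C ⊆ range j) (x : U) : ∃ y ∈ range j, y ∈ Orb L C x := by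
  obtain ⟨n, c', hc'⟩ := exists_enum hC
  have h1 : ∀ i, ∃ c, j c = c' i := fun i => hCj (hc' ▸ mem_range_self i)
  choose c hc using h1
  have hcc : (fun i => j (c i)) = c' := funext hc
  have hfam : ∀ G : Set ((Fin n ⊕ Unit → U) → Prop), G.Finite →
      (∀ P ∈ G, Dp L (∅ : Set U) P ∧ P (Sum.elim c' (fun _ => x))) →
      ∃ v : Unit → U, ∀ P ∈ G, P (Sum.elim c v) := by
    intro G hG hG'
    have h2 : Dp L (∅ : Set U) (fun w : Fin n ⊕ Unit → U => ∀ P ∈ G, P w) :=
      dp_ball hG fun P hP => (hG' P hP).1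
    have h3 : Dp L B (fun w : Fin n → U => ∃ v : Unit → U, ∀ P ∈ G, P (Sum.elim w v)) :=
      dp_mono (empty_subset _) (dp_ex h2)
    have h4 := (EMB_fin h h3 c).1
    rw [hcc] at h4
    exact h4 ⟨fun _ => x, fun P hP => (hG' P hP).2⟩
  obtain ⟨v, hv⟩ := dp_sat hM (hB.union (finite_range c))
    (F := {R : (Unit → U) → Prop | ∃ P : (Fin n ⊕ Unit → U) → Prop, Dp L (∅ : Set U) P ∧
      P (Sum.elim c' (fun _ => x)) ∧ R = fun v => P (Sum.elim c v)}) (by
    rintro R ⟨P, hP, -, rfl⟩
    have h2 : Dp L (B ∪ range c) (fun w : Unit ⊕ Fin n → U => P (fun i => w (Sum.swap i))) :=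
      dp_mono (empty_subset _) (dp_sub hP Sum.swap)
    have h3 := dp_par h2 c fun i => Or.inr (mem_range_self i)
    refine dp_congr h3 fun v => ?_
    apply iff_of_eq
    congr 1
    funext i
    rcases i with i | i <;> rfl) (by
    intro G hG hfin
    have h2 : ∀ R : (Unit → U) → Prop, ∃ P : (Fin n ⊕ Unit → U) → Prop, R ∈ G →
        (Dp L (∅ : Set U) P ∧ P (Sum.elim c' (fun _ => x))) ∧ R = fun v => P (Sum.elim c v) := by
      intro R
      by_cases hR : R ∈ G
      · obtain ⟨P, hP1, hP2, hP3⟩ := hG hR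
        exact ⟨P, fun _ => ⟨⟨hP1, hP2⟩, hP3⟩⟩
      · exact ⟨fun _ => True, fun h => absurd h hR⟩
    choose p hp using h2
    obtain ⟨v, hv⟩ := hfam (p '' G) (hfin.image p) (by
      rintro _ ⟨R, hR, rfl⟩
      exact (hp R hR).1)
    refine ⟨v, fun R hR => ?_⟩
    rw [(hp R hR).2]
    exact hv _ (mem_image_of_mem p hR))
  refine ⟨j (v ()), mem_range_self _, ?_⟩
  refine conj_of_def hM hC fun s hs hx => ?_
  have hs' : Dp L (range c') (fun w : Unit → U => w () ∈ s) := by
    rw [hc']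
    exact dp_of_def1 hs
  obtain ⟨Q, hQ, hQ'⟩ := dp_fam0 hs'
  have h2 : Q (Sum.elim (fun _ => x) c') := (hQ' (fun _ => x)).1 hx
  have h3 : Q (Sum.elim v c) := by
    have h4 := hv (fun w => Q (fun i => (Sum.elim c w) (Sum.swap i)))
      ⟨fun w => Q (fun i => w (Sum.swap i)), dp_sub hQ Sum.swap, by
        have e1 : (fun i : Unit ⊕ Fin n => (Sum.elim c' (fun _ : Unit => x)) (Sum.swap i)) =
            Sum.elim (fun _ => x) c' := by
          funext i
          rcases i with i | i <;> rfl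
        show Q (fun i : Unit ⊕ Fin n => (Sum.elim c' (fun _ : Unit => x)) (Sum.swap i))
        rw [e1]
        exact h2, rfl⟩
    have e1 : (fun i : Unit ⊕ Fin n => (Sum.elim c v) (Sum.swap i)) = Sum.elim v c := by
      funext i
      rcases i with i | i <;> rfl
    rw [e1] at h4
    exact h4
  have h4 := (EMB_fin h (dp_mono (empty_subset B) hQ) (Sum.elim v c)).2 h3
  have e2 : (fun i : Unit ⊕ Fin n => j ((Sum.elim v c) i)) = Sum.elim (fun _ => j (v ())) c' := by
    funext i
    rcases i with i | i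
    · rfl
    · exact hc i
  rw [e2] at h4
  exact (hQ' (fun _ => j (v ()))).2 h4

end

/-- [EMB] -/
theorem thm_EMB : St_EMB := by
  intro L U _ hM B j hB h
  have hfix : ∀ b ∈ B, j b = b := fun b hb => EMB_fix h hb
  have hBj : B ⊆ range j := fun b hb => ⟨b, hfix b hb⟩
  refine ⟨hfix, ⟨⟨?_, hBj⟩, fun C hC hCj x => EMB_orb hM hB h hC hCj x⟩, ?_⟩
  · exact isEl_of_orb hM finite_empty (empty_subset _) fun C hC _ hCj x _ =>
      EMB_orb hM hB h hC hCj x
  · intro A hAB F hF x y
    have h1 := EMB_fin h (dp_mono hAB hF.dfn)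
      (Sum.elim (fun _ : Fin 1 => x) (fun _ : Fin 1 => y))
    exact h1

end Pool.Agent.TPC
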