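import Pool.Agent.TPC.HQS

/-!
TPC, module FCP (helper26): finitely many pieces meet an orbit.
-/

set_option autoImplicit false
set_option linter.unusedVariables false

namespace Pool.Agent.TPC

open FirstOrder.Language Set
open scoped FirstOrder
open Pool.Agent.WOM (tp Mon IsEl IsoM CtU Fx Orb Isd)
open Pool.Agent.PMC (Sm Md NPf fx_refl fx_symm fx_comp fx_mono mem_orb sat_fam conj_of_def def_mono
  def_compl def_img img_symm_img isEl_of_orb)
open Pool.Agent.MNO (Dp FE Sq Nx SmN FE1 FinN nx_fx nx_symm nx_comp nx_mono nx_meets)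

section

variable {L : FirstOrder.Language.{0, 0}} {U : Type} [L.Structure U]

/-- images of elementary submodels -/
theorem FCP_md (hM : Mon L U) {A M : Set U} (hMd : Md L A M) {g : U ≃[L] U} (hg : Fx L A g) :
    Md L A (g '' M) := by
  refine ⟨fun s hs hn => ?_, fun a ha => ⟨a, hMd.2 ha, hg a ha⟩⟩
  have h1 := def_img hM g.symm hs
  rw [img_symm_img] at h1
  obtain ⟨z, ⟨w, hw, rfl⟩, hz'⟩ := hMd.1 _ h1 (hn.image _)
  exact ⟨w, hw, g.symm w, hz', g.apply_symm_apply w⟩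

/-- gluing on a union of pieces -/
theorem FCP_glu {A B P : Set U} (hb : Bq L A P) {k : U ≃[L] U} (hk : Nx L A k)
    (hfix : ∀ b ∈ B, b ∈ P → k b = b) {u : U} (hu : u ∈ P) :
    ∃ k' : U ≃[L] U, Nx L A k' ∧ Fx L B k' ∧ k' u = k u := by
  obtain ⟨k', hk', h1, h2⟩ := hb.glu k hk
  refine ⟨k', hk', fun b hb' => ?_, h1 u hu⟩
  by_cases hbP : b ∈ P
  · rw [h1 b hbP]
    exact hfix b hb' hbP
  · exact h2 b hbP

/-- the data -/
structure FCP_D (A : Set U) (x y : U) (h : ℕ → U → U → Prop) (s : ℕ → U) (l : ℕ → ℕ) (M : Set U)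
    (t : ℕ → (U ≃[L] U)) : Prop where
  fin : A.Finite
  eqv : ∀ n, Equivalence (h n)
  dec : ∀ n u v, h (n + 1) u v → h n u v
  inv : ∀ n u v, ∀ g : U ≃[L] U, Fx L A g → (h n (g u) (g v) ↔ h n u v)
  pc : ∀ n, ∀ u ∈ Orb L A x, ∀ v ∈ Orb L A x, v ∈ Pq L A u → h n u v
  mono : StrictMono l
  sk : ∀ k, s k ∈ Orb L A x ∧ h (l k) x (s k) ∧ ¬ h (l (k + 1)) x (s k)
  y1 : y ∈ Orb L A x
  y2 : y ∈ Pq L A x
  md : Md L (insert x A) M
  mis : ∀ v ∈ M, v ∉ Orb L (insert x A) y
  tf : ∀ k, Fx L A (t k)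
  tx : ∀ k, t k x = s k

/-- the point `s k` or `x` -/
def FCP_pt (x : U) (s : ℕ → U) : Option ℕ → U
  | none => x
  | some k => s k

/-- the automorphism `t k` or the identity -/
def FCP_tt (t : ℕ → (U ≃[L] U)) : Option ℕ → (U ≃[L] U)
  | none => FirstOrder.Language.Equiv.refl L U
  | some k => t k

/-- `i` is before `o` -/
def FCP_gt (i : ℕ) (o : Option ℕ) : Prop := ∀ j, o = some j → i < j

theorem FCP_tri {o o' : Option ℕ} (h : o ≠ o') :
    (∃ i, o = some i ∧ FCP_gt i o') ∨ ∃ i, o' = some i ∧ FCP_gt i o := by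
  rcases o with _ | i
  · rcases o' with _ | j
    · exact absurd rfl h
    · exact Or.inr ⟨j, rfl, fun k hk => absurd hk (by simp)⟩
  · rcases o' with _ | j
    · exact Or.inl ⟨i, rfl, fun k hk => absurd hk (by simp)⟩
    · rcases lt_trichotomy i j with h1 | h1 | h1
      · refine Or.inl ⟨i, rfl, fun k hk => ?_⟩
        rw [← Option.some.inj hk]
        exact h1
      · exact absurd (congrArg some h1) h
      · refine Or.inr ⟨j, rfl, fun k hk => ?_⟩
        rw [← Option.some.inj hk]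
        exact h1

variable {A : Set U} {x y : U} {h : ℕ → U → U → Prop} {s : ℕ → U} {l : ℕ → ℕ} {M : Set U}
  {t : ℕ → (U ≃[L] U)}

theorem FCP_dec (D : FCP_D A x y h s l M t) {m n : ℕ} (hmn : m ≤ n) {u v : U} (huv : h n u v) :
    h m u v := by
  induction n, hmn using Nat.le_induction with
  | base => exact huv
  | succ n _ ih => exact ih (D.dec n u v huv)

theorem FCP_orb (D : FCP_D A x y h s l M t) (o : Option ℕ) : FCP_pt x s o ∈ Orb L A x := by
  rcases o with _ | k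
  · exact mem_orb A x
  · exact (D.sk k).1

theorem FCP_fx (D : FCP_D A x y h s l M t) (o : Option ℕ) : Fx L A (FCP_tt t o) := by
  rcases o with _ | k
  · exact fx_refl A
  · exact D.tf k

theorem FCP_tx (D : FCP_D A x y h s l M t) (o : Option ℕ) : FCP_tt t o x = FCP_pt x s o := by
  rcases o with _ | k
  · rfl
  · exact D.tx k

theorem FCP_near (D : FCP_D A x y h s l M t) {i : ℕ} {o : Option ℕ} (hgt : FCP_gt i o) :
    h (l (i + 1)) x (FCP_pt x s o) := by
  rcases o with _ | k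
  · exact (D.eqv _).refl x
  · exact FCP_dec D (D.mono.monotone (hgt k rfl)) (D.sk k).2.1

theorem FCP_f2 (D : FCP_D A x y h s l M t) {i : ℕ} {o : Option ℕ} (hgt : FCP_gt i o) {v v' : U}
    (hv : v ∈ Orb L A x) (hv' : v' ∈ Orb L A x) (h1 : v ∈ Pq L A (s i))
    (h2 : v' ∈ Pq L A (FCP_pt x s o)) : h (l i) v v' ∧ ¬ h (l (i + 1)) v v' := by
  have h3 : ∀ n, h n (s i) v := fun n => D.pc n _ (D.sk i).1 _ hv h1
  have h4 : ∀ n, h n (FCP_pt x s o) v' := fun n => D.pc n _ (FCP_orb D o) _ hv' h2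
  have h5 := FCP_near D hgt
  have h6 : h (l i) x (FCP_pt x s o) := FCP_dec D (D.mono.monotone (Nat.le_succ i)) h5
  constructor
  · have e := D.eqv (l i)
    exact e.trans (e.symm (h3 _)) (e.trans (e.symm (D.sk i).2.1) (e.trans h6 (h4 _)))
  · intro h7
    have e := D.eqv (l (i + 1))
    exact (D.sk i).2.2 (e.trans h5 (e.trans (h4 _) (e.trans (e.symm h7) (e.symm (h3 _)))))

theorem FCP_disj (D : FCP_D A x y h s l M t) {o o' : Option ℕ} {v : U}
    (h1 : v ∈ Pq L A (FCP_pt x s o)) (h2 : v ∈ Pq L A (FCP_pt x s o')) : o = o' := by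
  by_contra hne
  have h3 : Pq L A (FCP_pt x s o) = Pq L A (FCP_pt x s o') := by
    rw [← CLQ_pq h1, ← CLQ_pq h2]
  rcases FCP_tri hne with ⟨i, rfl, hgt⟩ | ⟨i, rfl, hgt⟩
  · have h4 : FCP_pt x s o' ∈ Pq L A (s i) := by
      change FCP_pt x s o' ∈ Pq L A (FCP_pt x s (some i))
      rw [h3]
      exact CLQ_self A _
    exact (FCP_f2 D hgt (FCP_orb D o') (FCP_orb D o') h4 (CLQ_self A _)).2 ((D.eqv _).refl _)
  · have h4 : FCP_pt x s o ∈ Pq L A (s i) := by
      change FCP_pt x s o ∈ Pq L A (FCP_pt x s (some i))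
      rw [← h3]
      exact CLQ_self A _
    exact (FCP_f2 D hgt (FCP_orb D o) (FCP_orb D o) h4 (CLQ_self A _)).2 ((D.eqv _).refl _)

/-- orbits contained in the pieces of the family meet at most two of them -/
theorem FCP_clm (hI : St_IMQ) (hM : Mon L U) (D : FCP_D A x y h s l M t) {B : Set U}
    (hAB : A ⊆ B) {v : U} (hall : ∀ u ∈ Orb L B v, ∃ o, u ∈ Pq L A (FCP_pt x s o)) :
    {P : Set U | ∃ u ∈ Orb L B v, P = Pq L A u}.Finite := by
  obtain ⟨I, hI'⟩ : ∃ I : Set (Option ℕ), I = {o | ∃ u ∈ Orb L B v, u ∈ Pq L A (FCP_pt x s o)} :=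
    ⟨_, rfl⟩
  have h3 : ∀ (a b : ℕ) (o : Option ℕ), some a ∈ I → (∀ a', some a' ∈ I → a ≤ a') → some b ∈ I →
      a < b → o ∈ I → FCP_gt b o → False := by
    intro a b o ha hmin hb hab ho hgt
    rw [hI'] at ha hb ho
    obtain ⟨u, hu, hua⟩ := ha
    obtain ⟨u', hu', hub⟩ := hb
    obtain ⟨z, hz, hzo⟩ := ho
    have hu2 : u ∈ Orb L B u' := by
      rw [CLQ_orb hu']
      exact hu
    obtain ⟨g, hg, hgu⟩ := hu2
    have hgA : Fx L A g := fx_mono hAB hg
    have hgz : g z ∈ Orb L B v := (CLQ_orb_fx hg v z).2 hz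
    obtain ⟨o', ho'⟩ := hall _ hgz
    have hne : o' ≠ some a := by
      rintro rfl
      have h4 : g z ∈ Pq L A (g u') := by
        rw [hgu, CLQ_pq hua]
        exact ho'
      rw [HQS_img hI hM D.fin hgA, CLQ_pq hub] at h4
      have h5 := FCP_disj D h4 hzo
      exact absurd (hgt b h5.symm) (lt_irrefl b)
    have hgt' : FCP_gt a o' := by
      intro j hj
      have h4 : some j ∈ I := by
        rw [hI', ← hj]
        exact ⟨_, hgz, ho'⟩
      refine lt_of_le_of_ne (hmin j h4) ?_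
      rintro rfl
      exact hne hj
    have h5 : h (l (a + 1)) (s b) (FCP_pt x s o) :=
      FCP_dec D (D.mono.monotone hab) (FCP_f2 D hgt (D.sk b).1 (FCP_orb D o) (CLQ_self A _)
        (CLQ_self A _)).1
    rw [← D.inv _ _ _ g hgA] at h5
    refine (FCP_f2 D hgt' ((CLQ_orb_fx hgA x _).2 (D.sk b).1)
      ((CLQ_orb_fx hgA x _).2 (FCP_orb D o)) ?_ ?_).2 h5
    · have h6 : g (s b) ∈ Pq L A (g u') := by
        rw [HQS_img hI hM D.fin hgA]
        exact CLQ_pq_symm hub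
      rw [hgu, CLQ_pq hua] at h6
      exact h6
    · have h6 : g (FCP_pt x s o) ∈ Pq L A (g z) := by
        rw [HQS_img hI hM D.fin hgA]
        exact CLQ_pq_symm hzo
      rw [CLQ_pq ho'] at h6
      exact h6
  have hfin : I.Finite := by
    by_cases hN : ∃ a, some a ∈ I
    · classical
      obtain ⟨a, ha, hmin⟩ : ∃ a, some a ∈ I ∧ ∀ a', some a' ∈ I → a ≤ a' :=
        ⟨Nat.find hN, Nat.find_spec hN, fun a' ha' => Nat.find_min' hN ha'⟩
      by_cases hb : ∃ b, a < b ∧ some b ∈ I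
      · obtain ⟨b, ⟨hab, hbI⟩, hmin'⟩ : ∃ b, (a < b ∧ some b ∈ I) ∧
            ∀ b', a < b' ∧ some b' ∈ I → b ≤ b' :=
          ⟨Nat.find hb, Nat.find_spec hb, fun b' hb' => Nat.find_min' hb hb'⟩
        refine ((finite_singleton (some a)).union (finite_singleton (some b))).subset ?_
        intro o ho
        by_contra hcon
        rcases o with _ | c
        · exact h3 a b none ha hmin hbI hab ho (fun k hk => absurd hk (by simp))
        · refine h3 a b (some c) ha hmin hbI hab ho (fun k hk => ?_)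
          rw [← Option.some.inj hk]
          have h4 : a ≠ c := by
            rintro rfl
            exact hcon (Or.inl rfl)
          have h5 : b ≠ c := by
            rintro rfl
            exact hcon (Or.inr rfl)
          exact lt_of_le_of_ne (hmin' c ⟨lt_of_le_of_ne (hmin c ho) h4, ho⟩) h5
      · refine ((finite_singleton (some a)).union (finite_singleton (none : Option ℕ))).subset ?_
        intro o ho
        rcases o with _ | c
        · exact Or.inr rfl
        · left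
          by_contra hcon
          refine hb ⟨c, lt_of_le_of_ne (hmin c ho) ?_, ho⟩
          rintro rfl
          exact hcon rfl
    · refine (finite_singleton (none : Option ℕ)).subset ?_
      intro o ho
      rcases o with _ | c
      · rfl
      · exact absurd ⟨c, ho⟩ hN
  refine (hfin.image (fun o => Pq L A (FCP_pt x s o))).subset ?_
  rintro P ⟨u, hu, rfl⟩
  obtain ⟨o, ho⟩ := hall u hu
  refine ⟨o, ?_, (CLQ_pq ho).symm⟩
  rw [hI']
  exact ⟨u, hu, ho⟩

variable (L) in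
/-- the models -/
def FCP_X (A : Set U) (x : U) (s : ℕ → U) (M : Set U) (t : ℕ → (U ≃[L] U)) (f : ℕ → Bool) :
    Set U :=
  {v | ∀ o : Option ℕ, (∀ k, o = some k → f k = true) → v ∈ Pq L A (FCP_pt x s o) →
    v ∈ FCP_tt t o '' M}

theorem FCP_el (hSEP : St_SEP) (hC : St_CLQ) (hS : St_SEQ) (hN : St_NEA) (hF : St_FEQ)
    (hAL : St_ALQ) (hI : St_IMQ) (hO : St_OFQ) (hB0 : St_BND) (hM : Mon L U)
    (D : FCP_D A x y h s l M t) (f : ℕ → Bool) : Md L A (FCP_X L A x s M t f) := by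
  have hAM : Md L A M := ⟨D.md.1, (subset_insert x A).trans D.md.2⟩
  have hAX : A ⊆ FCP_X L A x s M t f := by
    intro a ha o _ _
    exact ⟨a, hAM.2 ha, FCP_fx D o a ha⟩
  have hBq : ∀ w, Bq L A (Pq L A w) := fun w => ((hAL hO hB0 L U hM A D.fin).2.2.2.2.1 w).1
  refine ⟨isEl_of_orb hM D.fin hAX ?_, hAX⟩
  intro B hB hAB hBX v hdef
  by_cases h0 : ∃ u ∈ Orb L B v, ∀ o : Option ℕ, (∀ k, o = some k → f k = true) →
      u ∉ Pq L A (FCP_pt x s o)
  · obtain ⟨u, hu, hu'⟩ := h0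
    exact ⟨u, fun o ho huo => absurd huo (hu' o ho), hu⟩
  · push Not at h0
    obtain ⟨o, ho, hvo⟩ := h0 v (mem_orb B v)
    have hNm : Md L A (FCP_tt t o '' M) := FCP_md hM hAM (FCP_fx D o)
    have hX : ∀ u ∈ Pq L A (FCP_pt x s o), u ∈ FCP_tt t o '' M → u ∈ FCP_X L A x s M t f := by
      intro u hu hu' o' _ huo'
      rw [← FCP_disj D hu huo']
      exact hu'
    by_cases hb : ∃ b ∈ B, b ∈ Pq L A (FCP_pt x s o)
    · obtain ⟨b, hbB, hbP⟩ := hb
      have hOP : ∀ u ∈ Orb L B v, u ∈ Pq L A (FCP_pt x s o) := by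
        rintro u ⟨k, hk, rfl⟩
        have h1 : k v ∈ Pq L A (k b) := by
          rw [HQS_img hI hM D.fin (fx_mono hAB hk), CLQ_pq hbP]
          exact hvo
        rw [hk b hbB, CLQ_pq hbP] at h1
        exact h1
      have hB' : (A ∪ (B ∩ Pq L A (FCP_pt x s o))).Finite := D.fin.union (hB.inter_of_left _)
      obtain ⟨u, huN, huO⟩ := nx_meets hM hB' hB hdef (M := FCP_tt t o '' M) (by
        intro k hk u hu
        obtain ⟨k', -, hk', hku⟩ := FCP_glu (B := B) (hBq (FCP_pt x s o))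
          (nx_mono subset_union_left hk)
          (fun c hc hc' => nx_fx hk c (Or.inr ⟨hc, hc'⟩)) (hOP u hu)
        rw [← hku]
        exact (CLQ_orb_fx hk' v u).2 hu)
        ⟨hNm.1, union_subset hNm.2 (fun c hc => hBX hc.1 o ho hc.2)⟩ ⟨v, mem_orb B v⟩
      exact ⟨u, hX u (hOP u huO) huN, huO⟩
    · push Not at hb
      have hfin : {P : Set U | ∃ u ∈ Orb L B v, P = Pq L A u}.Finite := by
        refine FCP_clm hI hM D hAB (fun u hu => ?_)
        obtain ⟨o', -, ho'⟩ := h0 u hu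
        exact ⟨o', ho'⟩
      have hOA : Orb L B v ⊆ Orb L A v := by
        rintro u ⟨k, hk, rfl⟩
        exact ⟨k, fx_mono hAB hk, rfl⟩
      obtain ⟨C, hCf, hCdef⟩ := hSEP hC hS hN hF hAL hI hO hB0 L U hM A B (Orb L B v) v D.fin hB hdef
        hOA hfin v (mem_orb B v)
      obtain ⟨u, huN, huO⟩ := nx_meets hM D.fin hCf hCdef (M := FCP_tt t o '' M) (by
        rintro k hk u ⟨hu, hu'⟩
        refine ⟨?_, (CLQ_inv hk v u).2 hu'⟩
        rw [CLQ_pq hvo] at hu'
        obtain ⟨k', -, hk', hku⟩ := FCP_glu (B := B) (hBq (FCP_pt x s o)) hk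
          (fun c hc hc' => absurd hc' (hb c hc)) hu'
        rw [← hku]
        exact (CLQ_orb_fx hk' v u).2 hu) hNm ⟨v, mem_orb B v, CLQ_self A v⟩
      refine ⟨u, hX u ?_ huN, huO.1⟩
      rw [← CLQ_pq hvo]
      exact huO.2

theorem FCP_clo (D : FCP_D A x y h s l M t) (v : U) :
    IsClopen {f : ℕ → Bool | v ∈ FCP_X L A x s M t f} := by
  by_cases hv : ∃ k, v ∈ Pq L A (s k)
  · obtain ⟨k, hk⟩ := hv
    have h1 : {f : ℕ → Bool | v ∈ FCP_X L A x s M t f} =
        (fun f : ℕ → Bool => f k) ⁻¹' {b | b = true → v ∈ t k '' M} := by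
      ext f
      constructor
      · intro hf hb
        refine hf (some k) (fun j hj => ?_) hk
        rw [← Option.some.inj hj]
        exact hb
      · intro hf o ho hvo
        have h2 : some k = o := FCP_disj D (o := some k) hk hvo
        subst h2
        exact hf (ho k rfl)
    rw [h1]
    exact (isClopen_discrete _).preimage (continuous_apply k)
  · have h1 : {f : ℕ → Bool | v ∈ FCP_X L A x s M t f} =
        {f : ℕ → Bool | v ∈ Pq L A x → v ∈ FCP_tt t none '' M} := by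
      ext f
      constructor
      · intro hf hb
        exact hf none (fun j hj => absurd hj (by simp)) hb
      · intro hf o ho hvo
        rcases o with _ | k
        · exact hf hvo
        · exact absurd ⟨k, hvo⟩ hv
    rw [h1]
    by_cases hp : v ∈ Pq L A x → v ∈ FCP_tt t none '' M
    · have h2 : {f : ℕ → Bool | v ∈ Pq L A x → v ∈ FCP_tt t none '' M} = univ := by
        ext f
        exact ⟨fun _ => mem_univ f, fun _ => hp⟩
      rw [h2]
      exact isClopen_univ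
    · have h2 : {f : ℕ → Bool | v ∈ Pq L A x → v ∈ FCP_tt t none '' M} = ∅ := by
        ext f
        exact ⟨fun h' => absurd h' hp, fun h' => absurd h' (notMem_empty f)⟩
      rw [h2]
      exact isClopen_empty

variable (L) in
/-- defective points -/
def FCP_Df (A X : Set U) (x y v : U) : Prop :=
  v ∈ Orb L A x ∧ v ∈ X ∧ ∀ g : U ≃[L] U, Fx L A g → g x = v → g y ∉ X

theorem FCP_df1 (hI : St_IMQ) (hM : Mon L U) (D : FCP_D A x y h s l M t) {f : ℕ → Bool}
    {o : Option ℕ} (ho : ∀ k, o = some k → f k = true) :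
    FCP_Df L A (FCP_X L A x s M t f) x y (FCP_pt x s o) := by
  have hxM : x ∈ M := D.md.2 (mem_insert x A)
  refine ⟨FCP_orb D o, ?_, ?_⟩
  · intro o' _ ho'
    rw [← FCP_disj D (CLQ_self A _) ho', ← FCP_tx D o]
    exact ⟨x, hxM, rfl⟩
  · intro g hg hgx hgy
    have h1 : g y ∈ Pq L A (FCP_pt x s o) := by
      have h2 := (HQS_img hI hM D.fin hg x y).2 D.y2
      rwa [hgx] at h2
    obtain ⟨w, hw, hwy⟩ := hgy o ho h1
    refine D.mis w hw ⟨(FCP_tt t o).symm.comp g, ?_, ?_⟩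
    · intro a ha
      change (FCP_tt t o).symm (g a) = a
      rcases ha with rfl | ha
      · rw [hgx, ← FCP_tx D o, (FCP_tt t o).symm_apply_apply]
      · rw [hg a ha]
        exact fx_symm (FCP_fx D o) a ha
    · change (FCP_tt t o).symm (g y) = w
      rw [← hwy, (FCP_tt t o).symm_apply_apply]

theorem FCP_df2 (hI : St_IMQ) (hM : Mon L U) (D : FCP_D A x y h s l M t) {f : ℕ → Bool} {v : U}
    (hv : FCP_Df L A (FCP_X L A x s M t f) x y v) :
    ∃ o : Option ℕ, (∀ k, o = some k → f k = true) ∧ v ∈ Pq L A (FCP_pt x s o) := by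
  by_contra hcon
  push Not at hcon
  obtain ⟨⟨g, hg, hgx⟩, hvX, hd⟩ := hv
  refine hd g hg hgx ?_
  intro o ho hgy
  exfalso
  refine hcon o ho ?_
  have h1 : g y ∈ Pq L A (g x) := (HQS_img hI hM D.fin hg x y).2 D.y2
  rw [hgx] at h1
  rw [← CLQ_pq hgy]
  exact CLQ_pq_symm h1

theorem FCP_step {P : ℕ → Prop} {a b : ℕ} (hab : a ≤ b) (ha : P a) (hb : ¬ P b) :
    ∃ n, a ≤ n ∧ n < b ∧ P n ∧ ¬ P (n + 1) := by
  induction b, hab using Nat.le_induction with
  | base => exact absurd ha hb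
  | succ b hab ih =>
    by_cases h1 : P b
    · exact ⟨b, hab, Nat.lt_succ_self b, h1, hb⟩
    · obtain ⟨n, h2, h3, h4⟩ := ih h1
      exact ⟨n, h2, h3.trans (Nat.lt_succ_self b), h4⟩

variable (L) in
/-- the invariant -/
def FCP_J (A X : Set U) (x y : U) (h : ℕ → U → U → Prop) : Set ℕ :=
  {n | ∃ v v', FCP_Df L A X x y v ∧ FCP_Df L A X x y v' ∧ h n v v' ∧ ¬ h (n + 1) v v'}

theorem FCP_J_iff (hI : St_IMQ) (hM : Mon L U) (D : FCP_D A x y h s l M t) {f : ℕ → Bool}
    (k : ℕ) : f k = true ↔ ∃ n ∈ FCP_J L A (FCP_X L A x s M t f) x y h, l k ≤ n ∧ n < l (k + 1) := by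
  constructor
  · intro hk
    obtain ⟨n, h1, h2, h3, h4⟩ := FCP_step (P := fun n => h n x (s k))
      (D.mono.monotone (Nat.le_succ k)) (D.sk k).2.1 (D.sk k).2.2
    refine ⟨n, ⟨x, s k, ?_, ?_, h3, h4⟩, h1, h2⟩
    · exact FCP_df1 hI hM D (o := none) (fun j hj => absurd hj (by simp))
    · refine FCP_df1 hI hM D (o := some k) (fun j hj => ?_)
      rw [← Option.some.inj hj]
      exact hk
  · rintro ⟨n, ⟨v, v', hv, hv', h1, h2⟩, h3, h4⟩
    have key : ∀ (i : ℕ) (o : Option ℕ) (w w' : U), FCP_gt i o → w ∈ Orb L A x → w' ∈ Orb L A x →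
        w ∈ Pq L A (s i) → w' ∈ Pq L A (FCP_pt x s o) → h n w w' → ¬ h (n + 1) w w' → i = k := by
      intro i o w w' hgt hw hw' h5 h6 h7 h8
      obtain ⟨h9, h10⟩ := FCP_f2 D hgt hw hw' h5 h6
      have h11 : l i ≤ n := by
        by_contra hcon
        exact h8 (FCP_dec D (not_le.1 hcon) h9)
      have h12 : n < l (i + 1) := by
        by_contra hcon
        exact h10 (FCP_dec D (not_lt.1 hcon) h7)
      have h13 : l i < l (k + 1) := lt_of_le_of_lt h11 h4
      have h14 : l k < l (i + 1) := lt_of_le_of_lt h3 h12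
      have h15 := D.mono.lt_iff_lt.1 h13
      have h16 := D.mono.lt_iff_lt.1 h14
      exact le_antisymm (Nat.lt_succ_iff.1 h15) (Nat.lt_succ_iff.1 h16)
    obtain ⟨o, ho, hvo⟩ := FCP_df2 hI hM D hv
    obtain ⟨o', ho', hvo'⟩ := FCP_df2 hI hM D hv'
    have hne : o ≠ o' := by
      rintro rfl
      refine h2 (D.pc _ _ hv.1 _ hv'.1 ?_)
      rw [CLQ_pq hvo]
      exact hvo'
    rcases FCP_tri hne with ⟨i, rfl, hgt⟩ | ⟨i, rfl, hgt⟩
    · have h5 := key i o' v v' hgt hv.1 hv'.1 hvo hvo' h1 h2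
      exact ho k (congrArg some h5)
    · have h5 := key i o v' v hgt hv'.1 hv.1 hvo' hvo ((D.eqv _).symm h1)
        (fun h' => h2 ((D.eqv _).symm h'))
      exact ho' k (congrArg some h5)

theorem FCP_J_sub (D : FCP_D A x y h s l M t) {X X' : Set U} (e : X ≃ X')
    (he : ∀ r : Set X, r.Finite → ∃ g : U ≃[L] U, Fx L A g ∧ ∀ z ∈ r, g z = e z) :
    FCP_J L A X x y h ⊆ FCP_J L A X' x y h := by
  have hdf : ∀ v : X, FCP_Df L A X x y v → FCP_Df L A X' x y (e v) := by
    rintro v ⟨h1, h2, h3⟩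
    obtain ⟨g, hg, hgv⟩ := he {v} (finite_singleton v)
    refine ⟨?_, (e v).2, ?_⟩
    · rw [← hgv v rfl]
      exact (CLQ_orb_fx hg x v).2 h1
    · intro g' hg' hgx hgy
      obtain ⟨k, hk, hkv⟩ := he {v, e.symm ⟨g' y, hgy⟩} (by simp)
      have h4 : k v = e v := hkv v (Or.inl rfl)
      have h5 : k (e.symm ⟨g' y, hgy⟩ : X) = g' y := by
        rw [hkv _ (Or.inr rfl), e.apply_symm_apply]
      refine h3 (k.symm.comp g') (fx_comp (fx_symm hk) hg') ?_ ?_
      · change k.symm (g' x) = v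
        rw [hgx, ← h4, k.symm_apply_apply]
      · change k.symm (g' y) ∈ X
        rw [← h5, k.symm_apply_apply]
        exact (e.symm ⟨g' y, hgy⟩ : X).2
  rintro n ⟨v, v', hv, hv', h1, h2⟩
  obtain ⟨g, hg, hgv⟩ := he {⟨v, hv.2.1⟩, ⟨v', hv'.2.1⟩} (by simp)
  refine ⟨_, _, hdf ⟨v, hv.2.1⟩ hv, hdf ⟨v', hv'.2.1⟩ hv', ?_, ?_⟩
  · rw [← hgv _ (Or.inl rfl), ← hgv _ (Or.inr rfl), D.inv _ _ _ g hg]
    exact h1
  · rw [← hgv _ (Or.inl rfl), ← hgv _ (Or.inr rfl), D.inv _ _ _ g hg]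
    exact h2

end

theorem thm_FCP : St_FCP := by
  intro hHQS hPMD hSEP hC hS hN hF hAL hI hO hB L U _ hM hNP A hA x
  by_contra hinf
  obtain ⟨h, s, l, y, h1, h2, h3, h4, -, hl, hs, hy, hy', hy''⟩ :=
    hHQS hC hS hN hF hAL hI hO hB L U hM A x hA hinf
  obtain ⟨M, hMd, hMi⟩ := hPMD L U hM (insert x A) (hA.insert x)
  choose t ht htx using fun k => (hs k).1
  have D : FCP_D A x y h s l M t := by
    refine ⟨hA, h1, h2, h3, h4, hl, hs, hy, hy', hMd, ?_, ht, htx⟩
    intro v hv hvO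
    apply hy''
    have h5 := hMi v hv
    unfold Isd at h5 ⊢
    rw [CLQ_orb hvO] at h5
    exact h5
  obtain ⟨f, f', hne, e, he⟩ := hNP A (FCP_X L A x s M t) hA
    (fun f => FCP_el hSEP hC hS hN hF hAL hI hO hB hM D f) (fun v => FCP_clo D v)
  apply hne
  have h5 := FCP_J_sub D e he
  have h6 := FCP_J_sub D e.symm (by
    intro r hr
    obtain ⟨g, hg, hg'⟩ := he (e.symm '' r) (hr.image _)
    refine ⟨g.symm, fx_symm hg, fun z hz => ?_⟩
    have h7 := hg' (e.symm z) ⟨z, hz, rfl⟩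
    rw [e.apply_symm_apply] at h7
    rw [← h7, g.symm_apply_apply])
  funext k
  have h7 := FCP_J_iff hI hM D (f := f) k
  have h8 := FCP_J_iff hI hM D (f := f') k
  rw [Subset.antisymm h5 h6, ← h8] at h7
  exact Bool.eq_iff_iff.2 h7

end Pool.Agent.TPC
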