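import Pool.Agent.TPC.StD
import Pool.Agent.MNO.SMN

/-!
TPC, [FCT]: countably many parts of a free union of clusters (helper23).
-/

set_option autoImplicit false
set_option linter.unusedVariables false

namespace Pool.Agent.TPC

open FirstOrder.Language Set
open scoped FirstOrder
open Pool.Agent.WOM (tp Mon IsEl IsoM CtU Fx Orb Isd)
open Pool.Agent.PMC (Sm Md NPf)
open Pool.Agent.MNO (Dp FE Sq Nx SmN FE1 FinN)
open Pool.Agent.MNO.SMNP (sn_refl sn_symm sn_trans)

section

variable (L : FirstOrder.Language.{0, 0}) {U : Type} [L.Structure U]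

/-- the clusters of models -/
private def FCT_K (A E : Set U) (cl : U → U → Prop) : Type :=
  {K : Set U // ∃ (M : Set U) (z : U), Md L A M ∧ z ∈ M ∧ z ∈ E ∧ K = Kl E cl M z}

/-- similarity of clusters -/
private def FCT_S (A E : Set U) (cl : U → U → Prop) : Setoid (FCT_K L A E cl) where
  r K K' := SmN L A K.1 K'.1
  iseqv := ⟨fun K => sn_refl A K.1, fun h => sn_symm h, fun h h' => sn_trans h h'⟩

/-- the labels -/
private def FCT_Q (A E : Set U) (cl : U → U → Prop) : Type := Quotient (FCT_S L A E cl)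

/-- a representative of a label -/
private noncomputable def FCT_out {A E : Set U} {cl : U → U → Prop} (q : FCT_Q L A E cl) : Set U :=
  (Quotient.out (s := FCT_S L A E cl) q).1

/-- the clusters of `M` -/
private def FCT_C (E : Set U) (cl : U → U → Prop) (M : Set U) : Set (Set U) :=
  {K | ∃ z ∈ M, z ∈ E ∧ K = Kl E cl M z}

end

section

variable {L : FirstOrder.Language.{0, 0}} {U : Type} [L.Structure U] {A E : Set U}
  {cl : U → U → Prop}

private theorem FCT_univ (A : Set U) : Md L A univ :=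
  ⟨fun s _ hn => by rw [inter_univ]; exact hn, subset_univ A⟩

private theorem FCT_out_sim (K : FCT_K L A E cl) :
    SmN L A (FCT_out L (Quotient.mk (FCT_S L A E cl) K)) K.1 :=
  Quotient.mk_out (s := FCT_S L A E cl) K

private theorem FCT_out_inj {q q' : FCT_Q L A E cl} (h : SmN L A (FCT_out L q) (FCT_out L q')) :
    q = q' := by
  have h1 : Quotient.mk (FCT_S L A E cl) (Quotient.out (s := FCT_S L A E cl) q) =
      Quotient.mk (FCT_S L A E cl) (Quotient.out (s := FCT_S L A E cl) q') :=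
    Quotient.sound (s := FCT_S L A E cl) h
  rw [Quotient.out_eq, Quotient.out_eq] at h1
  exact h1

/-- only finitely many labels have finite multiplicity in a model -/
private theorem FCT_fin (hFIF : St_FIF) (hM : Mon L U) (hN : NPf L U) (hF : Fre L A E cl)
    {M0 : Set U} (hM0 : Md L A M0) :
    {q : FCT_Q L A E cl | (Lab L A E cl M0 (FCT_out L q)).Finite}.Finite := by
  by_contra hcon
  have hinf : {q : FCT_Q L A E cl | (Lab L A E cl M0 (FCT_out L q)).Finite}.Infinite := hcon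
  let f := hinf.natEmbedding
  have hf : Function.Injective f := f.injective
  choose N p h1 h2 h3 h4 using fun n : ℕ =>
    (Quotient.out (s := FCT_S L A E cl) (f n : FCT_Q L A E cl)).2
  have h5 : ∀ n, FCT_out L (f n : FCT_Q L A E cl) = Kl E cl (N n) (p n) := h4
  refine hFIF L U hM hN A E cl hF M0 hM0 N p (fun n => ⟨h1 n, h2 n, h3 n⟩) ?_ ?_
  · intro n m hnm hs
    rw [← h5 n, ← h5 m] at hs
    exact hnm (hf (Subtype.ext (FCT_out_inj hs)))
  · intro n
    rw [← h5 n]
    exact (f n).2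

/-- there are countably many labels -/
private theorem FCT_ctb (hFIF : St_FIF) (hM : Mon L U) (hN : NPf L U) (hF : Fre L A E cl) :
    Countable (FCT_Q L A E cl) := by
  have hU := hM.ctb
  rw [← Set.countable_univ_iff]
  have h1 := (FCT_fin hFIF hM hN hF (FCT_univ A)).countable
  let φ : {z : U // z ∈ E} → FCT_Q L A E cl := fun z =>
    Quotient.mk (FCT_S L A E cl) ⟨Kl E cl univ z, univ, z, FCT_univ A, mem_univ _, z.2, rfl⟩
  refine (h1.union (countable_range φ)).mono ?_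
  intro q _
  by_cases hq : (Lab L A E cl univ (FCT_out L q)).Finite
  · exact Or.inl hq
  · right
    have h2 : (Lab L A E cl univ (FCT_out L q)).Nonempty := by
      rw [Set.nonempty_iff_ne_empty]
      intro h
      rw [h] at hq
      exact hq finite_empty
    obtain ⟨K', z, -, hzE, rfl, hs⟩ := h2
    refine ⟨⟨z, hzE⟩, ?_⟩
    apply FCT_out_inj
    exact sn_trans (FCT_out_sim _) (sn_symm hs)

/-- the label of a cluster of a model -/
private theorem FCT_lab {M : Set U} (hMd : Md L A M) {K : Set U} (hK : K ∈ FCT_C E cl M) :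
    ∃ q : FCT_Q L A E cl, SmN L A (FCT_out L q) K := by
  obtain ⟨z, hz, hzE, rfl⟩ := hK
  exact ⟨Quotient.mk (FCT_S L A E cl) ⟨Kl E cl M z, M, z, hMd, hz, hzE, rfl⟩, FCT_out_sim _⟩

/-- equal multiplicities give a bijection of the clusters -/
private theorem FCT_bij {M M' : Set U} (hMd : Md L A M) (hMd' : Md L A M')
    (h : ∀ q : FCT_Q L A E cl,
      Nonempty (Lab L A E cl M (FCT_out L q) ≃ Lab L A E cl M' (FCT_out L q))) :
    ∃ σ : FCT_C E cl M ≃ FCT_C E cl M', ∀ K, SmN L A K.1 (σ K).1 := by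
  have key : ∀ (N : Set U), Md L A N → ∃ f : (Σ q : FCT_Q L A E cl, Lab L A E cl N (FCT_out L q)) ≃
      FCT_C E cl N, ∀ x, (f x).1 = x.2.1 := by
    intro N hNd
    let F : (Σ q : FCT_Q L A E cl, Lab L A E cl N (FCT_out L q)) → FCT_C E cl N := fun x =>
      ⟨x.2.1, by
        obtain ⟨z, hz, hzE, h1, -⟩ := x.2.2
        exact ⟨z, hz, hzE, h1⟩⟩
    have hF : Function.Bijective F := by
      constructor
      · rintro ⟨q, K, hK⟩ ⟨q', K', hK'⟩ h1
        have h2 : K = K' := congrArg Subtype.val h1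
        subst h2
        have h3 : q = q' := by
          obtain ⟨-, -, -, -, h4⟩ := hK
          obtain ⟨-, -, -, -, h5⟩ := hK'
          exact FCT_out_inj (sn_trans h4 (sn_symm h5))
        subst h3
        rfl
      · rintro ⟨K, z, hz, hzE, hK⟩
        obtain ⟨q, hq⟩ := FCT_lab hNd (⟨z, hz, hzE, hK⟩ : K ∈ FCT_C E cl N)
        exact ⟨⟨q, K, z, hz, hzE, hK, hq⟩, rfl⟩
    exact ⟨Equiv.ofBijective F hF, fun x => rfl⟩
  obtain ⟨f, hf⟩ := key M hMd
  obtain ⟨f', hf'⟩ := key M' hMd'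
  refine ⟨f.symm.trans ((Equiv.sigmaCongrRight fun q => (h q).some).trans f'), fun K => ?_⟩
  obtain ⟨x, rfl⟩ := f.surjective K
  rw [Equiv.trans_apply, Equiv.trans_apply, Equiv.symm_apply_apply, hf, hf']
  obtain ⟨q, K⟩ := x
  obtain ⟨-, -, -, -, h4⟩ := K.2
  obtain ⟨-, -, -, -, h5⟩ := ((h q).some K).2
  exact sn_trans (sn_symm h4) h5

/-- clusters are equal if they have a common point -/
private theorem FCT_eq (hF : Fre L A E cl) {M : Set U} {x y : U} (hx : x ∈ E) (hy : y ∈ E)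
    (h : cl x y) : Kl E cl M x = Kl E cl M y := by
  ext z
  constructor
  · rintro ⟨h1, h2, h3⟩
    exact ⟨h1, h2, hF.tra y hy x hx z h2 (hF.sym x hx y hy h) h3⟩
  · rintro ⟨h1, h2, h3⟩
    exact ⟨h1, h2, hF.tra x hx y hy z h2 h h3⟩

/-- the points of `M ∩ E` and the clusters -/
private theorem FCT_pts (hF : Fre L A E cl) (M : Set U) :
    ∃ f : (Σ K : FCT_C E cl M, (K.1 : Set U)) ≃ (M ∩ E : Set U),
      (∀ x, (f x).1 = x.2.1) ∧ ∀ x, (f.symm x).1.1 = Kl E cl M x := by
  have hK : ∀ (K : Set U), K ∈ FCT_C E cl M → ∀ x ∈ K, x ∈ M ∩ E ∧ K = Kl E cl M x := by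
    rintro _ ⟨z, hz, hzE, rfl⟩ x ⟨h1, h2, h3⟩
    exact ⟨⟨h1, h2⟩, FCT_eq hF hzE h2 h3⟩
  let F : (Σ K : FCT_C E cl M, (K.1 : Set U)) → (M ∩ E : Set U) := fun x =>
    ⟨x.2.1, (hK x.1.1 x.1.2 x.2.1 x.2.2).1⟩
  have hFb : Function.Bijective F := by
    constructor
    · rintro ⟨⟨K, hKm⟩, x, hx⟩ ⟨⟨K', hKm'⟩, x', hx'⟩ h1
      have h2 : x = x' := congrArg Subtype.val h1
      subst h2
      have h3 : K = K' := by
        rw [(hK K hKm x hx).2, (hK K' hKm' x hx').2]
      subst h3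
      rfl
    · rintro ⟨x, hx, hxE⟩
      exact ⟨⟨⟨Kl E cl M x, x, hx, hxE, rfl⟩, x, hx, hxE, hF.rfl x hxE⟩, rfl⟩
  refine ⟨Equiv.ofBijective F hFb, fun x => rfl, fun x => ?_⟩
  obtain ⟨y, rfl⟩ := (Equiv.ofBijective F hFb).surjective x
  rw [Equiv.symm_apply_apply]
  exact (hK y.1.1 y.1.2 y.2.1 y.2.2).2

/-- similar clusters give similar parts -/
private theorem FCT_sim (hFOB : St_FOB) (hM : Mon L U) (hF : Fre L A E cl) {M M' : Set U}
    (σ : FCT_C E cl M ≃ FCT_C E cl M') (h : ∀ K, SmN L A K.1 (σ K).1) :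
    SmN L A (M ∩ E) (M' ∩ E) := by
  classical
  obtain ⟨f, hf1, hf2⟩ := FCT_pts hF M
  obtain ⟨f', hf1', hf2'⟩ := FCT_pts hF M'
  choose e he using h
  let b : (M ∩ E : Set U) ≃ (M' ∩ E : Set U) :=
    f.symm.trans ((Equiv.sigmaCongr σ e).trans f')
  have hb1 : ∀ x : (M ∩ E : Set U), (b x : U) = e (f.symm x).1 (f.symm x).2 := by
    intro x
    change ((f' ((Equiv.sigmaCongr σ e) (f.symm x)) : (M' ∩ E : Set U)) : U) = _
    rw [hf1']
    rfl
  have hb2 : ∀ x : (M ∩ E : Set U), Kl E cl M' (b x) = (σ (f.symm x).1).1 := by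
    intro x
    rw [← hf2' (b x)]
    have h1 : f'.symm (b x) = (Equiv.sigmaCongr σ e) (f.symm x) := by
      change f'.symm (f' ((Equiv.sigmaCongr σ e) (f.symm x))) = _
      rw [Equiv.symm_apply_apply]
    rw [h1]
    rfl
  refine ⟨b, fun s hs => ?_⟩
  let t : U → U := fun x => if hx : x ∈ M ∩ E then (b ⟨x, hx⟩ : U) else x
  have ht : ∀ x (hx : x ∈ M ∩ E), t x = b ⟨x, hx⟩ := fun x hx => dif_pos hx
  obtain ⟨-, -, -, h4, -⟩ := hFOB L U hM A E cl hF
  obtain ⟨g, hg, hgt⟩ := h4 ((fun x : (M ∩ E : Set U) => (x : U)) '' s) t (hs.image _)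
    (by
      rintro _ ⟨x, -, rfl⟩
      exact x.2.2)
    (by
      rintro _ ⟨x, -, rfl⟩
      rw [ht _ x.2]
      exact (b _).2.2)
    (by
      rintro _ ⟨x, -, rfl⟩ _ ⟨y, -, rfl⟩ hxy
      rw [ht _ x.2, ht _ y.2] at hxy
      have h5 : Kl E cl M' (b x) = Kl E cl M' (b y) := FCT_eq hF (b x).2.2 (b y).2.2 hxy
      rw [hb2, hb2] at h5
      have h6 : (f.symm x).1 = (f.symm y).1 := σ.injective (Subtype.ext h5)
      have h7 : Kl E cl M (x : U) = Kl E cl M (y : U) := by
        rw [← hf2 x, ← hf2 y, h6]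
      have h8 : (y : U) ∈ Kl E cl M (x : U) := by
        rw [h7]
        exact ⟨y.2.1, y.2.2, hF.rfl _ y.2.2⟩
      exact h8.2.2)
    (by
      rintro _ ⟨x, -, rfl⟩
      have hS : ((fun y : ((f.symm x).1.1 : Set U) => (y : U)) ⁻¹'
          ((fun x : (M ∩ E : Set U) => (x : U)) '' s)).Finite :=
        (hs.image _).preimage Subtype.val_injective.injOn
      obtain ⟨g, hg, hgy⟩ := he (f.symm x).1 _ hS
      refine ⟨g, hg, ?_⟩
      rintro _ ⟨y, hy, rfl⟩ hxy
      have h5 : Kl E cl M (x : U) = Kl E cl M (y : U) := FCT_eq hF x.2.2 y.2.2 hxy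
      have h6 : (f.symm x).1 = (f.symm y).1 := Subtype.ext (by rw [hf2 x, hf2 y, h5])
      rw [ht _ y.2]
      change g (y : U) = b y
      rw [hb1]
      have h7 : ∀ K (hK : K = (f.symm y).1) (g : U ≃[L] U), (∀ z : (K.1 : Set U),
          (z : U) = y → g z = e K z) → g (y : U) = e (f.symm y).1 (f.symm y).2 := by
        rintro _ rfl g hgz
        have h8 : ((f.symm y).2 : U) = y := by
          rw [← hf1 (f.symm y), Equiv.apply_symm_apply]
        rw [← hgz (f.symm y).2 h8, h8]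
      refine h7 _ h6 g (fun z hz => hgy z ?_)
      change (z : U) ∈ (fun x : (M ∩ E : Set U) => (x : U)) '' s
      rw [hz]
      exact ⟨y, hy, rfl⟩)
  refine ⟨g, hg, fun x hx => ?_⟩
  rw [hgt _ ⟨x, hx, rfl⟩, ht _ x.2]

/-- countable sets of the same cardinality -/
private theorem FCT_equiv {α : Type} {s t : Set α} (hs : s.Countable) (ht : t.Countable)
    (h : s.encard = t.encard) : Nonempty (s ≃ t) := by
  rw [← Cardinal.eq]
  refine Cardinal.toENat_injOn (Cardinal.mk_le_aleph0_iff.2 hs) (Cardinal.mk_le_aleph0_iff.2 ht) ?_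
  exact h

end

/-- [FCT] countably many parts of a free union of clusters -/
theorem thm_FCT (hFIF : St_FIF) (hFOB : St_FOB) : St_FCT := by
  intro L U _ hM hN A E cl hF
  have hU := hM.ctb
  have hQ := FCT_ctb hFIF hM hN hF
  let G : {M : Set U // Md L A M} → Set (FCT_Q L A E cl × ℕ) := fun M =>
    {x | (Lab L A E cl M.1 (FCT_out L x.1)).encard = x.2}
  have hG : ∀ M, (G M).Finite := by
    intro M
    have h1 := FCT_fin hFIF hM hN hF M.2
    refine Set.Finite.of_injOn (f := Prod.fst) ?_ ?_ h1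
    · rintro ⟨q, n⟩ h2
      have h3 : (Lab L A E cl M.1 (FCT_out L q)).encard = n := h2
      exact Set.finite_of_encard_eq_coe h3
    · rintro ⟨q, n⟩ h2 ⟨q', n'⟩ h3 h4
      have h5 : q = q' := h4
      subst h5
      have h6 : (Lab L A E cl M.1 (FCT_out L q)).encard = n := h2
      have h7 : (Lab L A E cl M.1 (FCT_out L q)).encard = n' := h3
      have h8 : (n : ℕ∞) = n' := h6.symm.trans h7
      rw [Nat.cast_inj] at h8
      rw [h8]
  have hR : (range G).Countable := by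
    have h1 : {s : Set (FCT_Q L A E cl × ℕ) | s.Finite ∧ s ⊆ univ}.Countable :=
      Set.countable_ofPred_finite_subset (Set.countable_univ)
    refine h1.mono ?_
    rintro _ ⟨M, rfl⟩
    exact ⟨hG M, subset_univ _⟩
  obtain ⟨r, hr⟩ := hR.exists_eq_range ⟨_, ⟨univ, FCT_univ A⟩, rfl⟩
  have h1 : ∀ n, ∃ M, G M = r n := by
    intro n
    have h2 : r n ∈ range G := by
      rw [hr]
      exact ⟨n, rfl⟩
    exact h2
  choose c hc using h1
  refine ⟨fun n => (c n).1, fun n => (c n).2, fun M hMd => ?_⟩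
  have h2 : G ⟨M, hMd⟩ ∈ range r := by
    rw [← hr]
    exact ⟨_, rfl⟩
  obtain ⟨n, hn⟩ := h2
  refine ⟨n, ?_⟩
  have h3 : G ⟨M, hMd⟩ = G (c n) := by rw [hc n, hn]
  have hct : ∀ (N : Set U) (q : FCT_Q L A E cl), (Lab L A E cl N (FCT_out L q)).Countable := by
    intro N q
    refine (countable_range fun z : U => Kl E cl N z).mono ?_
    rintro K ⟨z, -, -, rfl, -⟩
    exact ⟨z, rfl⟩
  have h4 : ∀ q : FCT_Q L A E cl, (Lab L A E cl M (FCT_out L q)).encard =
      (Lab L A E cl (c n).1 (FCT_out L q)).encard := by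
    intro q
    have h5 : ∀ m : ℕ, (Lab L A E cl M (FCT_out L q)).encard = m ↔
        (Lab L A E cl (c n).1 (FCT_out L q)).encard = m := by
      intro m
      have h6 : (q, m) ∈ G ⟨M, hMd⟩ ↔ (q, m) ∈ G (c n) := by rw [h3]
      exact h6
    by_cases h7 : (Lab L A E cl M (FCT_out L q)).encard = ⊤
    · by_cases h8 : (Lab L A E cl (c n).1 (FCT_out L q)).encard = ⊤
      · rw [h7, h8]
      · obtain ⟨m, hm⟩ := ENat.ne_top_iff_exists.1 h8
        rw [← hm]
        exact (h5 m).2 hm.symm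
    · obtain ⟨m, hm⟩ := ENat.ne_top_iff_exists.1 h7
      rw [← hm]
      exact ((h5 m).1 hm.symm).symm
  obtain ⟨σ, hσ⟩ := FCT_bij hMd (c n).2 fun q => FCT_equiv (hct M q) (hct (c n).1 q) (h4 q)
  exact FCT_sim hFOB hM hF σ hσ

end Pool.Agent.TPC
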