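import Pool.Agent.TPC.StD
import Pool.Agent.MNO.SMB

/-!
TPC, module FIF: there is no infinite sequence of labels with finite multiplicity in one model (helper66).
-/

set_option autoImplicit false
set_option linter.unusedVariables false

namespace Pool.Agent.TPC

open FirstOrder.Language Set
open scoped FirstOrder
open Pool.Agent.WOM (tp Mon IsEl IsoM CtU Fx Orb Isd)
open Pool.Agent.PMC (Sm Md NPf)
open Pool.Agent.MNO (Dp FE Sq Nx SmN FE1 FinN nx_refl nx_fx nx_symm nx_comp nx_conj_fx)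
open Pool.Agent.MNO.SMB (sm_refl sm_symm sm_trans)

namespace FIFaux

variable {L : FirstOrder.Language.{0, 0}} {U : Type} [L.Structure U]

/-! ### Bijections which are given on finite sets by automorphisms -/

/-- `e` is given on finite sets by automorphisms over `A` -/
def He (L : FirstOrder.Language.{0, 0}) {U : Type} [L.Structure U] (A : Set U)
    {X X' : Set U} (e : X ≃ X') : Prop :=
  ∀ s : Set X, s.Finite → ∃ g : U ≃[L] U, Fx L A g ∧ ∀ x ∈ s, g x = e x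

theorem He.symm {A X X' : Set U} {e : X ≃ X'} (he : He L A e) : He L A e.symm := by
  intro s hs
  obtain ⟨g, hg, hg'⟩ := he (e.symm '' s) (hs.image _)
  refine ⟨g.symm, Pool.Agent.PMC.fx_symm hg, fun x hx => ?_⟩
  have h1 := hg' (e.symm x) (mem_image_of_mem _ hx)
  rw [e.apply_symm_apply] at h1
  rw [← h1, g.symm_apply_apply]

/-- the image of a subset of `X` -/
def im {X X' : Set U} (e : X ≃ X') (Y : Set U) : Set U :=
  {y | ∃ x : X, (x : U) ∈ Y ∧ ((e x : X') : U) = y}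

theorem im_sub {X X' : Set U} (e : X ≃ X') (Y : Set U) : im e Y ⊆ X' := by
  rintro y ⟨x, _, rfl⟩
  exact (e x).2

theorem mem_im {X X' : Set U} (e : X ≃ X') (Y : Set U) (x : X) :
    ((e x : X') : U) ∈ im e Y ↔ (x : U) ∈ Y := by
  constructor
  · rintro ⟨x', h1, h2⟩
    rw [← e.injective (Subtype.ext h2)]
    exact h1
  · exact fun h => ⟨x, h, rfl⟩

theorem im_symm {X X' : Set U} (e : X ≃ X') {Y : Set U} (hY : Y ⊆ X) :
    im e.symm (im e Y) = Y := by
  ext y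
  constructor
  · rintro ⟨x, h1, rfl⟩
    have h2 : ((e (e.symm x) : X') : U) ∈ im e Y := by
      rw [e.apply_symm_apply]
      exact h1
    exact (mem_im e Y _).1 h2
  · intro hy
    exact ⟨e ⟨y, hY hy⟩, (mem_im e Y _).2 hy, by rw [e.symm_apply_apply]⟩

/-- the restriction of a bijection -/
def eqr {X X' : Set U} (e : X ≃ X') {Y : Set U} (hY : Y ⊆ X) : Y ≃ im e Y where
  toFun y := ⟨e ⟨y, hY y.2⟩, (mem_im e Y _).2 y.2⟩
  invFun y := ⟨e.symm ⟨y, im_sub e Y y.2⟩, (mem_im e Y _).1 (by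
    rw [e.apply_symm_apply]
    exact y.2)⟩
  left_inv y := by
    apply Subtype.ext
    show ((e.symm ⟨((e ⟨y, hY y.2⟩ : X') : U), _⟩ : X) : U) = y
    rw [Subtype.coe_eta, e.symm_apply_apply]
  right_inv y := by
    apply Subtype.ext
    show ((e ⟨((e.symm ⟨y, im_sub e Y y.2⟩ : X) : U), _⟩ : X') : U) = y
    rw [Subtype.coe_eta, e.apply_symm_apply]

/-- similarity is preserved by `e` -/
theorem conj (hM : Mon L U) {A X X' Y Z : Set U} {e : X ≃ X'} (he : He L A e) (hY : Y ⊆ X)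
    (hZ : Z ⊆ X) (hs : SmN L A Y Z) : SmN L A (im e Y) (im e Z) := by
  obtain ⟨b, hb⟩ := hs
  refine ⟨(eqr e hY).symm.trans (b.trans (eqr e hZ)), fun s hs => ?_⟩
  obtain ⟨φ, hφ⟩ : ∃ φ : Y ≃ im e Y, φ = eqr e hY := ⟨_, rfl⟩
  obtain ⟨ψ, hψ⟩ : ∃ ψ : Z ≃ im e Z, ψ = eqr e hZ := ⟨_, rfl⟩
  have hφ1 : ∀ y : Y, ((φ y : im e Y) : U) = e ⟨y, hY y.2⟩ := fun y => by rw [hφ]; rfl
  have hψ1 : ∀ y : Z, ((ψ y : im e Z) : U) = e ⟨y, hZ y.2⟩ := fun y => by rw [hψ]; rfl
  rw [← hφ, ← hψ]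
  obtain ⟨g1, hg1, hg1'⟩ := hb (φ.symm '' s) (hs.image _)
  obtain ⟨g, hg, hg'⟩ := he
    ((fun y : im e Y => (⟨φ.symm y, hY (φ.symm y).2⟩ : X)) '' s ∪
      (fun y : im e Y => (⟨b (φ.symm y), hZ (b (φ.symm y)).2⟩ : X)) '' s)
    ((hs.image _).union (hs.image _))
  refine ⟨g.comp (g1.comp g.symm), nx_conj_fx hM hg hg1, fun y hy => ?_⟩
  have h1 := hg' _ (mem_union_left _ (mem_image_of_mem _ hy))
  have h2 := hg' _ (mem_union_right _ (mem_image_of_mem _ hy))
  have h3 := hg1' _ (mem_image_of_mem _ hy)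
  have h4 := hφ1 (φ.symm y)
  rw [φ.apply_symm_apply] at h4
  rw [← h4] at h1
  have h5 := hψ1 (b (φ.symm y))
  rw [← h5] at h2
  show g (g1 (g.symm y)) = ((ψ (b (φ.symm y)) : im e Z) : U)
  rw [← h1, g.symm_apply_apply]
  show g (g1 ((φ.symm y : Y) : U)) = _
  rw [h3]
  exact h2

theorem kl_sub (E : Set U) (cl : U → U → Prop) (X : Set U) (z : U) : Kl E cl X z ⊆ X :=
  fun _ h => h.1

section pres

variable {A E : Set U} {cl : U → U → Prop} {X X' : Set U} {e : X ≃ X'}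

theorem heE (hF : Fre L A E cl) (he : He L A e) (x : X) :
    ((e x : X') : U) ∈ E ↔ (x : U) ∈ E := by
  obtain ⟨g, hg, hgx⟩ := he {x} (Set.finite_singleton x)
  rw [← hgx x rfl]
  exact hF.fxE g hg x

theorem heC (hF : Fre L A E cl) (he : He L A e) (x y : X) (hx : (x : U) ∈ E) (hy : (y : U) ∈ E) :
    (cl ((e x : X') : U) ((e y : X') : U) ↔ cl (x : U) (y : U)) := by
  obtain ⟨g, hg, hgx⟩ := he {x, y} (Set.toFinite _)
  rw [← hgx x (by simp), ← hgx y (by simp)]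
  exact hF.fxc g hg x hx y hy

theorem kl_im (hF : Fre L A E cl) (he : He L A e) (x : X) (hx : (x : U) ∈ E) :
    im e (Kl E cl X x) = Kl E cl X' ((e x : X') : U) := by
  ext y
  constructor
  · rintro ⟨x', ⟨_, h1, h2⟩, rfl⟩
    exact ⟨(e x').2, (heE hF he x').2 h1, (heC hF he x x' hx h1).2 h2⟩
  · rintro ⟨h1, h2, h3⟩
    have h4 : ((e (e.symm ⟨y, h1⟩) : X') : U) = y := by rw [e.apply_symm_apply]
    have h5 : ((e.symm ⟨y, h1⟩ : X) : U) ∈ E := by
      rw [← heE hF he, h4]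
      exact h2
    refine ⟨e.symm ⟨y, h1⟩, ⟨(e.symm ⟨y, h1⟩).2, h5, ?_⟩, h4⟩
    rw [← heC hF he x _ hx h5, h4]
    exact h3

theorem lab_im (hM : Mon L U) (hF : Fre L A E cl) (he : He L A e) {K : Set U} (hK : K ⊆ X) :
    im e '' Lab L A E cl X K = Lab L A E cl X' (im e K) := by
  ext K'
  constructor
  · rintro ⟨_, ⟨z, hz, hzE, rfl, hs⟩, rfl⟩
    exact ⟨e ⟨z, hz⟩, (e ⟨z, hz⟩).2, (heE hF he ⟨z, hz⟩).2 hzE, kl_im hF he ⟨z, hz⟩ hzE,
      conj hM he hK (kl_sub _ _ _ _) hs⟩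
  · rintro ⟨z, hz, hzE, rfl, hs⟩
    have h4 : ((e (e.symm ⟨z, hz⟩) : X') : U) = z := by rw [e.apply_symm_apply]
    have h5 : ((e.symm ⟨z, hz⟩ : X) : U) ∈ E := by
      rw [← heE hF he, h4]
      exact hzE
    have h6 := kl_im hF he (e.symm ⟨z, hz⟩) h5
    rw [h4] at h6
    refine ⟨Kl E cl X (e.symm ⟨z, hz⟩ : X), ⟨_, (e.symm ⟨z, hz⟩).2, h5, rfl, ?_⟩, h6⟩
    have h7 := conj hM he.symm (im_sub e K) (kl_sub E cl X' z) hs
    rw [im_symm e hK, ← h6, im_symm e (kl_sub _ _ _ _)] at h7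
    exact h7

theorem lab_encard (hM : Mon L U) (hF : Fre L A E cl) (he : He L A e) {K : Set U} (hK : K ⊆ X) :
    (Lab L A E cl X' (im e K)).encard = (Lab L A E cl X K).encard := by
  rw [← lab_im hM hF he hK]
  refine InjOn.encard_image ?_
  rintro _ ⟨z, hz, hzE, rfl, _⟩ _ ⟨z', hz', hzE', rfl, _⟩ h
  have h1 := congrArg (im e.symm) h
  rwa [im_symm e (kl_sub _ _ _ _), im_symm e (kl_sub _ _ _ _)] at h1

/-- the multiplicities of the labels of `X` -/
def J (L : FirstOrder.Language.{0, 0}) {U : Type} [L.Structure U] (A E : Set U)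
    (cl : U → U → Prop) (X : Set U) : Set ℕ∞ :=
  {c | ∃ z ∈ X, z ∈ E ∧ (Lab L A E cl X (Kl E cl X z)).encard = c}

theorem J_sub (hM : Mon L U) (hF : Fre L A E cl) (he : He L A e) :
    J L A E cl X ⊆ J L A E cl X' := by
  rintro c ⟨z, hz, hzE, rfl⟩
  refine ⟨e ⟨z, hz⟩, (e ⟨z, hz⟩).2, (heE hF he ⟨z, hz⟩).2 hzE, ?_⟩
  rw [← kl_im hF he ⟨z, hz⟩ hzE]
  exact lab_encard hM hF he (kl_sub _ _ _ _)

theorem J_eq (hM : Mon L U) (hF : Fre L A E cl) (h : Sm L A X X') :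
    J L A E cl X = J L A E cl X' := by
  obtain ⟨e, he⟩ := h
  have he' : He L A e := he
  exact (J_sub hM hF he').antisymm (J_sub hM hF he'.symm)

end pres

/-! ### The models with added clusters -/

/-- the output of FRM -/
structure Rm (L : FirstOrder.Language.{0, 0}) {U : Type} [L.Structure U] (A E : Set U)
    (cl : U → U → Prop) (D : Type) (M0 M0' : Set U) (MM : D → Set U) (pp : D → U)
    (g : D → (U ≃[L] U)) (t : U → U) : Prop where
  fre : Fre L A E cl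
  nx : ∀ d, Nx L A (g d)
  pm : ∀ d, pp d ∈ MM d ∧ pp d ∈ E
  dj : ∀ d d', d ≠ d' → ¬ cl (g d (pp d)) (g d' (pp d'))
  d0 : ∀ d, ∀ z ∈ M0', z ∈ E → ¬ cl (g d (pp d)) z
  t1 : ∀ x ∈ M0, t x ∈ M0'
  t2 : ∀ y ∈ M0', ∃ x ∈ M0, t x = y
  t3 : ∀ s : Set U, s.Finite → s ⊆ M0 → ∃ h : U ≃[L] U, Nx L A h ∧ ∀ x ∈ s, h x = t x

/-- the added clusters -/
def P {D : Type} (E : Set U) (cl : U → U → Prop) (MM : D → Set U) (pp : D → U)
    (g : D → (U ≃[L] U)) (d : D) : Set U := (g d) '' Kl E cl (MM d) (pp d)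

section build

variable {A E : Set U} {cl : U → U → Prop} {D : Type} {M0 M0' : Set U} {MM : D → Set U}
  {pp : D → U} {g : D → (U ≃[L] U)} {t : U → U}

theorem Rm.P_mem (h : Rm L A E cl D M0 M0' MM pp g t) {d : D} {x : U}
    (hx : x ∈ P E cl MM pp g d) : x ∈ E ∧ cl (g d (pp d)) x := by
  obtain ⟨y, ⟨_, h1, h2⟩, rfl⟩ := hx
  exact ⟨(h.fre.fxE _ (h.nx d).1 y).2 h1, (h.fre.fxc _ (h.nx d).1 _ (h.pm d).2 y h1).2 h2⟩

theorem Rm.gE (h : Rm L A E cl D M0 M0' MM pp g t) (d : D) : g d (pp d) ∈ E :=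
  (h.fre.fxE _ (h.nx d).1 _).2 (h.pm d).2

theorem Rm.gP (h : Rm L A E cl D M0 M0' MM pp g t) (d : D) :
    g d (pp d) ∈ P E cl MM pp g d :=
  ⟨pp d, ⟨(h.pm d).1, (h.pm d).2, h.fre.rfl _ (h.pm d).2⟩, rfl⟩

theorem Rm.P_cl (h : Rm L A E cl D M0 M0' MM pp g t) {d d' : D} {x y : U}
    (hx : x ∈ P E cl MM pp g d) (hy : y ∈ P E cl MM pp g d') (hc : cl x y) : d = d' := by
  by_contra hne
  obtain ⟨hxE, h1⟩ := h.P_mem hx
  obtain ⟨hyE, h2⟩ := h.P_mem hy
  exact h.dj d d' hne (h.fre.tra _ (h.gE d) x hxE _ (h.gE d') h1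
    (h.fre.tra x hxE y hyE _ (h.gE d') hc (h.fre.sym _ (h.gE d') y hyE h2)))

theorem Rm.P_uniq (h : Rm L A E cl D M0 M0' MM pp g t) {d d' : D} {x : U}
    (hx : x ∈ P E cl MM pp g d) (hy : x ∈ P E cl MM pp g d') : d = d' :=
  h.P_cl hx hy (h.fre.rfl x (h.P_mem hx).1)

theorem Rm.P_n0 (h : Rm L A E cl D M0 M0' MM pp g t) {d : D} {x y : U}
    (hx : x ∈ P E cl MM pp g d) (hy : y ∈ M0') (hyE : y ∈ E) : ¬ cl x y := by
  intro hc
  obtain ⟨hxE, h1⟩ := h.P_mem hx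
  exact h.d0 d y hy hyE (h.fre.tra _ (h.gE d) x hxE y hyE h1 hc)

theorem Rm.P_not0 (h : Rm L A E cl D M0 M0' MM pp g t) {d : D} {x : U}
    (hx : x ∈ P E cl MM pp g d) : x ∉ M0' := fun hy =>
  h.P_n0 hx hy (h.P_mem hx).1 (h.fre.rfl x (h.P_mem hx).1)

theorem mem_XT {T : Set D} {x : U} : x ∈ M0' ∪ ⋃ d ∈ T, P E cl MM pp g d ↔
    x ∈ M0' ∨ ∃ d ∈ T, x ∈ P E cl MM pp g d := by
  simp only [Set.mem_union, Set.mem_iUnion, exists_prop]

theorem Rm.kl_P (h : Rm L A E cl D M0 M0' MM pp g t) (T : Set D) {d : D} (hd : d ∈ T) {z : U}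
    (hz : z ∈ P E cl MM pp g d) :
    Kl E cl (M0' ∪ ⋃ d ∈ T, P E cl MM pp g d) z = P E cl MM pp g d := by
  obtain ⟨hzE, h0⟩ := h.P_mem hz
  ext y
  constructor
  · rintro ⟨h1, h2, h3⟩
    rcases mem_XT.1 h1 with h4 | ⟨d', _, h4⟩
    · exact absurd h3 (h.P_n0 hz h4 h2)
    · rw [h.P_cl hz h4 h3]
      exact h4
  · intro hy
    obtain ⟨hyE, h1⟩ := h.P_mem hy
    exact ⟨mem_XT.2 (Or.inr ⟨d, hd, hy⟩), hyE,
      h.fre.tra z hzE _ (h.gE d) y hyE (h.fre.sym _ (h.gE d) z hzE h0) h1⟩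

theorem Rm.tE (h : Rm L A E cl D M0 M0' MM pp g t) {x : U} (hx : x ∈ M0) : t x ∈ E ↔ x ∈ E := by
  obtain ⟨k, hk, h1⟩ := h.t3 {x} (finite_singleton x) (singleton_subset_iff.2 hx)
  rw [← h1 x rfl]
  exact h.fre.fxE k hk.1 x

theorem Rm.tC (h : Rm L A E cl D M0 M0' MM pp g t) {x y : U} (hx : x ∈ M0) (hy : y ∈ M0)
    (hxE : x ∈ E) (hyE : y ∈ E) : cl (t x) (t y) ↔ cl x y := by
  obtain ⟨k, hk, h1⟩ := h.t3 {x, y} (toFinite _) (by
    rintro z (rfl | rfl)
    · exact hx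
    · exact hy)
  rw [← h1 x (by simp), ← h1 y (by simp)]
  exact h.fre.fxc k hk.1 x hxE y hyE

theorem Rm.tinj (h : Rm L A E cl D M0 M0' MM pp g t) : InjOn t M0 := by
  intro x hx y hy hxy
  obtain ⟨k, hk, h1⟩ := h.t3 {x, y} (toFinite _) (by
    rintro z (rfl | rfl)
    · exact hx
    · exact hy)
  rw [← h1 x (by simp), ← h1 y (by simp)] at hxy
  exact k.injective hxy

theorem Rm.kl_0 (h : Rm L A E cl D M0 M0' MM pp g t) (T : Set D) {z : U} (hz : z ∈ M0)
    (hzE : z ∈ E) :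
    Kl E cl (M0' ∪ ⋃ d ∈ T, P E cl MM pp g d) (t z) = t '' Kl E cl M0 z := by
  have htE := (h.tE hz).2 hzE
  ext y
  constructor
  · rintro ⟨h1, h2, h3⟩
    rcases mem_XT.1 h1 with h4 | ⟨d', _, h4⟩
    · obtain ⟨x, hx, rfl⟩ := h.t2 y h4
      have hxE := (h.tE hx).1 h2
      exact ⟨x, ⟨hx, hxE, (h.tC hz hx hzE hxE).1 h3⟩, rfl⟩
    · exact absurd (h.fre.sym _ htE y h2 h3) (h.P_n0 h4 (h.t1 z hz) htE)
  · rintro ⟨x, ⟨h1, h2, h3⟩, rfl⟩
    exact ⟨mem_XT.2 (Or.inl (h.t1 x h1)), (h.tE h1).2 h2, (h.tC hz h1 hzE h2).2 h3⟩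

theorem Rm.sm_P (h : Rm L A E cl D M0 M0' MM pp g t) (d : D) :
    SmN L A (Kl E cl (MM d) (pp d)) (P E cl MM pp g d) :=
  ⟨Equiv.Set.image (g d) _ (g d).injective, fun s hs => ⟨g d, h.nx d, fun x hx => rfl⟩⟩

theorem Rm.sm_0 (h : Rm L A E cl D M0 M0' MM pp g t) {K : Set U} (hK : K ⊆ M0) :
    SmN L A K (t '' K) := by
  refine ⟨Equiv.Set.imageOfInjOn t K (h.tinj.mono hK), fun s hs => ?_⟩
  obtain ⟨k, hk, h1⟩ := h.t3 (Subtype.val '' s) (hs.image _) (by
    rintro _ ⟨x, _, rfl⟩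
    exact hK x.2)
  exact ⟨k, hk, fun x hx => h1 _ (mem_image_of_mem _ hx)⟩

theorem Rm.lab_X (h : Rm L A E cl D M0 M0' MM pp g t) (T : Set D) (K : Set U) :
    Lab L A E cl (M0' ∪ ⋃ d ∈ T, P E cl MM pp g d) K =
      (fun K' => t '' K') '' Lab L A E cl M0 K ∪
        P E cl MM pp g '' {d | d ∈ T ∧ SmN L A K (Kl E cl (MM d) (pp d))} := by
  ext K'
  constructor
  · rintro ⟨z, hz, hzE, rfl, hs⟩
    rcases mem_XT.1 hz with h4 | ⟨d, hd, h4⟩
    · left
      obtain ⟨x, hx, rfl⟩ := h.t2 z h4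
      have hxE := (h.tE hx).1 hzE
      rw [h.kl_0 T hx hxE] at hs ⊢
      exact ⟨_, ⟨x, hx, hxE, rfl, sm_trans hs (sm_symm (h.sm_0 (kl_sub _ _ _ _)))⟩, rfl⟩
    · right
      rw [h.kl_P T hd h4] at hs ⊢
      exact ⟨d, ⟨hd, sm_trans hs (sm_symm (h.sm_P d))⟩, rfl⟩
  · rintro (⟨_, ⟨z, hz, hzE, rfl, hs⟩, rfl⟩ | ⟨d, ⟨hd, hs⟩, rfl⟩)
    · exact ⟨t z, mem_XT.2 (Or.inl (h.t1 z hz)), (h.tE hz).2 hzE, (h.kl_0 T hz hzE).symm,
        sm_trans hs (h.sm_0 (kl_sub _ _ _ _))⟩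
    · exact ⟨g d (pp d), mem_XT.2 (Or.inr ⟨d, hd, h.gP d⟩), h.gE d, (h.kl_P T hd (h.gP d)).symm,
        sm_trans hs (h.sm_P d)⟩

theorem Rm.lab_encard (h : Rm L A E cl D M0 M0' MM pp g t) (T : Set D) (K : Set U) :
    (Lab L A E cl (M0' ∪ ⋃ d ∈ T, P E cl MM pp g d) K).encard =
      (Lab L A E cl M0 K).encard +
        {d | d ∈ T ∧ SmN L A K (Kl E cl (MM d) (pp d))}.encard := by
  rw [h.lab_X T K, encard_union_eq, InjOn.encard_image, InjOn.encard_image]
  · intro d _ d' _ hdd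
    have h1 := h.gP d
    rw [hdd] at h1
    exact h.P_uniq (h.gP d) h1
  · rintro _ ⟨z, hz, hzE, rfl, _⟩ _ ⟨z', hz', hzE', rfl, _⟩ hzz
    exact (h.tinj.image_eq_image_iff (kl_sub _ _ _ _) (kl_sub _ _ _ _)).1 hzz
  · rw [disjoint_left]
    rintro _ ⟨_, ⟨z, hz, hzE, rfl, _⟩, rfl⟩ ⟨d, _, hd⟩
    have h1 : t z ∈ P E cl MM pp g d := by
      rw [hd]
      exact ⟨z, ⟨hz, hzE, h.fre.rfl z hzE⟩, rfl⟩
    exact h.P_not0 h1 (h.t1 z hz)

end build

theorem lab_congr {A E : Set U} {cl : U → U → Prop} {X K K' : Set U} (h : SmN L A K K') :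
    Lab L A E cl X K = Lab L A E cl X K' := by
  ext Y
  constructor
  · rintro ⟨z, hz, hzE, rfl, hs⟩
    exact ⟨z, hz, hzE, rfl, sm_trans (sm_symm h) hs⟩
  · rintro ⟨z, hz, hzE, rfl, hs⟩
    exact ⟨z, hz, hzE, rfl, sm_trans h hs⟩

end FIFaux

open FIFaux

theorem thm_FIF (hFRM : St_FRM) : St_FIF := by
  classical
  intro L U _ hM hN A E cl hF M0 hM0 N p hNp hns hfin
  have hcU : Countable U := hM.ctb
  -- the numbers `k n < r n`
  set K : ℕ → Set U := fun n => Kl E cl (N n) (p n) with hK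
  set k : ℕ → ℕ := fun n => (Lab L A E cl M0 (K n)).ncard with hk
  set r : ℕ → ℕ := fun n => n + 1 + ∑ m ∈ Finset.range (n + 1), k m with hr
  have hkr : ∀ n, k n < r n := by
    intro n
    have : k n ≤ ∑ m ∈ Finset.range (n + 1), k m :=
      Finset.single_le_sum (f := k) (fun _ _ => Nat.zero_le _) (Finset.self_mem_range_succ n)
    simp only [hr]
    omega
  have hrm : StrictMono r := by
    refine strictMono_nat_of_lt_succ fun n => ?_
    have : ∑ m ∈ Finset.range (n + 1 + 1), k m = ∑ m ∈ Finset.range (n + 1), k m + k (n + 1) :=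
      Finset.sum_range_succ _ _
    simp only [hr]
    omega
  -- the family of the added clusters
  let Q : Type := {q : U × ℕ // q.1 ∈ M0 ∧ q.1 ∈ E ∧ ∀ n, ¬ SmN L A (K n) (Kl E cl M0 q.1)}
  let MM : Q ⊕ (ℕ × ℕ) → Set U := Sum.elim (fun _ => M0) fun d => N d.1
  let pp : Q ⊕ (ℕ × ℕ) → U := Sum.elim (fun q => q.1.1) fun d => p d.1
  obtain ⟨M0', g, t, hg, hM0', hdj, hd0, ht1, ht2, ht3, hT⟩ :=
    hFRM L U hM A E cl hF (Q ⊕ (ℕ × ℕ)) M0 MM pp hM0 (by
      rintro (q | d)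
      · exact hM0
      · exact (hNp d.1).1) (by
      rintro (q | d)
      · exact ⟨q.2.1, q.2.2.1⟩
      · exact ⟨(hNp d.1).2.1, (hNp d.1).2.2⟩)
  have hR : Rm L A E cl (Q ⊕ (ℕ × ℕ)) M0 M0' MM pp g t := ⟨hF, hg, (by
      rintro (q | d)
      · exact ⟨q.2.1, q.2.2.1⟩
      · exact ⟨(hNp d.1).2.1, (hNp d.1).2.2⟩), hdj, hd0, ht1, ht2, ht3⟩
  let T : (ℕ → Bool) → Set (Q ⊕ (ℕ × ℕ)) := fun f =>
    {d | Sum.elim (fun _ => True) (fun d : ℕ × ℕ => f d.1 = false ∨ d.2 < r d.1 - k d.1) d}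
  have hTl : ∀ f q, Sum.inl q ∈ T f := fun f q => trivial
  have hTr : ∀ f n i, Sum.inr (n, i) ∈ T f ↔ f n = false ∨ i < r n - k n := fun f n i => Iff.rfl
  set X : (ℕ → Bool) → Set U := fun f => M0' ∪ ⋃ d ∈ T f, P E cl MM pp g d with hX
  have hclo : ∀ v, IsClopen {f | v ∈ X f} := by
    intro v
    by_cases h0 : v ∈ M0'
    · have h1 : {f | v ∈ X f} = Set.univ := by
        ext f
        exact iff_of_true (mem_XT.2 (Or.inl h0)) trivial
      rw [h1]
      exact isClopen_univ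
    · by_cases h2 : ∃ d, v ∈ P E cl MM pp g d
      · obtain ⟨d, hd⟩ := h2
        have h1 : {f | v ∈ X f} = {f | d ∈ T f} := by
          ext f
          refine mem_XT.trans ?_
          constructor
          · rintro (h3 | ⟨d', hd', hv⟩)
            · exact absurd h3 h0
            · rw [hR.P_uniq hd hv]
              exact hd'
          · intro h3
            exact Or.inr ⟨d, h3, hd⟩
        rw [h1]
        rcases d with q | ⟨n, i⟩
        · have h3 : {f | (Sum.inl q : Q ⊕ (ℕ × ℕ)) ∈ T f} = Set.univ := by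
            ext f
            exact iff_of_true (hTl f q) trivial
          rw [h3]
          exact isClopen_univ
        · have h3 : {f | (Sum.inr (n, i) : Q ⊕ (ℕ × ℕ)) ∈ T f} =
              (fun f : ℕ → Bool => f n) ⁻¹' {b | b = false ∨ i < r n - k n} := by
            ext f
            exact hTr f n i
          rw [h3]
          exact (isClopen_discrete _).preimage (continuous_apply n)
      · have h1 : {f | v ∈ X f} = ∅ := by
          ext f
          refine iff_of_false ?_ (Set.notMem_empty _)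
          intro h3
          rcases mem_XT.1 h3 with h4 | ⟨d, _, h4⟩
          · exact h0 h4
          · exact h2 ⟨d, h4⟩
        rw [h1]
        exact isClopen_empty
  obtain ⟨f, f', hne, hsm⟩ := hN A X hF.fin (fun f => hT (T f)) hclo
  have hJ := J_eq hM hF hsm
  -- multiplicities of the labels `K n`
  have hcard : ∀ f n, (Lab L A E cl (X f) (K n)).encard = if f n = true then (r n : ℕ∞) else ⊤ := by
    intro f n
    rw [hX]
    show (Lab L A E cl (M0' ∪ ⋃ d ∈ T f, P E cl MM pp g d) (K n)).encard = _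
    rw [hR.lab_encard (T f) (K n)]
    have h1 : {d | d ∈ T f ∧ SmN L A (K n) (Kl E cl (MM d) (pp d))} =
        (fun i : ℕ => (Sum.inr (n, i) : Q ⊕ (ℕ × ℕ))) '' {i | f n = false ∨ i < r n - k n} := by
      ext d
      constructor
      · rintro ⟨h2, h3⟩
        rcases d with q | ⟨m, i⟩
        · exact absurd h3 (q.2.2.2 n)
        · by_cases hnm : n = m
          · subst hnm
            exact ⟨i, h2, rfl⟩
          · exact absurd h3 (hns n m hnm)
      · rintro ⟨i, hi, rfl⟩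
        exact ⟨hi, sm_refl A _⟩
    rw [h1, InjOn.encard_image]
    · have h2 : (Lab L A E cl M0 (K n)).encard = (k n : ℕ∞) := ((hfin n).cast_ncard_eq).symm
      rw [h2]
      by_cases hf : f n = true
      · rw [if_pos hf]
        have h3 : {i | f n = false ∨ i < r n - k n} = Set.Iio (r n - k n) := by
          ext i
          simp [hf]
        rw [h3]
        have h4 : (Set.Iio (r n - k n)).encard = ((r n - k n : ℕ) : ℕ∞) := by
          rw [← Finset.coe_Iio, encard_coe_eq_coe_finsetCard, Nat.card_Iio]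
        rw [h4, ← Nat.cast_add]
        congr 1
        have := hkr n
        omega
      · rw [if_neg hf]
        have h3 : {i | f n = false ∨ i < r n - k n} = Set.univ := by
          ext i
          simp [hf]
        rw [h3, Set.encard_univ]
        simp
    · intro i _ j _ hij
      simpa using hij
  -- the finite multiplicities
  have hchar : ∀ f n, ((r n : ℕ) : ℕ∞) ∈ J L A E cl (X f) ↔ f n = true := by
    intro f n
    constructor
    · rintro ⟨z, hz, hzE, hc⟩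
      by_cases hex : ∃ m, SmN L A (K m) (Kl E cl (X f) z)
      · obtain ⟨m, hm⟩ := hex
        rw [← lab_congr hm, hcard f m] at hc
        by_cases hf : f m = true
        · rw [if_pos hf] at hc
          have : r m = r n := by exact_mod_cast hc
          rwa [hrm.injective this] at hf
        · rw [if_neg hf] at hc
          exact absurd hc.symm (ENat.natCast_ne_top _)
      · exfalso
        push Not at hex
        -- the label is that of a cluster of `M0`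
        have hx : ∃ x ∈ M0, x ∈ E ∧ SmN L A (Kl E cl (X f) z) (Kl E cl M0 x) := by
          rcases mem_XT.1 hz with h4 | ⟨d, hd, h4⟩
          · obtain ⟨x, hx, rfl⟩ := ht2 z h4
            have hxE := (hR.tE hx).1 hzE
            refine ⟨x, hx, hxE, ?_⟩
            have h5 := hR.kl_0 (T f) hx hxE
            have h6 : Kl E cl (X f) (t x) = t '' Kl E cl M0 x := h5
            rw [h6]
            exact sm_symm (hR.sm_0 (kl_sub _ _ _ _))
          · have h5 : Kl E cl (X f) z = P E cl MM pp g d := hR.kl_P (T f) hd h4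
            rcases d with q | ⟨m, i⟩
            · refine ⟨q.1.1, q.2.1, q.2.2.1, ?_⟩
              rw [h5]
              exact sm_symm (hR.sm_P (Sum.inl q))
            · exfalso
              apply hex m
              rw [h5]
              exact hR.sm_P (Sum.inr (m, i))
        obtain ⟨x, hx, hxE, hs⟩ := hx
        have hno : ∀ m, ¬ SmN L A (K m) (Kl E cl M0 x) := fun m hm =>
          hex m (sm_trans hm (sm_symm hs))
        have h6 : (Lab L A E cl (X f) (Kl E cl (X f) z)).encard = ⊤ := by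
          have h7 := hR.lab_encard (T f) (Kl E cl (X f) z)
          have h8 : {d | d ∈ T f ∧ SmN L A (Kl E cl (X f) z) (Kl E cl (MM d) (pp d))}.encard = ⊤ := by
            rw [encard_eq_top_iff]
            refine Set.infinite_of_injective_forall_mem (α := ℕ)
              (f := fun i : ℕ => (Sum.inl ⟨(x, i), hx, hxE, hno⟩ : Q ⊕ (ℕ × ℕ))) ?_ ?_
            · intro i j hij
              have h9 := congrArg (fun s : Q ⊕ (ℕ × ℕ) => s.elim (fun q => q.1.2) fun _ => 0) hij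
              exact h9
            · intro i
              exact ⟨trivial, hs⟩
          rw [h8, add_top] at h7
          exact h7
        rw [h6] at hc
        exact absurd hc.symm (ENat.natCast_ne_top _)
    · intro hf
      have h0 : (Sum.inr (n, 0) : Q ⊕ (ℕ × ℕ)) ∈ T f := by
        rw [hTr]
        right
        have := hkr n
        omega
      have h1 := hR.gP (Sum.inr (n, 0))
      have h2 : Kl E cl (X f) (g (Sum.inr (n, 0)) (pp (Sum.inr (n, 0)))) =
          P E cl MM pp g (Sum.inr (n, 0)) := hR.kl_P (T f) h0 h1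
      refine ⟨g (Sum.inr (n, 0)) (pp (Sum.inr (n, 0))), mem_XT.2 (Or.inr ⟨_, h0, h1⟩),
        hR.gE _, ?_⟩
      rw [h2, ← lab_congr (hR.sm_P (Sum.inr (n, 0)))]
      show (Lab L A E cl (X f) (K n)).encard = _
      rw [hcard f n, if_pos hf]
  apply hne
  funext n
  have h1 := hchar f n
  have h2 := hchar f' n
  rw [← hJ] at h2
  have h3 : f n = true ↔ f' n = true := h1.symm.trans h2
  exact Bool.eq_iff_iff.2 h3

end Pool.Agent.TPC
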