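import Pool.Agent.TPC.StD

/-!
TPC, module FOB: basic facts on free unions of clusters.
-/

set_option autoImplicit false
set_option linter.unusedVariables false

namespace Pool.Agent.TPC

open FirstOrder.Language Set
open scoped FirstOrder
open Pool.Agent.WOM (tp Mon IsEl IsoM CtU Fx Orb Isd)
open Pool.Agent.PMC (Sm Md NPf)
open Pool.Agent.MNO (Dp FE Sq Nx SmN FE1 FinN nx_refl)

section

variable {L : FirstOrder.Language.{0, 0}} {U : Type} [L.Structure U] {A E : Set U}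
  {cl : U → U → Prop}

/-- [FOB] (4), by induction on the number of points -/
private theorem FOB_four (h : Fre L A E cl) (n : ℕ) : ∀ (F : Set U) (t : U → U), F.ncard ≤ n →
    F.Finite → F ⊆ E → (∀ x ∈ F, t x ∈ E) → (∀ x ∈ F, ∀ y ∈ F, cl (t x) (t y) → cl x y) →
    (∀ x ∈ F, ∃ g : U ≃[L] U, Nx L A g ∧ ∀ y ∈ F, cl x y → g y = t y) →
    ∃ g : U ≃[L] U, Nx L A g ∧ ∀ x ∈ F, g x = t x := by
  induction n with
  | zero =>
    intro F t hn hF hE h1 h2 h3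
    have h0 : F = ∅ := (Set.ncard_eq_zero hF).1 (Nat.le_zero.1 hn)
    refine ⟨FirstOrder.Language.Equiv.refl L U, nx_refl A, fun x hx => ?_⟩
    rw [h0] at hx
    exact absurd hx (Set.notMem_empty x)
  | succ n ih =>
    intro F t hn hF hE h1 h2 h3
    rcases F.eq_empty_or_nonempty with h0 | ⟨x0, hx0⟩
    · refine ⟨FirstOrder.Language.Equiv.refl L U, nx_refl A, fun x hx => ?_⟩
      rw [h0] at hx
      exact absurd hx (Set.notMem_empty x)
    let S : Set U := {y | y ∈ F ∧ cl x0 y}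
    let W : Set U := {y | y ∈ F ∧ ¬ cl x0 y}
    have hSF : S ⊆ F := fun y hy => hy.1
    have hWF : W ⊆ F := fun y hy => hy.1
    have hW : W.ncard ≤ n := by
      have h4 : W.ncard < F.ncard := by
        refine Set.ncard_lt_ncard ⟨hWF, fun hc => ?_⟩ hF
        exact (hc hx0).2 (h.rfl x0 (hE hx0))
      omega
    obtain ⟨g', hg', e'⟩ := ih W t hW (hF.subset hWF) (hWF.trans hE) (fun x hx => h1 x hx.1)
      (fun x hx y hy => h2 x hx.1 y hy.1) (fun x hx => by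
        obtain ⟨g, hg, e⟩ := h3 x hx.1
        exact ⟨g, hg, fun y hy => e y hy.1⟩)
    obtain ⟨g0, hg0, e0⟩ := h3 x0 hx0
    obtain ⟨k, hk, k1, k2⟩ := h.ort S W (hF.subset hSF) (hF.subset hWF) (hSF.trans hE)
      (hWF.trans hE) (fun s hs w hw hc => hw.2 (h.tra x0 (hE hx0) s (hE hs.1) w (hE hw.1) hs.2 hc))
      g0 g' hg0 hg' (fun s hs w hw hc => by
        rw [e0 s hs.1 hs.2, e' w hw] at hc
        exact hw.2 (h.tra x0 (hE hx0) s (hE hs.1) w (hE hw.1) hs.2 (h2 s hs.1 w hw.1 hc)))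
    refine ⟨k, hk, fun x hx => ?_⟩
    by_cases hc : cl x0 x
    · rw [k1 x ⟨hx, hc⟩, e0 x hx hc]
    · rw [k2 x ⟨hx, hc⟩, e' x ⟨hx, hc⟩]

/-- [FOB] (5), by induction on the number of points -/
private theorem FOB_five (h : Fre L A E cl) (n : ℕ) : ∀ (Z D : Set U), Z.ncard ≤ n →
    Z.Finite → D.Finite → Z ⊆ E → D ⊆ E →
    ∃ g : U ≃[L] U, Nx L A g ∧ ∀ z ∈ Z, ∀ d ∈ D, ¬ cl d (g z) := by
  induction n with
  | zero =>
    intro Z D hn hZ hD hZE hDE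
    have h0 : Z = ∅ := (Set.ncard_eq_zero hZ).1 (Nat.le_zero.1 hn)
    refine ⟨FirstOrder.Language.Equiv.refl L U, nx_refl A, fun x hx => ?_⟩
    rw [h0] at hx
    exact absurd hx (Set.notMem_empty x)
  | succ n ih =>
    intro Z D hn hZ hD hZE hDE
    rcases Z.eq_empty_or_nonempty with h0 | ⟨x0, hx0⟩
    · refine ⟨FirstOrder.Language.Equiv.refl L U, nx_refl A, fun x hx => ?_⟩
      rw [h0] at hx
      exact absurd hx (Set.notMem_empty x)
    let S : Set U := {y | y ∈ Z ∧ cl x0 y}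
    let W : Set U := {y | y ∈ Z ∧ ¬ cl x0 y}
    have hSZ : S ⊆ Z := fun y hy => hy.1
    have hWZ : W ⊆ Z := fun y hy => hy.1
    have hW : W.ncard ≤ n := by
      have h4 : W.ncard < Z.ncard := by
        refine Set.ncard_lt_ncard ⟨hWZ, fun hc => ?_⟩ hZ
        exact (hc hx0).2 (h.rfl x0 (hZE hx0))
      omega
    obtain ⟨g', hg', e'⟩ := ih W D hW (hZ.subset hWZ) hD (hWZ.trans hZE) hDE
    have hgE : ∀ y ∈ Z, g' y ∈ E := fun y hy => (h.fxE g' hg'.1 y).2 (hZE hy)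
    obtain ⟨g0, hg0, e0⟩ := h.inf x0 (hZE hx0) (D ∪ g' '' W) (hD.union ((hZ.subset hWZ).image _))
      (by
        rintro y (hy | ⟨w, hw, rfl⟩)
        · exact hDE hy
        · exact hgE w hw.1)
    have hg0E : ∀ y ∈ E, g0 y ∈ E := fun y hy => (h.fxE g0 hg0.1 y).2 hy
    have hkey : ∀ s ∈ S, ∀ d ∈ D ∪ g' '' W, d ∈ E → ¬ cl d (g0 s) := by
      intro s hs d hd hdE hc
      refine e0 d hd (h.tra d hdE (g0 s) (hg0E s (hZE hs.1)) (g0 x0) (hg0E x0 (hZE hx0)) hc ?_)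
      rw [h.fxc g0 hg0.1 s (hZE hs.1) x0 (hZE hx0)]
      exact h.sym x0 (hZE hx0) s (hZE hs.1) hs.2
    obtain ⟨k, hk, k1, k2⟩ := h.ort S W (hZ.subset hSZ) (hZ.subset hWZ) (hSZ.trans hZE)
      (hWZ.trans hZE)
      (fun s hs w hw hc => hw.2 (h.tra x0 (hZE hx0) s (hZE hs.1) w (hZE hw.1) hs.2 hc))
      g0 g' hg0 hg' (fun s hs w hw hc => hkey s hs (g' w) (Or.inr ⟨w, hw, rfl⟩) (hgE w hw.1)
        (h.sym _ (hg0E s (hZE hs.1)) _ (hgE w hw.1) hc))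
    refine ⟨k, hk, fun z hz d hd => ?_⟩
    by_cases hc : cl x0 z
    · rw [k1 z ⟨hz, hc⟩]
      exact hkey z ⟨hz, hc⟩ d (Or.inl hd) (hDE hd)
    · rw [k2 z ⟨hz, hc⟩]
      exact e' z ⟨hz, hc⟩ d hd

end

theorem thm_FOB : St_FOB := by
  intro L U _ hM A E cl h
  have two : ∀ (S W : Set U), S.Finite → W.Finite → S ⊆ E → W ⊆ E →
      (∀ s ∈ S, ∀ w ∈ W, ¬ cl s w) → ∀ g : U ≃[L] U, Nx L A g →
      (∀ s ∈ S, ∀ w ∈ W, ¬ cl (g s) w) →
      ∃ k : U ≃[L] U, Nx L A k ∧ (∀ w ∈ W, k w = w) ∧ ∀ b ∈ S, k b = g b := by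
    intro S W hS hW hSE hWE h1 g hg h2
    obtain ⟨k, hk, k1, k2⟩ := h.ort S W hS hW hSE hWE h1 g (FirstOrder.Language.Equiv.refl L U)
      hg (nx_refl A) (fun s hs w hw => h2 s hs w hw)
    exact ⟨k, hk, fun w hw => k2 w hw, k1⟩
  refine ⟨?_, two, ?_, ?_, ?_, ?_⟩
  · rw [Set.disjoint_left]
    intro a haA haE
    obtain ⟨g, hg, e⟩ := h.inf a haE {a} (Set.finite_singleton a)
      (Set.singleton_subset_iff.2 haE)
    have h1 := e a rfl
    rw [hg.1 a haA] at h1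
    exact h1 (h.rfl a haE)
  · intro B g hg hB
    obtain ⟨k, hk, k1, k2⟩ := h.bq.glu g hg
    refine ⟨k, hk, fun b hb => ?_, k1⟩
    by_cases hc : b ∈ E
    · rw [k1 b hc, hB b hb hc]
    · exact k2 b hc
  · intro F t hF hE h1 h2 h3
    exact FOB_four h F.ncard F t le_rfl hF hE h1 h2 h3
  · intro Z D hZ hD hZE hDE
    exact FOB_five h Z.ncard Z D le_rfl hZ hD hZE hDE
  · intro Z B D hZ hB hD hZE hBE hDE h1
    obtain ⟨g, hg, e⟩ := FOB_five h Z.ncard Z (D ∪ B) le_rfl hZ (hD.union hB) hZE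
      (Set.union_subset hDE hBE)
    obtain ⟨k, hk, k1, k2⟩ := two Z B hZ hB hZE hBE h1 g hg (fun z hz b hb hc =>
      e z hz b (Or.inr hb) (h.sym _ ((h.fxE g hg.1 z).2 (hZE hz)) _ (hBE hb) hc))
    refine ⟨k, hk, k1, fun z hz d hd => ?_⟩
    rw [k2 z hz]
    exact e z hz d hd

end Pool.Agent.TPC
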