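import Pool.Agent.TPC.StD
import Pool.Agent.TPC.SMQ
import Pool.Agent.TPC.ALQ
import Pool.Agent.TPC.GLQ
import Pool.Agent.TPC.OFQ
import Pool.Agent.TPC.BND

/-!
TPC, module FRM: making room (free unions of clusters).
-/

set_option autoImplicit false
set_option linter.unusedVariables false

namespace Pool.Agent.TPC

open FirstOrder.Language Set
open scoped FirstOrder
open Pool.Agent.WOM (tp Mon IsEl IsoM CtU Fx Orb Isd)
open Pool.Agent.PMC (Sm Md NPf)
open Pool.Agent.MNO (Dp FE Sq Nx SmN FE1 FinN nx_fx)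

section

variable {L : FirstOrder.Language.{0, 0}} {U : Type} [L.Structure U]

/-- one after another the points `P n` are moved into new clusters -/
private theorem frm_seq {A E : Set U} {cl : U → U → Prop} (hF : Fre L A E cl) (P : ℕ → U)
    (hP : ∀ n, P n ∈ E) :
    ∃ G : ℕ → (U ≃[L] U), (∀ n, Nx L A (G n)) ∧ ∀ m n, m < n → ¬ cl (G m (P m)) (G n (P n)) := by
  have step : ∀ (n : ℕ) (F : {F : Set U // F.Finite ∧ F ⊆ E}),
      ∃ g : U ≃[L] U, Nx L A g ∧ ∀ d ∈ F.1, ¬ cl d (g (P n)) :=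
    fun n F => hF.inf (P n) (hP n) F.1 F.2.1 F.2.2
  choose φ hφ hφ' using step
  have nxt : ∀ (n : ℕ) (F : {F : Set U // F.Finite ∧ F ⊆ E}),
      (insert (φ n F (P n)) F.1).Finite ∧ insert (φ n F (P n)) F.1 ⊆ E := fun n F =>
    ⟨F.2.1.insert _, insert_subset ((hF.bq.inv _ (hφ n F) _).2 (hP n)) F.2.2⟩
  let S : ℕ → {F : Set U // F.Finite ∧ F ⊆ E} := fun n =>
    Nat.rec ⟨∅, finite_empty, empty_subset _⟩ (fun n F => ⟨_, nxt n F⟩) n
  have hS : ∀ n, (S (n + 1)).1 = insert (φ n (S n) (P n)) (S n).1 := fun n => rfl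
  have hmono : ∀ m n, m ≤ n → (S m).1 ⊆ (S n).1 := by
    intro m n hmn
    induction n, hmn using Nat.le_induction with
    | base => exact subset_rfl
    | succ n _ ih =>
      rw [hS]
      exact ih.trans (subset_insert _ _)
  refine ⟨fun n => φ n (S n), fun n => hφ n (S n), fun m n hmn => ?_⟩
  apply hφ' n (S n)
  apply hmono (m + 1) n hmn
  rw [hS]
  exact mem_insert _ _

/-- the points `P i` are moved into different clusters -/
private theorem frm_fam {A E : Set U} {cl : U → U → Prop} (hF : Fre L A E cl) {I : Type}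
    [Countable I] (P : I → U) (hP : ∀ i, P i ∈ E) :
    ∃ G : I → (U ≃[L] U), (∀ i, Nx L A (G i)) ∧ ∀ i j, i ≠ j → ¬ cl (G i (P i)) (G j (P j)) := by
  classical
  rcases isEmpty_or_nonempty I with hI | hI
  · exact ⟨fun i => (hI.false i).elim, fun i => (hI.false i).elim, fun i => (hI.false i).elim⟩
  obtain ⟨f, hf⟩ := exists_injective_nat I
  obtain ⟨G, hG, hG'⟩ := frm_seq hF (fun n => P (Function.invFun f n)) (fun n => hP _)
  have hinv : ∀ i, Function.invFun f (f i) = i := Function.leftInverse_invFun hf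
  refine ⟨fun i => G (f i), fun i => hG _, fun i j hij hc => ?_⟩
  have hE : ∀ i, G (f i) (P i) ∈ E := fun i => (hF.bq.inv _ (hG _) _).2 (hP i)
  rcases lt_or_gt_of_ne (fun h => hij (hf h) : f i ≠ f j) with h | h
  · have h1 := hG' _ _ h
    rw [hinv, hinv] at h1
    exact h1 hc
  · have h1 := hG' _ _ h
    rw [hinv, hinv] at h1
    exact h1 (hF.sym _ (hE i) _ (hE j) hc)

end

theorem thm_FRM (hFSU : St_FSU) (hFOB : St_FOB) : St_FRM := by
  classical
  intro L U _ hM A E cl hF D _ M0 M p hM0 hMd hp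
  obtain ⟨-, -, -, hpl, -, -⟩ := hFOB L U hM A E cl hF
  have _ := hM.ctb
  -- the clusters of `M0`
  let st : Setoid {z : U // z ∈ M0 ∧ z ∈ E} :=
    { r := fun x y => cl x.1 y.1
      iseqv := ⟨fun x => hF.rfl _ x.2.2, fun {x y} h => hF.sym _ x.2.2 _ y.2.2 h,
        fun {x y z} h h' => hF.tra _ x.2.2 _ y.2.2 _ z.2.2 h h'⟩ }
  let P : Quotient st ⊕ D → U := Sum.elim (fun q => q.out.1) p
  have hP : ∀ i, P i ∈ E := by
    rintro (q | d)
    · exact q.out.2.2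
    · exact (hp d).2
  obtain ⟨G, hG, hG'⟩ := frm_fam hF P hP
  let q : ∀ x : U, x ∈ M0 ∧ x ∈ E → Quotient st := fun x hx => Quotient.mk st ⟨x, hx⟩
  let t : U → U := fun x => if hx : x ∈ M0 ∧ x ∈ E then G (Sum.inl (q x hx)) x else x
  have ht : ∀ x (hx : x ∈ M0 ∧ x ∈ E), t x = G (Sum.inl (q x hx)) x := fun x hx => dif_pos hx
  have ht' : ∀ x, x ∉ E → t x = x := fun x hx => dif_neg fun h => hx h.2
  have hq : ∀ x y hx hy, cl x y → q x hx = q y hy := fun x y hx hy h =>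
    Quotient.sound (s := st) h
  have hcl : ∀ x (hx : x ∈ M0 ∧ x ∈ E), cl (G (Sum.inl (q x hx)) (P (Sum.inl (q x hx)))) (t x) := by
    intro x hx
    rw [ht x hx]
    have h1 : cl (q x hx).out.1 x := Quotient.mk_out (s := st) (⟨x, hx⟩ : {z : U // z ∈ M0 ∧ z ∈ E})
    exact (hF.fxc _ (nx_fx (hG _)) _ (q x hx).out.2.2 _ hx.2).2 h1
  have htE : ∀ x, x ∈ M0 ∧ x ∈ E → t x ∈ E := by
    intro x hx
    rw [ht x hx]
    exact (hF.bq.inv _ (hG _) _).2 hx.2
  have hPE : ∀ i, G i (P i) ∈ E := fun i => (hF.bq.inv _ (hG i) _).2 (hP i)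
  -- a point of the cluster of `G i (P i)`
  have key : ∀ x (hx : x ∈ M0 ∧ x ∈ E) i, cl (G i (P i)) (t x) → i = Sum.inl (q x hx) := by
    intro x hx i hi
    by_contra hne
    refine hG' i _ hne (hF.tra _ (hPE _) _ (htE x hx) _ (hPE _) hi ?_)
    exact hF.sym _ (hPE _) _ (htE x hx) (hcl x hx)
  -- finite sets
  have hfin : ∀ s : Set U, s.Finite → s ⊆ M0 → ∃ h : U ≃[L] U, Nx L A h ∧ ∀ x ∈ s, h x = t x := by
    intro s hs hsM
    obtain ⟨g, hg, hgt⟩ := hpl (s ∩ E) t (hs.subset inter_subset_left) inter_subset_right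
      (fun x hx => htE x ⟨hsM hx.1, hx.2⟩)
      (by
        intro x hx y hy hxy
        have hx' : x ∈ M0 ∧ x ∈ E := ⟨hsM hx.1, hx.2⟩
        have hy' : y ∈ M0 ∧ y ∈ E := ⟨hsM hy.1, hy.2⟩
        have h1 := key y hy' (Sum.inl (q x hx'))
          (hF.tra _ (hPE _) _ (htE x hx') _ (htE y hy') (hcl x hx') hxy)
        exact Quotient.exact (s := st) (Sum.inl.inj h1))
      (by
        intro x hx
        have hx' : x ∈ M0 ∧ x ∈ E := ⟨hsM hx.1, hx.2⟩
        refine ⟨G (Sum.inl (q x hx')), hG _, fun y hy hxy => ?_⟩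
        have hy' : y ∈ M0 ∧ y ∈ E := ⟨hsM hy.1, hy.2⟩
        rw [ht y hy', hq x y hx' hy' hxy])
    obtain ⟨h, hh, hhE, hhn⟩ := hF.bq.glu g hg
    refine ⟨h, hh, fun x hx => ?_⟩
    by_cases hxE : x ∈ E
    · rw [hhE x hxE]
      exact hgt x ⟨hx, hxE⟩
    · rw [hhn x hxE, ht' x hxE]
  have hinj : InjOn t M0 := by
    intro x hx y hy hxy
    obtain ⟨h, -, hh⟩ := hfin {x, y} (toFinite _) (by
      rintro z (rfl | rfl)
      · exact hx
      · exact hy)
    apply h.injective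
    rw [hh x (by simp), hh y (by simp), hxy]
  -- the new model
  obtain ⟨-, -, -, -, h5, -, -, h8, -⟩ := thm_SMQ thm_GLQ thm_ALQ thm_OFQ thm_BND L U hM
  have hsm : SmN L A M0 (t '' M0) := by
    refine ⟨Equiv.Set.imageOfInjOn t M0 hinj, fun s hs => ?_⟩
    obtain ⟨h, hh, hh'⟩ := hfin (Subtype.val '' s) (hs.image _) (by
      rintro _ ⟨x, -, rfl⟩
      exact x.2)
    exact ⟨h, hh, fun x hx => hh' x.1 ⟨x, hx, rfl⟩⟩
  have hM0' : Md L A (t '' M0) :=
    h8 A M0 (t '' M0) hF.fin hM0.2 (h5 A A M0 (t '' M0) subset_rfl hsm).2 hM0.1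
  have hd1 : ∀ d d', d ≠ d' → ¬ cl (G (Sum.inr d) (p d)) (G (Sum.inr d') (p d')) :=
    fun d d' hdd => hG' (Sum.inr d) (Sum.inr d') fun h => hdd (Sum.inr.inj h)
  have hd2 : ∀ d, ∀ z ∈ t '' M0, z ∈ E → ¬ cl (G (Sum.inr d) (p d)) z := by
    rintro d _ ⟨x, hx, rfl⟩ hz hc
    by_cases hxE : x ∈ E
    · have h1 := key x ⟨hx, hxE⟩ (Sum.inr d) hc
      exact Sum.inr_ne_inl h1
    · rw [ht' x hxE] at hz
      exact hxE hz
  refine ⟨t '' M0, fun d => G (Sum.inr d), t, fun d => hG _, hM0', hd1, hd2,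
    fun x hx => ⟨x, hx, rfl⟩, fun y hy => hy, hfin, fun T => ?_⟩
  have h1 := hFSU L U hM A E cl hF T (t '' M0) (fun d => M d) (fun d => p d)
    (fun d => G (Sum.inr d.1)) (fun d => hG _) hM0' (fun d => hMd d) (fun d => hp d)
    (fun d d' hdd => hd1 d d' fun h => hdd (Subtype.ext h)) (fun d => hd2 d)
  rw [biUnion_eq_iUnion]
  exact h1

end Pool.Agent.TPC
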