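import Pool.Agent.TPC.StD

/-!
TPC [FSU]: clusters of arbitrary models may be added to any model in new clusters (after
`Pool/Agent/TPC/LSU.lean`).
-/

set_option autoImplicit false
set_option linter.unusedVariables false

namespace Pool.Agent.TPC

open FirstOrder.Language Set
open scoped FirstOrder
open Pool.Agent.WOM (tp Mon IsEl IsoM CtU Fx Orb Isd)
open Pool.Agent.PMC (Sm Md NPf fx_refl fx_symm
  fx_comp fx_mono comp_apply' def_img def_mono def_compl def_union isEl_of_orb mem_orb)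
open Pool.Agent.MNO (Dp FE Sq Nx SmN FE1 FinN nx_meets nx_mono nx_conj nx_symm nx_comp nx_refl
  img_img_symm)

/-- complements of unions of pieces (as in `Pool/Agent/TPC/ALQ.lean`) -/
private theorem FSU_compl {L : FirstOrder.Language.{0, 0}} {U : Type} [L.Structure U]
    {A Q : Set U} (hQ : Bq L A Q) : Bq L A Qᶜ := by
  refine ⟨fun g hg x => not_congr (hQ.inv g hg x), fun g hg => ?_⟩
  obtain ⟨h, hh, h1, h2⟩ := hQ.glu g hg
  refine ⟨g.comp h.symm, nx_comp hg (nx_symm hh), ?_, ?_⟩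
  · intro x hx
    have h3 : h.symm x = x := by
      have h4 := h.symm_apply_apply x
      rw [h2 x hx] at h4
      exact h4
    change g (h.symm x) = g x
    rw [h3]
  · intro x hx
    have hxQ : x ∈ Q := not_not.1 hx
    have h3 : h.symm x ∈ Q := (hQ.inv h.symm (nx_symm hh) x).2 hxQ
    change g (h.symm x) = x
    rw [← h1 _ h3]
    exact h.apply_symm_apply x

/-- [FSU] -/
theorem thm_FSU (hFOB : St_FOB) : St_FSU := by
  classical
  intro L U _ hMon A E cl hO D M0 M p g hgN hM0 hM hp hpp hp0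
  have hgA : ∀ d, Fx L A (g d) := fun d => (hgN d).1
  obtain ⟨hdis, F2, F3, -, -, F6⟩ := hFOB L U hMon A E cl hO
  have hEc : Bq L A Eᶜ := FSU_compl hO.bq
  let P : D → Set U := fun d => (g d) '' Kl E cl (M d) (p d)
  have hE : ∀ h : U ≃[L] U, Fx L A h → ∀ x, h x ∈ E ↔ x ∈ E := hO.fxE
  have hC : ∀ h : U ≃[L] U, Fx L A h → ∀ x ∈ E, ∀ y ∈ E, (cl (h x) (h y) ↔ cl x y) := hO.fxc
  have hsy : ∀ x ∈ E, ∀ y ∈ E, cl x y → cl y x := hO.sym
  have htr : ∀ x ∈ E, ∀ y ∈ E, ∀ z ∈ E, cl x y → cl y z → cl x z := hO.tra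
  have hAE : ∀ a ∈ A, a ∉ E := fun a ha haE => Set.disjoint_left.1 hdis ha haE
  -- the new clusters
  have hPE : ∀ d, ∀ x ∈ P d, x ∈ E := by
    rintro d x ⟨z, hz, rfl⟩
    exact (hE _ (hgA d) z).2 hz.2.1
  have hgp : ∀ d, g d (p d) ∈ E := fun d => (hE _ (hgA d) _).2 (hp d).2
  have hPp : ∀ d, ∀ x ∈ P d, cl (g d (p d)) x := by
    rintro d x ⟨z, hz, rfl⟩
    exact (hC _ (hgA d) _ (hp d).2 z hz.2.1).2 hz.2.2
  have hPP : ∀ d d', d ≠ d' → ∀ x ∈ P d, ∀ y ∈ P d', ¬ cl x y := by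
    intro d d' hdd x hx y hy h
    have hxE := hPE d x hx
    have hyE := hPE d' y hy
    refine hpp d d' hdd (htr _ (hgp d) x hxE _ (hgp d') (hPp d x hx) ?_)
    exact htr x hxE y hyE _ (hgp d') h (hsy _ (hgp d') y hyE (hPp d' y hy))
  have hP0 : ∀ d, ∀ x ∈ P d, ∀ z ∈ M0, z ∈ E → ¬ cl x z := by
    intro d x hx z hz hzE h
    exact hp0 d z hz hzE (htr _ (hgp d) x (hPE d x hx) z hzE (hPp d x hx) h)
  have hPM : ∀ d, ∀ x ∈ P d, x ∉ M0 := fun d x hx hx0 =>
    hP0 d x hx x hx0 (hPE d x hx) (hO.rfl x (hPE d x hx))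
  -- the set
  have hAX : A ⊆ M0 ∪ ⋃ d, P d := fun a ha => Or.inl (hM0.2 ha)
  refine ⟨?_, hAX⟩
  refine isEl_of_orb hMon hO.fin hAX ?_
  intro B hBf hAB hBX x hdef
  have hBE : ∀ b ∈ B, b ∉ M0 → ∃ d, b ∈ P d := by
    intro b hb hb0
    rcases hBX hb with h | h
    · exact absurd h hb0
    · exact mem_iUnion.1 h
  -- gluing: an automorphism which fixes `B ∩ E`
  have glue : ∀ (k : U ≃[L] U), Nx L A k → (∀ b ∈ B, b ∈ E → k b = b) → ∀ v ∈ E,
      v ∈ Orb L B x → k v ∈ Orb L B x := by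
    rintro k hk hkB v hvE ⟨r, hr, hrv⟩
    obtain ⟨k', hk'A, hk'E, hk'⟩ := hO.bq.glu k hk
    refine ⟨k'.comp r, fx_comp ?_ hr, ?_⟩
    · intro b hb
      by_cases hbE : b ∈ E
      · rw [hk'E b hbE, hkB b hb hbE]
      · exact hk' b hbE
    · rw [comp_apply', hrv]
      exact hk'E v hvE
  have hxO : x ∈ Orb L B x := mem_orb B x
  by_cases hxE : x ∉ E
  · -- case (0)
    let B0 : Set U := A ∪ {b | b ∈ B ∧ b ∉ E}
    have hB0B : B0 ⊆ B := by
      rintro b (hb | hb)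
      · exact hAB hb
      · exact hb.1
    have hB0M : B0 ⊆ M0 := by
      rintro b (hb | hb)
      · exact hM0.2 hb
      · by_contra hcon
        obtain ⟨d, hd⟩ := hBE b hb.1 hcon
        exact hb.2 (hPE d b hd)
    have hOE : ∀ y ∈ Orb L B x, y ∉ E := by
      rintro y ⟨r, hr, rfl⟩ hy
      exact hxE ((hE r (fx_mono hAB hr) x).1 hy)
    obtain ⟨y, hyM, hyO⟩ := nx_meets hMon (hBf.subset hB0B) hBf hdef (by
      rintro h hh y hy
      obtain ⟨k', hk'A, hk'E, hk'⟩ := hEc.glu h (nx_mono subset_union_left hh)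
      obtain ⟨r, hr, hry⟩ := hy
      refine ⟨k'.comp r, fx_comp ?_ hr, ?_⟩
      · intro b hb
        by_cases hbE : b ∈ E
        · exact hk' b (fun h' => h' hbE)
        · rw [hk'E b hbE]
          exact hh.1 b (Or.inr ⟨hb, hbE⟩)
      · rw [comp_apply', hry]
        exact hk'E y (hOE y ⟨r, hr, hry⟩)) (⟨hM0.1, hB0M⟩ : Md L B0 M0) ⟨x, hxO⟩
    exact ⟨y, Or.inl hyM, hyO⟩
  rw [not_not] at hxE
  have hOE : ∀ y ∈ Orb L B x, y ∈ E := by
    rintro y ⟨r, hr, rfl⟩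
    exact (hE r (fx_mono hAB hr) x).2 hxE
  -- relation of the points of the orbit to the points of `B`
  have hOc : ∀ y ∈ Orb L B x, ∀ b ∈ B, b ∈ E → (cl y b ↔ cl x b) := by
    rintro y ⟨r, hr, rfl⟩ b hb hbE
    have h1 := hC r (fx_mono hAB hr) x hxE b hbE
    rwa [hr b hb] at h1
  by_cases hcase : ∃ b ∈ B, b ∈ E ∧ cl x b
  · obtain ⟨b, hbB, hbE, hxb⟩ := hcase
    -- a set of parameters `S`, closed under being in the cluster of `b`
    have key : ∀ S W : Set U, S ⊆ B → W ⊆ B → S ⊆ E → W ⊆ E → (∀ c ∈ B, c ∈ E → c ∈ S ∨ c ∈ W) →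
        b ∈ S → (∀ s ∈ S, ∀ w ∈ W, ¬ cl s w) → ∀ h : U ≃[L] U, Nx L A h →
        (∀ s ∈ S, h s = s) → ∀ v ∈ Orb L B x, h v ∈ Orb L B x := by
      intro S W hS hW hSE hWE hSW hbS hsw h hh hhS v hv
      have hvE : v ∈ E := hOE v hv
      have hhvE : h v ∈ E := (hE h hh.1 v).2 hvE
      have hvb : cl v b := (hOc v hv b hbB hbE).2 hxb
      have hhvb : cl (h v) b := by
        have h1 := (hC h hh.1 v hvE b hbE).2 hvb
        rwa [hhS b hbS] at h1
      obtain ⟨k, hk, hkW, hkS⟩ := F2 (insert v S) W ((hBf.subset hS).insert v) (hBf.subset hW)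
        (insert_subset hvE hSE) hWE (by
          rintro s (rfl | hs) w hw hsw'
          · exact hsw b hbS w hw (htr b hbE s hvE w (hWE hw) (hsy s hvE b hbE hvb) hsw')
          · exact hsw s hs w hw hsw') h hh (by
          rintro s (rfl | hs) w hw hsw'
          · exact hsw b hbS w hw (htr b hbE (h s) hhvE w (hWE hw)
              (hsy (h s) hhvE b hbE hhvb) hsw')
          · rw [hhS s hs] at hsw'
            exact hsw s hs w hw hsw')
      rw [← hkS v (mem_insert _ _)]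
      refine glue k hk (fun c hc hcE => ?_) v hvE hv
      rcases hSW c hc hcE with hcS | hcW
      · rw [hkS c (mem_insert_of_mem _ hcS), hhS c hcS]
      · exact hkW c hcW
    by_cases hb0 : b ∈ M0
    · -- case (2)
      let B0 : Set U := {c | c ∈ B ∧ c ∈ M0}
      have hB0f : B0.Finite := hBf.subset fun c hc => hc.1
      have hAB0 : A ⊆ B0 := fun a ha => ⟨hAB ha, hM0.2 ha⟩
      obtain ⟨y, hyM, hyO⟩ := nx_meets hMon hB0f hBf hdef (by
        intro h hh v hv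
        refine key {c | c ∈ B ∧ c ∈ M0 ∧ c ∈ E} {c | c ∈ B ∧ ∃ d, c ∈ P d} (fun c hc => hc.1)
          (fun c hc => hc.1) (fun c hc => hc.2.2) ?_ ?_ ⟨hbB, hb0, hbE⟩ ?_ h (nx_mono hAB0 hh)
          (fun s hs => hh.1 s ⟨hs.1, hs.2.1⟩) v hv
        · rintro c ⟨-, d, hd⟩
          exact hPE d c hd
        · intro c hc hcE
          by_cases hc0 : c ∈ M0
          · exact Or.inl ⟨hc, hc0, hcE⟩
          · exact Or.inr ⟨hc, hBE c hc hc0⟩
        · rintro s ⟨hs, hs0, hsE⟩ w ⟨hw, d, hd⟩ hsw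
          exact hP0 d w hd s hs0 hsE (hsy s hsE w (hPE d w hd) hsw))
        (⟨hM0.1, fun c hc => hc.2⟩ : Md L B0 M0) ⟨x, hxO⟩
      exact ⟨y, Or.inl hyM, hyO⟩
    · -- case (1)
      obtain ⟨d, hbd⟩ := hBE b hbB hb0
      let Bd : Set U := {c | c ∈ B ∧ c ∈ P d}
      let B' : Set U := A ∪ Bd
      have hB'B : B' ⊆ B := by
        rintro c (hc | hc)
        · exact hAB hc
        · exact hc.1
      have hB'f : B'.Finite := hBf.subset hB'B
      have key' : ∀ h : U ≃[L] U, Nx L B' h → ∀ v ∈ Orb L B x, h v ∈ Orb L B x := by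
        intro h hh v hv
        refine key Bd {c | c ∈ B ∧ c ∈ E ∧ c ∉ P d} (fun c hc => hc.1) (fun c hc => hc.1)
          (fun c hc => hPE d c hc.2) (fun c hc => hc.2.1) ?_ ⟨hbB, hbd⟩ ?_ h
          (nx_mono subset_union_left hh) (fun s hs => hh.1 s (Or.inr hs)) v hv
        · intro c hc hcE
          by_cases hcd : c ∈ P d
          · exact Or.inl ⟨hc, hcd⟩
          · exact Or.inr ⟨hc, hcE, hcd⟩
        · rintro s ⟨hs, hsd⟩ w ⟨hw, hwE, hwd⟩ hsw
          by_cases hw0 : w ∈ M0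
          · exact hP0 d s hsd w hw0 hwE hsw
          · obtain ⟨d', hd'⟩ := hBE w hw hw0
            refine hPP d d' ?_ s hsd w hd' hsw
            rintro rfl
            exact hwd hd'
      have hAg : ∀ a ∈ A, (g d).symm a = a := fun a ha => fx_symm (hgA d) a ha
      have hsubM : (g d).symm '' B' ⊆ M d := by
        rintro _ ⟨c, hc, rfl⟩
        rcases hc with hc | hc
        · rw [hAg c hc]
          exact (hM d).2 hc
        · obtain ⟨z, hz, hzb⟩ := hc.2
          rw [← hzb, FirstOrder.Language.Equiv.symm_apply_apply]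
          exact hz.1
      obtain ⟨w, hwM, hw⟩ := nx_meets hMon (hB'f.image (g d).symm) (hBf.image (g d).symm)
        (def_img hMon (g d).symm hdef) (by
        rintro h hh _ ⟨v, hv, rfl⟩
        have h1 := nx_conj hMon (g d) hh
        rw [img_img_symm] at h1
        refine ⟨_, key' _ h1 v hv, ?_⟩
        rw [comp_apply', comp_apply', FirstOrder.Language.Equiv.symm_apply_apply])
        (⟨(hM d).1, hsubM⟩ : Md L ((g d).symm '' B') (M d)) ⟨_, x, hxO, rfl⟩
      obtain ⟨v, hv, hvw⟩ := hw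
      have hgw : g d w = v := by
        rw [← hvw, FirstOrder.Language.Equiv.apply_symm_apply]
      have hvE : v ∈ E := hOE v hv
      have hwE : w ∈ E := by
        rw [← hE (g d) (hgA d) w, hgw]
        exact hvE
      refine ⟨v, Or.inr (mem_iUnion.2 ⟨d, w, ⟨hwM, hwE, ?_⟩, hgw⟩), hv⟩
      have hvb : cl v b := (hOc v hv b hbB hbE).2 hxb
      have h1 : cl (g d (p d)) v :=
        htr _ (hgp d) b hbE v hvE (hPp d b hbd) (hsy v hvE b hbE hvb)
      rw [← hgw] at h1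
      exact (hC (g d) (hgA d) _ (hp d).2 w hwE).1 h1
  · -- case (3)
    have hxc : ∀ b ∈ B, b ∈ E → ¬ cl x b := fun b hb hbE h => hcase ⟨b, hb, hbE, h⟩
    have hOn : ∀ y ∈ Orb L B x, ∀ b ∈ B, b ∈ E → ¬ cl y b := fun y hy b hb hbE h =>
      hxc b hb hbE ((hOc y hy b hb hbE).1 h)
    -- (i)
    have hi : ∀ k : U ≃[L] U, Nx L A k → ∀ u ∈ Orb L B x, (∀ b ∈ B, b ∈ E → ¬ cl (k u) b) →
        k u ∈ Orb L B x := by
      intro k hk u hu hku
      have huE := hOE u hu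
      obtain ⟨h, hh, hhW, hhu⟩ := F2 {u} {b | b ∈ B ∧ b ∈ E} (finite_singleton u)
        (hBf.subset fun b hb => hb.1) (by rintro _ rfl; exact huE) (fun b hb => hb.2) (by
          rintro _ rfl b hb
          exact hOn _ hu b hb.1 hb.2) k hk (by
          rintro _ rfl b hb
          exact hku b hb.1 hb.2)
      rw [← hhu u (mem_singleton u)]
      exact glue h hh (fun b hb hbE => hhW b ⟨hb, hbE⟩) u huE hu
    let B0 : Set U := {c | c ∈ B ∧ c ∈ M0}
    let B0' : Set U := {c | c ∈ B ∧ c ∈ M0 ∧ c ∈ E}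
    let B1 : Set U := {c | c ∈ B ∧ ∃ d, c ∈ P d}
    have hB0f : B0.Finite := hBf.subset fun c hc => hc.1
    have hB0'f : B0'.Finite := hBf.subset fun c hc => hc.1
    have hB1f : B1.Finite := hBf.subset fun c hc => hc.1
    have hAB0 : A ⊆ B0 := fun a ha => ⟨hAB ha, hM0.2 ha⟩
    have hB1E : B1 ⊆ E := by
      rintro c ⟨-, d, hd⟩
      exact hPE d c hd
    have hsep : ∀ z ∈ B1, ∀ b ∈ B0', ¬ cl z b := by
      rintro z ⟨-, d, hd⟩ b ⟨-, hb0, hbE⟩
      exact hP0 d z hd b hb0 hbE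
    have hdich : ∀ b ∈ B, b ∈ E → b ∈ B1 ∨ b ∈ B0' := by
      intro b hb hbE
      by_cases hb0 : b ∈ M0
      · exact Or.inr ⟨hb, hb0, hbE⟩
      · exact Or.inl ⟨hb, hBE b hb hb0⟩
    -- (ii)
    have hs : ∀ D' : Set U, D'.Finite → D' ⊆ E → ∃ s : U ≃[L] U, Nx L A s ∧ (∀ b ∈ B0, s b = b) ∧
        ∀ z ∈ B1, ∀ d ∈ D', ¬ cl d (s z) := by
      intro D' hD' hD'E
      obtain ⟨s, hs, hsB, hsD⟩ := F6 B1 B0' D' hB1f hB0'f hD' hB1E (fun c hc => hc.2.2) hD'E hsep
      obtain ⟨s', hs', hs'B, hs'E⟩ := F3 B0 s hs fun b hb hbE => hsB b ⟨hb.1, hb.2, hbE⟩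
      refine ⟨s', hs', hs'B, fun z hz d hd => ?_⟩
      rw [hs'E z (hB1E hz)]
      exact hsD z hz d (Or.inl hd)
    obtain ⟨s1, hs1, hs1B, -⟩ := hs ∅ finite_empty (empty_subset _)
    obtain ⟨s2, hs2, hs2B, hs12⟩ := hs (s1 '' B1) (hB1f.image _) (by
      rintro _ ⟨z, hz, rfl⟩
      exact (hE s1 hs1.1 z).2 (hB1E hz))
    let Θ : Set U := {u | u ∈ E ∧ (∀ b ∈ B0', ¬ cl u b) ∧ ∃ k : U ≃[L] U, Nx L A k ∧
      k u ∈ Orb L B x}
    have hsub : ∀ s : U ≃[L] U, Nx L A s → (∀ b ∈ B0, s b = b) → s '' Orb L B x ⊆ Θ := by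
      rintro s hs hsB _ ⟨v, hv, rfl⟩
      have hvE := hOE v hv
      refine ⟨(hE s hs.1 v).2 hvE, ?_, s.symm, nx_symm hs, ?_⟩
      · intro b hb h
        have h1 := hC s hs.1 v hvE b hb.2.2
        rw [hsB b ⟨hb.1, hb.2.1⟩] at h1
        exact hOn v hv b hb.1 hb.2.2 (h1.1 h)
      · rw [FirstOrder.Language.Equiv.symm_apply_apply]
        exact hv
    have hsup : ∀ s : U ≃[L] U, Nx L A s → (∀ b ∈ B0, s b = b) → ∀ u ∈ Θ,
        (∀ z ∈ B1, ¬ cl u (s z)) → u ∈ s '' Orb L B x := by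
      rintro s hs hsB u ⟨huE, hub, k, hk, hku⟩ hus
      have hvE : s.symm u ∈ E := (hE s.symm (fx_symm hs.1) u).2 huE
      have hsv : s (s.symm u) = u := FirstOrder.Language.Equiv.apply_symm_apply s u
      refine ⟨s.symm u, ?_, hsv⟩
      have h1 : s.symm u = (s.symm.comp k.symm) (k u) := by
        rw [comp_apply', FirstOrder.Language.Equiv.symm_apply_apply]
      rw [h1]
      refine hi _ (nx_comp (nx_symm hs) (nx_symm hk)) _ hku ?_
      rw [← h1]
      intro b hb hbE hcl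
      have h2 := (hC s hs.1 _ hvE b hbE).2 hcl
      rw [hsv] at h2
      rcases hdich b hb hbE with hb1 | hb0
      · exact hus b hb1 h2
      · rw [hsB b ⟨hb0.1, hb0.2.1⟩] at h2
        exact hub b hb0 h2
    have hΘ : s1 '' Orb L B x ∪ s2 '' Orb L B x = Θ := by
      refine Subset.antisymm (union_subset (hsub s1 hs1 hs1B) (hsub s2 hs2 hs2B)) ?_
      intro u hu
      by_cases h1 : ∀ z ∈ B1, ¬ cl u (s1 z)
      · exact Or.inl (hsup s1 hs1 hs1B u hu h1)
      · refine Or.inr (hsup s2 hs2 hs2B u hu ?_)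
        push Not at h1
        obtain ⟨z, hz, hz1⟩ := h1
        intro z' hz' h2
        have hzE : s1 z ∈ E := (hE s1 hs1.1 z).2 (hB1E hz)
        have hz'E : s2 z' ∈ E := (hE s2 hs2.1 z').2 (hB1E hz')
        exact hs12 z' hz' (s1 z) ⟨z, hz, rfl⟩
          (htr _ hzE u hu.1 _ hz'E (hsy u hu.1 _ hzE hz1) h2)
    -- (iii)
    have hΘdef : (s1 '' B ∪ s2 '' B).Definable₁ L Θ := by
      rw [← hΘ]
      exact def_union (def_mono subset_union_left (def_img hMon s1 hdef))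
        (def_mono subset_union_right (def_img hMon s2 hdef))
    obtain ⟨u, huM, hu⟩ := nx_meets hMon hB0f ((hBf.image s1).union (hBf.image s2)) hΘdef (by
      rintro h hh u ⟨huE, hub, k, hk, hku⟩
      have hhA : Nx L A h := nx_mono hAB0 hh
      refine ⟨(hE h hhA.1 u).2 huE, ?_, k.comp h.symm, nx_comp hk (nx_symm hhA), ?_⟩
      · intro b hb hcl
        have h1 := hC h hhA.1 u huE b hb.2.2
        rw [hh.1 b ⟨hb.1, hb.2.1⟩] at h1
        exact hub b hb (h1.1 hcl)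
      · rw [comp_apply', FirstOrder.Language.Equiv.symm_apply_apply]
        exact hku) (⟨hM0.1, fun c hc => hc.2⟩ : Md L B0 M0)
      ⟨x, hxE, fun b hb => hxc b hb.1 hb.2.2, FirstOrder.Language.Equiv.refl L U, nx_refl A, hxO⟩
    obtain ⟨huE, hub, k, hk, hku⟩ := hu
    refine ⟨u, Or.inl huM, ?_⟩
    have h1 : k.symm (k u) = u := FirstOrder.Language.Equiv.symm_apply_apply k u
    have h2 := hi k.symm (nx_symm hk) (k u) hku
    rw [h1] at h2
    refine h2 fun b hb hbE hcl => ?_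
    rcases hdich b hb hbE with ⟨-, d, hd⟩ | hb0
    · exact hP0 d b hd u huM huE (hsy u huE b hbE hcl)
    · exact hub b hb0 hcl

end Pool.Agent.TPC
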