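import Pool.Agent.TPC.CLQ

/-!
TPC, module HQS (helper26): if infinitely many pieces meet an orbit.
-/

set_option autoImplicit false
set_option linter.unusedVariables false

namespace Pool.Agent.TPC

open FirstOrder.Language Set
open scoped FirstOrder
open Pool.Agent.WOM (tp Mon IsEl IsoM CtU Fx Orb Isd)
open Pool.Agent.PMC (Sm Md NPf fx_refl fx_symm fx_comp fx_mono mem_orb sat_fam conj_of_def def_mono
  def_compl)
open Pool.Agent.MNO (Dp FE Sq Nx SmN FE1 FinN dp_sat dp_and dp_not dp_fx nx_fx nx_symm nx_comp)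

section

variable {L : FirstOrder.Language.{0, 0}} {U : Type} [L.Structure U]

theorem HQS_img (hI : St_IMQ) (hM : Mon L U) {A : Set U} (hA : A.Finite) {g : U ≃[L] U}
    (hg : Fx L A g) (x y : U) : g y ∈ Pq L A (g x) ↔ y ∈ Pq L A x := by
  have h3 := (hI L U hM A hA).2.2 g hg x
  rw [← h3]
  constructor
  · rintro ⟨y', hy', h⟩
    rw [← g.injective h]
    exact hy'
  · intro h
    exact ⟨y, h, rfl⟩

/-- orbits over `x` of points of the piece of `x` are inside the piece -/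
theorem HQS_orb (hI : St_IMQ) (hM : Mon L U) {A : Set U} (hA : A.Finite) {x y v : U}
    (hy : y ∈ Pq L A x) (hv : v ∈ Orb L (insert x A) y) : v ∈ Pq L A x := by
  obtain ⟨k, hk, rfl⟩ := hv
  have h := (HQS_img hI hM hA (fx_mono (subset_insert x A) hk) x y).2 hy
  rwa [hk x (mem_insert x A)] at h

variable (L) in
/-- the equivalence relations of HQS -/
def HQS_h (A : Set U) (E : ℕ → U → U → Prop) (x : U) (n : ℕ) (u v : U) : Prop :=
  (u ∈ Orb L A x ↔ v ∈ Orb L A x) ∧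
    (u ∈ Orb L A x → v ∈ Orb L A x → CLQ_S L A E n u = CLQ_S L A E n v)

theorem HQS_S_eq {A : Set U} {E : ℕ → U → U → Prop} (hE : Seq L A E) (n : ℕ) (u : U) :
    CLQ_S L A E n u = {v | v ∈ Orb L A u ∧ ∃ v' ∈ CLQ_S L A E (n + 1) u, E n v v'} := by
  have hEn := CLQ_eqv (hE.fe n)
  ext v
  constructor
  · rintro ⟨hv, y, hy, hy', hvy⟩
    exact ⟨hv, y, CLQ_S_self hE (n + 1) hy hy', hvy⟩
  · rintro ⟨hv, v', ⟨hv1, y, hy, hy', hvy⟩, hv2⟩
    exact ⟨hv, y, hy, hy', hEn.trans hv2 (hE.dec n _ _ hvy)⟩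

/-- finitely many sets `S n z` -/
theorem HQS_pig (hM : Mon L U) {A : Set U} {E : ℕ → U → U → Prop} (hE : Seq L A E) (x : U)
    (h : ¬ {P : Set U | ∃ y ∈ Orb L A x, P = Pq L A y}.Finite) (n : ℕ) :
    ∃ z1 ∈ Orb L A x, ∃ z2 ∈ Orb L A x, z2 ∉ Pq L A z1 ∧ CLQ_S L A E n z1 = CLQ_S L A E n z2 := by
  have hEn := CLQ_eqv (hE.fe n)
  obtain ⟨s, hs, hs'⟩ := (hE.fe n).fin
  have hpow : ({t : Set (Fin 1 → U) | t ⊆ s}).Finite := hs.finite_subsets
  obtain ⟨P1, hP1, P2, hP2, hne, heq⟩ := Set.Infinite.exists_ne_map_eq_of_mapsTo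
    (s := {P : Set U | ∃ y ∈ Orb L A x, P = Pq L A y}) (t := {t : Set (Fin 1 → U) | t ⊆ s})
    (f := fun P => {r | r ∈ s ∧ ∃ y ∈ Orb L A x, y ∈ P ∧ E n (r 0) y}) h
    (fun P _ r hr => hr.1) hpow
  obtain ⟨z1, hz1, rfl⟩ := hP1
  obtain ⟨z2, hz2, rfl⟩ := hP2
  refine ⟨z1, hz1, z2, hz2, fun h2 => hne (CLQ_pq h2).symm, ?_⟩
  have key : ∀ z z' : U, z ∈ Orb L A x → z' ∈ Orb L A x →
      {r | r ∈ s ∧ ∃ y ∈ Orb L A x, y ∈ Pq L A z ∧ E n (r 0) y} =
        {r | r ∈ s ∧ ∃ y ∈ Orb L A x, y ∈ Pq L A z' ∧ E n (r 0) y} →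
      CLQ_S L A E n z ⊆ CLQ_S L A E n z' := by
    rintro z z' hz hz' h2 v ⟨hv, y, hy, hy', hvy⟩
    rw [CLQ_orb hz] at hv hy
    obtain ⟨r, hr, hvr⟩ := hs' (fun _ => v)
    have hvr' : E n v (r 0) := hvr
    have h3 : r ∈ {r | r ∈ s ∧ ∃ y ∈ Orb L A x, y ∈ Pq L A z ∧ E n (r 0) y} :=
      ⟨hr, y, hy, hy', hEn.trans (hEn.symm hvr') hvy⟩
    rw [h2] at h3
    obtain ⟨-, y', hy1, hy2, hy3⟩ := h3
    refine ⟨?_, y', ?_, hy2, hEn.trans hvr' hy3⟩
    · rw [CLQ_orb hz']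
      exact hv
    · rw [CLQ_orb hz']
      exact hy1
  exact Subset.antisymm (key z1 z2 hz1 hz2 heq) (key z2 z1 hz2 hz1 heq.symm)

end

theorem thm_HQS : St_HQS := by
  intro hC hS hN hF hAl hI hO hB L U _ hM A x hA hinf
  obtain ⟨E, hE⟩ := hS hF L U hM A hA
  have h1 : ∀ n, Equivalence (HQS_h L A E x n) := by
    intro n
    refine ⟨fun u => ⟨Iff.rfl, fun _ _ => rfl⟩, fun {u v} h => ⟨h.1.symm, fun hv hu => (h.2 hu hv).symm⟩,
      fun {u v w} h h' => ⟨h.1.trans h'.1, fun hu hw => (h.2 hu (h.1.1 hu)).trans (h'.2 (h.1.1 hu) hw)⟩⟩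
  have h2 : ∀ n u v, HQS_h L A E x (n + 1) u v → HQS_h L A E x n u v := by
    intro n u v h
    refine ⟨h.1, fun hu hv => ?_⟩
    rw [HQS_S_eq hE n u, HQS_S_eq hE n v, h.2 hu hv, CLQ_orb hu, CLQ_orb hv]
  have h2' : ∀ m n, m ≤ n → ∀ u v, HQS_h L A E x n u v → HQS_h L A E x m u v := by
    intro m n hmn u v
    induction n, hmn using Nat.le_induction with
    | base => exact fun h => h
    | succ n _ ih => exact fun h => ih (h2 n u v h)
  have h3 : ∀ n u v, ∀ g : U ≃[L] U, Fx L A g → (HQS_h L A E x n (g u) (g v) ↔ HQS_h L A E x n u v) := by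
    intro n u v g hg
    unfold HQS_h
    rw [CLQ_orb_fx hg x u, CLQ_orb_fx hg x v]
    have h4 : CLQ_S L A E n (g u) = CLQ_S L A E n (g v) ↔ CLQ_S L A E n u = CLQ_S L A E n v := by
      constructor
      · intro h5
        ext w
        rw [← CLQ_img hI hM hA hE hg n u w, ← CLQ_img hI hM hA hE hg n v w, h5]
      · intro h5
        ext w
        have h6 : w = g (g.symm w) := (g.apply_symm_apply w).symm
        rw [h6, CLQ_img hI hM hA hE hg n u, CLQ_img hI hM hA hE hg n v, h5]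
    rw [h4]
  have h4 : ∀ n, ∀ u ∈ Orb L A x, ∀ v ∈ Orb L A x, v ∈ Pq L A u → HQS_h L A E x n u v := by
    intro n u hu v hv huv
    refine ⟨⟨fun _ => hv, fun _ => hu⟩, fun _ _ => ?_⟩
    refine (CLQ_S_congr n ?_ huv).symm
    rw [CLQ_orb hu]
    exact hv
  have h5 : ∀ u ∈ Orb L A x, ∀ v ∈ Orb L A x, (∀ n, HQS_h L A E x n u v) → v ∈ Pq L A u := by
    intro u hu v hv h
    have hvu : v ∈ Orb L A u := by
      rw [CLQ_orb hu]
      exact hv
    refine hC hN hF hAl hI hO hB L U hM A E u v hA hE hvu (fun n => ?_)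
    have h6 : v ∈ CLQ_S L A E n u := by
      rw [(h n).2 hu hv]
      exact CLQ_S_self hE n (mem_orb A v) (CLQ_self A v)
    obtain ⟨-, y, hy, hy', hvy⟩ := h6
    exact ⟨y, hy, hy', hvy⟩
  -- (i)
  have h6 : ∀ n, ∃ z, z ∈ Orb L A x ∧ HQS_h L A E x n x z ∧ z ∉ Pq L A x := by
    intro n
    obtain ⟨z1, hz1, z2, hz2, hne, heq⟩ := HQS_pig hM hE x hinf n
    obtain ⟨g, hg, hgx⟩ := CLQ_orb_symm hz1
    refine ⟨g z2, (CLQ_orb_fx hg x z2).2 hz2, ?_, fun h => hne ?_⟩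
    · have h7 : HQS_h L A E x n (g z1) (g z2) := by
        rw [h3 n z1 z2 g hg]
        exact ⟨⟨fun _ => hz2, fun _ => hz1⟩, fun _ _ => heq⟩
      rwa [hgx] at h7
    · rw [← hgx] at h
      exact (HQS_img hI hM hA hg z1 z2).1 h
  have h7 : ∀ n, ∃ z m, n < m ∧ z ∈ Orb L A x ∧ HQS_h L A E x n x z ∧ ¬ HQS_h L A E x m x z := by
    intro n
    obtain ⟨z, hz, hz', hz''⟩ := h6 n
    have h8 : ∃ m, ¬ HQS_h L A E x m x z := by
      by_contra hcon
      push Not at hcon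
      exact hz'' (h5 x (mem_orb A x) z hz hcon)
    obtain ⟨m, hm⟩ := h8
    refine ⟨z, m, ?_, hz, hz', hm⟩
    by_contra hcon
    exact hm (h2' m n (not_lt.1 hcon) x z hz')
  choose zf mf hmf hz hz' hz'' using h7
  -- (ii)
  have h9 : ∃ y ∈ Orb L A x, y ∈ Pq L A x ∧ ¬ Isd L (insert x A) y := by
    by_contra hcon
    push Not at hcon
    choose w hw hw' hw'' using h6
    have hF9 := (hF L U hM A hA).2.2.2.2.2.2.2.2
    have hC' : (insert x A).Finite := hA.insert x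
    obtain ⟨v, hv⟩ := sat_fam hM hC' (F := {D | (A.Definable₁ L D ∧ x ∈ D) ∨
        (∃ n, D = {w | ∃ y ∈ {y | y ∈ Orb L A x ∧ y ∈ Pq L A x}, E n w y}) ∨
        ∃ y ∈ Orb L A x, y ∈ Pq L A x ∧ D = (Orb L (insert x A) y)ᶜ}) (by
      rintro D (⟨hD, -⟩ | ⟨n, rfl⟩ | ⟨y, hy, hy', rfl⟩)
      · exact def_mono (subset_insert x A) hD
      · refine hF9 _ _ _ (hE.fe n) hC' (subset_insert x A) ?_
        rintro g hg y ⟨hy, hy'⟩
        have hg' : Fx L A g := fx_mono (subset_insert x A) hg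
        exact ⟨(CLQ_orb_fx hg' x y).2 hy, HQS_orb hI hM hA hy' ⟨g, hg, rfl⟩⟩
      · exact def_compl (hcon y hy hy')) (by
      intro G hG hfin
      obtain ⟨N, hN⟩ := CLQ_fin hfin (Q := fun N D => ∀ j, N ≤ j → w j ∈ D) (by
        intro D hD
        rcases hG hD with ⟨hD1, hD2⟩ | ⟨n, rfl⟩ | ⟨y, hy, hy', rfl⟩
        · refine ⟨0, fun j _ => ?_⟩
          obtain ⟨g, hg, hgx⟩ := hw j
          rw [← hgx]
          exact (dp_fx (Pool.Agent.MNO.dp_of_def1 (α := Fin 1) hD1 (i := 0)) hg (fun _ => x)).2 hD2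
        · refine ⟨n, fun j hj => ?_⟩
          have h10 : w j ∈ CLQ_S L A E j x := by
            rw [(hw' j).2 (mem_orb A x) (hw j)]
            exact CLQ_S_self hE j (mem_orb A _) (CLQ_self A _)
          obtain ⟨-, y, hy, hy', hwy⟩ := h10
          exact ⟨y, ⟨hy, hy'⟩, CLQ_mono hE hj hwy⟩
        · exact ⟨0, fun j _ hj => hw'' j (HQS_orb hI hM hA hy' hj)⟩) (by
        intro m n D hmn h j hj
        exact h j (hmn.trans hj))
      exact ⟨w N, fun D hD => hN D hD N (le_refl N)⟩)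
    have h11 : v ∈ Orb L A x := conj_of_def hM hA (fun s hs hx => hv s (Or.inl ⟨hs, hx⟩))
    have h12 : v ∈ Pq L A x := by
      refine hC hN hF hAl hI hO hB L U hM A E x v hA hE h11 (fun n => ?_)
      obtain ⟨y, ⟨hy, hy'⟩, hvy⟩ := hv _ (Or.inr (Or.inl ⟨n, rfl⟩))
      exact ⟨y, hy, hy', hvy⟩
    exact hv _ (Or.inr (Or.inr ⟨v, h11, h12, rfl⟩)) (mem_orb _ v)
  obtain ⟨y, hy, hy', hy''⟩ := h9
  obtain ⟨l, hl0, hl⟩ : ∃ l : ℕ → ℕ, l 0 = 0 ∧ ∀ k, l (k + 1) = mf (l k) :=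
    ⟨fun k => Nat.rec 0 (fun _ n => mf n) k, rfl, fun k => rfl⟩
  refine ⟨HQS_h L A E x, fun k => zf (l k), l, y, h1, h2, h3, h4, h5, ?_, ?_, hy, hy', hy''⟩
  · refine strictMono_nat_of_lt_succ (fun k => ?_)
    rw [hl k]
    exact hmf _
  · intro k
    refine ⟨hz _, hz' _, ?_⟩
    rw [hl k]
    exact hz'' _

end Pool.Agent.TPC
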