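import Pool.Agent.TPC.StC
import Pool.Agent.TPC.SMQ
import Pool.Agent.TPC.GLQ
import Pool.Agent.TPC.ALQ
import Pool.Agent.TPC.OFQ
import Pool.Agent.TPC.BND
import Pool.Agent.MNO.StC
import Pool.Agent.MNO.BAF
import Pool.Agent.MNO.BAG
import Pool.Agent.MNO.NBA

/-!
TPC: module LCL (helper21), after `Pool/Agent/MNO/CLS.lean` (helper9): countably many parts of a linear piece.
-/

set_option autoImplicit false
set_option linter.unusedVariables false

namespace Pool.Agent.TPC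

open FirstOrder.Language Set
open scoped FirstOrder
open Pool.Agent.WOM (tp Mon IsEl IsoM CtU Fx Orb Isd)
open Pool.Agent.PMC (Sm Md NPf)
open Pool.Agent.MNO (Dp FE Sq Nx SmN FE1 FinN nx_symm thm_BAF thm_BAG)

/-! ### Strict weak orders -/

private structure LCL_WO {U : Type} (W : U → U → Prop) (E : Set U) : Prop where
  irr : ∀ x ∈ E, ¬ W x x
  neg : ∀ u ∈ E, ∀ w ∈ E, W u w → ∀ v ∈ E, W u v ∨ W v w
  tra : ∀ u ∈ E, ∀ v ∈ E, ∀ w ∈ E, W u v → W v w → W u w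

/-- `p` is in the first cluster of `X` -/
private def LCL_Fst {U : Type} (W : U → U → Prop) (X : Set U) (p : U) : Prop := ∀ q ∈ X, ¬ W q p

private theorem LCL_WO.swap {U : Type} {W : U → U → Prop} {E : Set U} (h : LCL_WO W E) :
    LCL_WO (fun a b => W b a) E where
  irr := h.irr
  neg := fun u hu w hw h1 v hv => (h.neg w hw u hu h1 v hv).symm
  tra := fun u hu v hv w hw h1 h2 => h.tra w hw v hv u hu h2 h1

private theorem LCL_WO.asy {U : Type} {W : U → U → Prop} {E : Set U} (h : LCL_WO W E) {x y : U}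
    (hx : x ∈ E) (hy : y ∈ E) (h1 : W x y) : ¬ W y x :=
  fun h2 => h.irr x hx (h.tra x hx y hy x hx h1 h2)

/-- equivalent points -/
private theorem LCL_WO.eqv {U : Type} {W : U → U → Prop} {E : Set U} (h : LCL_WO W E) {a b : U}
    (ha : a ∈ E) (hb : b ∈ E) (h1 : ¬ W a b) (h2 : ¬ W b a) {c : U} (hc : c ∈ E) :
    (W a c ↔ W b c) ∧ (W c a ↔ W c b) := by
  refine ⟨⟨fun h3 => ?_, fun h3 => ?_⟩, ⟨fun h3 => ?_, fun h3 => ?_⟩⟩
  · exact (h.neg a ha c hc h3 b hb).resolve_left h1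
  · exact (h.neg b hb c hc h3 a ha).resolve_left h2
  · exact (h.neg c hc a ha h3 b hb).resolve_right h2
  · exact (h.neg c hc b hb h3 a ha).resolve_right h1

/-- a finite set has a last point -/
private theorem LCL_max {U : Type} {W : U → U → Prop} {E : Set U} (h : LCL_WO W E) {F : Set U}
    (hF : F.Finite) (hE : F ⊆ E) (hn : F.Nonempty) : ∃ m ∈ F, ∀ l ∈ F, ¬ W m l := by
  induction F, hF using Set.Finite.induction_on with
  | empty => exact absurd hn not_nonempty_empty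
  | @insert a F ha hf ih =>
    have haE : a ∈ E := hE (mem_insert _ _)
    have hFE : F ⊆ E := fun x hx => hE (mem_insert_of_mem _ hx)
    rcases F.eq_empty_or_nonempty with h0 | h0
    · subst h0
      refine ⟨a, mem_insert _ _, fun l hl => ?_⟩
      rcases hl with rfl | hl
      · exact h.irr _ haE
      · exact absurd hl (notMem_empty _)
    · obtain ⟨m, hm, hm2⟩ := ih hFE h0
      by_cases h1 : W m a
      · refine ⟨a, mem_insert _ _, fun l hl => ?_⟩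
        rcases hl with rfl | hl
        · exact h.irr _ haE
        · exact fun h2 => hm2 l hl (h.tra m (hFE hm) a haE l (hFE hl) h1 h2)
      · refine ⟨m, mem_insert_of_mem _ hm, fun l hl => ?_⟩
        rcases hl with rfl | hl
        · exact h1
        · exact hm2 l hl

/-- the same number of first clusters (0 or 1), with the same label -/
private def LCL_D {U : Type} (W : U → U → Prop) (X X' : Set U) (T T' : U → U → Prop) : Prop :=
  (∃ z, (∃ p ∈ X, LCL_Fst W X p ∧ T p z) ∧ ∃ p ∈ X', LCL_Fst W X' p ∧ T' p z) ∨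
    (∀ p ∈ X, ¬ LCL_Fst W X p) ∧ ∀ p ∈ X', ¬ LCL_Fst W X' p

private theorem LCL_first {U : Type} {W : U → U → Prop} {E X X' : Set U} {T T' : U → U → Prop}
    (h : LCL_WO W E) (hX : X ⊆ E) (hX' : X' ⊆ E) (hD : LCL_D W X X' T T')
    (ht : (∃ p ∈ X, ∃ q ∈ X, W p q) ↔ ∃ p ∈ X', ∃ q ∈ X', W p q)
    (hT : ∀ x ∈ X, ∀ p ∈ X, ¬ W x p → ¬ W p x → ∀ z, T p z → T x z) {x : U} (hx : x ∈ X)
    (hfx : LCL_Fst W X x) {B : Set U} (hB : B ⊆ X') (hB1 : ∀ u ∈ B, ¬ LCL_Fst W X' u) :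
    ∃ y ∈ X', (∀ u ∈ B, W y u) ∧ LCL_Fst W X' y ∧
      (LCL_Fst (fun a b => W b a) X x ↔ LCL_Fst (fun a b => W b a) X' y) ∧
      ∃ z, T x z ∧ T' y z := by
  rcases hD with ⟨z, ⟨p, hp, hfp, hTp⟩, ⟨y, hy, hfy, hTy⟩⟩ | ⟨h1, h2⟩
  · refine ⟨y, hy, fun u hu => ?_, hfy, ?_, z, hT x hx p hp (hfp x hx) (hfx p hp) z hTp, hTy⟩
    · have h3 := hB1 u hu
      unfold LCL_Fst at h3
      push Not at h3
      obtain ⟨q, hq, h4⟩ := h3
      exact (h.neg q (hX' hq) u (hX' (hB hu)) h4 y (hX' hy)).resolve_left (hfy q hq)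
    · have key : ∀ {Y : Set U}, Y ⊆ E → ∀ {v : U}, v ∈ Y → LCL_Fst W Y v →
          (LCL_Fst (fun a b => W b a) Y v ↔ ¬ ∃ p ∈ Y, ∃ q ∈ Y, W p q) := by
        intro Y hY v hv hf
        constructor
        · rintro hl ⟨p, hp, q, hq, hpq⟩
          rcases h.neg p (hY hp) q (hY hq) hpq v (hY hv) with h5 | h5
          · exact hf p hp h5
          · exact hl q hq h5
        · intro hn q hq hvq
          exact hn ⟨v, hv, q, hq, hvq⟩
      rw [key hX hx hfx, key hX' hy hfy, ht]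
  · exact absurd hfx (h1 x hx)

/-- the position of the new point -/
private theorem LCL_pos {U : Type} {W : U → U → Prop} {E X X' : Set U} {T T' : U → U → Prop}
    (h : LCL_WO W E) (hX : X ⊆ E) (hX' : X' ⊆ E) (hD : LCL_D W X X' T T')
    (hD' : LCL_D (fun a b => W b a) X X' T T')
    (ht : (∃ p ∈ X, ∃ q ∈ X, W p q) ↔ ∃ p ∈ X', ∃ q ∈ X', W p q)
    (hT : ∀ x ∈ X, ∀ p ∈ X, ¬ W x p → ¬ W p x → ∀ z, T p z → T x z)
    (hN : ∀ x ∈ X, ∃ z ∈ E, T x z)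
    (hI : ∀ p ∈ X', ∀ q ∈ X', W p q → ∀ z ∈ E, ∃ z' ∈ X', W p z' ∧ W z' q ∧ T' z' z)
    {x : U} (hx : x ∈ X) {A B : Set U} (hA : A ⊆ X') (hB : B ⊆ X') (hAf : A.Finite)
    (hBf : B.Finite) (hAB : ∀ a ∈ A, ∀ b ∈ B, W a b)
    (hA1 : ∀ a ∈ A, ¬ LCL_Fst (fun a b => W b a) X' a) (hB1 : ∀ b ∈ B, ¬ LCL_Fst W X' b)
    (hA2 : A.Nonempty → ¬ LCL_Fst W X x)
    (hB2 : B.Nonempty → ¬ LCL_Fst (fun a b => W b a) X x) :
    ∃ y ∈ X', (∀ a ∈ A, W a y) ∧ (∀ b ∈ B, W y b) ∧ (LCL_Fst W X x ↔ LCL_Fst W X' y) ∧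
      (LCL_Fst (fun a b => W b a) X x ↔ LCL_Fst (fun a b => W b a) X' y) ∧
      ∃ z, T x z ∧ T' y z := by
  by_cases h1 : LCL_Fst W X x
  · have hA0 : A = ∅ := by
      rcases A.eq_empty_or_nonempty with h0 | h0
      · exact h0
      · exact absurd h1 (hA2 h0)
    obtain ⟨y, hy, h2, h3, h4, h5⟩ := LCL_first h hX hX' hD ht hT hx h1 hB hB1
    exact ⟨y, hy, fun a ha => by rw [hA0] at ha; exact absurd ha (notMem_empty _), h2,
      ⟨fun _ => h3, fun _ => h1⟩, h4, h5⟩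
  · by_cases h2 : LCL_Fst (fun a b => W b a) X x
    · have hB0 : B = ∅ := by
        rcases B.eq_empty_or_nonempty with h0 | h0
        · exact h0
        · exact absurd h2 (hB2 h0)
      have ht' : (∃ p ∈ X, ∃ q ∈ X, W q p) ↔ ∃ p ∈ X', ∃ q ∈ X', W q p := by
        constructor
        · rintro ⟨p, hp, q, hq, h3⟩
          obtain ⟨p', hp', q', hq', h4⟩ := ht.1 ⟨q, hq, p, hp, h3⟩
          exact ⟨q', hq', p', hp', h4⟩
        · rintro ⟨p, hp, q, hq, h3⟩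
          obtain ⟨p', hp', q', hq', h4⟩ := ht.2 ⟨q, hq, p, hp, h3⟩
          exact ⟨q', hq', p', hp', h4⟩
      obtain ⟨y, hy, h3, h4, h5, h6⟩ := LCL_first h.swap hX hX' hD' ht'
        (fun x hx p hp h7 h8 => hT x hx p hp h8 h7) hx h2 hA hA1
      exact ⟨y, hy, h3, fun a ha => by rw [hB0] at ha; exact absurd ha (notMem_empty _), h5,
        ⟨fun _ => h4, fun _ => h2⟩, h6⟩
    · -- neither first nor last
      have hlu : ∃ l ∈ X', ∃ u ∈ X', W l u ∧ (∀ a ∈ A, ¬ W l a) ∧ ∀ b ∈ B, ¬ W b u := by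
        rcases A.eq_empty_or_nonempty with hA0 | hA0
        · rcases B.eq_empty_or_nonempty with hB0 | hB0
          · have h3 : ∃ p ∈ X, ∃ q ∈ X, W p q := by
              unfold LCL_Fst at h1
              push Not at h1
              obtain ⟨q, hq, h4⟩ := h1
              exact ⟨q, hq, x, hx, h4⟩
            obtain ⟨p, hp, q, hq, h4⟩ := ht.1 h3
            exact ⟨p, hp, q, hq, h4, fun a ha => by rw [hA0] at ha; exact absurd ha (notMem_empty _),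
              fun a ha => by rw [hB0] at ha; exact absurd ha (notMem_empty _)⟩
          · obtain ⟨u, hu, hu2⟩ := LCL_max h.swap hBf (hB.trans hX') hB0
            have h3 := hB1 u hu
            unfold LCL_Fst at h3
            push Not at h3
            obtain ⟨q, hq, h4⟩ := h3
            exact ⟨q, hq, u, hB hu, h4,
              fun a ha => by rw [hA0] at ha; exact absurd ha (notMem_empty _), hu2⟩
        · obtain ⟨l, hl, hl2⟩ := LCL_max h hAf (hA.trans hX') hA0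
          rcases B.eq_empty_or_nonempty with hB0 | hB0
          · have h3 := hA1 l hl
            unfold LCL_Fst at h3
            push Not at h3
            obtain ⟨q, hq, h4⟩ := h3
            exact ⟨l, hA hl, q, hq, h4, hl2,
              fun a ha => by rw [hB0] at ha; exact absurd ha (notMem_empty _)⟩
          · obtain ⟨u, hu, hu2⟩ := LCL_max h.swap hBf (hB.trans hX') hB0
            exact ⟨l, hA hl, u, hB hu, hAB l hl u hu, hl2, hu2⟩
      obtain ⟨l, hl, u, hu, hlu, hl2, hu2⟩ := hlu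
      obtain ⟨z, hz, hz2⟩ := hN x hx
      obtain ⟨y, hy, hly, hyu, hyz⟩ := hI l hl u hu hlu z hz
      refine ⟨y, hy, fun a ha => ?_, fun b hb => ?_, ⟨fun h3 => absurd h3 h1, fun h3 => ?_⟩,
        ⟨fun h3 => absurd h3 h2, fun h3 => ?_⟩, z, hz2, hyz⟩
      · exact (h.neg l (hX' hl) y (hX' hy) hly a (hX' (hA ha))).resolve_left (hl2 a ha)
      · exact (h.neg y (hX' hy) u (hX' hu) hyu b (hX' (hB hb))).resolve_right (hu2 b hb)
      · exact absurd hly (h3 l hl)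
      · exact absurd hyu (h3 u hu)

/-! ### Bijections with local automorphisms -/

section parts

variable {L : FirstOrder.Language.{0, 0}} {U : Type} [L.Structure U] {A E : Set U}
  {lt : U → U → Prop}

private def LCL_G (L : FirstOrder.Language.{0, 0}) {U : Type} [L.Structure U] (A X Y : Set U)
    (f : U → U) : Prop :=
  BijOn f X Y ∧ ∀ s : Set U, s.Finite → s ⊆ X → ∃ g : U ≃[L] U, Nx L A g ∧ ∀ x ∈ s, g x = f x

private theorem LCL_G_of_SmN {X Y : Set U} (h : SmN L A X Y) : ∃ f, LCL_G L A X Y f := by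
  classical
  obtain ⟨e, he⟩ := h
  have h1 : ∀ x (hx : x ∈ X), (if h : x ∈ X then (e ⟨x, h⟩ : U) else x) = e ⟨x, hx⟩ :=
    fun x hx => dif_pos hx
  refine ⟨fun x => if h : x ∈ X then (e ⟨x, h⟩ : U) else x, ⟨?_, ?_, ?_⟩, ?_⟩
  · intro x hx
    show (if h : x ∈ X then (e ⟨x, h⟩ : U) else x) ∈ Y
    rw [h1 x hx]
    exact (e ⟨x, hx⟩).2
  · intro x hx y hy hxy
    have h2 : (if h : x ∈ X then (e ⟨x, h⟩ : U) else x) =
      (if h : y ∈ X then (e ⟨y, h⟩ : U) else y) := hxy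
    rw [h1 x hx, h1 y hy] at h2
    have h3 := e.injective (Subtype.ext h2)
    exact congrArg Subtype.val h3
  · intro y hy
    refine ⟨(e.symm ⟨y, hy⟩ : X), (e.symm ⟨y, hy⟩).2, ?_⟩
    show (if h : ((e.symm ⟨y, hy⟩ : X) : U) ∈ X then (e ⟨(e.symm ⟨y, hy⟩ : X), h⟩ : U) else
      ((e.symm ⟨y, hy⟩ : X) : U)) = y
    rw [h1 _ (e.symm ⟨y, hy⟩).2]
    simp
  · intro s hs hsX
    obtain ⟨g, hg, hg2⟩ := he (Subtype.val ⁻¹' s) (hs.preimage Subtype.val_injective.injOn)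
    refine ⟨g, hg, fun x hx => ?_⟩
    show g x = (if h : x ∈ X then (e ⟨x, h⟩ : U) else x)
    rw [h1 x (hsX hx)]
    exact hg2 ⟨x, hsX hx⟩ hx

private theorem LCL_G_symm {X Y : Set U} {f : U → U} (h : LCL_G L A X Y f) :
    ∃ f', LCL_G L A Y X f' ∧ ∀ x ∈ X, f' (f x) = x := by
  classical
  rcases X.eq_empty_or_nonempty with h0 | ⟨x0, hx0⟩
  · subst h0
    have hY : Y = ∅ := by
      rw [← h.1.image_eq, image_empty]
    subst hY
    exact ⟨f, h, fun x hx => absurd hx (notMem_empty _)⟩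
  have hne : Nonempty U := ⟨x0⟩
  have h1 : InvOn (Function.invFunOn f X) f X Y := h.1.invOn_invFunOn
  refine ⟨Function.invFunOn f X, ⟨h.1.symm h1.symm, fun s hs hsY => ?_⟩, h1.1⟩
  have h2 : (Function.invFunOn f X '' s) ⊆ X := by
    rintro _ ⟨y, hy, rfl⟩
    exact (h.1.symm h1.symm).mapsTo (hsY hy)
  obtain ⟨g, hg, hg2⟩ := h.2 (Function.invFunOn f X '' s) (hs.image _) h2
  refine ⟨g.symm, nx_symm hg, fun y hy => ?_⟩
  · have h3 := hg2 _ (mem_image_of_mem _ hy)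
    rw [h1.2 (hsY hy)] at h3
    calc g.symm y = g.symm (g (Function.invFunOn f X y)) := by rw [h3]
      _ = _ := g.symm_apply_apply _

/-- the invariants of the back and forth construction -/
private structure LCL_P (L : FirstOrder.Language.{0, 0}) {U : Type} [L.Structure U]
    (lt : U → U → Prop) (A E : Set U) (M M' : Set U)
    (s : Set (U × U)) : Prop where
  m1 : ∀ c ∈ s, c.1 ∈ M ∩ E
  m2 : ∀ c ∈ s, c.2 ∈ M' ∩ E
  w : ∀ c ∈ s, ∀ c' ∈ s, (lt c.1 c'.1 ↔ lt c.2 c'.2)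
  f1 : ∀ c ∈ s, (LCL_Fst lt (M ∩ E) c.1 ↔ LCL_Fst lt (M' ∩ E) c.2)
  f2 : ∀ c ∈ s, (LCL_Fst (fun a b => lt b a) (M ∩ E) c.1 ↔
    LCL_Fst (fun a b => lt b a) (M' ∩ E) c.2)
  e : ∀ c ∈ s, ∃ f, LCL_G L A (Iv E lt M c.1 c.1) (Iv E lt M' c.2 c.2) f ∧
    ∀ c' ∈ s, ¬ lt c'.1 c.1 → ¬ lt c.1 c'.1 → f c'.1 = c'.2

private theorem LCL_P.swap {M M' : Set U} {s : Set (U × U)} (h : LCL_P L lt A E M M' s) :
    LCL_P L lt A E M' M (Prod.swap '' s) where
  m1 := by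
    rintro _ ⟨c, hc, rfl⟩
    exact h.m2 c hc
  m2 := by
    rintro _ ⟨c, hc, rfl⟩
    exact h.m1 c hc
  w := by
    rintro _ ⟨c, hc, rfl⟩ _ ⟨c', hc', rfl⟩
    exact (h.w c hc c' hc').symm
  f1 := by
    rintro _ ⟨c, hc, rfl⟩
    exact (h.f1 c hc).symm
  f2 := by
    rintro _ ⟨c, hc, rfl⟩
    exact (h.f2 c hc).symm
  e := by
    rintro _ ⟨c, hc, rfl⟩
    obtain ⟨f, hf, hf2⟩ := h.e c hc
    obtain ⟨f', hf', hf2'⟩ := LCL_G_symm hf
    refine ⟨f', hf', ?_⟩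
    rintro _ ⟨c', hc', rfl⟩ h1 h2
    have h3 : ¬ lt c'.1 c.1 := fun h4 => h1 ((h.w c' hc' c hc).1 h4)
    have h4 : ¬ lt c.1 c'.1 := fun h5 => h2 ((h.w c hc c' hc').1 h5)
    have h5 := hf2 c' hc' h3 h4
    show f' c'.2 = c'.1
    rw [← h5]
    exact hf2' c'.1 ⟨(h.m1 c' hc').1, (h.m1 c' hc').2, h3, h4⟩

private theorem LCL_itv (hW : LCL_WO lt E) (M : Set U) {a b : U} (ha : a ∈ E)
    (hb : b ∈ E) (h1 : ¬ lt a b) (h2 : ¬ lt b a) :
    Iv E lt M a a = Iv E lt M b b := by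
  ext z
  constructor
  · rintro ⟨hz, hzE, h3, h4⟩
    have h5 := hW.eqv ha hb h1 h2 hzE
    exact ⟨hz, hzE, fun h6 => h3 (h5.2.2 h6), fun h6 => h4 (h5.1.2 h6)⟩
  · rintro ⟨hz, hzE, h3, h4⟩
    have h5 := hW.eqv ha hb h1 h2 hzE
    exact ⟨hz, hzE, fun h6 => h3 (h5.2.1 h6), fun h6 => h4 (h5.1.1 h6)⟩

/-- adding a point equivalent to an old one, or a point of a new cluster -/
private theorem LCL_insert (hW : LCL_WO lt E) {M M' : Set U} {s : Set (U × U)}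
    (h : LCL_P L lt A E M M' s) {x y y' : U} {f : U → U} (hx : x ∈ M ∩ E) (hy' : y' ∈ M' ∩ E)
    (hf : LCL_G L A (Iv E lt M x x) (Iv E lt M' y' y') f) (hy : f x = y)
    (hw : ∀ c ∈ s, (lt x c.1 ↔ lt y' c.2) ∧
      (lt c.1 x ↔ lt c.2 y'))
    (h1 : LCL_Fst lt (M ∩ E) x ↔ LCL_Fst lt (M' ∩ E) y')
    (h2 : LCL_Fst (fun a b => lt b a) (M ∩ E) x ↔
      LCL_Fst (fun a b => lt b a) (M' ∩ E) y')
    (h3 : ∀ c ∈ s, ¬ lt c.1 x → ¬ lt x c.1 → f c.1 = c.2) :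
    LCL_P L lt A E M M' (insert (x, y) s) := by
  have hxI : x ∈ Iv E lt M x x := ⟨hx.1, hx.2, hW.irr x hx.2, hW.irr x hx.2⟩
  have hyI : y ∈ Iv E lt M' y' y' := hy ▸ hf.1.mapsTo hxI
  obtain ⟨hy1, hy2, hy3, hy4⟩ := hyI
  have hyy : ∀ {c : U}, c ∈ E → (lt y c ↔ lt y' c) ∧
    (lt c y ↔ lt c y') := fun hc => hW.eqv hy2 hy'.2 hy3 hy4 hc
  have hI : Iv E lt M' y y = Iv E lt M' y' y' := LCL_itv hW M' hy2 hy'.2 hy3 hy4
  refine ⟨?_, ?_, ?_, ?_, ?_, ?_⟩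
  · rintro c (rfl | hc)
    · exact hx
    · exact h.m1 c hc
  · rintro c (rfl | hc)
    · exact ⟨hy1, hy2⟩
    · exact h.m2 c hc
  · rintro c (rfl | hc) c' (rfl | hc')
    · exact ⟨fun h4 => absurd h4 (hW.irr x hx.2), fun h4 => absurd h4 (hW.irr y hy2)⟩
    · exact (hw c' hc').1.trans (hyy (h.m2 c' hc').2).1.symm
    · exact (hw c hc).2.trans (hyy (h.m2 c hc).2).2.symm
    · exact h.w c hc c' hc'
  · rintro c (rfl | hc)
    · refine h1.trans ⟨fun h4 q hq h5 => h4 q hq ((hyy hq.2).2.1 h5),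
        fun h4 q hq h5 => h4 q hq ((hyy hq.2).2.2 h5)⟩
    · exact h.f1 c hc
  · rintro c (rfl | hc)
    · refine h2.trans ⟨fun h4 q hq h5 => h4 q hq ((hyy hq.2).1.1 h5),
        fun h4 q hq h5 => h4 q hq ((hyy hq.2).1.2 h5)⟩
    · exact h.f2 c hc
  · rintro c (rfl | hc)
    · refine ⟨f, ?_, ?_⟩
      · show LCL_G L A (Iv E lt M x x) (Iv E lt M' y y) f
        rw [hI]
        exact hf
      · rintro c' (rfl | hc') h4 h5
        · exact hy
        · exact h3 c' hc' h4 h5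
    · by_cases hcx : ¬ lt c.1 x ∧ ¬ lt x c.1
      · have h6 := hw c hc
        have h7 := h.m2 c hc
        refine ⟨f, ?_, ?_⟩
        · rw [LCL_itv hW M (h.m1 c hc).2 hx.2 hcx.1 hcx.2,
            LCL_itv hW M' h7.2 hy'.2 (fun h8 => hcx.1 (h6.2.2 h8)) (fun h8 => hcx.2 (h6.1.2 h8))]
          exact hf
        · rintro c' (rfl | hc') h8 h9
          · exact hy
          · have h10 := hW.eqv (h.m1 c hc).2 hx.2 hcx.1 hcx.2 (h.m1 c' hc').2
            exact h3 c' hc' (fun h11 => h8 (h10.2.2 h11)) (fun h11 => h9 (h10.1.2 h11))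
      · obtain ⟨f', hf', hf2⟩ := h.e c hc
        refine ⟨f', hf', ?_⟩
        rintro c' (rfl | hc') h8 h9
        · exact absurd ⟨h9, h8⟩ hcx
        · exact hf2 c' hc' h8 h9

private theorem LCL_forth (hW : LCL_WO lt E) {M M' : Set U}
    (s2 : ∀ X Y : Set U, SmN L A X Y → SmN L A Y X)
    (s3 : ∀ X Y Z : Set U, SmN L A X Y → SmN L A Y Z → SmN L A X Z)
    (hD : LCL_D lt (M ∩ E) (M' ∩ E)
      (fun x z => SmN L A (Iv E lt M x x) (Iv E lt univ z z))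
      (fun x z => SmN L A (Iv E lt M' x x) (Iv E lt univ z z)))
    (hD' : LCL_D (fun a b => lt b a) (M ∩ E) (M' ∩ E)
      (fun x z => SmN L A (Iv E lt M x x) (Iv E lt univ z z))
      (fun x z => SmN L A (Iv E lt M' x x) (Iv E lt univ z z)))
    (ht : (∃ p ∈ M ∩ E, ∃ q ∈ M ∩ E, lt p q) ↔
      ∃ p ∈ M' ∩ E, ∃ q ∈ M' ∩ E, lt p q)
    (hN : ∀ x ∈ M ∩ E, ∃ z ∈ E, SmN L A (Iv E lt M x x) (Iv E lt univ z z))
    (hI : ∀ p ∈ M' ∩ E, ∀ q ∈ M' ∩ E, lt p q → ∀ z ∈ E, ∃ z' ∈ M' ∩ E,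
      lt p z' ∧ lt z' q ∧
        SmN L A (Iv E lt M' z' z') (Iv E lt univ z z))
    {s : Set (U × U)} (hs : s.Finite) (h : LCL_P L lt A E M M' s) {x : U}
    (hx : x ∈ M ∩ E) : ∃ y ∈ M' ∩ E, LCL_P L lt A E M M' (insert (x, y) s) := by
  by_cases hc : ∃ c ∈ s, ¬ lt c.1 x ∧ ¬ lt x c.1
  · obtain ⟨c, hc, hc1, hc2⟩ := hc
    obtain ⟨f, hf, hf2⟩ := h.e c hc
    have hcE := h.m1 c hc
    have hf3 : LCL_G L A (Iv E lt M x x) (Iv E lt M' c.2 c.2) f := by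
      rw [← LCL_itv hW M hcE.2 hx.2 hc1 hc2]
      exact hf
    have hxI : x ∈ Iv E lt M x x := ⟨hx.1, hx.2, hW.irr x hx.2, hW.irr x hx.2⟩
    have hy := hf3.1.mapsTo hxI
    have h0 : ∀ {d : U}, d ∈ E → (lt c.1 d ↔ lt x d) ∧
      (lt d c.1 ↔ lt d x) := fun hd => hW.eqv hcE.2 hx.2 hc1 hc2 hd
    refine ⟨f x, ⟨hy.1, hy.2.1⟩, LCL_insert hW h hx (h.m2 c hc) hf3 rfl ?_ ?_ ?_ ?_⟩
    · intro c' hc'
      have h4 := h0 (h.m1 c' hc').2
      exact ⟨h4.1.symm.trans (h.w c hc c' hc'), h4.2.symm.trans (h.w c' hc' c hc)⟩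
    · refine Iff.trans ⟨fun h4 q hq h5 => h4 q hq ((h0 hq.2).2.1 h5),
        fun h4 q hq h5 => h4 q hq ((h0 hq.2).2.2 h5)⟩ (h.f1 c hc)
    · refine Iff.trans ⟨fun h4 q hq h5 => h4 q hq ((h0 hq.2).1.1 h5),
        fun h4 q hq h5 => h4 q hq ((h0 hq.2).1.2 h5)⟩ (h.f2 c hc)
    · intro c' hc' h4 h5
      have h6 := h0 (h.m1 c' hc').2
      exact hf2 c' hc' (fun h7 => h4 (h6.2.1 h7)) (fun h7 => h5 (h6.1.1 h7))
  · push Not at hc
    obtain ⟨y', hy', h1, h2, h3, h4, z, h5, h6⟩ := LCL_pos (T' := fun x z =>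
        SmN L A (Iv E lt M' x x) (Iv E lt univ z z)) hW
      (inter_subset_right : M ∩ E ⊆ E) (inter_subset_right : M' ∩ E ⊆ E) hD hD' ht
      (fun x hx p hp h1 h2 z h3 => by
        have h4 := LCL_itv hW M hx.2 hp.2 h1 h2
        show SmN L A (Iv E lt M x x) (Iv E lt univ z z)
        rw [h4]
        exact h3) hN hI hx
      (A := {y | ∃ c ∈ s, lt c.1 x ∧ c.2 = y})
      (B := {y | ∃ c ∈ s, lt x c.1 ∧ c.2 = y})
      (by rintro _ ⟨c, hc, -, rfl⟩; exact h.m2 c hc)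
      (by rintro _ ⟨c, hc, -, rfl⟩; exact h.m2 c hc)
      ((hs.image Prod.snd).subset (by rintro _ ⟨c, hc, -, rfl⟩; exact ⟨c, hc, rfl⟩))
      ((hs.image Prod.snd).subset (by rintro _ ⟨c, hc, -, rfl⟩; exact ⟨c, hc, rfl⟩))
      (by
        rintro _ ⟨c, hc, h1, rfl⟩ _ ⟨c', hc', h2, rfl⟩
        exact (h.w c hc c' hc').1 (hW.tra _ (h.m1 c hc).2 x hx.2 _ (h.m1 c' hc').2 h1 h2))
      (by
        rintro _ ⟨c, hc, h1, rfl⟩ h2
        exact (h.f2 c hc).2 h2 x hx h1)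
      (by
        rintro _ ⟨c, hc, h1, rfl⟩ h2
        exact (h.f1 c hc).2 h2 x hx h1)
      (by
        rintro ⟨_, c, hc, h1, rfl⟩ h2
        exact h2 c.1 (h.m1 c hc) h1)
      (by
        rintro ⟨_, c, hc, h1, rfl⟩ h2
        exact h2 c.1 (h.m1 c hc) h1)
    obtain ⟨f, hf⟩ := LCL_G_of_SmN (s3 _ _ _ h5 (s2 _ _ h6))
    have hxI : x ∈ Iv E lt M x x := ⟨hx.1, hx.2, hW.irr x hx.2, hW.irr x hx.2⟩
    have hy := hf.1.mapsTo hxI
    refine ⟨f x, ⟨hy.1, hy.2.1⟩, LCL_insert hW h hx hy' hf rfl ?_ h3 h4 ?_⟩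
    · intro c hcs
      have hcE := (h.m1 c hcs).2
      have hcE' := (h.m2 c hcs).2
      by_cases h7 : lt c.1 x
      · have h8 := h1 c.2 ⟨c, hcs, h7, rfl⟩
        exact ⟨⟨fun h9 => absurd h7 (hW.asy hx.2 hcE h9),
          fun h9 => absurd h8 (hW.asy hy'.2 hcE' h9)⟩, ⟨fun _ => h8, fun _ => h7⟩⟩
      · have h9 := hc c hcs h7
        have h8 := h2 c.2 ⟨c, hcs, h9, rfl⟩
        exact ⟨⟨fun _ => h8, fun _ => h9⟩, ⟨fun h10 => absurd h10 h7,
          fun h10 => absurd h8 (hW.asy hcE' hy'.2 h10)⟩⟩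
    · intro c hcs h7 h8
      exact absurd (hc c hcs h7) h8

private theorem LCL_aut (hGRP : St_LGR) (hM : Mon L U) (hE : Lin L A E lt)
    (hW : LCL_WO lt E) {M M' : Set U} {s : Set (U × U)} (hs : s.Finite)
    (h : LCL_P L lt A E M M' s) : ∃ g : U ≃[L] U, Nx L A g ∧ ∀ c ∈ s, g c.1 = c.2 := by
  classical
  have hfun : ∀ c ∈ s, ∀ c' ∈ s, c'.1 = c.1 → c'.2 = c.2 := by
    intro c hc c' hc' h1
    obtain ⟨f, hf, hf2⟩ := h.e c hc
    have h2 := hW.irr c.1 (h.m1 c hc).2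
    rw [← hf2 c hc h2 h2, ← hf2 c' hc' (by rw [h1]; exact h2) (by rw [h1]; exact h2), h1]
  obtain ⟨t, ht⟩ : ∃ t : U → U, ∀ c ∈ s, t c.1 = c.2 := by
    refine ⟨fun x => if h : ∃ c ∈ s, c.1 = x then h.choose.2 else x, fun c hc => ?_⟩
    have h1 : ∃ c' ∈ s, c'.1 = c.1 := ⟨c, hc, rfl⟩
    show (if h : ∃ c' ∈ s, c'.1 = c.1 then h.choose.2 else c.1) = c.2
    rw [dif_pos h1]
    exact hfun c hc _ h1.choose_spec.1 h1.choose_spec.2
  obtain ⟨g, hg, hg2⟩ := hGRP L U hM A E lt hE (Prod.fst '' s) t (hs.image _)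
    (by rintro _ ⟨c, hc, rfl⟩; exact (h.m1 c hc).2)
    (by rintro _ ⟨c, hc, rfl⟩; rw [ht c hc]; exact (h.m2 c hc).2)
    (by
      rintro _ ⟨c, hc, rfl⟩ _ ⟨c', hc', rfl⟩ h1
      rw [ht c hc, ht c' hc']
      exact (h.w c hc c' hc').1 h1)
    (by
      rintro _ ⟨c, hc, rfl⟩
      obtain ⟨f, hf, hf2⟩ := h.e c hc
      obtain ⟨g, hg, hg2⟩ := hf.2 {y | y ∈ Prod.fst '' s ∧ ¬ lt c.1 y ∧
          ¬ lt y c.1} ((hs.image _).subset (fun y hy => hy.1)) (by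
        rintro _ ⟨⟨c', hc', rfl⟩, h1, h2⟩
        exact ⟨(h.m1 c' hc').1, (h.m1 c' hc').2, h2, h1⟩)
      refine ⟨g, hg, ?_⟩
      rintro _ ⟨c', hc', rfl⟩ h1 h2
      rw [hg2 c'.1 ⟨⟨c', hc', rfl⟩, h1, h2⟩, hf2 c' hc' h2 h1, ht c' hc'])
  exact ⟨g, hg, fun c hc => (hg2 c.1 ⟨c, hc, rfl⟩).trans (ht c hc)⟩

end parts

private theorem LCL_D.symm {U : Type} {W : U → U → Prop} {X X' : Set U} {T T' : U → U → Prop}
    (h : LCL_D W X X' T T') : LCL_D W X' X T' T := by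
  rcases h with ⟨z, h1, h2⟩ | ⟨h1, h2⟩
  · exact Or.inl ⟨z, h2, h1⟩
  · exact Or.inr ⟨h2, h1⟩

/-- the label of the first cluster -/
private noncomputable def LCL_lab {U : Type} (W : U → U → Prop) (X : Set U) (T : U → U → Prop) :
    Option U := by
  classical
  exact if h : ∃ z, ∃ p ∈ X, LCL_Fst W X p ∧ T p z then some h.choose else none

private theorem LCL_lab_eq {U : Type} {W : U → U → Prop} {X X' : Set U} {T T' : U → U → Prop}
    (hN : ∀ p ∈ X, ∃ z, T p z) (hN' : ∀ p ∈ X', ∃ z, T' p z)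
    (h : LCL_lab W X T = LCL_lab W X' T') : LCL_D W X X' T T' := by
  classical
  unfold LCL_lab at h
  by_cases h1 : ∃ z, ∃ p ∈ X, LCL_Fst W X p ∧ T p z
  · by_cases h2 : ∃ z, ∃ p ∈ X', LCL_Fst W X' p ∧ T' p z
    · rw [dif_pos h1, dif_pos h2] at h
      have h3 := Option.some.inj h
      refine Or.inl ⟨h1.choose, h1.choose_spec, ?_⟩
      rw [h3]
      exact h2.choose_spec
    · rw [dif_pos h1, dif_neg h2] at h
      cases h
  · by_cases h2 : ∃ z, ∃ p ∈ X', LCL_Fst W X' p ∧ T' p z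
    · rw [dif_neg h1, dif_pos h2] at h
      cases h
    · refine Or.inr ⟨fun p hp h3 => ?_, fun p hp h3 => ?_⟩
      · obtain ⟨z, hz⟩ := hN p hp
        exact h1 ⟨z, p, hp, h3, hz⟩
      · obtain ⟨z, hz⟩ := hN' p hp
        exact h2 ⟨z, p, hp, h3, hz⟩

private theorem LCL_md {L : FirstOrder.Language.{0, 0}} {U : Type} [L.Structure U] {A : Set U} :
    Md L A univ := ⟨fun s _ hs => by
  obtain ⟨x, hx⟩ := hs
  exact ⟨x, hx, mem_univ x⟩, subset_univ _⟩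

/-- [LCL] -/
theorem thm_LCL (hG : St_LGR) (hLOB : St_LOB) : St_LCL := by
  intro L U _ hM0 A E lt hE H1 H2
  classical
  have hW : LCL_WO lt E :=
    ⟨hE.irr, fun u hu w hw h v hv => hE.neg u hu v hv w hw h, hE.tra⟩
  obtain ⟨s1, s2, s3, -⟩ := thm_SMQ thm_GLQ thm_ALQ thm_OFQ thm_BND L U hM0
  have hct : Countable U := hM0.ctb
  let T : Set U → U → U → Prop := fun M x z =>
    SmN L A (Iv E lt M x x) (Iv E lt univ z z)
  let dat : Set U → Option U × Option U × Prop := fun M =>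
    (LCL_lab lt (M ∩ E) (T M), LCL_lab (fun a b => lt b a) (M ∩ E) (T M),
      ∃ p ∈ M ∩ E, ∃ q ∈ M ∩ E, lt p q)
  have key : ∀ M M' : Set U, Md L A M → Md L A M' → dat M = dat M' →
      SmN L A (M ∩ E) (M' ∩ E) := by
    intro M M' hM hM' hd
    have hd1 : LCL_lab lt (M ∩ E) (T M) = LCL_lab lt (M' ∩ E) (T M') :=
      congrArg (fun d => d.1) hd
    have hd2 : LCL_lab (fun a b => lt b a) (M ∩ E) (T M) =
        LCL_lab (fun a b => lt b a) (M' ∩ E) (T M') :=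
      congrArg (fun d => d.2.1) hd
    have hd3 : (∃ p ∈ M ∩ E, ∃ q ∈ M ∩ E, lt p q) ↔
        ∃ p ∈ M' ∩ E, ∃ q ∈ M' ∩ E, lt p q := by
      have h1 : (∃ p ∈ M ∩ E, ∃ q ∈ M ∩ E, lt p q) =
        ∃ p ∈ M' ∩ E, ∃ q ∈ M' ∩ E, lt p q := congrArg (fun d => d.2.2) hd
      exact iff_of_eq h1
    have hN : ∀ M : Set U, Md L A M → ∀ x ∈ M ∩ E, ∃ z ∈ E, T M x z :=
      fun M hM x hx => H1 M x hM hx.1 hx.2
    have hN' : ∀ M : Set U, Md L A M → ∀ x ∈ M ∩ E, ∃ z, T M x z := fun M hM x hx => by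
      obtain ⟨z, -, hz⟩ := hN M hM x hx
      exact ⟨z, hz⟩
    have hI : ∀ M : Set U, Md L A M → ∀ p ∈ M ∩ E, ∀ q ∈ M ∩ E, lt p q → ∀ z ∈ E,
        ∃ z' ∈ M ∩ E, lt p z' ∧ lt z' q ∧ T M z' z := by
      intro M hM p hp q hq hpq z hz
      obtain ⟨z', h1, h2, h3, h4, h5⟩ := H2 M p q hM hp.1 hp.2 hq.1 hq.2 hpq z hz
      exact ⟨z', ⟨h1, h2⟩, h3, h4, h5⟩
    have hD : LCL_D lt (M ∩ E) (M' ∩ E) (T M) (T M') :=
      LCL_lab_eq (hN' M hM) (hN' M' hM') hd1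
    have hD' : LCL_D (fun a b => lt b a) (M ∩ E) (M' ∩ E) (T M) (T M') :=
      LCL_lab_eq (hN' M hM) (hN' M' hM') hd2
    refine thm_BAF thm_BAG L U A (M ∩ E) (M' ∩ E) (LCL_P L lt A E M M') (Set.to_countable _)
      (Set.to_countable _) ?_ ?_ ?_ ?_
    · exact ⟨fun c hc => absurd hc (notMem_empty _), fun c hc => absurd hc (notMem_empty _),
        fun c hc => absurd hc (notMem_empty _), fun c hc => absurd hc (notMem_empty _),
        fun c hc => absurd hc (notMem_empty _), fun c hc => absurd hc (notMem_empty _)⟩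
    · intro s hs h x hx
      exact LCL_forth hW (s2 A) (s3 A) hD hD' hd3 (hN M hM) (hI M' hM') hs h hx
    · intro s hs h y hy
      obtain ⟨x, hx, h1⟩ := LCL_forth hW (s2 A) (s3 A) hD.symm hD'.symm hd3.symm (hN M' hM')
        (hI M hM) (hs.image Prod.swap) h.swap hy
      refine ⟨x, hx, ?_⟩
      have h2 := h1.swap
      rw [image_insert_eq, image_image] at h2
      simpa using h2
    · intro s hs h
      exact LCL_aut hG hM0 hE hW hs h
  -- one model for each datum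
  have hcd : Countable (Option U × Option U × Prop) := inferInstance
  have hnd : Nonempty (Option U × Option U × Prop) := ⟨(none, none, True)⟩
  obtain ⟨en, hen⟩ := exists_surjective_nat (Option U × Option U × Prop)
  refine ⟨fun n => if h : ∃ M, Md L A M ∧ dat M = en n then h.choose else univ, fun n => ?_,
    fun M hM => ?_⟩
  · show Md L A (if h : ∃ M, Md L A M ∧ dat M = en n then h.choose else univ)
    by_cases h1 : ∃ M, Md L A M ∧ dat M = en n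
    · rw [dif_pos h1]
      exact h1.choose_spec.1
    · rw [dif_neg h1]
      exact LCL_md
  · obtain ⟨n, hn⟩ := hen (dat M)
    have h1 : ∃ M, Md L A M ∧ dat M = en n := ⟨M, hM, hn.symm⟩
    refine ⟨n, ?_⟩
    show SmN L A (M ∩ E) ((if h : ∃ M, Md L A M ∧ dat M = en n then h.choose else univ) ∩ E)
    rw [dif_pos h1]
    exact key _ _ hM h1.choose_spec.1 (hn.symm.trans h1.choose_spec.2.symm)

end Pool.Agent.TPC
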