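import Pool.Agent.TPC.StE
import Pool.Agent.TPC.IMQ
import Pool.Agent.TPC.ALQ
import Pool.Agent.TPC.OFQ
import Pool.Agent.TPC.BND
import Pool.Agent.MNO.BAG

/-!
TPC: [LF2] lifting from `Sm` to `SmN` for pieces (helper87).
-/

set_option autoImplicit false
set_option linter.unusedVariables false

namespace Pool.Agent.TPC

open FirstOrder.Language Set
open scoped FirstOrder
open Pool.Agent.WOM (tp Mon IsEl IsoM CtU Fx Orb Isd)
open Pool.Agent.PMC (Sm Md NPf fx_symm fx_comp fx_mono comp_apply')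
open Pool.Agent.MNO (Dp FE Sq Nx SmN FE1 FinN)

/-- [LF2] -/
theorem thm_LF2 : St_LF2 := by
  intro L U _ hM hF A X x hA hX hS
  obtain ⟨-, -, -, -, h5, -, -, h8, -⟩ := thm_ALQ thm_OFQ thm_BND L U hM A hA
  obtain ⟨-, -, him⟩ := thm_IMQ L U hM A hA
  obtain ⟨f, hf⟩ := hS
  obtain ⟨x0, hx0⟩ : ∃ x0 : X, ((f x0 : Pq L A x) : U) = x :=
    ⟨f.symm ⟨x, (h5 x).2⟩, by rw [f.apply_symm_apply]⟩
  obtain ⟨g0, hg0, hg0'⟩ := hf {x0} (finite_singleton _)
  have e0 : g0 x0 = x := (hg0' x0 rfl).trans hx0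
  have hP0 : Pq L A x0 = Pq L A x := h8 x x0 (hX x0.2)
  have hg0P : g0 '' Pq L A x = Pq L A x := by
    have h1 := him g0 hg0 x0
    rw [e0, hP0] at h1
    exact h1
  have hmem : ∀ p, p ∈ Pq L A x ↔ g0.symm p ∈ Pq L A x := by
    intro p
    constructor
    · intro hp
      rw [← hg0P] at hp
      obtain ⟨q, hq, rfl⟩ := hp
      rw [g0.symm_apply_apply]
      exact hq
    · intro hp
      have h1 : g0 (g0.symm p) ∈ g0 '' Pq L A x := ⟨_, hp, rfl⟩
      rw [hg0P, g0.apply_symm_apply] at h1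
      exact h1
  have hinv : ∀ g : U ≃[L] U, Fx L (insert (x0 : U) A) g → ∀ y, g y ∈ Pq L A x ↔ y ∈ Pq L A x := by
    intro g hg y
    have h1 := him g (fx_mono (subset_insert _ _) hg) x0
    rw [hg x0 (mem_insert _ _), hP0] at h1
    constructor
    · intro hy
      rw [← h1] at hy
      obtain ⟨z, hz, hzy⟩ := hy
      exact g.injective hzy ▸ hz
    · intro hy
      rw [← h1]
      exact ⟨y, hy, rfl⟩
  have hS1 : Sm L (insert (x0 : U) A) X (Pq L A x) := by
    refine ⟨f.trans (g0.symm.toEquiv.subtypeEquiv hmem), fun s hs => ?_⟩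
    obtain ⟨g, hg, hg'⟩ := hf (insert x0 s) (hs.insert x0)
    refine ⟨g0.symm.comp g, ?_, fun y hy => ?_⟩
    · rintro a (rfl | ha)
      · rw [comp_apply', hg' x0 (mem_insert _ _), hx0, ← e0, g0.symm_apply_apply]
      · rw [comp_apply', hg a ha]
        exact fx_symm hg0 a ha
    · rw [comp_apply', hg' y (mem_insert_of_mem _ hy)]
      rfl
  obtain ⟨e, he⟩ := Pool.Agent.MNO.thm_LFT Pool.Agent.MNO.thm_BAG L U hM hF (insert (x0 : U) A)
    (Pq L A x) X (hA.insert _) hinv hX hS1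
  refine ⟨e, fun s hs => ?_⟩
  obtain ⟨g, hg, hg'⟩ := he s hs
  exact ⟨g, Pool.Agent.MNO.LFT.nmono (subset_insert _ _) hg, hg'⟩

end Pool.Agent.TPC
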