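import Pool.Agent.TPC.StC
import Pool.Agent.MNO.NBA

/-!
TPC [LGR]: gluing of automorphisms along clusters (after `MNO/GRP.lean`).
-/

set_option autoImplicit false
set_option linter.unusedVariables false

namespace Pool.Agent.TPC

open FirstOrder.Language Set
open scoped FirstOrder
open Pool.Agent.WOM (tp Mon IsEl IsoM CtU Fx Orb Isd)
open Pool.Agent.MNO (Nx nx_refl)

/-- last points of finite sets, for a strict order on `E` -/
private theorem LGR_last {U : Type} {E : Set U} {lt : U → U → Prop}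
    (hirr : ∀ w ∈ E, ¬ lt w w)
    (htra : ∀ u ∈ E, ∀ v ∈ E, ∀ w ∈ E, lt u v → lt v w → lt u w)
    {F : Set U} (hF : F.Finite) : F ⊆ E → F.Nonempty → ∃ x ∈ F, ∀ y ∈ F, ¬ lt x y := by
  induction F, hF using Set.Finite.induction_on with
  | empty => intro _ h; exact absurd h Set.not_nonempty_empty
  | @insert a s has hs ih =>
    intro hsub _
    have haE : a ∈ E := hsub (mem_insert a s)
    have hsE : s ⊆ E := fun x hx => hsub (mem_insert_of_mem a hx)
    rcases s.eq_empty_or_nonempty with h0 | h0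
    · refine ⟨a, mem_insert a s, fun y hy => ?_⟩
      rcases hy with rfl | hy
      · exact hirr _ haE
      · rw [h0] at hy; exact absurd hy (Set.notMem_empty y)
    · obtain ⟨x, hx, hxm⟩ := ih hsE h0
      by_cases hxa : lt x a
      · refine ⟨a, mem_insert a s, fun y hy => ?_⟩
        rcases hy with rfl | hy
        · exact hirr _ haE
        · intro hay
          exact hxm y hy (htra x (hsE hx) a haE y (hsE hy) hxa hay)
      · refine ⟨x, mem_insert_of_mem a hx, fun y hy => ?_⟩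
        rcases hy with rfl | hy
        · exact hxa
        · exact hxm y hy

theorem thm_LGR : St_LGR := by
  intro L U _ hU A E lt hL
  have key : ∀ n : ℕ, ∀ (F : Set U) (t : U → U), F.Finite → F.ncard = n → F ⊆ E →
      (∀ x ∈ F, t x ∈ E) →
      (∀ x ∈ F, ∀ y ∈ F, lt x y → lt (t x) (t y)) →
      (∀ x ∈ F, ∃ g : U ≃[L] U, Nx L A g ∧ ∀ y ∈ F, ¬ lt x y → ¬ lt y x → g y = t y) →
      ∃ g : U ≃[L] U, Nx L A g ∧ ∀ x ∈ F, g x = t x := by
    intro n
    induction n using Nat.strong_induction_on with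
    | _ n ih =>
      intro F t hF hn hFE htE hmon hloc
      rcases F.eq_empty_or_nonempty with h0 | h0
      · refine ⟨_, nx_refl A, fun x hx => ?_⟩
        rw [h0] at hx
        exact absurd hx (Set.notMem_empty x)
      obtain ⟨x0, hx0, hlast⟩ := LGR_last hL.irr hL.tra hF hFE h0
      have hWF : {x | x ∈ F ∧ lt x x0} ⊆ F := fun x hx => hx.1
      have hSF : {x | x ∈ F ∧ ¬ lt x x0} ⊆ F := fun x hx => hx.1
      have hx0W : x0 ∉ {x | x ∈ F ∧ lt x x0} := fun h => hL.irr x0 (hFE hx0) h.2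
      have hlt : {x | x ∈ F ∧ lt x x0}.ncard < n := by
        rw [← hn]
        exact Set.ncard_lt_ncard ⟨hWF, fun h => hx0W (h hx0)⟩ hF
      obtain ⟨g', hg', hg't⟩ := ih _ hlt _ t (hF.subset hWF) rfl (hWF.trans hFE)
        (fun x hx => htE x hx.1) (fun x hx y hy h => hmon x hx.1 y hy.1 h)
        (fun x hx => by
          obtain ⟨g, hg, hgt⟩ := hloc x hx.1
          exact ⟨g, hg, fun y hy => hgt y hy.1⟩)
      obtain ⟨g0, hg0, hg0t⟩ := hloc x0 hx0
      have hg0S : ∀ s ∈ {x | x ∈ F ∧ ¬ lt x x0}, g0 s = t s :=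
        fun s hs => hg0t s hs.1 (hlast s hs.1) hs.2
      have hWS : LT lt {x | x ∈ F ∧ lt x x0} {x | x ∈ F ∧ ¬ lt x x0} := by
        intro w hw s hs
        rcases hL.neg w (hFE hw.1) s (hFE hs.1) x0 (hFE hx0) hw.2 with h | h
        · exact h
        · exact absurd h hs.2
      have hgg : LT lt (g' '' {x | x ∈ F ∧ lt x x0}) (g0 '' {x | x ∈ F ∧ ¬ lt x x0}) := by
        rintro _ ⟨w, hw, rfl⟩ _ ⟨s, hs, rfl⟩
        rw [hg't w hw, hg0S s hs]
        exact hmon w hw.1 s hs.1 (hWS w hw s hs)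
      obtain ⟨h, hh, hhW, hhS⟩ := hL.ort _ _ (hF.subset hWF) (hF.subset hSF) (hWF.trans hFE)
        (hSF.trans hFE) hWS g' g0 hg' hg0 hgg
      refine ⟨h, hh, fun x hx => ?_⟩
      by_cases hxW : lt x x0
      · rw [hhW x ⟨hx, hxW⟩]
        exact hg't x ⟨hx, hxW⟩
      · rw [hhS x ⟨hx, hxW⟩]
        exact hg0S x ⟨hx, hxW⟩
  intro F t hF hFE htE hmon hloc
  exact key F.ncard F t hF rfl hFE htE hmon hloc

end Pool.Agent.TPC
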