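import Pool.Agent.TPC.StC
import Pool.Agent.MNO.INS

/-!
TPC: insertion of copies of an interval of a model into a rich model: `St_LIN` (the text follows
`Pool/Agent/MNO/INS.lean`, helper13).
-/

set_option autoImplicit false
set_option linter.unusedVariables false

namespace Pool.Agent.TPC

open FirstOrder.Language Set
open scoped FirstOrder
open Pool.Agent.WOM (tp Mon IsEl IsoM CtU Fx Orb Isd)
open Pool.Agent.PMC (Sm Md NPf)
open Pool.Agent.MNO (Dp FE Sq Nx SmN FE1 FinN)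

open Pool.Agent.MNO.InsProof in
theorem LIN_core (h2 : St_LPC) (h3 : St_LSU) {L : FirstOrder.Language.{0, 0}} {U : Type}
    [L.Structure U] (hMon : Mon L U) {A E : Set U} {lt : U → U → Prop} (hL : Lin L A E lt)
    (oCmp : ∀ u ∈ E, ∀ w ∈ E, lt u w → ∀ v ∈ E, lt u v ∨ lt v w)
    (inv : ∀ g : U ≃[L] U, Nx L A g → ∀ w ∈ E, ∀ z ∈ E, (lt (g w) (g z) ↔ lt w z))
    {M0 M : Set U} {p q : U} (hM0 : Rch L A M0) (hM : Md L A M) (hpM : p ∈ M) (hpE : p ∈ E)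
    (hqM : q ∈ M) (hqE : q ∈ E) (hqp : ¬ lt q p) (O : Type) [LinearOrder O]
    [Countable O] :
    ∃ (X0 : Set U) (r : O → (U ≃[L] U)), (∀ a, Nx L A (r a)) ∧ (∀ x ∉ E, (x ∈ X0 ↔ x ∈ M0)) ∧
      (∀ T : Set O, IsEl L (X0 ∪ ⋃ a ∈ T, (r a) '' Iv E lt M p q)) ∧
      (∀ a, ∀ x ∈ (r a) '' Iv E lt M p q, x ∉ X0) ∧
      (∀ a a', a < a' → ∀ x ∈ (r a) '' Iv E lt M p q,
        ∀ y ∈ (r a') '' Iv E lt M p q, lt x y) ∧
      (∀ x ∈ X0, x ∈ E → ∀ a, (∀ y ∈ (r a) '' Iv E lt M p q, lt x y) ∨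
        ∀ y ∈ (r a) '' Iv E lt M p q, lt y x) ∧
      (∀ x ∈ X0, x ∈ E → ∃ z ∈ M0, z ∈ E ∧ ∃ g : U ≃[L] U, Nx L A g ∧
        x ∈ g '' Iv E lt M0 z z ∧ ∀ y ∈ E, ¬ lt x y → ¬ lt y x →
          (y ∈ X0 ↔ y ∈ g '' Iv E lt M0 z z)) ∧
      (∀ x ∈ E, ∀ y ∈ E, (x ∈ X0 ∨ ∃ a, x ∈ (r a) '' Iv E lt M p q) →
        (y ∈ X0 ∨ ∃ a, y ∈ (r a) '' Iv E lt M p q) → lt x y →
        (¬ ∃ a, x ∈ (r a) '' Iv E lt M p q ∧ y ∈ (r a) '' Iv E lt M p q) →
        ∀ z ∈ M0, z ∈ E → ∃ g : U ≃[L] U, Nx L A g ∧ g z ∈ X0 ∧ lt x (g z) ∧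
          lt (g z) y ∧ ∀ w ∈ E, ¬ lt (g z) w → ¬ lt w (g z) →
            (w ∈ X0 ↔ w ∈ g '' Iv E lt M0 z z)) ∧
      (∃ y ∈ X0, ∃ y' ∈ X0, y ∈ E ∧ y' ∈ E ∧ lt y y' ∧
        ∀ a, ∀ x ∈ (r a) '' Iv E lt M p q, lt y' x) := by
  have invE : ∀ g : U ≃[L] U, Nx L A g → ∀ x, g x ∈ E ↔ x ∈ E :=
    fun g hg x => hL.fxE g hg.1 x
  have irr := hL.irr
  have oTr := hL.tra
  have := hMon.ctb
  have hric : ∀ x ∈ E, ∀ F, FE1 L A F → ∃ y ∈ M0 ∩ E, y ∈ Orb L A x ∧ F x y := by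
    intro x hx F hF
    obtain ⟨y, hy, hyc, hFy⟩ := hM0.2 x F hF
    refine ⟨y, ⟨hy, ?_⟩, hyc, hFy⟩
    obtain ⟨h, hh, rfl⟩ := hyc
    exact (hL.fxE h hh x).2 hx
  have hZne : (M0 ∩ E).Nonempty := by
    obtain ⟨x, hx⟩ := hL.ne
    have hF : FE1 L A (fun _ _ : U => True) := by
      refine ⟨Pool.Agent.MNO.dp_true, ⟨fun _ => trivial, fun _ => trivial, fun _ _ => trivial⟩,
        {fun _ => x}, Set.finite_singleton _, fun y => ⟨fun _ => x, rfl, trivial⟩⟩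
    obtain ⟨y, hy, _⟩ := hric x hx _ hF
    exact ⟨y, hy⟩
  obtain ⟨c, hcZ, hc⟩ := Pool.Agent.PMC.thm_DNF U (M0 ∩ E) (Set.to_countable _) hZne
  have hcE : ∀ r, c r ∈ E := fun r => (hcZ r).2
  have hcM : ∀ r, c r ∈ M0 := fun r => (hcZ r).1
  have : Countable (WithBot O) := inferInstanceAs (Countable (Option O))
  have : Countable (WithBot ℚ) := inferInstanceAs (Countable (Option ℚ))
  have : Countable (W O) := inferInstanceAs (Countable (WithBot O × WithBot ℚ))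
  let D := {d : W O // d ≠ w0}
  let s2 : D → WithBot ℚ := fun d => (ofLex d.1).2
  let mm : D → Set U := fun d => mo M0 M (s2 d)
  let pp : D → U := fun d => po p c (s2 d)
  let qq : D → U := fun d => po q c (s2 d)
  have hpp : ∀ d, pp d ∈ E := fun d => po_mem hpE hcE _
  have hqq : ∀ d, qq d ∈ E := fun d => po_mem hqE hcE _
  have hqp' : ∀ d, ¬ lt (qq d) (pp d) := fun d =>
    po_lt hqp (fun r => irr _ (hcE r)) _
  obtain ⟨g, hg, hlt⟩ := h2 L U hMon A E lt hL D pp qq hpp hqq hqp'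
  let P : D → Set U := fun d => (g d) '' Iv E lt (mm d) (pp d) (qq d)
  have hPE : ∀ d, ∀ x ∈ P d, x ∈ E := by
    rintro d _ ⟨x, hx, rfl⟩
    exact (invE _ (hg d) x).2 hx.2.1
  have hPp : ∀ d, ∀ x ∈ P d, ¬ lt x (g d (pp d)) := by
    rintro d _ ⟨x, hx, rfl⟩ h
    exact hx.2.2.1 ((inv _ (hg d) x hx.2.1 _ (hpp d)).1 h)
  have hPq : ∀ d, ∀ x ∈ P d, ¬ lt (g d (qq d)) x := by
    rintro d _ ⟨x, hx, rfl⟩ h
    exact hx.2.2.2 ((inv _ (hg d) _ (hqq d) x hx.2.1).1 h)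
  have hgp : ∀ d, g d (pp d) ∈ E := fun d => (invE _ (hg d) _).2 (hpp d)
  have hgq : ∀ d, g d (qq d) ∈ E := fun d => (invE _ (hg d) _).2 (hqq d)
  have hPlt : ∀ d d', d < d' → ∀ x ∈ P d, ∀ y ∈ P d', lt x y := by
    intro d d' hd x hx y hy
    have e1 : lt x (g d' (pp d')) := by
      rcases oCmp _ (hgq d) _ (hgp d') (hlt d d' hd) x (hPE d x hx) with h | h
      · exact absurd h (hPq d x hx)
      · exact h
    rcases oCmp _ (hPE d x hx) _ (hgp d') e1 y (hPE d' y hy) with h | h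
    · exact h
    · exact absurd h (hPp d' y hy)
  -- the indices
  have hia : ∀ a : O, (toLex ((a : WithBot O), (⊥ : WithBot ℚ)) : W O) ≠ w0 := by
    intro a h
    have h' : (ofLex (toLex ((a : WithBot O), (⊥ : WithBot ℚ)) : W O)).1
        = (ofLex (w0 : W O)).1 := by rw [h]
    exact WithBot.coe_ne_bot h'
  let ia : O → D := fun a => ⟨toLex ((a : WithBot O), (⊥ : WithBot ℚ)), hia a⟩
  let ra : WithBot O → ℚ → D := fun a r => ⟨rat a r, rat_ne a r⟩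
  have ia_of : ∀ d : D, s2 d = ⊥ → ∃ a, d = ia a := by
    rintro ⟨d, hd⟩ h
    have h' : (ofLex d).2 = ⊥ := h
    rcases hα : (ofLex d).1 with _ | a
    · exfalso
      apply hd
      show d = toLex (⊥, ⊥)
      have : ofLex d = (⊥, ⊥) := Prod.ext hα h'
      rw [← this]
      rfl
    · refine ⟨a, Subtype.ext ?_⟩
      have : ofLex d = ((a : WithBot O), ⊥) := Prod.ext hα h'
      show d = toLex ((a : WithBot O), ⊥)
      rw [← this]
      rfl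
  have ia_lt : ∀ a a', a < a' → ia a < ia a' := by
    intro a a' h
    exact (Prod.Lex.lt_iff).2 (Or.inl (WithBot.coe_lt_coe.2 h))
  have ia_ne : ∀ a (d : D), s2 d ≠ ⊥ → d ≠ ia a := by
    rintro a d hd rfl
    exact hd rfl
  have ra_ne : ∀ a r, s2 (ra a r) ≠ ⊥ := fun a r => WithBot.coe_ne_bot
  have ra_mem : ∀ a r, g (ra a r) (c r) ∈ P (ra a r) := by
    intro a r
    exact ⟨c r, ⟨hcM r, hcE r, irr _ (hcE r), irr _ (hcE r)⟩, rfl⟩
  have btw : ∀ d d' : D, d < d' → ∀ z ∈ M0 ∩ E, ∃ (a : WithBot O) (r : ℚ), c r = z ∧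
      d < ra a r ∧ ra a r < d' := by
    intro d d' h z hz
    obtain ⟨a, r, e1, e2, e3⟩ := between_rat hc hz d.1 d'.1 h
    exact ⟨a, r, e1, e2, e3⟩
  have abv : ∀ d : D, ∀ z ∈ M0 ∩ E, ∃ (a : WithBot O) (r : ℚ), c r = z ∧ d < ra a r := by
    intro d z hz
    obtain ⟨a, r, e1, e2⟩ := above_rat hc hz d.1
    exact ⟨a, r, e1, e2⟩
  have blw : ∀ d : D, ∀ z ∈ M0 ∩ E, ∃ (a : WithBot O) (r : ℚ), c r = z ∧ ra a r < d := by
    intro d z hz
    obtain ⟨a, r, e1, _, e3⟩ := between_rat hc hz w0 d.1 (w0_lt d.1 d.2)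
    exact ⟨a, r, e1, e3⟩
  let X0 : Set U := {x | (x ∈ M0 ∧ x ∉ E) ∨ ∃ d, s2 d ≠ ⊥ ∧ x ∈ P d}
  have hX0 : ∀ x ∈ X0, x ∈ E → ∃ d, s2 d ≠ ⊥ ∧ x ∈ P d := by
    rintro x (h | h) hx
    · exact absurd hx h.2
    · exact h
  -- points of a rational index
  have hcl : ∀ d, s2 d ≠ ⊥ → ∃ r, mm d = M0 ∧ pp d = c r ∧ qq d = c r := by
    intro d hd
    show ∃ r, mo M0 M (s2 d) = M0 ∧ po p c (s2 d) = c r ∧ po q c (s2 d) = c r
    rcases hβ : s2 d with _ | r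
    · exact absurd hβ hd
    · exact ⟨r, rfl, rfl, rfl⟩
  -- the cluster of a point of a rational index
  have hclu : ∀ d, s2 d ≠ ⊥ → ∀ v ∈ P d, ∀ w ∈ E, ¬ lt v w → ¬ lt w v →
      (w ∈ X0 ↔ w ∈ P d) := by
    intro d hd v hv w hw h1 h2
    constructor
    · intro hw0
      obtain ⟨d', hd', hwd'⟩ := hX0 w hw0 hw
      rcases lt_trichotomy d d' with h | h | h
      · exact absurd (hPlt _ _ h v hv w hwd') h1
      · rw [h]
        exact hwd'
      · exact absurd (hPlt _ _ h w hwd' v hv) h2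
    · intro h
      exact Or.inr ⟨d, hd, h⟩
  -- transport of a finite equivalence relation
  have hFg : ∀ F, FE1 L A F → ∀ h : U ≃[L] U, Nx L A h → ∀ x y, F x y → F x (h y) := by
    intro F hF h hh x y hxy
    have e1 : F y (h y) := hh.2 1 (fun _ => y) _ hF
    exact hF.eqv.trans (x := fun _ => x) (y := fun _ => y) (z := fun _ => h y) hxy e1
  refine ⟨X0, fun a => g (ia a), fun a => hg _, ?_, ?_, ?_, ?_, ?_, ?_, ?_, ?_⟩
  · intro x hx
    constructor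
    · rintro (h | ⟨d, _, hd⟩)
      · exact h.1
      · exact absurd (hPE d x hd) hx
    · intro h
      exact Or.inl ⟨h, hx⟩
  · intro S
    let D' := {d : D // ∀ a, d = ia a → a ∈ S}
    let rb : WithBot O → ℚ → D' := fun a r => ⟨ra a r, fun b hb => absurd hb (ia_ne b _ (ra_ne a r))⟩
    have key := h3 L U hMon A E lt hL D' {d | s2 d.1 ≠ ⊥} M0 (fun d => mm d.1)
      (fun d => pp d.1) (fun d => qq d.1) (fun d => g d.1) (fun d => hg _) hM0.1 ?_ ?_ ?_ ?_ ?_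
    · have : (X0 ∪ ⋃ a ∈ S, (g (ia a)) '' Iv E lt M p q) =
          (M0 \ E) ∪ ⋃ d : D', (g d.1) '' Iv E lt (mm d.1) (pp d.1) (qq d.1) := by
        ext x
        constructor
        · rintro ((h | ⟨d, hd, hx⟩) | h)
          · exact Or.inl h
          · exact Or.inr (mem_iUnion.2 ⟨⟨d, fun b hb => absurd hb (ia_ne b _ hd)⟩, hx⟩)
          · obtain ⟨a, ha, hx⟩ := mem_iUnion₂.1 h
            refine Or.inr (mem_iUnion.2 ⟨⟨ia a, fun b hb => ?_⟩, hx⟩)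
            have e1 : (ofLex (ia a).1).1 = (ofLex (ia b).1).1 := by rw [hb]
            have e2 : a = b := WithBot.coe_injective e1
            rw [← e2]
            exact ha
        · rintro (h | h)
          · exact Or.inl (Or.inl h)
          · obtain ⟨⟨d, hd⟩, hx⟩ := mem_iUnion.1 h
            by_cases hb : s2 d = ⊥
            · obtain ⟨a, rfl⟩ := ia_of d hb
              exact Or.inr (mem_iUnion₂.2 ⟨a, hd a rfl, hx⟩)
            · exact Or.inl (Or.inr ⟨d, hb, hx⟩)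
      rw [this]
      exact key
    · intro d
      by_cases hb : s2 d.1 = ⊥
      · obtain ⟨a, ha⟩ := ia_of d.1 hb
        have e1 : mm d.1 = M := by rw [ha]; rfl
        show Md L A (mm d.1)
        rw [e1]
        exact hM
      · show Md L A (mm d.1)
        obtain ⟨r, e1, _⟩ := hcl d.1 hb
        rw [e1]
        exact hM0.1
    · exact fun d => ⟨po_mo hpM hcM _, hpp _⟩
    · exact fun d => ⟨po_mo hqM hcM _, hqq _⟩
    · exact fun d d' h => hlt d.1 d'.1 h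
    · intro x hx F hF
      obtain ⟨y, hyZ, hyc, hFy⟩ := hric x hx F hF
      have hgy : ∀ a r, c r = y → ∃ x' ∈ P (ra a r), x' ∈ Orb L A x ∧ F x x' := by
        intro a r e1
        refine ⟨g (ra a r) y, ?_, ?_, hFg F hF _ (hg _) x y hFy⟩
        · rw [← e1]
          exact ra_mem a r
        · obtain ⟨h, hh, rfl⟩ := hyc
          exact ⟨(g (ra a r)).comp h, fun z hz => by
            change g (ra a r) (h z) = z
            rw [hh z hz, (hg (ra a r)).1 z hz], rfl⟩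
      refine ⟨?_, ?_, ?_, ?_⟩
      · obtain ⟨r, e1, _⟩ := above_bot hc hyZ ⊥
        exact ⟨rb ⊥ r, ra_ne _ _, hgy ⊥ r e1⟩
      · intro d
        obtain ⟨a, r, e1, e2⟩ := blw d.1 y hyZ
        exact ⟨rb a r, ra_ne _ _, e2, hgy a r e1⟩
      · intro d
        obtain ⟨a, r, e1, e2⟩ := abv d.1 y hyZ
        exact ⟨rb a r, ra_ne _ _, e2, hgy a r e1⟩
      · intro d d' h
        obtain ⟨a, r, e1, e2, e3⟩ := btw d.1 d'.1 h y hyZ
        exact ⟨rb a r, ra_ne _ _, e2, e3, hgy a r e1⟩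
  · intro a x hx hx0
    have hxa : x ∈ P (ia a) := hx
    obtain ⟨d, hd, hxd⟩ := hX0 x hx0 (hPE _ x hxa)
    rcases lt_trichotomy d (ia a) with h | h | h
    · exact irr x (hPE _ x hxa) (hPlt d _ h x hxd x hxa)
    · exact ia_ne a d hd h
    · exact irr x (hPE _ x hxa) (hPlt _ d h x hxa x hxd)
  · intro a a' h x hx y hy
    exact hPlt (ia a) (ia a') (ia_lt a a' h) x hx y hy
  · intro x hx0 hx a
    obtain ⟨d, hd, hxd⟩ := hX0 x hx0 hx
    rcases lt_trichotomy d (ia a) with h | h | h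
    · exact Or.inl fun y hy => hPlt d _ h x hxd y hy
    · exact absurd h (ia_ne a d hd)
    · exact Or.inr fun y hy => hPlt _ d h y hy x hxd
  · intro x hx0 hx
    obtain ⟨d, hd, hxd⟩ := hX0 x hx0 hx
    obtain ⟨r, e1, e2, e3⟩ := hcl d hd
    have e4 : P d = (g d) '' Iv E lt M0 (c r) (c r) := by
      show (g d) '' Iv E lt (mm d) (pp d) (qq d) = _
      rw [e1, e2, e3]
    refine ⟨c r, hcM r, hcE r, g d, hg d, ?_, fun y hy h1 h2 => ?_⟩
    · rw [← e4]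
      exact hxd
    · rw [← e4]
      exact hclu d hd x hxd y hy h1 h2
  · intro x hx y hy hx0 hy0 hxy hno z hzM hzE
    have idx : ∀ x ∈ E, (x ∈ X0 ∨ ∃ a, x ∈ (g (ia a)) '' Iv E lt M p q) →
        ∃ d, x ∈ P d := by
      rintro x hx (h | ⟨a, ha⟩)
      · obtain ⟨d, _, hd⟩ := hX0 x h hx
        exact ⟨d, hd⟩
      · exact ⟨ia a, ha⟩
    obtain ⟨d, hd⟩ := idx x hx hx0
    obtain ⟨d', hd'⟩ := idx y hy hy0
    rcases lt_trichotomy d d' with h | h | h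
    · obtain ⟨a, r, e1, e2, e3⟩ := btw d d' h z ⟨hzM, hzE⟩
      have e4 := ra_mem a r
      have e5 : P (ra a r) = (g (ra a r)) '' Iv E lt M0 (c r) (c r) := rfl
      rw [e1] at e4 e5
      refine ⟨g (ra a r), hg _, Or.inr ⟨_, ra_ne a r, e4⟩, hPlt _ _ e2 x hd _ e4,
        hPlt _ _ e3 _ e4 y hd', fun w hw h1 h2 => ?_⟩
      rw [← e5]
      exact hclu _ (ra_ne a r) _ e4 w hw h1 h2
    · exfalso
      subst h
      by_cases hb : s2 d = ⊥
      · obtain ⟨a, rfl⟩ := ia_of d hb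
        exact hno ⟨a, hd, hd'⟩
      · obtain ⟨r, e1, e2, e3⟩ := hcl d hb
        rcases oCmp _ hx _ hy hxy _ (hgp d) with h' | h'
        · exact hPp d x hd h'
        · apply hPq d y hd'
          rw [e3, ← e2]
          exact h'
    · exact absurd (oTr _ hx _ hy _ hx hxy (hPlt _ _ h y hd' x hd)) (irr x hx)
  · have h01 : ra ⊥ 0 < ra ⊥ 1 :=
      (Prod.Lex.lt_iff).2 (Or.inr ⟨rfl, WithBot.coe_lt_coe.2 (by norm_num)⟩)
    refine ⟨g (ra ⊥ 0) (c 0), Or.inr ⟨_, ra_ne _ _, ra_mem _ _⟩, g (ra ⊥ 1) (c 1),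
      Or.inr ⟨_, ra_ne _ _, ra_mem _ _⟩, hPE _ _ (ra_mem _ _), hPE _ _ (ra_mem _ _),
      hPlt _ _ h01 _ (ra_mem _ _) _ (ra_mem _ _), ?_⟩
    intro a x hx
    have h1a : ra ⊥ 1 < ia a := (Prod.Lex.lt_iff).2 (Or.inl (WithBot.bot_lt_coe a))
    exact hPlt _ _ h1a _ (ra_mem _ _) x hx

/-- **LIN** -/
theorem thm_LIN (hLPC : St_LPC) (hLSU : St_LSU) (hLOB : St_LOB) (hFEQ : St_FEQ) : St_LIN := by
  intro L U _ hMon A E lt hL M0 M p q hM0 hM hpM hpE hqM hqE hqp O _ _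
  exact LIN_core hLPC hLSU hMon hL (fun u hu w hw h v hv => hL.neg u hu v hv w hw h)
    (fun g hg w hw z hz => hL.fxl g hg.1 w hw z hz) hM0 hM hpM hpE hqM hqE hqp O

end Pool.Agent.TPC
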