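import Pool.Agent.TPC.StE
import Pool.Agent.MNO.OMI

/-!
TPC: module LMT (helper21): realisation of limits.
-/

set_option autoImplicit false
set_option linter.unusedVariables false

namespace Pool.Agent.TPC

open FirstOrder.Language Set
open scoped FirstOrder
open Pool.Agent.WOM (tp Mon IsEl IsoM CtU Fx Orb Isd)
open Pool.Agent.PMC (Sm Md NPf)
open Pool.Agent.MNO (Dp FE Sq Nx SmN FE1 FinN omi_real omi_tr)

theorem thm_LMT : St_LMT := by
  classical
  intro L U _ hM B I _ a hB
  rcases isEmpty_or_nonempty I with hI | hI
  · refine ⟨fun i => isEmptyElim i, fun n P hP i hev => ?_⟩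
    obtain ⟨N, hN⟩ := hev.exists
    have h1 : (fun m => (isEmptyElim (i m) : U)) = fun m => a N (i m) :=
      funext fun m => isEmptyElim (i m)
    rw [h1]
    exact hN
  · obtain ⟨s, hs⟩ := exists_surjective_nat I
    obtain ⟨W, hW⟩ := omi_real hM hB (Filter.hyperfilter ℕ) (fun N k => a N (s k))
    refine ⟨fun i => W (Function.surjInv hs i), fun n P hP i hev => ?_⟩
    refine (omi_tr (Filter.hyperfilter ℕ) (fun N k => a N (s k)) W hW
      (fun m => Function.surjInv hs (i m)) hP).1 ?_
    refine hev.mono fun N hN => ?_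
    have h1 : (fun m => a N (s (Function.surjInv hs (i m)))) = fun m => a N (i m) :=
      funext fun m => by rw [Function.surjInv_eq hs]
    rw [h1]
    exact hN

end Pool.Agent.TPC
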