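import Pool.Agent.TPC.StC
import Pool.Agent.TPC.SMQ
import Pool.Agent.TPC.GLQ
import Pool.Agent.TPC.ALQ
import Pool.Agent.TPC.OFQ
import Pool.Agent.TPC.BND
import Pool.Agent.PMC.CNO
import Pool.Agent.PMC.COD

/-!
TPC: all labels occur between any two clusters of a model (adapted from `Pool/Agent/MNO/NWI.lean`).
-/

set_option autoImplicit false
set_option linter.unusedVariables false

namespace Pool.Agent.TPC

open FirstOrder.Language Set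
open scoped FirstOrder
open Pool.Agent.WOM (tp Mon IsEl IsoM CtU Fx Orb Isd)
open Pool.Agent.PMC (Sm Md NPf St_CNO St_COD)
open Pool.Agent.MNO (Dp FE Sq Nx SmN FE1 FinN nx_conj_fx)

section

variable {L : FirstOrder.Language.{0, 0}} {U : Type} [L.Structure U]

/-- `e` is given on finite sets by automorphisms over `A` -/
private def LNI_H (L : FirstOrder.Language.{0, 0}) {U : Type} [L.Structure U] (A : Set U)
    {X X' : Set U} (e : X ≃ X') : Prop :=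
  ∀ s : Set X, s.Finite → ∃ g : U ≃[L] U, Fx L A g ∧ ∀ x ∈ s, g x = e x

private theorem LNI_img {A : Set U} {g : U ≃[L] U} (hg : Nx L A g) (X : Set U) :
    SmN L A X (g '' X) := by
  refine ⟨Equiv.Set.image g X g.injective, fun s hs => ⟨g, hg, fun x hx => ?_⟩⟩
  rfl

/-- the restriction of a bijection -/
private def LNI_eq {X X' Y Y' : Set U} (e : X ≃ X') (hY : Y ⊆ X) (hY' : Y' ⊆ X')
    (h : ∀ x : X, (x : U) ∈ Y ↔ ((e x : X') : U) ∈ Y') : Y ≃ Y' where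
  toFun y := ⟨e ⟨y, hY y.2⟩, (h _).1 y.2⟩
  invFun y := ⟨e.symm ⟨y, hY' y.2⟩, (h _).2 (by
    rw [e.apply_symm_apply]
    exact y.2)⟩
  left_inv y := by
    apply Subtype.ext
    show ((e.symm ⟨((e ⟨y, hY y.2⟩ : X') : U), _⟩ : X) : U) = y
    rw [Subtype.coe_eta, e.symm_apply_apply]
  right_inv y := by
    apply Subtype.ext
    show ((e ⟨((e.symm ⟨y, hY' y.2⟩ : X) : U), _⟩ : X') : U) = y
    rw [Subtype.coe_eta, e.apply_symm_apply]

private theorem LNI_H.symm {A X X' : Set U} {e : X ≃ X'} (he : LNI_H L A e) :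
    LNI_H L A e.symm := by
  intro s hs
  obtain ⟨g, hg, hg'⟩ := he (e.symm '' s) (hs.image _)
  refine ⟨g.symm, Pool.Agent.PMC.fx_symm hg, fun x hx => ?_⟩
  have h1 := hg' (e.symm x) (mem_image_of_mem _ hx)
  rw [e.apply_symm_apply] at h1
  rw [← h1, g.symm_apply_apply]

/-- similarity is preserved by `e` -/
private theorem LNI_conj (hM : Mon L U) {A X X' Y Y' Z Z' : Set U} (e : X ≃ X')
    (he : LNI_H L A e) (hY : Y ⊆ X) (hY' : Y' ⊆ X')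
    (h : ∀ x : X, (x : U) ∈ Y ↔ ((e x : X') : U) ∈ Y') (hZ : Z ⊆ X) (hZ' : Z' ⊆ X')
    (k : ∀ x : X, (x : U) ∈ Z ↔ ((e x : X') : U) ∈ Z') (hs : SmN L A Y Z) : SmN L A Y' Z' := by
  obtain ⟨b, hb⟩ := hs
  refine ⟨(LNI_eq e hY hY' h).symm.trans (b.trans (LNI_eq e hZ hZ' k)), fun s hs => ?_⟩
  obtain ⟨φ, hφ⟩ : ∃ φ : Y ≃ Y', φ = LNI_eq e hY hY' h := ⟨_, rfl⟩
  obtain ⟨ψ, hψ⟩ : ∃ ψ : Z ≃ Z', ψ = LNI_eq e hZ hZ' k := ⟨_, rfl⟩
  have hφ1 : ∀ y : Y, ((φ y : Y') : U) = e ⟨y, hY y.2⟩ := fun y => by rw [hφ]; rfl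
  have hψ1 : ∀ y : Z, ((ψ y : Z') : U) = e ⟨y, hZ y.2⟩ := fun y => by rw [hψ]; rfl
  rw [← hφ, ← hψ]
  obtain ⟨g1, hg1, hg1'⟩ := hb (φ.symm '' s) (hs.image _)
  obtain ⟨g, hg, hg'⟩ := he
    ((fun y : Y' => (⟨φ.symm y, hY (φ.symm y).2⟩ : X)) '' s ∪
      (fun y : Y' => (⟨b (φ.symm y), hZ (b (φ.symm y)).2⟩ : X)) '' s)
    ((hs.image _).union (hs.image _))
  refine ⟨g.comp (g1.comp g.symm), nx_conj_fx hM hg hg1, fun y hy => ?_⟩
  have h1 := hg' _ (mem_union_left _ (mem_image_of_mem _ hy))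
  have h2 := hg' _ (mem_union_right _ (mem_image_of_mem _ hy))
  have h3 := hg1' _ (mem_image_of_mem _ hy)
  have h4 := hφ1 (φ.symm y)
  rw [φ.apply_symm_apply] at h4
  rw [← h4] at h1
  have h5 := hψ1 (b (φ.symm y))
  rw [← h5] at h2
  show g (g1 (g.symm y)) = ((ψ (b (φ.symm y)) : Z') : U)
  rw [← h1, g.symm_apply_apply]
  show g (g1 ((φ.symm y : Y) : U)) = _
  rw [h3]
  exact h2

/-- the weak order -/
private structure LNI_W (L : FirstOrder.Language.{0, 0}) {U : Type} [L.Structure U] (A E : Set U)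
    (lt : U → U → Prop) : Prop where
  irr : ∀ w ∈ E, ¬ lt w w
  neg : ∀ u ∈ E, ∀ w ∈ E, lt u w → ∀ v ∈ E, lt u v ∨ lt v w
  tra : ∀ u ∈ E, ∀ v ∈ E, ∀ w ∈ E, lt u v → lt v w → lt u w
  ie : ∀ g : U ≃[L] U, Fx L A g → ∀ x, g x ∈ E ↔ x ∈ E
  il : ∀ g : U ≃[L] U, Fx L A g → ∀ w ∈ E, ∀ z ∈ E, (lt (g w) (g z) ↔ lt w z)

private theorem LNI_W.asy {A E : Set U} {lt : U → U → Prop} (h : LNI_W L A E lt) :
    ∀ u ∈ E, ∀ v ∈ E, lt u v → ¬ lt v u :=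
  fun u hu v hv h1 h2 => h.irr u hu (h.tra u hu v hv u hu h1 h2)

/-- the conclusion of `St_LIN` -/
private structure LNI_N (L : FirstOrder.Language.{0, 0}) {U : Type} [L.Structure U] (A E : Set U)
    (lt : U → U → Prop) (M : Set U) (p q : U) {O : Type} [LinearOrder O] (X0 : Set U)
    (r : O → (U ≃[L] U)) : Prop where
  nx : ∀ a, Nx L A (r a)
  out : ∀ x ∉ E, x ∈ X0
  el : ∀ S : Set O, IsEl L (X0 ∪ ⋃ a ∈ S, (r a) '' Iv E lt M p q)
  c1 : ∀ a, ∀ x ∈ (r a) '' Iv E lt M p q, x ∉ X0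
  c2 : ∀ a a', a < a' → ∀ x ∈ (r a) '' Iv E lt M p q,
    ∀ y ∈ (r a') '' Iv E lt M p q, lt x y
  c3 : ∀ x ∈ X0, x ∈ E → ∀ a, (∀ y ∈ (r a) '' Iv E lt M p q, lt x y) ∨
    ∀ y ∈ (r a) '' Iv E lt M p q, lt y x
  e : ∀ x ∈ E, ∀ y ∈ E, (x ∈ X0 ∨ ∃ a, x ∈ (r a) '' Iv E lt M p q) →
    (y ∈ X0 ∨ ∃ a, y ∈ (r a) '' Iv E lt M p q) → lt x y →
    (¬ ∃ a, x ∈ (r a) '' Iv E lt M p q ∧ y ∈ (r a) '' Iv E lt M p q) →
    ∀ z ∈ E, ∃ g : U ≃[L] U, Nx L A g ∧ g z ∈ X0 ∧ lt x (g z) ∧ lt (g z) y ∧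
      ∀ w ∈ E, ¬ lt (g z) w → ¬ lt w (g z) → (w ∈ X0 ↔ w ∈ g '' Iv E lt univ z z)
  f : ∃ y ∈ X0, ∃ y' ∈ X0, y ∈ E ∧ y' ∈ E ∧ lt y y' ∧
    ∀ a, ∀ x ∈ (r a) '' Iv E lt M p q, lt y' x

/-- `x << y` and some cluster of `X` is not similar to a cluster between -/
private def LNI_bad (L : FirstOrder.Language.{0, 0}) {U : Type} [L.Structure U] (A E : Set U)
    (lt : U → U → Prop) (X : Set U) (x y : U) : Prop :=
  lt x y ∧ ∃ w ∈ X, w ∈ E ∧ ¬ ∃ z' ∈ X, z' ∈ E ∧ lt x z' ∧ lt z' y ∧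
    SmN L A (Iv E lt X z' z') (Iv E lt X w w)

private theorem LNI_core {A E : Set U} {lt : U → U → Prop} (hM : Mon L U) (hW : LNI_W L A E lt)
    (hAE : ∀ a ∈ A, a ∉ E) (hA : A.Finite) (hNP : NPf L U)
    (hsy : ∀ X Y : Set U, SmN L A X Y → SmN L A Y X)
    (htr : ∀ X Y Z : Set U, SmN L A X Y → SmN L A Y Z → SmN L A X Z) (hCNO : St_CNO)
    (hCOD : St_COD)
    (hNWL : ∀ (M' : Set U) (w : U), Md L A M' → w ∈ M' → w ∈ E →
      ∃ z ∈ E, SmN L A (Iv E lt M' w w) (Iv E lt univ z z))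
    {M : Set U} {p q : U} (hp : p ∈ M) (hpE : p ∈ E) (hq : q ∈ M) (hqE : q ∈ E) (hpq : lt p q)
    {z : U} (hz : z ∈ E)
    (hI : ∀ (O : Type) [LinearOrder O] [Countable O], ∃ (X0 : Set U) (r : O → (U ≃[L] U)),
      LNI_N L A E lt M p q X0 r) :
    ∃ z' ∈ M, z' ∈ E ∧ lt p z' ∧ lt z' q ∧
      SmN L A (Iv E lt M z' z') (Iv E lt univ z z) := by
  by_contra hcon
  obtain ⟨O, iO, iC, S, hScl, hSiso⟩ := hCNO
  obtain ⟨X0, r, hN⟩ := hI O
  have hasy := hW.asy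
  have hfx : ∀ a, Fx L A (r a) := fun a => (hN.nx a).1
  -- the blocks
  obtain ⟨P, hP⟩ : ∃ P : O → Set U, ∀ a, P a = (r a) '' Iv E lt M p q := ⟨_, fun _ => rfl⟩
  have hPm : ∀ a x, x ∈ P a ↔ ∃ w ∈ Iv E lt M p q, r a w = x := fun a x => by
    rw [hP]
    rfl
  have hPE : ∀ a, ∀ x ∈ P a, x ∈ E := by
    intro a x hx
    obtain ⟨w, hw, rfl⟩ := (hPm a x).1 hx
    exact (hW.ie (r a) (hfx a) w).2 hw.2.1
  have hpI : p ∈ Iv E lt M p q := ⟨hp, hpE, hW.irr p hpE, hasy p hpE q hqE hpq⟩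
  have hqI : q ∈ Iv E lt M p q := ⟨hq, hqE, hasy p hpE q hqE hpq, hW.irr q hqE⟩
  have hc1 : ∀ a, ∀ x ∈ P a, x ∉ X0 := fun a x hx => hN.c1 a x (hP a ▸ hx)
  have hc2 : ∀ a a', a < a' → ∀ x ∈ P a, ∀ y ∈ P a', lt x y := fun a a' h x hx y hy =>
    hN.c2 a a' h x (hP a ▸ hx) y (hP a' ▸ hy)
  have hc3 : ∀ x ∈ X0, x ∈ E → ∀ a, (∀ y ∈ P a, lt x y) ∨ ∀ y ∈ P a, lt y x := by
    intro x hx hxE a
    rw [hP]
    exact hN.c3 x hx hxE a
  have huni : ∀ a a' x, x ∈ P a → x ∈ P a' → a = a' := by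
    intro a a' x hx hx'
    rcases lt_trichotomy a a' with h | h | h
    · exact absurd (hc2 a a' h x hx x hx') (hW.irr x (hPE a x hx))
    · exact h
    · exact absurd (hc2 a' a h x hx' x hx) (hW.irr x (hPE a x hx))
  -- the models
  obtain ⟨X, hX⟩ : ∃ X : (ℕ → Bool) → Set U, ∀ f, X f = X0 ∪ ⋃ a ∈ S f, P a := ⟨_, fun _ => rfl⟩
  have hXm : ∀ f x, x ∈ X f ↔ x ∈ X0 ∨ ∃ a ∈ S f, x ∈ P a := by
    intro f x
    rw [hX]
    simp only [mem_union, mem_iUnion, exists_prop]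
  have hMd : ∀ f, Md L A (X f) := by
    intro f
    refine ⟨?_, fun a ha => (hXm f a).2 (Or.inl (hN.out a (hAE a ha)))⟩
    rw [hX]
    have h1 := hN.el (S f)
    have h2 : (⋃ a ∈ S f, P a) = ⋃ a ∈ S f, (r a) '' Iv E lt M p q := by
      simp only [hP]
    rw [h2]
    exact h1
  have hcl : ∀ v, IsClopen {f | v ∈ X f} := by
    intro v
    by_cases h1 : v ∈ X0
    · have : {f | v ∈ X f} = univ := by
        ext f
        simp only [mem_ofPred_eq, mem_univ, iff_true]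
        exact (hXm f v).2 (Or.inl h1)
      rw [this]
      exact isClopen_univ
    · by_cases h2 : ∃ a, v ∈ P a
      · obtain ⟨a, ha⟩ := h2
        have : {f | v ∈ X f} = {f | a ∈ S f} := by
          ext f
          simp only [mem_ofPred_eq]
          rw [hXm]
          constructor
          · rintro (h | ⟨a', ha', h⟩)
            · exact absurd h h1
            · rw [huni a a' v ha h]
              exact ha'
          · intro h
            exact Or.inr ⟨a, h, ha⟩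
        rw [this]
        exact hScl a
      · have : {f | v ∈ X f} = ∅ := by
          ext f
          simp only [mem_ofPred_eq, mem_empty_iff_false, iff_false]
          rw [hXm]
          rintro (h | ⟨a, -, h⟩)
          · exact h1 h
          · exact h2 ⟨a, h⟩
        rw [this]
        exact isClopen_empty
  -- clusters of images
  have hclg : ∀ f, ∀ z1 ∈ E, ∀ g : U ≃[L] U, Nx L A g → g z1 ∈ X0 →
      (∀ w ∈ E, ¬ lt (g z1) w → ¬ lt w (g z1) → (w ∈ X0 ↔ w ∈ g '' Iv E lt univ z1 z1)) →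
      Iv E lt (X f) (g z1) (g z1) = g '' Iv E lt univ z1 z1 := by
    intro f z1 hz1 g hgN hg0 hcl1
    have hg := hgN.1
    have hgE : g z1 ∈ E := (hW.ie g hg z1).2 hz1
    ext w
    constructor
    · rintro ⟨-, hwE, h5, h6⟩
      refine ⟨g.symm w, ⟨mem_univ _, ?_, ?_, ?_⟩, g.apply_symm_apply w⟩
      · rw [← hW.ie g hg, g.apply_symm_apply]
        exact hwE
      · have h7 : g.symm w ∈ E := by
          rw [← hW.ie g hg, g.apply_symm_apply]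
          exact hwE
        rw [← hW.il g hg _ h7 _ hz1, g.apply_symm_apply]
        exact h5
      · have h7 : g.symm w ∈ E := by
          rw [← hW.ie g hg, g.apply_symm_apply]
          exact hwE
        rw [← hW.il g hg _ hz1 _ h7, g.apply_symm_apply]
        exact h6
    · rintro ⟨v, ⟨hvu, hvE, h5, h6⟩, rfl⟩
      have h7 : g v ∈ E := (hW.ie g hg v).2 hvE
      have h8 : ¬ lt (g v) (g z1) := by
        rw [hW.il g hg _ hvE _ hz1]
        exact h5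
      have h9 : ¬ lt (g z1) (g v) := by
        rw [hW.il g hg _ hz1 _ hvE]
        exact h6
      exact ⟨(hXm f _).2 (Or.inl ((hcl1 (g v) h7 h9 h8).2 ⟨v, ⟨hvu, hvE, h5, h6⟩, rfl⟩)), h7,
        h8, h9⟩
  -- a cluster of `X0` similar to the one of `z`
  obtain ⟨w0, hw00, hw0E, hw0⟩ : ∃ w0 ∈ X0, w0 ∈ E ∧
      ∀ f, SmN L A (Iv E lt (X f) w0 w0) (Iv E lt univ z z) := by
    obtain ⟨y1, hy1, y2, hy2, hy1E, hy2E, hy12, -⟩ := hN.f
    obtain ⟨g, hg, hg0, hg1, hg2, hg3⟩ := hN.e y1 hy1E y2 hy2E (Or.inl hy1) (Or.inl hy2) hy12 (by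
      rintro ⟨a, h4, h5⟩
      exact hN.c1 a y1 h4 hy1) z hz
    refine ⟨g z, hg0, (hW.ie g hg.1 z).2 hz, fun f => ?_⟩
    rw [hclg f z hz g hg hg0 hg3]
    exact hsy _ _ (LNI_img hg _)
  -- bad pairs
  have hbad : ∀ f, ∀ x ∈ X f, x ∈ E → ∀ y ∈ X f, y ∈ E →
      (LNI_bad L A E lt (X f) x y ↔ lt x y ∧ ∃ a ∈ S f, x ∈ P a ∧ y ∈ P a) := by
    intro f x hx hxE y hy hyE
    constructor
    · rintro ⟨hxy, w1, hw1, hw1E, hno⟩
      refine ⟨hxy, ?_⟩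
      by_contra h1
      have h2 : ¬ ∃ a, x ∈ P a ∧ y ∈ P a := by
        rintro ⟨a, hxa, hya⟩
        rcases (hXm f x).1 hx with h3 | ⟨a', ha', h3⟩
        · exact hc1 a x hxa h3
        · rw [← huni a a' x hxa h3] at ha'
          exact h1 ⟨a, ha', hxa, hya⟩
      have h3 : ∀ v, v ∈ X f → (v ∈ X0 ∨ ∃ a, v ∈ (r a) '' Iv E lt M p q) := by
        intro v hv
        rcases (hXm f v).1 hv with h4 | ⟨a, -, h4⟩
        · exact Or.inl h4
        · exact Or.inr ⟨a, hP a ▸ h4⟩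
      obtain ⟨z1, hz1, hz1s⟩ := hNWL (X f) w1 (hMd f) hw1 hw1E
      obtain ⟨g, hg, hg0, hg1, hg2, hg3⟩ := hN.e x hxE y hyE (h3 x hx) (h3 y hy) hxy (by
        rintro ⟨a, h4, h5⟩
        exact h2 ⟨a, by rw [hP]; exact h4, by rw [hP]; exact h5⟩) z1 hz1
      have hgE : g z1 ∈ E := (hW.ie g hg.1 z1).2 hz1
      apply hno
      refine ⟨g z1, (hXm f _).2 (Or.inl hg0), hgE, hg1, hg2, ?_⟩
      rw [hclg f z1 hz1 g hg hg0 hg3]
      exact htr _ _ _ (hsy _ _ (LNI_img hg _)) (hsy _ _ hz1s)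
    · rintro ⟨hxy, a, haS, hxa, hya⟩
      refine ⟨hxy, w0, (hXm f w0).2 (Or.inl hw00), hw0E, ?_⟩
      rintro ⟨z', hz', hz'E, h1, h2, h3⟩
      -- a point comparable with the block
      have hcmp : ∀ w ∈ X f, w ∈ E → w ∉ P a → (∀ v ∈ P a, lt w v) ∨ ∀ v ∈ P a, lt v w := by
        intro w hw hwE hwa
        rcases (hXm f w).1 hw with h4 | ⟨a', -, h4⟩
        · exact hc3 w h4 hwE a
        · rcases lt_trichotomy a a' with h | h | h
          · exact Or.inr fun v hv => hc2 a a' h v hv w h4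
          · rw [h] at hwa
            exact absurd h4 hwa
          · exact Or.inl fun v hv => hc2 a' a h w h4 v hv
      have hz'a : z' ∈ P a := by
        by_contra h4
        rcases hcmp z' hz' hz'E h4 with h5 | h5
        · exact hasy x hxE z' hz'E h1 (h5 x hxa)
        · exact hasy z' hz'E y hyE h2 (h5 y hya)
      obtain ⟨w, hw, rfl⟩ := (hPm a z').1 hz'a
      obtain ⟨x0, hx0, rfl⟩ := (hPm a x).1 hxa
      obtain ⟨y0, hy0, rfl⟩ := (hPm a y).1 hya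
      have hwE : w ∈ E := hw.2.1
      rw [hW.il (r a) (hfx a) _ hx0.2.1 _ hwE] at h1
      rw [hW.il (r a) (hfx a) _ hwE _ hy0.2.1] at h2
      have hpw : lt p w := (hW.neg x0 hx0.2.1 w hwE h1 p hpE).resolve_left hx0.2.2.1
      have hwq : lt w q := (hW.neg w hwE y0 hy0.2.1 h2 q hqE).resolve_right hy0.2.2.2
      have h4 : Iv E lt (X f) (r a w) (r a w) = r a '' Iv E lt M w w := by
        ext v
        constructor
        · rintro ⟨hv, hvE, h5, h6⟩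
          have h7 : v ∈ P a := by
            by_contra h8
            rcases hcmp v hv hvE h8 with h9 | h9
            · exact h5 (h9 _ hz'a)
            · exact h6 (h9 _ hz'a)
          obtain ⟨v0, hv0, rfl⟩ := (hPm a v).1 h7
          rw [hW.il (r a) (hfx a) _ hv0.2.1 _ hwE] at h5
          rw [hW.il (r a) (hfx a) _ hwE _ hv0.2.1] at h6
          exact ⟨v0, ⟨hv0.1, hv0.2.1, h5, h6⟩, rfl⟩
        · rintro ⟨v0, ⟨hv0, hv0E, h5, h6⟩, rfl⟩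
          have h7 : v0 ∈ Iv E lt M p q := by
            refine ⟨hv0, hv0E, fun h8 => ?_, fun h8 => ?_⟩
            · exact h5 (hW.tra v0 hv0E p hpE w hwE h8 hpw)
            · exact h6 (hW.tra w hwE q hqE v0 hv0E hwq h8)
          refine ⟨(hXm f _).2 (Or.inr ⟨a, haS, (hPm a _).2 ⟨v0, h7, rfl⟩⟩),
            (hW.ie (r a) (hfx a) v0).2 hv0E, ?_, ?_⟩
          · rw [hW.il (r a) (hfx a) _ hv0E _ hwE]
            exact h5
          · rw [hW.il (r a) (hfx a) _ hwE _ hv0E]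
            exact h6
      rw [h4] at h3
      exact hcon ⟨w, hw.1, hwE, hpw, hwq, htr _ _ _ (LNI_img (hN.nx a) _)
        (htr _ _ _ h3 (hw0 f))⟩
  -- the union of the blocks
  have hNm : ∀ f x, (∃ a ∈ S f, x ∈ P a) ↔ (x ∈ X f ∧ x ∈ E ∧ ∃ y ∈ X f, y ∈ E ∧
      (LNI_bad L A E lt (X f) x y ∨ LNI_bad L A E lt (X f) y x)) := by
    intro f x
    constructor
    · rintro ⟨a, ha, hx⟩
      have hxX : x ∈ X f := (hXm f x).2 (Or.inr ⟨a, ha, hx⟩)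
      have hxE := hPE a x hx
      refine ⟨hxX, hxE, ?_⟩
      obtain ⟨x0, hx0, rfl⟩ := (hPm a x).1 hx
      rcases hW.neg p hpE q hqE hpq x0 hx0.2.1 with h1 | h1
      · have hy : r a p ∈ P a := (hPm a _).2 ⟨p, hpI, rfl⟩
        have hyX : r a p ∈ X f := (hXm f _).2 (Or.inr ⟨a, ha, hy⟩)
        have hyE := hPE a _ hy
        refine ⟨r a p, hyX, hyE, Or.inr ?_⟩
        rw [hbad f _ hyX hyE _ hxX hxE]
        exact ⟨(hW.il (r a) (hfx a) _ hpE _ hx0.2.1).2 h1, a, ha, hy, hx⟩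
      · have hy : r a q ∈ P a := (hPm a _).2 ⟨q, hqI, rfl⟩
        have hyX : r a q ∈ X f := (hXm f _).2 (Or.inr ⟨a, ha, hy⟩)
        have hyE := hPE a _ hy
        refine ⟨r a q, hyX, hyE, Or.inl ?_⟩
        rw [hbad f _ hxX hxE _ hyX hyE]
        exact ⟨(hW.il (r a) (hfx a) _ hx0.2.1 _ hqE).2 h1, a, ha, hx, hy⟩
    · rintro ⟨hxX, hxE, y, hyX, hyE, h | h⟩
      · rw [hbad f _ hxX hxE _ hyX hyE] at h
        obtain ⟨-, a, ha, h1, -⟩ := h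
        exact ⟨a, ha, h1⟩
      · rw [hbad f _ hyX hyE _ hxX hxE] at h
        obtain ⟨-, a, ha, -, h1⟩ := h
        exact ⟨a, ha, h1⟩
  -- the isomorphism
  obtain ⟨f, f', hne, e, he⟩ := hNP A X hA hMd hcl
  have he' : LNI_H L A e := he
  have eE : ∀ x : X f, ((x : U) ∈ E ↔ ((e x : X f') : U) ∈ E) := by
    intro x
    obtain ⟨g, hg, hg'⟩ := he' {x} (finite_singleton x)
    rw [← hg' x rfl]
    exact (hW.ie g hg x).symm
  have el : ∀ x y : X f, (x : U) ∈ E → (y : U) ∈ E →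
      (lt x y ↔ lt ((e x : X f') : U) ((e y : X f') : U)) := by
    intro x y hx hy
    obtain ⟨g, hg, hg'⟩ := he' {x, y} ((finite_singleton y).insert x)
    rw [← hg' x (mem_insert _ _), ← hg' y (mem_insert_of_mem _ rfl)]
    exact (hW.il g hg x hx y hy).symm
  have eI : ∀ x : X f, (x : U) ∈ E → ∀ y : X f, (y : U) ∈ Iv E lt (X f) x x ↔
      ((e y : X f') : U) ∈ Iv E lt (X f') ((e x : X f') : U) ((e x : X f') : U) := by
    intro x hx y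
    constructor
    · rintro ⟨-, hyE, h1, h2⟩
      rw [el y x hyE hx] at h1
      rw [el x y hx hyE] at h2
      exact ⟨(e y).2, (eE y).1 hyE, h1, h2⟩
    · rintro ⟨-, hyE, h1, h2⟩
      have hyE' := (eE y).2 hyE
      rw [← el y x hyE' hx] at h1
      rw [← el x y hx hyE'] at h2
      exact ⟨y.2, hyE', h1, h2⟩
  have eI' : ∀ x : X f, (x : U) ∈ E → ∀ y : X f', (y : U) ∈ Iv E lt (X f')
      ((e x : X f') : U) ((e x : X f') : U) ↔ ((e.symm y : X f) : U) ∈ Iv E lt (X f) x x := by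
    intro x hx y
    rw [eI x hx (e.symm y), e.apply_symm_apply]
  have eS : ∀ x y : X f, (x : U) ∈ E → (y : U) ∈ E →
      (SmN L A (Iv E lt (X f) x x) (Iv E lt (X f) y y) ↔
        SmN L A (Iv E lt (X f') ((e x : X f') : U) ((e x : X f') : U))
          (Iv E lt (X f') ((e y : X f') : U) ((e y : X f') : U))) := by
    intro x y hx hy
    constructor
    · exact LNI_conj hM e he' (fun y hy => hy.1) (fun y hy => hy.1) (eI x hx) (fun y hy => hy.1)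
        (fun y hy => hy.1) (eI y hy)
    · exact LNI_conj hM e.symm he'.symm (fun y hy => hy.1) (fun y hy => hy.1) (eI' x hx)
        (fun y hy => hy.1) (fun y hy => hy.1) (eI' y hy)
  have eb : ∀ x y : X f, (x : U) ∈ E → (y : U) ∈ E →
      (LNI_bad L A E lt (X f) x y ↔
        LNI_bad L A E lt (X f') ((e x : X f') : U) ((e y : X f') : U)) := by
    intro x y hx hy
    unfold LNI_bad
    rw [el x y hx hy]
    refine and_congr_right fun _ => ?_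
    constructor
    · rintro ⟨w1, hw1, hw1E, hno⟩
      refine ⟨(e ⟨w1, hw1⟩ : X f'), (e ⟨w1, hw1⟩).2, (eE ⟨w1, hw1⟩).1 hw1E, ?_⟩
      rintro ⟨w', hw', hwE', h1, h2, h3⟩
      obtain ⟨w, hw⟩ : ∃ w : X f, e w = ⟨w', hw'⟩ := ⟨e.symm ⟨w', hw'⟩, e.apply_symm_apply _⟩
      have hww : ((e w : X f') : U) = w' := by rw [hw]
      rw [← hww] at hwE' h1 h2 h3
      have hwE : (w : U) ∈ E := (eE w).2 hwE'
      exact hno ⟨w, w.2, hwE, (el x w hx hwE).2 h1, (el w y hwE hy).2 h2,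
        (eS w ⟨w1, hw1⟩ hwE hw1E).2 h3⟩
    · rintro ⟨w1', hw1', hw1E', hno⟩
      obtain ⟨w1, hw1⟩ : ∃ w1 : X f, e w1 = ⟨w1', hw1'⟩ :=
        ⟨e.symm ⟨w1', hw1'⟩, e.apply_symm_apply _⟩
      have hww1 : ((e w1 : X f') : U) = w1' := by rw [hw1]
      rw [← hww1] at hw1E' hno
      have hw1E : (w1 : U) ∈ E := (eE w1).2 hw1E'
      refine ⟨w1, w1.2, hw1E, ?_⟩
      rintro ⟨w, hw, hwE, h1, h2, h3⟩
      exact hno ⟨(e ⟨w, hw⟩ : X f'), (e ⟨w, hw⟩).2, (eE ⟨w, hw⟩).1 hwE,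
        (el x ⟨w, hw⟩ hx hwE).1 h1, (el ⟨w, hw⟩ y hwE hy).1 h2, (eS ⟨w, hw⟩ w1 hwE hw1E).1 h3⟩
  have hsub : ∀ f, {x : U | ∃ a ∈ S f, x ∈ P a} ⊆ X f := fun f x hx => ((hNm f x).1 hx).1
  have eN : ∀ x : X f, ((x : U) ∈ {x : U | ∃ a ∈ S f, x ∈ P a} ↔
      ((e x : X f') : U) ∈ {x : U | ∃ a ∈ S f', x ∈ P a}) := by
    intro x
    rw [mem_ofPred_eq, mem_ofPred_eq, hNm f x, hNm f' (e x)]
    constructor
    · rintro ⟨-, hxE, y, hy, hyE, h⟩
      refine ⟨(e x).2, (eE x).1 hxE, (e ⟨y, hy⟩ : X f'), (e ⟨y, hy⟩).2, (eE ⟨y, hy⟩).1 hyE, ?_⟩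
      exact h.imp (eb x ⟨y, hy⟩ hxE hyE).1 (eb ⟨y, hy⟩ x hyE hxE).1
    · rintro ⟨-, hxE, y', hy', hyE', h⟩
      obtain ⟨y, hy⟩ : ∃ y : X f, e y = ⟨y', hy'⟩ := ⟨e.symm ⟨y', hy'⟩, e.apply_symm_apply _⟩
      have hyy : ((e y : X f') : U) = y' := by rw [hy]
      rw [← hyy] at hyE' h
      have hxE' := (eE x).2 hxE
      have hyE : (y : U) ∈ E := (eE y).2 hyE'
      exact ⟨x.2, hxE', y, y.2, hyE, h.imp (eb x y hxE' hyE).2 (eb y x hyE hxE').2⟩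
  -- the same block
  have hblk : ∀ f, ∀ x y : U, (∃ a ∈ S f, x ∈ P a) → (∃ a ∈ S f, y ∈ P a) →
      ((∃ a ∈ S f, x ∈ P a ∧ y ∈ P a) ↔ LNI_bad L A E lt (X f) x y ∨
        LNI_bad L A E lt (X f) y x ∨ (¬ lt x y ∧ ¬ lt y x)) := by
    intro f x y hx hy
    obtain ⟨hxX, hxE, -⟩ := (hNm f x).1 hx
    obtain ⟨hyX, hyE, -⟩ := (hNm f y).1 hy
    rw [hbad f _ hxX hxE _ hyX hyE, hbad f _ hyX hyE _ hxX hxE]
    constructor
    · rintro ⟨a, ha, h1, h2⟩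
      by_cases h3 : lt x y
      · exact Or.inl ⟨h3, a, ha, h1, h2⟩
      · by_cases h4 : lt y x
        · exact Or.inr (Or.inl ⟨h4, a, ha, h2, h1⟩)
        · exact Or.inr (Or.inr ⟨h3, h4⟩)
    · rintro (⟨-, a, ha, h1, h2⟩ | ⟨-, a, ha, h1, h2⟩ | ⟨h3, h4⟩)
      · exact ⟨a, ha, h1, h2⟩
      · exact ⟨a, ha, h2, h1⟩
      · obtain ⟨a, ha, h1⟩ := hx
        obtain ⟨a', ha', h2⟩ := hy
        rcases lt_trichotomy a a' with h | h | h
        · exact absurd (hc2 a a' h x h1 y h2) h3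
        · subst h
          exact ⟨a, ha, h1, h2⟩
        · exact absurd (hc2 a' a h y h2 x h1) h4
  -- decoding
  apply hne
  apply hSiso
  have hE1 : ∀ (f : ℕ → Bool) (x : U), (∃ a ∈ S f, x ∈ P a) → x ∈ E := fun f x hx =>
    ((hNm f x).1 hx).2.1
  refine hCOD U O (fun x y => x ∈ E ∧ y ∈ E ∧ lt x y) P (S f) (S f')
    (LNI_eq e (hsub f) (hsub f') eN) (fun a => ⟨r a p, (hPm a _).2 ⟨p, hpI, rfl⟩⟩)
    (fun x h => hW.irr x h.1 h.2.2) (fun x y h h' => hasy x h.1 y h.2.1 h.2.2 h'.2.2)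
    (fun a b hab x hx y hy => ⟨hPE a x hx, hPE b y hy, hc2 a b hab x hx y hy⟩) ?_ ?_
  · intro x y
    have hx := x.2
    have hy := y.2
    have hxE := hE1 f x hx
    have hyE := hE1 f y hy
    have hx' := (eN ⟨x, hsub f hx⟩).1 hx
    have hy' := (eN ⟨y, hsub f hy⟩).1 hy
    rw [hblk f x y hx hy]
    have h1 := hblk f' _ _ hx' hy'
    have h2 : (∃ a ∈ S f', ((LNI_eq e (hsub f) (hsub f') eN x :
        {x : U // ∃ a ∈ S f', x ∈ P a}) : U) ∈ P a ∧ ((LNI_eq e (hsub f) (hsub f') eN y :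
        {x : U // ∃ a ∈ S f', x ∈ P a}) : U) ∈ P a) ↔
        (∃ a ∈ S f', ((e ⟨x, hsub f hx⟩ : X f') : U) ∈ P a ∧
          ((e ⟨y, hsub f hy⟩ : X f') : U) ∈ P a) := Iff.rfl
    rw [h2, h1, eb ⟨x, hsub f hx⟩ ⟨y, hsub f hy⟩ hxE hyE,
      eb ⟨y, hsub f hy⟩ ⟨x, hsub f hx⟩ hyE hxE,
      el ⟨x, hsub f hx⟩ ⟨y, hsub f hy⟩ hxE hyE, el ⟨y, hsub f hy⟩ ⟨x, hsub f hx⟩ hyE hxE]
  · intro x y _
    have hx := x.2
    have hy := y.2
    have hxE := hE1 f x hx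
    have hyE := hE1 f y hy
    have hx' := (eE ⟨x, hsub f hx⟩).1 hxE
    have hy' := (eE ⟨y, hsub f hy⟩).1 hyE
    have h1 := el ⟨x, hsub f hx⟩ ⟨y, hsub f hy⟩ hxE hyE
    constructor
    · rintro ⟨-, -, h⟩
      exact ⟨hx', hy', h1.1 h⟩
    · rintro ⟨-, -, h⟩
      exact ⟨hxE, hyE, h1.2 h⟩

end

theorem thm_LNI (hLNW : St_LNW) (hRCH : St_RCH) (hLIN : St_LIN) (hLOB : St_LOB) : St_LNI := by
  intro L U _ hMon hNP A E lt hL M p q hM hp hpE hq hqE hpq z hz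
  obtain ⟨-, hsy, htr, -, -, -, -, -, -⟩ := thm_SMQ thm_GLQ thm_ALQ thm_OFQ thm_BND L U hMon
  obtain ⟨hasy, hdis, -, -, -, -, -⟩ := hLOB L U hMon A E lt hL
  obtain ⟨hric, -⟩ := hRCH L U hMon A hL.fin
  have hW : LNI_W L A E lt :=
    ⟨hL.irr, fun u hu w hw huw v hv => hL.neg u hu v hv w hw huw, hL.tra, hL.fxE, hL.fxl⟩
  refine LNI_core hMon hW (fun a ha haE => Set.disjoint_left.1 hdis ha haE) hL.fin hNP (hsy A)
    (htr A) Pool.Agent.PMC.thm_CNO Pool.Agent.PMC.thm_COD ?_ hp hpE hq hqE hpq hz fun O _ _ => ?_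
  · intro M' w hM' hw hwE
    obtain ⟨z1, -, hz1, hs⟩ := hLNW L U hMon hNP A E lt hL univ M' w hric hM' hw hwE
    exact ⟨z1, hz1, hs⟩
  · obtain ⟨X0, r, a1, a2, a3, a4, a5, a6, -, a8, a9⟩ := hLIN L U hMon A E lt hL univ M p q hric
      hM hp hpE hq hqE (hasy p hpE q hqE hpq) O
    exact ⟨X0, r, a1, fun x hx => (a2 x hx).2 (mem_univ x), a3, a4, a5, a6,
      fun x hx y hy hx0 hy0 hxy hne z hz => a8 x hx y hy hx0 hy0 hxy hne z (mem_univ z) hz, a9⟩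

end Pool.Agent.TPC
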