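import Pool.Agent.TPC.StC

/-!
TPC, [LOB]: basic facts on linear pieces (helper13).
-/

set_option autoImplicit false
set_option linter.unusedVariables false

namespace Pool.Agent.TPC

open FirstOrder.Language Set
open scoped FirstOrder
open Pool.Agent.WOM (tp Mon IsEl IsoM CtU Fx Orb Isd)
open Pool.Agent.PMC (Sm Md NPf comp_apply')
open Pool.Agent.MNO (Dp FE Sq Nx SmN FE1 FinN nx_refl nx_comp)

section

variable {L : FirstOrder.Language.{0, 0}} {U : Type} [L.Structure U]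

/-- a finite nonempty set has a maximal element -/
theorem LOB_max {E : Set U} {r : U → U → Prop} (hirr : ∀ x ∈ E, ¬ r x x)
    (htra : ∀ x ∈ E, ∀ y ∈ E, ∀ z ∈ E, r x y → r y z → r x z) {Z : Set U} (hZ : Z.Finite) :
    Z ⊆ E → Z.Nonempty → ∃ z ∈ Z, ∀ z' ∈ Z, ¬ r z z' := by
  induction Z, hZ using Set.Finite.induction_on with
  | empty => intro _ h; exact absurd h Set.not_nonempty_empty
  | @insert a Z ha hZ ih =>
    intro hE _
    have haE : a ∈ E := hE (mem_insert _ _)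
    have hZE : Z ⊆ E := (subset_insert _ _).trans hE
    rcases Z.eq_empty_or_nonempty with rfl | hne
    · refine ⟨a, mem_insert _ _, fun z' hz' => ?_⟩
      rcases hz' with rfl | hz'
      · exact hirr _ haE
      · exact absurd hz' (Set.notMem_empty _)
    · obtain ⟨z, hz, hmax⟩ := ih hZE hne
      by_cases h : r z a
      · refine ⟨a, mem_insert _ _, fun z' hz' h1 => ?_⟩
        rcases hz' with rfl | hz'
        · exact hirr _ haE h1
        · exact hmax z' hz' (htra z (hZE hz) a haE z' (hZE hz') h h1)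
      · refine ⟨z, mem_insert_of_mem _ hz, fun z' hz' => ?_⟩
        rcases hz' with rfl | hz'
        · exact h
        · exact hmax z' hz'

theorem LOB_disj {A E : Set U} {lt : U → U → Prop} (h : Lin L A E lt) : Disjoint A E := by
  rw [Set.disjoint_left]
  intro a haA haE
  obtain ⟨g, hg, -, h2⟩ := h.gap ∅ {a} Set.finite_empty (Set.finite_singleton a)
    (Set.empty_subset _) (Set.singleton_subset_iff.2 haE) (fun d hd => absurd hd (notMem_empty d))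
    a haE
  have h3 := h2 (g a) rfl a rfl
  rw [hg.1 a haA] at h3
  exact h.irr a haE h3

theorem LOB_ortR {A E : Set U} {lt : U → U → Prop} (h : Lin L A E lt) (S W : Set U)
    (hS : S.Finite) (hW : W.Finite) (hSE : S ⊆ E) (hWE : W ⊆ E) (h1 : LT lt S W)
    (g : U ≃[L] U) (hg : Nx L A g) (h2 : LT lt (g '' S) W) :
    ∃ h : U ≃[L] U, Nx L A h ∧ (∀ w ∈ W, h w = w) ∧ ∀ b ∈ S, h b = g b := by
  obtain ⟨k, hk, hkS, hkW⟩ := h.ort S W hS hW hSE hWE h1 g _ hg (nx_refl A) (by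
    rintro s hs _ ⟨w, hw, rfl⟩
    exact h2 s hs w hw)
  exact ⟨k, hk, hkW, hkS⟩

theorem LOB_ortL {A E : Set U} {lt : U → U → Prop} (h : Lin L A E lt) (S W : Set U)
    (hS : S.Finite) (hW : W.Finite) (hSE : S ⊆ E) (hWE : W ⊆ E) (h1 : LT lt W S)
    (g : U ≃[L] U) (hg : Nx L A g) (h2 : LT lt W (g '' S)) :
    ∃ h : U ≃[L] U, Nx L A h ∧ (∀ w ∈ W, h w = w) ∧ ∀ b ∈ S, h b = g b := by
  obtain ⟨k, hk, hkW, hkS⟩ := h.ort W S hW hS hWE hSE h1 _ g (nx_refl A) hg (by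
    rintro _ ⟨w, hw, rfl⟩ s hs
    exact h2 w hw s hs)
  exact ⟨k, hk, hkW, hkS⟩

theorem LOB_mid {A E : Set U} {lt : U → U → Prop} (h : Lin L A E lt) (D M V : Set U)
    (hD : D.Finite) (hM : M.Finite) (hV : V.Finite) (hDE : D ⊆ E) (hME : M ⊆ E) (hVE : V ⊆ E)
    (hDV : LT lt D V) (hDM : LT lt D M) (hMV : LT lt M V) (g : U ≃[L] U) (hg : Nx L A g)
    (h1 : LT lt D (g '' M)) (h2 : LT lt (g '' M) V) :
    ∃ h : U ≃[L] U, Nx L A h ∧ (∀ w ∈ D, h w = w) ∧ (∀ w ∈ V, h w = w) ∧ ∀ m ∈ M, h m = g m := by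
  obtain ⟨k, hk, hkV, hkM⟩ := LOB_ortR h M V hM hV hME hVE hMV g hg h2
  obtain ⟨l, hl, hlD, hlMV⟩ := LOB_ortL h (M ∪ V) D (hM.union hV) hD (union_subset hME hVE) hDE
    (by
      intro d hd x hx
      rcases hx with hx | hx
      · exact hDM d hd x hx
      · exact hDV d hd x hx) k hk (by
      rintro d hd _ ⟨x, hx, rfl⟩
      rcases hx with hx | hx
      · rw [hkM x hx]
        exact h1 d hd _ (mem_image_of_mem _ hx)
      · rw [hkV x hx]
        exact hDV d hd x hx)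
  refine ⟨l, hl, hlD, fun w hw => ?_, fun m hm => ?_⟩
  · rw [hlMV w (Or.inr hw), hkV w hw]
  · rw [hlMV m (Or.inl hm), hkM m hm]

theorem LOB_gap {A E : Set U} {lt : U → U → Prop} (h : Lin L A E lt) (D V Z : Set U)
    (hD : D.Finite) (hV : V.Finite) (hZ : Z.Finite) (hDE : D ⊆ E) (hVE : V ⊆ E) (hZE : Z ⊆ E)
    (hDV : LT lt D V) :
    ∃ g : U ≃[L] U, Nx L A g ∧ LT lt D (g '' Z) ∧ LT lt (g '' Z) V := by
  rcases Z.eq_empty_or_nonempty with rfl | hne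
  · refine ⟨_, nx_refl A, ?_, ?_⟩
    · rintro d hd _ ⟨x, hx, rfl⟩
      exact absurd hx (notMem_empty x)
    · rintro _ ⟨x, hx, rfl⟩
      exact absurd hx (notMem_empty x)
  obtain ⟨z, hz, hmax⟩ := LOB_max h.irr h.tra hZ hZE hne
  obtain ⟨g1, hg1, -, h2⟩ := h.gap D V hD hV hDE hVE hDV z (hZE hz)
  -- the image of `Z` is before `V`
  have hg1E : ∀ x ∈ Z, g1 x ∈ E := fun x hx => (h.fxE g1 hg1.1 x).2 (hZE hx)
  have hZV : ∀ x ∈ Z, ∀ v ∈ V, lt (g1 x) v := by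
    intro x hx v hv
    rcases h.neg (g1 z) (hg1E z hz) (g1 x) (hg1E x hx) v (hVE hv) (h2 _ rfl v hv) with h3 | h3
    · exact absurd ((h.fxl g1 hg1.1 z (hZE hz) x (hZE hx)).1 h3) (hmax x hx)
    · exact h3
  obtain ⟨z0, hz0, hmin⟩ := LOB_max (E := E) (r := fun x y => lt y x) h.irr
    (fun x hx y hy z hz h1 h2 => h.tra z hz y hy x hx h2 h1) hZ hZE hne
  obtain ⟨g2, hg2, h3, h4⟩ := h.gap D V hD hV hDE hVE hDV (g1 z0) (hg1E z0 hz0)
  obtain ⟨k, hk, hkV, hkz⟩ := LOB_ortR h {g1 z0} V (Set.finite_singleton _) hV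
    (Set.singleton_subset_iff.2 (hg1E z0 hz0)) hVE (by
      rintro _ rfl v hv
      exact hZV z0 hz0 v hv) g2 hg2 (by
      rintro _ ⟨_, rfl, rfl⟩ v hv
      exact h4 _ rfl v hv)
  have hkz0 := hkz _ rfl
  have hkE : ∀ x ∈ Z, k (g1 x) ∈ E := fun x hx => (h.fxE k hk.1 _).2 (hg1E x hx)
  refine ⟨k.comp g1, nx_comp hk hg1, ?_, ?_⟩
  · rintro d hd _ ⟨x, hx, rfl⟩
    rw [comp_apply']
    have h5 : lt d (k (g1 z0)) := by
      rw [hkz0]
      exact h3 d hd _ rfl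
    rcases h.neg d (hDE hd) (k (g1 x)) (hkE x hx) (k (g1 z0)) (hkE z0 hz0) h5 with h6 | h6
    · exact h6
    · have h7 := (h.fxl k hk.1 _ (hg1E x hx) _ (hg1E z0 hz0)).1 h6
      exact absurd ((h.fxl g1 hg1.1 x (hZE hx) z0 (hZE hz0)).1 h7) (hmin x hx)
  · rintro _ ⟨x, hx, rfl⟩ v hv
    rw [comp_apply', ← hkV v hv]
    exact (h.fxl k hk.1 _ (hg1E x hx) _ (hVE hv)).2 (hZV x hx v hv)

end

/-- [LOB] -/
theorem thm_LOB : St_LOB := by
  intro L U _ hM A E lt h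
  refine ⟨fun x hx y hy h1 h2 => h.irr x hx (h.tra x hx y hy x hx h1 h2), LOB_disj h,
    LOB_ortR h, LOB_ortL h, LOB_mid h, LOB_gap h, fun B g hg hB => ?_⟩
  obtain ⟨k, hk, h1, h2⟩ := h.bq.glu g hg
  refine ⟨k, hk, fun b hb => ?_, h1⟩
  by_cases hbE : b ∈ E
  · rw [h1 b hbE, hB b hb hbE]
  · exact h2 b hbE

end Pool.Agent.TPC
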