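import Pool.Agent.TPC.StC
import Pool.Agent.PMC.PLC

/-!
TPC [LPC] (helper15): placement of a countable family of intervals.
-/

set_option autoImplicit false
set_option linter.unusedVariables false

namespace Pool.Agent.TPC

open FirstOrder.Language Set
open scoped FirstOrder
open Pool.Agent.WOM (tp Mon IsEl IsoM CtU Fx Orb Isd)
open Pool.Agent.PMC (Sm Md NPf)
open Pool.Agent.MNO (Dp FE Sq Nx SmN FE1 FinN)

/-- **LPC** -/
theorem thm_LPC (hLOB : St_LOB) : St_LPC := by
  classical
  intro L U _ hM A E lt hLin D _ _ p q hp hq _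
  obtain ⟨-, -, -, -, -, h4, -⟩ := hLOB L U hM A E lt hLin
  have hE : ∀ g : U ≃[L] U, Nx L A g → ∀ x, x ∈ E → g x ∈ E := fun g hg x hx =>
    (hLin.bq.inv g hg x).2 hx
  obtain ⟨g, hg⟩ := Pool.Agent.PMC.PLC.build (D := D) (X := U ≃[L] U)
    (fun F g => (∀ d ∈ F, Nx L A (g d)) ∧ ∀ d ∈ F, ∀ d' ∈ F, d < d' →
      lt (g d (q d)) (g d' (p d')))
    (fun _ => FirstOrder.Language.Equiv.refl L U)
    ⟨fun d hd => absurd hd (Set.notMem_empty d), fun d hd => absurd hd (Set.notMem_empty d)⟩
    (by
      rintro F g hF ⟨hg1, hg2⟩ d hd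
      obtain ⟨t, ht, ht1, ht2⟩ := h4 ((fun c => g c (q c)) '' {c | c ∈ F ∧ c < d})
        ((fun c => g c (p c)) '' {c | c ∈ F ∧ d < c}) {p d, q d}
        ((hF.subset fun c hc => hc.1).image _) ((hF.subset fun c hc => hc.1).image _)
        (by simp)
        (by
          rintro _ ⟨c, hc, rfl⟩
          exact hE _ (hg1 c hc.1) _ (hq c))
        (by
          rintro _ ⟨c, hc, rfl⟩
          exact hE _ (hg1 c hc.1) _ (hp c))
        (by
          rintro x (rfl | rfl)
          · exact hp d
          · exact hq d)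
        (by
          rintro _ ⟨c, hc, rfl⟩ _ ⟨c', hc', rfl⟩
          exact hg2 c hc.1 c' hc'.1 (hc.2.trans hc'.2))
      have hne : ∀ c ∈ F, c ≠ d := fun c hc h => hd (h ▸ hc)
      refine ⟨Function.update g d t, fun c hc => Function.update_of_ne (hne c hc) _ _, ?_, ?_⟩
      · rintro c (rfl | hc)
        · rw [Function.update_self]
          exact ht
        · rw [Function.update_of_ne (hne c hc)]
          exact hg1 c hc
      · rintro c (rfl | hc) c' (rfl | hc') hcc
        · exact absurd hcc (lt_irrefl _)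
        · rw [Function.update_self, Function.update_of_ne (hne c' hc')]
          exact ht2 _ ⟨q c, by simp, rfl⟩ _ ⟨c', ⟨hc', hcc⟩, rfl⟩
        · rw [Function.update_self, Function.update_of_ne (hne c hc)]
          exact ht1 _ ⟨c, ⟨hc, hcc⟩, rfl⟩ _ ⟨p c', by simp, rfl⟩
        · rw [Function.update_of_ne (hne c hc), Function.update_of_ne (hne c' hc')]
          exact hg2 c hc c' hc' hcc)
    (by
      rintro F F' g g' hFF hgg ⟨hg1, hg2⟩
      refine ⟨fun d hd => ?_, fun d hd d' hd' hdd => ?_⟩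
      · rw [hgg d hd]
        exact hg1 d (hFF hd)
      · rw [hgg d hd, hgg d' hd']
        exact hg2 d (hFF hd) d' (hFF hd') hdd)
  refine ⟨g, fun d => (hg {d} (Set.finite_singleton d)).1 d rfl, fun d d' hdd => ?_⟩
  exact (hg {d, d'} (by simp)).2 d (by simp) d' (by simp) hdd

end Pool.Agent.TPC
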