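import Pool.Agent.TPC.StE

/-!
TPC, modules LXT, PAR, CTG (helper47): assembly of the counting part.
-/

set_option autoImplicit false
set_option linter.unusedVariables false

namespace Pool.Agent.TPC

open FirstOrder.Language Set
open scoped FirstOrder
open Pool.Agent.WOM (tp Mon IsEl IsoM CtU Fx Orb Isd)
open Pool.Agent.PMC (Sm Md NPf)
open Pool.Agent.MNO (Dp FE Sq Nx SmN FE1 FinN)

/-- [LXT] -/
theorem thm_LXT (hLNW : St_LNW) (hLNI : St_LNI) (hLCL : St_LCL) (hRCH : St_RCH) : St_LXT := by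
  intro L U _ hM hN A E lt hL
  refine hLCL L U hM A E lt hL ?_ ?_
  · intro M p hMd hp hpE
    obtain ⟨z, -, hzE, hz⟩ := hLNW L U hM hN A E lt hL univ M p (hRCH L U hM A hL.fin).1 hMd hp hpE
    exact ⟨z, hzE, hz⟩
  · intro M p q hMd hp hpE hq hqE hpq z hz
    exact hLNI L U hM hN A E lt hL M p q hMd hp hpE hq hqE hpq z hz

end Pool.Agent.TPC
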