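import Pool.Agent.TPC.StA

/-!
TPC, module NNQ (helper26): a piece over `A` which misses the finite set `W` is a piece over `A ∪ W`.
-/

set_option autoImplicit false
set_option linter.unusedVariables false
set_option linter.unusedSectionVars false

namespace Pool.Agent.TPC

open FirstOrder.Language Set
open scoped FirstOrder
open Pool.Agent.WOM (tp Mon IsEl IsoM CtU Fx Orb Isd)
open Pool.Agent.PMC (Sm Md NPf fx_refl fx_symm fx_comp fx_mono comp_apply')
open Pool.Agent.MNO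

open Classical in
/-- `g` on `R`, the identity elsewhere -/
noncomputable def NNQ_e {U : Type} (g : U ≃ U) (R : Set U) (hR : ∀ x, g x ∈ R ↔ x ∈ R) : U ≃ U where
  toFun x := if x ∈ R then g x else x
  invFun x := if x ∈ R then g.symm x else x
  left_inv x := by
    by_cases hx : x ∈ R
    · simp [hx, (hR x).2 hx]
    · simp [hx]
  right_inv x := by
    by_cases hx : x ∈ R
    · have h1 : g.symm x ∈ R := (hR _).1 (by rw [g.apply_symm_apply]; exact hx)
      simp [hx, h1]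
    · simp [hx]

theorem NNQ_e_mem {U : Type} (g : U ≃ U) (R : Set U) (hR : ∀ x, g x ∈ R ↔ x ∈ R) {x : U}
    (hx : x ∈ R) : NNQ_e g R hR x = g x := by
  classical
  show (if x ∈ R then g x else x) = g x
  rw [if_pos hx]

theorem NNQ_e_not {U : Type} (g : U ≃ U) (R : Set U) (hR : ∀ x, g x ∈ R ↔ x ∈ R) {x : U}
    (hx : x ∉ R) : NNQ_e g R hR x = x := by
  classical
  show (if x ∈ R then g x else x) = x
  rw [if_neg hx]

theorem thm_NNQ : St_NNQ := by
  intro hOFQ hALQ hBND L U _ hM A W x hA hW hd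
  have hAW : (A ∪ W).Finite := hA.union hW
  obtain ⟨-, -, -, -, h5, -, h7, -, -, h10⟩ := hALQ hOFQ hBND L U hM A hA
  obtain ⟨-, -, -, -, h5', -, -, -, -, -⟩ := hALQ hOFQ hBND L U hM (A ∪ W) hAW
  have hRP : Pq L (A ∪ W) x ⊆ Pq L A x := h10 (A ∪ W) hAW subset_union_left x
  have hR := (h5' x).1
  obtain ⟨o1, -, -⟩ := hOFQ hBND L U hM A (Pq L A x) hA (h5 x).1
  -- one direction of the invariance
  have hinv : ∀ g : U ≃[L] U, Nx L A g → ∀ y ∈ Pq L (A ∪ W) x, g y ∈ Pq L (A ∪ W) x := by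
    intro g hg y hy
    obtain ⟨h, hh, hh'⟩ := o1 W hW hd g hg {y} (finite_singleton y)
      (singleton_subset_iff.2 (hRP hy))
    rw [← hh' y rfl]
    exact (hR.inv h hh y).2 hy
  have hinv' : ∀ g : U ≃[L] U, Nx L A g → ∀ y, g y ∈ Pq L (A ∪ W) x ↔ y ∈ Pq L (A ∪ W) x := by
    intro g hg y
    refine ⟨fun h1 => ?_, hinv g hg y⟩
    have h2 := hinv g.symm (nx_symm hg) _ h1
    rw [g.symm_apply_apply] at h2
    exact h2
  refine h7 x _ ⟨hinv', fun g hg => ?_⟩ hRP ⟨x, (h5' x).2⟩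
  obtain ⟨h, hh, hh'⟩ := nx_lim (L := L) (A := A)
    (NNQ_e g.toEquiv (Pq L (A ∪ W) x) (hinv' g hg)) (by
      intro s hs
      obtain ⟨t, ht, ht'⟩ := o1 W hW hd g hg (s ∩ Pq L (A ∪ W) x) (hs.inter_of_left _)
        (inter_subset_right.trans hRP)
      obtain ⟨k, hk, hk1, hk2⟩ := hR.glu t ht
      refine ⟨k, nx_mono subset_union_left hk, fun y hy => ?_⟩
      by_cases hyR : y ∈ Pq L (A ∪ W) x
      · rw [NNQ_e_mem _ _ _ hyR, hk1 y hyR, ht' y ⟨hy, hyR⟩]
        rfl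
      · rw [NNQ_e_not _ _ _ hyR, hk2 y hyR])
  refine ⟨h, hh, fun y hy => ?_, fun y hy => ?_⟩
  · rw [hh', NNQ_e_mem _ _ _ hy]
    rfl
  · rw [hh', NNQ_e_not _ _ _ hy]

end Pool.Agent.TPC
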