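import Pool.Agent.TPC.StB
import Pool.Agent.MNO.NFE
import Pool.Agent.MNO.STG

/-!
TPC, module CLQ (helper26): pieces are closed in orbits.
-/

set_option autoImplicit false
set_option linter.unusedVariables false

namespace Pool.Agent.TPC

open FirstOrder.Language Set
open scoped FirstOrder
open Pool.Agent.WOM (tp Mon IsEl IsoM CtU Fx Orb Isd)
open Pool.Agent.PMC (Sm Md NPf fx_refl fx_symm fx_comp fx_mono mem_orb sat_fam)
open Pool.Agent.MNO (Dp FE Sq Nx SmN FE1 FinN dp_sat dp_and dp_not dp_fx nx_fx nx_symm nx_comp)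

section

variable {L : FirstOrder.Language.{0, 0}} {U : Type} [L.Structure U]

/-- a growing property of finitely many things -/
theorem CLQ_fin {ι : Type*} {G : Set ι} (hG : G.Finite) {Q : ℕ → ι → Prop}
    (h1 : ∀ P ∈ G, ∃ n, Q n P) (h2 : ∀ m n P, m ≤ n → Q m P → Q n P) : ∃ n, ∀ P ∈ G, Q n P := by
  induction G, hG using Set.Finite.induction_on with
  | empty => exact ⟨0, fun P hP => absurd hP (notMem_empty P)⟩
  | @insert a s _ _ ih =>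
    obtain ⟨n, hn⟩ := ih (fun P hP => h1 P (mem_insert_of_mem a hP))
    obtain ⟨m, hm⟩ := h1 a (mem_insert a s)
    refine ⟨max m n, fun P hP => ?_⟩
    rcases hP with rfl | hP
    · exact h2 _ _ _ (le_max_left m n) hm
    · exact h2 _ _ _ (le_max_right m n) (hn P hP)

theorem CLQ_eqv {A : Set U} {F : U → U → Prop} (hF : FE1 L A F) : Equivalence F :=
  ⟨fun x => hF.eqv.refl (fun _ => x),
    fun {x y} h => hF.eqv.symm (x := fun _ => x) (y := fun _ => y) h,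
    fun {x y z} h h' => hF.eqv.trans (x := fun _ => x) (y := fun _ => y) (z := fun _ => z) h h'⟩

theorem CLQ_fe {A : Set U} {F : U → U → Prop} (hF : FE1 L A F) {g : U ≃[L] U} (hg : Fx L A g)
    (x y : U) : F (g x) (g y) ↔ F x y :=
  dp_fx hF.dfn hg (Sum.elim (fun _ => x) (fun _ => y))

theorem CLQ_nx {A : Set U} {F : U → U → Prop} (hF : FE1 L A F) {g : U ≃[L] U} (hg : Nx L A g)
    (x : U) : F x (g x) :=
  hg.2 1 (fun _ => x) _ hF

theorem CLQ_orb {A : Set U} {x z : U} (h : z ∈ Orb L A x) : Orb L A z = Orb L A x := by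
  obtain ⟨g, hg, rfl⟩ := h
  ext y
  constructor
  · rintro ⟨k, hk, rfl⟩
    exact ⟨k.comp g, fx_comp hk hg, rfl⟩
  · rintro ⟨k, hk, rfl⟩
    refine ⟨k.comp g.symm, fx_comp hk (fx_symm hg), ?_⟩
    show k (g.symm (g x)) = k x
    rw [g.symm_apply_apply]

theorem CLQ_orb_fx {A : Set U} {g : U ≃[L] U} (hg : Fx L A g) (x v : U) :
    g v ∈ Orb L A x ↔ v ∈ Orb L A x := by
  constructor
  · rintro ⟨k, hk, hkx⟩
    refine ⟨g.symm.comp k, fx_comp (fx_symm hg) hk, ?_⟩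
    show g.symm (k x) = v
    rw [hkx, g.symm_apply_apply]
  · rintro ⟨k, hk, rfl⟩
    exact ⟨g.comp k, fx_comp hg hk, rfl⟩

theorem CLQ_orb_symm {A : Set U} {x z : U} (h : z ∈ Orb L A x) : x ∈ Orb L A z := by
  rw [CLQ_orb h]
  exact mem_orb A x

/-- pieces form a partition -/
theorem CLQ_pq {A : Set U} {x y : U} (h : y ∈ Pq L A x) : Pq L A y = Pq L A x := by
  ext v
  exact ⟨fun hv Q hQ => (h Q hQ).trans (hv Q hQ), fun hv Q hQ => (h Q hQ).symm.trans (hv Q hQ)⟩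

theorem CLQ_self (A : Set U) (x : U) : x ∈ Pq L A x := fun Q _ => Iff.rfl

theorem CLQ_pq_symm {A : Set U} {x y : U} (h : y ∈ Pq L A x) : x ∈ Pq L A y := by
  rw [CLQ_pq h]
  exact CLQ_self A x

theorem CLQ_inv {A : Set U} {g : U ≃[L] U} (hg : Nx L A g) (x y : U) :
    g y ∈ Pq L A x ↔ y ∈ Pq L A x :=
  ⟨fun h Q hQ => (h Q hQ).trans (hQ.inv g hg y), fun h Q hQ => (h Q hQ).trans (hQ.inv g hg y).symm⟩

theorem CLQ_mono {A : Set U} {E : ℕ → U → U → Prop} (hE : Seq L A E) {m n : ℕ} (h : m ≤ n)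
    {u v : U} (huv : E n u v) : E m u v := by
  induction n, h using Nat.le_induction with
  | base => exact huv
  | succ n _ ih => exact ih (hE.dec n u v huv)

/-- every finite equivalence relation is coarser than some `E n` -/
theorem CLQ_sub (hM : Mon L U) {A : Set U} (hA : A.Finite) {E : ℕ → U → U → Prop}
    (hE : Seq L A E) {F : U → U → Prop} (hF : FE1 L A F) : ∃ n, ∀ u v, E n u v → F u v := by
  by_contra hcon
  push Not at hcon
  obtain ⟨w, hw⟩ := dp_sat (α := Fin 1 ⊕ Fin 1) hM hA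
    (F := {P | ∃ n, P = fun w => E n (w (Sum.inl 0)) (w (Sum.inr 0)) ∧
      ¬ F (w (Sum.inl 0)) (w (Sum.inr 0))}) (by
    rintro P ⟨n, rfl⟩
    exact dp_and (hE.fe n).dfn (dp_not hF.dfn)) (by
    intro G hG hfin
    obtain ⟨n, hn⟩ := CLQ_fin hfin
      (Q := fun n P => ∀ w : Fin 1 ⊕ Fin 1 → U, (E n (w (Sum.inl 0)) (w (Sum.inr 0)) ∧
        ¬ F (w (Sum.inl 0)) (w (Sum.inr 0))) → P w) (by
      intro P hP
      obtain ⟨n, rfl⟩ := hG hP
      exact ⟨n, fun w hw => hw⟩) (by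
      intro m n P hmn h w hw
      exact h w ⟨CLQ_mono hE hmn hw.1, hw.2⟩)
    obtain ⟨u, v, huv, huv'⟩ := hcon n
    exact ⟨Sum.elim (fun _ => u) (fun _ => v), fun P hP => hn P hP _ ⟨huv, huv'⟩⟩)
  have h1 : ∀ n, E n (w (Sum.inl 0)) (w (Sum.inr 0)) := fun n => (hw _ ⟨n, rfl⟩).1
  obtain ⟨g, hg, hg'⟩ := hE.inf _ _ h1
  apply (hw _ ⟨0, rfl⟩).2
  rw [← hg']
  exact CLQ_nx hF hg _

variable (L) in
/-- the points of the orbit of `z` which are close to the piece of `z` -/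
def CLQ_S (A : Set U) (E : ℕ → U → U → Prop) (n : ℕ) (z : U) : Set U :=
  {v | v ∈ Orb L A z ∧ ∃ y ∈ Orb L A z, y ∈ Pq L A z ∧ E n v y}

theorem CLQ_S_mono {A : Set U} {E : ℕ → U → U → Prop} (hE : Seq L A E) {m n : ℕ} (h : m ≤ n)
    (z : U) : CLQ_S L A E n z ⊆ CLQ_S L A E m z := by
  rintro v ⟨hv, y, hy, hy', hvy⟩
  exact ⟨hv, y, hy, hy', CLQ_mono hE h hvy⟩

theorem CLQ_S_self {A : Set U} {E : ℕ → U → U → Prop} (hE : Seq L A E) (n : ℕ) {z y : U}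
    (hy : y ∈ Orb L A z) (hy' : y ∈ Pq L A z) : y ∈ CLQ_S L A E n z :=
  ⟨hy, y, hy, hy', (CLQ_eqv (hE.fe n)).refl y⟩

theorem CLQ_S_congr {A : Set U} {E : ℕ → U → U → Prop} (n : ℕ) {z y : U}
    (hy : y ∈ Orb L A z) (hy' : y ∈ Pq L A z) : CLQ_S L A E n y = CLQ_S L A E n z := by
  unfold CLQ_S
  rw [CLQ_orb hy, CLQ_pq hy']

theorem CLQ_img (hI : St_IMQ) (hM : Mon L U) {A : Set U} (hA : A.Finite) {E : ℕ → U → U → Prop}
    (hE : Seq L A E) {g : U ≃[L] U} (hg : Fx L A g) (n : ℕ) (z v : U) :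
    g v ∈ CLQ_S L A E n (g z) ↔ v ∈ CLQ_S L A E n z := by
  have h3 := (hI L U hM A hA).2.2 g hg z
  have h4 : Orb L A (g z) = Orb L A z := CLQ_orb ⟨g, hg, rfl⟩
  unfold CLQ_S
  rw [h4, ← h3]
  constructor
  · rintro ⟨h1, y, hy, ⟨y', hy', rfl⟩, hvy⟩
    exact ⟨(CLQ_orb_fx hg z v).1 h1, y', (CLQ_orb_fx hg z y').1 hy, hy',
      (CLQ_fe (hE.fe n) hg v y').1 hvy⟩
  · rintro ⟨h1, y, hy, hy', hvy⟩
    exact ⟨(CLQ_orb_fx hg z v).2 h1, g y, (CLQ_orb_fx hg z y).2 hy, ⟨y, hy', rfl⟩,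
      (CLQ_fe (hE.fe n) hg v y).2 hvy⟩

/-- step (b) -/
theorem CLQ_b (hN : St_NEA) (hF : St_FEQ) (hI : St_IMQ) (hM : Mon L U) {A : Set U} (hA : A.Finite)
    {E : ℕ → U → U → Prop} (hE : Seq L A E) {z w : U} (h : ∀ n, w ∈ CLQ_S L A E n z) (n : ℕ) :
    CLQ_S L A E n w = CLQ_S L A E n z := by
  obtain ⟨F', hF', hF''⟩ := hN hF L U hM A z (E n) hA (hE.fe n)
  obtain ⟨m, hm⟩ := CLQ_sub hM hA hE hF'
  obtain ⟨hw, y, hy, hy', hwy⟩ := h m
  obtain ⟨g, hg, hg1, hg2⟩ := hF'' y hy w hw ((CLQ_eqv hF').symm (hm _ _ hwy))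
  have hEn := CLQ_eqv (hE.fe n)
  have h1 : CLQ_S L A E n y = CLQ_S L A E n z := CLQ_S_congr n hy hy'
  rw [← h1]
  have h2 : ∀ v, g v ∈ CLQ_S L A E n w ↔ v ∈ CLQ_S L A E n y := by
    intro v
    rw [← hg2]
    exact CLQ_img hI hM hA hE hg n y v
  have h3 : ∀ u v t, E n u v → u ∈ CLQ_S L A E n t → v ∈ Orb L A t → v ∈ CLQ_S L A E n t := by
    rintro u v t huv ⟨hu, s, hs, hs', hus⟩ hv
    exact ⟨hv, s, hs, hs', hEn.trans (hEn.symm huv) hus⟩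
  have hwy' : Orb L A w = Orb L A y := by rw [CLQ_orb hw, CLQ_orb hy]
  ext v
  constructor
  · intro hv
    have h4 : v ∈ Orb L A y := by
      rw [← hwy']
      exact hv.1
    have h5 : g.symm v ∈ CLQ_S L A E n y := by
      rw [← h2, g.apply_symm_apply]
      exact hv
    refine h3 _ _ _ ?_ h5 h4
    have h6 := hg1 (g.symm v)
    rw [g.apply_symm_apply] at h6
    exact h6
  · intro hv
    have h4 : v ∈ Orb L A w := by
      rw [hwy']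
      exact hv.1
    exact h3 _ _ _ (hEn.symm (hg1 v)) ((h2 v).2 hv) h4

/-- step (c) -/
theorem CLQ_c (hF : St_FEQ) (hM : Mon L U) {A : Set U} (hA : A.Finite)
    {E : ℕ → U → U → Prop} (hE : Seq L A E) (x : U) :
    ∃ y ∈ Orb L A x, y ∈ Pq L A x ∧ ∃ (m : ℕ) (u : U), ∀ m', m ≤ m' → ∀ y' ∈ Orb L A x,
      y' ∈ Pq L A x → E m y y' → ∃ v ∈ Orb L (insert x A) u, E m' y' v := by
  by_contra hcon
  push Not at hcon
  have hC : (insert x A).Finite := hA.insert x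
  have hF9 := (hF L U hM A hA).2.2.2.2.2.2.2.2
  have := hM.ctb
  have : Nonempty U := ⟨x⟩
  obtain ⟨e, he⟩ := exists_surjective_nat U
  have hstep : ∀ (p : {p : U × ℕ // p.1 ∈ Orb L A x ∧ p.1 ∈ Pq L A x}) (i : ℕ),
      ∃ p' : {p : U × ℕ // p.1 ∈ Orb L A x ∧ p.1 ∈ Pq L A x}, p.1.2 ≤ p'.1.2 ∧
        E p.1.2 p.1.1 p'.1.1 ∧ ∀ v ∈ Orb L (insert x A) (e i), ¬ E p'.1.2 p'.1.1 v := by
    rintro ⟨⟨y, m⟩, hy, hy'⟩ i
    obtain ⟨m', hm', y', h1, h2, h3, h4⟩ := hcon y hy hy' m (e i)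
    exact ⟨⟨⟨y', m'⟩, h1, h2⟩, hm', h3, h4⟩
  choose f hf1 hf2 hf3 using hstep
  obtain ⟨t, ht⟩ : ∃ t : ℕ → {p : U × ℕ // p.1 ∈ Orb L A x ∧ p.1 ∈ Pq L A x},
      ∀ i, t (i + 1) = f (t i) i :=
    ⟨fun i => Nat.rec ⟨⟨x, 0⟩, mem_orb A x, CLQ_self A x⟩ (fun i p => f p i) i, fun i => rfl⟩
  have hch : ∀ i j, i ≤ j → (t i).1.2 ≤ (t j).1.2 ∧ E (t i).1.2 (t i).1.1 (t j).1.1 := by
    intro i j hij
    induction j, hij using Nat.le_induction with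
    | base => exact ⟨le_refl _, (CLQ_eqv (hE.fe _)).refl _⟩
    | succ j _ ih =>
      obtain ⟨h1, h2⟩ := ih
      rw [ht j]
      refine ⟨h1.trans (hf1 _ _), (CLQ_eqv (hE.fe _)).trans h2 ?_⟩
      exact CLQ_mono hE h1 (hf2 _ _)
  obtain ⟨w, hw⟩ := sat_fam hM hC
    (F := {D | ∃ i, D = {w | ∃ y ∈ Orb L (insert x A) (t (i + 1)).1.1, E (t (i + 1)).1.2 w y}}) (by
    rintro D ⟨i, rfl⟩
    refine hF9 _ _ _ (hE.fe _) hC (subset_insert x A) ?_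
    rintro g hg y ⟨k, hk, rfl⟩
    exact ⟨g.comp k, fx_comp hg hk, rfl⟩) (by
    intro G hG hfin
    obtain ⟨N, hN⟩ := CLQ_fin hfin
      (Q := fun N D => ∀ j, N ≤ j → (t j).1.1 ∈ D) (by
      intro D hD
      obtain ⟨i, rfl⟩ := hG hD
      refine ⟨i + 1, fun j hj => ?_⟩
      exact ⟨_, mem_orb _ _, (CLQ_eqv (hE.fe _)).symm (hch _ _ hj).2⟩) (by
      intro m n D hmn h j hj
      exact h j (hmn.trans hj))
    exact ⟨(t N).1.1, fun D hD => hN D hD N (le_refl N)⟩)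
  obtain ⟨i, rfl⟩ := he w
  obtain ⟨y, ⟨k, hk, rfl⟩, hky⟩ := hw _ ⟨i, rfl⟩
  have h1 : Fx L A k := fx_mono (subset_insert x A) hk
  rw [ht i] at hky
  refine hf3 (t i) i (k.symm (e i)) ⟨k.symm, fx_symm hk, rfl⟩ ?_
  rw [← CLQ_fe (hE.fe _) h1, k.apply_symm_apply]
  exact (CLQ_eqv (hE.fe _)).symm hky

end

theorem thm_CLQ : St_CLQ := by
  intro hN hF hAl hI hO hB L U _ hM A E x w hA hE hw h
  have hS : ∀ n, w ∈ CLQ_S L A E n x := by
    intro n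
    obtain ⟨y, hy, hy', hwy⟩ := h n
    exact ⟨hw, y, hy, hy', hwy⟩
  have hS' := CLQ_b hN hF hI hM hA hE hS
  obtain ⟨y, hy, hy', m, u, hu⟩ := CLQ_c hF hM hA hE x
  have hC : (insert x A).Finite := hA.insert x
  have hF8 := (hF L U hM A hA).2.2.2.2.2.2.2.1
  -- `y` has a copy under `Nx A` in the orbit of `u`
  obtain ⟨v1, hv1, g1, hg1, hg1'⟩ := hF8 (insert x A) u y hC (subset_insert x A) (by
    intro F hF1
    obtain ⟨n, hn⟩ := CLQ_sub hM hA hE hF1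
    obtain ⟨v, hv, hv'⟩ := hu (max m n) (le_max_left m n) y hy hy' ((CLQ_eqv (hE.fe m)).refl y)
    exact ⟨v, hv, hn _ _ (CLQ_mono hE (le_max_right m n) hv')⟩)
  have h1 : v1 ∈ Pq L A x := by
    rw [← hg1']
    exact (CLQ_inv hg1 x y).2 hy'
  have h2 : ∀ v ∈ Orb L (insert x A) u, v ∈ Pq L A x := by
    intro v hv
    rw [← CLQ_orb hv1] at hv
    obtain ⟨k, hk, rfl⟩ := hv
    have h3 := (hI L U hM A hA).2.2 k (fx_mono (subset_insert x A) hk) x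
    rw [hk x (mem_insert x A)] at h3
    rw [← h3]
    exact ⟨v1, h1, rfl⟩
  have h3 : y ∈ CLQ_S L A E m w := by
    rw [hS' m]
    exact CLQ_S_self hE m hy hy'
  obtain ⟨-, v, hv, hv', hyv⟩ := h3
  rw [CLQ_orb hw] at hv
  obtain ⟨v2, hv2, g2, hg2, hg2'⟩ := hF8 (insert x A) u v hC (subset_insert x A) (by
    intro F hF1
    obtain ⟨n, hn⟩ := CLQ_sub hM hA hE hF1
    have h4 : v ∈ CLQ_S L A E (max m n) x := by
      rw [← hS' (max m n)]
      refine CLQ_S_self hE _ ?_ hv'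
      rw [CLQ_orb hw]
      exact hv
    obtain ⟨-, y', hy1, hy2, hvy⟩ := h4
    obtain ⟨v', hv1', hv2'⟩ := hu (max m n) (le_max_left m n) y' hy1 hy2
      ((CLQ_eqv (hE.fe m)).trans hyv (CLQ_mono hE (le_max_left m n) hvy))
    exact ⟨v', hv1', hn _ _ (CLQ_mono hE (le_max_right m n)
      ((CLQ_eqv (hE.fe _)).trans hvy hv2'))⟩)
  have h5 : v ∈ Pq L A x := by
    rw [← CLQ_inv hg2 x v, hg2']
    exact h2 v2 hv2
  rw [← CLQ_pq h5, CLQ_pq hv']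
  exact CLQ_self A w

end Pool.Agent.TPC
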