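import Pool.Agent.TPC.StB

/-!
TPC, module FEQ (helper68): finite equivalence relations on `U`.
-/

set_option autoImplicit false
set_option linter.unusedVariables false
set_option linter.unusedSectionVars false

namespace Pool.Agent.TPC

open FirstOrder.Language Set
open scoped FirstOrder
open Pool.Agent.WOM (tp Mon IsEl IsoM CtU Fx Orb Isd)
open Pool.Agent.PMC (Sm Md NPf fx_refl fx_symm fx_comp fx_mono comp_apply' def_mono def_compl
  def_inter def_of_fix conj_of_def)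
open Pool.Agent.MNO

section

variable {L : FirstOrder.Language.{0, 0}} {U : Type} [L.Structure U]

theorem FEQ_of_fe {A : Set U} {E : (Fin 1 → U) → (Fin 1 → U) → Prop} (hE : FE L A E) :
    FE1 L A (fun x y => E (fun _ => x) (fun _ => y)) := by
  have h0 : ∀ a : Fin 1 → U, (fun _ : Fin 1 => a 0) = a := by
    intro a
    funext i
    rw [Subsingleton.elim i 0]
  have h : (fun a b : Fin 1 → U => E (fun _ => a 0) (fun _ => b 0)) = E := by
    funext a b
    rw [h0, h0]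
  unfold FE1
  rw [h]
  exact hE

theorem FEQ_eqv {A : Set U} {F : U → U → Prop} (hF : FE1 L A F) : Equivalence F :=
  ⟨fun x => hF.eqv.refl (fun _ => x),
    fun {x y} h => hF.eqv.symm (x := fun _ => x) (y := fun _ => y) h,
    fun {x y z} h h' => hF.eqv.trans (x := fun _ => x) (y := fun _ => y) (z := fun _ => z) h h'⟩

theorem FEQ_top (A : Set U) : FE1 L A (fun _ _ : U => True) := fe_top A

theorem FEQ_and {A : Set U} {F F' : U → U → Prop} (hF : FE1 L A F) (hF' : FE1 L A F') :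
    FE1 L A (fun x y => F x y ∧ F' x y) := fe_inter hF hF'

theorem FEQ_mono {A B : Set U} (hAB : A ⊆ B) {F : U → U → Prop} (hF : FE1 L A F) : FE1 L B F :=
  fe_mono hAB hF

theorem FEQ_def {A : Set U} {F : U → U → Prop} (hF : FE1 L A F) (x : U) :
    (insert x A).Definable₁ L {y | F x y} := by
  have h1 : Dp L A (fun v : Unit ⊕ Unit → U => F (v (Sum.inr ())) (v (Sum.inl ()))) :=
    dp_sub hF.dfn (Sum.elim (fun _ => Sum.inr ()) (fun _ => Sum.inl ()))
  exact def1_of_dp1 (dp_par1 (dp_mono (subset_insert x A) h1) (mem_insert x A))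

theorem FEQ_inv {A : Set U} {F : U → U → Prop} (hF : FE1 L A F) {g : U ≃[L] U} (hg : Fx L A g)
    (x y : U) : F (g x) (g y) ↔ F x y :=
  dp_fx hF.dfn hg (Sum.elim (fun _ => x) (fun _ => y))

theorem FEQ_nx {A : Set U} {F : U → U → Prop} (hF : FE1 L A F) {g : U ≃[L] U} (hg : Nx L A g)
    (x : U) : F x (g x) := hg.2 1 (fun _ => x) _ hF

theorem FEQ_conj (hM : Mon L U) {A : Set U} (hA : A.Finite) {x y : U}
    (h : ∀ F : U → U → Prop, FE1 L A F → F x y) : ∃ g : U ≃[L] U, Nx L A g ∧ g x = y := by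
  obtain ⟨g, hg, hg'⟩ := nx_of_sq hM hA (x := fun _ : Fin 1 => x) (y := fun _ => y)
    (fun E hE => h _ (FEQ_of_fe hE))
  exact ⟨g, hg, hg' 0⟩

/-- a finite family of finite equivalence relations -/
theorem FEQ_inf {A : Set U} {ι : Type} {s : Set ι} (hs : s.Finite) {e : ι → U → U → Prop}
    (he : ∀ i, FE1 L A (e i)) : ∃ F, FE1 L A F ∧ ∀ i ∈ s, ∀ x y, F x y → e i x y := by
  induction s, hs using Set.Finite.induction_on with
  | empty => exact ⟨_, FEQ_top A, fun i h => absurd h (notMem_empty _)⟩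
  | @insert a t _ _ ih =>
    obtain ⟨F, hF, hF'⟩ := ih
    refine ⟨_, FEQ_and (he a) hF, ?_⟩
    rintro i (rfl | hi) x y hxy
    · exact hxy.1
    · exact hF' i hi x y hxy.2

/-- representatives in a given set -/
theorem FEQ_max {A M : Set U} {F : U → U → Prop} (hF : FE1 L A F) :
    ∃ t : Set U, t.Finite ∧ t ⊆ M ∧ ∀ y ∈ M, ∃ z ∈ t, F z y := by
  obtain ⟨s, hs, hs'⟩ := hF.fin
  have hE := FEQ_eqv hF
  have h1 : ∀ z : Fin 1 → U, ∃ y : U, (∃ y ∈ M, F (z 0) y) → (y ∈ M ∧ F (z 0) y) := by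
    intro z
    by_cases hz : ∃ y ∈ M, F (z 0) y
    · obtain ⟨y, hy, hy'⟩ := hz
      exact ⟨y, fun _ => ⟨hy, hy'⟩⟩
    · exact ⟨z 0, fun h' => absurd h' hz⟩
  choose f hf using h1
  refine ⟨f '' {z | z ∈ s ∧ ∃ y ∈ M, F (z 0) y}, (hs.subset (fun z hz => hz.1)).image f, ?_, ?_⟩
  · rintro _ ⟨z, ⟨hz, hz'⟩, rfl⟩
    exact (hf z hz').1
  · intro y hy
    obtain ⟨z, hz, hyz⟩ := hs' (fun _ => y)
    have hzy : F (z 0) y := hE.symm hyz
    refine ⟨f z, ⟨z, ⟨hz, y, hy, hzy⟩, rfl⟩, ?_⟩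
    exact hE.trans (hE.symm (hf z ⟨y, hy, hzy⟩).2) hzy

theorem FEQ_compl {A M : Set U} (hAM : A ⊆ M) {F : U → U → Prop} (hF : FE1 L A F)
    {t : Set U} (ht : t.Finite) (htM : t ⊆ M) : M.Definable₁ L {x | ∀ y ∈ t, ¬ F y x} := by
  have h1 : Dp L M (fun v : Unit → U => ∀ y ∈ t, ¬ F y (v ())) := by
    refine dp_ball ht fun y hy => dp_not ?_
    have h2 : M.Definable₁ L {x | F y x} := def_mono (insert_subset (htM hy) hAM) (FEQ_def hF y)
    exact dp_of_def1 h2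
  exact def1_of_dp1 h1

theorem FEQ_meets {A M : Set U} (hMd : Md L A M) {F : U → U → Prop} (hF : FE1 L A F)
    (x : U) : ∃ y ∈ M, F x y := by
  obtain ⟨t, ht, htM, htE⟩ := FEQ_max (M := M) hF
  have hdef : M.Definable₁ L {x | ∀ y ∈ t, ¬ F y x} := FEQ_compl hMd.2 hF ht htM
  by_contra hcon
  push Not at hcon
  have hx : x ∈ {x | ∀ y ∈ t, ¬ F y x} := by
    intro y hy hyx
    exact hcon y (htM hy) ((FEQ_eqv hF).symm hyx)
  obtain ⟨y, hy, hyM⟩ := hMd.1 _ hdef ⟨x, hx⟩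
  obtain ⟨z, hz, hzy⟩ := htE y hyM
  exact hy z hz hzy

/-- a definable set which contains `y` contains its orbit -/
theorem FEQ_orb {C s : Set U} (hs : C.Definable₁ L s) {y v : U} (hy : y ∈ s) (hv : v ∈ Orb L C y) :
    v ∈ s := by
  obtain ⟨g, hg, rfl⟩ := hv
  have h1 : Dp L C (fun w : Unit → U => w () ∈ s) := dp_of_def1 hs
  exact (dp_fx h1 hg (fun _ => y)).2 hy

theorem FEQ_near (hM : Mon L U) {A C : Set U} (hA : A.Finite) (hC : C.Finite) (hAC : A ⊆ C)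
    {y w : U} (h : ∀ F : U → U → Prop, FE1 L A F → ∃ v ∈ Orb L C y, F w v) :
    ∃ v ∈ Orb L C y, ∃ g : U ≃[L] U, Nx L A g ∧ g w = v := by
  have hF : ∀ s ∈ ({s : Set U | C.Definable₁ L s ∧ y ∈ s} ∪
      {s : Set U | ∃ F, FE1 L A F ∧ s = {v | F w v}}), (insert w C).Definable₁ L s := by
    rintro s (⟨hs, -⟩ | ⟨F, hF, rfl⟩)
    · exact def_mono (subset_insert w C) hs
    · exact def_mono (insert_subset_insert hAC) (FEQ_def hF w)
  obtain ⟨v, hv⟩ := hM.sat (insert w C) (hC.insert w) _ hF (by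
    intro G hG hfin
    have h1 : ∀ s : Set U, ∃ F, FE1 L A F ∧
        ((∃ F, FE1 L A F ∧ s = {v | F w v}) → s = {v | F w v}) := by
      intro s
      by_cases hs : ∃ F, FE1 L A F ∧ s = {v | F w v}
      · obtain ⟨F, hF, e⟩ := hs
        exact ⟨F, hF, fun _ => e⟩
      · exact ⟨_, FEQ_top A, fun h' => absurd h' hs⟩
    choose e he he' using h1
    obtain ⟨F0, hF0, hF0'⟩ := FEQ_inf hfin he
    obtain ⟨v, hv, hwv⟩ := h F0 hF0
    refine ⟨v, fun s hs => ?_⟩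
    rcases hG hs with ⟨h1, h2⟩ | h1
    · exact FEQ_orb h1 h2 hv
    · rw [he' s h1]
      exact hF0' s hs w v hwv)
  refine ⟨v, ?_, FEQ_conj hM hA fun F hF => ?_⟩
  · exact conj_of_def hM hC fun s hs hy => hv s (Or.inl ⟨hs, hy⟩)
  · exact hv _ (Or.inr ⟨F, hF, rfl⟩)

theorem FEQ_union (hM : Mon L U) {A C Y : Set U} (hA : A.Finite) {F : U → U → Prop}
    (hF : FE1 L A F) (hC : C.Finite) (hAC : A ⊆ C)
    (hY : ∀ g : U ≃[L] U, Fx L C g → ∀ y ∈ Y, g y ∈ Y) :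
    C.Definable₁ L {w | ∃ y ∈ Y, F w y} := by
  obtain ⟨t, ht, -, htE⟩ := FEQ_max (M := univ) hF
  have hE := FEQ_eqv hF
  have h1 : {w | ∃ y ∈ Y, F w y} = {w | ∃ z ∈ {z ∈ t | ∃ y ∈ Y, F z y}, F z w} := by
    ext w
    constructor
    · rintro ⟨y, hy, hwy⟩
      obtain ⟨z, hz, hzw⟩ := htE w (mem_univ w)
      exact ⟨z, ⟨hz, y, hy, hE.trans hzw hwy⟩, hzw⟩
    · rintro ⟨z, ⟨-, y, hy, hzy⟩, hzw⟩
      exact ⟨y, hy, hE.trans (hE.symm hzw) hzy⟩
  have h2 : Dp L (t ∪ A) (fun v : Unit → U => ∃ z ∈ {z ∈ t | ∃ y ∈ Y, F z y}, F z (v ())) := by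
    refine dp_bex (ht.subset fun z hz => hz.1) fun z hz => ?_
    have hz' : z ∈ t ∪ A := Or.inl hz.1
    have h3 : (t ∪ A).Definable₁ L {x | F z x} :=
      def_mono (insert_subset hz' subset_union_right) (FEQ_def hF z)
    exact dp_of_def1 h3
  have h3 : (t ∪ A).Definable₁ L {w | ∃ y ∈ Y, F w y} := by
    rw [h1]
    exact def1_of_dp1 h2
  refine def_of_fix hM hC (ht.union hA) h3 ?_
  rintro g hg w ⟨y, hy, hwy⟩
  exact ⟨g y, hY g hg y hy, (FEQ_inv hF (fx_mono hAC hg) w y).2 hwy⟩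

end

theorem thm_FEQ : St_FEQ := by
  intro L U _ hM A hA
  refine ⟨FEQ_top A, fun F F' h h' => FEQ_and h h', fun F hF g hg x => FEQ_nx hF hg x,
    fun x y h => FEQ_conj hM hA h, fun F hF x => FEQ_def hF x,
    fun F hF g hg x y => FEQ_inv hF hg x y, fun F hF M hMd x => FEQ_meets hMd hF x,
    fun C y w hC hAC h => FEQ_near hM hA hC hAC h,
    fun F C Y hF hC hAC hY => FEQ_union hM hA hF hC hAC hY⟩

end Pool.Agent.TPC
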