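import Pool.Agent.TPC.FEQ

/-!
TPC, module NEA (helper68): near points are conjugate by automorphisms which preserve given classes.
-/

set_option autoImplicit false
set_option linter.unusedVariables false
set_option linter.unusedSectionVars false

namespace Pool.Agent.TPC

open FirstOrder.Language Set
open scoped FirstOrder
open Pool.Agent.WOM (tp Mon IsEl IsoM CtU Fx Orb Isd)
open Pool.Agent.PMC (Sm Md NPf fx_refl fx_symm fx_comp fx_mono comp_apply' def_mono def_compl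
  def_inter def_of_fix conj_of_def)
open Pool.Agent.MNO

section

variable {L : FirstOrder.Language.{0, 0}} {U : Type} [L.Structure U]

/-- an automorphism over `A` which preserves the classes of the representatives preserves all classes -/
theorem NEA_rep {A : Set U} {F : U → U → Prop} (hF : FE1 L A F) {t : Set U}
    (ht : ∀ u, ∃ z ∈ t, F z u) {g : U ≃[L] U} (hg : Fx L A g) (h : ∀ z ∈ t, F z (g z)) (u : U) :
    F u (g u) := by
  have hE := FEQ_eqv hF
  obtain ⟨z, hz, hzu⟩ := ht u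
  exact hE.trans (hE.symm hzu) (hE.trans (h z hz) ((FEQ_inv hF hg z u).2 hzu))

/-- automorphisms over `A` which map the representatives to the same classes -/
theorem NEA_two {A : Set U} {F : U → U → Prop} (hF : FE1 L A F) {t : Set U}
    (ht : ∀ u, ∃ z ∈ t, F z u) {c : t → t} {g h : U ≃[L] U} (hg : Fx L A g) (hh : Fx L A h)
    (hgc : ∀ i : t, F (g i) (c i)) (hhc : ∀ i : t, F (h i) (c i)) (u : U) :
    F u (h (g.symm u)) := by
  have hE := FEQ_eqv hF
  obtain ⟨z, hz, hzu⟩ := ht (g.symm u)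
  have h1 : F (g z) u := by
    have h2 := (FEQ_inv hF hg z (g.symm u)).2 hzu
    rwa [g.apply_symm_apply] at h2
  have h3 : F (h z) (h (g.symm u)) := (FEQ_inv hF hh z (g.symm u)).2 hzu
  have h4 : F (g z) (h z) := hE.trans (hgc ⟨z, hz⟩) (hE.symm (hhc ⟨z, hz⟩))
  exact hE.trans (hE.symm h1) (hE.trans h4 h3)

theorem NEA_core (hM : Mon L U) {A : Set U} {x : U} {F : U → U → Prop} (hA : A.Finite)
    (hF : FE1 L A F) : ∃ F' : U → U → Prop, FE1 L A F' ∧ ∀ w ∈ Orb L A x, F' x w →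
      ∃ g : U ≃[L] U, Fx L A g ∧ (∀ u, F u (g u)) ∧ g x = w := by
  obtain ⟨t, ht, -, htE⟩ := FEQ_max (M := univ) hF
  have htE' : ∀ u, ∃ z ∈ t, F z u := fun u => htE u (mem_univ u)
  have hE := FEQ_eqv hF
  have _ : Finite t := ht.to_subtype
  by_contra hcon
  push Not at hcon
  -- the classes of the images of the representatives
  have h1 : ∃ c : t → t, ∀ F' : U → U → Prop, FE1 L A F' → ∃ w, F' x w ∧
      (∀ g : U ≃[L] U, Fx L A g → (∀ u, F u (g u)) → g x ≠ w) ∧
      ∃ h : U ≃[L] U, Fx L A h ∧ h x = w ∧ ∀ i : t, F (h i) (c i) := by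
    by_contra hc
    push Not at hc
    choose e he he' using hc
    obtain ⟨F0, hF0, hF0'⟩ := FEQ_inf (ι := t → t) (s := univ) finite_univ he
    obtain ⟨w, ⟨h, hh, hw⟩, hxw, hG⟩ := hcon F0 hF0
    have h2 : ∀ i : t, ∃ z : t, F (h i) z := by
      intro i
      obtain ⟨z, hz, hzu⟩ := htE' (h i)
      exact ⟨⟨z, hz⟩, hE.symm hzu⟩
    choose c hc using h2
    obtain ⟨i, hi⟩ := he' c w (hF0' c (mem_univ c) x w hxw) hG h hh hw
    exact hi (hc i)
  obtain ⟨c, hc⟩ := h1
  obtain ⟨w0, -, hG0, h0, hh0, hw0, hc0⟩ := hc _ (FEQ_top A)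
  have hB : (insert x (A ∪ t)).Finite := (hA.union ht).insert x
  obtain ⟨v, hv⟩ := dp_sat (α := Unit ⊕ t) hM hB (F :=
    {Q | ∃ F' : U → U → Prop, FE1 L A F' ∧ Q = fun v : Unit ⊕ t → U => F' x (v (Sum.inl ()))} ∪
    ({Q | Dp L A Q ∧ Q (Sum.elim (fun _ => w0) (fun i => (i : U)))} ∪
    {Q | ∃ i : t, Q = fun v : Unit ⊕ t → U => F i (v (Sum.inr i))})) (by
      rintro Q (⟨F', hF', rfl⟩ | ⟨hQ, -⟩ | ⟨i, rfl⟩)
      · have h2 : (insert x (A ∪ t)).Definable₁ L {y | F' x y} :=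
          def_mono (insert_subset_insert subset_union_left) (FEQ_def hF' x)
        exact dp_of_def1 h2
      · exact dp_mono (fun a ha => Or.inr (Or.inl ha)) hQ
      · have hi : (i : U) ∈ insert x (A ∪ t) := Or.inr (Or.inr i.2)
        have h3 : A ⊆ insert x (A ∪ t) := fun a ha => Or.inr (Or.inl ha)
        have h2 : (insert x (A ∪ t)).Definable₁ L {y | F i y} :=
          def_mono (insert_subset hi h3) (FEQ_def hF i)
        exact dp_of_def1 h2) (by
      intro G hG hfin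
      have h1 : ∀ Q : (Unit ⊕ t → U) → Prop, ∃ F', FE1 L A F' ∧
          ((∃ F', FE1 L A F' ∧ Q = fun v : Unit ⊕ t → U => F' x (v (Sum.inl ()))) →
            Q = fun v : Unit ⊕ t → U => F' x (v (Sum.inl ()))) := by
        intro Q
        by_cases hQ : ∃ F', FE1 L A F' ∧ Q = fun v : Unit ⊕ t → U => F' x (v (Sum.inl ()))
        · obtain ⟨F', hF', e⟩ := hQ
          exact ⟨F', hF', fun _ => e⟩
        · exact ⟨_, FEQ_top A, fun h' => absurd h' hQ⟩
      choose e he he' using h1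
      obtain ⟨F0, hF0, hF0'⟩ := FEQ_inf hfin he
      obtain ⟨w, hxw, -, h, hh, hw, hcw⟩ := hc F0 hF0
      have hk : Fx L A (h.comp h0.symm) := fx_comp hh (fx_symm hh0)
      have hkF : ∀ u, F u ((h.comp h0.symm) u) := fun u => NEA_two hF htE' hh0 hh hc0 hcw u
      have hkw : (h.comp h0.symm) w0 = w := by
        rw [comp_apply', ← hw0, h0.symm_apply_apply, hw]
      refine ⟨fun i => (h.comp h0.symm) (Sum.elim (fun _ => w0) (fun i : t => (i : U)) i),
        fun Q hQ => ?_⟩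
      rcases hG hQ with h2 | ⟨h2, h3⟩ | ⟨i, rfl⟩
      · rw [he' Q h2]
        show e Q x ((h.comp h0.symm) w0)
        rw [hkw]
        exact hF0' Q hQ x w hxw
      · exact (dp_fx h2 hk _).2 h3
      · exact hkF i)
  obtain ⟨g, hg, hgv⟩ := dp_hom hM hA (a := Sum.elim (fun _ : Unit => w0) (fun i : t => (i : U)))
    (b := v) (fun P hP hPa => hv P (Or.inr (Or.inl ⟨hP, hPa⟩)))
  have hgF : ∀ u, F u (g u) := NEA_rep hF htE' hg (fun z hz => by
    have h2 := hv _ (Or.inr (Or.inr ⟨⟨z, hz⟩, rfl⟩))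
    have h3 : g z = v (Sum.inr ⟨z, hz⟩) := hgv (Sum.inr ⟨z, hz⟩)
    rw [h3]
    exact h2)
  obtain ⟨k, hk, hkx⟩ := FEQ_conj hM hA (x := x) (y := v (Sum.inl ()))
    (fun F' hF' => hv _ (Or.inl ⟨F', hF', rfl⟩))
  have hgw : g w0 = v (Sum.inl ()) := hgv (Sum.inl ())
  refine hG0 (g.symm.comp k) (fx_comp (fx_symm hg) hk.1) (fun u => ?_) ?_
  · show F u (g.symm (k u))
    have h2 : F u (k u) := FEQ_nx hF hk u
    have h3 := hgF (g.symm (k u))
    rw [g.apply_symm_apply] at h3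
    exact hE.trans h2 (hE.symm h3)
  · show g.symm (k x) = w0
    rw [hkx, ← hgw, g.symm_apply_apply]

end

theorem thm_NEA : St_NEA := by
  intro _ L U _ hM A x F hA hF
  obtain ⟨F', hF', h⟩ := NEA_core (x := x) hM hA hF
  refine ⟨F', hF', ?_⟩
  rintro y ⟨k, hk, rfl⟩ w ⟨l, hl, rfl⟩ hyw
  have h1 : F' x (k.symm (l x)) := by
    have h2 := (FEQ_inv hF' (fx_symm hk) (k x) (l x)).2 hyw
    rwa [k.symm_apply_apply] at h2
  obtain ⟨g, hg, hgF, hgx⟩ := h (k.symm (l x)) ⟨k.symm.comp l, fx_comp (fx_symm hk) hl, rfl⟩ h1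
  refine ⟨k.comp (g.comp k.symm), fx_comp hk (fx_comp hg (fx_symm hk)), fun u => ?_, ?_⟩
  · show F u (k (g (k.symm u)))
    have h2 := (FEQ_inv hF hk _ _).2 (hgF (k.symm u))
    rwa [k.apply_symm_apply] at h2
  · show k (g (k.symm (k x))) = l x
    rw [k.symm_apply_apply, hgx, k.apply_symm_apply]

end Pool.Agent.TPC
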