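import Pool.Agent.TPC.FEQ

/-!
TPC, module SEQ (helper68): a decreasing sequence of finite equivalence relations.
-/

set_option autoImplicit false
set_option linter.unusedVariables false
set_option linter.unusedSectionVars false

namespace Pool.Agent.TPC

open FirstOrder.Language Set
open scoped FirstOrder
open Pool.Agent.WOM (tp Mon IsEl IsoM CtU Fx Orb Isd)
open Pool.Agent.PMC (Sm Md NPf)
open Pool.Agent.MNO

theorem thm_SEQ : St_SEQ := by
  intro _ L U _ hM A hA
  have hU : Countable U := hM.ctb
  have hi : Infinite U := hM.inf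
  have h1 : ∀ p : U × U, ∃ F : U → U → Prop, FE1 L A F ∧
      ((¬ ∃ g : U ≃[L] U, Nx L A g ∧ g p.1 = p.2) → ¬ F p.1 p.2) := by
    intro p
    by_cases hp : ∃ g : U ≃[L] U, Nx L A g ∧ g p.1 = p.2
    · exact ⟨_, FEQ_top A, fun h => absurd hp h⟩
    · by_contra hcon
      push Not at hcon
      exact hp (FEQ_conj hM hA (fun F hF => (hcon F hF).2))
  choose F hF hF' using h1
  obtain ⟨e, he⟩ := exists_surjective_nat (U × U)
  refine ⟨fun n u v => ∀ m < n, F (e m) u v, ?_, ?_, ?_⟩
  · intro n
    induction n with
    | zero =>
      have h2 : (fun u v : U => ∀ m < 0, F (e m) u v) = fun _ _ => True := by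
        funext u v
        simp
      rw [h2]
      exact FEQ_top A
    | succ n ih =>
      have h2 : (fun u v : U => ∀ m < n + 1, F (e m) u v) =
          fun u v => F (e n) u v ∧ ∀ m < n, F (e m) u v := by
        funext u v
        apply propext
        constructor
        · intro h
          exact ⟨h n (Nat.lt_succ_self n), fun m hm => h m (Nat.lt_succ_of_lt hm)⟩
        · rintro ⟨h, h'⟩ m hm
          rcases Nat.lt_succ_iff_lt_or_eq.1 hm with hm | rfl
          · exact h' m hm
          · exact h
      rw [h2]
      exact FEQ_and (hF (e n)) ih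
  · intro n u v h m hm
    exact h m (Nat.lt_succ_of_lt hm)
  · intro u v h
    by_contra hcon
    obtain ⟨m, hm⟩ := he (u, v)
    have h3 := hF' (u, v) hcon
    apply h3
    have h4 := h (m + 1) m (Nat.lt_succ_self m)
    rw [hm] at h4
    exact h4

end Pool.Agent.TPC
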