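import Pool.Agent.TPC.StE
import Pool.Agent.TPC.ALQ
import Pool.Agent.TPC.IMQ
import Pool.Agent.TPC.GLQ
import Pool.Agent.TPC.SMQ
import Pool.Agent.TPC.OFQ
import Pool.Agent.TPC.BND
import Pool.Agent.TPC.FEQ
import Pool.Agent.TPC.SEQ
import Pool.Agent.TPC.NEA
import Pool.Agent.TPC.CLQ

/-!
TPC: [NRQ] only finitely many pieces are not rigid.
-/

set_option autoImplicit false
set_option linter.unusedVariables false

namespace Pool.Agent.TPC

open FirstOrder.Language Set
open scoped FirstOrder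
open Pool.Agent.WOM (tp Mon IsEl IsoM CtU Fx Orb Isd)
open Pool.Agent.PMC (Sm Md NPf)
open Pool.Agent.MNO (Dp FE Sq Nx SmN FE1 FinN)

variable {L : FirstOrder.Language.{0, 0}} {U : Type} [L.Structure U]

private theorem nrq_mem (A : Set U) (x : U) : x ∈ Pq L A x := fun _ _ => Iff.rfl

private theorem nrq_eq {A : Set U} {x y : U} (h : y ∈ Pq L A x) : Pq L A y = Pq L A x := by
  ext v
  constructor
  · intro hv Q hQ
    exact (h Q hQ).trans (hv Q hQ)
  · intro hv Q hQ
    exact (h Q hQ).symm.trans (hv Q hQ)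

private theorem nrq_symm {A : Set U} {g : U ≃[L] U} (h : Fx L A g) : Fx L A g.symm := by
  intro a ha
  have h1 : g.symm (g a) = a := g.symm_apply_apply a
  rwa [h a ha] at h1

private theorem nrq_comp {A : Set U} {g h : U ≃[L] U} (hg : Fx L A g) (hh : Fx L A h) :
    Fx L A (g.comp h) := by
  intro a ha
  show g (h a) = a
  rw [hh a ha, hg a ha]

/-- `Sm` restricts to invariant sets -/
private theorem nrq_cap {A X Y Q : Set U} (hQ : ∀ g : U ≃[L] U, Fx L A g → ∀ x, g x ∈ Q ↔ x ∈ Q)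
    (h : Sm L A X Y) : Sm L A (X ∩ Q) (Y ∩ Q) := by
  obtain ⟨e, he⟩ := h
  have hx : ∀ x : X, (e x : U) ∈ Q ↔ (x : U) ∈ Q := by
    intro x
    obtain ⟨g, hg, h1⟩ := he {x} (finite_singleton x)
    rw [← h1 x rfl]
    exact hQ g hg x
  refine ⟨{ toFun := fun x => ⟨e ⟨x.1, x.2.1⟩, (e ⟨x.1, x.2.1⟩).2, (hx _).2 x.2.2⟩
            invFun := fun y => ⟨e.symm ⟨y.1, y.2.1⟩, (e.symm ⟨y.1, y.2.1⟩).2, by
              rw [← hx, e.apply_symm_apply]
              exact y.2.2⟩
            left_inv := fun x => by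
              apply Subtype.ext
              simp
            right_inv := fun y => by
              apply Subtype.ext
              simp }, ?_⟩
  intro s hs
  obtain ⟨g, hg, h1⟩ := he ((fun x : ↥(X ∩ Q) => (⟨x.1, x.2.1⟩ : X)) '' s) (hs.image _)
  exact ⟨g, hg, fun x hxs => h1 ⟨x.1, x.2.1⟩ ⟨x, hxs, rfl⟩⟩

/-- [NRQ] -/
theorem thm_NRQ (hCJP : St_CJP) (hLF2 : St_LF2) (hUNQ : St_UNQ) (hFCP : St_FCP) (hHQS : St_HQS)
    (hPMD : St_PMD) (hSEP : St_SEP) : St_NRQ := by
  classical
  intro L U _ hM hN hFin A hA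
  have hfcp : Fcp L A := hFCP hHQS hPMD hSEP thm_CLQ thm_SEQ thm_NEA thm_FEQ thm_ALQ thm_IMQ
    thm_OFQ thm_BND L U hM hN A hA
  have hI := (thm_IMQ L U hM A hA).2.2
  by_contra hinf
  have hinf' : {Q : Set U | ∃ z, Q = Pq L A z ∧ ∃ M, Md L A M ∧
    ¬ SmN L A (M ∩ Q) Q}.Infinite := hinf
  -- finitely many conjugates
  have hcj : ∀ Q ∈ {Q : Set U | ∃ z, Q = Pq L A z ∧ ∃ M, Md L A M ∧ ¬ SmN L A (M ∩ Q) Q},
      {Q' : Set U | ∃ g : U ≃[L] U, Fx L A g ∧ Q' = g '' Q}.Finite := by
    rintro Q ⟨z, rfl, -⟩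
    refine (hfcp z).subset ?_
    rintro Q' ⟨g, hg, rfl⟩
    exact ⟨g z, ⟨g, hg, rfl⟩, hI g hg z⟩
  obtain ⟨q, hq, hqr⟩ := exists_seq_of_forall_finset_exists
    (fun Q : Set U => Q ∈ {Q : Set U | ∃ z, Q = Pq L A z ∧ ∃ M, Md L A M ∧
      ¬ SmN L A (M ∩ Q) Q})
    (fun Q Q' : Set U => ¬ ∃ g : U ≃[L] U, Fx L A g ∧ Q' = g '' Q) (by
      intro s hs
      have h1 : (⋃ Q ∈ s, {Q' : Set U | ∃ g : U ≃[L] U, Fx L A g ∧ Q' = g '' Q}).Finite :=
        s.finite_toSet.biUnion fun Q hQ => hcj Q (hs Q hQ)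
      obtain ⟨Q', hQ', hn⟩ := (hinf'.sdiff h1).nonempty
      refine ⟨Q', hQ', fun Q hQ hg => hn ?_⟩
      exact mem_iUnion₂.2 ⟨Q, hQ, hg⟩)
  choose z hz M hM' hS using hq
  have hncj : ∀ n m, n ≠ m → ∀ g : U ≃[L] U, Fx L A g → q m ≠ g '' q n := by
    intro n m hnm g hg he
    rcases lt_or_gt_of_ne hnm with h | h
    · exact hqr n m h ⟨g, hg, he⟩
    · refine hqr m n h ⟨g.symm, nrq_symm hg, ?_⟩
      rw [he, ← image_comp]
      ext v
      simp
  have huniq : ∀ n m y, y ∈ q n → y ∈ q m → n = m := by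
    intro n m y hn hm
    by_contra hnm
    rw [hz n] at hn
    rw [hz m] at hm
    refine hncj n m hnm (FirstOrder.Language.Equiv.refl L U) (fun _ _ => rfl) ?_
    rw [hz n, hz m, ← nrq_eq hn, ← nrq_eq hm]
    ext v
    simp
  -- an automorphism over `A` maps no piece `q n` onto a point of another one
  have hmove : ∀ n m (g : U ≃[L] U) (v : U), Fx L A g → v ∈ q n → g v ∈ q m → n = m := by
    intro n m g v hg hv hgv
    by_contra hnm
    refine hncj n m hnm g hg ?_
    rw [hz n] at hv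
    rw [hz m] at hgv
    rw [hz n, hz m, ← nrq_eq hv, hI g hg v, nrq_eq hgv]
  let mm : (ℕ → Bool) → U → Set U := fun f y => {v | ∀ n, f n = true → y ∈ q n → v ∈ M n}
  have hmm : ∀ f y, Md L A (mm f y) := by
    intro f y
    by_cases h : ∃ n, f n = true ∧ y ∈ q n
    · obtain ⟨n, h3, h4⟩ := h
      have : mm f y = M n := by
        ext v
        constructor
        · intro hv
          exact hv n h3 h4
        · intro hv m _ h6
          rw [huniq m n y h6 h4]
          exact hv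
      rw [this]
      exact hM' n
    · have : mm f y = univ := by
        ext v
        refine ⟨fun _ => mem_univ v, fun _ n h3 h4 => absurd ⟨n, h3, h4⟩ h⟩
      rw [this]
      refine ⟨fun s _ hs => ?_, subset_univ A⟩
      rw [inter_univ]
      exact hs
  have hcst : ∀ f x, ∀ y ∈ Pq L A x, mm f y = mm f x := by
    intro f x y hy
    have h3 : ∀ n, y ∈ q n ↔ x ∈ q n := by
      intro n
      rw [hz n]
      have h5 : Bq L A (Pq L A (z n)) :=
        ((thm_ALQ thm_OFQ thm_BND L U hM A hA).2.2.2.2.1 (z n)).1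
      exact (hy _ h5).symm
    ext v
    exact forall_congr' fun n => imp_congr Iff.rfl (imp_congr (h3 n) Iff.rfl)
  obtain ⟨f, f', hff, hSm⟩ := hN A (fun f => {y | y ∈ mm f y}) hA
    (fun f => hUNQ hSEP thm_CLQ thm_SEQ thm_NEA thm_FEQ thm_ALQ thm_IMQ thm_OFQ thm_BND L U hM A
      hA hfcp (mm f) (hmm f) (hcst f)) (by
      intro v
      by_cases h : ∃ n, v ∈ q n
      · obtain ⟨n, hn⟩ := h
        have h3 : {f : ℕ → Bool | v ∈ {y | y ∈ mm f y}} =
            (fun f : ℕ → Bool => f n) ⁻¹' {c | c = true → v ∈ M n} := by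
          ext f
          constructor
          · intro h4 h5
            exact h4 n h5 hn
          · intro h4 m h5 h6
            have h7 := huniq m n v h6 hn
            subst h7
            exact h4 h5
        show IsClopen {f : ℕ → Bool | v ∈ {y | y ∈ mm f y}}
        rw [h3]
        exact (isClopen_discrete _).preimage (continuous_apply n)
      · have h3 : {f : ℕ → Bool | v ∈ {y | y ∈ mm f y}} = univ := by
          ext f
          exact ⟨fun _ => mem_univ f, fun _ n _ h5 => absurd ⟨n, h5⟩ h⟩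
        show IsClopen {f : ℕ → Bool | v ∈ {y | y ∈ mm f y}}
        rw [h3]
        exact isClopen_univ)
  obtain ⟨n, hn⟩ : ∃ n, f n ≠ f' n := by
    by_contra h
    push Not at h
    exact hff (funext h)
  -- the contradiction for `f n = true`, `f' n = false`
  have key : ∀ f f' : ℕ → Bool, f n = true → f' n = false →
      Sm L A {y | y ∈ mm f y} {y | y ∈ mm f' y} → False := by
    intro f f' hf hf' h
    have h1 := nrq_cap (Q := {v | ∃ g : U ≃[L] U, Fx L A g ∧ g v ∈ Pq L A (z n)}) (by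
      intro g hg x
      constructor
      · rintro ⟨k, hk, h2⟩
        exact ⟨k.comp g, nrq_comp hk hg, h2⟩
      · rintro ⟨k, hk, h2⟩
        refine ⟨k.comp g.symm, nrq_comp hk (nrq_symm hg), ?_⟩
        show k (g.symm (g x)) ∈ Pq L A (z n)
        rw [g.symm_apply_apply]
        exact h2) h
    have h2 : {y | y ∈ mm f' y} ∩ {v | ∃ g : U ≃[L] U, Fx L A g ∧ g v ∈ Pq L A (z n)} =
        {v | ∃ g : U ≃[L] U, Fx L A g ∧ g v ∈ Pq L A (z n)} := by
      refine inter_eq_right.2 ?_
      rintro v ⟨g, hg, hgv⟩ m h5 h6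
      rw [← hz n] at hgv
      have h7 := hmove m n g v hg h6 hgv
      subst h7
      rw [hf'] at h5
      exact Bool.noConfusion h5
    rw [h2] at h1
    have h3 := hCJP L U hM A {y | y ∈ mm f y} (z n) hA hfcp (by
      intro g hg v hv hgv m h5 h6
      rw [← hz n] at hv hgv
      have h7 := hmove n m g v hg hv h6
      subst h7
      exact absurd h6 hgv) h1
    have h4 : {y | y ∈ mm f y} ∩ Pq L A (z n) = M n ∩ Pq L A (z n) := by
      ext y
      constructor
      · rintro ⟨h5, h6⟩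
        rw [← hz n] at h6
        exact ⟨h5 n hf h6, (hz n) ▸ h6⟩
      · rintro ⟨h5, h6⟩
        refine ⟨fun m _ h7 => ?_, h6⟩
        rw [← hz n] at h6
        rw [huniq m n y h7 h6]
        exact h5
    rw [h4] at h3
    have h5 := hLF2 L U hM hFin A (M n ∩ Pq L A (z n)) (z n) hA inter_subset_right h3
    have h6 := hS n
    rw [hz n] at h6
    exact h6 h5
  have hsym := ((thm_SMQ thm_GLQ thm_ALQ thm_OFQ thm_BND L U hM).2.2.2.2.2.2.2.2 A _ _ univ hSm).1
  rcases hfn : f n with _ | _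
  · have hfn' : f' n = true := by
      rcases h : f' n with _ | _
      · exact absurd (hfn.trans h.symm) hn
      · rfl
    exact key f' f hfn' hfn hsym
  · have hfn' : f' n = false := by
      rcases h : f' n with _ | _
      · rfl
      · exact absurd (hfn.trans h.symm) hn
    exact key f f' hfn hfn' hSm

end Pool.Agent.TPC
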