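import Pool.Agent.TPC.StE
import Pool.Agent.TPC.ALQ
import Pool.Agent.TPC.OFQ
import Pool.Agent.TPC.BND
import Pool.Agent.TPC.GLQ
import Pool.Agent.TPC.SMQ

/-!
TPC, modules PAR and CTG (helper47): countably many parts of a nice piece, the count.
-/

set_option autoImplicit false
set_option linter.unusedVariables false

namespace Pool.Agent.TPC

open FirstOrder.Language Set
open scoped FirstOrder
open Pool.Agent.WOM (tp Mon IsEl IsoM CtU Fx Orb Isd)
open Pool.Agent.PMC (Sm Md NPf)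
open Pool.Agent.MNO (Dp FE Sq Nx SmN FE1 FinN)

/-- [PAR] -/
theorem thm_PAR (hCPT : St_CPT) (hLXT : St_LXT) (hFCT : St_FCT) (hRIG : St_RIG)
    (hNRQ : St_NRQ) : St_PAR := by
  intro L U _ hM hN hF n
  induction n with
  | zero =>
    intro A x hA h
    obtain ⟨c1, c2, -, -⟩ := hCPT L U hM A (Pq L A x) hA
    obtain ⟨-, -, -, -, a5, -, -, -, -, -⟩ := thm_ALQ thm_OFQ thm_BND L U hM A hA
    rcases h with h | ⟨lt, h⟩ | ⟨E, cl, h, hE⟩
    · exact c2 x h
    · exact hLXT L U hM hN A _ lt h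
    · exact c1 E (hFCT L U hM hN A E cl h) hE (fun g hg y => (a5 x).1.inv g hg y)
  | succ n ih =>
    intro A x hA h
    rcases h with h | h
    · exact ih A x hA h
    obtain ⟨-, -, -, c4⟩ := hCPT L U hM A (Pq L A x) hA
    obtain ⟨-, -, -, -, a5, -, -, -, -, -⟩ := thm_ALQ thm_OFQ thm_BND L U hM A hA
    refine c4 fun y hy => ?_
    have hA' : (insert y A).Finite := hA.insert y
    obtain ⟨-, -, c3, -⟩ := hCPT L U hM (insert y A) (Pq L A x) hA'
    have hB : Bq L (insert y A) (Pq L A x) :=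
      (thm_OFQ thm_BND L U hM A (Pq L A x) hA (a5 x).1).2.2 _ hA' (subset_insert _ _)
    refine c3 hB (hNRQ L U hM hN hF _ hA') fun z hz => ?_
    rcases h y hy z hz with h1 | h1
    · exact Or.inl fun M hMd => hRIG L U hM hN hF A y z hA h1 M hMd
    · exact Or.inr (ih (insert y A) z hA' h1)

/-- [CTG] -/
theorem thm_CTG (hFNN : St_FNN) (hPAR : St_PAR) (hNRQ : St_NRQ) (hCPT : St_CPT) : St_CTG := by
  intro L U _ hM hN hH
  have hF := hFNN L U hM hN hH
  obtain ⟨-, -, c3, -⟩ := hCPT L U hM ∅ univ finite_empty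
  obtain ⟨a1, -, -, -, -, -, -, -, -, -⟩ := thm_ALQ thm_OFQ thm_BND L U hM ∅ finite_empty
  obtain ⟨c, hc, hc'⟩ := c3 a1.2 (hNRQ L U hM hN hF ∅ finite_empty) fun z _ => by
    obtain ⟨n, hn⟩ := hH.nic ∅ z finite_empty
    exact Or.inr (hPAR L U hM hN hF n ∅ z finite_empty hn)
  obtain ⟨-, -, -, -, -, -, s7, -⟩ := thm_SMQ thm_GLQ thm_ALQ thm_OFQ thm_BND L U hM
  refine ⟨c, fun M hMe => ?_⟩
  obtain ⟨n, hn⟩ := hc' M ⟨hMe, empty_subset M⟩
  rw [inter_univ, inter_univ] at hn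
  exact ⟨n, s7 M (c n) hn⟩

end Pool.Agent.TPC
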