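import Pool.Agent.TPC.StE
import Pool.Agent.TPC.BND
import Pool.Agent.TPC.OFQ
import Pool.Agent.TPC.ALQ
import Pool.Agent.TPC.NNQ
import Pool.Agent.TPC.IMQ
import Pool.Agent.TPC.FEQ
import Pool.Agent.TPC.SEQ
import Pool.Agent.TPC.NEA
import Pool.Agent.TPC.CLQ

/-!
TPC [RIG]: inner pieces are rigid (after `Pool/Agent/MNO/INN.lean`).
-/

set_option autoImplicit false
set_option linter.unusedVariables false

namespace Pool.Agent.TPC

open FirstOrder.Language Set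
open scoped FirstOrder
open Pool.Agent.WOM (tp Mon IsEl IsoM CtU Fx Orb Isd)
open Pool.Agent.PMC (Sm Md NPf fx_refl fx_symm fx_comp fx_mono def_img)
open Pool.Agent.MNO (Dp FE Sq Nx SmN FE1 FinN nx_mono nx_conj nx_fx)

section rig

variable {L : FirstOrder.Language.{0, 0}} {U : Type} [L.Structure U]

private theorem RIG_symm_img (g : U ≃[L] U) (X : Set U) : g.symm '' (g '' X) = X := by
  ext x
  constructor
  · rintro ⟨_, ⟨y, hy, rfl⟩, rfl⟩
    rw [g.symm_apply_apply]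
    exact hy
  · intro hx
    exact ⟨g x, ⟨x, hx, rfl⟩, g.symm_apply_apply x⟩

private theorem RIG_img (hM : Mon L U) {A X Y : Set U} (g : U ≃[L] U) (hS : SmN L A X Y) :
    SmN L (g '' A) (g '' X) (g '' Y) := by
  obtain ⟨e, he⟩ := hS
  refine ⟨((Equiv.image g.toEquiv X).symm.trans e).trans (Equiv.image g.toEquiv Y),
    fun s hs => ?_⟩
  obtain ⟨h, hh, h2⟩ := he ((Equiv.image g.toEquiv X).symm '' s) (hs.image _)
  refine ⟨g.comp (h.comp g.symm), nx_conj hM g hh, ?_⟩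
  intro x hx
  have h3 := h2 _ (mem_image_of_mem _ hx)
  have h4 : ((Equiv.image g.toEquiv X).symm x : U) = g.symm x := by
    obtain ⟨y, rfl⟩ := (Equiv.image g.toEquiv X).surjective x
    rw [Equiv.symm_apply_apply]
    show (y : U) = g.symm (g y)
    rw [g.symm_apply_apply]
  show g (h (g.symm x)) = g (e ((Equiv.image g.toEquiv X).symm x))
  rw [← h4, h3]

/-- fix one point -/
private theorem RIG_pt {A X Y : Set U} (hS : SmN L A X Y) {x : U} (hx : x ∈ X) :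
    ∃ g : U ≃[L] U, Fx L A g ∧ g x ∈ Y ∧ Sm L (insert x A) X (g.symm '' Y) := by
  obtain ⟨e, he⟩ := hS
  obtain ⟨g, hg, h2⟩ := he {⟨x, hx⟩} (finite_singleton _)
  have h3 : g x = e ⟨x, hx⟩ := h2 ⟨x, hx⟩ rfl
  refine ⟨g, nx_fx hg, by rw [h3]; exact (e ⟨x, hx⟩).2,
    e.trans (Equiv.image g.symm.toEquiv Y), fun s hs => ?_⟩
  obtain ⟨h, hh, h4⟩ := he (insert ⟨x, hx⟩ s) (hs.insert _)
  refine ⟨g.symm.comp h, ?_, ?_⟩
  · intro b hb
    rcases hb with rfl | hb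
    · show g.symm (h b) = b
      rw [h4 ⟨b, hx⟩ (mem_insert _ _), ← h3, g.symm_apply_apply]
    · exact fx_comp (fx_symm (nx_fx hg)) (nx_fx hh) b hb
  · intro v hv
    show g.symm (h v) = g.symm (e v)
    rw [h4 v (mem_insert_of_mem _ hv)]

private theorem RIG_el (hMon : Mon L U) {M : Set U} (hM : IsEl L M) (t : U ≃[L] U) :
    IsEl L (t '' M) := by
  intro s hs hne
  have h1 := def_img hMon t.symm hs
  rw [RIG_symm_img] at h1
  obtain ⟨z, ⟨y, hy, rfl⟩, hz2⟩ := hM _ h1 (hne.image _)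
  refine ⟨y, hy, t.symm y, hz2, ?_⟩
  exact t.apply_symm_apply y

private theorem RIG_inter {A X Y Q : Set U}
    (hQ : ∀ g : U ≃[L] U, Fx L A g → ∀ x, g x ∈ Q ↔ x ∈ Q)
    (h : Sm L A X Y) : Sm L A (X ∩ Q) (Y ∩ Q) := by
  obtain ⟨e, he⟩ := h
  have hmem : ∀ x : X, ((e x : U) ∈ Q ↔ (x : U) ∈ Q) := by
    intro x
    obtain ⟨g, hg, h1⟩ := he {x} (finite_singleton x)
    rw [← h1 x rfl]
    exact hQ g hg x
  have hmem' : ∀ y : Y, ((e.symm y : U) ∈ Q ↔ (y : U) ∈ Q) := by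
    intro y
    rw [← hmem (e.symm y), e.apply_symm_apply]
  let e' : ((X ∩ Q : Set U)) ≃ ((Y ∩ Q : Set U)) :=
    { toFun := fun x => ⟨e ⟨x, x.2.1⟩, (e ⟨x, x.2.1⟩).2, (hmem ⟨x, x.2.1⟩).2 x.2.2⟩
      invFun := fun y => ⟨e.symm ⟨y, y.2.1⟩, (e.symm ⟨y, y.2.1⟩).2, (hmem' ⟨y, y.2.1⟩).2 y.2.2⟩
      left_inv := fun x => by simp
      right_inv := fun y => by simp }
  refine ⟨e', fun s hs => ?_⟩
  obtain ⟨g, hg, h1⟩ := he ((fun x : (X ∩ Q : Set U) => (⟨x, x.2.1⟩ : X)) '' s) (hs.image _)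
  exact ⟨g, hg, fun x hx => h1 ⟨x, x.2.1⟩ (mem_image_of_mem _ hx)⟩

private theorem RIG_mono {A B X Y : Set U} (hAB : A ⊆ B) (h : SmN L B X Y) : SmN L A X Y := by
  obtain ⟨e, he⟩ := h
  refine ⟨e, fun s hs => ?_⟩
  obtain ⟨g, hg, h1⟩ := he s hs
  exact ⟨g, nx_mono hAB hg, h1⟩

end rig

/-- [RIG] -/
theorem thm_RIG (hCJP : St_CJP) (hLF2 : St_LF2) (hUNQ : St_UNQ) (hFCP : St_FCP)
    (hLNW : St_LNW) (hRCH : St_RCH) (hSEP : St_SEP) (hHQS : St_HQS) (hPMD : St_PMD) :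
    St_RIG := by
  intro L U _ hMon hNP hFN A y z hA hInr M hM
  obtain ⟨B, g, E, lt, hBf, hAB, hgN, hLin, hyE, hdis, hcl⟩ := hInr
  have hgA : Fx L A g := nx_fx hgN
  have hFcp : ∀ A : Set U, A.Finite → Fcp L A := fun A hA =>
    hFCP hHQS hPMD hSEP thm_CLQ thm_SEQ thm_NEA thm_FEQ thm_ALQ thm_IMQ thm_OFQ thm_BND L U
      hMon hNP A hA
  set Q := Pq L (insert y A) z with hQ
  set A' := insert (g y) A with hA'
  have hA'f : A'.Finite := hA.insert _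
  have himA : g '' (insert y A) = A' := by
    rw [image_insert_eq, Pool.Agent.PMC.fx_img A hgA]
  have hQ'pc : g '' Q = Pq L A' (g z) := by
    rw [hQ, (thm_IMQ L U hMon (insert y A) (hA.insert y)).2.1 g z, himA]
  set Q' := g '' Q with hQ'
  set C := insert (g y) B with hC
  have hCf : C.Finite := hBf.insert _
  have hA'C : A' ⊆ C := insert_subset_insert hAB
  have hyC : g y ∈ C := mem_insert _ _
  have hBC : B ⊆ C := subset_insert _ _
  have hQC : Pq L C (g z) = Q' := by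
    have h1 := thm_NNQ thm_OFQ thm_ALQ thm_BND L U hMon A' B (g z) hA'f hBf (by
      rw [← hQ'pc]
      exact hdis.symm)
    have h2 : A' ∪ B = C := by
      rw [hA', hC, insert_union, union_eq_right.2 hAB]
    rw [h2, ← hQ'pc] at h1
    exact h1
  have hQ'E : ∀ v ∈ Q', v ∈ E ∧ ¬ lt (g y) v ∧ ¬ lt v (g y) := by
    rintro _ ⟨v, hv, rfl⟩
    exact hcl v hv
  -- the submodel
  set m : U → Set U := fun z => {v | z ∈ Q' → v ∈ g '' M} with hm
  have hm1 : ∀ z ∈ Q', m z = g '' M := by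
    intro z hz
    ext v
    exact ⟨fun h => h hz, fun h _ => h⟩
  have hm2 : ∀ z ∉ Q', m z = univ := by
    intro z hz
    ext v
    exact ⟨fun _ => mem_univ v, fun _ h => absurd h hz⟩
  have hgM : Md L A' (g '' M) := by
    refine ⟨RIG_el hMon hM.1 g, ?_⟩
    rw [← himA]
    exact image_mono hM.2
  have hM' : Md L A' {z | z ∈ m z} := by
    refine hUNQ hSEP thm_CLQ thm_SEQ thm_NEA thm_FEQ thm_ALQ thm_IMQ thm_OFQ thm_BND L U hMon A'
      hA'f (hFcp A' hA'f) m ?_ ?_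
    · intro z
      by_cases hz : z ∈ Q'
      · rw [hm1 z hz]
        exact hgM
      · rw [hm2 z hz]
        exact ⟨fun s _ hne => by rwa [inter_univ], subset_univ _⟩
    · intro v w hw
      have hbq : Bq L A' Q' := by
        rw [hQ'pc]
        exact ((thm_ALQ thm_OFQ thm_BND L U hMon A' hA'f).2.2.2.2.1 (g z)).1
      by_cases hv : v ∈ Q'
      · rw [hm1 v hv, hm1 w ((hw Q' hbq).1 hv)]
      · rw [hm2 v hv, hm2 w fun h => hv ((hw Q' hbq).2 h)]
  set M' : Set U := {z | z ∈ m z} with hM'def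
  have hout : ∀ v, v ∉ Q' → v ∈ M' := by
    intro v hv
    show v ∈ m v
    rw [hm2 v hv]
    exact mem_univ v
  have hMB : Md L B M' := by
    refine ⟨hM'.1, fun b hb => hout b fun h => ?_⟩
    exact Set.disjoint_left.1 hdis h hb
  have hyM' : g y ∈ M' := hM'.2 (mem_insert _ _)
  have hyI : g y ∈ Iv E lt M' (g y) (g y) :=
    ⟨hyM', hyE, hLin.irr _ hyE, hLin.irr _ hyE⟩
  obtain ⟨w, -, hw, hSN⟩ := hLNW L U hMon hNP B E lt hLin univ M' (g y)
    (hRCH L U hMon B hBf).1 hMB hyM' hyE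
  obtain ⟨g0, hg0, hgw, hS2⟩ := RIG_pt hSN hyI
  -- the union of the conjugates
  set Qs : Set U := {v | ∃ k : U ≃[L] U, Fx L C k ∧ k v ∈ Pq L C (g z)} with hQs
  have hQsfx : ∀ k : U ≃[L] U, Fx L C k → ∀ v, k v ∈ Qs ↔ v ∈ Qs := by
    intro k hk v
    constructor
    · rintro ⟨k', hk', h⟩
      exact ⟨k'.comp k, fx_comp hk' hk, h⟩
    · rintro ⟨k', hk', h⟩
      refine ⟨k'.comp k.symm, fx_comp hk' (fx_symm hk), ?_⟩
      show k' (k.symm (k v)) ∈ Pq L C (g z)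
      rw [k.symm_apply_apply]
      exact h
  have hQsI : ∀ v ∈ Qs, v ∈ E ∧ ¬ lt (g y) v ∧ ¬ lt v (g y) := by
    rintro v ⟨k, hk, h⟩
    rw [hQC] at h
    obtain ⟨h1, h2, h3⟩ := hQ'E _ h
    have hkB : Fx L B k := fx_mono hBC hk
    have hvE : v ∈ E := (hLin.fxE k hkB v).1 h1
    have hky : k (g y) = g y := hk _ hyC
    refine ⟨hvE, fun h' => h2 ?_, fun h' => h3 ?_⟩
    · have := (hLin.fxl k hkB (g y) hyE v hvE).2 h'
      rw [hky] at this
      exact this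
    · have := (hLin.fxl k hkB v hvE (g y) hyE).2 h'
      rw [hky] at this
      exact this
  have hS3 := RIG_inter hQsfx hS2
  have e1 : Iv E lt M' (g y) (g y) ∩ Qs = M' ∩ Qs := by
    ext v
    constructor
    · rintro ⟨⟨hv1, -⟩, hv2⟩
      exact ⟨hv1, hv2⟩
    · rintro ⟨hv1, hv2⟩
      obtain ⟨h1, h2, h3⟩ := hQsI v hv2
      exact ⟨⟨hv1, h1, h3, h2⟩, hv2⟩
  have e2 : (g0.symm '' Iv E lt univ w w) ∩ Qs = Qs := by
    refine inter_eq_right.2 ?_
    intro v hv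
    obtain ⟨hvE, hn1, hn2⟩ := hQsI v hv
    refine ⟨g0 v, ?_, g0.symm_apply_apply _⟩
    have hgvE : g0 v ∈ E := (hLin.fxE g0 hg0 v).2 hvE
    have hgyE : g0 (g y) ∈ E := hgw.2.1
    have hn3 : ¬ lt (g0 (g y)) (g0 v) := fun h =>
      hn1 ((hLin.fxl g0 hg0 (g y) hyE v hvE).1 h)
    have hn4 : ¬ lt (g0 v) (g0 (g y)) := fun h =>
      hn2 ((hLin.fxl g0 hg0 v hvE (g y) hyE).1 h)
    refine ⟨mem_univ _, hgvE, fun h => ?_, fun h => ?_⟩
    · rcases hLin.neg (g0 v) hgvE (g0 (g y)) hgyE w hw h with h7 | h7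
      · exact hn4 h7
      · exact hgw.2.2.1 h7
    · rcases hLin.neg w hw (g0 (g y)) hgyE (g0 v) hgvE h with h7 | h7
      · exact hgw.2.2.2 h7
      · exact hn3 h7
  rw [e1, e2] at hS3
  have hS4 : Sm L C (M' ∩ Pq L C (g z)) (Pq L C (g z)) :=
    hCJP L U hMon C M' (g z) hCf (hFcp C hCf) (fun k hk v hv hkv => by
      rw [hQC] at hkv
      exact hout _ hkv) hS3
  have hS5 := hLF2 L U hMon hFN C _ (g z) hCf inter_subset_right hS4
  rw [hQC] at hS5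
  have e3 : M' ∩ Q' = g '' (M ∩ Q) := by
    ext v
    constructor
    · rintro ⟨hv1, hv2⟩
      have h7 : v ∈ m v := hv1
      rw [hm1 v hv2] at h7
      obtain ⟨a, ha, rfl⟩ := h7
      obtain ⟨b, hb, hab⟩ := hv2
      have h8 : b = a := g.injective hab
      subst h8
      exact ⟨b, ⟨ha, hb⟩, rfl⟩
    · rintro ⟨a, ⟨ha, haP⟩, rfl⟩
      have h8 : g a ∈ Q' := ⟨a, haP, rfl⟩
      refine ⟨?_, h8⟩
      show g a ∈ m (g a)
      rw [hm1 (g a) h8]
      exact ⟨a, ha, rfl⟩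
  rw [e3] at hS5
  have hS6 := RIG_img hMon g.symm (RIG_mono hA'C hS5)
  rw [← himA, RIG_symm_img, RIG_symm_img, hQ', RIG_symm_img] at hS6
  exact hS6

end Pool.Agent.TPC
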