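import Pool.Agent.TPC.FEQ
import Pool.Agent.TPC.CLQ

/-!
TPC, module SEP (helper68): definable sets which meet finitely many pieces.
-/

set_option autoImplicit false
set_option linter.unusedVariables false
set_option linter.unusedSectionVars false

namespace Pool.Agent.TPC

open FirstOrder.Language Set
open scoped FirstOrder
open Pool.Agent.WOM (tp Mon IsEl IsoM CtU Fx Orb Isd)
open Pool.Agent.PMC (Sm Md NPf fx_refl fx_symm fx_comp fx_mono comp_apply' def_mono def_compl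
  def_inter def_of_fix conj_of_def sat_fam mem_orb)
open Pool.Agent.MNO

section

variable {L : FirstOrder.Language.{0, 0}} {U : Type} [L.Structure U]

variable (L) in
/-- the points which are close to the piece of `z` in the orbit of `x` -/
def SEP_T (A : Set U) (E : ℕ → U → U → Prop) (x : U) (n : ℕ) (z : U) : Set U :=
  {w | ∃ y ∈ {y | y ∈ Orb L A x ∧ y ∈ Pq L A z}, E n w y}

theorem SEP_T_def (hI : St_IMQ) (hM : Mon L U) {A : Set U} (hA : A.Finite)
    {E : ℕ → U → U → Prop} (hE : Seq L A E) (x : U) (n : ℕ) (z : U) :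
    (insert z A).Definable₁ L (SEP_T L A E x n z) := by
  refine FEQ_union hM hA (hE.fe n) (hA.insert z) (subset_insert z A) ?_
  rintro g hg y ⟨hy, hy'⟩
  have hg' : Fx L A g := fx_mono (subset_insert z A) hg
  refine ⟨(CLQ_orb_fx hg' x y).2 hy, ?_⟩
  have h1 := (hI L U hM A hA).2.2 g hg' z
  rw [hg z (mem_insert z A)] at h1
  rw [← h1]
  exact ⟨y, hy', rfl⟩

theorem SEP_T_mono {A : Set U} {E : ℕ → U → U → Prop} (hE : Seq L A E) {m n : ℕ} (h : m ≤ n)
    (x z : U) : SEP_T L A E x n z ⊆ SEP_T L A E x m z := by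
  rintro w ⟨y, hy, hwy⟩
  exact ⟨y, hy, CLQ_mono hE h hwy⟩

theorem SEP_T_self {A : Set U} {E : ℕ → U → U → Prop} (hE : Seq L A E) (n : ℕ) {x y z : U}
    (hy : y ∈ Orb L A x) (hy' : y ∈ Pq L A z) : y ∈ SEP_T L A E x n z :=
  ⟨y, ⟨hy, hy'⟩, (CLQ_eqv (hE.fe n)).refl y⟩

end

theorem thm_SEP : St_SEP := by
  intro hC hSQ hN hF hAL hI hO hB L U _ hM A B O v hA hBf hBO hOv hfin x hx
  obtain ⟨E, hE⟩ := hSQ hF L U hM A hA
  have hxv : x ∈ Orb L A v := hOv hx
  have hclq : ∀ z ∈ O, ∀ w ∈ O, (∀ n, w ∈ SEP_T L A E v n z) → w ∈ Pq L A z := by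
    intro z hz w hw h
    have hzv : z ∈ Orb L A v := hOv hz
    have hwv : w ∈ Orb L A v := hOv hw
    have e : Orb L A z = Orb L A v := CLQ_orb hzv
    refine hC hN hF hAL hI hO hB L U hM A E z w hA hE (by rw [e]; exact hwv) (fun n => ?_)
    obtain ⟨y, ⟨hy, hy'⟩, hwy⟩ := h n
    exact ⟨y, by rw [e]; exact hy, hy', hwy⟩
  obtain ⟨n, hn⟩ := CLQ_fin hfin
    (Q := fun n P => P ≠ Pq L A x → ∀ w ∈ O, w ∈ SEP_T L A E v n x → w ∉ P) (by
    rintro P ⟨z, hz, rfl⟩
    by_contra hcon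
    push Not at hcon
    have hne : Pq L A z ≠ Pq L A x := (hcon 0).1
    have hBB : (B ∪ insert x (insert z A)).Finite := hBf.union ((hA.insert z).insert x)
    obtain ⟨w, hw⟩ := sat_fam hM hBB (F := {O} ∪ ({s | ∃ n, s = SEP_T L A E v n x} ∪
      {s | ∃ n, s = SEP_T L A E v n z})) (by
      rintro s (rfl | ⟨n, rfl⟩ | ⟨n, rfl⟩)
      · exact def_mono subset_union_left hBO
      · refine def_mono ?_ (SEP_T_def hI hM hA hE v n x)
        exact fun a ha => Or.inr (insert_subset_insert (subset_insert z A) ha)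
      · refine def_mono ?_ (SEP_T_def hI hM hA hE v n z)
        exact fun a ha => Or.inr (subset_insert x _ ha)) (by
      intro G hG hGf
      obtain ⟨n, hn⟩ := CLQ_fin hGf
        (Q := fun n s => ∀ w ∈ O, w ∈ SEP_T L A E v n x → w ∈ SEP_T L A E v n z → w ∈ s) (by
        intro s hs
        rcases hG hs with rfl | ⟨n, rfl⟩ | ⟨n, rfl⟩
        · exact ⟨0, fun w hw _ _ => hw⟩
        · exact ⟨n, fun w _ hw _ => hw⟩
        · exact ⟨n, fun w _ _ hw => hw⟩) (by
        intro m n s hmn h w hw h1 h2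
        exact h w hw (SEP_T_mono hE hmn v x h1) (SEP_T_mono hE hmn v z h2))
      obtain ⟨-, w, hw, hwx, hwz⟩ := hcon n
      exact ⟨w, fun s hs => hn s hs w hw hwx (SEP_T_self hE n (hOv hw) hwz)⟩)
    have hwO : w ∈ O := hw O (Or.inl rfl)
    have h1 : w ∈ Pq L A x := hclq x hx w hwO (fun n => hw _ (Or.inr (Or.inl ⟨n, rfl⟩)))
    have h2 : w ∈ Pq L A z := hclq z hz w hwO (fun n => hw _ (Or.inr (Or.inr ⟨n, rfl⟩)))
    exact hne ((CLQ_pq h2).symm.trans (CLQ_pq h1))) (by
    intro m n P hmn h hP w hw h1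
    exact h hP w hw (SEP_T_mono hE hmn v x h1))
  refine ⟨B ∪ insert x A, hBf.union (hA.insert x), ?_⟩
  have h1 : O ∩ Pq L A x = O ∩ SEP_T L A E v n x := by
    ext w
    constructor
    · rintro ⟨hw, hwx⟩
      exact ⟨hw, SEP_T_self hE n (hOv hw) hwx⟩
    · rintro ⟨hw, hwx⟩
      refine ⟨hw, ?_⟩
      by_contra hcon
      have h2 : Pq L A w ≠ Pq L A x := by
        intro e
        apply hcon
        rw [← e]
        exact CLQ_self A w
      exact hn _ ⟨w, hw, rfl⟩ h2 w hw hwx (CLQ_self A w)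
  rw [h1]
  exact def_inter (def_mono subset_union_left hBO)
    (def_mono subset_union_right (SEP_T_def hI hM hA hE v n x))

end Pool.Agent.TPC
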