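import Pool.Agent.TPC.StB
import Pool.Agent.MNO.NBase

/-!
TPC, module UNQ: models may be chosen piece by piece (helper41, after `Pool/Agent/MNO/UNP.lean`).
-/

set_option autoImplicit false
set_option linter.unusedVariables false

namespace Pool.Agent.TPC

open FirstOrder.Language Set
open scoped FirstOrder
open Pool.Agent.WOM (tp Mon IsEl IsoM CtU Fx Orb Isd)
open Pool.Agent.PMC (Sm Md NPf fx_refl fx_comp fx_mono comp_apply' isEl_of_orb)
open Pool.Agent.MNO (Dp FE Sq Nx SmN FE1 FinN nx_mono nx_fx nx_meets)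

theorem thm_UNQ : St_UNQ := by
  intro hSEP hCLQ hSEQ hNEA hFEQ hALQ hIMQ hOFQ hBND L U _ hM A hA hF m hm hmm
  have hAX : A ⊆ {z | z ∈ m z} := fun a ha => (hm a).2 ha
  have hAL := hALQ hOFQ hBND L U hM A hA
  have hIM := (hIMQ L U hM A hA).2.2
  refine ⟨isEl_of_orb hM hA hAX ?_, hAX⟩
  intro B hB hAB hBX x hO
  obtain ⟨hP, hxP⟩ := hAL.2.2.2.2.1 x
  by_cases hb : ∃ b ∈ B, b ∈ Pq L A x
  · obtain ⟨b, hbB, hbP⟩ := hb
    have hOP : ∀ y ∈ Orb L B x, y ∈ Pq L A x := by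
      rintro y ⟨k, hk, rfl⟩
      have h1 := hIM k (fx_mono hAB hk) x
      have h2 := hIM k (fx_mono hAB hk) b
      rw [hAL.2.2.2.2.2.2.2.1 x b hbP, hk b hbB, hAL.2.2.2.2.2.2.2.1 x b hbP] at h2
      rw [← h2]
      exact ⟨x, hxP, rfl⟩
    have hB'B : A ∪ (B ∩ Pq L A x) ⊆ B := union_subset hAB inter_subset_left
    have key : ∀ g : U ≃[L] U, Nx L (A ∪ (B ∩ Pq L A x)) g → ∀ y ∈ Orb L B x, g y ∈ Orb L B x := by
      intro g hg y hy
      obtain ⟨h, hhA, hhP, hhn⟩ := hP.glu g (nx_mono subset_union_left hg)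
      have hyP := hOP y hy
      obtain ⟨k, hk, rfl⟩ := hy
      have hhB : Fx L B h := by
        intro c hc
        by_cases hcP : c ∈ Pq L A x
        · rw [hhP c hcP]
          exact (nx_fx hg) c (Or.inr ⟨hc, hcP⟩)
        · exact hhn c hcP
      refine ⟨h.comp k, fx_comp hhB hk, ?_⟩
      rw [comp_apply']
      exact hhP _ hyP
    have hsub : A ∪ (B ∩ Pq L A x) ⊆ m x := by
      rintro y (hy | ⟨hyB, hyP⟩)
      · exact (hm x).2 hy
      · have h1 : y ∈ m y := hBX hyB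
        rw [hmm x y hyP] at h1
        exact h1
    obtain ⟨y, hym, hyO⟩ := nx_meets hM (hB.subset hB'B) hB hO key (M := m x) ⟨(hm x).1, hsub⟩
      ⟨x, FirstOrder.Language.Equiv.refl L U, fx_refl B, rfl⟩
    refine ⟨y, ?_, hyO⟩
    have hyP := hOP y hyO
    show y ∈ m y
    rw [hmm x y hyP]
    exact hym
  · have hxO : x ∈ Orb L B x := ⟨FirstOrder.Language.Equiv.refl L U, fx_refl B, rfl⟩
    have hOA : Orb L B x ⊆ Orb L A x := by
      rintro y ⟨k, hk, rfl⟩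
      exact ⟨k, fx_mono hAB hk, rfl⟩
    obtain ⟨C, hC, hCd⟩ := hSEP hCLQ hSEQ hNEA hFEQ hALQ hIMQ hOFQ hBND L U hM A B (Orb L B x) x
      hA hB hO hOA ((hF x).subset (by
        rintro P ⟨y, hy, rfl⟩
        exact ⟨y, hOA hy, rfl⟩)) x hxO
    have key : ∀ g : U ≃[L] U, Nx L A g → ∀ y ∈ Orb L B x ∩ Pq L A x,
        g y ∈ Orb L B x ∩ Pq L A x := by
      rintro g hg y ⟨hy, hyP⟩
      refine ⟨?_, (hP.inv g hg y).2 hyP⟩
      obtain ⟨h, hhA, hhP, hhn⟩ := hP.glu g hg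
      obtain ⟨k, hk, rfl⟩ := hy
      have hhB : Fx L B h := fun c hc => hhn c fun hcP => hb ⟨c, hc, hcP⟩
      refine ⟨h.comp k, fx_comp hhB hk, ?_⟩
      rw [comp_apply']
      exact hhP _ hyP
    obtain ⟨y, hym, hyO, hyP⟩ := nx_meets hM hA hC hCd key (hm x) ⟨x, hxO, hxP⟩
    refine ⟨y, ?_, hyO⟩
    show y ∈ m y
    rw [hmm x y hyP]
    exact hym

end Pool.Agent.TPC
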