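import Pool.Agent.TPC.RCH
import Pool.Agent.TPC.LOB
import Pool.Agent.TPC.LGR
import Pool.Agent.TPC.LPC
import Pool.Agent.TPC.LSU
import Pool.Agent.TPC.LIN
import Pool.Agent.TPC.LNW
import Pool.Agent.TPC.LNI
import Pool.Agent.TPC.LCL
import Pool.Agent.TPC.FOB
import Pool.Agent.TPC.FSU
import Pool.Agent.TPC.FRM
import Pool.Agent.TPC.FIF
import Pool.Agent.TPC.FCT
import Pool.Agent.TPC.LMT
import Pool.Agent.TPC.EMB
import Pool.Agent.TPC.CHN
import Pool.Agent.TPC.FNN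
import Pool.Agent.TPC.CJP
import Pool.Agent.TPC.LF2
import Pool.Agent.TPC.RIG
import Pool.Agent.TPC.NRQ
import Pool.Agent.TPC.CPT
import Pool.Agent.TPC.UNQ
import Pool.Agent.TPC.PMD
import Pool.Agent.TPC.SEP
import Pool.Agent.TPC.FCP
import Pool.Agent.TPC.HQS
import Pool.Agent.TPC.NNQ
import Pool.Agent.TPC.IMQ
import Pool.Agent.TPC.LXT
import Pool.Agent.TPC.PAR

/-!
TPC: the counting theorem (helper47), assembly of all modules.
-/

set_option autoImplicit false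
set_option linter.unusedVariables false

namespace Pool.Agent.TPC

open FirstOrder.Language Set
open scoped FirstOrder
open Pool.Agent.WOM (tp Mon IsEl IsoM CtU Fx Orb Isd)
open Pool.Agent.PMC (Sm Md NPf)
open Pool.Agent.MNO (Dp FE Sq Nx SmN FE1 FinN)

private theorem a_LIN : St_LIN := thm_LIN (thm_LPC thm_LOB) (thm_LSU thm_LOB) thm_LOB thm_FEQ
private theorem a_LNW : St_LNW := thm_LNW a_LIN thm_LOB
private theorem a_RCH : St_RCH := thm_RCH thm_FEQ
private theorem a_LNI : St_LNI := thm_LNI a_LNW a_RCH a_LIN thm_LOB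
private theorem a_LXT : St_LXT := thm_LXT a_LNW a_LNI (thm_LCL thm_LGR thm_LOB) a_RCH
private theorem a_FRM : St_FRM := thm_FRM (thm_FSU thm_FOB) thm_FOB
private theorem a_FIF : St_FIF := thm_FIF a_FRM
private theorem a_FCT : St_FCT := thm_FCT a_FIF thm_FOB
private theorem a_RIG : St_RIG :=
  thm_RIG thm_CJP thm_LF2 thm_UNQ thm_FCP a_LNW a_RCH thm_SEP thm_HQS thm_PMD
private theorem a_NRQ : St_NRQ :=
  thm_NRQ thm_CJP thm_LF2 thm_UNQ thm_FCP thm_HQS thm_PMD thm_SEP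
private theorem a_PAR : St_PAR := thm_PAR thm_CPT a_LXT a_FCT a_RIG a_NRQ

theorem thm_FNN' (hOMJ : St_OMJ) : St_FNN :=
  thm_FNN (thm_CHN hOMJ thm_LMT thm_EMB thm_FEQ) thm_FCP a_LNW a_FIF a_RCH thm_FEQ thm_HQS
    thm_PMD thm_SEP thm_CLQ thm_SEQ thm_NEA thm_ALQ thm_IMQ thm_OFQ thm_BND

theorem thm_CTG' (hOMJ : St_OMJ) : St_CTG := thm_CTG (thm_FNN' hOMJ) a_PAR a_NRQ thm_CPT

end Pool.Agent.TPC
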