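import Pool.Agent.TPC.StZ

/-!
TPC, [BG3]: big pieces over isolated tuples (helper79).
-/

set_option autoImplicit false
set_option linter.unusedVariables false

namespace Pool.Agent.TPC

open FirstOrder.Language Set
open scoped FirstOrder
open Pool.Agent.WOM (tp Mon IsEl IsoM CtU Fx Orb Isd)
open Pool.Agent.PMC (Sm Md NPf)
open Pool.Agent.MNO (Dp FE Sq Nx SmN FE1 FinN nx_mono nx_comp nx_symm)

private theorem BG3_univ {L : FirstOrder.Language.{0, 0}} {U : Type} [L.Structure U] (A : Set U) :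
    Md L A univ := by
  refine ⟨fun s _ hs => ?_, subset_univ A⟩
  rw [inter_univ]
  exact hs

/-- [BG3] -/
theorem thm_BG3 (hIST : St_IST) (hBGC : St_BGC) : St_BG3 := by
  classical
  intro L U _ hM hN hF A z n u hA hBig hIst
  obtain ⟨B, z0, hB, hAB, hz0, hnc⟩ := hBig
  by_contra hcon
  push Not at hcon
  obtain ⟨-, -, i3, -⟩ := hIST L U hM hF A hA
  obtain ⟨k, hk, hk'⟩ := i3 n u B hIst hB hAB
  obtain ⟨-, i2, -⟩ := hIST L U hM hF B hB
  obtain ⟨-, -, -, -, b5, -, -, -, -, -⟩ := q_ALQ L U hM B hB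
  obtain ⟨-, -, -, -, a5, -, -, a8, -, a10⟩ := q_ALQ L U hM A hA
  obtain ⟨-, -, -, -, s5, -, -, -, -⟩ := q_SMQ L U hM
  have : Countable U := hM.ctb
  have hRA : Pq L B z0 ⊆ Pq L A z := by
    have h := a10 B hB hAB z0
    rwa [a8 z z0 hz0] at h
  have claim : ∀ g : U ≃[L] U, Nx L B g →
      Cpt L (B ∪ range (fun i => g (k (u i)))) (Pq L B z0) := by
    intro g hg
    have hC : (B ∪ range (fun i => g (k (u i)))).Finite := hB.union (finite_range _)
    have hBC : B ⊆ B ∪ range (fun i => g (k (u i))) := subset_union_left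
    obtain ⟨-, -, c3, -⟩ := q_CPT L U hM (B ∪ range (fun i => g (k (u i)))) (Pq L B z0) hC
    refine c3 ((q_OFQ L U hM B (Pq L B z0) hB (b5 z0).1).2.2 _ hC hBC)
      (q_NRQ L U hM hN hF _ hC) fun z' hz' => Or.inr ?_
    by_contra hn
    have hh : Nx L A (g.comp k) := nx_comp (nx_mono hAB hg) hk
    have hz1 : (g.comp k).symm z' ∈ Pq L A z :=
      ((a5 z).1.inv _ (nx_symm hh) z').2 (hRA hz')
    have hA1 : (A ∪ range (fun i => g (k (u i)))).Finite := hA.union (finite_range _)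
    have hbig : Big L (A ∪ range (fun i => g (k (u i)))) z' := by
      refine ⟨B ∪ range (fun i => g (k (u i))), z', hC, union_subset_union_left _ hAB, ?_, hn⟩
      obtain ⟨-, -, -, -, d5, -, -, -, -, -⟩ := q_ALQ L U hM _ hA1
      exact (d5 z').2
    obtain ⟨-, -, -, g4, -⟩ := hBGC L U hM hN (A ∪ range (fun i => g (k (u i)))) z' hA1
    have h4 := g4 (g.comp k).symm hbig
    have e : (g.comp k).symm '' (A ∪ range (fun i => g (k (u i)))) = A ∪ range u := by
      rw [image_union]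
      congr 1
      · exact Pool.Agent.MNO.fx_img A (nx_symm hh).1
      · rw [← range_comp]
        congr 1
        funext i
        exact (g.comp k).symm_apply_apply (u i)
    rw [e] at h4
    exact hcon _ hz1 h4
  have key : ∀ v : Fin n → U, ∃ c : ℕ → Set U, (∀ m, Md L B (c m)) ∧
      ((∃ g : U ≃[L] U, Nx L B g ∧ ∀ i, g (k (u i)) = v i) → ∀ M, Md L (B ∪ range v) M →
        ∃ m, SmN L (B ∪ range v) (M ∩ Pq L B z0) (c m ∩ Pq L B z0)) := by
    intro v
    by_cases hv : ∃ g : U ≃[L] U, Nx L B g ∧ ∀ i, g (k (u i)) = v i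
    · obtain ⟨g, hg, hgv⟩ := hv
      have e : (fun i => g (k (u i))) = v := funext hgv
      have h := claim g hg
      rw [e] at h
      obtain ⟨c, hc, hc'⟩ := h
      exact ⟨c, fun m => ⟨(hc m).1, subset_union_left.trans (hc m).2⟩, fun _ => hc'⟩
    · exact ⟨fun _ => univ, fun _ => BG3_univ B, fun h => absurd h hv⟩
  choose C hC hC' using key
  apply hnc
  have : Nonempty U := ⟨z⟩
  obtain ⟨e, he⟩ := exists_surjective_nat ((Fin n → U) × ℕ)
  refine ⟨fun m => C (e m).1 (e m).2, fun m => hC _ _, fun M hMd => ?_⟩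
  obtain ⟨g, hg, hgM⟩ := i2 n (fun i => k (u i)) M hk' hMd
  obtain ⟨m, hm⟩ := hC' (fun i => g (k (u i))) ⟨g, hg, fun _ => rfl⟩ M
    ⟨hMd.1, union_subset hMd.2 (by rintro _ ⟨i, rfl⟩; exact hgM i)⟩
  obtain ⟨j, hj⟩ := he (fun i => g (k (u i)), m)
  refine ⟨j, ?_⟩
  show SmN L B (M ∩ Pq L B z0) (C (e j).1 (e j).2 ∩ Pq L B z0)
  rw [hj]
  exact (s5 B _ _ _ subset_union_left hm).1

end Pool.Agent.TPC

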