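import Pool.Agent.TPC.StE

/-!
TPC, FNN: finiteness of the number of orbits of `Nx A` in an orbit over `A` (helper86)
-/

set_option autoImplicit false
set_option linter.unusedVariables false

namespace Pool.Agent.TPC

open FirstOrder.Language Set
open scoped FirstOrder
open Pool.Agent.WOM (tp Mon IsEl IsoM CtU Fx Orb Isd)
open Pool.Agent.PMC (Sm Md NPf)
open Pool.Agent.MNO (Dp FE Sq Nx SmN FE1 FinN nx_refl nx_symm nx_comp nx_mono)

theorem thm_FNN (hCHN : St_CHN) (hFCP : St_FCP) (hLNW : St_LNW) (hFIF : St_FIF) (hRCH : St_RCH)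
    (hFEQ : St_FEQ) (hHQS : St_HQS) (hPMD : St_PMD) (hSEP : St_SEP) (hCLQ : St_CLQ)
    (hSEQ : St_SEQ) (hNEA : St_NEA) (hALQ : St_ALQ) (hIMQ : St_IMQ) (hOFQ : St_OFQ)
    (hBND : St_BND) : St_FNN := by
  intro L U _ hM hNP hH A hA x
  by_contra hcon
  obtain ⟨-, -, q3, q4, -, q6, -, -, -⟩ := hFEQ L U hM A hA
  have hfc : {P : Set U | ∃ y ∈ Orb L A x, P = Pq L A y}.Finite :=
    hFCP hHQS hPMD hSEP hCLQ hSEQ hNEA hFEQ hALQ hIMQ hOFQ hBND L U hM hNP A hA x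
  -- the realisations
  have hrea : ∀ y : U, ∃ B E : Set U, B.Finite ∧ A ⊆ B ∧
      ((∃ s : Set U, s.Finite ∧ Pq L A y ⊆ s) ∨
        (((∃ lt, Lin L B E lt) ∨ ∃ cl, Fre L B E cl) ∧
          ∀ z ∈ Pq L A y, ∃ g : U ≃[L] U, Nx L A g ∧ g z ∈ E)) := by
    intro y
    rcases hH.rea A y hA with h | ⟨B, E, h1, h2, h3, h4⟩
    · exact ⟨A, ∅, hA, Subset.rfl, Or.inl h⟩
    · exact ⟨B, E, h1, h2, Or.inr ⟨h3, h4⟩⟩
  choose BB EE hBf hAB hBE using hrea
  -- representatives of the pieces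
  have hrep : ∀ P : {P : Set U | ∃ y ∈ Orb L A x, P = Pq L A y}, ∃ y : U, P.1 = Pq L A y := by
    rintro ⟨P, y, -, hy⟩
    exact ⟨y, hy⟩
  choose r hr using hrep
  have hfin : Finite {P : Set U | ∃ y ∈ Orb L A x, P = Pq L A y} := hfc
  obtain ⟨B, hB⟩ : ∃ B : Set U, B = A ∪ ⋃ P, BB (r P) := ⟨_, rfl⟩
  have hBfin : B.Finite := by
    rw [hB]
    exact hA.union (Set.finite_iUnion fun P => hBf (r P))
  have hABB : A ⊆ B := by
    rw [hB]
    exact subset_union_left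
  obtain ⟨M, y, hMy⟩ := hCHN L U hM A B x hABB hBfin hcon
  have hmono : ∀ n m, n ≤ m → M n ⊆ M m := by
    intro n m hnm
    induction m, hnm using Nat.le_induction with
    | base => exact Subset.rfl
    | succ k _ ih => exact ih.trans (hMy k).2.1
  have hinj : Function.Injective y := by
    have key : ∀ n m, n < m → y n ≠ y m := by
      intro n m hnm he
      exact (hMy m).2.2.2.2 (y n) (hmono (n + 1) m hnm (hMy n).2.2.1)
        ⟨_, nx_refl A, he⟩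
    intro n m he
    rcases lt_trichotomy n m with h | h | h
    · exact absurd he (key n m h)
    · exact h
    · exact absurd he.symm (key m n h)
  -- the pigeonhole
  obtain ⟨P, hP⟩ := Finite.exists_infinite_fiber
    (fun n : ℕ => (⟨Pq L A (y n), y n, (hMy n).2.2.2.1, rfl⟩ :
      {P : Set U | ∃ y ∈ Orb L A x, P = Pq L A y}))
  have hNinf : {n : ℕ | Pq L A (y n) = Pq L A (r P)}.Infinite := by
    have h1 := Set.infinite_coe_iff.mp hP
    refine h1.mono fun n hn => ?_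
    have h2 : (⟨Pq L A (y n), y n, (hMy n).2.2.2.1, rfl⟩ :
      {P : Set U | ∃ y ∈ Orb L A x, P = Pq L A y}) = P := hn
    show Pq L A (y n) = Pq L A (r P)
    rw [← hr P, ← h2]
  have hyP : ∀ n ∈ {n : ℕ | Pq L A (y n) = Pq L A (r P)}, y n ∈ Pq L A (r P) := by
    intro n hn
    have h1 : Pq L A (y n) = Pq L A (r P) := hn
    rw [← h1]
    exact fun Q _ => Iff.rfl
  rcases hBE (r P) with ⟨s, hs, hPs⟩ | ⟨hLF, hrea⟩
  · exact hNinf ((hs.preimage hinj.injOn).subset fun n hn => hPs (hyP n hn))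
  have hBB : BB (r P) ⊆ B := by
    rw [hB]
    exact (subset_iUnion (fun P => BB (r P)) P).trans subset_union_right
  have hfxE : ∀ g : U ≃[L] U, Fx L (BB (r P)) g → ∀ x, g x ∈ EE (r P) ↔ x ∈ EE (r P) := by
    rcases hLF with ⟨lt, h⟩ | ⟨cl, h⟩
    · exact h.fxE
    · exact h.fxE
  -- points of `E`
  have hp : ∀ n ∈ {n : ℕ | Pq L A (y n) = Pq L A (r P)}, ∃ p : U, p ∈ M (n + 1) ∧ p ∈ EE (r P) ∧
      ∀ z ∈ M n, ¬ ∃ g : U ≃[L] U, Nx L A g ∧ g z = p := by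
    intro n hn
    obtain ⟨g, hg, hgE⟩ := hrea (y n) (hyP n hn)
    have hsub := (hMy (n + 1)).1
    obtain ⟨z, hzM, h, hh, hz⟩ := hsub.2 (insert (y n) B) (hBfin.insert _)
      (insert_subset (hMy n).2.2.1 hsub.1.2) (g (y n))
    have hhB : Fx L B h := fun b hb => hh b (mem_insert_of_mem _ hb)
    have hhA : Fx L A h := fun b hb => hhB b (hABB hb)
    have hzE : z ∈ EE (r P) := by
      rw [← hz]
      exact (hfxE h (fun b hb => hhB b (hBB hb)) _).mpr hgE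
    obtain ⟨g', hg', hg'z⟩ := q4 (y n) z fun F hF => by
      have h1 := (q6 F hF h hhA (y n) (g (y n))).mpr (q3 F hF g hg (y n))
      rw [hz, hh (y n) (mem_insert _ _)] at h1
      exact h1
    refine ⟨z, hzM, hzE, ?_⟩
    rintro w hw ⟨k, hk, hkw⟩
    refine (hMy n).2.2.2.2 w hw ⟨g'.symm.comp k, nx_comp (nx_symm hg') hk, ?_⟩
    show g'.symm (k w) = y n
    rw [hkw, ← hg'z]
    exact g'.symm_apply_apply (y n)
  rcases hLF with ⟨lt, hL⟩ | ⟨cl, hF⟩
  · -- linear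
    obtain ⟨n, hn⟩ := hNinf.nonempty
    obtain ⟨p, hpM, hpE, hpn⟩ := hp n hn
    obtain ⟨z, hzM, hzE, e, he⟩ := hLNW L U hM hNP (BB (r P)) (EE (r P)) lt hL (M n) (M (n + 1)) p
      ((hRCH L U hM (BB (r P)) (hBf (r P))).2 B (M n) hBB (hMy n).1)
      ⟨(hMy (n + 1)).1.1.1, hBB.trans (hMy (n + 1)).1.1.2⟩ hpM hpE
    have hpI : p ∈ Iv (EE (r P)) lt (M (n + 1)) p p :=
      ⟨hpM, hpE, hL.irr p hpE, hL.irr p hpE⟩
    obtain ⟨g, hg, hge⟩ := he {⟨p, hpI⟩} (finite_singleton _)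
    have h1 : g p = e ⟨p, hpI⟩ := hge _ rfl
    refine hpn _ (e ⟨p, hpI⟩).2.1 ⟨g.symm, nx_symm (nx_mono (hAB (r P)) hg), ?_⟩
    rw [← h1]
    exact g.symm_apply_apply p
  · -- free
    obtain ⟨φ, hφ, hφN⟩ := Filter.extraction_of_frequently_atTop
      (Nat.frequently_atTop_iff_infinite.mpr hNinf)
    choose p hpM hpE hpn using fun k => hp (φ k) (hφN k)
    -- a bijection as in `SmN` is impossible in two cases
    have hout : ∀ (k : ℕ) (X Y : Set U), p k ∈ X → Y ⊆ M (φ k) → ¬ SmN L (BB (r P)) X Y := by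
      rintro k X Y hX hY ⟨e, he⟩
      obtain ⟨g, hg, hge⟩ := he {⟨p k, hX⟩} (finite_singleton _)
      have h1 : g (p k) = e ⟨p k, hX⟩ := hge _ rfl
      refine hpn k _ (hY (e ⟨p k, hX⟩).2) ⟨g.symm, nx_symm (nx_mono (hAB (r P)) hg), ?_⟩
      rw [← h1]
      exact g.symm_apply_apply (p k)
    have hin : ∀ (k : ℕ) (X Y : Set U), p k ∈ Y → X ⊆ M (φ k) → ¬ SmN L (BB (r P)) X Y := by
      rintro k X Y hY hX ⟨e, he⟩
      obtain ⟨g, hg, hge⟩ := he {e.symm ⟨p k, hY⟩} (finite_singleton _)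
      have h1 : g (e.symm ⟨p k, hY⟩) = e (e.symm ⟨p k, hY⟩) := hge _ rfl
      rw [e.apply_symm_apply] at h1
      exact hpn k _ (hX (e.symm ⟨p k, hY⟩).2) ⟨g, nx_mono (hAB (r P)) hg, h1⟩
    have hself : ∀ k, p k ∈ Kl (EE (r P)) cl (M (φ k + 1)) (p k) :=
      fun k => ⟨hpM k, hpE k, hF.rfl _ (hpE k)⟩
    refine hFIF L U hM hNP (BB (r P)) (EE (r P)) cl hF (M (φ 0))
      ⟨(hMy (φ 0)).1.1.1, hBB.trans (hMy (φ 0)).1.1.2⟩ (fun k => M (φ k + 1)) p
      (fun k => ⟨⟨(hMy (φ k + 1)).1.1.1, hBB.trans (hMy (φ k + 1)).1.1.2⟩, hpM k, hpE k⟩) ?_ ?_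
    · intro k l hkl
      rcases lt_or_gt_of_ne hkl with h | h
      · refine hin l _ _ (hself l) fun z hz => ?_
        exact hmono (φ k + 1) (φ l) (hφ h) hz.1
      · refine hout k _ _ (hself k) fun z hz => ?_
        exact hmono (φ l + 1) (φ k) (hφ h) hz.1
    · intro k
      have h1 : Lab L (BB (r P)) (EE (r P)) cl (M (φ 0))
          (Kl (EE (r P)) cl (M (φ k + 1)) (p k)) = ∅ := by
        rw [Set.eq_empty_iff_forall_notMem]
        rintro K' ⟨z, hz, hzE, rfl, hS⟩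
        refine hout k _ _ (hself k) (fun w hw => ?_) hS
        exact hmono (φ 0) (φ k) (hφ.monotone (Nat.zero_le k)) hw.1
      rw [h1]
      exact finite_empty

end Pool.Agent.TPC
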