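import Pool.Agent.TPC.StZ

/-!
TPC: module GLK (helper47): gluing on a cluster.
-/

set_option autoImplicit false
set_option linter.unusedVariables false

namespace Pool.Agent.TPC

open FirstOrder.Language Set
open scoped FirstOrder
open Pool.Agent.WOM (tp Mon IsEl IsoM CtU Fx Orb Isd)
open Pool.Agent.PMC (Sm Md NPf)
open Pool.Agent.MNO (Dp FE Sq Nx SmN FE1 FinN)

section

variable {L : FirstOrder.Language.{0, 0}} {U : Type} [L.Structure U] {H K E : Set U}

open Classical in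
private theorem glk_core (hE : Bq L H E) (hKE : K ⊆ E) (g : U ≃[L] U)
    (hgK : ∀ v, g v ∈ K ↔ v ∈ K)
    (hloc : ∀ F : Set U, F.Finite → F ⊆ E → ∃ g' : U ≃[L] U, Nx L H g' ∧
      ∀ x ∈ F, g' x = if x ∈ K then g x else x) :
    ∃ k : U ≃[L] U, Nx L H k ∧ (∀ v ∈ K, k v = g v) ∧ ∀ v, v ∉ K → k v = v := by
  have hgK' : ∀ v, g.symm v ∈ K ↔ v ∈ K := by
    intro v
    rw [← hgK (g.symm v), g.apply_symm_apply]
  let e : U ≃ U :=
    { toFun := fun x => if x ∈ K then g x else x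
      invFun := fun x => if x ∈ K then g.symm x else x
      left_inv := by
        intro x
        by_cases hx : x ∈ K
        · simp only [if_pos hx, if_pos ((hgK x).2 hx)]
          exact g.symm_apply_apply x
        · simp only [if_neg hx]
      right_inv := by
        intro x
        by_cases hx : x ∈ K
        · simp only [if_pos hx, if_pos ((hgK' x).2 hx)]
          exact g.apply_symm_apply x
        · simp only [if_neg hx] }
  obtain ⟨k, hk, hke⟩ := Pool.Agent.MNO.nx_lim (A := H) e (fun s hs => by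
    obtain ⟨g', hg', h1⟩ := hloc (s ∩ E) (hs.subset inter_subset_left) inter_subset_right
    obtain ⟨k', hk', k1, k2⟩ := hE.glu g' hg'
    refine ⟨k', hk', fun x hx => ?_⟩
    by_cases hxE : x ∈ E
    · rw [k1 x hxE]
      exact h1 x ⟨hx, hxE⟩
    · rw [k2 x hxE]
      have hxK : x ∉ K := fun h => hxE (hKE h)
      exact (if_neg hxK).symm)
  refine ⟨k, hk, fun v hv => ?_, fun v hv => ?_⟩
  · rw [hke v]
    exact if_pos hv
  · rw [hke v]
    exact if_neg hv

variable {lt cl : U → U → Prop}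

private theorem lin_eqv (h : Lin L H E lt) {a b : U} (ha : a ∈ E) (hb : b ∈ E) (h1 : ¬ lt a b)
    (h2 : ¬ lt b a) {c : U} (hc : c ∈ E) : (lt a c ↔ lt b c) ∧ (lt c a ↔ lt c b) := by
  refine ⟨⟨fun h3 => ?_, fun h3 => ?_⟩, ⟨fun h3 => ?_, fun h3 => ?_⟩⟩
  · exact (h.neg a ha b hb c hc h3).resolve_left h1
  · exact (h.neg b hb a ha c hc h3).resolve_left h2
  · exact (h.neg c hc b hb a ha h3).resolve_right h2
  · exact (h.neg c hc a ha b hb h3).resolve_right h1

private theorem lin_case (hM : Mon L U) (h : Lin L H E lt) {y : U} (hy : y ∈ E)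
    (hK : K = {v | v ∈ E ∧ ¬ lt y v ∧ ¬ lt v y}) :
    (H.Finite ∧ Disjoint H K ∧ y ∈ K) ∧ (∀ v ∈ K, Clu L H K v) ∧
    (∀ g : U ≃[L] U, Fx L H g → g y ∈ K → ∀ v, g v ∈ K ↔ v ∈ K) ∧
    ∀ g : U ≃[L] U, Nx L H g → g y ∈ K →
      ∃ k : U ≃[L] U, Nx L H k ∧ (∀ v ∈ K, k v = g v) ∧ ∀ v, v ∉ K → k v = v := by
  classical
  have hKE : K ⊆ E := by
    rw [hK]
    exact fun v hv => hv.1
  have hm : ∀ v, v ∈ K ↔ v ∈ E ∧ ¬ lt y v ∧ ¬ lt v y := fun v => by rw [hK]; rfl
  have hyK : y ∈ K := (hm y).2 ⟨hy, h.irr y hy, h.irr y hy⟩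
  obtain ⟨-, hdis, -⟩ := q_LOB L U hM H E lt h
  have inv : ∀ g : U ≃[L] U, Fx L H g → g y ∈ K → ∀ v, g v ∈ K ↔ v ∈ K := by
    intro g hg hgy v
    obtain ⟨h1, h2, h3⟩ := (hm _).1 hgy
    rw [hm, hm]
    constructor
    · rintro ⟨a1, a2, a3⟩
      have hv : v ∈ E := (h.fxE g hg v).1 a1
      refine ⟨hv, fun h4 => ?_, fun h4 => ?_⟩
      · exact a2 ((lin_eqv h hy h1 h2 h3 a1).1.2 ((h.fxl g hg y hy v hv).2 h4))
      · exact a3 ((lin_eqv h hy h1 h2 h3 a1).2.2 ((h.fxl g hg v hv y hy).2 h4))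
    · rintro ⟨a1, a2, a3⟩
      have hv : g v ∈ E := (h.fxE g hg v).2 a1
      refine ⟨hv, fun h4 => ?_, fun h4 => ?_⟩
      · exact a2 ((h.fxl g hg y hy v a1).1 ((lin_eqv h hy h1 h2 h3 hv).1.1 h4))
      · exact a3 ((h.fxl g hg v a1 y hy).1 ((lin_eqv h hy h1 h2 h3 hv).2.1 h4))
  have hsame : ∀ v ∈ K, ∀ w, w ∈ E → ¬ lt v w → ¬ lt w v → w ∈ K := by
    intro v hv w hw h1 h2
    obtain ⟨a1, a2, a3⟩ := (hm v).1 hv
    refine (hm w).2 ⟨hw, fun h3 => ?_, fun h3 => ?_⟩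
    · exact h1 ((lin_eqv h hy a1 a2 a3 hw).1.1 h3)
    · exact h2 ((lin_eqv h hy a1 a2 a3 hw).2.1 h3)
  have hin : ∀ v ∈ K, ∀ w ∈ K, ¬ lt v w := by
    intro v hv w hw h3
    obtain ⟨a1, a2, a3⟩ := (hm v).1 hv
    obtain ⟨b1, b2, b3⟩ := (hm w).1 hw
    exact b2 ((lin_eqv h hy a1 a2 a3 b1).1.2 h3)
  refine ⟨⟨h.fin, hdis.mono_right hKE, hyK⟩, ?_, inv, ?_⟩
  · intro v hv
    refine Or.inl ⟨E, lt, h, hKE hv, ?_⟩
    ext w
    constructor
    · intro hw
      exact ⟨hKE hw, hin v hv w hw, hin w hw v hv⟩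
    · rintro ⟨h1, h2, h3⟩
      exact hsame v hv w h1 h2 h3
  · intro g hg hgy
    have hgK := inv g hg.1 hgy
    refine glk_core h.bq hKE g hgK ?_
    intro F hF hFE
    refine q_LGR L U hM H E lt h F (fun x => if x ∈ K then g x else x) hF hFE ?_ ?_ ?_
    · intro x hx
      by_cases hxK : x ∈ K
      · rw [if_pos hxK]
        exact (h.fxE g hg.1 x).2 (hFE hx)
      · rw [if_neg hxK]
        exact hFE hx
    · intro x hx z hz hxz
      have hxE := hFE hx
      have hzE := hFE hz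
      by_cases hxK : x ∈ K
      · by_cases hzK : z ∈ K
        · exact absurd hxz (hin x hxK z hzK)
        · rw [if_pos hxK, if_neg hzK]
          have hgx : g x ∈ K := (hgK x).2 hxK
          exact (lin_eqv h hxE (hKE hgx) (hin x hxK _ hgx) (hin _ hgx x hxK) hzE).1.1 hxz
      · by_cases hzK : z ∈ K
        · rw [if_neg hxK, if_pos hzK]
          have hgz : g z ∈ K := (hgK z).2 hzK
          exact (lin_eqv h hzE (hKE hgz) (hin z hzK _ hgz) (hin _ hgz z hzK) hxE).2.1 hxz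
        · rw [if_neg hxK, if_neg hzK]
          exact hxz
    · intro x hx
      by_cases hxK : x ∈ K
      · refine ⟨g, hg, fun z hz h1 h2 => ?_⟩
        rw [if_pos (hsame x hxK z (hFE hz) h1 h2)]
      · refine ⟨FirstOrder.Language.Equiv.refl L U, Pool.Agent.MNO.nx_refl H,
          fun z hz h1 h2 => ?_⟩
        have hzK : z ∉ K := fun hzK => hxK (hsame z hzK x (hFE hx) h2 h1)
        rw [if_neg hzK]
        rfl

private theorem fre_case (hM : Mon L U) (h : Fre L H E cl) {y : U} (hy : y ∈ E)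
    (hK : K = {v | v ∈ E ∧ cl y v}) :
    (H.Finite ∧ Disjoint H K ∧ y ∈ K) ∧ (∀ v ∈ K, Clu L H K v) ∧
    (∀ g : U ≃[L] U, Fx L H g → g y ∈ K → ∀ v, g v ∈ K ↔ v ∈ K) ∧
    ∀ g : U ≃[L] U, Nx L H g → g y ∈ K →
      ∃ k : U ≃[L] U, Nx L H k ∧ (∀ v ∈ K, k v = g v) ∧ ∀ v, v ∉ K → k v = v := by
  classical
  have hKE : K ⊆ E := by
    rw [hK]
    exact fun v hv => hv.1
  have hm : ∀ v, v ∈ K ↔ v ∈ E ∧ cl y v := fun v => by rw [hK]; rfl
  have hyK : y ∈ K := (hm y).2 ⟨hy, h.rfl y hy⟩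
  obtain ⟨hdis, -, -, hglu, -, -⟩ := q_FOB L U hM H E cl h
  have hin : ∀ v ∈ K, ∀ w ∈ K, cl v w := by
    intro v hv w hw
    exact h.tra v (hKE hv) y hy w (hKE hw) (h.sym y hy v (hKE hv) ((hm v).1 hv).2) ((hm w).1 hw).2
  have hsame : ∀ v ∈ K, ∀ w, w ∈ E → cl v w → w ∈ K := by
    intro v hv w hw h1
    exact (hm w).2 ⟨hw, h.tra y hy v (hKE hv) w hw ((hm v).1 hv).2 h1⟩
  have inv : ∀ g : U ≃[L] U, Fx L H g → g y ∈ K → ∀ v, g v ∈ K ↔ v ∈ K := by
    intro g hg hgy v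
    constructor
    · intro hv
      have hvE : v ∈ E := (h.fxE g hg v).1 (hKE hv)
      exact (hm v).2 ⟨hvE, (h.fxc g hg y hy v hvE).1 (hin _ hgy _ hv)⟩
    · intro hv
      refine hsame _ hgy _ ((h.fxE g hg v).2 (hKE hv)) ?_
      exact (h.fxc g hg y hy v (hKE hv)).2 ((hm v).1 hv).2
  refine ⟨⟨h.fin, hdis.mono_right hKE, hyK⟩, ?_, inv, ?_⟩
  · intro v hv
    refine Or.inr ⟨E, cl, h, hKE hv, ?_⟩
    ext w
    constructor
    · intro hw
      exact ⟨hKE hw, hin v hv w hw⟩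
    · rintro ⟨h1, h2⟩
      exact hsame v hv w h1 h2
  · intro g hg hgy
    have hgK := inv g hg.1 hgy
    refine glk_core h.bq hKE g hgK ?_
    intro F hF hFE
    refine hglu F (fun x => if x ∈ K then g x else x) hF hFE ?_ ?_ ?_
    · intro x hx
      by_cases hxK : x ∈ K
      · rw [if_pos hxK]
        exact (h.fxE g hg.1 x).2 (hFE hx)
      · rw [if_neg hxK]
        exact hFE hx
    · intro x hx z hz
      have hxE := hFE hx
      have hzE := hFE hz
      by_cases hxK : x ∈ K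
      · by_cases hzK : z ∈ K
        · exact fun _ => hin x hxK z hzK
        · rw [if_pos hxK, if_neg hzK]
          have hgx : g x ∈ K := (hgK x).2 hxK
          exact fun h1 => absurd (hsame _ hgx z hzE h1) hzK
      · by_cases hzK : z ∈ K
        · rw [if_neg hxK, if_pos hzK]
          have hgz : g z ∈ K := (hgK z).2 hzK
          exact fun h1 => absurd (hsame _ hgz x hxE (h.sym x hxE _ (hKE hgz) h1)) hxK
        · rw [if_neg hxK, if_neg hzK]
          exact id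
    · intro x hx
      by_cases hxK : x ∈ K
      · refine ⟨g, hg, fun z hz h1 => ?_⟩
        rw [if_pos (hsame x hxK z (hFE hz) h1)]
      · refine ⟨FirstOrder.Language.Equiv.refl L U, Pool.Agent.MNO.nx_refl H,
          fun z hz h1 => ?_⟩
        have hzK : z ∉ K := fun hzK => hxK (hsame z hzK x (hFE hx)
          (h.sym x (hFE hx) z (hFE hz) h1))
        rw [if_neg hzK]
        rfl

end

/-- [GLK] gluing on a cluster -/
theorem thm_GLK : St_GLK := by
  intro L U _ hM H K y hc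
  rcases hc with ⟨E, lt, h, hy, hK⟩ | ⟨E, cl, h, hy, hK⟩
  · exact lin_case hM h hy hK
  · exact fre_case hM h hy hK

end Pool.Agent.TPC
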