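import Pool.Agent.TPC.StC

/-!
TPC, module RCH: rich models.
-/

set_option autoImplicit false
set_option linter.unusedVariables false

namespace Pool.Agent.TPC

open FirstOrder.Language Set
open scoped FirstOrder
open Pool.Agent.WOM (tp Mon IsEl IsoM CtU Fx Orb Isd)
open Pool.Agent.PMC (Sm Md NPf)
open Pool.Agent.MNO (Dp FE Sq Nx SmN FE1 FinN)

theorem thm_RCH (hFEQ : St_FEQ) : St_RCH := by
  intro L U _ hMon A hA
  obtain ⟨h1, h2, h3, h4, h5, h6, h7, h8, h9⟩ := hFEQ L U hMon A hA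
  have hid : Fx L A (FirstOrder.Language.Equiv.refl L U) := fun a _ => rfl
  refine ⟨⟨⟨fun s _ hs => by rwa [Set.inter_univ], Set.subset_univ A⟩, fun x F hF => ?_⟩, ?_⟩
  · exact ⟨x, Set.mem_univ x, ⟨_, hid, rfl⟩, hF.eqv.refl (fun _ : Fin 1 => x)⟩
  · intro B M hAB hM
    have hMd : Md L A M := ⟨hM.1.1, hAB.trans hM.1.2⟩
    refine ⟨hMd, fun x F hF => ?_⟩
    obtain ⟨w, hwM, hw⟩ := h7 F hF M hMd x
    obtain ⟨y, hyM, g, hg, hgx⟩ := hM.2 (insert w A) (hA.insert w)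
      (Set.insert_subset hwM hMd.2) x
    have hgA : Fx L A g := fun a ha => hg a (Set.mem_insert_of_mem w ha)
    refine ⟨y, hyM, ⟨g, hgA, hgx⟩, ?_⟩
    have hgw : g w = w := hg w (Set.mem_insert w A)
    have h10 := (h6 F hF g hgA x w).2 hw
    rw [hgx, hgw] at h10
    have h11 := hF.eqv.symm (x := fun _ : Fin 1 => y) (y := fun _ : Fin 1 => w) h10
    exact hF.eqv.trans (x := fun _ : Fin 1 => x) (y := fun _ : Fin 1 => w)
      (z := fun _ : Fin 1 => y) hw h11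

end Pool.Agent.TPC
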