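import Pool.Agent.TPC.Defs

/-!
TPC: statements of the first part (helper47), with proofs in the docstrings: unions of pieces over a finite
set in the countable saturated model `U`.

Tools: `Pool/Agent/MNO/Kit.lean` (`Dp L A P`: definable properties of tuples; `dp_..`), `Pool/Agent/MNO/NBase.lean`
(`fe_inter`, `fe_inf`, `fe_sub`, `fe_def`, `fe_of_dp`, `sq_..`, `nx_sq`, `nx_refl`, `nx_symm`, `nx_comp`,
`nx_mono`, `nx_conj`, `nx_conj_fx`, `nx_of_sq`, `nx_fe`, `fe_meets`, `nx_meets`, `STG.exists_equiv`: a bijection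
which is locally an automorphism is one).  `g.comp h` is `g ∘ h`.
-/

set_option autoImplicit false
set_option linter.unusedVariables false

namespace Pool.Agent.TPC

open FirstOrder.Language Set
open scoped FirstOrder
open Pool.Agent.WOM (tp Mon IsEl IsoM CtU Fx Orb Isd)
open Pool.Agent.PMC (Sm Md NPf)
open Pool.Agent.MNO (Dp FE Sq Nx SmN FE1 FinN)

/-- [BND] A definable finite equivalence relation which is invariant under `Nx A` on the orbit of `x` under
`Nx A` is trivial there.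
PROOF.  `O` = the set of the `g x`, `g` in `Nx A`.
(1) There are `E1` with `FE A E1` (on `α`-tuples) and `E2` with `FE A E2` (on `α ⊕ α`-tuples) such that for all
`u, v, u', v'` in the `E1`-class of `x` with `E2 (u v) (u' v')`: `E u v → E u' v'`.  Otherwise by saturation over
`B ∪ range x` (variables `u, v, u', v'`, i.e. `(α ⊕ α) ⊕ (α ⊕ α)`; the family of all conditions `E1 x u`, `E1 x v`,
`E1 x u'`, `E1 x v'`, `E2 (u v) (u' v')`, and `E u v`, `¬ E u' v'`; finite subfamilies: `fe_inf`, `fe_inter`) there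
are `u, v, u', v'` in `O` (`nx_of_sq`) with `Sq A (u v) (u' v')`, `E u v`, `¬ E u' v'`; `nx_of_sq` gives `k` in `Nx A`
with `k u = u'`, `k v = v'`: contradiction to the hypothesis.
(2) `C u := E1 x u`, `F u v := (C u ∧ C v ∧ E u v) ∨ (¬ C u ∧ ¬ C v)`: an equivalence relation with finitely many
classes, definable over the finite set `B' = B ∪ range x`, preserved by all `k` in `Nx A` (`C (k u) ↔ C u` as
`E1 u (k u)`; `E2 (u v) (k u k v)`).
(3) `F = T b` for a family `T` of relations, definable over `∅`, and an enumeration `b : Fin m → U` of `B'`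
(`dp_fam` or the like).  `D = {b' | ∀ u v, T b' u v ↔ T b u v}` is definable over `B'` and invariant under
`Nx A`: for `b' ∈ D`, `k` in `Nx A`: `T (k b') (k u) (k v)` iff `T b' u v` iff `F u v` iff `F (k u) (k v)`.  `nx_fe`:
`E3` with `FE A E3` such that `E3 b b' → b' ∈ D`.
(4) `F* u v := ∀ g, Fx A g → F (g u) (g v)`.  `F (g u) (g v)` iff `T (g⁻¹ b) u v`; if `E3 (g⁻¹ b) (h⁻¹ b)` then
`E3 b (g (h⁻¹ b))` (`E3` is invariant under automorphisms over `A`), so `T (g (h⁻¹ b)) = T b`,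
`T (h⁻¹ b) = T (g⁻¹ b)`.  So `F*` is the conjunction of finitely many `F (g_i u) (g_i v)`: an equivalence relation
with finitely many classes, definable over a finite set, invariant under all automorphisms over `A`, so
definable over `A` (`def_of_fix` or its version for tuples): `FE A F*`.  So `F* x (g x)`, `F x (g x)`, and
`C x`: `E x (g x)`. -/
def St_BND : Prop :=
  ∀ (L : FirstOrder.Language.{0, 0}) (U : Type) [L.Structure U], Mon L U → ∀ (α : Type) [Finite α]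
    (A B : Set U) (E : (α → U) → (α → U) → Prop) (x : α → U), A.Finite → B.Finite → FE L B E →
    (∀ g h k : U ≃[L] U, Nx L A g → Nx L A h → Nx L A k →
      E (fun i => g (x i)) (fun i => h (x i)) → E (fun i => k (g (x i))) (fun i => k (h (x i)))) →
    ∀ g : U ≃[L] U, Nx L A g → E x (fun i => g (x i))

/-- [OFQ] Strong types inside `Q` are not split by points outside of `Q`, and unions of pieces over `A` are
unions of pieces over `A' ⊇ A`.
PROOF.  (1) Let `α := S` (a finite type), `x` the inclusion; we show `Sq (A ∪ W) x (g x)`; then `nx_of_sq`.  Let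
`FE (A ∪ W) E`.  BND for `E`, `B := A ∪ W`: let `g, h, k` be in `Nx A`, `E (g x) (h x)`; glue `k` on `Q`: `k'` is `k` on `Q`
and the identity elsewhere, so it fixes `A ∪ W` (on `A` both are the identity), so it preserves `E`, and
`k' (g x) = k (g x)`, `k' (h x) = k (h x)` (`g x`, `h x` are in `Q`).
(2) Let `h = g` on `Q`, the identity elsewhere.  `h` fixes `A ∪ W`.  Let `y : Fin n → U`, `α` the `i` with `y i ∈ Q`,
`V` the set of the other `y i`: (1) for `W ∪ V`: `k` in `Nx (A ∪ W ∪ V)` with `k = g = h` on the `y i ∈ Q` and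
`k = id = h` on the others: `Sq (A ∪ W) y (h y)` (`nx_sq`, `nx_mono`).
(3) `inv`: `Nx A' g` implies `Nx A g` (`nx_mono`).  `glu`: let `Nx A' g`, `h` from `glu` over `A`; `h` fixes `A'` (`g` does).
Let `y : Fin n → U` and `FE A' E`; show `E y (h y)`.  Let `α` = the `i` with `y i ∈ Q`, `u = y|α`, `v` = the rest of
`y`, `E_v u1 u2 := E (u1, v) (u2, v)`: `FE (A' ∪ range v) E_v`.  BND over `A'` for `E_v`, `u`: for `g1, g2, k` in
`Nx A'` glue `k` on `Q` (over `A`): `k'` fixes `A'` and `v`, is `k` on `Q`; it preserves `E`.  So `E_v u (g u)`. -/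
def St_OFQ : Prop :=
  St_BND →
  ∀ (L : FirstOrder.Language.{0, 0}) (U : Type) [L.Structure U], Mon L U → ∀ (A Q : Set U), A.Finite →
    Bq L A Q →
    (∀ W : Set U, W.Finite → Disjoint W Q → ∀ g : U ≃[L] U, Nx L A g → ∀ S : Set U, S.Finite →
      S ⊆ Q → ∃ h : U ≃[L] U, Nx L (A ∪ W) h ∧ ∀ x ∈ S, h x = g x) ∧
    (∀ W : Set U, W.Finite → Disjoint W Q → ∀ g h : U ≃[L] U, Nx L A g → (∀ x ∈ Q, h x = g x) →
      (∀ x, x ∉ Q → h x = x) → Nx L (A ∪ W) h) ∧
    ∀ A' : Set U, A'.Finite → A ⊆ A' → Bq L A' Q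

/-- [ALQ] The complete Boolean algebra of the unions of pieces.
PROOF.  (1) clear.  (2) `inv` clear; `glu` for `Qᶜ`: `h⁻¹ ∘ g` where `h` is the gluing of `g` on `Q` (on `Q`:
`h (g.symm ..)`: `h x = g x`, so `(g⁻¹ h) x = x`; take `g ∘ h⁻¹`: for `x ∈ Q`: `h⁻¹ x ∈ Q` and `g (h⁻¹ x) = h (h⁻¹ x) =
x`; for `x ∉ Q`: `h⁻¹ x = x`, so it is `g x`).
(3) First `Q1 ∩ Q2`: glue `g` on `Q1`, the result on `Q2`.  So finite intersections.  Let `Q = ⋂₀ 𝒬`, `g` in `Nx A`,
`e x = g x` for `x ∈ Q`, `e x = x` otherwise: a bijection (`g` maps `Q` onto `Q`).  For a finite set `s` there is a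
finite subset `𝒬'` of `𝒬` such that all points of `s \ Q` are outside of `⋂₀ 𝒬'`; the gluing of `g` on `⋂₀ 𝒬'` is an
automorphism in `Nx A` which agrees with `e` on `s`.  So `e` is an automorphism (`STG.exists_equiv`) in `Nx A`.
(4) from (2), (3).
(5) `Pq A x = ⋂₀ {Q | Bq A Q ∧ x ∈ Q}`: (⊆) clear; (⊇) if `y` is in all these `Q` and `Bq A Q`, then `x ∈ Q → y ∈ Q`,
and `x ∉ Q` gives `x ∈ Qᶜ`, `y ∈ Qᶜ`.  (6) clear from the definition.  (7) `x ∈ R → Pq A x ⊆ R`; otherwise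
`R ⊆ Pq A x ∩ Rᶜ`. (8), (9) from the definition (an equivalence relation).  (10) OFQ (3). -/
def St_ALQ : Prop :=
  St_OFQ → St_BND →
  ∀ (L : FirstOrder.Language.{0, 0}) (U : Type) [L.Structure U], Mon L U → ∀ (A : Set U), A.Finite →
    (Bq L A (∅ : Set U) ∧ Bq L A (univ : Set U)) ∧
    (∀ Q, Bq L A Q → Bq L A Qᶜ) ∧
    (∀ 𝒬 : Set (Set U), (∀ Q ∈ 𝒬, Bq L A Q) → Bq L A (⋂₀ 𝒬)) ∧
    (∀ 𝒬 : Set (Set U), (∀ Q ∈ 𝒬, Bq L A Q) → Bq L A (⋃₀ 𝒬)) ∧
    (∀ x, Bq L A (Pq L A x) ∧ x ∈ Pq L A x) ∧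
    (∀ x Q, Bq L A Q → x ∈ Q → Pq L A x ⊆ Q) ∧
    (∀ x R, Bq L A R → R ⊆ Pq L A x → R.Nonempty → R = Pq L A x) ∧
    (∀ x, ∀ y ∈ Pq L A x, Pq L A y = Pq L A x) ∧
    (∀ x y, y ∉ Pq L A x → Disjoint (Pq L A x) (Pq L A y)) ∧
    ∀ A' : Set U, A'.Finite → A ⊆ A' → ∀ x, Pq L A' x ⊆ Pq L A x

/-- [NNQ] A piece over `A` which misses the finite set `W` is a piece over `A ∪ W`.
PROOF.  `P = Pq A x`, `R = Pq (A ∪ W) x ⊆ P` (ALQ (10)).  We show `Bq A R`; then ALQ (7).  `inv`: let `g` be in `Nx A`.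
For `y ∈ R`: OFQ (1) for `P`, `W`, `S = {y}`: `h` in `Nx (A ∪ W)` with `h y = g y`, so `g y ∈ R`.  The same for `g⁻¹`.
`glu`: let `e x = g x` on `R`, `e x = x` elsewhere (a bijection).  It is enough to find for every finite set `s` an
automorphism `k` in `Nx A` which agrees with `e` on `s` (`STG.exists_equiv`).  `S1 = s ∩ R`, `S3 = s \ P`.  OFQ (1)
for `P` and `W ∪ S3`: `t` in `Nx (A ∪ (W ∪ S3))` with `t = g` on `S1`.  `Bq (A ∪ (W ∪ S3)) R` (OFQ (3) over `A ∪ W`):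
glue `t` on `R`: `k`, it is `g` on `S1` and the identity outside of `R`. -/
def St_NNQ : Prop :=
  St_OFQ → St_ALQ → St_BND →
  ∀ (L : FirstOrder.Language.{0, 0}) (U : Type) [L.Structure U], Mon L U → ∀ (A W : Set U) (x : U),
    A.Finite → W.Finite → Disjoint W (Pq L A x) → Pq L (A ∪ W) x = Pq L A x

/-- [IMQ] Images under automorphisms.
PROOF.  (1) For `g'` in `Nx (g '' A)` the automorphism `g⁻¹ g' g` is in `Nx A` (`nx_conj` for `g.symm`,
`g.symm '' (g '' A) = A`); glue it on `Q` and conjugate back.  (2) from (1) and the definition of `Pq` (`Bq` sets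
over `A` and over `g '' A` correspond).  (3) `g '' A = A` pointwise. -/
def St_IMQ : Prop :=
  ∀ (L : FirstOrder.Language.{0, 0}) (U : Type) [L.Structure U], Mon L U → ∀ (A : Set U), A.Finite →
    (∀ (g : U ≃[L] U) (Q : Set U), Bq L A Q → Bq L (g '' A) (g '' Q)) ∧
    (∀ (g : U ≃[L] U) (x : U), g '' Pq L A x = Pq L (g '' A) (g x)) ∧
    ∀ (g : U ≃[L] U), Fx L A g → ∀ x, g '' Pq L A x = Pq L A (g x)

/-- [GLQ] Gluing of finitely many automorphisms on disjoint unions of pieces.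
PROOF.  Induction on `n` (compose the gluings; compare `Pool/Agent/MNO/PRF.lean`). -/
def St_GLQ : Prop :=
  ∀ (L : FirstOrder.Language.{0, 0}) (U : Type) [L.Structure U], Mon L U → ∀ (A : Set U), A.Finite →
    ∀ (n : ℕ) (Q : Fin n → Set U), (∀ m, Bq L A (Q m)) → (∀ m m', m ≠ m' → Disjoint (Q m) (Q m')) →
    ∀ g : Fin n → (U ≃[L] U), (∀ m, Nx L A (g m)) →
    ∃ h : U ≃[L] U, Nx L A h ∧ (∀ m, ∀ x ∈ Q m, h x = g m x) ∧ ∀ x, (∀ m, x ∉ Q m) → h x = x

/-- [SMQ] Calculus of `SmN` and `Sm`.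
PROOF.  Adapt `Pool/Agent/MNO/SMN.lean` and `Pool/Agent/MNO/SMB.lean` (`Cls` is replaced by `Bq`, `Pc` by `Pq`).  (6)
let `e_P` be bijections of `M ∩ P` and `M' ∩ P` for every piece `P` over `A` contained in `Q`; their union is a
bijection of `M ∩ Q` and `M' ∩ Q`.  A finite set `s` meets finitely many pieces; automorphisms in `Nx A` for the
intersections; GLQ.  (7) `Sm ∅` implies `IsoM`.  (8) `Sm` and `SmN` transfer `IsEl`: let `e : X ≃ Y` be locally an
automorphism over `A`, `IsEl X`: if `Y`-definable `s` is nonempty, `s` is definable over a finite subset `e '' C` of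
`Y`; `g` for `C`: `g⁻¹ '' s` is `C`-definable, so it contains `x ∈ X`; `g'` for `C ∪ {x}`: `g' '' (g⁻¹ '' s) = s`
(`g'⁻¹ g` fixes ... `g'` and `g` agree on `C`), so `e x = g' x ∈ s`. -/
def St_SMQ : Prop :=
  St_GLQ → St_ALQ → St_OFQ → St_BND →
  ∀ (L : FirstOrder.Language.{0, 0}) (U : Type) [L.Structure U], Mon L U →
    (∀ A X : Set U, SmN L A X X) ∧
    (∀ A X Y : Set U, SmN L A X Y → SmN L A Y X) ∧
    (∀ A X Y Z : Set U, SmN L A X Y → SmN L A Y Z → SmN L A X Z) ∧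
    (∀ A X Y Q : Set U, (∀ g : U ≃[L] U, Nx L A g → ∀ x, g x ∈ Q ↔ x ∈ Q) → SmN L A X Y →
      SmN L A (X ∩ Q) (Y ∩ Q)) ∧
    (∀ A B X Y : Set U, A ⊆ B → SmN L B X Y → SmN L A X Y ∧ Sm L A X Y) ∧
    (∀ A Q M M' : Set U, A.Finite → Bq L A Q →
      (∀ z ∈ Q, SmN L A (M ∩ Pq L A z) (M' ∩ Pq L A z)) → SmN L A (M ∩ Q) (M' ∩ Q)) ∧
    (∀ X Y : Set U, SmN L ∅ X Y → IsoM L X Y) ∧
    (∀ A X Y : Set U, A.Finite → A ⊆ X → Sm L A X Y → IsEl L X → Md L A Y) ∧
    ∀ A X Y Z : Set U, Sm L A X Y → Sm L A Y X ∧ (Sm L A Y Z → Sm L A X Z)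

end Pool.Agent.TPC
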