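import Pool.Agent.TPC.StA

/-!
TPC: statements of the second part (helper47), with proofs in the docstrings: pieces are closed in orbits; in a
structure without perfect families of submodels only finitely many pieces over a finite set meet an orbit (`Fcp`);
models may be chosen piece by piece.
-/

set_option autoImplicit false
set_option linter.unusedVariables false

namespace Pool.Agent.TPC

open FirstOrder.Language Set
open scoped FirstOrder
open Pool.Agent.WOM (tp Mon IsEl IsoM CtU Fx Orb Isd)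
open Pool.Agent.PMC (Sm Md NPf)
open Pool.Agent.MNO (Dp FE Sq Nx SmN FE1 FinN)

/-- [FEQ] finite equivalence relations on `U`.
PROOF.  As `Pool/Agent/MNO/FE1.lean` (`thm_FE1`; no order is used there).  (1)-(6) as there (5: `fe_def`; 6: `dp_fx`).
(7) `fe_meets`.  (8) saturation over `insert w C` for the family of the `C`-definable sets which contain `y` and the
sets `{v | F w v}`, `FE1 A F`; finitely many have a common point by the hypothesis (intersections of `FE1` are `FE1`,
`Orb C y` is contained in all `C`-definable sets which contain `y`); the point `v` is in `Orb C y` (`conj_of_def`), and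
(4) for `w`, `v`.  (9) `⋃` of the classes: the set `{w | ∃ y ∈ Y, F w y}` is the union of the classes of finitely many
points of `Y`, so it is definable over a finite set; it is invariant under `Fx C` if `Y` is (6), so `C`-definable
(`def_of_fix`). -/
def St_FEQ : Prop :=
  ∀ (L : FirstOrder.Language.{0, 0}) (U : Type) [L.Structure U], Mon L U → ∀ (A : Set U), A.Finite →
    (FE1 L A (fun _ _ : U => True)) ∧
    (∀ F F' : U → U → Prop, FE1 L A F → FE1 L A F' → FE1 L A (fun x y => F x y ∧ F' x y)) ∧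
    (∀ F : U → U → Prop, FE1 L A F → ∀ g : U ≃[L] U, Nx L A g → ∀ x, F x (g x)) ∧
    (∀ x y : U, (∀ F : U → U → Prop, FE1 L A F → F x y) → ∃ g : U ≃[L] U, Nx L A g ∧ g x = y) ∧
    (∀ F : U → U → Prop, FE1 L A F → ∀ x, (insert x A).Definable₁ L {y | F x y}) ∧
    (∀ F : U → U → Prop, FE1 L A F → ∀ g : U ≃[L] U, Fx L A g → ∀ x y, F (g x) (g y) ↔ F x y) ∧
    (∀ F : U → U → Prop, FE1 L A F → ∀ M, Md L A M → ∀ x, ∃ y ∈ M, F x y) ∧
    (∀ (C : Set U) (y w : U), C.Finite → A ⊆ C →
      (∀ F : U → U → Prop, FE1 L A F → ∃ v ∈ Orb L C y, F w v) →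
      ∃ v ∈ Orb L C y, ∃ g : U ≃[L] U, Nx L A g ∧ g w = v) ∧
    ∀ (F : U → U → Prop) (C Y : Set U), FE1 L A F → C.Finite → A ⊆ C →
      (∀ g : U ≃[L] U, Fx L C g → ∀ y ∈ Y, g y ∈ Y) → C.Definable₁ L {w | ∃ y ∈ Y, F w y}

/-- [SEQ] PROOF.  For each of the countably many pairs `(u, v)` of points not conjugate under `Nx A` choose `F` with
`FE1 A F`, not `F u v` (FEQ (4)); enumerate them (with the trivial relation, FEQ (1), in between), `E n` = the
conjunction of the first `n` of them (FEQ (2)). -/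
def St_SEQ : Prop :=
  St_FEQ → ∀ (L : FirstOrder.Language.{0, 0}) (U : Type) [L.Structure U], Mon L U → ∀ (A : Set U),
    A.Finite → ∃ E, Seq L A E

/-- [NEA] near points are conjugate by automorphisms which preserve given classes.
PROOF.  Let `s : Fin r → U` be representatives of the classes of `F`.  `H` = the set of the `g` over `A` with `F u (g u)`
for all `u`; `g ∈ H` iff `F (s i) (g (s i))` for all `i` (FEQ (6)); `H` is closed under composition and inverses.
(1) There is a finite `t ⊆ Orb A x` such that every `w ∈ Orb A x` is `h w'` with `w' ∈ t`, `h ∈ H`: for `w` choose `h_w`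
over `A` with `h_w x = w`; there are finitely many functions `Fin r → Fin r` (`i ↦` the class of `h_w (s i)`), and if
`w, w'` have the same function then `h_w' ∘ h_w⁻¹ ∈ H` maps `w` to `w'`.
(2) For `w' ∈ t` which is not `h x` for any `h ∈ H` there is a set `D`, definable over a finite set, which contains
all `h x`, `h ∈ H`, and no `h w'`, `h ∈ H`: for an `A`-definable property `P` of `(v, s')` let
`D_P = {w | ∃ s', (∀ i, F (s i) (s' i)) ∧ P (w, s')}` (definable over `A ∪ range s`).  If `D_P ∩ D_P' ≠ ∅` for all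
`P` true for `(x, s)` and all `P'` true for `(w', s)` then by saturation over `A ∪ range s` there is `w` in all of
them (the `P` are closed under conjunction), and by saturation and homogeneity (`dp_sat`, `dp_hom`) there are `g, g'`
over `A` with `g x = w`, `F (s i) (g (s i))` and `g' w' = w`, `F (s i) (g' (s i))`: `g, g' ∈ H` and `w' = g'⁻¹ (g x)`:
contradiction.  So some `D_P` misses some `D_P'`; all `h x` are in `D_P`, all `h w'` in `D_P'` (`s' = h ∘ s`).
(3) The intersection `D` of these `D`: `w ∈ Orb A x ∩ D` implies `w = h x` for some `h ∈ H`.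
(4) If no `F'` works: saturation over a finite set (with `A`, `x` and parameters of `D`) for the sets `{w | F' x w}`
(`FE1 A F'`), the `A`-definable sets which contain `x`, and `Dᶜ` (for `F'` there is `w ∈ Orb A x` with `F' x w`, not
`h x`, so not in `D`; finite intersections FEQ (2)) gives `w ∉ D`, with `F' x w` for all `F'`, so `w = g x` with `g` in
`Nx A` (FEQ (4)); `g ∈ H` (FEQ (3)), so `w ∈ D`: contradiction.
(5) For arbitrary `y ∈ Orb A x`: `y = k x`; conjugate with `k` (`k ∘ g ∘ k⁻¹`; FEQ (6)). -/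
def St_NEA : Prop :=
  St_FEQ → ∀ (L : FirstOrder.Language.{0, 0}) (U : Type) [L.Structure U], Mon L U → ∀ (A : Set U)
    (x : U) (F : U → U → Prop), A.Finite → FE1 L A F →
    ∃ F' : U → U → Prop, FE1 L A F' ∧ ∀ y ∈ Orb L A x, ∀ w ∈ Orb L A x, F' y w →
      ∃ g : U ≃[L] U, Fx L A g ∧ (∀ u, F u (g u)) ∧ g y = w

/-- [CLQ] pieces are closed in orbits.
PROOF.  `p = Orb A x`.  For `z ∈ p` let `S n z` be the set of the `v ∈ p` such that `E n v y` for some
`y ∈ Pq A z ∩ p`.  `g '' S n z = S n (g z)` for `g` over `A` (IMQ (3), FEQ (6)); `S n z = S n z'` if `z' ∈ Pq A z` (ALQ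
(8)).  `S n z ⊆ S n' z` for `n' ≤ n`.
(0) For every `F` with `FE1 A F` there is `n` with `E n u v → F u v` for all `u, v`: otherwise (`F` has finitely many
classes, `E n` decreasing) fix `u` among finitely many representatives of the classes of ... : directly, suppose
`E n (u n) (v n)`, not `F (u n) (v n)` for all `n`; saturation for the pair `(u, v)` over `A` (`dp_sat`: the properties
`E n u v` and `¬ F u v`) gives `u, v` with `E n u v` for all `n`, not `F u v`; `Seq.inf` and FEQ (3).
(b) If `w ∈ p` is in `S n z` for all `n` (`z ∈ p`) then `S n w = S n z` for all `n`: let `n` be given, `F'` from NEA for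
`E n`, `m ≥ n` with `E m ⊆ F'` (0).  `w ∈ S m z`: `y ∈ Pq A z ∩ p` with `E m w y`; NEA: `g` over `A` with `E n u (g u)` for all
`u`, `g y = w`.  `S n w = g '' S n y = S n y = S n z`.
(c) For `z ∈ p` there are `y ∈ Pq A z ∩ p`, `m` and `u ∈ U` such that for all `m' ≥ m` and all `y' ∈ Pq A z ∩ p` with
`E m y y'` there is `v ∈ Orb (insert z A) u` with `E m' y' v`.  Otherwise let `U = {u 0, u 1, ..}` and choose
`y 0 = z`, `m 0 = 0`, `y (i+1) ∈ Pq A z ∩ p`, `m (i+1) > m i` with `E (m i) (y i) (y (i+1))` and no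
`v ∈ Orb (insert z A) (u i)` with `E (m (i+1)) (y (i+1)) v`.  Let `𝒰` be the hyperfilter on `ℕ`; by saturation over
`insert z A` there is `y*` which is in every `insert z A`-definable set `D` with `y i ∈ D` for `𝒰`-many `i`.
`y* = u i` for some `i`.  `D` = the set of the `w` such that `E (m (i+1)) (g w) (y (i+1))` for some `g` over
`insert z A`: definable over `insert z A` (FEQ (9) for `Y` = the orbit of `y (i+1)` over `insert z A`).  `y j ∈ D` for all
`j > i` (`g` = identity).  So `y* ∈ D`: `E (m (i+1)) (g y*) (y (i+1))` and `g y* ∈ Orb (insert z A) (u i)`: contradiction.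
(d) Let `z := x`, `w ∈ p` as in the statement (there called `z`).  By (b) `S n w = S n x` for all `n`.  `y, m, u` from
(c) for `x`.  `y ∈ S m x = S m w`: `v ∈ Pq A w ∩ p` with `E m y v`.  For `m' ≥ m`: `v ∈ S m' w = S m' x`: `y' ∈ Pq A x ∩ p`
with `E m' v y'`, so `E m y y'`, so there is `v' ∈ Orb (insert x A) u` with `E m' y' v'`, `E m' v v'`.  FEQ (8) (and (0)):
`v' ∈ Orb (insert x A) u` with `v' = g v`, `g` in `Nx A`.  In the same way for `y' = y`: some
`v'' ∈ Orb (insert x A) u` is `g'' y` with `g''` in `Nx A`, so `v'' ∈ Pq A x` (ALQ (5), `Bq.inv`), so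
`Orb (insert x A) u ⊆ Pq A x` (IMQ (3)).  So `v' ∈ Pq A x`, `v ∈ Pq A x`, `w ∈ Pq A v = Pq A x`. -/
def St_CLQ : Prop :=
  St_NEA → St_FEQ → St_ALQ → St_IMQ → St_OFQ → St_BND →
  ∀ (L : FirstOrder.Language.{0, 0}) (U : Type) [L.Structure U], Mon L U → ∀ (A : Set U)
    (E : ℕ → U → U → Prop) (x z : U), A.Finite → Seq L A E → z ∈ Orb L A x →
    (∀ n, ∃ y ∈ Orb L A x, y ∈ Pq L A x ∧ E n z y) → z ∈ Pq L A x

/-- [SEP] definable sets which meet finitely many pieces.
PROOF.  `E` from SEQ.  `p = Orb A v = Orb A x`.  For `z ∈ O` let `T n z = {w | ∃ y ∈ Pq A z ∩ p, E n w y}`, definable over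
`insert z A` (FEQ (9)), decreasing in `n`.  CLQ: `w ∈ p`, `w ∈ T n z` for all `n` implies `w ∈ Pq A z`.  Let `z ∈ O` be in
another piece than `x`.  If `O ∩ T n x ∩ T n z` is not empty for all `n`, by saturation some `w ∈ O` is in all of them,
so in `Pq A x ∩ Pq A z`: contradiction.  There are finitely many pieces: some `n` works for all of them.  Then
`O ∩ Pq A x = O ∩ T n x`. -/
def St_SEP : Prop :=
  St_CLQ → St_SEQ → St_NEA → St_FEQ → St_ALQ → St_IMQ → St_OFQ → St_BND →
  ∀ (L : FirstOrder.Language.{0, 0}) (U : Type) [L.Structure U], Mon L U → ∀ (A B O : Set U) (v : U),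
    A.Finite → B.Finite → B.Definable₁ L O → O ⊆ Orb L A v →
    {P : Set U | ∃ y ∈ O, P = Pq L A y}.Finite → ∀ x ∈ O,
    ∃ C : Set U, C.Finite ∧ C.Definable₁ L (O ∩ Pq L A x)

/-- [UNQ] Models can be chosen piece by piece.
PROOF.  `X = {z | z ∈ m z}`.  `A ⊆ X`.  `isEl_of_orb`: `A ⊆ B ⊆ X` finite, `v : U`, `O = Orb B v` definable over `B`.
`P = Pq A v`, `M = m v`.  (1) Some `b ∈ B` is in `P`.  Then `O ⊆ P` (an automorphism over `B` fixes `b` and `A`, IMQ (3)).
`B' = A ∪ (B ∩ P)`, `B' ⊆ M` (`b ∈ m b = m v` for `b ∈ B ∩ P`).  `O` is invariant under `Nx B'`: let `h` be in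
`Nx B'`, `u ∈ O`; glue `h` on `P` (over `A`): `h'` fixes `B`, `h u = h' u ∈ O`.  `nx_meets`: `u ∈ O ∩ M`; `u ∈ P`, so `m u = M`
and `u ∈ X`.  (2) `B ∩ P = ∅`.  `O' = O ∩ P`: definable over a finite set by SEP (`O ⊆ Orb A v`, `Fcp`), and invariant
under `Nx A` (glue `h` on `P`: `h'` fixes `B`).  `nx_meets` over `A`: `u ∈ O' ∩ M`, `u ∈ X`. -/
def St_UNQ : Prop :=
  St_SEP → St_CLQ → St_SEQ → St_NEA → St_FEQ → St_ALQ → St_IMQ → St_OFQ → St_BND →
  ∀ (L : FirstOrder.Language.{0, 0}) (U : Type) [L.Structure U], Mon L U → ∀ (A : Set U), A.Finite →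
    Fcp L A → ∀ m : U → Set U, (∀ z, Md L A (m z)) → (∀ z, ∀ y ∈ Pq L A z, m y = m z) →
    Md L A {z | z ∈ m z}

/-- [PMD] the prime model over a finite set.
PROOF.  Say that a tuple `b : Fin n → U` is atomic if the set `O_b` of the tuples `g ∘ b`, `g` over `A`, is `Dp A`.
(1) If `b` is atomic and `Isd (A ∪ range b) y` then `Fin.snoc b y` is atomic: `Orb (A ∪ range b) y = {w | Q (b, w)}`
with `Q` definable over `A` (`dp_fam`); the orbit of `(b, y)` is the set of the `(v, w)` with `v ∈ O_b` and `Q (v, w)` (if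
`v = g b`, `Q (g b, w)`, then `Q (b, g⁻¹ w)`, `g⁻¹ w = h y` with `h` over `A ∪ range b`, `(v, w) = g (h (b, y))`).
(2) If `b` is atomic then `Isd A (b i)`: the projection (`dp_ex`).  (3) Construct atomic `b_0, b_1, ..`, each an
extension of the preceding one, starting with an enumeration of `A` (atomic: one point).  For each of the countably
many pairs `(m, z)` with `Isd (A ∪ range b_m) z` there is a step `n ≥ m`: `Orb (A ∪ range b_m) z` is definable over
`A ∪ range b_n`; `exists_isd` gives a point `y` of it with `Isd (A ∪ range b_n) y`; `b_(n+1) = snoc b_n y`.  `M` = the set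
of all coordinates: `isEl_of_orb` (a finite `B ⊆ M` is contained in some `A ∪ range b_m`; `Orb B x` definable over `B`
contains `z` with `Isd (A ∪ range b_m) z`, `exists_isd`).  Compare `Pool/Agent/WOM/SMM.lean`. -/
def St_PMD : Prop :=
  ∀ (L : FirstOrder.Language.{0, 0}) (U : Type) [L.Structure U], Mon L U → ∀ (A : Set U), A.Finite →
    ∃ M, Md L A M ∧ ∀ x ∈ M, Isd L A x

/-- [HQS] If infinitely many pieces meet an orbit.
PROOF.  `E` from SEQ, `p = Orb A x`, `S n z` as in the proof of CLQ; `h n u v := (u ∈ p ↔ v ∈ p) ∧ (u ∈ p → v ∈ p → S n u = S n v)`.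
(1)-(3) clear ((3): IMQ (3), FEQ (6)).  (4): `Pq A v = Pq A u` (ALQ (8)).  (2): `S n u` is the set of the `v ∈ p` with `E n v v'`
for some `v' ∈ S (n+1) u`.  (5) `v ∈ S n v = S n u` for all `n`; CLQ for `u` (`Orb A u = p`).
(i) For every `n` there is `z ∈ p` with `h n x z`, `z ∉ Pq A x`: there are finitely many sets `S n z`, `z ∈ p` (unions of
classes of `E n`, intersected with `p`), and infinitely many pieces meet `p`, so there are `z1, z2 ∈ p` with
`S n z1 = S n z2`, in different pieces; move `z1` to `x` by an automorphism over `A`.  By (5) `¬ h m x z` for some `m`.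
Recursively: `l 0 = 0`, `s k` = such a `z` for `n = l k`, `l (k+1) > l k` with `¬ h (l (k+1)) x (s k)`.
(ii) Suppose `Isd (insert x A) y` for all `y ∈ p ∩ Pq A x`.  `T n = {w | ∃ y ∈ Pq A x ∩ p, E n w y}` is definable over
`insert x A` (FEQ (9)).  Saturation over `insert x A` for: the `A`-definable sets which contain `x`, the `T n`, the
complements of the `Orb (insert x A) y`, `y ∈ p ∩ Pq A x`: a common point would be in `p`, so by CLQ in `Pq A x`, and
outside of its orbit.  So there are an `A`-definable set `D ⊇ p`, `n` and finitely many `y_i` with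
`D ∩ T n ⊆ ⋃ Orb (insert x A) y_i ⊆ Pq A x`.  `z` from (i) for this `n`: `z ∈ S n z = S n x ⊆ D ∩ T n ⊆ Pq A x`:
contradiction. -/
def St_HQS : Prop :=
  St_CLQ → St_SEQ → St_NEA → St_FEQ → St_ALQ → St_IMQ → St_OFQ → St_BND →
  ∀ (L : FirstOrder.Language.{0, 0}) (U : Type) [L.Structure U], Mon L U → ∀ (A : Set U) (x : U),
    A.Finite → ¬ {P : Set U | ∃ y ∈ Orb L A x, P = Pq L A y}.Finite →
    ∃ (h : ℕ → U → U → Prop) (s : ℕ → U) (l : ℕ → ℕ) (y : U), (∀ n, Equivalence (h n)) ∧
      (∀ n u v, h (n + 1) u v → h n u v) ∧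
      (∀ n u v, ∀ g : U ≃[L] U, Fx L A g → (h n (g u) (g v) ↔ h n u v)) ∧
      (∀ n, ∀ u ∈ Orb L A x, ∀ v ∈ Orb L A x, v ∈ Pq L A u → h n u v) ∧
      (∀ u ∈ Orb L A x, ∀ v ∈ Orb L A x, (∀ n, h n u v) → v ∈ Pq L A u) ∧
      StrictMono l ∧ (∀ k, s k ∈ Orb L A x ∧ h (l k) x (s k) ∧ ¬ h (l (k + 1)) x (s k)) ∧
      y ∈ Orb L A x ∧ y ∈ Pq L A x ∧ ¬ Isd L (insert x A) y

/-- [FCP] Finitely many pieces meet an orbit.
PROOF.  Suppose not: HQS.  `p = Orb A x`.  `M` from PMD for `insert x A`; `M` misses `Orb (insert x A) y`.  `t k` over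
`A` with `t k x = s k`.  `Q = Pq A x`, `P k = Pq A (s k) = t k '' Q` (IMQ (3)).  For `j < k`: `h (l (j+1)) x (s k)`,
`¬ h (l (j+1)) x (s j)`, `h (l j) x (s j)`: `h (l j) (s j) (s k)`, `¬ h (l (j+1)) (s j) (s k)`: `Q` and all `P k` are pairwise
different, so disjoint.  For `α : ℕ → Bool` let
`X α = {v | (v ∈ Q → v ∈ M) ∧ ∀ k, α k = true → v ∈ P k → v ∈ t k '' M}`.
`A ⊆ X α` (`A ⊆ M`).  `{α | v ∈ X α}` is clopen (`v` is in at most one `P k`).
(A) `X α` is elementary: `isEl_of_orb`: `A ⊆ B ⊆ X α`, `O = Orb B v` definable over `B`.  If `O` is not contained in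
`Q ∪ ⋃ (α k) P k`: a point of `O` outside is in `X α`.  So let `O` be contained in it.  Let `v ∈ P`, `P = t '' Q`, `t = t k`
with `α k`, or `t` = identity: `N = t '' M` is a model which contains `A`, and `X α ∩ P = N ∩ P`.  (1) `B` meets `P`: as UNQ
(1).  (2) `B` misses `P`, then (IMQ (3)) `B` misses all pieces met by `O`.  CLAIM: `O` meets finitely many pieces (at
most two).  All of them are `Q` or `P k` with `α k`.  Let `a` be the least number such that `O` meets `P a`, and suppose
that `O` meets two other pieces: `P b` with `b > a` and a third `R`, `R = Q` or `R = P c`, `c > b` (choose `b` least).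
Take `u ∈ O ∩ P a`, `u' ∈ O ∩ P b` and `g` over `B` with `g u' = u`, so `g '' P b = P a`, and `g '' R` is a piece `R'` met by `O`,
`R' ≠ P a`.  Points `z' ∈ P b ∩ p`, `r ∈ R ∩ p` satisfy `h (l b) z' r` (all the `s c`, `c ≥ b`, and `x` are in one
`h (l b)`-class; (4)), so `h (l (a+1)) z' r`; so `h (l (a+1)) (g z') (g r)`, `g z' ∈ P a`, `g r ∈ R'`; but
`¬ h (l (a+1)) (s a) (s c')` for all `c' > a`, and `¬ h (l (a+1)) (s a) x`: contradiction.
SEP: `O ∩ P` is definable over a finite set; it is invariant under `Nx A` (glue on `P`, the gluing fixes `B`).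
`nx_meets` over `A` for `N`.
(B) Call `v ∈ X α ∩ p` defective if there is no `g` over `A` with `g x = v`, `g y ∈ X α`.  If `v ∈ p` is not in
`Q ∪ ⋃ (α k) P k` then `g y ∈ Pq A v` (IMQ (3)) is in `X α`: `v` is not defective.  `x` is defective in `X α`
(`x ∈ M`; `g y ∈ Orb (insert x A) y ∩ Q` is not in `M`), and so is `s k` if `α k` (`(t k)⁻¹`).
Let `J α` be the set of the `n` such that `h n v v'`, `¬ h (n+1) v v'` for some defective `v, v' ∈ X α ∩ p`.
`α k` iff `J α` contains some `n` with `l k ≤ n < l (k+1)`: (→) `v = x`, `v' = s k`.  (←) `v, v'` are in different pieces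
((4)) among `Q`, `P j` (`α j`), say `v ∈ P i`, and `v' ∈ P j` with `j > i` or `v' ∈ Q`: `h (l i) v v'` and
`¬ h (l (i+1)) v v'`, so `l i ≤ n < l (i+1)`, `i = k`.
(C) `NPf`: `α ≠ α'`, `e : X α ≃ X α'` as in `Sm A`.  `e` preserves `p`, the relations `h n` and defectiveness (if `g x = v`,
`g y ∈ X α` take an automorphism over `A` which agrees with `e` on `{v, g y}`).  So `J α = J α'`, `α = α'`. -/
def St_FCP : Prop :=
  St_HQS → St_PMD → St_SEP → St_CLQ → St_SEQ → St_NEA → St_FEQ → St_ALQ → St_IMQ → St_OFQ → St_BND →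
  ∀ (L : FirstOrder.Language.{0, 0}) (U : Type) [L.Structure U], Mon L U → NPf L U →
    ∀ (A : Set U), A.Finite → Fcp L A

end Pool.Agent.TPC
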