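import Pool.Agent.TPC.StB
import Pool.Agent.PMC.StD

/-!
TPC: statements of the third part (helper47), with proofs in the docstrings: linear pieces.  The text follows
`Pool/Agent/MNO/StC.lean`; the proofs in `Pool/Agent/MNO` (SUM, PLC, GRP, INS, NWL, NWI, CLS) can be adapted:
`Ori L R o A E sg` becomes `Lin L A E lt`, `Ll L R o A sg` becomes `lt`, `LL` becomes `LT lt`, `Itv L R o A E sg`
becomes `Iv E lt`, `cel L R o A j x` becomes `Orb L A x`, `Ric` becomes `Rch`, PRD (gluing on `E`) is `Lin.bq`, FAI (3) is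
`Lin.fxE`, `Lin.fxl`, ORD is `Lin.irr`, `Lin.tra`, `Lin.neg`.  Write `x << y` for `lt x y` and `x ~ y` for: neither
`x << y` nor `y << x` (`x, y ∈ E`).

Convention: module XXX is the file `Pool/Agent/TPC/XXX.lean` with `theorem thm_XXX (hAAA : St_AAA) .. : St_XXX`, the
hypotheses are the modules cited in the docstring of `St_XXX`.
-/

set_option autoImplicit false
set_option linter.unusedVariables false

namespace Pool.Agent.TPC

open FirstOrder.Language Set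
open scoped FirstOrder
open Pool.Agent.WOM (tp Mon IsEl IsoM CtU Fx Orb Isd)
open Pool.Agent.PMC (Sm Md NPf)
open Pool.Agent.MNO (Dp FE Sq Nx SmN FE1 FinN)

section defs

variable (L : FirstOrder.Language.{0, 0}) {U : Type} [L.Structure U]

/-- rich models: `M` contains `A` and realises all types over `A` in all classes of `A`-definable finite
equivalence relations where they occur -/
def Rch (A M : Set U) : Prop :=
  Md L A M ∧ ∀ (x : U) (F : U → U → Prop), FE1 L A F → ∃ y ∈ M, y ∈ Orb L A x ∧ F x y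

end defs

/-- [RCH] rich models.
PROOF.  (1) `y = x`.  (2) `A ⊆ B`.  Let `w ∈ M` with `F x w` (FEQ (7)); `Sub` for `C = insert w A'`, `A'` = `A`: `y ∈ M`,
`y = h x` with `h` over `insert w A`: `F x w`, so `F (h x) (h w)` = `F y w`, `F x y`. -/
def St_RCH : Prop :=
  ∀ (L : FirstOrder.Language.{0, 0}) (U : Type) [L.Structure U], Mon L U → ∀ (A : Set U),
    A.Finite → Rch L A (univ : Set U) ∧ ∀ B M : Set U, A ⊆ B → Sub L B M → Rch L A M

/-- [LOB] basic facts on linear pieces.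
PROOF.  (1) `irr`, `tra`.  (2) `a ∈ A ∩ E`: `gap` for `D = ∅`, `V = {a}`, `z = a`: `g a << a`, but `g a = a`.  (3) `ort` with
`g' = id`.  (4) `ort` for `W`, `S` with `g = id` on `W` and `g' = g` on `S`.  (5) (3) with `S := M`, `W := V`: `h1`; (4) with
`W := D`, `S := M ∪ V`, `g := h1`.  (6) `Z`, `V` nonempty: let `z` be maximal in `Z` (finite set, strict weak order);
`gap` for `D`, `V`: `g1` in `Nx A` with `D << g1 z << V`, so `g1 '' Z << V` (`neg`).  Let `z0` be minimal in `Z' = g1 '' Z`;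
`gap`: `g2` with `D << g2 z0 << V`; (3) for `S = {z0}`, `W = V`: `h` fixes `V`, `h z0 = g2 z0`: `D << h '' Z' << V`.
`V = ∅`: only the second step (`ort` is not needed: `g2`).
(7) the points of `E` outside of `D`, gluing: let `g` be in `Nx A`; `bq` gives `h` in `Nx A`, `h = g` on `E`, `h = id`
outside; if `g` fixes `B ∩ E` then `h` fixes `B`. -/
def St_LOB : Prop :=
  ∀ (L : FirstOrder.Language.{0, 0}) (U : Type) [L.Structure U], Mon L U → ∀ (A E : Set U)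
    (lt : U → U → Prop), Lin L A E lt →
    (∀ x ∈ E, ∀ y ∈ E, lt x y → ¬ lt y x) ∧
    Disjoint A E ∧
    (∀ (S W : Set U), S.Finite → W.Finite → S ⊆ E → W ⊆ E → LT lt S W →
      ∀ g : U ≃[L] U, Nx L A g → LT lt (g '' S) W →
      ∃ h : U ≃[L] U, Nx L A h ∧ (∀ w ∈ W, h w = w) ∧ ∀ b ∈ S, h b = g b) ∧
    (∀ (S W : Set U), S.Finite → W.Finite → S ⊆ E → W ⊆ E → LT lt W S →
      ∀ g : U ≃[L] U, Nx L A g → LT lt W (g '' S) →
      ∃ h : U ≃[L] U, Nx L A h ∧ (∀ w ∈ W, h w = w) ∧ ∀ b ∈ S, h b = g b) ∧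
    (∀ (D M V : Set U), D.Finite → M.Finite → V.Finite → D ⊆ E → M ⊆ E → V ⊆ E →
      LT lt D V → LT lt D M → LT lt M V →
      ∀ g : U ≃[L] U, Nx L A g → LT lt D (g '' M) → LT lt (g '' M) V →
      ∃ h : U ≃[L] U, Nx L A h ∧ (∀ w ∈ D, h w = w) ∧ (∀ w ∈ V, h w = w) ∧
        ∀ m ∈ M, h m = g m) ∧
    (∀ (D V Z : Set U), D.Finite → V.Finite → Z.Finite → D ⊆ E → V ⊆ E → Z ⊆ E → LT lt D V →
      ∃ g : U ≃[L] U, Nx L A g ∧ LT lt D (g '' Z) ∧ LT lt (g '' Z) V) ∧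
    ∀ (B : Set U) (g : U ≃[L] U), Nx L A g → (∀ b ∈ B, b ∈ E → g b = b) →
      ∃ h : U ≃[L] U, Nx L A h ∧ (∀ b ∈ B, h b = b) ∧ ∀ x ∈ E, h x = g x

/-- [LGR] gluing of automorphisms along clusters.
PROOF.  As `MNO.thm_GRP`: induction on the finite set `F`; `S` = the points of a last cluster, `W = F \ S`,
`W << S`; `g'` for `W`; `g0` for `x0 ∈ S`: `g0 = t` on `S`; `ort` for `W`, `S` and `g'`, `g0`. -/
def St_LGR : Prop :=
  ∀ (L : FirstOrder.Language.{0, 0}) (U : Type) [L.Structure U], Mon L U → ∀ (A E : Set U)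
    (lt : U → U → Prop), Lin L A E lt →
    ∀ (F : Set U) (t : U → U), F.Finite → F ⊆ E → (∀ x ∈ F, t x ∈ E) →
    (∀ x ∈ F, ∀ y ∈ F, lt x y → lt (t x) (t y)) →
    (∀ x ∈ F, ∃ g : U ≃[L] U, Nx L A g ∧ ∀ y ∈ F, ¬ lt x y → ¬ lt y x → g y = t y) →
    ∃ g : U ≃[L] U, Nx L A g ∧ ∀ x ∈ F, g x = t x

/-- [LPC] placement of a countable family of intervals.
PROOF.  As `MNO.thm_PLC`: enumerate `D`; recursively choose `g_d`, LOB (6) with `Z = {p d, q d}`. -/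
def St_LPC : Prop :=
  ∀ (L : FirstOrder.Language.{0, 0}) (U : Type) [L.Structure U], Mon L U → ∀ (A E : Set U)
    (lt : U → U → Prop), Lin L A E lt →
    ∀ (D : Type) [LinearOrder D] [Countable D] (p q : D → U), (∀ d, p d ∈ E) → (∀ d, q d ∈ E) →
    (∀ d, ¬ lt (q d) (p d)) →
    ∃ g : D → (U ≃[L] U), (∀ d, Nx L A (g d)) ∧ ∀ d d', d < d' → lt (g d (q d)) (g d' (p d'))

/-- [LSU] ordered sums of intervals are elementary submodels (compare `MNO.St_SUM`).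
PROOF.  `X = (M0 \ E) ∪ ⋃ d, P d`, `P d = g d '' [p d, q d]`; `A ⊆ X` (LOB (2)).  For `d < d'`, `x ∈ P d`, `y ∈ P d'`:
`x << y`.  `isEl_of_orb`: `A ⊆ B ⊆ X` finite, `O = Orb B x` definable over `B`; we need a point of `O ∩ X`.
(0) `x ∉ E`.  `B0 = A ∪ (B \ E) ⊆ M0`.  For `h` in `Nx B0` and `y ∈ O` (so `y ∉ E`, `fxE`): `Lin.bq` for `h⁻¹` or its
complement (ALQ (2)): `h'` = `h` outside `E`, identity on `E`, fixes `B`, so `h y = h' y ∈ O`.  `nx_meets` over `B0` with `M0`.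
Let `x ∈ E`, `B_d = B ∩ P d`, nonempty for finitely many `d`.  All points of `O` have the same position with respect
to the points of `B ∩ E` as `x` (`fxl`).
(a) For some `d` there are `y, y' ∈ B_d` with not `x << y`, not `y' << x`.  `B' = A ∪ B_d`.  Let `h` be in `Nx B'`,
`v ∈ O`: not `v << y`, not `y' << v`, and the same for `h v`.  So for `c < d`, `b ∈ B_c`: `b << v` and `b << h v`; for
`d < c`, `b ∈ B_c`: `v << b`, `h v << b` (`neg`).  LOB (5) (`D` := the union of the `B_c`, `c < d`; `M := B_d ∪ {v}`; `V` :=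
the union of the `B_c`, `d < c`; `g := h`) and LOB (7): `h v ∈ Orb B v = O`.  So `O` is invariant under `Nx B'`.
`(g d) '' M d` is an elementary submodel which contains `B'`; `nx_meets` over `B'`: `g d w ∈ O`, `w ∈ M d`, not
`w << (g d)⁻¹ y`, not `(g d)⁻¹ y' << w`, so `w ∈ [p d, q d]` (`neg`), `g d w ∈ P d ∩ O`.
(b) Otherwise for every `d` with `B_d` nonempty: `x << B_d` or `B_d << x`; so `b << x` or `x << b` for all `b ∈ B ∩ E`.
`Lin.clo` for `B`, `x` and the definable set `O`: `F`.  Let `d` be the last index with `B_d << x` nonempty and `d'` the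
first index with `x << B_d'` (if they exist); `d < d'`.  Take `c ∈ D0`, `d < c < d'` (strictly between, or below, or
above, or arbitrary) and `x' ∈ P c`, `x' ∈ Orb A x`, `F x x'`: `x'` has the position of `x` with respect to `B ∩ E`, so
`x' ∈ O`. -/
def St_LSU : Prop :=
  ∀ (L : FirstOrder.Language.{0, 0}) (U : Type) [L.Structure U], Mon L U → ∀ (A E : Set U)
    (lt : U → U → Prop), Lin L A E lt →
    ∀ (D : Type) [LinearOrder D] (D0 : Set D) (M0 : Set U) (M : D → Set U) (p q : D → U)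
      (g : D → (U ≃[L] U)), (∀ d, Nx L A (g d)) → Md L A M0 → (∀ d, Md L A (M d)) →
    (∀ d, p d ∈ M d ∧ p d ∈ E) → (∀ d, q d ∈ M d ∧ q d ∈ E) →
    (∀ d d', d < d' → lt (g d (q d)) (g d' (p d'))) →
    (∀ x ∈ E, ∀ F, FE1 L A F →
      (∃ c ∈ D0, ∃ x' ∈ (g c) '' Iv E lt (M c) (p c) (q c), x' ∈ Orb L A x ∧ F x x') ∧
      (∀ d, ∃ c ∈ D0, c < d ∧ ∃ x' ∈ (g c) '' Iv E lt (M c) (p c) (q c),
        x' ∈ Orb L A x ∧ F x x') ∧
      (∀ d, ∃ c ∈ D0, d < c ∧ ∃ x' ∈ (g c) '' Iv E lt (M c) (p c) (q c),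
        x' ∈ Orb L A x ∧ F x x') ∧
      ∀ d d', d < d' → ∃ c ∈ D0, d < c ∧ c < d' ∧
        ∃ x' ∈ (g c) '' Iv E lt (M c) (p c) (q c), x' ∈ Orb L A x ∧ F x x') →
    IsEl L ((M0 \ E) ∪ ⋃ d, (g d) '' Iv E lt (M d) (p d) (q d))

/-- [LIN] insertion of copies of an interval of a model `M` into (a shuffle of the clusters of) a rich model
`M0`, indexed by any countable order.
PROOF.  As `MNO.St_INS` (`MNO/INS.lean`), with LPC, LSU; `Z = M0 ∩ E` is countable and nonempty (`Rch` for a point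
of `E` and the trivial relation, `fxE`); for `x ∈ E` and `F` there is `y ∈ M0 ∩ Orb A x` with `F x y` (`Rch`), `y ∈ Z`.  `D` =
the subtype `{d : (WithBot O) ×ₗ (WithBot ℚ) // d ≠ (⊥, ⊥)}`, `c : ℚ → U` from `PMC.thm_DNF` for `Z`; for
`d = (some a, ⊥)`: the model `M`, the points `p`, `q`; for all other `d = (_, some r)`: the model `M0` and
`p d = q d = c r`. -/
def St_LIN : Prop :=
  ∀ (L : FirstOrder.Language.{0, 0}) (U : Type) [L.Structure U], Mon L U → ∀ (A E : Set U)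
    (lt : U → U → Prop), Lin L A E lt →
    ∀ (M0 M : Set U) (p q : U), Rch L A M0 → Md L A M → p ∈ M → p ∈ E → q ∈ M → q ∈ E →
    ¬ lt q p → ∀ (O : Type) [LinearOrder O] [Countable O],
    ∃ (X0 : Set U) (r : O → (U ≃[L] U)), (∀ a, Nx L A (r a)) ∧ (∀ x ∉ E, (x ∈ X0 ↔ x ∈ M0)) ∧
      (∀ T : Set O, IsEl L (X0 ∪ ⋃ a ∈ T, (r a) '' Iv E lt M p q)) ∧
      (∀ a, ∀ x ∈ (r a) '' Iv E lt M p q, x ∉ X0) ∧
      (∀ a a', a < a' → ∀ x ∈ (r a) '' Iv E lt M p q, ∀ y ∈ (r a') '' Iv E lt M p q, lt x y) ∧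
      (∀ x ∈ X0, x ∈ E → ∀ a, (∀ y ∈ (r a) '' Iv E lt M p q, lt x y) ∨
        ∀ y ∈ (r a) '' Iv E lt M p q, lt y x) ∧
      (∀ x ∈ X0, x ∈ E → ∃ z ∈ M0, z ∈ E ∧ ∃ g : U ≃[L] U, Nx L A g ∧
        x ∈ g '' Iv E lt M0 z z ∧ ∀ y ∈ E, ¬ lt x y → ¬ lt y x →
          (y ∈ X0 ↔ y ∈ g '' Iv E lt M0 z z)) ∧
      (∀ x ∈ E, ∀ y ∈ E, (x ∈ X0 ∨ ∃ a, x ∈ (r a) '' Iv E lt M p q) →
        (y ∈ X0 ∨ ∃ a, y ∈ (r a) '' Iv E lt M p q) → lt x y →
        (¬ ∃ a, x ∈ (r a) '' Iv E lt M p q ∧ y ∈ (r a) '' Iv E lt M p q) →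
        ∀ z ∈ M0, z ∈ E → ∃ g : U ≃[L] U, Nx L A g ∧ g z ∈ X0 ∧ lt x (g z) ∧
          lt (g z) y ∧ ∀ w ∈ E, ¬ lt (g z) w → ¬ lt w (g z) →
            (w ∈ X0 ↔ w ∈ g '' Iv E lt M0 z z)) ∧
      (∃ y ∈ X0, ∃ y' ∈ X0, y ∈ E ∧ y' ∈ E ∧ lt y y' ∧
        ∀ a, ∀ x ∈ (r a) '' Iv E lt M p q, lt y' x)

/-- [LNW] all labels occur in all rich models.
PROOF.  As `MNO.St_NWL` (`MNO/NWL.lean`), with `PMC.thm_CNO`, `PMC.thm_COD` and LIN. -/
def St_LNW : Prop :=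
  ∀ (L : FirstOrder.Language.{0, 0}) (U : Type) [L.Structure U], Mon L U → NPf L U →
    ∀ (A E : Set U) (lt : U → U → Prop), Lin L A E lt →
    ∀ (M0 M : Set U) (p : U), Rch L A M0 → Md L A M → p ∈ M → p ∈ E →
    ∃ z ∈ M0, z ∈ E ∧ SmN L A (Iv E lt M p p) (Iv E lt M0 z z)

/-- [LNI] all labels occur between any two clusters of a model.
PROOF.  As `MNO.St_NWI` (`MNO/NWI.lean`), with LIN for `M0 = univ` (RCH (1)), LNW. -/
def St_LNI : Prop :=
  ∀ (L : FirstOrder.Language.{0, 0}) (U : Type) [L.Structure U], Mon L U → NPf L U →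
    ∀ (A E : Set U) (lt : U → U → Prop), Lin L A E lt →
    ∀ (M : Set U) (p q : U), Md L A M → p ∈ M → p ∈ E → q ∈ M → q ∈ E → lt p q →
    ∀ z ∈ E, ∃ z' ∈ M, z' ∈ E ∧ lt p z' ∧ lt z' q ∧
      SmN L A (Iv E lt M z' z') (Iv E lt univ z z)

/-- [LCL] countably many parts of a linear piece.
PROOF.  As `MNO.St_CLS` (`MNO/CLS.lean`), with `PMC.thm_BAF`-like back and forth `MNO.thm_BAF` and LGR. -/
def St_LCL : Prop :=
  ∀ (L : FirstOrder.Language.{0, 0}) (U : Type) [L.Structure U], Mon L U →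
    ∀ (A E : Set U) (lt : U → U → Prop), Lin L A E lt →
    (∀ (M : Set U) (p : U), Md L A M → p ∈ M → p ∈ E →
      ∃ z ∈ E, SmN L A (Iv E lt M p p) (Iv E lt univ z z)) →
    (∀ (M : Set U) (p q : U), Md L A M → p ∈ M → p ∈ E → q ∈ M → q ∈ E → lt p q →
      ∀ z ∈ E, ∃ z' ∈ M, z' ∈ E ∧ lt p z' ∧ lt z' q ∧
        SmN L A (Iv E lt M z' z') (Iv E lt univ z z)) →
    ∃ c : ℕ → Set U, (∀ n, Md L A (c n)) ∧ ∀ M : Set U, Md L A M →
      ∃ n, SmN L A (M ∩ E) (c n ∩ E)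

end Pool.Agent.TPC
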