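import Pool.Agent.TPC.StC

/-!
TPC: statements of the fourth part (helper47), with proofs in the docstrings: free unions of clusters.
`x ~ y` means `cl x y` (`x, y ∈ E`).  Nothing is said about the inside of a cluster: only the LABELS of the clusters
(the classes of `SmN L A` of the sets `Kl E cl M p`, `M` a model which contains `A`, `p ∈ M ∩ E`) and their
multiplicities are used.

Convention: module XXX is the file `Pool/Agent/TPC/XXX.lean` with `theorem thm_XXX (hAAA : St_AAA) .. : St_XXX`, the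
hypotheses are the modules cited in the docstring of `St_XXX`.
-/

set_option autoImplicit false
set_option linter.unusedVariables false

namespace Pool.Agent.TPC

open FirstOrder.Language Set
open scoped FirstOrder
open Pool.Agent.WOM (tp Mon IsEl IsoM CtU Fx Orb Isd)
open Pool.Agent.PMC (Sm Md NPf)
open Pool.Agent.MNO (Dp FE Sq Nx SmN FE1 FinN)

section defs

variable (L : FirstOrder.Language.{0, 0}) {U : Type} [L.Structure U]

/-- the clusters of `X` which have the label of `K` (over `A`) -/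
def Lab (A E : Set U) (cl : U → U → Prop) (X K : Set U) : Set (Set U) :=
  {K' | ∃ z ∈ X, z ∈ E ∧ K' = Kl E cl X z ∧ SmN L A K K'}

end defs

/-- [FOB] basic facts on free unions of clusters.
PROOF.  (1) `a ∈ A ∩ E`: `inf` for `z = a`, `D = {a}`: not `a ~ g a`, but `g a = a` and `rfl`.  (2) `ort` with `g' = id` on `W`.
(3) as LOB (7): `Fre.bq`.  (4) gluing along clusters: induction on the number of clusters of the finite set `F`;
`S` = the points of `F` in the cluster of some `x0 ∈ F`, `W = F \ S`; `g'` for `W`, `g0` for `x0` (`g0 = t` on `S`); `ort` for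
`S`, `W` and `g0`, `g'` (`t x`, `t y` are in different clusters for `x ∈ S`, `y ∈ W`).  (5) placement: (4) with a suitable `t`:
for representatives `x_1, .., x_n` of the clusters of `Z` choose one after another `g_i` in `Nx A` with `g_i x_i` not in
the cluster of a point of `D` or of some `g_j x_j`, `j < i` (`inf`), `t = g_i` on the cluster of `x_i`.
(6) (5) for `Z` and `D ∪ B` gives `k` in `Nx A` such that the clusters of `k '' Z` do not meet `D ∪ B`; (2) for
`S := Z`, `W := B` (different clusters) and `k`: `h` in `Nx A` which fixes `B` and is `k` on `Z`. -/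
def St_FOB : Prop :=
  ∀ (L : FirstOrder.Language.{0, 0}) (U : Type) [L.Structure U], Mon L U → ∀ (A E : Set U)
    (cl : U → U → Prop), Fre L A E cl →
    Disjoint A E ∧
    (∀ (S W : Set U), S.Finite → W.Finite → S ⊆ E → W ⊆ E → (∀ s ∈ S, ∀ w ∈ W, ¬ cl s w) →
      ∀ g : U ≃[L] U, Nx L A g → (∀ s ∈ S, ∀ w ∈ W, ¬ cl (g s) w) →
      ∃ h : U ≃[L] U, Nx L A h ∧ (∀ w ∈ W, h w = w) ∧ ∀ b ∈ S, h b = g b) ∧
    (∀ (B : Set U) (g : U ≃[L] U), Nx L A g → (∀ b ∈ B, b ∈ E → g b = b) →
      ∃ h : U ≃[L] U, Nx L A h ∧ (∀ b ∈ B, h b = b) ∧ ∀ x ∈ E, h x = g x) ∧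
    (∀ (F : Set U) (t : U → U), F.Finite → F ⊆ E → (∀ x ∈ F, t x ∈ E) →
      (∀ x ∈ F, ∀ y ∈ F, cl (t x) (t y) → cl x y) →
      (∀ x ∈ F, ∃ g : U ≃[L] U, Nx L A g ∧ ∀ y ∈ F, cl x y → g y = t y) →
      ∃ g : U ≃[L] U, Nx L A g ∧ ∀ x ∈ F, g x = t x) ∧
    (∀ (Z D : Set U), Z.Finite → D.Finite → Z ⊆ E → D ⊆ E →
      ∃ g : U ≃[L] U, Nx L A g ∧ ∀ z ∈ Z, ∀ d ∈ D, ¬ cl d (g z)) ∧
    ∀ (Z B D : Set U), Z.Finite → B.Finite → D.Finite → Z ⊆ E → B ⊆ E → D ⊆ E →
      (∀ z ∈ Z, ∀ b ∈ B, ¬ cl z b) →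
      ∃ h : U ≃[L] U, Nx L A h ∧ (∀ b ∈ B, h b = b) ∧ ∀ z ∈ Z, ∀ d ∈ D ∪ B, ¬ cl d (h z)

/-- [FSU] clusters of arbitrary models may be added to any model in new clusters.
PROOF.  `X = M0 ∪ ⋃ d, P d`, `P d = g d '' Kl (M d) (p d)` is in the cluster of `g d (p d)`.  `isEl_of_orb`: `A ⊆ B ⊆ X`
finite, `O = Orb B x` definable over `B`.  `B0 = B ∩ M0` (contains `A` and `B \ E`), `B_d = B ∩ P d`.
(0) `x ∉ E`.  `O ∩ E = ∅`.  `B' = A ∪ (B \ E)`; `O` is invariant under `Nx B'`: for `h` in `Nx B'` the automorphism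
which is `h` outside `E` and the identity on `E` (`bq`, ALQ (2)) fixes `B`.  `nx_meets` over `B'` with `M0`.
(1) `x ∈ E`, `x ~ b` for some `b ∈ B_d`: `O` is contained in the cluster of `b` (`fxE`, `fxc`).  `B' = A ∪ B_d`.  `O` is
invariant under `Nx B'`: `h` in `Nx B'`, `u ∈ O`; `S = B_d ∪ {u}` and `h '' S` are in the cluster of `b`, `W = (B ∩ E) \ P d` is
in other clusters; FOB (2): `k` in `Nx A` fixes `W`, `k = h` on `S`; FOB (3) for `k`: `k'` fixes `B`, `k' u = h u`.  `nx_meets`
over `B'` with `(g d) '' M d`: `u ∈ O`, `u = g d w`, `w ∈ M d`, `w ∈ Kl (M d) (p d)`, `u ∈ P d`.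
(2) `x ∈ E`, `x ~ b` for some `b ∈ B0 ∩ E`: `O` is in the cluster of `b`; invariant under `Nx B0`: as (1) with
`S = (B0 ∩ E) ∪ {u}` and `W` = the union of the `B_d` (no point of it is in the cluster of a point of `M0`).
`nx_meets` over `B0` with `M0`.
(3) `x ∈ E`, `x ~ b` for no `b ∈ B`.  The same for all points of `O`.  Let `B1 = ⋃ B_d`, `B0' = B0 ∩ E`.
(i) For `u, u' ∈ E` outside of the clusters of `B`, `u' = k u` with `k` in `Nx A`: `u ∈ O ↔ u' ∈ O` (FOB (2) for
`S = {u}`, `W = B ∩ E`, FOB (3)).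
(ii) FOB (6) twice: `s1, s2` in `Nx A` which fix `B0'` such that the clusters of `s1 '' B1` do not meet `B0'` and the
clusters of `s2 '' B1` do not meet `B0'` or `s1 '' B1`; by FOB (3) we may assume that `s1`, `s2` fix `B0`.
`O_i = s_i '' O = Orb (s_i '' B) (s_i x)`, definable over `s_i '' B`.  `Θ` = the set of the `u ∈ E` outside of the
clusters of `B0'` such that some `k u`, `k` in `Nx A`, is in `O`.  Claim: `O_1 ∪ O_2 = Θ`.  Let `u ∈ O_i`, `u = s_i v`,
`v ∈ O`: `v` is outside of the clusters of `B`, so `u` is outside of the clusters of `B0'` (`s_i` fixes `B0'`), and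
`v = s_i⁻¹ u`: `u ∈ Θ`.  Let `u ∈ Θ`: for `i = 1` or `i = 2` it is not in a cluster of `s_i '' B1`; so `s_i⁻¹ u` is outside of
the clusters of `B`, conjugate under `Nx A` to a point of `O`: in `O` by (i); `u ∈ O_i`.
(iii) `Θ` is definable over a finite set, invariant under `Nx B0`, and `x ∈ Θ`.  `nx_meets` over `B0` with `M0`:
`u ∈ M0 ∩ Θ`.  `u` is outside of the clusters of `B1` (they do not meet `M0`) and of `B0'`, so in `O` by (i). -/
def St_FSU : Prop :=
  ∀ (L : FirstOrder.Language.{0, 0}) (U : Type) [L.Structure U], Mon L U → ∀ (A E : Set U)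
    (cl : U → U → Prop), Fre L A E cl →
    ∀ (D : Type) (M0 : Set U) (M : D → Set U) (p : D → U) (g : D → (U ≃[L] U)),
    (∀ d, Nx L A (g d)) → Md L A M0 → (∀ d, Md L A (M d)) → (∀ d, p d ∈ M d ∧ p d ∈ E) →
    (∀ d d', d ≠ d' → ¬ cl (g d (p d)) (g d' (p d'))) →
    (∀ d, ∀ z ∈ M0, z ∈ E → ¬ cl (g d (p d)) z) →
    Md L A (M0 ∪ ⋃ d, (g d) '' Kl E cl (M d) (p d))

/-- [FRM] making room.
PROOF.  Let `C` be a set of representatives of the clusters of `M0 ∩ E` (countable).  Enumerate `C ⊕ D` and choose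
one after another `g_i` in `Nx A` such that the points `g_i (p_i)` (`p_i = i` for `i ∈ C`) are in pairwise different
clusters (FOB (5)).  `M0' = (M0 \ E) ∪ ⋃ c ∈ C, g_c '' Kl M0 c`, `t` = `g_c` on the cluster of `c`, identity on `M0 \ E`: a
bijection of `M0` and `M0'`.  For finite `s ⊆ M0`: FOB (4) for `s ∩ E`, then `Fre.bq` (glue on `E`).  So `SmN A M0 M0'`,
`Md A M0'` (SMQ (5), (8)).  The last statement: FSU for the subtype `T`. -/
def St_FRM : Prop :=
  ∀ (L : FirstOrder.Language.{0, 0}) (U : Type) [L.Structure U], Mon L U → ∀ (A E : Set U)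
    (cl : U → U → Prop), Fre L A E cl →
    ∀ (D : Type) [Countable D] (M0 : Set U) (M : D → Set U) (p : D → U), Md L A M0 →
    (∀ d, Md L A (M d)) → (∀ d, p d ∈ M d ∧ p d ∈ E) →
    ∃ (M0' : Set U) (g : D → (U ≃[L] U)) (t : U → U), (∀ d, Nx L A (g d)) ∧ Md L A M0' ∧
      (∀ d d', d ≠ d' → ¬ cl (g d (p d)) (g d' (p d'))) ∧
      (∀ d, ∀ z ∈ M0', z ∈ E → ¬ cl (g d (p d)) z) ∧
      (∀ x ∈ M0, t x ∈ M0') ∧ (∀ y ∈ M0', ∃ x ∈ M0, t x = y) ∧
      (∀ s : Set U, s.Finite → s ⊆ M0 → ∃ h : U ≃[L] U, Nx L A h ∧ ∀ x ∈ s, h x = t x) ∧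
      ∀ T : Set D, Md L A (M0' ∪ ⋃ d ∈ T, (g d) '' Kl E cl (M d) (p d))

/-- [FIF] There is no infinite sequence of labels with finite multiplicity in one model.
PROOF.  `K n = Kl (N n) (p n)`, `k n = (Lab M0 (K n)).ncard`, `r n = n + 1 + ∑ m ≤ n, k m`: strictly increasing, `k n < r n`.
Index type `D = {(z, i) : U × ℕ | z ∈ M0, z ∈ E, Kl M0 z is not similar to any K n} ⊕ (ℕ × ℕ)`; the models and points:
`M0, z` for `(z, i)`, `N n, p n` for `(n, i)`.  FRM: `M0'`, `g`, `t`.  For `f : ℕ → Bool` let `T f` contain all the `(z, i)`, and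
`(n, i)` if `f n = false` or `i < r n - k n`; `X f = M0' ∪ ⋃ d ∈ T f, P d`.  `{f | v ∈ X f}` is clopen (a point outside of
`M0'` is in at most one `P d`).  `NPf`: `f ≠ f'`, `e : X f ≃ X f'` as in `Sm A`.  `e` preserves `E` and `cl`, and similarity
(`SmN A`) of clusters (as in `MNO.St_NWL`: `nx_conj_fx`), so the set `J f` of the finite nonzero cardinalities of
the sets `Lab (X f) K`, `K` a cluster of `X f`, is equal to `J f'`.  The clusters of `X f` are those of `M0'` (images
under `t` of those of `M0`, similar to them) and the `P d`, `d ∈ T f` (similar to `Kl (M d) (p d)`), all different.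
Let `K` be a cluster of `X f`.  If it is similar to `K n` then `Lab (X f) K` is the union of the images of
`Lab M0 (K n)` and the `P (n, i)`, `(n, i) ∈ T f`: it has `r n` elements if `f n`, it is infinite otherwise.  If it is
similar to no `K n` it is similar to some `Kl M0 z` as in the definition of `D`: infinite multiplicity.  And if `f n`
then `K n` occurs (`r n > k n`).  So `J f = {r n | f n = true}`, `f = f'`. -/
def St_FIF : Prop :=
  ∀ (L : FirstOrder.Language.{0, 0}) (U : Type) [L.Structure U], Mon L U → NPf L U →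
    ∀ (A E : Set U) (cl : U → U → Prop), Fre L A E cl → ∀ M0 : Set U, Md L A M0 →
    ∀ (N : ℕ → Set U) (p : ℕ → U), (∀ n, Md L A (N n) ∧ p n ∈ N n ∧ p n ∈ E) →
    (∀ n m, n ≠ m → ¬ SmN L A (Kl E cl (N n) (p n)) (Kl E cl (N m) (p m))) →
    ¬ ∀ n, (Lab L A E cl M0 (Kl E cl (N n) (p n))).Finite

/-- [FCT] countably many parts of a free union of clusters.
PROOF.  (1) There is a countable family `(N i, p i)`, `i ∈ ℕ`, of models `N i` (`Md A`) and points `p i ∈ N i ∩ E` such that
every cluster `Kl M z` of a model is similar to exactly one of the `K i = Kl (N i) (p i)` for `i` in a set `I ⊆ ℕ`: by FIF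
for `M0 = univ` only finitely many labels (classes of clusters of models) have finite multiplicity in `univ`
(otherwise choose a sequence of pairwise nonsimilar ones), the others are labels of `Kl univ z`, `z ∈ U` countable;
choose one representative of each label.  (If `E = ∅`: `I = ∅`.)
(2) For a model `M` let `m_M i : ℕ∞` be the cardinality of `Lab M (K i)`, `i ∈ I` (`Set.encard`).  FIF for `M0 = M`:
`m_M i = ⊤` for all but finitely many `i ∈ I`.  There are countably many such functions; choose one model `c n` for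
each which occurs.
(3) If `m_M = m_M'` then `SmN A (M ∩ E) (M' ∩ E)`: for `i ∈ I` choose a bijection of `Lab M (K i)` and `Lab M' (K i)` (both
sets are countable, of the same cardinality); this gives a bijection of the clusters of `M ∩ E` and of `M' ∩ E` such
that corresponding ones are similar; choose a bijection as in `SmN` for each; their union `e : M ∩ E ≃ M' ∩ E`; for
a finite set FOB (4). -/
def St_FCT : Prop :=
  ∀ (L : FirstOrder.Language.{0, 0}) (U : Type) [L.Structure U], Mon L U → NPf L U →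
    ∀ (A E : Set U) (cl : U → U → Prop), Fre L A E cl →
    ∃ c : ℕ → Set U, (∀ n, Md L A (c n)) ∧ ∀ M : Set U, Md L A M → ∃ n, SmN L A (M ∩ E) (c n ∩ E)

end Pool.Agent.TPC
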