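import Pool.Agent.TPC.StD
import Pool.Agent.MNO.LFT

/-!
TPC: statements of the last part (helper47), with proofs in the docstrings: chains of saturated submodels,
finiteness of the number of `Nx`-orbits, rigid pieces, parts of pieces, the count.

Convention: module XXX is the file `Pool/Agent/TPC/XXX.lean` with `theorem thm_XXX (hAAA : St_AAA) .. : St_XXX`, the
hypotheses are the modules cited in the docstring of `St_XXX`.
-/

set_option autoImplicit false
set_option linter.unusedVariables false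

namespace Pool.Agent.TPC

open FirstOrder.Language Set
open scoped FirstOrder
open Pool.Agent.WOM (tp Mon IsEl IsoM CtU Fx Orb Isd)
open Pool.Agent.PMC (Sm Md NPf)
open Pool.Agent.MNO (Dp FE Sq Nx SmN FE1 FinN)

section defs

variable (L : FirstOrder.Language.{0, 0}) {U : Type} [L.Structure U]

/-- `j` is an elementary map of `U` into `U` over `B` -/
def Emb (B : Set U) (j : U → U) : Prop :=
  ∀ (n : ℕ) (P : (Fin n → U) → Prop), Dp L B P → ∀ a : Fin n → U, P (fun i => j (a i)) ↔ P a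

end defs

/-- [LMT] Realisation of limits.
PROOF.  Let `I` be enumerated: `i_0, i_1, ..` (with repetitions; `I` may be empty).  Recursively choose `w i_0, w i_1, ..` (if
`i_m` is one of the earlier indices keep the value) such that for all `m` and `P` with `Dp B P`, `P` a property of
`m`-tuples: if `P (a N i_0, .., a N i_(m-1))` for `𝒰`-many `N` then `P (w i_0, .., w i_(m-1))`.  Step: saturation over the
finite set `B ∪ {w i_0, .., w i_(m-1)}` for the sets `{v | P (w i_0, .., w i_(m-1), v)}`, `P` a `B`-definable property of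
`m+1`-tuples which holds for `(a N i_0, .., a N i_m)` for `𝒰`-many `N`; finitely many of them have a common point,
since `∃ v, ⋀ P_k` (`dp_ex`) holds for `(a N i_0, .., a N i_(m-1))` for `𝒰`-many `N`.  (Compare (3) of `MNO.St_OMI`.)
For arbitrary tuples of indices: `dp_sub`. -/
def St_LMT : Prop :=
  ∀ (L : FirstOrder.Language.{0, 0}) (U : Type) [L.Structure U], Mon L U →
    ∀ (B : Set U) (I : Type) [Countable I] (a : ℕ → I → U), B.Finite →
    ∃ w : I → U, ∀ (n : ℕ) (P : (Fin n → U) → Prop), Dp L B P → ∀ i : Fin n → I,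
      (∀ᶠ N in (Filter.hyperfilter ℕ : Filter ℕ), P (fun m => a N (i m))) → P (fun m => w (i m))

/-- [EMB] elementary maps.
PROOF.  (1) `b ∈ B`: `P v := v = b`.  (2) Tarski-Vaught: let `s` be definable over `range j`, nonempty; `s = {v | P (v, j a)}`
with a finite tuple `a` and `P` definable over `∅`; `∃ v, P (v, a)` (`Emb` for `∃ v, P (v, ·)`), so `P (v, a)` for some `v`,
so `P (j v, j a)`.  `Sub`: `C ⊆ range j` finite, `C = range (j ∘ c)`, `x : U`: the family of the sets
`{v | P (v, c)}`, `P` definable over `B`, `P (x, j c)`, has the finite intersection property (`Emb`), saturation over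
`B ∪ range c`: `v`; then `P (j v, j c)` for all `P` with `P (x, j c)`: `j v ∈ Orb C x` (`conj_of_def` over `C`).
(3) for `F` with `FE1 A F`: `F (j x) (j y) ↔ F x y` (`Emb` for `n = 2`). -/
def St_EMB : Prop :=
  ∀ (L : FirstOrder.Language.{0, 0}) (U : Type) [L.Structure U], Mon L U →
    ∀ (B : Set U) (j : U → U), B.Finite → Emb L B j →
    (∀ b ∈ B, j b = b) ∧ Sub L B (range j) ∧
      ∀ A : Set U, A ⊆ B → ∀ F : U → U → Prop, FE1 L A F → ∀ x y, F (j x) (j y) ↔ F x y

/-- [OMJ] an elementary map which omits an orbit of `Nx A`.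
PROOF.  As `MNO.St_OMI`.  (1) `E` from SEQ.  (2) For `v ∈ Orb A x` and `n` there are `m > n` and `v' ∈ Orb A x` with
`E n v v'`, not `E m v v'`: as `E n` has finitely many classes and `Orb A x` is not contained in finitely many orbits
of `Nx A`, there are `w, w' ∈ Orb A x` in one class of `E n`, not conjugate under `Nx A` (`Seq.inf`); take `g` over `A` with
`g w = v`, `v' = g w'` (FEQ (6)).  Enumerate `U = {u_0, u_1, ..}`; choose `v_k ∈ Orb A x` and `m_0 < m_1 < ..` with
`E (m_k) v_k v_(k+1)`, not `E (m_(k+1)) u_k v_(k+1)` (one of `v_k` and `v'` has this property).  So no `u ∈ U`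
satisfies `E (m_k) u v_k` for all `k`; and `E (m_l) v_k v_l` for `k ≥ l`.
(3) LMT for `I = Option U`, `a k none = v_k`, `a k (some u) = u`: `x' = w none`, `j u = w (some u)`: `Emb B j`,
`x' ∈ Orb A x` (`A`-definable sets which contain `x` contain all `v_k`; `conj_of_def`), `E (m_l) x' (j v_l)` for all `l`.
If `j u` is conjugate to `x'` under `Nx A` then `E (m_l) (j u) (j v_l)`, so `E (m_l) u v_l` for all `l`: contradiction. -/
def St_OMJ : Prop :=
  ∀ (L : FirstOrder.Language.{0, 0}) (U : Type) [L.Structure U], Mon L U → ∀ (A B : Set U) (x : U),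
    A ⊆ B → B.Finite →
    (¬ ∃ s : Set U, s.Finite ∧ ∀ y ∈ Orb L A x, ∃ z ∈ s, ∃ g : U ≃[L] U, Nx L A g ∧ g z = y) →
    ∃ (j : U → U) (x' : U), Emb L B j ∧ x' ∈ Orb L A x ∧
      ∀ u, ¬ ∃ g : U ≃[L] U, Nx L A g ∧ g x' = j u

/-- [CHN] an increasing chain of saturated submodels with new orbits of `Nx A`.
PROOF.  `j`, `x'` from OMJ.  LMT for `I = ℕ × U`, `a N (n, u) = j^[N - n] u`: `w`; `j_n u = w (n, u)`.  `j_n` is elementary over `B`
(for `N`-many: `j^[N - n]` is).  `j_(n+1) (j u) = j_n u` (equality is definable; `j^[N - (n+1)] (j u) = j^[N - n] u` for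
`N > n`).  `M n = range j_n`: `Sub B` (EMB), `M n ⊆ M (n+1)`.  `y n = j_(n+1) x' ∈ M (n+1)`, in `Orb A x` (EMB (1),
`conj_of_def`).  If `j_n u = j_(n+1) (j u)` is conjugate to `y n` under `Nx A` then `F (j_(n+1) (j u)) (j_(n+1) x')`, so
`F (j u) x'` for all `F` with `FE1 A F` (EMB (3)), so `x'` is conjugate to `j u` (FEQ (4)): contradiction. -/
def St_CHN : Prop :=
  ∀ (L : FirstOrder.Language.{0, 0}) (U : Type) [L.Structure U], Mon L U → ∀ (A B : Set U) (x : U),
    A ⊆ B → B.Finite →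
    (¬ ∃ s : Set U, s.Finite ∧ ∀ y ∈ Orb L A x, ∃ z ∈ s, ∃ g : U ≃[L] U, Nx L A g ∧ g z = y) →
    ∃ (M : ℕ → Set U) (y : ℕ → U), ∀ n, Sub L B (M n) ∧ M n ⊆ M (n + 1) ∧ y n ∈ M (n + 1) ∧
      y n ∈ Orb L A x ∧ ∀ z ∈ M n, ¬ ∃ g : U ≃[L] U, Nx L A g ∧ g z = y n

/-- [FNN] finiteness.
PROOF.  Suppose not, for `A` and `x`.  FCP: finitely many pieces `P_1, .., P_r` over `A` meet `Orb A x`.  For those which are
not contained in a finite set let `B_i`, `E_i` be as in `Hyp.rea`; `B ⊇ A` a finite set which contains all `B_i`.  CHN for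
`B`: `M n`, `y n`.  The points `y n` are pairwise not conjugate under `Nx A`, so (pigeonhole) there is `i` such that
`y n ∈ P_i` for infinitely many `n` (the set `N`), and `P_i` is not contained in a finite set; let `E = E_i`, `B' = B_i`.
For `n ∈ N` there is `p n ∈ M (n+1) ∩ E`, conjugate to `y n` under `Nx A`: `g (y n) ∈ E` with `g` in `Nx A`;
`Sub B (M (n+1))` for `C = insert (y n) B`: `z ∈ M (n+1)`, `z = h (g (y n))` with `h` over `insert (y n) B`; `z ∈ E` (`fxE`), and
`F (y n) (g (y n))` gives `F (h (y n)) (h (g (y n)))`, i.e. `F (y n) z` for all `F` with `FE1 A F`; FEQ (4).  `p n` is not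
conjugate under `Nx A` to a point of `M n`.
(1) `Lin B' E lt`: LNW for `M0 := M n` (RCH (2)), `M := M (n+1)`, `p := p n`: the image of `p n` under the bijection as in
`SmN B'` is a point of `M n` conjugate to `p n` under `Nx B'`, so under `Nx A`: contradiction.
(2) `Fre B' E cl`: let `n_0 < n_1 < ..` be in `N`.  FIF for `M0 := M n_0`, `N k := M (n_k + 1)`, `p k := p n_k`: the clusters
`Kl (N k) (p k)` are pairwise not similar (for `k < l` the points of `Kl (N k) (p k)` are in `M (n_k + 1) ⊆ M n_l`, `p n_l`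
is conjugate to none of them), and none is similar to a cluster of `M n_0`: `Lab` is empty.  Contradiction. -/
def St_FNN : Prop :=
  ∀ (L : FirstOrder.Language.{0, 0}) (U : Type) [L.Structure U], Mon L U → NPf L U → Hyp L U →
    FinN L U

/-- [CJP] bijections which respect conjugate pieces.
PROOF.  `Q = Pq A z`, `Q*` = the union of the images of `Q` under automorphisms over `A`; these are the pieces
`Q_1 = Q, .., Q_r` over `A` which meet `Orb A z` (IMQ (3)), finitely many (`Fcp`).  `e : Y ∩ Q* ≃ Q*` as in `Sm A`.  `Q_i ⊆ Y`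
for `i ≠ 1`.  If `g` over `A` agrees with `e` on `{u, v}` then `u, v` are in the same `Q_i` iff `e u, e v` are in the same
`Q_j`.  If `Y ∩ Q = ∅` then `e` induces an injective relation: every `Q_j` contains `e u` with `u` in some `Q_i`, `i ≠ 1`,
different `j` need different `i`: `r ≤ r - 1`, contradiction.  So there is `u0 ∈ Y ∩ Q`; `e u0 ∈ Q_j`; `e` maps `Y ∩ Q` onto
`Q_j`.  `Q_j = k '' Q` with `k` over `A`.  `k⁻¹ ∘ e : Y ∩ Q ≃ Q` is as in `Sm A`. -/
def St_CJP : Prop :=
  ∀ (L : FirstOrder.Language.{0, 0}) (U : Type) [L.Structure U], Mon L U → ∀ (A Y : Set U) (z : U),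
    A.Finite → Fcp L A →
    (∀ g : U ≃[L] U, Fx L A g → ∀ v ∈ Pq L A z, g v ∉ Pq L A z → g v ∈ Y) →
    Sm L A (Y ∩ {v | ∃ g : U ≃[L] U, Fx L A g ∧ g v ∈ Pq L A z})
      {v | ∃ g : U ≃[L] U, Fx L A g ∧ g v ∈ Pq L A z} →
    Sm L A (Y ∩ Pq L A z) (Pq L A z)

/-- [LF2] lifting from `Sm` to `SmN` for pieces.
PROOF.  `P = Pq A x`.  `f : X ≃ P` as in `Sm A`; `x0 ∈ X` (`P` is not empty), `g0` over `A` with `g0 x0 = f x0`, so `g0 '' P = P`
(IMQ (3), ALQ (8)).  `f1 = g0⁻¹ ∘ f : X ≃ P` is as in `Sm (insert x0 A)`.  `P` is invariant under all automorphisms over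
`insert x0 A` (IMQ (3)).  `MNO.thm_LFT` over `insert x0 A`: `SmN (insert x0 A) X P`, so `SmN A X P` (`nx_mono`). -/
def St_LF2 : Prop :=
  ∀ (L : FirstOrder.Language.{0, 0}) (U : Type) [L.Structure U], Mon L U → FinN L U →
    ∀ (A X : Set U) (x : U), A.Finite → X ⊆ Pq L A x → Sm L A X (Pq L A x) → SmN L A X (Pq L A x)

/-- [RIG] inner pieces are rigid.
PROOF.  `B, g, E, lt` from `Inr`; `y' = g y`, `z' = g z`, `A' = insert y' A`, `Q = Pq (insert y A) z`, `Q' = g '' Q = Pq A' z'` (IMQ (2),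
`g` fixes `A`).  `Q'` misses `B`, so `Q' = Pq (insert y' B) z'` (NNQ for `W = B`; `A' ∪ B = insert y' B`).  `M1 = g '' M` is
`Md A'`.  `M' = {v | v ∈ Q' → v ∈ M1}` is `Md A'` (UNQ over `A'`, `Fcp`), it contains `B` and `y'`, so `Md B M'`.  LNW for
`M0 = univ` (RCH (1)): `w ∈ E` and `e : Iv M' y' y' ≃ Iv univ w w` as in `SmN B`.  `w0 = e y' = g0 y'`, `g0` in `Nx B`; `w0 ~ w`.
Let `C = insert y' B`, `Q* = {v | ∃ h, Fx C h, h v ∈ Q'}`: `Q*` is contained in the cluster of `y'` (`fxE`, `fxl`), so in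
`Iv univ y' y'`.  `u ∈ Q* ↔ e u ∈ g0 '' Q*` for `u ∈ Iv M' y' y'` (an automorphism `h` in `Nx B` which agrees with `e` on
`{u, y'}`; `g0⁻¹ ∘ h` fixes `C`), so `g0⁻¹ ∘ e` restricts to a bijection of `M' ∩ Q*` and `Q*` as in `Sm C` (for finite
`s` take `h` for `s ∪ {y'}`).  If `h` is over `C`, `v ∈ Q'`, `h v ∉ Q'` then `h v ∈ M'`.  CJP over `C` (`Y = M'`):
`Sm C (M' ∩ Q') Q'`, LF2 over `C`: `SmN C (M' ∩ Q') Q'`, `M' ∩ Q' = M1 ∩ Q'`; so `SmN A' (M1 ∩ Q') Q'`; conjugate with
`g⁻¹` (`nx_conj`): `SmN (insert y A) (M ∩ Q) Q`. -/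
def St_RIG : Prop :=
  ∀ (L : FirstOrder.Language.{0, 0}) (U : Type) [L.Structure U], Mon L U → NPf L U → FinN L U →
    ∀ (A : Set U) (y z : U), A.Finite → Inr L A y z → ∀ M : Set U, Md L (insert y A) M →
      SmN L (insert y A) (M ∩ Pq L (insert y A) z) (Pq L (insert y A) z)

/-- [NRQ] only finitely many pieces are not rigid.
PROOF.  Otherwise there is an injective sequence of pieces `Q n = Pq A (z n)`, pairwise not conjugate under `Fx A` (each
has finitely many conjugates: they meet `Orb A (z n)`, `Fcp`), and models `M n` (`Md A`) with not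
`SmN A (M n ∩ Q n) (Q n)`.  For `f : ℕ → Bool` let `m f z = M n` if `z ∈ Q n` and `f n = true`, otherwise `univ`; UNQ: `X f = {z | z ∈ m f z}`, `Md A (X f)`; `{f | v ∈ X f}` is clopen.  `NPf`: `f ≠ f'` and
`e : X f ≃ X f'` as in `Sm A` (or its inverse); let `f n = true`, `f' n = false` (by symmetry of `Sm`, SMQ (9)).
`Q* = {v | ∃ g over A, g v ∈ Q n}`: `X f ∩ Q* ` and `X f' ∩ Q* = Q*` correspond under `e` (`Q*` is invariant under `Fx A`):
`Sm A (X f ∩ Q*) Q*`; if `g` is over `A`, `v ∈ Q n`, `g v ∉ Q n` then `g v ∈ X f` (`g '' Q n` is no `Q m`).  CJP: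
`Sm A (X f ∩ Q n) (Q n)`, `X f ∩ Q n = M n ∩ Q n`, LF2: contradiction. -/
def St_NRQ : Prop :=
  ∀ (L : FirstOrder.Language.{0, 0}) (U : Type) [L.Structure U], Mon L U → NPf L U → FinN L U →
    ∀ A : Set U, A.Finite →
    {Q : Set U | ∃ z, Q = Pq L A z ∧ ∃ M, Md L A M ∧ ¬ SmN L A (M ∩ Q) Q}.Finite

/-- `Q` has countably many parts over `A` -/
def Cpt (L : FirstOrder.Language.{0, 0}) {U : Type} [L.Structure U] (A Q : Set U) : Prop :=
  ∃ c : ℕ → Set U, (∀ n, Md L A (c n)) ∧ ∀ M : Set U, Md L A M → ∃ n, SmN L A (M ∩ Q) (c n ∩ Q)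

/-- [CPT] assembling parts.
PROOF.  (1) SMQ (4).  (2) at most two possibilities for `M ∩ {x}`; `univ` is a model.  (3) Let `N` be the finite set of
the nonrigid pieces over `A` contained in `Q`; for each of them `c_P`; choose for `M` numbers `n_M P`, `P ∈ N`; there
are countably many functions `N → ℕ`; choose one model for each function which occurs.  If `n_M = n_M'` then
`SmN A (M ∩ P) (M' ∩ P)` for all pieces `P ⊆ Q` (both are similar to `P` if `P ∉ N`); SMQ (6).  (4) For the countably many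
`y ∈ Q` let `c_y` be as in `Cpt (insert y A) Q`; the family of all `c_y n` and (if it exists) one model which does not meet
`Q` (SMQ (5)). -/
def St_CPT : Prop :=
  ∀ (L : FirstOrder.Language.{0, 0}) (U : Type) [L.Structure U], Mon L U → ∀ (A Q : Set U), A.Finite →
    (∀ E, Cpt L A E → Q ⊆ E → (∀ g : U ≃[L] U, Nx L A g → ∀ x, g x ∈ Q ↔ x ∈ Q) → Cpt L A Q) ∧
    (∀ x, Q = {x} → Cpt L A Q) ∧
    (Bq L A Q →
      {P : Set U | ∃ z, P = Pq L A z ∧ ∃ M, Md L A M ∧ ¬ SmN L A (M ∩ P) P}.Finite →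
      (∀ z ∈ Q, (∀ M, Md L A M → SmN L A (M ∩ Pq L A z) (Pq L A z)) ∨ Cpt L A (Pq L A z)) →
      Cpt L A Q) ∧
    ((∀ y ∈ Q, Cpt L (insert y A) Q) → Cpt L A Q)

/-- [LXT] countably many parts of a linear piece.
PROOF.  LCL with LNW and LNI, both for `M0 = univ` (RCH (1)). -/
def St_LXT : Prop :=
  ∀ (L : FirstOrder.Language.{0, 0}) (U : Type) [L.Structure U], Mon L U → NPf L U →
    ∀ (A E : Set U) (lt : U → U → Prop), Lin L A E lt → Cpt L A E

/-- [PAR] countably many parts of a nice piece.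
PROOF.  Induction on `n`.  `n = 0`: CPT (2); LXT; FCT and CPT (1) (`Pq A x` is invariant, ALQ (5)).  `n + 1`: if
`Nice n A x`: induction.  Otherwise CPT (4): let `y ∈ Q = Pq A x`, `A' = insert y A`; `Bq A' Q` (ALQ (5), OFQ (3)).
CPT (3) over `A'` (NRQ): for `z ∈ Q` either `Inr A y z` (RIG) or `Nice n A' z` (induction). -/
def St_PAR : Prop :=
  ∀ (L : FirstOrder.Language.{0, 0}) (U : Type) [L.Structure U], Mon L U → NPf L U → FinN L U →
    ∀ (n : ℕ) (A : Set U) (x : U), A.Finite → Nice L n A x → Cpt L A (Pq L A x)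

/-- [CTG] THE COUNTING THEOREM.
PROOF.  FNN: `FinN`.  PAR and `Hyp.nic` over `∅`, NRQ, CPT (3) for `A = ∅`, `Q = univ` (ALQ (1)): `Cpt ∅ univ`: `c`.
`g n = c n`: an elementary submodel `M` is `Md ∅`, `SmN ∅ M (c n)`, so `IsoM` (SMQ (7)). -/
def St_CTG : Prop :=
  ∀ (L : FirstOrder.Language.{0, 0}) (U : Type) [L.Structure U], Mon L U → NPf L U → Hyp L U →
    CtU L U

end Pool.Agent.TPC
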